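import Pool.Agent.K9h84.CI.VgC

/-!
# Complements of a smooth and a very general section of a complete intersection surface
-/

set_option autoImplicit false

open MvPolynomial

namespace Pool.Agent.K9h84.CI

/-- `T` holds for all forms of degree `b` in `s + 3` variables whose vector of coefficients lies
outside countably many hypersurfaces of the space of coefficients -/
def ForVeryGeneral (s b : ℕ) (T : MvPolynomial (Fin (s + 3)) ℂ → Prop) : Prop :=
  ∃ N : Set (MvPolynomial {m : Fin (s + 3) →₀ ℕ // m.degree = b} ℂ), N.Countable ∧ 0 ∉ N ∧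
    ∀ Q : MvPolynomial (Fin (s + 3)) ℂ, Q.IsHomogeneous b →
      (∀ Φ ∈ N, MvPolynomial.eval
        (fun m : {m : Fin (s + 3) →₀ ℕ // m.degree = b} => Q.coeff m.1) Φ ≠ 0) → T Q

/-- a statement about forms with independent coefficients holds for very general forms -/
theorem forVeryGeneral {s b : ℕ} (R : Fin s → PP s) (P : PP s) {T : PP s → Prop}
    (h : ∀ (K : Subfield ℂ) (Q : PP s), Q.IsHomogeneous b → (∀ i, CoeffIn K (R i)) →
      CoeffIn K P → Gen K b Q → T Q) : ForVeryGeneral s b T := by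
  obtain ⟨K, hK, hF⟩ := exists_field (Fin.cons (α := fun _ => PP s) P R : Fin (s + 1) → PP s)
  obtain ⟨N, h1, h2, h3⟩ := very_general K s b
  exact ⟨N, h1, h2, fun Q hQ hN => h K Q hQ (fun i => hF i.succ) (hF 0) (h3 Q hN)⟩

/-- very general pairs, from algebraic rigidity -/
theorem veryGeneral_of {s a b : ℕ} {d : Fin s → ℕ} {R : Fin s → PP s} {P : PP s}
    (hal : ∀ (K : Subfield ℂ) (Q : PP s), Q.IsHomogeneous b → (∀ i, CoeffIn K (R i)) →
      CoeffIn K P → Gen K b Q → SmoothPair R P Q d a b → AlgRigid R P Q)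
    (ha : 1 ≤ a) (hb : 2 ≤ b) (hab : s + 5 ≤ a + b + ∑ i, d i)
    (hR : ∀ i, (R i).IsHomogeneous (d i)) (hd : ∀ i, 1 ≤ d i) (hP : P.IsHomogeneous a)
    (hS : SmoothCI R)
    (hSP : SmoothCI (Fin.cons (α := fun _ => MvPolynomial (Fin (s + 3)) ℂ) P R)) :
    ForVeryGeneral s b (fun Q => SmoothPair R P Q d a b ∧ HypEmbedded R P Q) := by
  refine forVeryGeneral R P fun K Q hQ hRK hPK hQK => ?_
  have hsm : SmoothPair R P Q d a b := hQK.smoothPair hQ hR hd hP hRK hPK hS hSP
  refine ⟨hsm, ?_⟩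
  have hA := hal K Q hQ hRK hPK hQK hsm
  rcases Nat.lt_or_ge a 2 with h2 | h2
  · obtain rfl : a = 1 := by omega
    exact (criterion le_rfl (by omega) (by omega) hsm
      (Or.inr (fibresRigid (by omega) hab hsm hQK hPK hRK))).2 hA
  · exact (criterion ha (by omega) (by omega) hsm (Or.inl ⟨h2, hb⟩)).2 hA

end Pool.Agent.K9h84.CI
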