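import Pool.Agent.K9h84.CI.Zet

/-!
# Curves in the members of the pencil when both degrees are at least two, and the algebraic
criterion for hyperbolicity
-/

set_option autoImplicit false

open Set Filter Topology Metric

namespace Pool.Agent.K9h84.CI

variable {s : ℕ}

theorem hasDerivAt_cr {v w : ℂ → VV s} {v' w' : VV s} {z : ℂ} (hv : HasDerivAt v v' z)
    (hw : HasDerivAt w w' z) : HasDerivAt (fun z => cr (v z) (w z)) (cr v' (w z) + cr (v z) w') z := by
  have h1 := hasDerivAt_pi.1 hv
  have h2 := hasDerivAt_pi.1 hw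
  rw [hasDerivAt_pi]
  intro i
  rw [hasDerivAt_pi]
  intro j
  refine (((h1 i).mul (h2 j)).sub ((h1 j).mul (h2 i))).congr_deriv ?_
  show _ = cr v' (w z) i j + cr (v z) w' i j
  simp only [cr_apply]
  ring

/-- a curve with constant nonzero cross product and bounded logarithmic derivative solves a linear
equation with constant coefficients -/
theorem line_curve {v : ℂ → VV s} (hv : Differentiable ℂ v) (hne : ∀ z, v z ≠ 0) {C : ℝ}
    (hC : 0 ≤ C) (hld : ∀ z, ‖deriv v z‖ ≤ C * ‖v z‖) {w0 : Fin (s + 3) → Fin (s + 3) → ℂ}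
    (hw : ∀ z, cr (v z) (deriv v z) = w0) :
    (∃ A B : VV s, ∀ z, v z = A + z • B) ∨
    ∃ (c : ℂ) (A B : VV s), c ≠ 0 ∧ ∀ z, v z = Complex.exp (c * z) • A + Complex.exp (-(c * z)) • B := by
  have hv1 : Differentiable ℂ (deriv v) := fun z => hv.deriv z
  have hv2 : Differentiable ℂ (deriv (deriv v)) := fun z => hv1.deriv z
  have hpar : ∀ z, cr (deriv (deriv v) z) (v z) = 0 := by
    intro z
    have h1 := hasDerivAt_cr (hv z).hasDerivAt (hv1 z).hasDerivAt
    have h2 : HasDerivAt (fun z => cr (v z) (deriv v z)) 0 z := by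
      have h3 : (fun z => cr (v z) (deriv v z)) = fun _ => w0 := funext hw
      rw [h3]
      exact hasDerivAt_const _ _
    have h3 := h1.unique h2
    rw [cr_self, zero_add] at h3
    rw [cr_comm, h3, neg_zero]
  obtain ⟨m, hm, hvm⟩ := exists_ratio isOpen_univ hv2.differentiableOn hv.differentiableOn
    (fun z _ => hne z) (fun z _ => hpar z)
  rw [differentiableOn_univ] at hm
  have hmb : ∀ z, ‖m z‖ ≤ C * Real.exp C := by
    intro z
    have hp : 0 < ‖v z‖ := norm_pos_iff.2 (hne z)
    have h1 : ‖deriv (deriv v) z‖ ≤ C * (‖v z‖ * Real.exp C) / 1 := by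
      refine Complex.norm_deriv_le_of_forall_mem_sphere_norm_le one_pos hv1.diffContOnCl ?_
      intro w hw
      have h2 := gronwall hv hld w z
      rw [mem_sphere.1 hw, mul_one] at h2
      exact (hld w).trans (mul_le_mul_of_nonneg_left h2 hC)
    rw [hvm z (mem_univ z), norm_smul, div_one] at h1
    have h2 : ‖m z‖ * ‖v z‖ ≤ (C * Real.exp C) * ‖v z‖ := by linarith
    exact le_of_mul_le_mul_right h2 hp
  have hmc : ∀ z, m z = m 0 := by
    intro z
    refine hm.apply_eq_apply_of_bounded ?_ z 0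
    rw [isBounded_iff_forall_norm_le]
    refine ⟨C * Real.exp C, ?_⟩
    rintro _ ⟨y, rfl⟩
    exact hmb y
  by_cases hm0 : m 0 = 0
  · left
    have h2 : ∀ z, deriv v z = deriv v 0 := fun z =>
      is_const_of_deriv_eq_zero hv1 (fun w => by rw [hvm w (mem_univ w), hmc, hm0, zero_smul]) z 0
    refine ⟨v 0, deriv v 0, fun z => ?_⟩
    have h3 : Differentiable ℂ (fun z => v z - z • deriv v 0) :=
      hv.sub (differentiable_id.smul_const _)
    have h4 := is_const_of_deriv_eq_zero h3 (fun w => by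
      have h5 : HasDerivAt (fun z => v z - z • deriv v 0) (deriv v w - (1 : ℂ) • deriv v 0) w :=
        (hv w).hasDerivAt.sub ((hasDerivAt_id w).smul_const _)
      rw [h5.deriv, h2, one_smul, sub_self]) z 0
    simp only [zero_smul, sub_zero] at h4
    rw [← h4, sub_add_cancel]
  · right
    obtain ⟨c, hc⟩ : ∃ c : ℂ, c ^ 2 = m 0 := ⟨_, Complex.cpow_nat_inv_pow (m 0) two_ne_zero⟩
    have hc0 : c ≠ 0 := by
      rintro rfl
      apply hm0
      rw [← hc]
      ring
    have hE : ∀ (sv : ℂ), sv ^ 2 = m 0 → ∀ z, Complex.exp (-(sv * z)) • (deriv v z + sv • v z) =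
        deriv v 0 + sv • v 0 := by
      intro sv hsv z
      have hd : Differentiable ℂ (fun z => Complex.exp (-(sv * z)) • (deriv v z + sv • v z)) := by
        have h1 : Differentiable ℂ (fun z : ℂ => Complex.exp (-(sv * z))) := by fun_prop
        exact h1.smul (hv1.add (hv.const_smul sv))
      have h4 := is_const_of_deriv_eq_zero hd (fun w => by
        have h5 : HasDerivAt (fun z : ℂ => Complex.exp (-(sv * z)))
            (Complex.exp (-(sv * w)) * -(sv * 1)) w :=
          (((hasDerivAt_id w).const_mul sv).neg).cexp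
        have h6 := (h5.smul ((hv1 w).hasDerivAt.add ((hv w).hasDerivAt.const_smul sv))).deriv
        refine h6.trans ?_
        have h7 : (deriv v + sv • v) w = deriv v w + sv • v w := rfl
        rw [h7, hvm w (mem_univ w), hmc, ← hsv]
        module) z 0
      simp only [mul_zero, neg_zero, Complex.exp_zero, one_smul] at h4
      exact h4
    refine ⟨c, (1 / (2 * c)) • (deriv v 0 + c • v 0), (-1 / (2 * c)) • (deriv v 0 + (-c) • v 0), hc0,
      fun z => ?_⟩
    have h1 := hE c hc z
    have h2 := hE (-c) (by rw [neg_sq]; exact hc) z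
    rw [← h1, ← h2]
    have e1 : Complex.exp (c * z) * Complex.exp (-(c * z)) = 1 := by
      rw [← Complex.exp_add, add_neg_cancel, Complex.exp_zero]
    have e2 : -(-c * z) = c * z := by ring
    rw [e2]
    simp only [smul_smul]
    have e3 : Complex.exp (c * z) * (1 / (2 * c) * Complex.exp (-(c * z))) = 1 / (2 * c) := by
      rw [mul_left_comm, e1, mul_one]
    have e4 : Complex.exp (-(c * z)) * (-1 / (2 * c) * Complex.exp (c * z)) = -1 / (2 * c) := by
      rw [mul_left_comm, mul_comm (Complex.exp (-(c * z))), e1, mul_one]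
    rw [e3, e4, smul_add, smul_add, smul_smul, smul_smul]
    have e5 : (1 : ℂ) / (2 * c) * c = 1 / 2 := by field_simp
    have e6 : (-1 : ℂ) / (2 * c) * -c = 1 / 2 := by field_simp
    rw [e5, e6]
    have e7 : (-1 : ℂ) / (2 * c) = -(1 / (2 * c)) := by ring
    rw [e7]
    module

namespace Pair

variable (D : Pair s)

/-- the cross product of a curve in a member of the pencil is constant when both degrees are at
least two -/
theorem fib_cross (hk : 1 ≤ D.k) (ha : 2 ≤ D.a) (hb : 2 ≤ D.b) {B : ℝ} {v : ℂ → VV s} {c0 : ℂ}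
    (hvd : Differentiable ℂ v) (hvp : ∀ z, D.p (v z) = 1) (hc0 : c0 ≠ 0)
    (hvq : ∀ z, D.q (v z) = c0) (hvB : Bro B v) (hon : ∀ z, D.on (v z)) :
    (∃ C : ℝ, 0 < C ∧ ∀ z, ‖deriv v z‖ ≤ C * ‖v z‖) ∧
    ∀ z, cr (v z) (deriv v z) = cr (v 0) (deriv v 0) := by
  have hne : ∀ z, v z ≠ 0 := fun z => D.p_eq_one_ne (hvp z)
  have hB0 : 0 ≤ B := hvB.nonneg (hne 0)
  obtain ⟨C, hC, hld⟩ := D.lda hB0
  have hvl : ∀ z, ‖deriv v z‖ ≤ C * ‖v z‖ := hld 0 (Complex.log c0) v (by simp) hvd hon hvp (fun z => by
    rw [hvq, zero_mul, zero_add, Complex.exp_log hc0]) hvB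
  refine ⟨⟨C, hC, hvl⟩, ?_⟩
  obtain ⟨c, hc, hN⟩ := D.N_lower
  obtain ⟨Cf, hCf, hfib⟩ := D.cr_N_fib2 ha hb c0
  set w : ℂ → Fin (s + 3) → Fin (s + 3) → ℂ := fun z => cr (v z) (deriv v z) with hw
  have hv'd : Differentiable ℂ (deriv v) := fun z => hvd.deriv z
  have hwd : Differentiable ℂ w := fun z =>
    (hasDerivAt_cr (hvd z).hasDerivAt (hv'd z).hasDerivAt).differentiableAt
  set M : ℝ := max 1 (‖c0‖ / c + 1) with hM
  have hM1 : 1 ≤ M := le_max_left _ _
  set C1 : ℝ := C / c * Cf with hC1
  have hC10 : 0 ≤ C1 := by positivity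
  -- bound where the curve is large
  have hbig : ∀ z, M ≤ ‖v z‖ → ‖w z‖ ≤ C1 := by
    intro z hz
    have hv1 : 1 ≤ ‖v z‖ := hM1.trans hz
    have hvp' : 0 < ‖v z‖ := by linarith
    have hNl : c * ‖v z‖ ^ (D.k + 1) ≤ ‖D.N (v z)‖ := by
      rcases hN (v z) (hne z) (hon z) with h | h
      · exact h
      · exfalso
        rw [hvp, hvq, norm_one, one_mul] at h
        have h1 : ‖v z‖ ≤ ‖v z‖ ^ (D.a + D.b) := le_self_pow₀ hv1 (by omega)
        have h2 : ‖c0‖ / c + 1 ≤ ‖v z‖ := (le_max_right _ _).trans hz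
        have h3 : c * (‖c0‖ / c + 1) ≤ c * ‖v z‖ ^ (D.a + D.b) :=
          mul_le_mul_of_nonneg_left (h2.trans h1) hc.le
        have h4 : c * (‖c0‖ / c + 1) = ‖c0‖ + c := by field_simp
        linarith
    have hNpos : 0 < ‖D.N (v z)‖ := lt_of_lt_of_le (by positivity) hNl
    obtain ⟨j, hj⟩ := exists_max (D.N (v z))
    have hj0 : D.N (v z) j ≠ 0 := by
      rw [← norm_pos_iff, hj]
      exact hNpos
    have o1 : dt (gr D.P (v z)) (deriv v z) = 0 := D.orth_p hvd hvp z
    have o2 : dt (gr D.Q (v z)) (deriv v z) = 0 := D.orth_q hvd hvq z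
    have hpar : cr (deriv v z) (D.N (v z)) = 0 := D.par_N o1 o2 fun i => D.orth_R hvd hon i z
    have h5 := parallel hpar hj0
    set l : ℂ := deriv v z j / D.N (v z) j with hl
    have hln : ‖l‖ * ‖D.N (v z)‖ ≤ C * ‖v z‖ := by
      rw [hl, norm_div, hj, div_mul_cancel₀ _ hNpos.ne']
      exact (le3 _ j).trans (hvl z)
    have hEn : ‖cr (v z) (D.N (v z))‖ ≤ Cf * ‖v z‖ ^ D.k :=
      hfib (v z) hv1 (hon z) (hvp z) (hvq z)
    have h8 : w z = l • cr (v z) (D.N (v z)) := by
      rw [hw]
      simp only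
      conv_lhs => rw [h5]
      rw [cr_smul]
    have h9 : ‖l‖ * (c * ‖v z‖ ^ (D.k + 1)) ≤ C * ‖v z‖ :=
      (mul_le_mul_of_nonneg_left hNl (norm_nonneg _)).trans hln
    rw [pow_succ] at h9
    have h11 : (‖l‖ * ‖v z‖ ^ D.k) * (c * ‖v z‖) ≤ (C / c) * (c * ‖v z‖) := by
      have : C / c * (c * ‖v z‖) = C * ‖v z‖ := by field_simp
      rw [this]
      linarith
    have h12 : ‖l‖ * ‖v z‖ ^ D.k ≤ C / c :=
      le_of_mul_le_mul_right h11 (by positivity)
    rw [h8, norm_smul]
    calc ‖l‖ * ‖cr (v z) (D.N (v z))‖ ≤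
        ‖l‖ * (Cf * ‖v z‖ ^ D.k) := by gcongr
      _ = (‖l‖ * ‖v z‖ ^ D.k) * Cf := by ring
      _ ≤ C / c * Cf := by gcongr
  have hwb : ∀ z, ‖w z‖ ≤ max (B * M ^ 2) C1 := by
    intro z
    rcases le_or_gt M ‖v z‖ with h | h
    · exact (hbig z h).trans (le_max_right _ _)
    · refine le_trans ?_ (le_max_left _ _)
      refine (hvB z).trans ?_
      have h1 : ‖v z‖ ^ 2 ≤ M ^ 2 := pow_le_pow_left₀ (norm_nonneg _) h.le 2
      exact mul_le_mul_of_nonneg_left h1 hB0
  intro z
  refine hwd.apply_eq_apply_of_bounded ?_ z 0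
  rw [isBounded_iff_forall_norm_le]
  refine ⟨max (B * M ^ 2) C1, ?_⟩
  rintro _ ⟨y, rfl⟩
  exact hwb y

end Pair

/-- every algebraic map from the punctured line to the surface `R i = 0` outside the curves `P = 0`
and `Q = 0` is constant -/
def AlgRigid (R : Fin s → MvPolynomial (Fin (s + 3)) ℂ) (P Q : MvPolynomial (Fin (s + 3)) ℂ) : Prop :=
  ∀ ψ : Fin (s + 3) → Polynomial ℂ,
    (∀ t : ℂ, t ≠ 0 → (∀ i, MvPolynomial.eval (fun i => (ψ i).eval t) (R i) = 0) ∧
      MvPolynomial.eval (fun i => (ψ i).eval t) P ≠ 0 ∧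
      MvPolynomial.eval (fun i => (ψ i).eval t) Q ≠ 0) →
    ∀ (t' t : ℂ) (i j : Fin (s + 3)), t' ≠ 0 → t ≠ 0 →
      (ψ i).eval t' * (ψ j).eval t = (ψ j).eval t' * (ψ i).eval t

/-- the surface `R i = 0` without the curves `P = 0` and `Q = 0` is hyperbolically embedded in
projective space: the speed at the centre of holomorphic discs of radius `r` is at most `C / r` -/
def HypEmbedded (R : Fin s → MvPolynomial (Fin (s + 3)) ℂ) (P Q : MvPolynomial (Fin (s + 3)) ℂ) :
    Prop :=
  ∃ C : ℝ, 0 < C ∧ ∀ (r : ℝ) (z0 : ℂ) (f : ℂ → Fin (s + 3) → ℂ), 0 < r →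
    DifferentiableOn ℂ f (ball z0 r) →
    (∀ z ∈ ball z0 r, (∀ i, MvPolynomial.eval (f z) (R i) = 0) ∧ MvPolynomial.eval (f z) P ≠ 0 ∧
      MvPolynomial.eval (f z) Q ≠ 0) →
    ∀ i j, ‖f z0 i * deriv f z0 j - f z0 j * deriv f z0 i‖ ≤ C / r * ‖f z0‖ ^ 2

theorem cr_eq_zero_of_comp {a b : VV s} (h : ∀ i j : Fin (s + 3), a i * b j = a j * b i) : cr a b = 0 := by
  funext i j
  show a i * b j - a j * b i = 0
  rw [h i j, sub_self]

/-- bounded speed curves are constant under the algebraic hypothesis -/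
theorem no_brody {R : Fin s → PP s} {P Q : PP s} {d : Fin s → ℕ} {a b : ℕ} (ha : 1 ≤ a) (hb : 1 ≤ b)
    (hab : s + 4 ≤ a + b + ∑ i, d i) (h : SmoothPair R P Q d a b)
    (hr : (2 ≤ a ∧ 2 ≤ b) ∨ FibresRigid R P Q a b)
    (hno : AlgRigid R P Q) (V : ℂ → VV s) (B : ℝ) (hV : Differentiable ℂ V) (hVB : Bro B V)
    (hVon : ∀ z i, MvPolynomial.eval (V z) (R i) = 0)
    (hVp : ∀ z, MvPolynomial.eval (V z) P = 1) (hVq : ∀ z, MvPolynomial.eval (V z) Q ≠ 0) :
    cr (V 0) (deriv V 0) = 0 := by
  have hk : 1 ≤ (h.toPair ha hb hab).k := by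
    show 1 ≤ a + b + ∑ i, d i - (s + 3)
    omega
  have hne : ∀ z, V z ≠ 0 := fun z h0 => by
    have h1 := hVp z
    rw [h0] at h1
    have h2 : MvPolynomial.eval (0 : VV s) P = 0 := (h.toPair ha hb hab).p_zero
    rw [h2] at h1
    exact zero_ne_one h1
  rcases (h.toPair ha hb hab).main hk hV hVon (fun z => by
    show MvPolynomial.eval (V z) P ≠ 0
    rw [hVp]
    exact one_ne_zero) hVq hVB with ⟨c, hc, hfib⟩ | ⟨c, φ, g, hc, hg, hg0, hφ⟩
  · -- the curve lies in a member of the pencil
    have hfib' : ∀ z, MvPolynomial.eval (V z) Q ^ a = c * MvPolynomial.eval (V z) P ^ b := hfib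
    rcases hr with ⟨ha2, hb2⟩ | hr
    · -- the second form is constant
      have hqd : Differentiable ℂ (fun z => MvPolynomial.eval (V z) Q) := fun z =>
        ((h.toPair ha hb hab).hB.hasDerivAt (hV z).hasDerivAt).differentiableAt
      have hqn : ∀ z, ‖MvPolynomial.eval (V z) Q‖ ≤ max 1 ‖c‖ := by
        intro z
        have h1 := congrArg norm (hfib' z)
        rw [hVp, one_pow, mul_one, norm_pow] at h1
        rcases le_or_gt ‖MvPolynomial.eval (V z) Q‖ 1 with h2 | h2
        · exact h2.trans (le_max_left _ _)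
        · refine le_trans ?_ (le_max_right _ _)
          rw [← h1]
          exact le_self_pow₀ h2.le (by omega)
      have hqc : ∀ z, MvPolynomial.eval (V z) Q = MvPolynomial.eval (V 0) Q := by
        intro z
        refine hqd.apply_eq_apply_of_bounded ?_ z 0
        rw [isBounded_iff_forall_norm_le]
        refine ⟨max 1 ‖c‖, ?_⟩
        rintro _ ⟨y, rfl⟩
        exact hqn y
      obtain ⟨⟨C, hC, hld⟩, hw⟩ := (h.toPair ha hb hab).fib_cross hk ha2 hb2 hV hVp (hVq 0) hqc hVB hVon
      rcases line_curve hV hne hC.le hld hw with ⟨A, B', hAB⟩ | ⟨c1, A, B', hc1, hAB⟩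
      · -- an affine line
        have h1 := hno (fun i => Polynomial.C (A i) + Polynomial.X * Polynomial.C (B' i)) (fun t _ => by
          have h2 : (fun i => (Polynomial.C (A i) + Polynomial.X * Polynomial.C (B' i)).eval t) = V t := by
            rw [hAB t]
            funext i
            simp only [Polynomial.eval_add, Polynomial.eval_mul, Polynomial.eval_C,
              Polynomial.eval_X, Pi.add_apply, Pi.smul_apply, smul_eq_mul]
          rw [h2]
          refine ⟨hVon t, ?_, hVq t⟩
          rw [hVp]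
          exact one_ne_zero)
        have h2 : ∀ sv t : ℂ, sv ≠ 0 → t ≠ 0 → cr (V sv) (V t) = 0 := by
          intro sv t hsv ht
          refine cr_eq_zero_of_comp fun i j => ?_
          have h3 := h1 sv t i j hsv ht
          simp only [Polynomial.eval_add, Polynomial.eval_mul, Polynomial.eval_C,
            Polynomial.eval_X] at h3
          rw [hAB sv, hAB t]
          simpa using h3
        have h3 : ∀ sv : ℂ, sv ≠ 0 → cr (V sv) (deriv V sv) = 0 := by
          intro sv hsv
          have hsl : Tendsto (slope V sv) (𝓝[≠] sv) (𝓝 (deriv V sv)) :=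
            hasDerivAt_iff_tendsto_slope.1 (hV sv).hasDerivAt
          have h4 : Tendsto (fun w => cr (V sv) (slope V sv w)) (𝓝[≠] sv) (𝓝 (cr (V sv) (deriv V sv))) := by
            have h5 : Tendsto (fun w => ((V sv, slope V sv w) : VV s × VV s)) (𝓝[≠] sv)
                (𝓝 (V sv, deriv V sv)) := tendsto_const_nhds.prodMk_nhds hsl
            exact (cr_cont.tendsto _).comp h5
          have h6 : ∀ᶠ w in 𝓝[≠] sv, cr (V sv) (slope V sv w) = 0 := by
            have h7 : ∀ᶠ w in 𝓝[≠] sv, w ≠ 0 :=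
              mem_nhdsWithin_of_mem_nhds (isOpen_ne.mem_nhds hsv)
            filter_upwards [h7] with w hw0
            have e2 : slope V sv w = (w - sv)⁻¹ • (V w - V sv) := rfl
            rw [e2, cr_smul, cr_sub, h2 sv w hsv hw0, cr_self, sub_zero, smul_zero]
          exact tendsto_nhds_unique h4 (tendsto_const_nhds.congr' (h6.mono fun w hw => hw.symm))
        rw [← hw 1]
        exact h3 1 one_ne_zero
      · -- a punctured line
        have h1 := hno (fun i => Polynomial.X ^ 2 * Polynomial.C (A i) + Polynomial.C (B' i))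
          (fun t ht => by
            have h2 : (fun i => (Polynomial.X ^ 2 * Polynomial.C (A i) + Polynomial.C (B' i)).eval t) =
                t • V (Complex.log t / c1) := by
              rw [hAB]
              have e1 : c1 * (Complex.log t / c1) = Complex.log t := by field_simp
              rw [e1, Complex.exp_neg, Complex.exp_log ht]
              funext i
              simp
              field_simp
            rw [h2]
            have e1 : MvPolynomial.eval (t • V (Complex.log t / c1)) P =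
              t ^ a * MvPolynomial.eval (V (Complex.log t / c1)) P :=
              (h.toPair ha hb hab).p_smul _ _
            have e2 : MvPolynomial.eval (t • V (Complex.log t / c1)) Q =
              t ^ b * MvPolynomial.eval (V (Complex.log t / c1)) Q :=
              (h.toPair ha hb hab).q_smul _ _
            rw [e1, e2, hVp]
            exact ⟨(h.toPair ha hb hab).on_smul (hVon _), mul_ne_zero (pow_ne_zero _ ht) one_ne_zero,
              mul_ne_zero (pow_ne_zero _ ht) (hVq _)⟩)
        have h2 : ∀ z w : ℂ, cr (V z) (V w) = 0 := by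
          intro z w
          have hev : ∀ z i, (Polynomial.X ^ 2 * Polynomial.C (A i) + Polynomial.C (B' i)).eval
              (Complex.exp (c1 * z)) = Complex.exp (c1 * z) * V z i := by
            intro z i
            rw [hAB]
            simp only [Polynomial.eval_add, Polynomial.eval_mul, Polynomial.eval_C,
              Polynomial.eval_X, Polynomial.eval_pow, Pi.add_apply, Pi.smul_apply, smul_eq_mul]
            rw [mul_add, ← mul_assoc, ← mul_assoc, ← Complex.exp_add (c1 * z) (-(c1 * z)),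
              add_neg_cancel, Complex.exp_zero, one_mul, ← pow_two]
          refine cr_eq_zero_of_comp fun i j => ?_
          have h3 := h1 (Complex.exp (c1 * z)) (Complex.exp (c1 * w)) i j (Complex.exp_ne_zero _)
            (Complex.exp_ne_zero _)
          rw [hev, hev, hev, hev] at h3
          have e1 : Complex.exp (c1 * z) * Complex.exp (c1 * w) ≠ 0 :=
            mul_ne_zero (Complex.exp_ne_zero _) (Complex.exp_ne_zero _)
          apply mul_left_cancel₀ e1
          linear_combination h3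
        exact speed_zero hV h2 0
    · have h1 := hr V ⟨hV, hVon, fun z => by rw [hVp]; exact one_ne_zero, hVq⟩
        ⟨B, fun z i j => (cross_comp _ _ i j).trans (hVB z)⟩ ⟨c, hc, hfib'⟩
      exact speed_zero hV (not_nonconst h1) 0
  · have h1 := hno φ (fun t ht => by
      have h2 : (fun i => (φ i).eval t) = g (Complex.log t / c) • V (Complex.log t / c) := by
        funext i
        have h3 := hφ (Complex.log t / c) i
        have e1 : c * (Complex.log t / c) = Complex.log t := by field_simp
        rw [e1, Complex.exp_log ht] at h3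
        rw [← h3]
        rfl
      rw [h2]
      have e1 : MvPolynomial.eval (g (Complex.log t / c) • V (Complex.log t / c)) P =
        g (Complex.log t / c) ^ a * MvPolynomial.eval (V (Complex.log t / c)) P :=
        (h.toPair ha hb hab).p_smul _ _
      have e2 : MvPolynomial.eval (g (Complex.log t / c) • V (Complex.log t / c)) Q =
        g (Complex.log t / c) ^ b * MvPolynomial.eval (V (Complex.log t / c)) Q :=
        (h.toPair ha hb hab).q_smul _ _
      rw [e1, e2, hVp]
      exact ⟨(h.toPair ha hb hab).on_smul (hVon _), mul_ne_zero (pow_ne_zero _ (hg0 _)) one_ne_zero,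
        mul_ne_zero (pow_ne_zero _ (hg0 _)) (hVq _)⟩)
    have h2 : ∀ z w : ℂ, cr (V z) (V w) = 0 := by
      intro z w
      refine cr_eq_zero_of_comp fun i j => ?_
      have h3 := h1 (Complex.exp (c * z)) (Complex.exp (c * w)) i j (Complex.exp_ne_zero _)
        (Complex.exp_ne_zero _)
      rw [← hφ, ← hφ, ← hφ, ← hφ] at h3
      have e1 : g z * g w ≠ 0 := mul_ne_zero (hg0 _) (hg0 _)
      apply mul_left_cancel₀ e1
      linear_combination h3
    exact speed_zero hV h2 0

/-- **criterion** -/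
theorem criterion {R : Fin s → PP s} {P Q : PP s} {d : Fin s → ℕ} {a b : ℕ} (ha : 1 ≤ a) (hb : 1 ≤ b)
    (hab : s + 4 ≤ a + b + ∑ i, d i) (h : SmoothPair R P Q d a b)
    (hr : (2 ≤ a ∧ 2 ≤ b) ∨ FibresRigid R P Q a b) :
    HypEmbedded R P Q ↔ AlgRigid R P Q := by
  constructor
  · rintro ⟨C, hC, hf⟩ ψ hψ sv t i j hsv ht
    have hne : ∀ t : ℂ, t ≠ 0 → (fun i => (ψ i).eval t) ≠ 0 := by
      intro t ht h0
      apply (hψ t ht).2.1
      rw [h0]
      exact (h.toPair ha hb hab).p_zero
    obtain ⟨hd, -⟩ := alg_bro hne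
    have hsp : ∀ z, cr ((fun z i => (ψ i).eval (Complex.exp z) : ℂ → VV s) z)
        (deriv (fun z i => (ψ i).eval (Complex.exp z) : ℂ → VV s) z) = 0 := by
      intro z
      set f : ℂ → VV s := fun z i => (ψ i).eval (Complex.exp z) with hfdef
      have h1 : ∀ i j, f z i * deriv f z j - f z j * deriv f z i = 0 := by
        intro i j
        rw [← norm_le_zero_iff]
        have h2 : Tendsto (fun r : ℝ => C / r * ‖f z‖ ^ 2) atTop (𝓝 (0 * ‖f z‖ ^ 2)) :=
          (tendsto_const_nhds.div_atTop tendsto_id).mul_const _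
        rw [zero_mul] at h2
        refine ge_of_tendsto h2 ?_
        filter_upwards [eventually_gt_atTop 0] with r hr
        exact hf r z f hr hd.differentiableOn (fun w _ => hψ _ (Complex.exp_ne_zero w)) i j
      exact cr_eq_zero_of_comp fun i j => sub_eq_zero.1 (h1 i j)
    have h1 := (h.toPair ha hb hab).const_of_speed hd
      (fun z => (hψ _ (Complex.exp_ne_zero z)).2.1) hsp (Complex.log sv) (Complex.log t)
    have h2 := cross_comp _ _ i j |>.trans (le_of_eq (congrArg norm h1))
    rw [norm_zero] at h2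
    have h3 := sub_eq_zero.1 (norm_le_zero_iff.1 h2)
    simp only [Complex.exp_log hsv, Complex.exp_log ht] at h3
    exact h3
  · intro hno
    have hk : 1 ≤ (h.toPair ha hb hab).k := by
      show 1 ≤ a + b + ∑ i, d i - (s + 3)
      omega
    obtain ⟨C, hC, hb'⟩ := (h.toPair ha hb hab).speed_bound hk (fun V B hV hVB hVon hVp hVq =>
      no_brody ha hb hab h hr hno V B hV hVB hVon hVp hVq)
    refine ⟨C, hC, fun r z0 f hr' hf hoff i j => ?_⟩
    have hin : ∀ z ∈ ball (0 : ℂ) r, z0 + z ∈ ball z0 r := by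
      intro z hz
      rw [mem_ball, dist_eq_norm, add_sub_cancel_left]
      exact mem_ball_zero_iff.1 hz
    have h1 := hb' r (fun z => f (z0 + z)) hr' (by
      refine hf.comp ?_ hin
      fun_prop) (fun z hz => (hoff _ (hin z hz)).1) (fun z hz => (hoff _ (hin z hz)).2.1)
      (fun z hz => (hoff _ (hin z hz)).2.2)
    have h2 : deriv (fun z => f (z0 + z)) 0 = deriv f z0 := by
      have h3 : HasDerivAt f (deriv f z0) (z0 + 0) := by
        rw [add_zero]
        exact (hf.differentiableAt (isOpen_ball.mem_nhds (mem_ball_self hr'))).hasDerivAt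
      have h4 : HasDerivAt (fun z : ℂ => z0 + z) 1 0 := (hasDerivAt_id (0 : ℂ)).const_add z0
      have h5 := h3.scomp (0 : ℂ) h4
      rw [one_smul] at h5
      exact h5.deriv
    rw [h2] at h1
    simp only [add_zero] at h1
    exact (cross_comp _ _ i j).trans h1

end Pool.Agent.K9h84.CI
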