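import Pool.Agent.K9h84.CI.Cri

/-!
# Rigidity of the members of the pencil when both degrees are at least two
-/

set_option autoImplicit false

open Set Filter Topology Metric

namespace Pool.Agent.K9h84.CI

variable {s : ℕ}

theorem eq_of_ne_zero {f g : ℂ → ℂ} (hf : Continuous f) (hg : Continuous g)
    (h : ∀ t : ℂ, t ≠ 0 → f t = g t) (t : ℂ) : f t = g t :=
  congrFun (Continuous.ext_on (dense_compl_singleton (0 : ℂ)) hf hg fun t ht => h t ht) t

namespace Pair

variable (D : Pair s)

/-- no affine line lies in a member of the pencil if both degrees are at least two -/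
theorem no_affine (ha : 2 ≤ D.a) (hb : 2 ≤ D.b) {v : ℂ → VV s} {c0 : ℂ} (hon : ∀ z, D.on (v z))
    (hvp : ∀ z, D.p (v z) = 1) (hvq : ∀ z, D.q (v z) = c0) {A B : VV s}
    (hAB : ∀ z, v z = A + z • B) : B = 0 := by
  by_contra hB
  have hne : ∀ z, v z ≠ 0 := fun z => D.p_eq_one_ne (hvp z)
  have hsm : ∀ t : ℂ, t ≠ 0 → B + t • A = t • v t⁻¹ := by
    intro t ht
    rw [hAB, smul_add, smul_smul, mul_inv_cancel₀ ht, one_smul, add_comm]
  have hlin : Continuous (fun t : ℂ => B + t • A) := by fun_prop
  have hder : HasDerivAt (fun t : ℂ => B + t • A) A 0 := by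
    have := ((hasDerivAt_id (0 : ℂ)).smul_const A).const_add B
    rwa [one_smul] at this
  have e0 : B + (0 : ℂ) • A = B := by rw [zero_smul, add_zero]
  have hpow : ∀ n : ℕ, 2 ≤ n → HasDerivAt (fun t : ℂ => t ^ n) 0 0 := by
    intro n hn
    have h1 := hasDerivAt_pow n (0 : ℂ)
    rwa [zero_pow (by omega), mul_zero] at h1
  -- the first form
  have hP : ∀ t : ℂ, D.p (B + t • A) = t ^ D.a := by
    refine eq_of_ne_zero (D.p_cont.comp hlin) (continuous_pow _) fun t ht => ?_
    show D.p (B + t • A) = t ^ D.a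
    rw [hsm t ht, D.p_smul, hvp, mul_one]
  have hP0 : D.p B = 0 := by
    have := hP 0
    rwa [e0, zero_pow (by omega)] at this
  have hPd : dt (gr D.P B) A = 0 := by
    have h1 := D.hA.hasDerivAt hder
    rw [e0] at h1
    have h2 : HasDerivAt (fun t : ℂ => MvPolynomial.eval (B + t • A) D.P) 0 0 := by
      have h3 : (fun t : ℂ => MvPolynomial.eval (B + t • A) D.P) = fun t => t ^ D.a := funext hP
      rw [h3]
      exact hpow _ ha
    exact h1.unique h2
  -- the second form
  have hQ : ∀ t : ℂ, D.q (B + t • A) = t ^ D.b * c0 := by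
    refine eq_of_ne_zero (D.q_cont.comp hlin) (by fun_prop) fun t ht => ?_
    show D.q (B + t • A) = t ^ D.b * c0
    rw [hsm t ht, D.q_smul, hvq]
  have hQ0 : D.q B = 0 := by
    have := hQ 0
    rwa [e0, zero_pow (by omega), zero_mul] at this
  have hQd : dt (gr D.Q B) A = 0 := by
    have h1 := D.hB.hasDerivAt hder
    rw [e0] at h1
    have h2 : HasDerivAt (fun t : ℂ => MvPolynomial.eval (B + t • A) D.Q) 0 0 := by
      have h3 : (fun t : ℂ => MvPolynomial.eval (B + t • A) D.Q) = fun t => t ^ D.b * c0 :=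
        funext hQ
      rw [h3]
      have h4 := (hpow _ hb).mul_const c0
      rwa [zero_mul] at h4
    exact h1.unique h2
  -- the surface
  have hR : ∀ t : ℂ, D.on (B + t • A) := by
    intro t i
    refine eq_of_ne_zero (f := fun t : ℂ => MvPolynomial.eval (B + t • A) (D.R i))
      (g := fun _ => 0) ((ev_cont (D.R i)).comp hlin) continuous_const (fun t ht => ?_) t
    show MvPolynomial.eval (B + t • A) (D.R i) = 0
    rw [hsm t ht]
    exact D.on_smul (hon _) i
  have hR0 : D.on B := by
    have := hR 0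
    rwa [e0] at this
  have hRd : ∀ i, dt (gr (D.R i) B) A = 0 := by
    intro i
    obtain ⟨A', hA'⟩ := exists_dd (D.hR i)
    have h1 := hA'.hasDerivAt hder
    rw [e0] at h1
    have h2 : HasDerivAt (fun t : ℂ => MvPolynomial.eval (B + t • A) (D.R i)) 0 0 := by
      have h3 : (fun t : ℂ => MvPolynomial.eval (B + t • A) (D.R i)) = fun _ => 0 :=
        funext fun t => hR t i
      rw [h3]
      exact hasDerivAt_const _ _
    exact h1.unique h2
  -- both vectors are parallel to the Jacobian vector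
  have hN : D.N B ≠ 0 := D.N_ne hB hR0 (by rw [hP0, zero_mul])
  obtain ⟨j, hj⟩ := exists_max (D.N B)
  have hj0 : D.N B j ≠ 0 := by
    rw [← norm_pos_iff, hj]
    exact norm_pos_iff.2 hN
  obtain ⟨α, hα⟩ : ∃ α : ℂ, A = α • D.N B := ⟨_, parallel (D.par_N hPd hQd hRd) hj0⟩
  obtain ⟨β, hβ⟩ : ∃ β : ℂ, B = β • D.N B := ⟨_, parallel (D.par_N (x := B) (d := B) (by
    rw [dt_comm, euler D.hP]
    show (D.a : ℂ) * D.p B = 0
    rw [hP0, mul_zero]) (by
    rw [dt_comm, euler D.hQ]
    show (D.b : ℂ) * D.q B = 0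
    rw [hQ0, mul_zero]) fun i => by
    rw [dt_comm, D.euler_on hR0 i]) hj0⟩
  have hβ0 : β ≠ 0 := by
    intro h0
    apply hB
    rw [hβ, h0, zero_smul]
  apply hne (-(α / β))
  rw [hAB]
  have h1 : (-(α / β)) • B = (-α) • D.N B := by
    conv_lhs => rw [hβ]
    rw [smul_smul]
    congr 1
    field_simp
  rw [h1]
  conv_lhs => rw [hα]
  rw [neg_smul]
  exact add_neg_cancel _

/-- **rigidity** when both degrees are at least two and there is no suitable line -/
theorem hf_of_line (hk : 1 ≤ D.k) (ha : 2 ≤ D.a) (hb : 2 ≤ D.b)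
    (ho : Odd D.a ∨ Odd D.b ∨ ∀ A B : VV s, (∀ x y : ℂ, x ≠ 0 → y ≠ 0 →
      D.on (x • A + y • B) ∧ D.p (x • A + y • B) ≠ 0 ∧ D.q (x • A + y • B) ≠ 0) →
      ∀ i j, A i * B j = A j * B i) : D.HF := by
  intro B v c0 hvd hon hvp hc0 hvq hvB
  have hne : ∀ z, v z ≠ 0 := fun z => D.p_eq_one_ne (hvp z)
  obtain ⟨⟨C, hC, hld⟩, hw⟩ := D.fib_cross hk ha hb hvd hvp hc0 hvq hvB hon
  rcases line_curve hvd hne hC.le hld hw with ⟨A, B', hAB⟩ | ⟨c, A, B', hc, hAB⟩
  · have hB' := D.no_affine ha hb hon hvp hvq hAB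
    intro z
    have h1 : v = fun _ => A := funext fun z => by rw [hAB, hB', smul_zero, add_zero]
    have h2 : deriv v z = 0 := by
      rw [h1, deriv_const]
    have h0 : cr (v z) 0 = 0 := by
      have := cr_smul (v z) 0 0
      rw [zero_smul, zero_smul] at this
      exact this
    rw [h2, h0]
  · have h1 : v (Real.pi * Complex.I / c) = (-1 : ℂ) • v 0 := by
      rw [hAB, hAB]
      have e1 : c * (Real.pi * Complex.I / c) = Real.pi * Complex.I := by field_simp
      rw [e1, Complex.exp_pi_mul_I, Complex.exp_neg, Complex.exp_pi_mul_I, mul_zero, neg_zero,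
        Complex.exp_zero, inv_neg, inv_one]
      module
    rcases ho with ho | ho | ho
    · exfalso
      have h2 := hvp (Real.pi * Complex.I / c)
      rw [h1, D.p_smul, hvp, ho.neg_one_pow] at h2
      norm_num at h2
    · exfalso
      have h2 := hvq (Real.pi * Complex.I / c)
      rw [h1, D.q_smul, hvq, ho.neg_one_pow] at h2
      have h3 : 2 * c0 = 0 := by linear_combination -h2
      rcases mul_eq_zero.1 h3 with h4 | h4
      · norm_num at h4
      · exact hc0 h4
    · -- the curve lies on a line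
      have hpar := ho A B' (fun x y hx hy => by
        set z : ℂ := Complex.log (x / y) / (2 * c) with hz
        have hxy : x / y ≠ 0 := div_ne_zero hx hy
        have e1 : Complex.exp (c * z) * Complex.exp (c * z) = x / y := by
          rw [← Complex.exp_add]
          have : c * z + c * z = Complex.log (x / y) := by
            rw [hz]
            field_simp
            ring
          rw [this, Complex.exp_log hxy]
        have e2 : Complex.exp (c * z) * Complex.exp (-(c * z)) = 1 := by
          rw [← Complex.exp_add, add_neg_cancel, Complex.exp_zero]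
        have e3 : x • A + y • B' = (y * Complex.exp (c * z)) • v z := by
          rw [hAB, smul_add, smul_smul, smul_smul, mul_assoc, e1, mul_assoc, e2, mul_one,
            mul_div_cancel₀ _ hy]
        have e4 : y * Complex.exp (c * z) ≠ 0 := mul_ne_zero hy (Complex.exp_ne_zero _)
        rw [e3]
        refine ⟨D.on_smul (hon z), ?_, ?_⟩
        · rw [D.p_smul, hvp, mul_one]
          exact pow_ne_zero _ e4
        · rw [D.q_smul, hvq]
          exact mul_ne_zero (pow_ne_zero _ e4) hc0)
      refine speed_zero hvd fun z w => ?_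
      funext i j
      show v z i * v w j - v z j * v w i = 0
      rw [hAB, hAB]
      simp only [Pi.add_apply, Pi.smul_apply, smul_eq_mul]
      linear_combination (Complex.exp (c * z) * Complex.exp (-(c * w)) -
        Complex.exp (-(c * z)) * Complex.exp (c * w)) * hpar i j

end Pair

/-- no line in the surface meets the curves `P = 0`, `Q = 0` in at most two points: if all points
`x A + y B` with nonzero `x`, `y` lie in the surface outside the two curves, then `A` and `B` are
proportional -/
def NoTwoPointLine (R : Fin s → MvPolynomial (Fin (s + 3)) ℂ) (P Q : MvPolynomial (Fin (s + 3)) ℂ) :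
    Prop :=
  ∀ A B : Fin (s + 3) → ℂ, (∀ x y : ℂ, x ≠ 0 → y ≠ 0 →
    (∀ i, MvPolynomial.eval (x • A + y • B) (R i) = 0) ∧ MvPolynomial.eval (x • A + y • B) P ≠ 0 ∧
      MvPolynomial.eval (x • A + y • B) Q ≠ 0) → ∀ i j, A i * B j = A j * B i

/-- the cases in which the members of the pencil contain no nonconstant curves of bounded speed -/
theorem hf_of_deg {R : Fin s → PP s} {P Q : PP s} {d : Fin s → ℕ} {a b : ℕ} (ha : 1 ≤ a) (hb : 1 ≤ b)
    (hab : s + 4 ≤ a + b + ∑ i, d i) (h : SmoothPair R P Q d a b)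
    (hr : (2 ≤ a ∧ 2 ≤ b ∧ ((3 ≤ a ∧ 3 ≤ b) ∨ Odd a ∨ Odd b ∨ NoTwoPointLine R P Q)) ∨
      FibresRigid R P Q a b) : (h.toPair ha hb hab).HF := by
  have hk : 1 ≤ (h.toPair ha hb hab).k := by
    show 1 ≤ a + b + ∑ i, d i - (s + 3)
    omega
  rcases hr with ⟨h2, h2', h3 | ho⟩ | hr
  · exact (h.toPair ha hb hab).hf_of_three hk h3.1 h3.2
  · exact (h.toPair ha hb hab).hf_of_line hk h2 h2' ho
  · exact hf_of_rigid h ha hb hab hr

end Pool.Agent.K9h84.CI
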