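import Pool.Agent.K9h84.CI.PunG
import Pool.Agent.K9h84.CI.Odd
import Pool.Agent.K9h39.GB

/-!
# The structure theorem in terms of the public definitions
-/

set_option autoImplicit false

open Set Filter Topology Metric

namespace Pool.Agent.K9h84.CI

variable {s : ℕ}

/-- `f` is a lift of a holomorphic map from the punctured unit disc to the surface `R i = 0` outside
the curves `P = 0` and `Q = 0` -/
structure PuncturedCurveIn (R : Fin s → MvPolynomial (Fin (s + 3)) ℂ)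
    (P Q : MvPolynomial (Fin (s + 3)) ℂ) (f : ℂ → Fin (s + 3) → ℂ) : Prop where
  hol : DifferentiableOn ℂ f {z : ℂ | 0 < ‖z‖ ∧ ‖z‖ < 1}
  on : ∀ z : ℂ, 0 < ‖z‖ → ‖z‖ < 1 → ∀ i, MvPolynomial.eval (f z) (R i) = 0
  offP : ∀ z : ℂ, 0 < ‖z‖ → ‖z‖ < 1 → MvPolynomial.eval (f z) P ≠ 0
  offQ : ∀ z : ℂ, 0 < ‖z‖ → ‖z‖ < 1 → MvPolynomial.eval (f z) Q ≠ 0

/-- the map to projective space with lift `f` on the punctured unit disc extends holomorphically
over the puncture -/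
def ExtendsAtZero {n : ℕ} (f : ℂ → Fin n → ℂ) : Prop :=
  ∃ (r : ℝ) (F : ℂ → Fin n → ℂ), 0 < r ∧ r ≤ 1 ∧ DifferentiableOn ℂ F (ball 0 r) ∧
    (∀ z ∈ ball (0 : ℂ) r, F z ≠ 0) ∧
    ∀ z : ℂ, 0 < ‖z‖ → ‖z‖ < r → ∀ i i', F z i * f z i' = F z i' * f z i

/-- **structure theorem** -/
theorem all_curves2 {R : Fin s → MvPolynomial (Fin (s + 3)) ℂ} {P Q : MvPolynomial (Fin (s + 3)) ℂ}
    {d : Fin s → ℕ} {a b : ℕ} (ha : 1 ≤ a) (hb : 1 ≤ b) (hab : s + 4 ≤ a + b + ∑ i, d i)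
    (h : SmoothPair R P Q d a b)
    (hr : (2 ≤ a ∧ 2 ≤ b ∧ ((3 ≤ a ∧ 3 ≤ b) ∨ Odd a ∨ Odd b ∨ NoTwoPointLine R P Q)) ∨
      FibresRigid R P Q a b) :
    ∃ (n N : ℕ) (G : MvPolynomial (Fin (s + 3)) ℂ) (φ : Fin N → Fin (s + 3) → Polynomial ℂ),
      G.IsHomogeneous n ∧
      (∃ x : Fin (s + 3) → ℂ, x ≠ 0 ∧ (∀ i, MvPolynomial.eval x (R i) = 0) ∧
        MvPolynomial.eval x G ≠ 0) ∧
      (∀ j, (∀ t : ℂ, t ≠ 0 → (∀ i, MvPolynomial.eval (fun i => (φ j i).eval t) (R i) = 0) ∧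
          MvPolynomial.eval (fun i => (φ j i).eval t) P ≠ 0 ∧
          MvPolynomial.eval (fun i => (φ j i).eval t) Q ≠ 0 ∧
          MvPolynomial.eval (fun i => (φ j i).eval t) G = 0) ∧
        ∃ (t t' : ℂ) (i i' : Fin (s + 3)), t ≠ 0 ∧ t' ≠ 0 ∧
          (φ j i).eval t * (φ j i').eval t' ≠ (φ j i').eval t * (φ j i).eval t') ∧
      (∀ f : ℂ → Fin (s + 3) → ℂ, CurveIn R P Q f → Nonconst f →
        (∃ (j : Fin N) (g H : ℂ → ℂ), Differentiable ℂ g ∧ (∀ z, g z ≠ 0) ∧ Differentiable ℂ H ∧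
          ∀ z i, g z * f z i = (φ j i).eval (Complex.exp (H z))) ∧
        ∀ z, MvPolynomial.eval (f z) G = 0) ∧
      (∀ f : ℂ → Fin (s + 3) → ℂ, PuncturedCurveIn R P Q f → ExtendsAtZero f ∨
        ((∃ (j : Fin N) (m : ℕ) (u : ℂ → ℂ), 1 ≤ m ∧
            DifferentiableOn ℂ u {z : ℂ | 0 < ‖z‖ ∧ ‖z‖ < 1} ∧
            ∀ z : ℂ, 0 < ‖z‖ → ‖z‖ < 1 → u z ≠ 0 ∧ ∃ c : ℂ, c ≠ 0 ∧
              ∀ i, c * f (z ^ m) i = (φ j i).eval (u z)) ∧
          ∀ z : ℂ, 0 < ‖z‖ → ‖z‖ < 1 → MvPolynomial.eval (f z) G = 0)) ∧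
      ∀ (m : ℕ) (f : (Fin m → ℂ) → Fin (s + 3) → ℂ), Differentiable ℂ f →
        (∀ z, (∀ i, MvPolynomial.eval (f z) (R i) = 0) ∧ MvPolynomial.eval (f z) P ≠ 0 ∧
          MvPolynomial.eval (f z) Q ≠ 0) →
        (∃ z w i i', f z i * f w i' ≠ f z i' * f w i) → ∀ z, MvPolynomial.eval (f z) G = 0 := by
  have hk : 1 ≤ (h.toPair ha hb hab).k := by
    show 1 ≤ a + b + ∑ i, d i - (s + 3)
    omega
  have hF : (h.toPair ha hb hab).HF := hf_of_deg ha hb hab h hr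
  obtain ⟨x0, hx0, hon0⟩ := h.nonempty
  obtain ⟨n, N, G, φ, hGh, hGx, hφ, hall, hpun⟩ := (h.toPair ha hb hab).all_main2 hk hF hx0 hon0
    fun h hd hper => Pool.Agent.K9h39.GB.growth_or_bounded hd hper
  refine ⟨n, N, G, φ, hGh, hGx, fun j => ⟨(hφ j).1, ?_⟩, fun f hf hnc =>
    hall f hf.entire hf.on hf.offP hf.offQ hnc.cr, fun f hf => ?_, fun m f hf hPQ hnc z => ?_⟩
  · obtain ⟨t, t', ht, ht', hst⟩ := (hφ j).2
    by_contra hcon
    push Not at hcon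
    apply hst
    funext i i'
    show (φ j i).eval t * (φ j i').eval t' - (φ j i').eval t * (φ j i).eval t' = 0
    rw [hcon t t' i i' ht ht', sub_self]
  · rcases hpun f hf.hol (fun z hz => hf.on z hz.1 hz.2) (fun z hz => hf.offP z hz.1 hz.2)
      (fun z hz => hf.offQ z hz.1 hz.2) with h1 | ⟨⟨j, m, u, hm, hu, hu0, hfu⟩, h2⟩
    · exact Or.inl h1
    · exact Or.inr ⟨⟨j, m, u, hm, hu, fun z h3 h4 => ⟨hu0 z ⟨h3, h4⟩, hfu z ⟨h3, h4⟩⟩⟩,
        fun z h3 h4 => h2 z ⟨h3, h4⟩⟩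
  · have hne : ∀ z, f z ≠ 0 := fun z h0 => by
      apply (hPQ z).2.1
      rw [h0]
      exact (h.toPair ha hb hab).p_zero
    -- the restriction to the line through `z` and `w`
    by_contra hG
    have hline : ∀ w, cr (f z) (f w) = 0 := by
      intro w
      by_contra hcr
      have hd : Differentiable ℂ (fun t : ℂ => f (z + t • (w - z))) := hf.comp (by fun_prop)
      have h1 := (hall (fun t => f (z + t • (w - z))) hd (fun t => (hPQ _).1)
        (fun t => (hPQ _).2.1) (fun t => (hPQ _).2.2)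
        ⟨0, 1, by
          simp only [zero_smul, add_zero, one_smul, add_sub_cancel]
          exact hcr⟩).2 0
      simp only [zero_smul, add_zero] at h1
      exact hG h1
    obtain ⟨x, y, i, i', hxy⟩ := hnc
    apply hxy
    obtain ⟨j, hj⟩ := exists_max (f z)
    have hj0 : f z j ≠ 0 := by
      rw [← norm_pos_iff, hj]
      exact norm_pos_iff.2 (hne z)
    have hpar : ∀ w, f w = (f w j / f z j) • f z := fun w => by
      funext i
      have h1 : f z i * f w j - f z j * f w i = 0 := congrFun (congrFun (hline w) i) j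
      rw [Pi.smul_apply, smul_eq_mul]
      field_simp
      linear_combination -h1
    rw [hpar x, hpar y]
    simp only [Pi.smul_apply, smul_eq_mul]
    ring

end Pool.Agent.K9h84.CI
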