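import Pool.Agent.K9h84.CI.VgD
import Pool.Agent.K9h84.CI.PunH

/-!
# Consequences of hyperbolic embedding
-/

set_option autoImplicit false

open Set Filter Topology Metric

namespace Pool.Agent.K9h84.CI

variable {s : ℕ} {R : Fin s → PP s} {P Q : PP s} {d : Fin s → ℕ} {a b : ℕ}

/-- entire curves in a hyperbolically embedded complement are constant -/
theorem HypEmbedded.const (hyp : HypEmbedded R P Q) (h : SmoothPair R P Q d a b) (ha : 1 ≤ a)
    (hb : 1 ≤ b) (hab : s + 4 ≤ a + b + ∑ i, d i) {f : ℂ → VV s} (hf : CurveIn R P Q f) :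
    ¬ Nonconst f := by
  obtain ⟨C, hC, hf'⟩ := hyp
  have hsp : ∀ z, cr (f z) (deriv f z) = 0 := by
    intro z
    have h1 : ∀ i j, f z i * deriv f z j - f z j * deriv f z i = 0 := by
      intro i j
      rw [← norm_le_zero_iff]
      have h2 : Tendsto (fun r : ℝ => C / r * ‖f z‖ ^ 2) atTop (𝓝 (0 * ‖f z‖ ^ 2)) :=
        (tendsto_const_nhds.div_atTop tendsto_id).mul_const _
      rw [zero_mul] at h2
      refine ge_of_tendsto h2 ?_
      filter_upwards [eventually_gt_atTop 0] with r hr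
      exact hf' r z f hr hf.entire.differentiableOn
        (fun w _ => ⟨hf.on w, hf.offP w, hf.offQ w⟩) i j
    exact cr_eq_zero_of_comp fun i j => sub_eq_zero.1 (h1 i j)
  rintro ⟨z, w, i, j, hne⟩
  apply hne
  have h1 := (h.toPair ha hb hab).const_of_speed hf.entire hf.offP hsp z w
  have h2 := (cross_comp _ _ i j).trans (le_of_eq (congrArg norm h1))
  rw [norm_zero] at h2
  exact sub_eq_zero.1 (norm_le_zero_iff.1 h2)

/-- punctured discs in a hyperbolically embedded complement extend -/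
theorem HypEmbedded.extends (hyp : HypEmbedded R P Q) (h : SmoothPair R P Q d a b) (ha : 1 ≤ a)
    (hb : 1 ≤ b) (hab : s + 4 ≤ a + b + ∑ i, d i) {f : ℂ → VV s} (hf : PuncturedCurveIn R P Q f) :
    ExtendsAtZero f := by
  have hfr : FibresRigid R P Q a b := fun f hf _ _ => hyp.const h ha hb hab hf
  have hal : AlgRigid R P Q := (criterion ha hb hab h (Or.inr hfr)).1 hyp
  obtain ⟨n, N, G, φ, -, -, hφ, -, hpun, -⟩ := all_curves2 ha hb hab h (Or.inr hfr)
  rcases hpun f hf with h1 | ⟨⟨j, -⟩, -⟩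
  · exact h1
  · exfalso
    obtain ⟨h2, t, t', i, i', ht, ht', hne⟩ := hφ j
    exact hne (hal (φ j) (fun t ht => ⟨(h2 t ht).1, (h2 t ht).2.1, (h2 t ht).2.2.1⟩) t t' i i' ht ht')

end Pool.Agent.K9h84.CI
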