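import Mathlib

/-!
# Periodicity and Laurent polynomials
-/

set_option autoImplicit false

open Set Filter Topology Metric

namespace Pool.Agent.K9h84.CI

/-- an entire function of polynomial growth is a polynomial -/
theorem poly_of_growth (N : ℕ) : ∀ {F : ℂ → ℂ}, Differentiable ℂ F → ∀ {K : ℝ},
    (∀ z, ‖F z‖ ≤ K * (1 + ‖z‖) ^ N) → ∃ p : Polynomial ℂ, ∀ z, F z = p.eval z := by
  induction N with
  | zero =>
    intro F hF K hK
    refine ⟨Polynomial.C (F 0), fun z => ?_⟩
    rw [Polynomial.eval_C]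
    refine hF.apply_eq_apply_of_bounded ?_ z 0
    rw [isBounded_iff_forall_norm_le]
    refine ⟨K, ?_⟩
    rintro _ ⟨w, rfl⟩
    have := hK w
    rwa [pow_zero, mul_one] at this
  | succ N ih =>
    intro F hF K hK
    have hG : Differentiable ℂ (dslope F 0) := by
      rw [← differentiableOn_univ, Complex.differentiableOn_dslope univ_mem,
        differentiableOn_univ]
      exact hF
    have hK0 : 0 ≤ K := by
      have := (norm_nonneg _).trans (hK 0)
      rw [norm_zero, add_zero, one_pow, mul_one] at this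
      exact this
    obtain ⟨K1, hK1⟩ := (isCompact_closedBall (0 : ℂ) 1).exists_bound_of_continuousOn
      hG.continuous.continuousOn
    have hK10 : 0 ≤ K1 := (norm_nonneg _).trans (hK1 0 (mem_closedBall_self zero_le_one))
    obtain ⟨p, hp⟩ := ih hG (K := K1 + 4 * K) (fun z => by
      rcases le_or_gt ‖z‖ 1 with h | h
      · have h1 := hK1 z (mem_closedBall_zero_iff.2 h)
        have h2 : 1 ≤ (1 + ‖z‖) ^ N := one_le_pow₀ (by linarith [norm_nonneg z])
        nlinarith
      · have hz0 : z ≠ 0 := by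
          rintro rfl
          rw [norm_zero] at h
          linarith
        have h1 : dslope F 0 z = (F z - F 0) / z := by
          rw [dslope_of_ne _ hz0, slope_def_field, sub_zero]
        have h2 : ‖F z - F 0‖ ≤ 2 * K * (1 + ‖z‖) ^ (N + 1) := by
          have h3 := norm_sub_le (F z) (F 0)
          have h4 := hK z
          have h5 := hK 0
          rw [norm_zero, add_zero, one_pow, mul_one] at h5
          have h6 : 1 ≤ (1 + ‖z‖) ^ (N + 1) := one_le_pow₀ (by linarith [norm_nonneg z])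
          nlinarith
        rw [h1, norm_div, div_le_iff₀ (by linarith)]
        refine h2.trans ?_
        have h7 : (1 + ‖z‖) ^ (N + 1) ≤ (1 + ‖z‖) ^ N * (2 * ‖z‖) := by
          rw [pow_succ]
          gcongr
          linarith
        have h8 : 0 ≤ (1 + ‖z‖) ^ N * ‖z‖ := by positivity
        nlinarith)
    refine ⟨Polynomial.C (F 0) + Polynomial.X * p, fun z => ?_⟩
    rw [Polynomial.eval_add, Polynomial.eval_C, Polynomial.eval_mul, Polynomial.eval_X, ← hp]
    have h1 := sub_smul_dslope F 0 z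
    rw [sub_zero, smul_eq_mul] at h1
    rw [h1]
    ring

/-- an entire function with period `2 π i k` and exponential growth is a Laurent polynomial in
`exp (z / k)` -/
theorem laurent {u : ℂ → ℂ} (hu : Differentiable ℂ u) {k : ℕ} (hk : 1 ≤ k)
    (hper : ∀ z, u (z + k * (2 * Real.pi * Complex.I)) = u z) {K : ℝ} {L : ℕ}
    (hgr : ∀ z : ℂ, ‖u z‖ ≤ K * Real.exp (L / k * |z.re|)) :
    ∃ p : Polynomial ℂ, ∀ z, Complex.exp (L * z / k) * u z = p.eval (Complex.exp (z / k)) := by
  have hπ := Real.pi_pos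
  have hkp : (0 : ℝ) < k := by exact_mod_cast hk
  have hkc : (k : ℂ) ≠ 0 := by exact_mod_cast hkp.ne'
  have hπc : (Real.pi : ℂ) ≠ 0 := by exact_mod_cast hπ.ne'
  set s : ℂ := k * (2 * Real.pi * Complex.I) with hs
  have hs0 : s ≠ 0 := mul_ne_zero hkc (mul_ne_zero (mul_ne_zero two_ne_zero hπc) Complex.I_ne_zero)
  have hK0 : 0 ≤ K := by
    have := (norm_nonneg _).trans (hgr 0)
    exact nonneg_of_mul_nonneg_left this (Real.exp_pos _)
  set f : ℂ → ℂ := fun ζ => Complex.exp (L * (s * ζ) / k) * u (s * ζ) with hf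
  have hfd : Differentiable ℂ f := by
    have h1 : Differentiable ℂ (fun ζ : ℂ => Complex.exp (L * (s * ζ) / k)) := by fun_prop
    have h2 : Differentiable ℂ (fun ζ : ℂ => u (s * ζ)) := hu.comp (by fun_prop)
    exact h1.mul h2
  have hfp : Function.Periodic f ((1 : ℝ) : ℂ) := by
    intro ζ
    rw [hf]
    simp only
    have h1 : s * (ζ + ((1 : ℝ) : ℂ)) = s * ζ + s := by push_cast; ring
    rw [h1, hper]
    congr 1
    have h2 : (L : ℂ) * (s * ζ + s) / k = L * (s * ζ) / k + L * (2 * Real.pi * Complex.I) := by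
      rw [hs]
      field_simp
    rw [h2]
    exact Complex.exp_periodic.nat_mul L _
  have hsre : ∀ ζ : ℂ, (s * ζ).re = -(2 * Real.pi * k * ζ.im) := by
    intro ζ
    have h1 : s * ζ = ((2 * Real.pi * k : ℝ) : ℂ) * (Complex.I * ζ) := by
      rw [hs]
      push_cast
      ring
    rw [h1, Complex.re_ofReal_mul, Complex.I_mul_re]
    ring
  have hfn : ∀ ζ : ℂ, ‖f ζ‖ ≤ K * Real.exp (2 * Real.pi * L * (|ζ.im| - ζ.im)) := by
    intro ζ
    rw [hf]
    simp only
    rw [norm_mul, Complex.norm_exp]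
    have h1 : ((L : ℂ) * (s * ζ) / k).re = -(2 * Real.pi * L * ζ.im) := by
      have h0 : (L : ℂ) * (s * ζ) = ((L : ℝ) : ℂ) * (s * ζ) := by push_cast; ring
      rw [Complex.div_natCast_re, h0, Complex.re_ofReal_mul, hsre]
      field_simp
    have h2 := hgr (s * ζ)
    rw [hsre, abs_neg, abs_mul, abs_of_pos (show 0 < 2 * Real.pi * (k : ℝ) by positivity)] at h2
    rw [h1]
    have h3 : (L : ℝ) / k * (2 * Real.pi * k * |ζ.im|) = 2 * Real.pi * L * |ζ.im| := by
      field_simp
    rw [h3] at h2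
    calc Real.exp (-(2 * Real.pi * L * ζ.im)) * ‖u (s * ζ)‖ ≤
        Real.exp (-(2 * Real.pi * L * ζ.im)) * (K * Real.exp (2 * Real.pi * L * |ζ.im|)) := by gcongr
      _ = K * (Real.exp (-(2 * Real.pi * L * ζ.im)) * Real.exp (2 * Real.pi * L * |ζ.im|)) := by ring
      _ = _ := by
        rw [← Real.exp_add]
        congr 2
        ring
  set F : ℂ → ℂ := Function.Periodic.cuspFunction 1 f with hF
  have hq : ∀ q : ℂ, q ≠ 0 → Function.Periodic.qParam 1 (Function.Periodic.invQParam 1 q) = q :=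
    fun q hq => Function.Periodic.qParam_right_inv one_ne_zero hq
  have hF0 : DifferentiableAt ℂ F 0 := by
    refine Function.Periodic.differentiableAt_cuspFunction_zero one_pos hfp
      (Eventually.of_forall fun z => hfd z) ?_
    refine Asymptotics.IsBigO.of_bound K ?_
    have h1 : ∀ᶠ z : ℂ in comap Complex.im atTop, 0 ≤ z.im :=
      tendsto_comap.eventually (eventually_ge_atTop 0)
    filter_upwards [h1] with z hz
    have h2 := hfn z
    rw [abs_of_nonneg hz, sub_self, mul_zero, Real.exp_zero, mul_one] at h2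
    simpa using h2
  have hFd : Differentiable ℂ F := by
    intro q
    by_cases h : q = 0
    · rw [h]; exact hF0
    · rw [← hq q h]
      exact Function.Periodic.differentiableAt_cuspFunction one_ne_zero hfp (hfd _)
  have hFn : ∀ q : ℂ, q ≠ 0 → ‖F q‖ ≤ K * (1 + ‖q‖) ^ (2 * L) := by
    intro q h
    have h1 : F q = f (Function.Periodic.invQParam 1 q) :=
      Function.Periodic.cuspFunction_eq_of_nonzero _ _ h
    have h2 := hfn (Function.Periodic.invQParam 1 q)
    rw [← h1, Function.Periodic.im_invQParam] at h2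
    refine h2.trans ?_
    refine mul_le_mul_of_nonneg_left ?_ hK0
    have hqp : 0 < ‖q‖ := norm_pos_iff.2 h
    have h3 : -1 / (2 * Real.pi) * Real.log ‖q‖ = -(Real.log ‖q‖ / (2 * Real.pi)) := by ring
    rw [h3, abs_neg, abs_div, abs_of_pos (show 0 < 2 * Real.pi by positivity)]
    have h4 : 2 * Real.pi * L * (|Real.log ‖q‖| / (2 * Real.pi) - -(Real.log ‖q‖ / (2 * Real.pi))) =
        L * (|Real.log ‖q‖| + Real.log ‖q‖) := by
      field_simp
      ring
    rw [h4]
    have h5 : |Real.log ‖q‖| + Real.log ‖q‖ ≤ 2 * Real.log (1 + ‖q‖) := by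
      have h6 : Real.log ‖q‖ ≤ Real.log (1 + ‖q‖) := Real.log_le_log hqp (by linarith)
      have h7 : 0 ≤ Real.log (1 + ‖q‖) := Real.log_nonneg (by linarith)
      rcases abs_cases (Real.log ‖q‖) with ⟨h8, -⟩ | ⟨h8, -⟩ <;> rw [h8] <;> linarith
    have h8 : (1 + ‖q‖) ^ (2 * L) = Real.exp (L * (2 * Real.log (1 + ‖q‖))) := by
      calc (1 + ‖q‖) ^ (2 * L) = (Real.exp (Real.log (1 + ‖q‖))) ^ (2 * L) := by
            rw [Real.exp_log (by positivity)]
        _ = Real.exp (((2 * L : ℕ) : ℝ) * Real.log (1 + ‖q‖)) := (Real.exp_nat_mul _ _).symm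
        _ = _ := by
          congr 1
          push_cast
          ring
    rw [h8]
    exact Real.exp_le_exp.2 (mul_le_mul_of_nonneg_left h5 (Nat.cast_nonneg L))
  have hFn' : ∀ q : ℂ, ‖F q‖ ≤ K * (1 + ‖q‖) ^ (2 * L) := by
    have hcl : IsClosed {q : ℂ | ‖F q‖ ≤ K * (1 + ‖q‖) ^ (2 * L)} :=
      isClosed_le hFd.continuous.norm (by fun_prop)
    have hd : Dense ({0}ᶜ : Set ℂ) := dense_compl_singleton 0
    have h1 : closure ({0}ᶜ : Set ℂ) ⊆ {q : ℂ | ‖F q‖ ≤ K * (1 + ‖q‖) ^ (2 * L)} :=
      closure_minimal (fun q hq => hFn q hq) hcl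
    rw [hd.closure_eq] at h1
    exact fun q => h1 (mem_univ q)
  obtain ⟨p, hp⟩ := poly_of_growth (2 * L) hFd hFn'
  refine ⟨p, fun z => ?_⟩
  have h1 := Function.Periodic.eq_cuspFunction one_ne_zero hfp (z / s)
  have h2 : Function.Periodic.qParam 1 (z / s) = Complex.exp (z / k) := by
    unfold Function.Periodic.qParam
    congr 1
    rw [hs]
    push_cast
    field_simp
  rw [h2, ← hF, hp] at h1
  rw [h1, hf]
  simp only
  rw [mul_div_cancel₀ _ hs0]

end Pool.Agent.K9h84.CI
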