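import Pool.Agent.K9h84.CI.Per
import Pool.Agent.K9h84.CI.Lrt

/-!
# Normalised curves are polynomials in an exponential
-/

set_option autoImplicit false

open Set Filter Topology Metric

namespace Pool.Agent.K9h84.CI

variable {s : ℕ}

namespace Pair

variable (D : Pair s)

/-- the normalised curves are given by polynomials in an exponential -/
theorem cv_laurent (hk : 1 ≤ D.k) {B : ℝ} (hB : 0 ≤ B) {v : ℂ → VV s} (hv : D.Cv B 0 v) :
    ∃ (k L : ℕ) (φ : Fin (s + 3) → Polynomial ℂ), 1 ≤ k ∧
      ∀ z i, Complex.exp (L * z / k) * v z i = (φ i).eval (Complex.exp (z / k)) := by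
  obtain ⟨k, hk1, hper⟩ := D.periodic hk hB hv
  obtain ⟨C, hC, hld⟩ := D.ld hB
  have hkp : (0 : ℝ) < k := by exact_mod_cast hk1
  have hπ := Real.pi_pos
  set L : ℕ := ⌈C * k⌉₊ with hL
  have hLk : C ≤ L / k := by
    rw [le_div_iff₀ hkp]
    exact Nat.le_ceil _
  set p : ℝ := 2 * Real.pi * k with hp
  have hpp : 0 < p := by positivity
  have hPer : Function.Periodic v (k * (2 * Real.pi * Complex.I)) := hper
  have hgr : ∀ z : ℂ, ‖v z‖ ≤ (‖v 0‖ * Real.exp (C * p)) * Real.exp (L / k * |z.re|) := by
    intro z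
    set m : ℤ := ⌊z.im / p⌋ with hm
    have h1 := hPer.sub_int_mul_eq (x := z) m
    have h2 := gronwall hv.dif (hld 0 v hv) (z - m * (k * (2 * Real.pi * Complex.I))) 0
    rw [h1, dist_zero_right] at h2
    refine h2.trans ?_
    rw [mul_assoc ‖v 0‖, ← Real.exp_add]
    refine mul_le_mul_of_nonneg_left (Real.exp_le_exp.2 ?_) (norm_nonneg _)
    have h3 : ‖z - m * (k * (2 * Real.pi * Complex.I))‖ ≤ |z.re| + p := by
      refine (Complex.norm_le_abs_re_add_abs_im _).trans (add_le_add ?_ ?_)
      · simp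
      · have h4 : (z - m * (k * (2 * Real.pi * Complex.I))).im = z.im - m * p := by
          have h40 : (m : ℂ) * (k * (2 * Real.pi * Complex.I)) = ((m * p : ℝ) : ℂ) * Complex.I := by
            rw [hp]
            push_cast
            ring
          rw [h40, Complex.sub_im, Complex.im_ofReal_mul, Complex.I_im, mul_one]
        rw [h4]
        have h5 := Int.floor_le (z.im / p)
        have h6 := Int.lt_floor_add_one (z.im / p)
        rw [le_div_iff₀ hpp] at h5
        rw [div_lt_iff₀ hpp] at h6
        have h7 : (m : ℝ) = ⌊z.im / p⌋ := rfl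
        rw [h7, abs_le]
        constructor <;> linarith
    have h8 : C * ‖z - m * (k * (2 * Real.pi * Complex.I))‖ ≤ C * (|z.re| + p) :=
      mul_le_mul_of_nonneg_left h3 hC.le
    have h9 : C * |z.re| ≤ L / k * |z.re| := mul_le_mul_of_nonneg_right hLk (abs_nonneg _)
    linarith
  have hj : ∀ i : Fin (s + 3), ∃ q : Polynomial ℂ, ∀ z, Complex.exp (L * z / k) * v z i =
      q.eval (Complex.exp (z / k)) := by
    intro i
    have hu : Differentiable ℂ (fun z => v z i) := fun z => differentiableAt_pi.1 (hv.dif z) i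
    exact laurent hu hk1 (fun z => by rw [hper]) (fun z => (le3 (v z) i).trans (hgr z))
  choose φ hφ using hj
  exact ⟨k, L, φ, hk1, fun z i => hφ i z⟩

end Pair

end Pool.Agent.K9h84.CI
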