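import Pool.Agent.K9h84.CI.Lau

/-!
# Finiteness in terms of the public definitions
-/

set_option autoImplicit false

open Set Filter Topology Metric

namespace Pool.Agent.K9h84.CI

variable {s : ℕ}

theorem not_nonconst {f : ℂ → Fin (s + 3) → ℂ} (h : ¬ Nonconst f) : ∀ z w, cr (f z) (f w) = 0 := by
  intro z w
  unfold Nonconst at h
  push Not at h
  funext i j
  show f z i * f w j - f z j * f w i = 0
  rw [h z w i j, sub_self]

theorem speed_zero {f : ℂ → VV s} (hf : Differentiable ℂ f) (h : ∀ z w, cr (f z) (f w) = 0) (z : ℂ) :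
    cr (f z) (deriv f z) = 0 := by
  have hsv : Tendsto (slope f z) (𝓝[≠] z) (𝓝 (deriv f z)) :=
    hasDerivAt_iff_tendsto_slope.1 (hf z).hasDerivAt
  have h1 : Tendsto (fun w => cr (f z) (slope f z w)) (𝓝[≠] z) (𝓝 (cr (f z) (deriv f z))) := by
    have h2 : Tendsto (fun w => ((f z, slope f z w) : VV s × VV s)) (𝓝[≠] z)
        (𝓝 (f z, deriv f z)) := tendsto_const_nhds.prodMk_nhds hsv
    exact (cr_cont.tendsto _).comp h2
  have h3 : ∀ w, cr (f z) (slope f z w) = 0 := by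
    intro w
    have e2 : slope f z w = (w - z)⁻¹ • (f w - f z) := rfl
    rw [e2, cr_smul, cr_sub, h, cr_self, sub_zero, smul_zero]
  simp only [h3] at h1
  exact tendsto_nhds_unique h1 tendsto_const_nhds

/-- the fibres of the pencil contain no nonconstant curve of bounded speed -/
def FibresRigid (R : Fin s → MvPolynomial (Fin (s + 3)) ℂ) (P Q : MvPolynomial (Fin (s + 3)) ℂ)
    (a b : ℕ) : Prop :=
  ∀ f : ℂ → Fin (s + 3) → ℂ, CurveIn R P Q f → BoundedSpeed f →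
    (∃ c : ℂ, c ≠ 0 ∧ ∀ z, MvPolynomial.eval (f z) Q ^ a = c * MvPolynomial.eval (f z) P ^ b) →
    ¬ Nonconst f

section

variable {R : Fin s → MvPolynomial (Fin (s + 3)) ℂ} {P Q : MvPolynomial (Fin (s + 3)) ℂ}
  {d : Fin s → ℕ} {a b : ℕ}

theorem hf_of_rigid (h : SmoothPair R P Q d a b) (ha : 1 ≤ a) (hb : 1 ≤ b)
    (hab : s + 4 ≤ a + b + ∑ i, d i) (hr : FibresRigid R P Q a b) :
    (h.toPair ha hb hab).HF := by
  intro B v c0 hvd hon hvp hc0 hvq hvB z
  have hP : ∀ z, MvPolynomial.eval (v z) P = 1 := hvp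
  have hQ : ∀ z, MvPolynomial.eval (v z) Q = c0 := hvq
  have h1 := hr v ⟨hvd, hon, fun z => by rw [hP]; exact one_ne_zero, fun z => by rw [hQ]; exact hc0⟩
    ⟨B, fun z i j => (cross_comp _ _ i j).trans (hvB z)⟩
    ⟨c0 ^ a, pow_ne_zero _ hc0, fun z => by rw [hP, hQ, one_pow, mul_one]⟩
  exact speed_zero hvd (not_nonconst h1) z

/-- **finiteness theorem** -/
theorem finiteness (ha : 1 ≤ a) (hb : 1 ≤ b) (hab : s + 4 ≤ a + b + ∑ i, d i)
    (h : SmoothPair R P Q d a b) (hr : (3 ≤ a ∧ 3 ≤ b) ∨ FibresRigid R P Q a b) :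
    ∃ (n N : ℕ) (G : MvPolynomial (Fin (s + 3)) ℂ) (φ : Fin N → Fin (s + 3) → Polynomial ℂ),
      G.IsHomogeneous n ∧
      (∃ x : Fin (s + 3) → ℂ, x ≠ 0 ∧ (∀ i, MvPolynomial.eval x (R i) = 0) ∧
        MvPolynomial.eval x G ≠ 0) ∧
      (∀ f : ℂ → Fin (s + 3) → ℂ, CurveIn R P Q f → BoundedSpeed f → Nonconst f →
        (∃ (j : Fin N) (c d : ℂ) (g : ℂ → ℂ), c ≠ 0 ∧ Differentiable ℂ g ∧ (∀ z, g z ≠ 0) ∧
          ∀ z i, g z * f z i = (φ j i).eval (Complex.exp (c * z + d))) ∧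
        ∀ z, MvPolynomial.eval (f z) G = 0) ∧
      (∀ ψ : Fin (s + 3) → Polynomial ℂ,
        (∀ t : ℂ, t ≠ 0 → (∀ i, MvPolynomial.eval (fun i => (ψ i).eval t) (R i) = 0) ∧
          MvPolynomial.eval (fun i => (ψ i).eval t) P ≠ 0 ∧
          MvPolynomial.eval (fun i => (ψ i).eval t) Q ≠ 0) →
        (∃ (t' t : ℂ) (i j : Fin (s + 3)), t' ≠ 0 ∧ t ≠ 0 ∧
          (ψ i).eval t' * (ψ j).eval t ≠ (ψ j).eval t' * (ψ i).eval t) →
        ∀ t : ℂ, t ≠ 0 → MvPolynomial.eval (fun i => (ψ i).eval t) G = 0) := by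
  have hk : 1 ≤ (h.toPair ha hb hab).k := by
    show 1 ≤ a + b + ∑ i, d i - (s + 3)
    omega
  have hF : (h.toPair ha hb hab).HF := by
    rcases hr with h3 | hr
    · exact (h.toPair ha hb hab).hf_of_three hk h3.1 h3.2
    · exact hf_of_rigid h ha hb hab hr
  obtain ⟨x0, hx0, hon0⟩ := h.nonempty
  obtain ⟨n, N, G, φ, hGh, hGx, hG⟩ := (h.toPair ha hb hab).fin_deg hk hF hx0 hon0
  refine ⟨n, N, G, φ, hGh, hGx, ?_, ?_⟩
  · intro f hf hB hnc
    obtain ⟨B, hB'⟩ := hB.bro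
    exact hG f hf.entire hf.on hf.offP hf.offQ B hB' hnc.cr
  · intro ψ hψ hnc t ht
    have hne : ∀ t : ℂ, t ≠ 0 → (fun i => (ψ i).eval t) ≠ 0 := by
      intro t ht h0
      apply (hψ t ht).2.1
      rw [h0]
      exact (h.toPair ha hb hab).p_zero
    obtain ⟨hd, B, hB⟩ := alg_bro hne
    obtain ⟨sv, t', i, j, hsv, ht', hst⟩ := hnc
    have hN : Nonconst (fun z i => (ψ i).eval (Complex.exp z)) := by
      refine ⟨Complex.log sv, Complex.log t', i, j, ?_⟩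
      simp only
      rw [Complex.exp_log hsv, Complex.exp_log ht']
      exact hst
    have h1 := (hG (fun z i => (ψ i).eval (Complex.exp z)) hd
      (fun z => (hψ _ (Complex.exp_ne_zero z)).1)
      (fun z => (hψ _ (Complex.exp_ne_zero z)).2.1) (fun z => (hψ _ (Complex.exp_ne_zero z)).2.2) B hB
      hN.cr).2 (Complex.log t)
    rw [Complex.exp_log ht] at h1
    exact h1

end

end Pool.Agent.K9h84.CI
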