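import Pool.Agent.K9h84.CI.Glb
import Pool.Agent.K9h84.CI.FinB

/-!
# Classification of all entire curves
-/

set_option autoImplicit false

open Set Filter Topology Metric

namespace Pool.Agent.K9h84.CI

variable {s : ℕ}

theorem prod_zero {ι : Type*} [DecidableEq ι] (L : Finset ι) {F : ι → ℂ → ℂ}
    (hF : ∀ i ∈ L, Differentiable ℂ (F i)) (h : ∀ z, ∏ i ∈ L, F i z = 0) :
    ∃ i ∈ L, ∀ z, F i z = 0 := by
  induction L using Finset.induction_on with
  | empty =>
    have := h 0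
    simp at this
  | insert j L hj ih =>
    have h1 : Differentiable ℂ (F j) := hF j (Finset.mem_insert_self _ _)
    have h2 : Differentiable ℂ (fun z => ∏ i ∈ L, F i z) :=
      Differentiable.fun_finsetProd fun i hi => hF i (Finset.mem_insert_of_mem hi)
    rcases AnalyticOnNhd.eq_zero_or_eq_zero_of_mul_eq_zero (U := univ)
      (h1.differentiableOn.analyticOnNhd isOpen_univ) (h2.differentiableOn.analyticOnNhd isOpen_univ)
      (fun z _ => by
        have := h z
        rw [Finset.prod_insert hj] at this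
        exact this) isPreconnected_univ with h3 | h3
    · exact ⟨j, Finset.mem_insert_self _ _, fun z => h3 z (mem_univ z)⟩
    · obtain ⟨i, hi, h4⟩ := ih (fun i hi => hF i (Finset.mem_insert_of_mem hi))
        fun z => h3 z (mem_univ z)
      exact ⟨i, Finset.mem_insert_of_mem hi, h4⟩

theorem dt_dif {c : VV s} {V : ℂ → VV s} {z : ℂ} (hV : DifferentiableAt ℂ V z) :
    DifferentiableAt ℂ (fun w => dt c (V w)) z := by
  have h := fun i => (differentiableAt_pi.1 hV) i
  unfold dt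
  exact DifferentiableAt.fun_sum fun i _ => (h i).const_mul _

/-- the moment vector -/
def mv (s n : ℕ) : VV s := fun i => (n : ℂ) ^ (i : ℕ)

/-- the linear conditions given by infinitely many moment vectors -/
theorem dt_mom {d : VV s} {S : Set ℕ} (hS : S.Infinite)
    (h : ∀ n ∈ S, dt (mv s n) d = 0) : d = 0 := by
  set P : Polynomial ℂ := ∑ i : Fin (s + 3), Polynomial.C (d i) * Polynomial.X ^ (i : ℕ) with hP
  have hP0 : P = 0 := by
    apply Polynomial.eq_zero_of_infinite_isRoot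
    refine Set.Infinite.mono ?_ (hS.image (f := fun n : ℕ => (n : ℂ)) Nat.cast_injective.injOn)
    rintro _ ⟨n, hn, rfl⟩
    show P.eval (n : ℂ) = 0
    have h1 := h n hn
    unfold dt mv at h1
    rw [hP, Polynomial.eval_finset_sum]
    rw [← h1]
    refine Finset.sum_congr rfl fun i _ => ?_
    rw [Polynomial.eval_mul, Polynomial.eval_C, Polynomial.eval_pow, Polynomial.eval_X, mul_comm]
  funext j
  have h1 : P.coeff (j : ℕ) = d j := by
    rw [hP, Polynomial.finset_sum_coeff, Finset.sum_eq_single j]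
    · rw [Polynomial.coeff_C_mul, Polynomial.coeff_X_pow, if_pos rfl, mul_one]
    · intro i _ hij
      rw [Polynomial.coeff_C_mul, Polynomial.coeff_X_pow, if_neg, mul_zero]
      intro h2
      exact hij (Fin.ext h2.symm)
    · intro h2
      exact absurd (Finset.mem_univ _) h2
  rw [← h1, hP0, Polynomial.coeff_zero, Pi.zero_apply]

namespace Pair

variable (D : Pair s)

/-- the normalised curves of bounded speed form a finite set -/
theorem fin_all (hk : 1 ≤ D.k) {B : ℝ} (hB : 0 ≤ B) : {W : ℂ → VV s | D.Cv B 0 W}.Finite := by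
  obtain ⟨K, hK, hret⟩ := D.returns_nat hk hB
  have hfin := D.fin_set hk hB hK
  have hper : ∀ x : ℂ → VV s, D.Cv B 0 x → ∃ k : ℕ, 1 ≤ k ∧
      ∀ z, x (z + k * (2 * Real.pi * Complex.I)) = x z := fun x hx => D.periodic hk hB hx
  choose! k hk1 hkp using hper
  refine (hfin.biUnion (t := fun x => (fun j : ℕ => fun z : ℂ =>
    x (z - j * (2 * Real.pi * Complex.I))) '' Set.Iio (k x)) fun x _ =>
    (Set.finite_Iio _).image _).subset ?_
  intro W hW
  have hW' : D.Cv B 0 W := hW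
  obtain ⟨m, -, hm⟩ := hret W hW' 0
  set τ : ℂ := (m : ℂ) * (2 * Real.pi * Complex.I) with hτ
  have hC : D.Cv B 0 (fun z => W (z + τ)) := by
    have h1 := D.cv_mod (hW'.shift τ) (m : ℤ)
    have h2 : (0 : ℂ) + τ - ((m : ℤ) : ℂ) * (2 * Real.pi * Complex.I) = 0 := by
      rw [hτ]
      push_cast
      ring
    rw [h2] at h1
    exact h1
  rw [mem_iUnion₂]
  refine ⟨fun z => W (z + τ), ⟨hC, by
    simp only [zero_add]
    exact hm⟩, ?_⟩
  have hk0 := hk1 _ hC
  have hkp0 := hkp _ hC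
  set κ : ℕ := k (fun z => W (z + τ)) with hκ
  refine ⟨m % κ, Nat.mod_lt _ (by omega), ?_⟩
  funext z
  have hp : Function.Periodic (fun z => W (z + τ)) ((κ : ℂ) * (2 * Real.pi * Complex.I)) := hkp0
  have h1 := hp.sub_nat_mul_eq (x := z - (m % κ : ℕ) * (2 * Real.pi * Complex.I)) (m / κ)
  have h2 : z - (m % κ : ℕ) * (2 * Real.pi * Complex.I) -
      (m / κ : ℕ) * ((κ : ℂ) * (2 * Real.pi * Complex.I)) = z - τ := by
    have h3 : (m : ℂ) = (m % κ : ℕ) + (m / κ : ℕ) * (κ : ℂ) := by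
      rw [← Nat.cast_mul, ← Nat.cast_add, mul_comm (m / κ) κ, Nat.mod_add_div]
    rw [hτ]
    linear_combination (2 * Real.pi * Complex.I) * h3
  rw [h2] at h1
  show W (z - (m % κ : ℕ) * (2 * Real.pi * Complex.I) + τ) = W z
  rw [← h1]
  simp

/-- the product test functions -/
theorem tst_prod {B : ℝ} (L : Finset (ℂ → VV s)) (hL : ∀ W ∈ L, Differentiable ℂ W) {Cw : ℝ}
    (hCw : 0 ≤ Cw) (hgr : ∀ W ∈ L, ∀ t, ‖W t‖ ≤ Real.exp (Cw * (1 + ‖t‖)))
    (hall : ∀ W, D.Cv B 0 W → W ∈ L) (c : VV s) : ∃ C : ℝ, 0 ≤ C ∧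
      Tst D B (fun x t => ∏ W ∈ L, dt c (x - W t)) L.card C := by
  classical
  set M : ℝ := nv s * ‖c‖ + 1 with hM
  have hM1 : 1 ≤ M := by
    have : 0 ≤ nv s * ‖c‖ := mul_nonneg (nv_pos s).le (norm_nonneg c)
    linarith
  have hlM : 0 ≤ Real.log M := Real.log_nonneg hM1
  set C : ℝ := L.card * (Cw + Real.log M) with hC
  have hC0 : 0 ≤ C := by positivity
  have hfac : ∀ W ∈ L, ∀ x t, ‖dt c (x - W t)‖ ≤ M * ‖x - W t‖ := by
    intro W _ x t
    refine (norm_dt_le _ _).trans ?_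
    exact mul_le_mul_of_nonneg_right (by linarith) (norm_nonneg _)
  have hF : ∀ x : VV s, ∀ t : ℂ, M ≤ M * (Real.exp (Cw * (1 + ‖t‖)) * (1 + ‖x‖)) := by
    intro x t
    refine le_mul_of_one_le_right (by linarith) ?_
    refine one_le_mul_of_one_le_of_one_le (Real.one_le_exp (by positivity)) ?_
    have := norm_nonneg x
    linarith
  have hfac2 : ∀ W ∈ L, ∀ x t, ‖dt c (x - W t)‖ ≤
      M * (Real.exp (Cw * (1 + ‖t‖)) * (1 + ‖x‖)) := by
    intro W hW x t
    refine (hfac W hW x t).trans (mul_le_mul_of_nonneg_left ?_ (by linarith))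
    refine (norm_sub_le _ _).trans ?_
    have h1 := hgr W hW t
    have h2 : 1 ≤ Real.exp (Cw * (1 + ‖t‖)) := Real.one_le_exp (by positivity)
    have h3 : 1 * ‖x‖ ≤ Real.exp (Cw * (1 + ‖t‖)) * ‖x‖ :=
      mul_le_mul_of_nonneg_right h2 (norm_nonneg _)
    rw [mul_add, mul_one]
    linarith
  have hpow : ∀ x : VV s, ∀ t : ℂ, (M * (Real.exp (Cw * (1 + ‖t‖)) * (1 + ‖x‖))) ^ L.card ≤
      Real.exp (C * (1 + ‖t‖)) * (1 + ‖x‖) ^ L.card := by
    intro x t
    rw [mul_pow, mul_pow, ← mul_assoc]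
    refine mul_le_mul_of_nonneg_right ?_ (by positivity)
    have h1 : M ^ L.card = Real.exp (L.card * Real.log M) := by
      rw [Real.exp_nat_mul, Real.exp_log (by linarith)]
    rw [h1, ← Real.exp_nat_mul, ← Real.exp_add]
    apply Real.exp_le_exp.2
    have h2 : (L.card : ℝ) * Real.log M ≤ L.card * Real.log M * (1 + ‖t‖) := by
      refine le_mul_of_one_le_right (by positivity) ?_
      have := norm_nonneg t
      linarith
    rw [hC]
    linarith
  refine ⟨C, hC0, ⟨fun V k z hV hk => ?_, fun x t => ?_, fun W hW x t => ?_⟩⟩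
  · refine DifferentiableAt.fun_finsetProd fun W hW => ?_
    exact dt_dif (hV.sub (((hL W hW) (k z)).comp z hk))
  · rw [norm_prod]
    refine le_trans ?_ (hpow x t)
    rw [← Finset.prod_const]
    exact Finset.prod_le_prod (fun W _ => norm_nonneg _) fun W hW => hfac2 W hW x t
  · have hWL := hall W hW
    have hLc : 1 ≤ L.card := Finset.card_pos.2 ⟨W, hWL⟩
    rw [norm_prod, ← Finset.mul_prod_erase _ _ hWL]
    set F : ℝ := M * (Real.exp (Cw * (1 + ‖t‖)) * (1 + ‖x‖)) with hFdef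
    have hFM : M ≤ F := hF x t
    have hFp : 0 ≤ F := by linarith
    have h1 : ∏ i ∈ L.erase W, ‖dt c (x - i t)‖ ≤ F ^ (L.card - 1) := by
      rw [← Finset.card_erase_of_mem hWL, ← Finset.prod_const]
      exact Finset.prod_le_prod (fun i _ => norm_nonneg _)
        fun i hi => hfac2 i (Finset.mem_of_mem_erase hi) x t
    have h2 : ‖dt c (x - W t)‖ ≤ F * ‖x - W t‖ :=
      (hfac W hWL x t).trans (mul_le_mul_of_nonneg_right hFM (norm_nonneg _))
    have h3 : F ^ L.card = F * F ^ (L.card - 1) := by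
      rw [← pow_succ']
      congr 1
      omega
    calc ‖dt c (x - W t)‖ * ∏ i ∈ L.erase W, ‖dt c (x - i t)‖ ≤
        (F * ‖x - W t‖) * F ^ (L.card - 1) :=
          mul_le_mul h2 h1 (Finset.prod_nonneg fun i _ => norm_nonneg _) (by positivity)
      _ = F ^ L.card * ‖x - W t‖ := by rw [h3]; ring
      _ ≤ _ := mul_le_mul_of_nonneg_right (hpow x t) (norm_nonneg _)

/-- **classification of the normalised entire curves** -/
theorem classify (hk : 1 ≤ D.k) (hF : D.HF) : ∃ (B : ℝ) (L : Finset (ℂ → VV s)), 0 ≤ B ∧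
    (∀ W ∈ L, D.Cv B 0 W) ∧ ∀ (h : ℂ → ℂ) (v : ℂ → VV s), Differentiable ℂ h →
      Differentiable ℂ v → (∀ z, D.on (v z)) → (∀ z, D.p (v z) = 1) → (∀ z, D.q (v z) = Complex.exp (h z)) →
      (∃ z, deriv h z ≠ 0) → ∃ W ∈ L, ∀ z, v z = W (h z) := by
  classical
  obtain ⟨B, hBp, hspeed⟩ := D.rel_speed3 hk hF
  have hB : 0 ≤ B := hBp.le
  have hsp : ∀ (z0 : ℂ) (v : ℂ → VV s), DifferentiableOn ℂ v (ball z0 1) →
      (∀ z ∈ ball z0 1, D.on (v z)) → (∀ z ∈ ball z0 1, D.p (v z) = 1) → (∀ z ∈ ball z0 1, D.q (v z) = Complex.exp z) →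
      ‖cr (v z0) (deriv v z0)‖ ≤ B * ‖v z0‖ ^ 2 := by
    intro z0 v hv hon hp hq
    have h1 := hspeed 1 z0 id v one_pos differentiableOn_id (fun z _ => by
      rw [deriv_id]
      simp) hv hon hp hq
    rw [div_one] at h1
    exact h1
  have hfin := D.fin_all hk hB
  set L : Finset (ℂ → VV s) := hfin.toFinset with hL
  have hLm : ∀ W, W ∈ L ↔ D.Cv B 0 W := fun W => by
    rw [hL, Set.Finite.mem_toFinset]
    rfl
  refine ⟨B, L, hB, fun W hW => (hLm W).1 hW, fun h v hh hv hon hp hq hn => ?_⟩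
  -- growth of the curves in the list
  obtain ⟨Cl, hCl, hld⟩ := D.ld hB
  obtain ⟨K, hK⟩ : ∃ K : ℝ, ∀ W ∈ L, ‖W 0‖ ≤ K := by
    obtain ⟨K, hK⟩ := (L.image fun W => ‖W 0‖).bddAbove
    exact ⟨K, fun W hW => hK (Finset.mem_coe.2 (Finset.mem_image_of_mem _ hW))⟩
  set Cw : ℝ := Cl + |K| with hCw
  have hCw0 : 0 ≤ Cw := by positivity
  have hgr : ∀ W ∈ L, ∀ t, ‖W t‖ ≤ Real.exp (Cw * (1 + ‖t‖)) := by
    intro W hW t
    have hCv := (hLm W).1 hW
    have h1 := gronwall hCv.dif (hld 0 W hCv) t 0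
    rw [dist_zero_right] at h1
    have h2 : ‖W 0‖ ≤ Real.exp |K| := by
      have h3 := hK W hW
      have h4 := le_abs_self K
      have h5 := Real.add_one_le_exp |K|
      linarith
    calc ‖W t‖ ≤ ‖W 0‖ * Real.exp (Cl * ‖t‖) := h1
      _ ≤ Real.exp |K| * Real.exp (Cl * ‖t‖) := mul_le_mul_of_nonneg_right h2 (Real.exp_pos _).le
      _ ≤ Real.exp (Cw * (1 + ‖t‖)) := by
        rw [← Real.exp_add]
        apply Real.exp_le_exp.2
        have h6 : 0 ≤ |K| * ‖t‖ := by positivity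
        rw [hCw]
        linarith
  have hd : ∀ W ∈ L, Differentiable ℂ (fun z => v z - W (h z)) := fun W hW =>
    hv.sub (((hLm W).1 hW).dif.comp hh)
  have hvan : ∀ sv : ℕ, ∃ W ∈ L, ∀ z, dt (mv s sv) (v z - W (h z)) = 0 := by
    intro sv
    obtain ⟨C, hC, hT⟩ := D.tst_prod (B := B) L (fun W hW => ((hLm W).1 hW).dif) hCw0 hgr
      (fun W hW => (hLm W).2 hW) (mv s sv)
    have h1 := D.glob hk hF hB hsp hC hT hh hv hon hp hq hn
    exact prod_zero L (F := fun W z => dt (mv s sv) (v z - W (h z)))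
      (fun W hW z => dt_dif (hd W hW z)) h1
  choose Ws hWs hvan using hvan
  obtain ⟨W, hW⟩ := Finite.exists_infinite_fiber (fun sv : ℕ => (⟨Ws sv, hWs sv⟩ : {W // W ∈ L}))
  refine ⟨W, W.2, fun z => ?_⟩
  have h1 := dt_mom (d := v z - (W : ℂ → VV s) (h z)) (Set.infinite_coe_iff.1 hW) (fun sv hsv => by
    have h2 : (⟨Ws sv, hWs sv⟩ : {W // W ∈ L}) = W := hsv
    have h3 : Ws sv = W := congrArg Subtype.val h2
    rw [← h3]
    exact hvan sv z)
  exact sub_eq_zero.1 h1

end Pair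

end Pool.Agent.K9h84.CI
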