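import Pool.Agent.K9h84.CI.All

/-!
# The structure theorem for all entire curves
-/

set_option autoImplicit false

open Set Filter Topology Metric

namespace Pool.Agent.K9h84.CI

open Pool.Agent.K9h3.TC (exists_log_univ)

variable {s : ℕ}

namespace Pair

variable (D : Pair s)

/-- **all entire curves** -/
theorem all_main (hk : 1 ≤ D.k) (hF : D.HF) {x0 : VV s} (hx0 : x0 ≠ 0) (hon0 : D.on x0) :
    ∃ (n N : ℕ) (G : PP s) (φ : Fin N → Fin (s + 3) → Polynomial ℂ), G.IsHomogeneous n ∧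
    (∃ x : VV s, x ≠ 0 ∧ D.on x ∧ MvPolynomial.eval x G ≠ 0) ∧
    (∀ j, (∀ t : ℂ, t ≠ 0 → D.on (fun i => (φ j i).eval t) ∧ D.p (fun i => (φ j i).eval t) ≠ 0 ∧
        D.q (fun i => (φ j i).eval t) ≠ 0 ∧ MvPolynomial.eval (fun i => (φ j i).eval t) G = 0) ∧
      ∃ t t' : ℂ, t ≠ 0 ∧ t' ≠ 0 ∧ cr (fun i => (φ j i).eval t) (fun i => (φ j i).eval t') ≠ 0) ∧
    ∀ u : ℂ → VV s, Differentiable ℂ u → (∀ z, D.on (u z)) → (∀ z, D.p (u z) ≠ 0) →
      (∀ z, D.q (u z) ≠ 0) → (∃ z w, cr (u z) (u w) ≠ 0) →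
      (∃ (j : Fin N) (g H : ℂ → ℂ), Differentiable ℂ g ∧ (∀ z, g z ≠ 0) ∧ Differentiable ℂ H ∧
        ∀ z i, g z * u z i = (φ j i).eval (Complex.exp (H z))) ∧
      ∀ z, MvPolynomial.eval (u z) G = 0 := by
  classical
  obtain ⟨B, L, hB, hL, hcl⟩ := D.classify hk hF
  have hpoly : ∀ x : L, ∃ (k l : ℕ) (φ : Fin (s + 3) → Polynomial ℂ), 1 ≤ k ∧
      ∀ z i, Complex.exp (l * z / k) * (x : ℂ → VV s) z i = (φ i).eval (Complex.exp (z / k)) :=
    fun x => D.cv_laurent hk hB (hL x.1 x.2)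
  choose k l φ hk1 hφ using hpoly
  have hkc : ∀ x, (k x : ℂ) ≠ 0 := fun x => by
    have := hk1 x
    exact_mod_cast (by omega : k x ≠ 0)
  -- parametrisation by the exponential function
  have hpar : ∀ (x : L) (t : ℂ), t ≠ 0 → (fun i => (φ x i).eval t) =
      Complex.exp (l x * (k x * Complex.log t) / k x) • (x : ℂ → VV s) (k x * Complex.log t) := by
    intro x t ht
    funext i
    rw [Pi.smul_apply, smul_eq_mul, hφ]
    congr 1
    rw [mul_div_cancel_left₀ _ (hkc x), Complex.exp_log ht]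
  obtain ⟨n, G, hGh, hGx, hG⟩ := exists_form D.hR hx0 hon0
    (D.sR x0 hx0 hon0) (fun j => φ ((Fintype.equivFin L).symm j))
  refine ⟨n, Fintype.card L, G, fun j => φ ((Fintype.equivFin L).symm j), hGh, hGx, fun j => ?_,
    fun u hu hon hp hq hnc => ?_⟩
  · set x := (Fintype.equivFin L).symm j with hx
    have hCv := hL x.1 x.2
    constructor
    · intro t ht
      refine ⟨?_, ?_, ?_, hG j t⟩
      · rw [hpar x t ht]
        exact D.on_smul (hCv.on _)
      · rw [hpar x t ht, D.p_smul]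
        refine mul_ne_zero (pow_ne_zero _ (Complex.exp_ne_zero _)) ?_
        rw [hCv.hp]
        exact one_ne_zero
      · rw [hpar x t ht, D.q_smul]
        refine mul_ne_zero (pow_ne_zero _ (Complex.exp_ne_zero _)) ?_
        rw [hCv.hq]
        exact Complex.exp_ne_zero _
    · by_contra hcon
      push Not at hcon
      have h1 : ∀ z w, cr ((x : ℂ → VV s) z) ((x : ℂ → VV s) w) = 0 := by
        intro z w
        have h2 := hcon (Complex.exp (z / k x)) (Complex.exp (w / k x)) (Complex.exp_ne_zero _)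
          (Complex.exp_ne_zero _)
        have h3 : ∀ z, (fun i => (φ x i).eval (Complex.exp (z / k x))) =
            Complex.exp (l x * z / k x) • (x : ℂ → VV s) z := by
          intro z
          funext i
          rw [← hφ]
          rfl
        rw [h3, h3, cr_smul, smul_cr] at h2
        have h4 := (smul_eq_zero.1 h2).resolve_left (Complex.exp_ne_zero _)
        exact (smul_eq_zero.1 h4).resolve_left (Complex.exp_ne_zero _)
      have h2 := D.const_p hCv.dif hCv.hp (speed_zero hCv.dif h1) 1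
      have h3 := hCv.hq 1
      rw [h2, hCv.hq 0, add_zero, add_zero, Complex.exp_zero] at h3
      have h4 := congrArg norm h3
      rw [norm_one, Complex.norm_exp, Complex.one_re] at h4
      have h5 := Real.add_one_lt_exp (x := 1) one_ne_zero
      linarith
  · -- normalisation
    have hac : (D.a : ℂ) ≠ 0 := by
      have := D.ha
      exact_mod_cast (by omega : D.a ≠ 0)
    have hpd : Differentiable ℂ (fun z => D.p (u z)) := fun z =>
      (D.hA.hasDerivAt (hu z).hasDerivAt).differentiableAt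
    obtain ⟨g0, hg0, hg0e⟩ := exists_log_univ hpd hp
    set e : ℂ → ℂ := fun z => Complex.exp (-(g0 z / D.a)) with he
    have hed : Differentiable ℂ e := (hg0.div_const _).neg.cexp
    have he0 : ∀ z, e z ≠ 0 := fun z => Complex.exp_ne_zero _
    set v : ℂ → VV s := fun z => e z • u z with hv
    have hvd : Differentiable ℂ v := hed.smul hu
    have hvp : ∀ z, D.p (v z) = 1 := by
      intro z
      rw [hv]
      simp only
      rw [D.p_smul, he]
      simp only
      rw [← Complex.exp_nat_mul, ← hg0e z, ← Complex.exp_add]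
      have : (D.a : ℂ) * -(g0 z / D.a) + g0 z = 0 := by
        field_simp
        ring
      rw [this, Complex.exp_zero]
    have hvq0 : ∀ z, D.q (v z) ≠ 0 := by
      intro z
      rw [hv]
      simp only
      rw [D.q_smul]
      exact mul_ne_zero (pow_ne_zero _ (he0 z)) (hq z)
    have hqd : Differentiable ℂ (fun z => D.q (v z)) := fun z =>
      (D.hB.hasDerivAt (hvd z).hasDerivAt).differentiableAt
    obtain ⟨h, hh, hhe⟩ := exists_log_univ hqd hvq0
    by_cases hn : ∃ z, deriv h z ≠ 0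
    · obtain ⟨W, hW, hvW⟩ := hcl h v hh hvd (fun z => D.on_smul (hon z)) hvp (fun z => (hhe z).symm) hn
      have hmain : ∃ (j : Fin (Fintype.card L)) (g H : ℂ → ℂ), Differentiable ℂ g ∧
          (∀ z, g z ≠ 0) ∧ Differentiable ℂ H ∧
          ∀ z i, g z * u z i = (φ ((Fintype.equivFin L).symm j) i).eval (Complex.exp (H z)) := by
        refine ⟨Fintype.equivFin L ⟨W, hW⟩, fun z => Complex.exp (l ⟨W, hW⟩ * h z / k ⟨W, hW⟩) * e z,
          fun z => h z / k ⟨W, hW⟩, ?_, fun z => mul_ne_zero (Complex.exp_ne_zero _) (he0 z),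
          hh.div_const _, fun z i => ?_⟩
        · exact ((hh.const_mul _).div_const _).cexp.mul hed
        · simp only [Equiv.symm_apply_apply]
          rw [← hφ ⟨W, hW⟩ (h z) i]
          have h1 : (⟨W, hW⟩ : L).1 (h z) = e z • u z := (hvW z).symm
          rw [h1]
          simp only [Pi.smul_apply, smul_eq_mul]
          ring
      refine ⟨hmain, fun z => ?_⟩
      obtain ⟨j, g, H, -, hg, -, hgu⟩ := hmain
      obtain ⟨A, hA⟩ := exists_dd hGh
      have h1 := hG j (Complex.exp (H z))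
      have h2 : (fun i => (φ ((Fintype.equivFin L).symm j) i).eval (Complex.exp (H z))) =
          g z • u z := by
        funext i
        rw [← hgu z i]
        rfl
      rw [h2, hA.evh] at h1
      exact (mul_eq_zero.1 h1).resolve_left (pow_ne_zero _ (hg z))
    · -- curves in the members of the pencil
      exfalso
      push Not at hn
      obtain ⟨C, hC, hspeed⟩ := D.rel_speed3 hk hF
      have h0 : ∀ z, cr (v z) (deriv v z) = 0 := by
        intro z
        have h1 : ∀ r : ℝ, 0 < r → ‖cr (v z) (deriv v z)‖ ≤ C / r * ‖v z‖ ^ 2 := fun r hr =>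
          hspeed r z h v hr hh.differentiableOn (fun w _ => by
            rw [hn, norm_zero, zero_mul]
            exact zero_le_one) hvd.differentiableOn (fun w _ => D.on_smul (hon w))
            (fun w _ => hvp w) fun w _ => (hhe w).symm
        have h2 : Tendsto (fun r : ℝ => C / r * ‖v z‖ ^ 2) atTop (𝓝 (0 * ‖v z‖ ^ 2)) :=
          (tendsto_const_nhds.div_atTop tendsto_id).mul_const _
        rw [zero_mul] at h2
        have h3 := ge_of_tendsto h2 (by
          filter_upwards [eventually_gt_atTop (0 : ℝ)] with r hr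
          exact h1 r hr)
        exact norm_le_zero_iff.1 h3
      have h1 : ∀ z w, v z = v w := fun z w => by
        rw [D.const_p hvd hvp h0 z, D.const_p hvd hvp h0 w]
      obtain ⟨z, w, hzw⟩ := hnc
      apply hzw
      have h2 : e z • u z = e w • u w := h1 z w
      have h3 : e w • cr (u z) (u w) = 0 := by
        rw [← cr_smul, ← h2, cr_smul, cr_self, smul_zero]
      exact (smul_eq_zero.1 h3).resolve_left (he0 w)

end Pair

/-- **structure theorem for the entire curves in the complement of two smooth transversal sections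
of a smooth complete intersection surface** -/
theorem all_curves {R : Fin s → MvPolynomial (Fin (s + 3)) ℂ} {P Q : MvPolynomial (Fin (s + 3)) ℂ}
    {d : Fin s → ℕ} {a b : ℕ} (ha : 1 ≤ a) (hb : 1 ≤ b) (hab : s + 4 ≤ a + b + ∑ i, d i)
    (h : SmoothPair R P Q d a b) (hr : (3 ≤ a ∧ 3 ≤ b) ∨ FibresRigid R P Q a b) :
    ∃ (n N : ℕ) (G : MvPolynomial (Fin (s + 3)) ℂ) (φ : Fin N → Fin (s + 3) → Polynomial ℂ),
      G.IsHomogeneous n ∧
      (∃ x : Fin (s + 3) → ℂ, x ≠ 0 ∧ (∀ i, MvPolynomial.eval x (R i) = 0) ∧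
        MvPolynomial.eval x G ≠ 0) ∧
      (∀ j, (∀ t : ℂ, t ≠ 0 → (∀ i, MvPolynomial.eval (fun i => (φ j i).eval t) (R i) = 0) ∧
          MvPolynomial.eval (fun i => (φ j i).eval t) P ≠ 0 ∧
          MvPolynomial.eval (fun i => (φ j i).eval t) Q ≠ 0 ∧
          MvPolynomial.eval (fun i => (φ j i).eval t) G = 0) ∧
        ∃ (t t' : ℂ) (i i' : Fin (s + 3)), t ≠ 0 ∧ t' ≠ 0 ∧
          (φ j i).eval t * (φ j i').eval t' ≠ (φ j i').eval t * (φ j i).eval t') ∧
      ∀ f : ℂ → Fin (s + 3) → ℂ, CurveIn R P Q f → Nonconst f →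
        (∃ (j : Fin N) (g H : ℂ → ℂ), Differentiable ℂ g ∧ (∀ z, g z ≠ 0) ∧ Differentiable ℂ H ∧
          ∀ z i, g z * f z i = (φ j i).eval (Complex.exp (H z))) ∧
        ∀ z, MvPolynomial.eval (f z) G = 0 := by
  have hk : 1 ≤ (h.toPair ha hb hab).k := by
    show 1 ≤ a + b + ∑ i, d i - (s + 3)
    omega
  have hF : (h.toPair ha hb hab).HF := by
    rcases hr with h3 | hr
    · exact (h.toPair ha hb hab).hf_of_three hk h3.1 h3.2
    · exact hf_of_rigid h ha hb hab hr
  obtain ⟨x0, hx0, hon0⟩ := h.nonempty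
  obtain ⟨n, N, G, φ, hGh, hGx, hφ, hall⟩ := (h.toPair ha hb hab).all_main hk hF hx0 hon0
  refine ⟨n, N, G, φ, hGh, hGx, fun j => ⟨(hφ j).1, ?_⟩, fun f hf hnc =>
    hall f hf.entire hf.on hf.offP hf.offQ hnc.cr⟩
  obtain ⟨t, t', ht, ht', hst⟩ := (hφ j).2
  by_contra hcon
  push Not at hcon
  apply hst
  funext i i'
  show (φ j i).eval t * (φ j i').eval t' - (φ j i').eval t * (φ j i).eval t' = 0
  rw [hcon t t' i i' ht ht', sub_self]

/-- **Brody curves** in the complement of two smooth transversal sections of a smooth complete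
intersection surface -/
theorem brody_curves {R : Fin s → MvPolynomial (Fin (s + 3)) ℂ} {P Q : MvPolynomial (Fin (s + 3)) ℂ}
    {d : Fin s → ℕ} {a b : ℕ} (ha : 1 ≤ a) (hb : 1 ≤ b) (hab : s + 4 ≤ a + b + ∑ i, d i)
    (h : SmoothPair R P Q d a b) {f : ℂ → Fin (s + 3) → ℂ} (hf : CurveIn R P Q f)
    (hB : BoundedSpeed f) :
    ((∃ c : ℂ, c ≠ 0 ∧
        ∀ z, MvPolynomial.eval (f z) Q ^ a = c * MvPolynomial.eval (f z) P ^ b) ∨
      ∃ (c : ℂ) (φ : Fin (s + 3) → Polynomial ℂ) (g : ℂ → ℂ), c ≠ 0 ∧ Differentiable ℂ g ∧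
        (∀ z, g z ≠ 0) ∧ ∀ z i, g z * f z i = (φ i).eval (Complex.exp (c * z))) ∧
    ∃ (n : ℕ) (G : MvPolynomial (Fin (s + 3)) ℂ), G.IsHomogeneous n ∧
      (∃ x : Fin (s + 3) → ℂ, x ≠ 0 ∧ (∀ i, MvPolynomial.eval x (R i) = 0) ∧
        MvPolynomial.eval x G ≠ 0) ∧
      ∀ z, MvPolynomial.eval (f z) G = 0 := by
  obtain ⟨B, hB'⟩ := hB.bro
  have hk : 1 ≤ (h.toPair ha hb hab).k := by
    show 1 ≤ a + b + ∑ i, d i - (s + 3)
    omega
  have hmain := (h.toPair ha hb hab).main hk hf.entire hf.on hf.offP hf.offQ hB'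
  refine ⟨hmain, ?_⟩
  rcases hmain with ⟨c, hc, hcz⟩ | ⟨c, φ, g, hc, hg, hg0, hφ⟩
  · obtain ⟨x, hx, hxR, hxP, hxQ⟩ := h.exists_pt ha
    refine ⟨b * a, Q ^ a - MvPolynomial.C c * P ^ b, ?_, ⟨x, hx, hxR, ?_⟩, fun z => ?_⟩
    · have h1 : (Q ^ a).IsHomogeneous (b * a) := h.homQ.pow a
      have h2 : (P ^ b).IsHomogeneous (a * b) := h.homP.pow b
      have h3 : (MvPolynomial.C c * P ^ b).IsHomogeneous (0 + a * b) :=
        (MvPolynomial.isHomogeneous_C _ c).mul h2
      rw [zero_add, mul_comm a b] at h3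
      exact h1.sub h3
    · rw [map_sub, map_mul, map_pow, map_pow, MvPolynomial.eval_C, hxP, zero_pow (by omega),
        mul_zero, sub_zero]
      exact pow_ne_zero _ hxQ
    · rw [map_sub, map_mul, map_pow, map_pow, MvPolynomial.eval_C]
      exact sub_eq_zero.2 (hcz z)
  · obtain ⟨x0, hx0, hon0⟩ := h.nonempty
    obtain ⟨n, G, hGh, hGx, hG⟩ := exists_form h.homR hx0 hon0
      ((h.toPair ha hb hab).sR x0 hx0 hon0) (fun _ : Fin 1 => φ)
    refine ⟨n, G, hGh, hGx, fun z => ?_⟩
    obtain ⟨A, hA⟩ := exists_dd hGh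
    have h1 := hG 0 (Complex.exp (c * z))
    have h2 : (fun i => (φ i).eval (Complex.exp (c * z))) = g z • f z := by
      funext i
      rw [← hφ z i]
      rfl
    rw [h2, hA.evh] at h1
    exact (mul_eq_zero.1 h1).resolve_left (pow_ne_zero _ (hg0 z))

end Pool.Agent.K9h84.CI
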