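import Pool.Agent.K9h84.CI.Fib

/-!
# A uniform bound for the speed
-/

set_option autoImplicit false

open Set Filter Topology Metric

namespace Pool.Agent.K9h84.CI

variable {s : ℕ}

theorem cr_zero_right (a : VV s) : cr a 0 = 0 := by
  have := cr_smul a 0 0
  rw [zero_smul, zero_smul] at this
  exact this

namespace Pair

variable (D : Pair s)

/-- limits of scaled curves whose exponent tends to a constant -/
theorem no_limit (hk : 1 ≤ D.k) (hF : D.HF) {W : ℂ → VV s} (hWd : Differentiable ℂ W)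
    (hne : ∀ z, W z ≠ 0) {C : ℝ} (hld : ∀ z, ‖deriv W z‖ ≤ C * ‖W z‖) {α β : ℂ}
    (hp : ∀ z, D.p (W z) = α) (hq : ∀ z, D.q (W z) = β) {B : ℝ} (hB : Bro B W)
    (hon : ∀ z, D.on (W z)) :
    cr (W 0) (deriv W 0) = 0 := by
  by_cases hα : α = 0
  · by_cases hβ : β = 0
    · obtain ⟨a, ha⟩ := D.strat0 hWd hne hld (fun z => by rw [hp, hα]) (fun z => by rw [hq, hβ]) hon
      have h1 : HasDerivAt (fun z : ℂ => Complex.exp (a * z) • W 0)
          ((Complex.exp (a * 0) * (a * 1)) • W 0) 0 :=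
        (((hasDerivAt_id (0 : ℂ)).const_mul a).cexp).smul_const (W 0)
      have h2 : W = fun z : ℂ => Complex.exp (a * z) • W 0 := funext ha
      have h3 : deriv W 0 = (Complex.exp (a * 0) * (a * 1)) • W 0 := by
        rw [h2]
        have := h1.deriv
        simpa using this
      rw [h3, cr_smul, cr_self, smul_zero]
    · have h1 := D.swap.strat hk hWd hld hβ hq (fun z => by
        show D.p (W z) = 0
        rw [hp, hα]) hon
      have h2 : W = fun _ => W 0 := funext h1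
      rw [h2, deriv_const, cr_zero_right]
  · by_cases hβ : β = 0
    · have h1 := D.strat hk hWd hld hα hp (fun z => by rw [hq, hβ]) hon
      have h2 : W = fun _ => W 0 := funext h1
      rw [h2, deriv_const, cr_zero_right]
    · obtain ⟨sv, hsv⟩ := IsAlgClosed.exists_pow_nat_eq (α⁻¹) (n := D.a) (by have := D.ha; omega)
      have hs0 : sv ≠ 0 := by
        rintro rfl
        rw [zero_pow (by have := D.ha; omega)] at hsv
        exact inv_ne_zero hα hsv.symm
      have hVd : Differentiable ℂ (fun z => sv • W z) := hWd.const_smul sv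
      have hBV : Bro B (fun z => sv • W z) := hB.smul hWd (differentiable_const sv)
      have h1 := hF B (fun z => sv • W z) (sv ^ D.b * β) hVd (fun z => D.on_smul (hon z)) (fun z => by
        rw [D.p_smul, hp, hsv, inv_mul_cancel₀ hα]) (mul_ne_zero (pow_ne_zero _ hs0) hβ) (fun z => by
        rw [D.q_smul, hq]) hBV 0
      have h2 : deriv (fun z => sv • W z) 0 = sv • deriv W 0 :=
        ((hWd 0).hasDerivAt.const_smul sv).deriv
      rw [h2, cr_smul, smul_cr, smul_smul] at h1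
      exact (smul_eq_zero.1 h1).resolve_left (mul_ne_zero hs0 hs0)

/-- **uniform bound for the speed** of the normalised curves -/
theorem bb (hk : 1 ≤ D.k) (hF : D.HF) : ∃ B0 : ℝ, 0 < B0 ∧ ∀ (B : ℝ) (v : ℂ → VV s),
    D.Cv B 0 v → D.Cv B0 0 v := by
  by_contra hcon
  push Not at hcon
  have h1 : ∀ n : ℕ, ∃ (v : ℂ → VV s) (B : ℝ) (z0 : ℂ), D.Cv B 0 v ∧
      ((n : ℝ) + 1) * ‖v z0‖ ^ 2 < ‖cr (v z0) (deriv v z0)‖ ∧
      ∀ z, ‖cr (v z) (deriv v z)‖ / ‖v z‖ ^ 2 ≤ 2 * (‖cr (v z0) (deriv v z0)‖ / ‖v z0‖ ^ 2) := by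
    intro n
    obtain ⟨B, v, hv, hnv⟩ := hcon (2 * ((n : ℝ) + 1)) (by positivity)
    have h2 : ∃ z, 2 * ((n : ℝ) + 1) * ‖v z‖ ^ 2 < ‖cr (v z) (deriv v z)‖ := by
      by_contra h
      push Not at h
      exact hnv ⟨hv.dif, hv.hp, hv.hq, h, hv.on⟩
    obtain ⟨z1, hz1⟩ := h2
    set sp : ℂ → ℝ := fun z => ‖cr (v z) (deriv v z)‖ / ‖v z‖ ^ 2 with hsp
    have hvp : ∀ z, 0 < ‖v z‖ ^ 2 := fun z => pow_pos (hv.pos z) 2
    have hbdd : BddAbove (range sp) := by
      refine ⟨B, ?_⟩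
      rintro _ ⟨z, rfl⟩
      rw [hsp]
      simp only
      rw [div_le_iff₀ (hvp z)]
      exact hv.bro z
    have hS1 : 2 * ((n : ℝ) + 1) < sSup (range sp) := by
      refine lt_of_lt_of_le ?_ (le_csSup hbdd (mem_range_self z1))
      rw [hsp]
      simp only
      rw [lt_div_iff₀ (hvp z1)]
      exact hz1
    have hn0 : (0 : ℝ) < (n : ℝ) + 1 := by positivity
    obtain ⟨_, ⟨z0, rfl⟩, hz0⟩ := exists_lt_of_lt_csSup (range_nonempty sp)
      (show sSup (range sp) / 2 < sSup (range sp) by linarith)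
    refine ⟨v, B, z0, hv, ?_, fun z => ?_⟩
    · rw [← lt_div_iff₀ (hvp z0)]
      have : sp z0 = ‖cr (v z0) (deriv v z0)‖ / ‖v z0‖ ^ 2 := rfl
      rw [← this]
      linarith
    · have h3 := le_csSup hbdd (mem_range_self z)
      have h4 : sp z ≤ 2 * sp z0 := by linarith
      exact h4
  choose v B z0 hv hbig hmax using h1
  have hvp : ∀ n z, 0 < ‖v n z‖ ^ 2 := fun n z => pow_pos ((hv n).pos z) 2
  set sv : ℕ → ℝ := fun n => ‖cr (v n (z0 n)) (deriv (v n) (z0 n))‖ / ‖v n (z0 n)‖ ^ 2 with hsv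
  have hs1 : ∀ n : ℕ, (n : ℝ) + 1 < sv n := fun n => by
    rw [hsv]
    simp only
    rw [lt_div_iff₀ (hvp n _)]
    exact hbig n
  have hsp : ∀ n, 0 < sv n := fun n => lt_trans (by positivity) (hs1 n)
  have hs1' : ∀ n, 1 ≤ sv n := fun n => by
    have h2 := hs1 n
    have h3 : (0 : ℝ) ≤ n := Nat.cast_nonneg n
    linarith
  set α : ℕ → ℂ := fun n => (((sv n)⁻¹ : ℝ) : ℂ) with hα
  have hαn : ∀ n, ‖α n‖ = (sv n)⁻¹ := fun n => by
    rw [hα]
    simp only
    rw [Complex.norm_real, Real.norm_of_nonneg (inv_nonneg.2 (hsp n).le)]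
  have hα1 : ∀ n, ‖α n‖ ≤ 1 := fun n => by
    rw [hαn]
    exact inv_le_one_of_one_le₀ (hs1' n)
  have hα0 : Tendsto α UU (𝓝 0) := by
    have h3 : Tendsto (fun n : ℕ => ((n : ℝ) + 1)⁻¹) UU (𝓝 0) :=
      (tendsto_inv_atTop_zero.comp (tendsto_natCast_atTop_atTop.atTop_add
        tendsto_const_nhds)).mono_left UU_le
    refine squeeze_zero_norm (fun n => ?_) h3
    rw [hαn]
    exact inv_anti₀ (by positivity) (hs1 n).le
  -- scaled curves
  set t : ℕ → ℂ := fun n => ((‖v n (z0 n)‖⁻¹ : ℝ) : ℂ) with ht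
  have htn : ∀ n, ‖t n‖ = ‖v n (z0 n)‖⁻¹ := fun n => by
    rw [ht]
    simp only
    rw [Complex.norm_real, Real.norm_of_nonneg (inv_nonneg.2 (norm_nonneg _))]
  have ht0 : ∀ n, t n ≠ 0 := fun n => by
    rw [← norm_pos_iff, htn]
    exact inv_pos.2 ((hv n).pos _)
  set w : ℕ → ℂ → VV s := fun n ζ => v n (z0 n + α n * ζ) with hw
  have hlin : ∀ n ζ, HasDerivAt (fun ζ : ℂ => z0 n + α n * ζ) (α n) ζ := fun n ζ => by
    have := ((hasDerivAt_id ζ).const_mul (α n)).const_add (z0 n)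
    rwa [mul_one] at this
  have hwd' : ∀ n ζ, HasDerivAt (w n) (α n • deriv (v n) (z0 n + α n * ζ)) ζ := fun n ζ =>
    HasDerivAt.scomp (h := fun ζ : ℂ => z0 n + α n * ζ) ζ ((hv n).dif _).hasDerivAt (hlin n ζ)
  have hwd : ∀ n, Differentiable ℂ (w n) := fun n ζ => (hwd' n ζ).differentiableAt
  have hwp : ∀ n ζ, D.p (w n ζ) = 1 := fun n ζ => (hv n).hp _
  have hwq : ∀ n ζ, D.q (w n ζ) = Complex.exp (α n * ζ + z0 n) := fun n ζ => by
    rw [hw]
    simp only
    rw [(hv n).hq]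
    congr 1
    ring
  have hwB : ∀ n, Bro 2 (w n) := by
    intro n ζ
    rw [(hwd' n ζ).deriv, cr_smul, norm_smul, hαn]
    have h2 := hmax n (z0 n + α n * ζ)
    rw [div_le_iff₀ (hvp n _)] at h2
    have h3 := hsp n
    have h4 : (sv n)⁻¹ * (2 * sv n * ‖v n (z0 n + α n * ζ)‖ ^ 2) = 2 * ‖v n (z0 n + α n * ζ)‖ ^ 2 := by
      field_simp
    calc (sv n)⁻¹ * ‖cr (w n ζ) (deriv (v n) (z0 n + α n * ζ))‖ ≤
        (sv n)⁻¹ * (2 * sv n * ‖v n (z0 n + α n * ζ)‖ ^ 2) := by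
          refine mul_le_mul_of_nonneg_left h2 (inv_nonneg.2 h3.le)
      _ = _ := h4
  obtain ⟨C, hC, hld⟩ := D.lda (B := 2) (by norm_num)
  have hwl : ∀ n ζ, ‖deriv (w n) ζ‖ ≤ C * ‖w n ζ‖ := fun n =>
    hld (α n) (z0 n) (w n) (hα1 n) (hwd n) (fun ζ => (hv n).on _) (hwp n) (hwq n) (hwB n)
  have hw0 : ∀ n, w n 0 = v n (z0 n) := fun n => by
    rw [hw]
    simp
  have hW0 : ∀ n, ‖t n • w n 0‖ = 1 := fun n => by
    rw [norm_smul, htn, hw0]
    exact inv_mul_cancel₀ ((hv n).pos _).ne'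
  have hWdn : ∀ n ζ, deriv (fun ζ => t n • w n ζ) ζ = t n • deriv (w n) ζ := fun n ζ =>
    ((hwd n ζ).hasDerivAt.const_smul (t n)).deriv
  have hWl : ∀ n ζ, ‖deriv (fun ζ => t n • w n ζ) ζ‖ ≤ C * ‖t n • w n ζ‖ := fun n ζ => by
    rw [hWdn, norm_smul, norm_smul]
    have h2 := hwl n ζ
    have h3 := norm_nonneg (t n)
    nlinarith
  obtain ⟨W, hWd, -, hWt, hWt', hWld⟩ := exists_lim (v := fun n ζ => t n • w n ζ) hC.le
    (fun n => (hwd n).const_smul (t n)) hWl (K := 1) (fun n => (hW0 n).le)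
  -- the limit does not vanish
  have hWne : ∀ z, W z ≠ 0 := by
    intro z h0
    have h2 : Real.exp (-(C * ‖z‖)) ≤ ‖W z‖ := by
      refine ge_of_tendsto (hWt z).norm (Eventually.of_forall fun n => ?_)
      have h3 := gronwall ((hwd n).const_smul (t n)) (hWl n) 0 z
      rw [dist_zero_left] at h3
      have h4 : ‖(t n • w n) 0‖ = 1 := hW0 n
      rw [h4] at h3
      rw [Real.exp_neg, inv_le_iff_one_le_mul₀ (Real.exp_pos _)]
      exact h3
    rw [h0, norm_zero] at h2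
    have := Real.exp_pos (-(C * ‖z‖))
    linarith
  obtain ⟨Cp, hCp, hple⟩ := D.p_le
  obtain ⟨Cq, hCq, hqle⟩ := D.q_le
  obtain ⟨A, -, hA⟩ := exists_ulim (x := fun n => D.p (t n • w n 0)) (K := Cp) (fun n => by
    have h2 := hple (t n • w n 0)
    rw [hW0, one_pow, mul_one] at h2
    exact h2)
  obtain ⟨Q, -, hQ⟩ := exists_ulim (x := fun n => D.q (t n • w n 0)) (K := Cq) (fun n => by
    have h2 := hqle (t n • w n 0)
    rw [hW0, one_pow, mul_one] at h2
    exact h2)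
  have hpW : ∀ z, D.p (W z) = A := by
    intro z
    have h2 : Tendsto (fun n => D.p (t n • w n z)) UU (𝓝 (D.p (W z))) :=
      (D.p_cont.tendsto _).comp (hWt z)
    have h3 : ∀ n, D.p (t n • w n z) = D.p (t n • w n 0) := fun n => by
      rw [D.p_smul, D.p_smul, hwp, hwp]
    simp only [h3] at h2
    exact tendsto_nhds_unique h2 hA
  have hqW : ∀ z, D.q (W z) = Q := by
    intro z
    have h2 : Tendsto (fun n => D.q (t n • w n z)) UU (𝓝 (D.q (W z))) :=
      (D.q_cont.tendsto _).comp (hWt z)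
    have h3 : ∀ n, D.q (t n • w n z) = D.q (t n • w n 0) * Complex.exp (α n * z) := fun n => by
      rw [D.q_smul, D.q_smul, hwq, hwq, mul_zero, zero_add, Complex.exp_add]
      ring
    simp only [h3] at h2
    have h4 : Tendsto (fun n => Complex.exp (α n * z)) UU (𝓝 (Complex.exp (0 * z))) :=
      (Complex.continuous_exp.tendsto _).comp (hα0.mul_const z)
    rw [zero_mul, Complex.exp_zero] at h4
    have h5 := hQ.mul h4
    rw [mul_one] at h5
    exact tendsto_nhds_unique h2 h5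
  have hcrt : ∀ z, Tendsto (fun n => ‖cr (t n • w n z) (deriv (fun ζ => t n • w n ζ) z)‖) UU
      (𝓝 ‖cr (W z) (deriv W z)‖) := by
    intro z
    have h2 : Tendsto (fun n => ((t n • w n z, deriv (fun ζ => t n • w n ζ) z) : VV s × VV s)) UU
        (𝓝 (W z, deriv W z)) := (hWt z).prodMk_nhds (hWt' z)
    exact ((cr_cont.tendsto _).comp h2).norm
  have hWB : Bro 2 W := by
    intro z
    have h3 : Tendsto (fun n => 2 * ‖t n • w n z‖ ^ 2) UU (𝓝 (2 * ‖W z‖ ^ 2)) :=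
      ((hWt z).norm.pow 2).const_mul 2
    refine le_of_tendsto_of_tendsto (hcrt z) h3 (Eventually.of_forall fun n => ?_)
    simp only
    rw [hWdn, smul_cr, cr_smul, norm_smul, norm_smul, norm_smul]
    have h4 := hwB n z
    have h5 := norm_nonneg (t n)
    calc ‖t n‖ * (‖t n‖ * ‖cr (w n z) (deriv (w n) z)‖) ≤ ‖t n‖ * (‖t n‖ * (2 * ‖w n z‖ ^ 2)) := by
          gcongr
      _ = 2 * (‖t n‖ * ‖w n z‖) ^ 2 := by ring
  have hone : ‖cr (W 0) (deriv W 0)‖ = 1 := by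
    refine tendsto_nhds_unique (hcrt 0) ?_
    refine (tendsto_const_nhds (x := (1 : ℝ))).congr fun n => ?_
    rw [hWdn, smul_cr, cr_smul, norm_smul, norm_smul, (hwd' n 0).deriv, cr_smul, norm_smul, hαn,
      htn, hw0, mul_zero, add_zero]
    have h3 := hsp n
    have h4 : sv n * ‖v n (z0 n)‖ ^ 2 = ‖cr (v n (z0 n)) (deriv (v n) (z0 n))‖ := by
      rw [hsv]
      simp only
      exact div_mul_cancel₀ _ (hvp n _).ne'
    rw [← h4]
    have h5 := (hv n).pos (z0 n)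
    field_simp
  have hzero := D.no_limit hk hF hWd hWne hWld hpW hqW hWB
    (D.on_lim (fun n z => D.on_smul ((hv n).on _)) hWt)
  rw [hzero, norm_zero] at hone
  exact zero_ne_one hone

end Pair

end Pool.Agent.K9h84.CI
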