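import Pool.Agent.K9h84.CI.Deep

/-!
# The uniqueness lemma

Two normalised curves which are close on a sufficiently large disc about a point of the middle
region are equal; hence there are only finitely many curves through the middle region.
-/

set_option autoImplicit false

open Set Filter Topology Metric

namespace Pool.Agent.K9h84.CI

variable {s : ℕ}

/-- one of four rotated points lies well inside the disc -/
theorem four_points {p ζ : ℂ} {t : ℝ} (ht : 0 < t) (hp : 2 * t ≤ ‖p‖) (hζ : ‖ζ‖ = t) :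
    ∃ u : ℂ, (u = 1 ∨ u = -1 ∨ u = Complex.I ∨ u = -Complex.I) ∧ ‖p + u * ζ‖ ≤ ‖p‖ - t / 2 := by
  have hp0 : 0 < ‖p‖ := by linarith
  set s : ℂ := ζ * (starRingEnd ℂ) p with hs
  have hsn : ‖s‖ = t * ‖p‖ := by rw [hs, norm_mul, hζ, RCLike.norm_conj]
  have hsq : s.re ^ 2 + s.im ^ 2 = (t * ‖p‖) ^ 2 := by
    rw [← hsn, ← Complex.normSq_eq_norm_sq, Complex.normSq_apply]
    ring
  have key : ∀ u : ℂ, ‖u‖ = 1 → (u * s).re ≤ -(0.7 * (t * ‖p‖)) → ‖p + u * ζ‖ ≤ ‖p‖ - t / 2 := by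
    intro u hu h
    have h1 : ‖p + u * ζ‖ ^ 2 = ‖p‖ ^ 2 + 2 * (u * s).re + t ^ 2 := by
      have h2 : (u * s).re = ((u * ζ) * (starRingEnd ℂ) p).re := by rw [hs, mul_assoc]
      have h3 : ‖u * ζ‖ ^ 2 = t ^ 2 := by rw [norm_mul, hu, one_mul, hζ]
      rw [h2, ← h3, ← Complex.normSq_eq_norm_sq, ← Complex.normSq_eq_norm_sq,
        ← Complex.normSq_eq_norm_sq, Complex.normSq_apply, Complex.normSq_apply,
        Complex.normSq_apply, Complex.add_re, Complex.add_im, Complex.mul_re (u * ζ),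
        Complex.conj_re, Complex.conj_im]
      ring
    apply le_of_sq_le_sq _ (by linarith)
    rw [h1]
    nlinarith
  have hor : 0.7 * (t * ‖p‖) ≤ |s.re| ∨ 0.7 * (t * ‖p‖) ≤ |s.im| := by
    by_contra hcon
    push Not at hcon
    have h1 : s.re ^ 2 < (0.7 * (t * ‖p‖)) ^ 2 := by
      rw [← sq_abs]
      exact pow_lt_pow_left₀ hcon.1 (abs_nonneg _) two_ne_zero
    have h2 : s.im ^ 2 < (0.7 * (t * ‖p‖)) ^ 2 := by
      rw [← sq_abs]
      exact pow_lt_pow_left₀ hcon.2 (abs_nonneg _) two_ne_zero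
    nlinarith [sq_nonneg (t * ‖p‖)]
  rcases hor with h | h
  · rcases le_total 0 s.re with h0 | h0
    · rw [abs_of_nonneg h0] at h
      refine ⟨-1, Or.inr (Or.inl rfl), key _ (by simp) ?_⟩
      rw [neg_one_mul, Complex.neg_re]
      linarith
    · rw [abs_of_nonpos h0] at h
      refine ⟨1, Or.inl rfl, key _ (by simp) ?_⟩
      rw [one_mul]
      linarith
  · rcases le_total 0 s.im with h0 | h0
    · rw [abs_of_nonneg h0] at h
      refine ⟨Complex.I, Or.inr (Or.inr (Or.inl rfl)), key _ (by simp) ?_⟩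
      rw [Complex.I_mul_re]
      linarith
    · rw [abs_of_nonpos h0] at h
      refine ⟨-Complex.I, Or.inr (Or.inr (Or.inr rfl)), key _ (by simp) ?_⟩
      rw [neg_mul, Complex.neg_re, Complex.I_mul_re]
      linarith

/-- mean value argument: a holomorphic function bounded near `p` and very small on the part of the
disc about `p` which lies well inside the large disc is small at `p` -/
theorem four_mean {L : ℂ → ℂ} {p : ℂ} {t M ε : ℝ} (ht : 0 < t) (hp : 2 * t ≤ ‖p‖)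
    (hL : DiffContOnCl ℂ (fun z => L (p + z)) (ball 0 t)) (hM : 0 ≤ M)
    (h1 : ∀ z, ‖z‖ ≤ t → ‖L (p + z)‖ ≤ M)
    (h2 : ∀ z, ‖z‖ ≤ t → ‖p + z‖ ≤ ‖p‖ - t / 2 → ‖L (p + z)‖ ≤ ε) : ‖L p‖ ^ 4 ≤ M ^ 3 * ε := by
  have hrot : ∀ u : ℂ, ‖u‖ = 1 → DiffContOnCl ℂ (fun z => L (p + u * z)) (ball 0 t) := by
    intro u hu
    have h3 : MapsTo (fun z : ℂ => u * z) (ball 0 t) (ball 0 t) := by
      intro z hz
      rw [mem_ball_zero_iff] at hz ⊢
      rw [norm_mul, hu, one_mul]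
      exact hz
    have h4 : Differentiable ℂ (fun z : ℂ => u * z) := by fun_prop
    exact hL.comp h4.diffContOnCl h3
  set F : ℂ → ℂ := fun z => (L (p + 1 * z) * L (p + (-1) * z)) *
    (L (p + Complex.I * z) * L (p + (-Complex.I) * z)) with hF
  have hFd : DiffContOnCl ℂ F (ball 0 t) :=
    ((hrot 1 (by simp)).smul (hrot (-1) (by simp))).smul
      ((hrot Complex.I (by simp)).smul (hrot (-Complex.I) (by simp)))
  have hb : ∀ u : ℂ, ‖u‖ = 1 → ∀ z, ‖z‖ = t → ‖L (p + u * z)‖ ≤ M := by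
    intro u hu z hz
    apply h1
    rw [norm_mul, hu, one_mul, hz]
  have hfr : ∀ z ∈ frontier (ball (0 : ℂ) t), ‖F z‖ ≤ M ^ 3 * ε := by
    intro z hz
    rw [frontier_ball (0 : ℂ) ht.ne', mem_sphere_zero_iff_norm] at hz
    have b1 := hb 1 (by simp) z hz
    have b2 := hb (-1) (by simp) z hz
    have b3 := hb Complex.I (by simp) z hz
    have b4 := hb (-Complex.I) (by simp) z hz
    have n1 := norm_nonneg (L (p + 1 * z))
    have n2 := norm_nonneg (L (p + (-1) * z))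
    have n3 := norm_nonneg (L (p + Complex.I * z))
    have n4 := norm_nonneg (L (p + (-Complex.I) * z))
    have hFn : ‖F z‖ = (‖L (p + 1 * z)‖ * ‖L (p + (-1) * z)‖) *
        (‖L (p + Complex.I * z)‖ * ‖L (p + (-Complex.I) * z)‖) := by
      rw [hF]
      simp only [norm_mul]
    rw [hFn]
    obtain ⟨u, hu, hup⟩ := four_points ht hp hz
    have hsm : ‖u‖ = 1 → ‖L (p + u * z)‖ ≤ ε := fun hu1 =>
      h2 _ (by rw [norm_mul, hu1, one_mul, hz]) hup
    rcases hu with rfl | rfl | rfl | rfl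
    · have s1 := hsm (by simp)
      have : 0 ≤ ε := n1.trans s1
      calc _ ≤ (ε * M) * (M * M) := by gcongr
        _ = M ^ 3 * ε := by ring
    · have s1 := hsm (by simp)
      have : 0 ≤ ε := n2.trans s1
      calc _ ≤ (M * ε) * (M * M) := by gcongr
        _ = M ^ 3 * ε := by ring
    · have s1 := hsm (by simp)
      have : 0 ≤ ε := n3.trans s1
      calc _ ≤ (M * M) * (ε * M) := by gcongr
        _ = M ^ 3 * ε := by ring
    · have s1 := hsm (by simp)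
      have : 0 ≤ ε := n4.trans s1
      calc _ ≤ (M * M) * (M * ε) := by gcongr
        _ = M ^ 3 * ε := by ring
  have hmain := Complex.norm_le_of_forall_mem_frontier_norm_le Metric.isBounded_ball hFd hfr
    (subset_closure (mem_ball_self ht))
  have hF0 : ‖F 0‖ = ‖L p‖ ^ 4 := by
    rw [hF]
    simp only [mul_zero, add_zero, norm_mul]
    ring
  rwa [hF0] at hmain

namespace Pair

variable (D : Pair s)

/-- growth in terms of the largest of the two lower bounds -/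
theorem cv_low' : ∃ c : ℝ, 0 < c ∧ ∀ (B : ℝ) (v : ℂ → VV s), D.Cv B 0 v → ∀ z : ℂ,
    c * Real.exp (max z.re 0 / D.b) ≤ ‖v z‖ := by
  obtain ⟨c, hc, h⟩ := D.cv_low
  refine ⟨c, hc, fun B v hv z => ?_⟩
  obtain ⟨h1, h2⟩ := h B 0 v hv z
  rcases le_total z.re 0 with h0 | h0
  · rw [max_eq_right h0, zero_div, Real.exp_zero, mul_one]
    exact h1
  · rw [max_eq_left h0]
    simpa using h2

/-- at the boundary point the curve is not deep -/
theorem not_deep (hk : 1 ≤ D.k) {B : ℝ} (hB : 0 ≤ B) : ∃ δ : ℝ, 0 < δ ∧ δ ≤ 1 / 16 ∧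
    (∃ c C : ℝ, 0 < c ∧ 0 < C ∧
    ∀ (β : ℂ) (v w : ℂ → VV s), D.Cv B β v → D.Cv B β w → ∀ O : Set ℂ, IsOpen O →
    (∀ z ∈ O, ‖w z - v z‖ < 4 * δ * ‖v z‖) → ∃ l : ℂ → ℂ, DifferentiableOn ℂ l O ∧
    ∀ z ∈ O, c * ‖w z - v z‖ ≤ ‖l z‖ * ‖v z‖ ^ (D.k + 1) ∧
      ‖l z‖ * ‖v z‖ ^ (D.k + 1) ≤ C * ‖w z - v z‖) ∧
    ∀ K : ℝ, 0 < K → ∃ K0 : ℝ, 0 < K0 ∧ ∀ v w : ℂ → VV s, D.Cv B 0 v → D.Cv B 0 w → ‖v 0‖ ≤ K →
    ∀ p : ℂ, K0 < ‖p‖ →
    (∀ z, ‖z‖ ≤ ‖p‖ → ‖w z - v z‖ ≤ δ * ‖v z‖) → ‖w p - v p‖ = δ * ‖v p‖ →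
    ‖v p‖ ≤ K0 ∧ ‖v p‖ ≤ K0 * Real.exp (p.re / D.b) := by
  obtain ⟨δ0, cl, Cl, hδ0, hδ04, hcl, hCl, hlam⟩ := D.lam hB
  obtain ⟨C, hC, hld⟩ := D.ld hB
  obtain ⟨c1, hc1, hlow⟩ := D.cv_low'
  have hb1 : (1 : ℝ) ≤ D.b := by exact_mod_cast D.hb
  refine ⟨δ0 / 4, by positivity, by linarith, ⟨cl, Cl, hcl, hCl, ?_⟩, fun K hK => ?_⟩
  · have : 4 * (δ0 / 4) = δ0 := by ring
    rw [this]
    exact hlam
  obtain ⟨η, R1, E, c3, hη, hη5, hR1, hE, hc3, hdec⟩ := decay (b := D.b) (c1 := c1) (C := C) (K := K)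
    (E0 := Cl * δ0) hb1 hc1 hC hK (by positivity) hk
  -- choice of the radius
  obtain ⟨t, ht1, ht⟩ : ∃ t : ℝ, 1 ≤ t ∧ (Cl * δ0) ^ 3 * (E * Real.exp (-(c3 * (t / 2)))) <
      ((1 / 2) ^ D.k * (cl * (δ0 / 4))) ^ 4 := by
    have h1 : Tendsto (fun t : ℝ => (Cl * δ0) ^ 3 * (E * Real.exp (-(c3 * (t / 2))))) atTop
        (𝓝 ((Cl * δ0) ^ 3 * (E * 0))) := by
      apply Tendsto.const_mul
      apply Tendsto.const_mul
      apply Real.tendsto_exp_atBot.comp
      apply tendsto_neg_atTop_atBot.comp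
      apply Tendsto.const_mul_atTop hc3
      exact tendsto_id.atTop_div_const (by norm_num)
    rw [mul_zero, mul_zero] at h1
    have h2 : (0 : ℝ) < ((1 / 2) ^ D.k * (cl * (δ0 / 4))) ^ 4 := by positivity
    obtain ⟨t, ht⟩ := ((h1.eventually (gt_mem_nhds h2)).and (eventually_ge_atTop 1)).exists
    exact ⟨t, ht.2, ht.1⟩
  have htp : 0 < t := by linarith
  obtain ⟨K1, hK1, hdeep⟩ := D.deep_close hk hB (δ := δ0 / 4) (by positivity) (by linarith) htp
  refine ⟨max K1 (max R1 (2 * t)), by positivity, ?_⟩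
  intro v w hv hw hv0 p hp hclose heq
  have hpK1 : K1 < ‖p‖ := lt_of_le_of_lt (le_max_left _ _) hp
  have hpR1 : R1 ≤ ‖p‖ := (le_max_left _ _).trans ((le_max_right _ _).trans hp.le)
  have hpt : 2 * t ≤ ‖p‖ := (le_max_right _ _).trans ((le_max_right _ _).trans hp.le)
  by_contra hcon
  have hd : K1 < ‖v p‖ ∨ K1 * Real.exp (p.re / D.b) < ‖v p‖ := by
    by_contra h
    push Not at h
    apply hcon
    refine ⟨h.1.trans (le_max_left _ _), h.2.trans ?_⟩
    gcongr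
    exact le_max_left _ _
  obtain ⟨⟨j, hj⟩, hcl2⟩ := hdeep v w hv hw p hpK1 hd hclose heq
  set O : Set ℂ := {z | ‖w z - v z‖ < δ0 * ‖v z‖} with hO
  have hOo : IsOpen O := isOpen_lt (hw.dif.continuous.sub hv.dif.continuous).norm
    (continuous_const.mul hv.dif.continuous.norm)
  obtain ⟨l, hl, hlb⟩ := hlam 0 v w hv hw O hOo (fun z hz => hz)
  have hO1 : ∀ z, ‖z‖ ≤ ‖p‖ → z ∈ O := by
    intro z hz
    have h1 := hclose z hz
    have h2 := hv.pos z
    show ‖w z - v z‖ < δ0 * ‖v z‖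
    nlinarith
  have hO2 : ∀ z, ‖z‖ ≤ t → p + z ∈ O := by
    intro z hz
    have h1 := hcl2 z hz
    have h2 := hv.pos (p + z)
    show ‖w (p + z) - v (p + z)‖ < δ0 * ‖v (p + z)‖
    nlinarith
  have hlO : ∀ z ∈ O, ‖l z‖ * ‖v z‖ ^ D.k ≤ Cl * δ0 := by
    intro z hz
    have h1 := (hlb z hz).2
    have h2 : ‖w z - v z‖ < δ0 * ‖v z‖ := hz
    have h3 := hv.pos z
    rw [pow_succ] at h1
    have h4 : (‖l z‖ * ‖v z‖ ^ D.k) * ‖v z‖ ≤ (Cl * δ0) * ‖v z‖ := by nlinarith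
    exact le_of_mul_le_mul_right h4 h3
  have hgr : ∀ z : ℂ, ‖v z‖ ≤ K * Real.exp (C * ‖z‖) := by
    intro z
    have h1 := gronwall hv.dif (hld 0 v hv) z 0
    rw [dist_zero_right] at h1
    refine h1.trans ?_
    gcongr
  have hpp : 0 < ‖p‖ := by linarith
  have hdl : DiffContOnCl ℂ l (ball 0 ‖p‖) := by
    apply DifferentiableOn.diffContOnCl
    rw [closure_ball (0 : ℂ) hpp.ne']
    exact hl.mono fun z hz => hO1 z (mem_closedBall_zero_iff.1 hz)
  have hdec' := hdec v hv.dif (hlow B v hv) hgr ‖p‖ hpR1 l hdl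
    (fun z hz => hlO z (hO1 z hz))
  -- the function near `p`
  have hLd : DiffContOnCl ℂ (fun z => l (p + z) * (v (p + z) j) ^ D.k) (ball 0 t) := by
    apply DifferentiableOn.diffContOnCl
    rw [closure_ball (0 : ℂ) htp.ne']
    intro z hz
    apply DifferentiableAt.differentiableWithinAt
    have hz2 := hO2 z (mem_closedBall_zero_iff.1 hz)
    have e1 : DifferentiableAt ℂ l (p + z) := (hl _ hz2).differentiableAt (hOo.mem_nhds hz2)
    have e2 : DifferentiableAt ℂ (fun z => l (p + z)) z := e1.comp z (by fun_prop)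
    have e3 : Differentiable ℂ (fun z => v (p + z)) := hv.dif.comp (by fun_prop)
    have e4 : DifferentiableAt ℂ (fun z => v (p + z) j) z := (differentiableAt_pi.1 (e3 z)) j
    exact e2.mul (e4.pow _)
  have hb : ∀ z, ‖l z * (v z j) ^ D.k‖ ≤ ‖l z‖ * ‖v z‖ ^ D.k := by
    intro z
    rw [norm_mul, norm_pow]
    gcongr
    exact le3 _ j
  have hmean := four_mean (L := fun z => l z * (v z j) ^ D.k) (p := p) (t := t) (M := Cl * δ0)
    (ε := E * Real.exp (-(c3 * (t / 2)))) htp hpt hLd (by positivity)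
    (fun z hz => (hb _).trans (hlO _ (hO2 z hz)))
    (fun z hz hz2 => by
      refine (hb _).trans ((hdec' (p + z) ?_ (by linarith)).trans ?_)
      · have h1 : ‖p‖ - t ≤ ‖p + z‖ := by
          have := norm_sub_le (p + z) z
          rw [add_sub_cancel_right] at this
          linarith
        nlinarith
      · gcongr
        linarith)
  have hlowp : (1 / 2) ^ D.k * (cl * (δ0 / 4)) ≤ ‖l p * (v p j) ^ D.k‖ := by
    have h1 := (hlb p (hO1 p le_rfl)).1
    have h2 := hj 0 (by rw [norm_zero]; linarith)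
    rw [add_zero] at h2
    have h3 := hv.pos p
    rw [heq, pow_succ] at h1
    have h4 : cl * (δ0 / 4) ≤ ‖l p‖ * ‖v p‖ ^ D.k := by
      have h5 : (cl * (δ0 / 4)) * ‖v p‖ ≤ (‖l p‖ * ‖v p‖ ^ D.k) * ‖v p‖ := by linarith
      exact le_of_mul_le_mul_right h5 h3
    rw [norm_mul, norm_pow]
    have h6 : (1 / 2 * ‖v p‖) ^ D.k ≤ ‖v p j‖ ^ D.k := by
      apply pow_le_pow_left₀ (by positivity)
      linarith
    rw [mul_pow] at h6
    calc (1 / 2) ^ D.k * (cl * (δ0 / 4)) ≤ (1 / 2) ^ D.k * (‖l p‖ * ‖v p‖ ^ D.k) := by gcongr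
      _ = ‖l p‖ * ((1 / 2) ^ D.k * ‖v p‖ ^ D.k) := by ring
      _ ≤ ‖l p‖ * ‖v p j‖ ^ D.k := by gcongr
  have h7 : ((1 / 2) ^ D.k * (cl * (δ0 / 4))) ^ 4 ≤ ‖l p * (v p j) ^ D.k‖ ^ 4 :=
    pow_le_pow_left₀ (by positivity) hlowp 4
  have h8 := h7.trans hmean
  linarith

end Pair

end Pool.Agent.K9h84.CI
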