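import Mathlib

/-!
# Vectors, homogeneous forms, divided differences and generalised cross products

Elementary algebra in `ℂ ^ (s + 3)`: the bilinear pairing, the exterior product of two vectors (an
antisymmetric matrix), the generalised cross product of `s + 2` vectors, gradients of forms and
divided differences of forms.
-/

set_option autoImplicit false

open Set Filter Topology Metric

namespace Pool.Agent.K9h84.CI

/-- vectors of length `s + 3` -/
abbrev VV (s : ℕ) := Fin (s + 3) → ℂ

/-- polynomials in `s + 3` variables -/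
abbrev PP (s : ℕ) := MvPolynomial (Fin (s + 3)) ℂ

variable {s : ℕ}

/-- the bilinear pairing -/
def dt (a b : VV s) : ℂ := ∑ i, a i * b i

/-- the exterior product -/
def cr (a b : VV s) : Fin (s + 3) → Fin (s + 3) → ℂ := fun i j => a i * b j - a j * b i

/-- the gradient -/
noncomputable def gr (P : PP s) (x : VV s) : VV s := fun i => MvPolynomial.eval x (MvPolynomial.pderiv i P)

theorem cr_apply (a b : VV s) (i j : Fin (s + 3)) : cr a b i j = a i * b j - a j * b i := rfl

theorem le3 (a : VV s) (i : Fin (s + 3)) : ‖a i‖ ≤ ‖a‖ := norm_le_pi_norm a i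

theorem norm3_le {a : VV s} {r : ℝ} (hr : 0 ≤ r) (h : ∀ i, ‖a i‖ ≤ r) : ‖a‖ ≤ r := by
  rw [pi_norm_le_iff_of_nonneg hr]
  exact h

theorem exists_max (a : VV s) : ∃ i, ‖a i‖ = ‖a‖ := by
  by_contra hcon
  push Not at hcon
  have h : ∀ i, ‖a i‖ < ‖a‖ := fun i => lt_of_le_of_ne (le3 a i) (hcon i)
  have h2 : ‖a‖ < ‖a‖ := by
    rw [pi_norm_lt_iff (lt_of_le_of_lt (norm_nonneg _) (h 0))]
    exact h
  exact lt_irrefl _ h2

/-- the number of coordinates, as a real number -/
noncomputable def nv (s : ℕ) : ℝ := (s : ℝ) + 3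

theorem nv_pos (s : ℕ) : 0 < nv s := by unfold nv; positivity

theorem norm_dt_le (a b : VV s) : ‖dt a b‖ ≤ nv s * ‖a‖ * ‖b‖ := by
  have h : ∀ i, ‖a i * b i‖ ≤ ‖a‖ * ‖b‖ := fun i => by
    rw [norm_mul]
    exact mul_le_mul (le3 a i) (le3 b i) (norm_nonneg _) (norm_nonneg _)
  unfold dt
  refine (norm_sum_le _ _).trans ((Finset.sum_le_sum fun i _ => h i).trans (le_of_eq ?_))
  rw [Finset.sum_const, Finset.card_univ, Fintype.card_fin, nsmul_eq_mul]
  unfold nv
  push_cast
  ring

/-- components of the exterior product -/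
theorem cross_comp (a b : VV s) (j k : Fin (s + 3)) : ‖a j * b k - a k * b j‖ ≤ ‖cr a b‖ :=
  (norm_le_pi_norm (cr a b j) k).trans (norm_le_pi_norm (cr a b) j)

theorem norm_cr_le_of {a b : VV s} {r : ℝ} (hr : 0 ≤ r) (h : ∀ i j, ‖a i * b j - a j * b i‖ ≤ r) :
    ‖cr a b‖ ≤ r := by
  rw [pi_norm_le_iff_of_nonneg hr]
  intro i
  rw [pi_norm_le_iff_of_nonneg hr]
  exact h i

theorem norm_cr_le (a b : VV s) : ‖cr a b‖ ≤ 2 * ‖a‖ * ‖b‖ := by
  have h : ∀ i j, ‖a i * b j‖ ≤ ‖a‖ * ‖b‖ := fun i j => by
    rw [norm_mul]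
    exact mul_le_mul (le3 a i) (le3 b j) (norm_nonneg _) (norm_nonneg _)
  refine norm_cr_le_of (by positivity) fun i j => ?_
  have h1 := h i j
  have h2 := h j i
  have h3 := norm_sub_le (a i * b j) (a j * b i)
  linarith

theorem dt_comm (a b : VV s) : dt a b = dt b a := by
  unfold dt
  exact Finset.sum_congr rfl fun i _ => mul_comm _ _

theorem dt_add (a b c : VV s) : dt a (b + c) = dt a b + dt a c := by
  simp only [dt, Pi.add_apply, mul_add, Finset.sum_add_distrib]

theorem add_dt (a b c : VV s) : dt (a + b) c = dt a c + dt b c := by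
  simp only [dt, Pi.add_apply, add_mul, Finset.sum_add_distrib]

theorem dt_sub (a b c : VV s) : dt a (b - c) = dt a b - dt a c := by
  simp only [dt, Pi.sub_apply, mul_sub, Finset.sum_sub_distrib]

theorem sub_dt (a b c : VV s) : dt (a - b) c = dt a c - dt b c := by
  simp only [dt, Pi.sub_apply, sub_mul, Finset.sum_sub_distrib]

theorem dt_smul (a b : VV s) (c : ℂ) : dt a (c • b) = c * dt a b := by
  simp only [dt, Pi.smul_apply, smul_eq_mul, Finset.mul_sum]
  exact Finset.sum_congr rfl fun i _ => by ring

theorem smul_dt (a b : VV s) (c : ℂ) : dt (c • a) b = c * dt a b := by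
  simp only [dt, Pi.smul_apply, smul_eq_mul, Finset.mul_sum]
  exact Finset.sum_congr rfl fun i _ => by ring

theorem dt_zero (a : VV s) : dt a 0 = 0 := by
  simp [dt]

theorem dt_single (j : Fin (s + 3)) (b : VV s) : dt (Pi.single j 1) b = b j := by
  unfold dt
  rw [Finset.sum_eq_single j]
  · rw [Pi.single_eq_same, one_mul]
  · intro i _ hi
    rw [Pi.single_eq_of_ne hi, zero_mul]
  · intro h
    exact absurd (Finset.mem_univ _) h

theorem cr_smul (a b : VV s) (c : ℂ) : cr a (c • b) = c • cr a b := by
  funext i j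
  simp only [cr_apply, Pi.smul_apply, smul_eq_mul]
  ring

theorem smul_cr (a b : VV s) (c : ℂ) : cr (c • a) b = c • cr a b := by
  funext i j
  simp only [cr_apply, Pi.smul_apply, smul_eq_mul]
  ring

theorem cr_sub (a b c : VV s) : cr a (b - c) = cr a b - cr a c := by
  funext i j
  simp only [cr_apply, Pi.sub_apply]
  ring

theorem sub_cr (a b c : VV s) : cr (a - b) c = cr a c - cr b c := by
  funext i j
  simp only [cr_apply, Pi.sub_apply]
  ring

theorem cr_add (a b c : VV s) : cr a (b + c) = cr a b + cr a c := by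
  funext i j
  simp only [cr_apply, Pi.add_apply]
  ring

theorem cr_self (a : VV s) : cr a a = 0 := by
  funext i j
  simp only [cr_apply, Pi.zero_apply]
  ring

theorem cr_zero (a : VV s) : cr a 0 = 0 := by
  funext i j
  simp [cr_apply]

theorem cr_comm (a b : VV s) : cr a b = - cr b a := by
  funext i j
  simp only [cr_apply, Pi.neg_apply]
  ring

/-- parallel vectors -/
theorem parallel {a b : VV s} (h : cr a b = 0) {j : Fin (s + 3)} (hj : b j ≠ 0) :
    a = (a j / b j) • b := by
  funext i
  have h1 : a i * b j - a j * b i = 0 := congrFun (congrFun h i) j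
  rw [Pi.smul_apply, smul_eq_mul, div_mul_eq_mul_div, eq_div_iff hj]
  linear_combination h1

/-! ### the generalised cross product -/

/-- the matrix with rows `w`, `A 0`, ..., `A (s + 1)` -/
def mx (w : VV s) (A : Fin (s + 2) → VV s) : Matrix (Fin (s + 2 + 1)) (Fin (s + 2 + 1)) ℂ :=
  Matrix.of (Fin.cons (α := fun _ => VV s) w A)

/-- the generalised cross product of `s + 2` vectors -/
noncomputable def gcp (A : Fin (s + 2) → VV s) : VV s := fun l =>
  (-1) ^ (l : ℕ) * ((Matrix.of A : Matrix (Fin (s + 2)) (Fin (s + 2 + 1)) ℂ).submatrix id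
    (Fin.succAbove l)).det

theorem dt_gcp (w : VV s) (A : Fin (s + 2) → VV s) : dt w (gcp A) = (mx w A).det := by
  rw [Matrix.det_succ_row_zero]
  unfold dt gcp
  refine Finset.sum_congr rfl fun j _ => ?_
  have h1 : mx w A 0 j = w j := rfl
  have h2 : (mx w A).submatrix Fin.succ j.succAbove =
      (Matrix.of A : Matrix (Fin (s + 2)) (Fin (s + 2 + 1)) ℂ).submatrix id (Fin.succAbove j) := rfl
  rw [h1, h2]
  ring

/-- the generalised cross product is orthogonal to the factors -/
theorem dt_gcp_self (A : Fin (s + 2) → VV s) (i : Fin (s + 2)) : dt (A i) (gcp A) = 0 := by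
  rw [dt_gcp]
  exact Matrix.det_zero_of_row_eq (Fin.succ_ne_zero i).symm rfl

/-- a vector orthogonal to all the factors is parallel to the generalised cross product -/
theorem cr_gcp {d : VV s} {A : Fin (s + 2) → VV s} (h : ∀ i, dt (A i) d = 0) : cr d (gcp A) = 0 := by
  by_cases hd : d = 0
  · rw [hd]
    funext i j
    simp [cr_apply]
  funext l j
  set w : VV s := d l • (Pi.single j 1 : VV s) - d j • (Pi.single l 1 : VV s) with hw
  have hwd : dt w d = 0 := by
    rw [hw, sub_dt, smul_dt, smul_dt, dt_single, dt_single]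
    ring
  have h1 : dt w (gcp A) = d l * gcp A j - d j * gcp A l := by
    rw [hw, sub_dt, smul_dt, smul_dt, dt_single, dt_single]
  have h2 : (mx w A).det = 0 := by
    refine Matrix.exists_mulVec_eq_zero_iff.1 ⟨d, hd, ?_⟩
    funext i
    refine Fin.cases ?_ (fun k => ?_) i
    · exact hwd
    · exact h k
  rw [cr_apply, Pi.zero_apply, Pi.zero_apply, ← h1, dt_gcp, h2]

/-- the generalised cross product of independent vectors is nonzero -/
theorem gcp_ne {A : Fin (s + 2) → VV s} (h : LinearIndependent ℂ A) : gcp A ≠ 0 := by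
  intro h0
  have hspan : Submodule.span ℂ (Set.range A) ≠ ⊤ := by
    intro htop
    have h1 := finrank_span_eq_card h
    rw [htop, finrank_top, Module.finrank_fin_fun, Fintype.card_fin] at h1
    omega
  obtain ⟨w, -, hw⟩ := SetLike.exists_of_lt (lt_top_iff_ne_top.2 hspan)
  have hli : LinearIndependent ℂ (Fin.cons (α := fun _ => VV s) w A : Fin (s + 2 + 1) → VV s) :=
    linearIndependent_finCons.2 ⟨h, hw⟩
  have h1 : (mx w A).det ≠ 0 := by
    have h2 : IsUnit (mx w A) := Matrix.linearIndependent_rows_iff_isUnit.1 hli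
    have h3 := (Matrix.isUnit_iff_isUnit_det _).1 h2
    exact h3.ne_zero
  apply h1
  rw [← dt_gcp, h0, dt_zero]

theorem gcp_smul (c : Fin (s + 2) → ℂ) (A : Fin (s + 2) → VV s) :
    gcp (fun i => c i • A i) = (∏ i, c i) • gcp A := by
  funext l
  unfold gcp
  rw [Pi.smul_apply, smul_eq_mul]
  have h1 : (Matrix.of (fun i => c i • A i) : Matrix (Fin (s + 2)) (Fin (s + 2 + 1)) ℂ).submatrix id
      (Fin.succAbove l) = Matrix.of (fun i j => c i *
        ((Matrix.of A : Matrix (Fin (s + 2)) (Fin (s + 2 + 1)) ℂ).submatrix id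
      (Fin.succAbove l)) i j) := by
    ext i j
    rfl
  rw [h1, Matrix.det_mul_column]
  ring

theorem dif_prod {E ι : Type*} [NormedAddCommGroup E] [NormedSpace ℂ E] (u : Finset ι)
    {f : ι → E → ℂ} (h : ∀ i, Differentiable ℂ (f i)) : Differentiable ℂ (fun x => ∏ i ∈ u, f i x) := by
  classical
  induction u using Finset.induction_on with
  | empty =>
    simp only [Finset.prod_empty]
    exact differentiable_const _
  | insert a t ha ih =>
    simp only [Finset.prod_insert ha]
    exact (h a).mul ih

theorem gcp_dif {E : Type*} [NormedAddCommGroup E] [NormedSpace ℂ E] {f : E → Fin (s + 2) → VV s}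
    (hf : ∀ i, Differentiable ℂ (fun p => f p i)) : Differentiable ℂ (fun p => gcp (f p)) := by
  rw [differentiable_pi]
  intro l
  unfold gcp
  refine Differentiable.const_mul ?_ _
  simp only [Matrix.det_apply, Matrix.submatrix_apply, Matrix.of_apply, id]
  refine Differentiable.fun_sum fun σ _ => ?_
  refine Differentiable.const_smul ?_ _
  refine dif_prod _ fun i => ?_
  exact (differentiable_pi.1 (hf _)) _

/-! ### divided differences -/

/-- a form of degree `d` with a divided difference -/
structure HasDD (P : PP s) (d : ℕ) (A : VV s → VV s → VV s) : Prop where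
  evh : ∀ (c : ℂ) (x : VV s), MvPolynomial.eval (c • x) P = c ^ d * MvPolynomial.eval x P
  diff : ∀ x y, MvPolynomial.eval y P - MvPolynomial.eval x P = dt (A x y) (y - x)
  diag : ∀ x, A x x = gr P x
  hom : ∀ (c : ℂ) (x y : VV s), c • A (c • x) (c • y) = c ^ d • A x y
  dif : Differentiable ℂ (fun p : VV s × VV s => A p.1 p.2)

theorem gr_add (P Q : PP s) (x : VV s) : gr (P + Q) x = gr P x + gr Q x := by
  funext i
  simp [gr]

theorem gr_zero (x : VV s) : gr (0 : PP s) x = 0 := by
  funext i
  simp [gr]

theorem gr_C_mul (c : ℂ) (P : PP s) (x : VV s) : gr (MvPolynomial.C c * P) x = c • gr P x := by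
  funext i
  simp [gr]

theorem ev_dif (P : PP s) : Differentiable ℂ (fun x : VV s => MvPolynomial.eval x P) := fun x =>
  ((AnalyticOnNhd.eval_mvPolynomial P) x (mem_univ x)).differentiableAt

theorem hasDD_one : HasDD (1 : PP s) 0 (fun _ _ => 0) := by
  refine ⟨fun c x => by simp, fun x y => by simp [dt], fun x => ?_, fun c x y => by simp, by fun_prop⟩
  funext i
  simp [gr, MvPolynomial.pderiv_one]

theorem hasDD_mul_X {P : PP s} {d : ℕ} {A : VV s → VV s → VV s} (h : HasDD P d A) (i : Fin (s + 3)) :
    HasDD (P * MvPolynomial.X i) (d + 1)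
      (fun x y => y i • A x y + MvPolynomial.eval x P • (Pi.single i 1 : VV s)) := by
  refine ⟨fun c x => ?_, fun x y => ?_, fun x => ?_, fun c x y => ?_, ?_⟩
  · rw [map_mul, map_mul, MvPolynomial.eval_X, MvPolynomial.eval_X, h.evh, Pi.smul_apply, smul_eq_mul]
    ring
  · have h1 := h.diff x y
    have h2 : dt (y i • A x y + MvPolynomial.eval x P • (Pi.single i 1 : VV s)) (y - x) =
        y i * dt (A x y) (y - x) + MvPolynomial.eval x P * (y i - x i) := by
      rw [add_dt, smul_dt, smul_dt, dt_single, Pi.sub_apply]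
    rw [h2, ← h1, map_mul, map_mul, MvPolynomial.eval_X, MvPolynomial.eval_X]
    ring
  · rw [h.diag]
    funext j
    simp only [gr, Pi.add_apply, Pi.smul_apply, smul_eq_mul]
    rw [MvPolynomial.pderiv_mul, MvPolynomial.pderiv_X, map_add, map_mul, map_mul,
      MvPolynomial.eval_X]
    have h3 : MvPolynomial.eval x ((Pi.single j 1 : Fin (s + 3) → PP s) i) = (Pi.single i 1 : VV s) j := by
      by_cases hij : i = j
      · rw [hij, Pi.single_eq_same, Pi.single_eq_same, map_one]
      · rw [Pi.single_eq_of_ne hij, Pi.single_eq_of_ne (Ne.symm hij), map_zero]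
    rw [h3]
    ring
  · have h1 := h.hom c x y
    rw [smul_add, h.evh, Pi.smul_apply, smul_eq_mul]
    have h2 : c • (c * y i) • A (c • x) (c • y) = (c * y i) • (c • A (c • x) (c • y)) := smul_comm _ _ _
    rw [h2, h1]
    funext j
    simp only [Pi.add_apply, Pi.smul_apply, smul_eq_mul]
    ring
  · have h1 : Differentiable ℂ (fun p : VV s × VV s => p.2 i) := by fun_prop
    have h2 : Differentiable ℂ (fun p : VV s × VV s => MvPolynomial.eval p.1 P) :=
      (ev_dif P).comp differentiable_fst
    exact (h1.smul h.dif).add (h2.smul_const _)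

theorem hasDD_monomial (d : ℕ) : ∀ m : Fin (s + 3) →₀ ℕ, m.degree = d →
    ∃ A, HasDD (MvPolynomial.monomial m (1 : ℂ)) d A := by
  induction d with
  | zero =>
    intro m hm
    have h0 : m = 0 := (Finsupp.degree_eq_zero_iff m).1 hm
    rw [h0]
    exact ⟨_, hasDD_one⟩
  | succ d ih =>
    intro m hm
    obtain ⟨i, hi⟩ : ∃ i, m i ≠ 0 := by
      by_contra hcon
      push Not at hcon
      have h0 : m = 0 := Finsupp.ext hcon
      rw [h0] at hm
      simp at hm
    set m' : Fin (s + 3) →₀ ℕ := m - Finsupp.single i 1 with hm'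
    have hle : Finsupp.single i 1 ≤ m := by
      rw [Finsupp.single_le_iff]
      omega
    have hmm : m = m' + Finsupp.single i 1 := (tsub_add_cancel_of_le hle).symm
    have hdeg : m'.degree = d := by
      have h1 := congrArg Finsupp.degree hmm
      rw [map_add, Finsupp.degree_single] at h1
      omega
    obtain ⟨A, hA⟩ := ih m' hdeg
    have h2 := hasDD_mul_X hA i
    have h3 : MvPolynomial.monomial m' (1 : ℂ) * MvPolynomial.X i = MvPolynomial.monomial m 1 := by
      rw [MvPolynomial.X, MvPolynomial.monomial_mul, one_mul, ← hmm]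
    rw [h3] at h2
    exact ⟨_, h2⟩

/-- every form has a divided difference -/
theorem exists_dd {P : PP s} {d : ℕ} (hP : P.IsHomogeneous d) : ∃ A, HasDD P d A := by
  rw [← MvPolynomial.support_sum_monomial_coeff P]
  have key : ∀ t : Finset (Fin (s + 3) →₀ ℕ), t ⊆ P.support →
      ∃ A, HasDD (∑ v ∈ t, MvPolynomial.monomial v (MvPolynomial.coeff v P)) d A := by
    intro t
    induction t using Finset.induction_on with
    | empty =>
      intro _
      refine ⟨fun _ _ => 0, ?_, ?_, ?_, ?_, ?_⟩
      · intro c x; simp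
      · intro x y; simp [dt]
      · intro x; simp [gr_zero]
      · intro c x y; simp
      · fun_prop
    | insert m t hs ih =>
      intro hst
      obtain ⟨A, hA⟩ := ih fun v hv => hst (Finset.mem_insert_of_mem hv)
      have hd : m.degree = d := by
        have h1 := hP (MvPolynomial.mem_support_iff.1 (hst (Finset.mem_insert_self _ _)))
        rw [← h1, Finsupp.degree_eq_weight_one]
        rfl
      obtain ⟨A', hA'⟩ := hasDD_monomial d m hd
      set c0 : ℂ := MvPolynomial.coeff m P with hc0
      have hmon : MvPolynomial.monomial m c0 = MvPolynomial.C c0 * MvPolynomial.monomial m (1 : ℂ) := by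
        rw [MvPolynomial.C_mul_monomial, mul_one]
      rw [Finset.sum_insert hs, hmon]
      refine ⟨fun x y => c0 • A' x y + A x y, ?_, ?_, ?_, ?_, ?_⟩
      · intro c x
        rw [map_add, map_add, map_mul, map_mul, hA.evh, hA'.evh, MvPolynomial.eval_C,
          MvPolynomial.eval_C]
        ring
      · intro x y
        have h1 := hA.diff x y
        have h2 := hA'.diff x y
        rw [map_add, map_add, map_mul, map_mul, MvPolynomial.eval_C, MvPolynomial.eval_C, add_dt,
          smul_dt, ← h1, ← h2]
        ring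
      · intro x
        rw [gr_add, gr_C_mul, hA.diag, hA'.diag]
      · intro c x y
        rw [smul_add, smul_add, hA.hom, smul_comm c c0, hA'.hom, smul_comm c0]
      · exact (hA'.dif.const_smul c0).add hA.dif
  exact key _ (Finset.Subset.refl _)

end Pool.Agent.K9h84.CI
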