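import Pool.Agent.K9h84.CI.Dst

/-!
# A comparison function on discs tangent to the real axis
-/

set_option autoImplicit false

open Set Filter Topology Metric

namespace Pool.Agent.K9h84.CI

/-- comparison function -/
noncomputable def cf (ρ : ℝ) (t : ℂ) : ℂ :=
  (1 / 2) * (t + (1 / 2) * (t + (2 / Real.pi : ℝ) * (Complex.I * (t * Complex.log (t / (2 * ρ : ℝ)))))
    + (1 / 4) * (Complex.I * t))

theorem cf_re (ρ : ℝ) (hρ : 0 < ρ) {t : ℂ} (_ht : t ≠ 0) : (cf ρ t).re = 1 / 2 * (t.re + 1 / 2 *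
    (t.re + 2 / Real.pi * (-(t.im * Real.log (‖t‖ / (2 * ρ))) - t.re * t.arg)) - 1 / 4 * t.im) := by
  have h2ρ : (0 : ℝ) < 2 * ρ := by positivity
  have hlog : Complex.log (t / (2 * ρ : ℝ)) = ((Real.log (‖t‖ / (2 * ρ)) : ℝ) : ℂ) + t.arg * Complex.I := by
    unfold Complex.log
    have h1 : (t / ((2 * ρ : ℝ) : ℂ)).arg = t.arg := by
      rw [div_eq_inv_mul, ← Complex.ofReal_inv, Complex.arg_real_mul _ (inv_pos.2 h2ρ)]
    rw [h1, norm_div, Complex.norm_real, Real.norm_of_nonneg h2ρ.le]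
  unfold cf
  rw [hlog]
  simp only [Complex.mul_re, Complex.mul_im, Complex.add_re, Complex.add_im, Complex.ofReal_re,
    Complex.ofReal_im, Complex.I_re, Complex.I_im, Complex.div_ofNat_re, Complex.div_ofNat_im,
    Complex.one_re, Complex.one_im]
  ring

theorem cf_zero (ρ : ℝ) : cf ρ 0 = 0 := by
  unfold cf
  simp

theorem pi_gt : (3.14 : ℝ) < Real.pi := Real.pi_gt_d2

/-- a point of the closed disc tangent to the real axis -/
theorem tang {ρ : ℝ} {t : ℂ} (ht : ‖t - (ρ : ℂ) * Complex.I‖ ≤ ρ) :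
    ‖t‖ ^ 2 ≤ 2 * ρ * t.im := by
  have hρ : 0 ≤ ρ := (norm_nonneg _).trans ht
  have h1 : ‖t - (ρ : ℂ) * Complex.I‖ ^ 2 ≤ ρ ^ 2 := pow_le_pow_left₀ (norm_nonneg _) ht 2
  rw [← Complex.normSq_eq_norm_sq, Complex.normSq_apply] at h1
  rw [← Complex.normSq_eq_norm_sq, Complex.normSq_apply]
  simp only [Complex.sub_re, Complex.sub_im, Complex.im_ofReal_mul, Complex.re_ofReal_mul,
    Complex.I_im, Complex.I_re] at h1
  nlinarith

theorem tang_eq {ρ : ℝ} {t : ℂ} (ht : ‖t - (ρ : ℂ) * Complex.I‖ = ρ) :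
    ‖t‖ ^ 2 = 2 * ρ * t.im := by
  have h1 : ‖t - (ρ : ℂ) * Complex.I‖ ^ 2 = ρ ^ 2 := by rw [ht]
  rw [← Complex.normSq_eq_norm_sq, Complex.normSq_apply] at h1
  rw [← Complex.normSq_eq_norm_sq, Complex.normSq_apply]
  simp only [Complex.sub_re, Complex.sub_im, Complex.im_ofReal_mul, Complex.re_ofReal_mul,
    Complex.I_im, Complex.I_re] at h1
  nlinarith

theorem arg_fact {t : ℂ} (ht : 0 < t.im) : 0 ≤ t.re * (1 - 2 / Real.pi * t.arg) ∧
    t.re * (1 - 2 / Real.pi * t.arg) ≤ |t.re| := by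
  have hπ := Real.pi_pos
  have h0 : 0 ≤ t.arg := Complex.arg_nonneg_iff.2 ht.le
  have h1 : t.arg ≤ Real.pi := Complex.arg_le_pi t
  have h2 : 2 / Real.pi * t.arg ≤ 2 := by
    rw [div_mul_eq_mul_div, div_le_iff₀ hπ]
    linarith
  have h3 : 0 ≤ 2 / Real.pi * t.arg := by positivity
  constructor
  · rcases le_or_gt 0 t.re with h | h
    · have h4 := Complex.abs_arg_le_pi_div_two_iff.2 h
      rw [abs_of_nonneg h0] at h4
      have h5 : 2 / Real.pi * t.arg ≤ 1 := by
        rw [div_mul_eq_mul_div, div_le_iff₀ hπ]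
        linarith
      exact mul_nonneg h (by linarith)
    · have h4 : ¬ |t.arg| ≤ Real.pi / 2 := fun h5 => by
        have := Complex.abs_arg_le_pi_div_two_iff.1 h5
        linarith
      rw [abs_of_nonneg h0, not_le] at h4
      have h5 : 1 ≤ 2 / Real.pi * t.arg := by
        rw [div_mul_eq_mul_div, le_div_iff₀ hπ]
        linarith
      exact mul_nonneg_of_nonpos_of_nonpos h.le (by linarith)
  · refine (le_abs_self _).trans ?_
    rw [abs_mul]
    have h4 : |1 - 2 / Real.pi * t.arg| ≤ 1 := by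
      rw [abs_le]
      constructor <;> linarith
    have h5 := abs_nonneg t.re
    nlinarith

/-- upper bound on the boundary circle -/
theorem cf_sph {ρ : ℝ} (hρ : 0 < ρ) {t : ℂ} (ht : ‖t - (ρ : ℂ) * Complex.I‖ = ρ) :
    (cf ρ t).re ≤ max t.re 0 := by
  have hπ := Real.pi_pos
  have hπ2 := pi_gt
  rcases eq_or_ne t 0 with h0 | h0
  · rw [h0, cf_zero]
    simp
  · have hn : 0 < ‖t‖ := norm_pos_iff.2 h0
    have hsq := tang_eq ht
    have him : 0 < t.im := by
      by_contra h
      push Not at h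
      have : 2 * ρ * t.im ≤ 0 := mul_nonpos_of_nonneg_of_nonpos (by positivity) h
      nlinarith
    obtain ⟨-, h2⟩ := arg_fact him
    rw [cf_re ρ hρ h0]
    set n : ℝ := ‖t‖ with hn'
    set sv : ℝ := n / (2 * ρ) with hsv
    have hsp : 0 < sv := by positivity
    have hy : t.im = n * sv := by
      rw [hsv]
      field_simp
      linarith
    have hnim : t.im ≤ n := (le_abs_self _).trans (Complex.abs_im_le_norm t)
    have hs1 : sv ≤ 1 := by
      rw [hy] at hnim
      by_contra h
      push Not at h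
      nlinarith
    have hx : t.re ^ 2 = n ^ 2 - t.im ^ 2 := by
      have h3 : n ^ 2 = t.re * t.re + t.im * t.im := by
        rw [hn', ← Complex.normSq_eq_norm_sq, Complex.normSq_apply]
      rw [h3]
      ring
    have hmain : -(1 / Real.pi * (t.im * Real.log sv)) - 1 / 4 * t.im ≤ |t.re| / 2 := by
      rcases le_or_gt (1 / 2) sv with h | h
      · have h3 : -Real.log sv ≤ Real.log 2 := by
          have := Real.log_le_log (by norm_num : (0 : ℝ) < 1 / 2) h
          rw [Real.log_div one_ne_zero (by norm_num), Real.log_one] at this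
          linarith
        have h4 := Real.log_two_lt_d9
        have h5 : -(1 / Real.pi * (t.im * Real.log sv)) ≤ 1 / 4 * t.im := by
          have h6 : -(1 / Real.pi * (t.im * Real.log sv)) = t.im * (-Real.log sv) / Real.pi := by ring
          rw [h6, div_le_iff₀ hπ]
          have h7 : -Real.log sv ≤ 0.7 := by linarith
          have h8 : t.im * -Real.log sv ≤ t.im * 0.7 := mul_le_mul_of_nonneg_left h7 him.le
          nlinarith
        have := abs_nonneg t.re
        linarith
      · have h3 : -Real.log sv ≤ 1 / sv - 1 := by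
          have := Real.log_le_sub_one_of_pos (show 0 < 1 / sv by positivity)
          rw [Real.log_div one_ne_zero hsp.ne', Real.log_one] at this
          linarith
        have h4 : t.im * (-Real.log sv) ≤ n := by
          rw [hy]
          have h5 : n * sv * (-Real.log sv) ≤ n * sv * (1 / sv - 1) :=
            mul_le_mul_of_nonneg_left h3 (by positivity)
          have h6 : n * sv * (1 / sv - 1) = n - n * sv := by
            field_simp
          have h7 : 0 < n * sv := by positivity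
          linarith
        have h5 : (0.86 * n) ≤ |t.re| := by
          rw [← Real.sqrt_sq_eq_abs]
          apply Real.le_sqrt_of_sq_le
          rw [hx, hy]
          have : (n * sv) ^ 2 ≤ (n * (1 / 2)) ^ 2 := pow_le_pow_left₀ (by positivity)
            (mul_le_mul_of_nonneg_left h.le hn.le) 2
          nlinarith
        have h6 : -(1 / Real.pi * (t.im * Real.log sv)) ≤ 0.43 * n := by
          have h7 : -(1 / Real.pi * (t.im * Real.log sv)) = t.im * (-Real.log sv) / Real.pi := by ring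
          rw [h7, div_le_iff₀ hπ]
          nlinarith
        linarith
    have hmax : 2 * max t.re 0 = t.re + |t.re| := by
      rcases le_total 0 t.re with h | h
      · rw [max_eq_left h, abs_of_nonneg h]
        ring
      · rw [max_eq_right h, abs_of_nonpos h]
        ring
    have e1 : 1 / 2 * (t.re + 1 / 2 * (t.re + 2 / Real.pi * (-(t.im * Real.log sv) -
        t.re * t.arg)) - 1 / 4 * t.im) = 1 / 2 * (t.re + 1 / 2 * (t.re *
        (1 - 2 / Real.pi * t.arg)) + (-(1 / Real.pi * (t.im * Real.log sv)) - 1 / 4 * t.im)) := by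
      field_simp
      ring
    rw [e1]
    linarith

/-- lower bound inside the disc -/
theorem cf_low {ρ : ℝ} (hρ : 0 < ρ) {t : ℂ} (ht : 0 < t.im) :
    1 / 2 * (t.re + 1 / Real.pi * (t.im * Real.log (2 * ρ / ‖t‖)) - t.im / 4) ≤ (cf ρ t).re := by
  have h0 : t ≠ 0 := by
    intro h
    rw [h] at ht
    simp at ht
  have hn : 0 < ‖t‖ := norm_pos_iff.2 h0
  obtain ⟨h1, -⟩ := arg_fact ht
  rw [cf_re ρ hρ h0]
  have h2 : Real.log (2 * ρ / ‖t‖) = -Real.log (‖t‖ / (2 * ρ)) := by
    rw [← Real.log_inv, inv_div]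
  rw [h2]
  have e1 : 1 / 2 * (t.re + 1 / 2 * (t.re + 2 / Real.pi * (-(t.im * Real.log (‖t‖ / (2 * ρ))) -
      t.re * t.arg)) - 1 / 4 * t.im) = 1 / 2 * (t.re + 1 / 2 * (t.re *
      (1 - 2 / Real.pi * t.arg)) + (1 / Real.pi * (t.im * -Real.log (‖t‖ / (2 * ρ)))
      - t.im / 4)) := by
    have hπ := Real.pi_pos.ne'
    field_simp
    ring
  rw [e1]
  linarith

theorem cf_diff {ρ : ℝ} (hρ : 0 < ρ) {t : ℂ} (ht : 0 < t.im) : DifferentiableAt ℂ (cf ρ) t := by
  have h1 : t / ((2 * ρ : ℝ) : ℂ) ∈ Complex.slitPlane := by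
    right
    rw [Complex.div_ofReal_im]
    have : 0 < t.im / (2 * ρ) := by positivity
    exact this.ne'
  have h2 : DifferentiableAt ℂ (fun t : ℂ => Complex.log (t / ((2 * ρ : ℝ) : ℂ))) t :=
    DifferentiableAt.clog (by fun_prop) h1
  unfold cf
  fun_prop

theorem cf_cont0 {ρ : ℝ} (hρ : 0 < ρ) : ContinuousAt (cf ρ) 0 := by
  have h2ρ : (0 : ℝ) < 2 * ρ := by positivity
  have key : Tendsto (fun t : ℂ => t * Complex.log (t / ((2 * ρ : ℝ) : ℂ))) (𝓝 0) (𝓝 0) := by
    rw [tendsto_zero_iff_norm_tendsto_zero]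
    have h1 : Continuous (fun t : ℂ => 2 * ρ * |(‖t‖ / (2 * ρ)) * Real.log (‖t‖ / (2 * ρ))| +
        Real.pi * ‖t‖) := by
      have h2 : Continuous (fun t : ℂ => (‖t‖ / (2 * ρ)) * Real.log (‖t‖ / (2 * ρ))) :=
        Real.continuous_mul_log.comp (continuous_norm.div_const _)
      exact (continuous_const.mul h2.abs).add (continuous_const.mul continuous_norm)
    have h2 := h1.tendsto 0
    simp only [norm_zero, zero_div, zero_mul, abs_zero, mul_zero, add_zero] at h2
    refine squeeze_zero (fun t => norm_nonneg _) (fun t => ?_) h2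
    rw [norm_mul]
    have h3 : ‖Complex.log (t / ((2 * ρ : ℝ) : ℂ))‖ ≤ |Real.log (‖t‖ / (2 * ρ))| + Real.pi := by
      refine (Complex.norm_le_abs_re_add_abs_im _).trans (add_le_add ?_ ?_)
      · rw [Complex.log_re, norm_div, Complex.norm_real, Real.norm_of_nonneg h2ρ.le]
      · rw [Complex.log_im]
        exact Complex.abs_arg_le_pi _
    have h4 := mul_le_mul_of_nonneg_left h3 (norm_nonneg t)
    refine h4.trans (le_of_eq ?_)
    rw [abs_mul, abs_of_nonneg (show 0 ≤ ‖t‖ / (2 * ρ) by positivity)]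
    field_simp
  have h3 : Tendsto (cf ρ) (𝓝 0) (𝓝 (1 / 2 * (0 + 1 / 2 * (0 + (2 / Real.pi : ℝ) * (Complex.I * 0)) +
      1 / 4 * (Complex.I * 0)))) := by
    unfold cf
    refine Tendsto.const_mul _ ((tendsto_id.add (Tendsto.const_mul _ (tendsto_id.add
      (Tendsto.const_mul _ (Tendsto.const_mul _ key))))).add (Tendsto.const_mul _
      (Tendsto.const_mul _ tendsto_id)))
  have h4 : cf ρ 0 = 1 / 2 * (0 + 1 / 2 * (0 + (2 / Real.pi : ℝ) * (Complex.I * 0)) +
      1 / 4 * (Complex.I * 0)) := by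
    rw [cf_zero]
    simp
  unfold ContinuousAt
  rw [h4]
  exact h3

/-- **comparison** on discs tangent to the real axis -/
theorem cmp {φ : ℂ → ℂ} {ρ c C : ℝ} (hρ : 0 < ρ) (hc : 0 ≤ c)
    (hφ : DiffContOnCl ℂ φ (ball ((ρ : ℂ) * Complex.I) ρ))
    (hb : ∀ t ∈ closedBall ((ρ : ℂ) * Complex.I) ρ, ‖φ t‖ ≤ C * Real.exp (-(c * max t.re 0)))
    {t : ℂ} (ht : t ∈ closedBall ((ρ : ℂ) * Complex.I) ρ) :
    ‖φ t‖ ≤ C * Real.exp (-(c * (cf ρ t).re)) := by
  have hC : 0 ≤ C := by
    have h1 := (norm_nonneg _).trans (hb t ht)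
    exact nonneg_of_mul_nonneg_left h1 (Real.exp_pos _)
  have hpos : ∀ t ∈ closedBall ((ρ : ℂ) * Complex.I) ρ, t ≠ 0 → 0 < t.im := by
    intro t ht h0
    have h1 := tang (mem_closedBall_iff_norm.1 ht)
    have h2 : 0 < ‖t‖ := norm_pos_iff.2 h0
    by_contra h
    push Not at h
    have : 2 * ρ * t.im ≤ 0 := mul_nonpos_of_nonneg_of_nonpos (by positivity) h
    nlinarith
  have hcf : DiffContOnCl ℂ (cf ρ) (ball ((ρ : ℂ) * Complex.I) ρ) := by
    constructor
    · intro t ht
      refine (cf_diff hρ (hpos t (ball_subset_closedBall ht) ?_)).differentiableWithinAt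
      rintro rfl
      rw [mem_ball_iff_norm, zero_sub, norm_neg, norm_mul, Complex.norm_I, mul_one,
        Complex.norm_real, Real.norm_of_nonneg hρ.le] at ht
      exact lt_irrefl _ ht
    · rw [closure_ball _ hρ.ne']
      intro t ht
      rcases eq_or_ne t 0 with h0 | h0
      · rw [h0]
        exact (cf_cont0 hρ).continuousWithinAt
      · exact (cf_diff hρ (hpos t ht h0)).continuousAt.continuousWithinAt
  have hF : DiffContOnCl ℂ (fun t => φ t * Complex.exp (c * cf ρ t))
      (ball ((ρ : ℂ) * Complex.I) ρ) := by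
    constructor
    · exact hφ.1.mul ((hcf.1.const_mul _).cexp)
    · exact hφ.2.mul ((continuousOn_const.mul hcf.2).cexp)
  have hcl : closure (ball ((ρ : ℂ) * Complex.I) ρ) = closedBall ((ρ : ℂ) * Complex.I) ρ :=
    closure_ball _ hρ.ne'
  have h1 := Complex.norm_le_of_forall_mem_frontier_norm_le Metric.isBounded_ball hF (C := C)
    (fun t ht => by
      rw [frontier_ball _ hρ.ne', mem_sphere_iff_norm] at ht
      have h2 := hb t (mem_closedBall_iff_norm.2 ht.le)
      have h3 := cf_sph hρ ht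
      rw [norm_mul, Complex.norm_exp, Complex.re_ofReal_mul]
      calc ‖φ t‖ * Real.exp (c * (cf ρ t).re) ≤
          (C * Real.exp (-(c * max t.re 0))) * Real.exp (c * max t.re 0) := by
            apply mul_le_mul h2 _ (Real.exp_pos _).le (by positivity)
            exact Real.exp_le_exp.2 (mul_le_mul_of_nonneg_left h3 hc)
        _ = C := by
            rw [mul_assoc, ← Real.exp_add, neg_add_cancel, Real.exp_zero, mul_one])
    (z := t) (by rw [hcl]; exact ht)
  rw [norm_mul, Complex.norm_exp, Complex.re_ofReal_mul] at h1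
  rw [Real.exp_neg, ← div_eq_mul_inv, le_div_iff₀ (Real.exp_pos _)]
  exact h1

end Pool.Agent.K9h84.CI
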