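import Pool.Agent.K9h84.CI.Form

/-!
# Neighbourhoods of the crossing points

A connected piece of curve on which both forms are relatively small stays close to one crossing
point, so that one coordinate dominates throughout.
-/

set_option autoImplicit false

open Set Filter Topology

namespace Pool.Agent.K9h84.CI

variable {s : ℕ}

/-- if `q` is a unit vector whose `j`-th coordinate has modulus one and `x` is nearly parallel
to `q` then the `j`-th coordinate of `x` is large -/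
theorem coord_large {q x : VV s} {j : Fin (s + 3)} (hq : ‖q‖ = 1) (hj : ‖q j‖ = 1) {e : ℝ}
    (h : ‖cr q x‖ ≤ e * ‖x‖) : (1 - e) * ‖x‖ ≤ ‖x j‖ := by
  obtain ⟨k, hk⟩ := exists_max x
  have h1 := (cross_comp q x j k).trans h
  have h2 : ‖q j * x k‖ ≤ ‖q j * x k - q k * x j‖ + ‖q k * x j‖ := by
    have := norm_add_le (q j * x k - q k * x j) (q k * x j)
    rwa [sub_add_cancel] at this
  rw [norm_mul, hj, one_mul, hk, norm_mul] at h2
  have h3 : ‖q k‖ ≤ 1 := by rw [← hq]; exact le3 q k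
  have h4 : ‖q k‖ * ‖x j‖ ≤ 1 * ‖x j‖ := mul_le_mul_of_nonneg_right h3 (norm_nonneg _)
  linarith

theorem cr_cont : Continuous (fun p : VV s × VV s => cr p.1 p.2) := by
  refine continuous_pi fun i => continuous_pi fun j => ?_
  exact (((continuous_apply i).comp continuous_fst).mul ((continuous_apply j).comp continuous_snd)).sub
      (((continuous_apply j).comp continuous_fst).mul ((continuous_apply i).comp continuous_snd))

theorem cr_cont_right (q : VV s) : Continuous (fun x => cr q x) :=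
  cr_cont.comp (continuous_const.prodMk continuous_id)

namespace Pair

variable (D : Pair s)

/-- unit vectors on both curves -/
def Sg : Set (VV s) := {x | ‖x‖ = 1 ∧ D.p x = 0 ∧ D.q x = 0 ∧ D.on x}

theorem isCompact_Sg : IsCompact D.Sg := by
  have : D.Sg = Metric.sphere (0 : VV s) 1 ∩ ({x | D.p x = 0} ∩ ({x | D.q x = 0} ∩ {x | D.on x})) := by
    ext x
    simp [Sg]
  rw [this]
  exact isCompact_sph.inter_right ((isClosed_eq D.p_cont continuous_const).inter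
    ((isClosed_eq D.q_cont continuous_const).inter D.isClosed_on))

theorem Sg_N_parallel {x : VV s} (hx : x ∈ D.Sg) : cr x (D.N x) = 0 := by
  have eP := euler D.hP x
  have eQ := euler D.hQ x
  have h1 : MvPolynomial.eval x D.P = 0 := hx.2.1
  have h2 : MvPolynomial.eval x D.Q = 0 := hx.2.2.1
  refine D.par_N ?_ ?_ fun i => ?_
  · rw [dt_comm, eP, h1, mul_zero]
  · rw [dt_comm, eQ, h2, mul_zero]
  · rw [dt_comm]
    exact D.euler_on hx.2.2.2 i

/-- crossing points are isolated, uniformly -/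
theorem sep : ∃ e : ℝ, 0 < e ∧ e ≤ 1 / 2 ∧ ∀ q ∈ D.Sg, ∀ x ∈ D.Sg, ‖cr q x‖ ≤ e → cr q x = 0 := by
  obtain ⟨c, hc, hN⟩ := D.N_lower
  obtain ⟨δ, hδ, hcl⟩ := D.NN_close (c / 2) (by positivity)
  refine ⟨min (δ / 2) (1 / 2), by positivity, min_le_right _ _, fun q hq x hx hqx => ?_⟩
  obtain ⟨j, hj⟩ := exists_max q
  rw [hq.1] at hj
  have hq0 : q ≠ 0 := by
    intro h
    have := hq.1
    rw [h, norm_zero] at this
    exact zero_ne_one this
  have hNq : c ≤ ‖D.N q‖ := by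
    rcases hN q hq0 hq.2.2.2 with h | h
    · rwa [hq.1, one_pow, mul_one] at h
    · rw [hq.1, one_pow, mul_one, hq.2.1, norm_zero, zero_mul] at h
      linarith
  have hqx' : ‖cr q x‖ ≤ (1 / 2) * ‖x‖ := by
    rw [hx.1, mul_one]
    exact hqx.trans (min_le_right _ _)
  have hxj : 1 / 2 ≤ ‖x j‖ := by
    have := coord_large hq.1 hj hqx'
    rw [hx.1] at this
    linarith
  have hxj0 : x j ≠ 0 := by
    intro h
    rw [h, norm_zero] at hxj
    linarith
  have hqj0 : q j ≠ 0 := by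
    intro h
    rw [h, norm_zero] at hj
    exact zero_ne_one hj
  set y : VV s := (q j / x j) • x with hy
  have hyj : (y - q) j = 0 := by
    rw [Pi.sub_apply, hy, Pi.smul_apply, smul_eq_mul, div_mul_cancel₀ _ hxj0, sub_self]
  have hyq : ‖y - q‖ ≤ δ * ‖q‖ := by
    rw [hq.1, mul_one, pi_norm_le_iff_of_nonneg hδ.le]
    intro k
    have h1 : (y - q) k = (q j * x k - q k * x j) / x j := by
      rw [Pi.sub_apply, hy, Pi.smul_apply, smul_eq_mul]
      field_simp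
    rw [h1, norm_div, div_le_iff₀ (norm_pos_iff.2 hxj0)]
    have h2 := (cross_comp q x j k).trans hqx
    have h3 := h2.trans (min_le_left _ _)
    nlinarith
  have hNN : ‖D.NN q y - D.N q‖ ≤ c / 2 := by
    have := hcl q y hyq hq0
    rwa [hq.1, one_pow, mul_one] at this
  have hpy : D.p y = 0 := by rw [hy, D.p_smul, hx.2.1, mul_zero]
  have hqy : D.q y = 0 := by rw [hy, D.q_smul, hx.2.2.1, mul_zero]
  have hony : D.on y := by rw [hy]; exact D.on_smul hx.2.2.2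
  have hpar : cr (y - q) (D.NN q y) = 0 :=
    D.par_NN hq.2.2.2 hony (hpy.trans hq.2.1.symm) (hqy.trans hq.2.2.1.symm)
  have hNj : c ≤ ‖D.N q j‖ := by
    have h1 := parallel (a := D.N q) (b := q) (by
      rw [cr_comm, D.Sg_N_parallel hq, neg_zero]) hqj0
    have h2 := congrArg norm h1
    rw [norm_smul, hq.1, mul_one, norm_div, hj, div_one] at h2
    rwa [h2] at hNq
  have hNNj : D.NN q y j ≠ 0 := by
    intro h
    have h1 : ‖(D.NN q y - D.N q) j‖ ≤ c / 2 := (le3 _ j).trans hNN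
    rw [Pi.sub_apply, h, zero_sub, norm_neg] at h1
    linarith
  have h5 := parallel hpar hNNj
  rw [hyj, zero_div, zero_smul] at h5
  have hyq2 : y = q := sub_eq_zero.1 h5
  have h6 : x = (x j / q j) • q := by
    rw [← hyq2]
    rw [hy, smul_smul, Pi.smul_apply, smul_eq_mul]
    have : x j / (q j / x j * x j) * (q j / x j) = 1 := by
      field_simp
    rw [this, one_smul]
  rw [h6, cr_smul, cr_self, smul_zero]

/-- vectors on which both forms are small are close to crossing points -/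
theorem near (e : ℝ) (_he : 0 < e) : ∃ e1 : ℝ, 0 < e1 ∧ ∀ x : VV s, ‖x‖ = 1 → D.on x → ‖D.p x‖ ≤ e1 →
    ‖D.q x‖ ≤ e1 → ∃ q ∈ D.Sg, ‖x - q‖ < e := by
  set K : Set (VV s) := (Metric.sphere (0 : VV s) 1 ∩ {x | D.on x}) ∩
    ⋂ q ∈ D.Sg, {x | e ≤ ‖x - q‖} with hK
  have hKc : IsCompact K := by
    refine D.isCompact_sphon.inter_right ?_
    refine isClosed_biInter fun q _ => ?_
    exact isClosed_le continuous_const (by fun_prop)
  have hcont : Continuous (fun x => max ‖D.p x‖ ‖D.q x‖) := D.p_cont.norm.max D.q_cont.norm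
  by_cases hne : K.Nonempty
  · obtain ⟨x0, hx0, hmin⟩ := hKc.exists_isMinOn hne hcont.continuousOn
    have hpos : 0 < max ‖D.p x0‖ ‖D.q x0‖ := by
      by_contra hcon
      have h1 : ‖D.p x0‖ ≤ 0 := (le_max_left _ _).trans (not_lt.1 hcon)
      have h2 : ‖D.q x0‖ ≤ 0 := (le_max_right _ _).trans (not_lt.1 hcon)
      have h3 : x0 ∈ D.Sg := ⟨mem_sphere_zero_iff_norm.1 hx0.1.1, norm_le_zero_iff.1 h1,
        norm_le_zero_iff.1 h2, hx0.1.2⟩
      have h4 := mem_iInter₂.1 hx0.2 x0 h3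
      rw [mem_ofPred_eq, sub_self, norm_zero] at h4
      linarith
    refine ⟨max ‖D.p x0‖ ‖D.q x0‖ / 2, by positivity, fun x hx hon h1 h2 => ?_⟩
    by_contra hcon
    push Not at hcon
    have hxK : x ∈ K := ⟨⟨mem_sphere_zero_iff_norm.2 hx, hon⟩, mem_iInter₂.2 fun q hq => hcon q hq⟩
    have h3 := hmin hxK
    have h4 : max ‖D.p x‖ ‖D.q x‖ ≤ max ‖D.p x0‖ ‖D.q x0‖ / 2 := max_le h1 h2
    have h5 : max ‖D.p x0‖ ‖D.q x0‖ ≤ max ‖D.p x‖ ‖D.q x‖ := h3
    linarith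
  · refine ⟨1, one_pos, fun x hx hon _ _ => ?_⟩
    by_contra hcon
    push Not at hcon
    exact hne ⟨x, ⟨mem_sphere_zero_iff_norm.2 hx, hon⟩, mem_iInter₂.2 fun q hq => hcon q hq⟩

/-- the gap property -/
theorem gap {e : ℝ} (he : 0 < e) (hsep : ∀ q ∈ D.Sg, ∀ x ∈ D.Sg, ‖cr q x‖ ≤ e → cr q x = 0) :
    ∃ e2 : ℝ, 0 < e2 ∧ ∀ q ∈ D.Sg, ∀ x : VV s, ‖x‖ = 1 → D.on x → ‖D.p x‖ ≤ e2 → ‖D.q x‖ ≤ e2 →
      ‖cr q x‖ ≤ e → ‖cr q x‖ ≤ e / 2 := by
  set K : Set (VV s × VV s) := (D.Sg ×ˢ (Metric.sphere (0 : VV s) 1 ∩ {x | D.on x})) ∩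
    {p | e / 2 ≤ ‖cr p.1 p.2‖ ∧ ‖cr p.1 p.2‖ ≤ e} with hK
  have hKc : IsCompact K := by
    refine (D.isCompact_Sg.prod D.isCompact_sphon).inter_right ?_
    exact (isClosed_le continuous_const cr_cont.norm).inter (isClosed_le cr_cont.norm continuous_const)
  have hcont : Continuous (fun p : VV s × VV s => max ‖D.p p.2‖ ‖D.q p.2‖) :=
    ((D.p_cont.comp continuous_snd).norm).max ((D.q_cont.comp continuous_snd).norm)
  by_cases hne : K.Nonempty
  · obtain ⟨x0, hx0, hmin⟩ := hKc.exists_isMinOn hne hcont.continuousOn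
    have hpos : 0 < max ‖D.p x0.2‖ ‖D.q x0.2‖ := by
      by_contra hcon
      have h1 : ‖D.p x0.2‖ ≤ 0 := (le_max_left _ _).trans (not_lt.1 hcon)
      have h2 : ‖D.q x0.2‖ ≤ 0 := (le_max_right _ _).trans (not_lt.1 hcon)
      have h3 : x0.2 ∈ D.Sg := ⟨mem_sphere_zero_iff_norm.1 hx0.1.2.1, norm_le_zero_iff.1 h1,
        norm_le_zero_iff.1 h2, hx0.1.2.2⟩
      have h4 := hsep x0.1 hx0.1.1 x0.2 h3 hx0.2.2
      have h5 := hx0.2.1
      rw [h4, norm_zero] at h5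
      linarith
    refine ⟨max ‖D.p x0.2‖ ‖D.q x0.2‖ / 2, by positivity, fun q hq x hx hon h1 h2 h6 => ?_⟩
    by_contra hcon
    have hxK : (q, x) ∈ K := ⟨⟨hq, mem_sphere_zero_iff_norm.2 hx, hon⟩, (not_le.1 hcon).le, h6⟩
    have h3 := isMinOn_iff.1 hmin (q, x) hxK
    dsimp only at h3
    have h4 : max ‖D.p x‖ ‖D.q x‖ ≤ max ‖D.p x0.2‖ ‖D.q x0.2‖ / 2 := max_le h1 h2
    linarith
  · refine ⟨1, one_pos, fun q hq x hx hon _ _ h6 => ?_⟩
    by_contra hcon
    exact hne ⟨(q, x), ⟨hq, mem_sphere_zero_iff_norm.2 hx, hon⟩, (not_le.1 hcon).le, h6⟩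

/-- **cusp lemma**: on a connected set where both forms are relatively small one coordinate
dominates -/
theorem cusp : ∃ e : ℝ, 0 < e ∧ ∀ (S : Set ℂ) (v : ℂ → VV s), IsPreconnected S → ContinuousOn v S →
    (∀ z ∈ S, v z ≠ 0 ∧ ‖D.p (v z)‖ ≤ e * ‖v z‖ ^ D.a ∧ ‖D.q (v z)‖ ≤ e * ‖v z‖ ^ D.b ∧
      D.on (v z)) →
    ∃ j : Fin (s + 3), ∀ z ∈ S, ‖v z‖ ≤ 2 * ‖v z j‖ := by
  obtain ⟨e0, he0, he0', hsep⟩ := D.sep
  obtain ⟨e1, he1, hnear⟩ := D.near (e0 / 8) (by positivity)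
  obtain ⟨e2, he2, hgap⟩ := D.gap he0 hsep
  refine ⟨min e1 e2, by positivity, fun S v hS hv hsm => ?_⟩
  rcases S.eq_empty_or_nonempty with hSe | ⟨z0, hz0⟩
  · exact ⟨0, fun z hz => by rw [hSe] at hz; exact hz.elim⟩
  have hun : ∀ z ∈ S, ∃ u : VV s, ‖u‖ = 1 ∧ v z = ((‖v z‖ : ℝ) : ℂ) • u ∧ ‖D.p u‖ ≤ min e1 e2 ∧
      ‖D.q u‖ ≤ min e1 e2 ∧ D.on u := by
    intro z hz
    obtain ⟨h1, h2, h3, hon⟩ := hsm z hz
    obtain ⟨u, hu, hxu, h0⟩ := exists_unit h1
    have hn : 0 < ‖v z‖ := norm_pos_iff.2 h1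
    refine ⟨u, hu, hxu, ?_, ?_, D.on_of_smul h0 (by rwa [← hxu])⟩
    · have e3 : ‖D.p (v z)‖ = ‖v z‖ ^ D.a * ‖D.p u‖ := by
        conv_lhs => rw [hxu]
        rw [D.p_smul, norm_mul, norm_pow, Complex.norm_real, norm_norm]
      rw [e3, mul_comm] at h2
      exact le_of_mul_le_mul_right h2 (by positivity)
    · have e3 : ‖D.q (v z)‖ = ‖v z‖ ^ D.b * ‖D.q u‖ := by
        conv_lhs => rw [hxu]
        rw [D.q_smul, norm_mul, norm_pow, Complex.norm_real, norm_norm]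
      rw [e3, mul_comm] at h3
      exact le_of_mul_le_mul_right h3 (by positivity)
  obtain ⟨u0, hu0, hvu0, hp0, hq0, hon0⟩ := hun z0 hz0
  obtain ⟨q, hq, hqu⟩ := hnear u0 hu0 hon0 (hp0.trans (min_le_left _ _)) (hq0.trans (min_le_left _ _))
  have hcrv : ∀ z ∈ S, ∀ u : VV s, v z = ((‖v z‖ : ℝ) : ℂ) • u → ‖cr q (v z)‖ / ‖v z‖ = ‖cr q u‖ := by
    intro z hz u hu
    have hn : 0 < ‖v z‖ := norm_pos_iff.2 (hsm z hz).1
    have : ‖cr q (v z)‖ = ‖v z‖ * ‖cr q u‖ := by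
      conv_lhs => rw [hu]
      rw [cr_smul, norm_smul, Complex.norm_real, norm_norm]
    rw [this, mul_div_cancel_left₀ _ hn.ne']
  have hτc : ContinuousOn (fun z => ‖cr q (v z)‖ / ‖v z‖) S := by
    refine ContinuousOn.div ?_ hv.norm fun z hz => (norm_pos_iff.2 (hsm z hz).1).ne'
    exact ((cr_cont_right q).comp_continuousOn hv).norm
  have hτ0 : ‖cr q (v z0)‖ / ‖v z0‖ ≤ e0 / 2 := by
    rw [hcrv z0 hz0 u0 hvu0]
    have h1 : cr q u0 = cr q (u0 - q) := by rw [cr_sub, cr_self, sub_zero]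
    rw [h1]
    have h2 := norm_cr_le q (u0 - q)
    rw [hq.1] at h2
    linarith
  have hgap' : ∀ z ∈ S, ‖cr q (v z)‖ / ‖v z‖ ≤ e0 → ‖cr q (v z)‖ / ‖v z‖ ≤ e0 / 2 := by
    intro z hz h
    obtain ⟨u, hu, hvu, hp, hq', hon⟩ := hun z hz
    rw [hcrv z hz u hvu] at h ⊢
    exact hgap q hq u hu hon (hp.trans (min_le_right _ _)) (hq'.trans (min_le_right _ _)) h
  have hτ : ∀ z ∈ S, ‖cr q (v z)‖ / ‖v z‖ ≤ e0 / 2 := by
    intro z hz
    by_contra hcon
    have hcon2 : e0 < ‖cr q (v z)‖ / ‖v z‖ := by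
      by_contra h
      exact hcon (hgap' z hz (not_lt.1 h))
    have hiv := hS.intermediate_value hz0 hz hτc
    obtain ⟨w, hw, hweq⟩ := hiv (show (3 / 4) * e0 ∈ Icc _ _ from ⟨by linarith, by linarith⟩)
    have h2 := hgap' w hw (by
      have : ‖cr q (v w)‖ / ‖v w‖ = 3 / 4 * e0 := hweq
      rw [this]; linarith)
    have : ‖cr q (v w)‖ / ‖v w‖ = 3 / 4 * e0 := hweq
    rw [this] at h2
    linarith
  obtain ⟨j, hj⟩ := exists_max q
  rw [hq.1] at hj
  refine ⟨j, fun z hz => ?_⟩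
  have hn : 0 < ‖v z‖ := norm_pos_iff.2 (hsm z hz).1
  have h1 := hτ z hz
  rw [div_le_iff₀ hn] at h1
  have h2 := coord_large hq.1 hj h1
  nlinarith

end Pair

end Pool.Agent.K9h84.CI
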