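import Pool.Agent.K9h84.CI.Ldx

/-!
# First contact at deep points is impossible, for curves over a half-plane
-/

set_option autoImplicit false

open Set Filter Topology Metric

namespace Pool.Agent.K9h84.CI

variable {s : ℕ}

theorem sg_sq {Y : ℝ} (hY : 1 ≤ Y) : (Y ^ (3 / 4 : ℝ)) ^ 2 = Y * Real.sqrt Y := by
  have hY0 : 0 < Y := by linarith
  rw [Real.sqrt_eq_rpow, ← Real.rpow_natCast, ← Real.rpow_mul hY0.le]
  nth_rw 2 [← Real.rpow_one Y]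
  rw [← Real.rpow_add hY0]
  norm_num

theorem sg_ge {Y : ℝ} (hY : 1 ≤ Y) : Real.sqrt Y ≤ Y ^ (3 / 4 : ℝ) := by
  rw [Real.sqrt_eq_rpow]
  exact Real.rpow_le_rpow_of_exponent_le hY (by norm_num)

theorem sg_facts {A R : ℝ} (hA : 0 ≤ A) (hR : 0 ≤ R) {Y P : ℝ} (hP : 1 ≤ P) (hPY : P ≤ Y)
    (hN : (32 * (R + 1) + 2 * A * (R + 1)) ^ 2 ≤ P) :
    32 * (R + 1) ≤ Y ^ (3 / 4 : ℝ) ∧ A * (1 + P) * (R + 1) ≤ (Y ^ (3 / 4 : ℝ)) ^ 2 := by
  have hY : 1 ≤ Y := hP.trans hPY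
  have h1 : 32 * (R + 1) + 2 * A * (R + 1) ≤ Real.sqrt Y := by
    apply Real.le_sqrt_of_sq_le
    exact hN.trans hPY
  have hAR : 0 ≤ 2 * A * (R + 1) := by positivity
  constructor
  · have := sg_ge hY
    linarith
  · rw [sg_sq hY]
    have h2 : 2 * A * (R + 1) ≤ Real.sqrt Y := by linarith
    calc A * (1 + P) * (R + 1) ≤ A * (2 * Y) * (R + 1) := by
          have : 1 + P ≤ 2 * Y := by linarith
          gcongr
      _ = Y * (2 * A * (R + 1)) := by ring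
      _ ≤ Y * Real.sqrt Y := by gcongr

namespace Pair

variable (D : Pair s)

/-- the quotient `l` with `w - v = l • NN`, where `w` is only defined on an open set -/
theorem lam_on {B : ℝ} (hB : 0 ≤ B) : ∃ δ c C : ℝ, 0 < δ ∧ δ ≤ 1 / 4 ∧ 0 < c ∧ 0 < C ∧
    ∀ (β : ℂ) (v w : ℂ → VV s), D.Cv B β v → ∀ O : Set ℂ, IsOpen O → DifferentiableOn ℂ w O →
    (∀ z ∈ O, D.on (w z)) → (∀ z ∈ O, D.p (w z) = 1) →
    (∀ z ∈ O, D.q (w z) = Complex.exp (z + β)) →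
    (∀ z ∈ O, ‖w z - v z‖ < δ * ‖v z‖) → ∃ l : ℂ → ℂ, DifferentiableOn ℂ l O ∧
    ∀ z ∈ O, c * ‖w z - v z‖ ≤ ‖l z‖ * ‖v z‖ ^ (D.k + 1) ∧
      ‖l z‖ * ‖v z‖ ^ (D.k + 1) ≤ C * ‖w z - v z‖ := by
  obtain ⟨c0, hc0, hN⟩ := D.N_cv hB
  obtain ⟨δ0, hδ0, hcl⟩ := D.NN_close (c0 / 2) (by positivity)
  obtain ⟨C0, hC0, hup⟩ := D.NN_upper
  refine ⟨min δ0 (1 / 4), C0⁻¹, 2 / c0, by positivity, min_le_right _ _, by positivity,
    by positivity, ?_⟩
  intro β v w hv O hO hwd hwon hwp hwq hvw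
  have hvw0 : ∀ z ∈ O, ‖w z - v z‖ ≤ δ0 * ‖v z‖ := fun z hz =>
    (hvw z hz).le.trans (mul_le_mul_of_nonneg_right (min_le_left _ _) (norm_nonneg _))
  have hvw1 : ∀ z ∈ O, ‖w z - v z‖ ≤ ‖v z‖ := fun z hz => by
    have h1 := (hvw z hz).le.trans (mul_le_mul_of_nonneg_right (min_le_right _ _) (norm_nonneg _))
    have := norm_nonneg (v z)
    linarith
  have hlow : ∀ z ∈ O, c0 / 2 * ‖v z‖ ^ (D.k + 1) ≤ ‖D.NN (v z) (w z)‖ := by
    intro z hz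
    have h1 := hcl (v z) (w z) (hvw0 z hz) (hv.ne z)
    have h2 := hN β v hv z
    have h3 := norm_sub_norm_le (D.N (v z)) (D.N (v z) - D.NN (v z) (w z))
    rw [sub_sub_cancel, norm_sub_rev (D.N (v z))] at h3
    linarith
  have hne : ∀ z ∈ O, D.NN (v z) (w z) ≠ 0 := by
    intro z hz h
    have h1 := hlow z hz
    rw [h, norm_zero] at h1
    have h2 := hv.pos z
    have : 0 < c0 / 2 * ‖v z‖ ^ (D.k + 1) := by positivity
    linarith
  have hpar : ∀ z ∈ O, cr (w z - v z) (D.NN (v z) (w z)) = 0 := by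
    intro z hz
    exact D.par_NN (hv.on z) (hwon z hz) ((hwp z hz).trans (hv.hp z).symm)
      ((hwq z hz).trans (hv.hq z).symm)
  have hNd : DifferentiableOn ℂ (fun z => D.NN (v z) (w z)) O :=
    D.NN_dif.comp_differentiableOn (hv.dif.differentiableOn.prodMk hwd)
  obtain ⟨l, hl, hleq⟩ := exists_ratio hO (hwd.sub hv.dif.differentiableOn) hNd hne hpar
  refine ⟨l, hl, fun z hz => ?_⟩
  have h1 : ‖w z - v z‖ = ‖l z‖ * ‖D.NN (v z) (w z)‖ := by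
    rw [← norm_smul, ← hleq z hz]
    rfl
  have h2 := hlow z hz
  have h3 := hup (v z) (w z) (hvw1 z hz) (hv.ne z)
  constructor
  · rw [h1, inv_mul_le_iff₀ hC0]
    have := mul_le_mul_of_nonneg_left h3 (norm_nonneg (l z))
    linarith
  · rw [h1]
    have := mul_le_mul_of_nonneg_left h2 (norm_nonneg (l z))
    rw [div_mul_eq_mul_div, le_div_iff₀ hc0]
    linarith

end Pair

end Pool.Agent.K9h84.CI
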