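import Pool.Agent.K9h84.CI.Dld

/-!
# First contact at deep points is impossible, over discs
-/

set_option autoImplicit false

open Set Filter Topology Metric

namespace Pool.Agent.K9h84.CI

variable {s : ℕ}

namespace Pair

variable (D : Pair s)

/-- **deep points**: closeness persists on a disc of prescribed radius -/
theorem deep_closeD (hk : 1 ≤ D.k) {B δ K : ℝ} (hB : 0 ≤ B) (hδ : 0 < δ) (hδ4 : δ ≤ 1 / 4)
    (hK : 0 < K) {t : ℝ} (_ht : 0 < t) : ∃ K0 : ℝ, 0 < K0 ∧ ∀ (v w : ℂ → VV s) (Y : ℝ),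
    D.Cv B 0 v → D.Dw B Y w → ‖v 0‖ ≤ K → ∀ p : ℂ, K0 < ‖p‖ → ‖p‖ + Y ^ (3 / 4 : ℝ) ≤ Y →
    (K0 < ‖v p‖ ∨ K0 * Real.exp (p.re / D.b) < ‖v p‖) →
    (∀ z, ‖z‖ ≤ ‖p‖ → ‖w z - v z‖ ≤ δ * ‖v z‖) → ‖w p - v p‖ = δ * ‖v p‖ →
    (∃ j : Fin (s + 3), ∀ z, ‖z‖ ≤ t → ‖v (p + z)‖ ≤ 2 * ‖v (p + z) j‖) ∧
    ∀ z, ‖z‖ ≤ t → ‖w (p + z) - v (p + z)‖ < 2 * δ * ‖v (p + z)‖ := by
  obtain ⟨C0, hC0, hld⟩ := D.ld hB
  obtain ⟨c1, hc1, hlow⟩ := D.cv_low
  obtain ⟨Cq, hCq, hqle⟩ := D.q_le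
  obtain ⟨Cx, A, hCx, hA, hldx⟩ := D.ldxD hB hK
  set C : ℝ := C0 + Cx with hCdef
  have hC : 0 < C := by positivity
  by_contra hcon
  push Not at hcon
  have h1 : ∀ n : ℕ, ∃ (v w : ℂ → VV s) (Y : ℝ) (p : ℂ), D.Cv B 0 v ∧ D.Dw B Y w ∧ ‖v 0‖ ≤ K ∧
      ((n : ℝ) + 1) < ‖p‖ ∧ ‖p‖ + Y ^ (3 / 4 : ℝ) ≤ Y ∧
      (((n : ℝ) + 1) < ‖v p‖ ∨ ((n : ℝ) + 1) * Real.exp (p.re / D.b) < ‖v p‖) ∧
      (∀ z, ‖z‖ ≤ ‖p‖ → ‖w z - v z‖ ≤ δ * ‖v z‖) ∧ ‖w p - v p‖ = δ * ‖v p‖ ∧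
      ((∃ j : Fin (s + 3), ∀ z, ‖z‖ ≤ t → ‖v (p + z)‖ ≤ 2 * ‖v (p + z) j‖) →
        ∃ z, ‖z‖ ≤ t ∧ 2 * δ * ‖v (p + z)‖ ≤ ‖w (p + z) - v (p + z)‖) := by
    intro n
    obtain ⟨v, w, Y, hv, hw, hv0, p, h2, h2', h3, h4, h5, h6⟩ := hcon ((n : ℝ) + 1) (by positivity)
    exact ⟨v, w, Y, p, hv, hw, hv0, h2, h2', h3, h4, h5, h6⟩
  choose v w Y p hv hw hv0 hpn hpY hdeep hclose heq hbad using h1
  have hn1 : ∀ n : ℕ, (1 : ℝ) ≤ (n : ℝ) + 1 := fun n => by
    have : (0 : ℝ) ≤ n := Nat.cast_nonneg n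
    linarith
  have hp1 : ∀ n, 1 < ‖p n‖ := fun n => lt_of_le_of_lt (hn1 n) (hpn n)
  have hY0 : ∀ n, 0 ≤ Y n := by
    intro n
    by_contra h
    push Not at h
    have h2 := hpY n
    have h3 : (Y n) ^ (3 / 4 : ℝ) = Real.exp (Real.log (Y n) * (3 / 4)) * Real.cos (3 / 4 * Real.pi) :=
      Real.rpow_def_of_neg h _
    have h4 : |(Y n) ^ (3 / 4 : ℝ)| ≤ |Y n| ^ (3 / 4 : ℝ) := Real.abs_rpow_le_abs_rpow _ _
    have h5 := neg_abs_le ((Y n) ^ (3 / 4 : ℝ))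
    have h6 : |Y n| ^ (3 / 4 : ℝ) ≤ max 1 |Y n| := by
      rcases le_total 1 |Y n| with h7 | h7
      · refine le_trans ?_ (le_max_right _ _)
        conv_rhs => rw [← Real.rpow_one |Y n|]
        exact Real.rpow_le_rpow_of_exponent_le h7 (by norm_num)
      · refine le_trans ?_ (le_max_left _ _)
        exact Real.rpow_le_one (abs_nonneg _) h7 (by norm_num)
    have h7 := hp1 n
    rcases le_total 1 |Y n| with h8 | h8
    · rw [max_eq_right h8, abs_of_neg h] at h6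
      rw [abs_of_neg h] at h4 h8
      linarith
    · rw [max_eq_left h8] at h6
      linarith
  have hsg0 : ∀ n, 0 ≤ (Y n) ^ (3 / 4 : ℝ) := fun n => Real.rpow_nonneg (hY0 n) _
  have hpY' : ∀ n, ‖p n‖ ≤ Y n := fun n => by
    have := hpY n
    have := hsg0 n
    linarith
  have hclose4 : ∀ n z, ‖z‖ ≤ ‖p n‖ → ‖w n z - v n z‖ ≤ 1 / 4 * ‖v n z‖ := fun n z hz =>
    (hclose n z hz).trans (mul_le_mul_of_nonneg_right hδ4 (norm_nonneg _))
  -- the logarithmic derivative bound near the points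
  have hldw : ∀ R : ℝ, ∀ᶠ n in (UU : Filter ℕ), (∀ z ∈ ball (0 : ℂ) R, ‖p n + z‖ < Y n) ∧
      ∀ z ∈ ball (0 : ℂ) R, ‖deriv (w n) (p n + z)‖ ≤ C * ‖w n (p n + z)‖ := by
    intro R
    set R' : ℝ := |R| with hR'
    have hR'0 : 0 ≤ R' := abs_nonneg R
    filter_upwards [UU_large ⌈(32 * (R' + 1) + 2 * A * (R' + 1)) ^ 2⌉₊] with n hn
    have h2 : (32 * (R' + 1) + 2 * A * (R' + 1)) ^ 2 ≤ ‖p n‖ := by
      have h3 := Nat.le_ceil ((32 * (R' + 1) + 2 * A * (R' + 1)) ^ 2)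
      have h4 : ((⌈(32 * (R' + 1) + 2 * A * (R' + 1)) ^ 2⌉₊ : ℕ) : ℝ) ≤ n := by exact_mod_cast hn
      have h5 := hpn n
      linarith
    obtain ⟨h3, h4⟩ := sg_facts hA.le hR'0 (hp1 n).le (hpY' n) h2
    constructor
    · intro z hz
      have hzR : ‖z‖ < R' := lt_of_lt_of_le (mem_ball_zero_iff.1 hz) (le_abs_self R)
      have h5 := Complex.abs_im_le_norm (p n + z)
      have h6 := neg_abs_le (p n + z).im
      have h7 := norm_add_le (p n) z
      have h8 := hpY n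
      linarith
    · intro z hz
      have hzR : ‖z‖ < R' := lt_of_lt_of_le (mem_ball_zero_iff.1 hz) (le_abs_self R)
      have h5 := hldx (v n) (w n) (Y n) (p n) ((Y n) ^ (3 / 4 : ℝ)) R' (hv n) (hw n) (hv0 n) (hp1 n)
        hR'0 h3 (hpY n) h4 (hclose4 n) z hzR.le
      refine h5.trans (mul_le_mul_of_nonneg_right (by linarith) (norm_nonneg _))
  have hvp : ∀ n z, 0 < ‖v n z‖ := fun n z => (hv n).pos z
  set sv : ℕ → ℂ := fun n => ((‖v n (p n)‖⁻¹ : ℝ) : ℂ) with hsv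
  have hsn : ∀ n, ‖sv n‖ = ‖v n (p n)‖⁻¹ := fun n => by
    rw [hsv]
    simp only
    rw [Complex.norm_real, Real.norm_of_nonneg (inv_nonneg.2 (norm_nonneg _))]
  have hsp : ∀ n, 0 < ‖sv n‖ := fun n => by
    rw [hsn]
    exact inv_pos.2 (hvp n _)
  have scV := fun n => D.scaled (hv n) (sv n) (p n)
  have hldV : ∀ n z, ‖deriv (fun z => sv n • v n (p n + z)) z‖ ≤ C * ‖sv n • v n (p n + z)‖ := by
    intro n z
    rw [(scV n).2.1 z, norm_smul, norm_smul]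
    have h2 := hld 0 (v n) (hv n) (p n + z)
    have h3 : C0 * ‖v n (p n + z)‖ ≤ C * ‖v n (p n + z)‖ :=
      mul_le_mul_of_nonneg_right (by linarith) (norm_nonneg _)
    nlinarith [hsp n]
  have hldW : ∀ R : ℝ, ∀ᶠ n in (UU : Filter ℕ),
      DifferentiableOn ℂ (fun z => sv n • w n (p n + z)) (ball 0 R) ∧
      ∀ z ∈ ball (0 : ℂ) R, ‖deriv (fun z => sv n • w n (p n + z)) z‖ ≤
        C * ‖sv n • w n (p n + z)‖ := by
    intro R
    filter_upwards [hldw R] with n hn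
    have h2 : ∀ z ∈ ball (0 : ℂ) R, HasDerivAt (fun z => sv n • w n (p n + z))
        (sv n • deriv (w n) (p n + z)) z := fun z hz =>
      (shift_deriv ((hw n).dif _ (hn.1 z hz))).const_smul (sv n)
    refine ⟨fun z hz => (h2 z hz).differentiableAt.differentiableWithinAt, fun z hz => ?_⟩
    rw [(h2 z hz).deriv, norm_smul, norm_smul]
    have := hn.2 z hz
    nlinarith [hsp n]
  have hV0 : ∀ n, ‖sv n • v n (p n + 0)‖ = 1 := fun n => by
    rw [add_zero, norm_smul, hsn, inv_mul_cancel₀ (hvp n _).ne']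
  have hWV : ∀ n z, ‖p n + z‖ ≤ ‖p n‖ →
      ‖sv n • w n (p n + z) - sv n • v n (p n + z)‖ ≤ δ * ‖sv n • v n (p n + z)‖ := by
    intro n z hz
    rw [← smul_sub, norm_smul, norm_smul]
    have := hclose n (p n + z) hz
    nlinarith [hsp n]
  have hWV0 : ∀ n, ‖sv n • w n (p n + 0) - sv n • v n (p n + 0)‖ = δ := by
    intro n
    rw [← smul_sub, norm_smul, add_zero, heq n, hsn]
    have := (hvp n (p n)).ne'
    field_simp
  have hW0 : ∀ n, ‖sv n • w n (p n + 0)‖ ≤ 2 := fun n => by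
    have h2 := norm_le_norm_add_norm_sub' (sv n • w n (p n + 0)) (sv n • v n (p n + 0))
    rw [hV0, hWV0] at h2
    linarith
  obtain ⟨V, hVd, hVu, hVt, -, hVld⟩ := exists_lim hC.le (fun n => (scV n).1) hldV
    (fun n => (hV0 n).le)
  obtain ⟨W, hWd, hWu, hWt, -, hWld⟩ := exists_lim2 hC.le hldW (Eventually.of_forall hW0)
  -- the limit equations
  obtain ⟨sv', -, hsv'⟩ := exists_ulim (x := sv) (K := c1⁻¹) (fun n => by
    rw [hsn]
    exact inv_anti₀ hc1 (hlow B 0 (v n) (hv n) (p n)).1)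
  have hβb : ∀ n, ‖sv n ^ D.b * Complex.exp (p n)‖ ≤ Cq := by
    intro n
    have h2 := (scV n).2.2.2 0
    rw [Complex.exp_zero, mul_one] at h2
    rw [← h2]
    have h3 := hqle (sv n • v n (p n + 0))
    rwa [hV0, one_pow, mul_one] at h3
  obtain ⟨β, -, hβ⟩ := exists_ulim (x := fun n => sv n ^ D.b * Complex.exp (p n)) hβb
  have hpV : ∀ z, D.p (V z) = sv' ^ D.a := by
    intro z
    have h2 : Tendsto (fun n => D.p (sv n • v n (p n + z))) UU (𝓝 (D.p (V z))) :=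
      (D.p_cont.tendsto _).comp (hVt z)
    simp only [fun n => (scV n).2.2.1 z] at h2
    exact tendsto_nhds_unique h2 (hsv'.pow _)
  have hpW : ∀ z, D.p (W z) = sv' ^ D.a := by
    intro z
    have h2 : Tendsto (fun n => D.p (sv n • w n (p n + z))) UU (𝓝 (D.p (W z))) :=
      (D.p_cont.tendsto _).comp (hWt z)
    refine tendsto_nhds_unique h2 ((hsv'.pow D.a).congr' ?_)
    filter_upwards [hldw (‖z‖ + 1)] with n hn
    have hz := hn.1 z (by rw [mem_ball_zero_iff]; linarith)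
    rw [D.p_smul, (hw n).hp _ hz, mul_one]
  have hqV : ∀ z, D.q (V z) = β * Complex.exp z := by
    intro z
    have h2 : Tendsto (fun n => D.q (sv n • v n (p n + z))) UU (𝓝 (D.q (V z))) :=
      (D.q_cont.tendsto _).comp (hVt z)
    simp only [fun n => (scV n).2.2.2 z] at h2
    exact tendsto_nhds_unique h2 (hβ.mul_const _)
  have hqW : ∀ z, D.q (W z) = β * Complex.exp z := by
    intro z
    have h2 : Tendsto (fun n => D.q (sv n • w n (p n + z))) UU (𝓝 (D.q (W z))) :=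
      (D.q_cont.tendsto _).comp (hWt z)
    refine tendsto_nhds_unique h2 ((hβ.mul_const (Complex.exp z)).congr' ?_)
    filter_upwards [hldw (‖z‖ + 1)] with n hn
    have hz := hn.1 z (by rw [mem_ball_zero_iff]; linarith)
    rw [D.q_smul, (hw n).hq _ hz, Complex.exp_add]
    ring
  have hinv : Tendsto (fun n : ℕ => ((n : ℝ) + 1)⁻¹) UU (𝓝 0) :=
    (tendsto_inv_atTop_zero.comp (tendsto_natCast_atTop_atTop.atTop_add tendsto_const_nhds)).mono_left
      UU_le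
  have hαβ : sv' ^ D.a * β = 0 := by
    have hor : (∀ᶠ n : ℕ in (UU : Filter ℕ), ((n : ℝ) + 1) < ‖v n (p n)‖) ∨
        (∀ᶠ n : ℕ in (UU : Filter ℕ), ((n : ℝ) + 1) * Real.exp ((p n).re / D.b) < ‖v n (p n)‖) := by
      rw [← Ultrafilter.eventually_or]
      exact Eventually.of_forall hdeep
    rcases hor with h | h
    · have h2 : Tendsto (fun n => ‖sv n‖) UU (𝓝 0) := by
        refine squeeze_zero' (Eventually.of_forall fun n => norm_nonneg _) ?_ hinv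
        filter_upwards [h] with n hn
        rw [hsn]
        exact inv_anti₀ (by positivity) hn.le
      have h3 : sv' = 0 := by
        have := tendsto_nhds_unique hsv' (tendsto_zero_iff_norm_tendsto_zero.2 h2)
        exact this
      rw [h3, zero_pow (by have := D.ha; omega), zero_mul]
    · have h2 : Tendsto (fun n => ‖sv n ^ D.b * Complex.exp (p n)‖) UU (𝓝 0) := by
        have h3 : Tendsto (fun n : ℕ => (((n : ℝ) + 1)⁻¹) ^ D.b) UU (𝓝 0) := by
          have := hinv.pow D.b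
          rwa [zero_pow (by have := D.hb; omega)] at this
        refine squeeze_zero' (Eventually.of_forall fun n => norm_nonneg _) ?_ h3
        filter_upwards [h] with n hn
        rw [norm_mul, norm_pow, Complex.norm_exp, hsn]
        have hb0 : (D.b : ℝ) ≠ 0 := by
          have := D.hb
          exact_mod_cast (by omega : D.b ≠ 0)
        have h4 : Real.exp (p n).re = (Real.exp ((p n).re / D.b)) ^ D.b := by
          rw [← Real.exp_nat_mul]
          congr 1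
          field_simp
        rw [h4, ← mul_pow]
        refine pow_le_pow_left₀ (by positivity) ?_ _
        rw [inv_mul_le_iff₀ (hvp n _), ← div_eq_mul_inv, le_div_iff₀ (by positivity)]
        linarith
      have h3 : β = 0 := tendsto_nhds_unique hβ (tendsto_zero_iff_norm_tendsto_zero.2 h2)
      rw [h3, mul_zero]
  -- nonvanishing of the limits
  have hV1 : ‖V 0‖ = 1 := by
    have h2 := (hVt 0).norm
    simp only [hV0] at h2
    exact (tendsto_nhds_unique h2 tendsto_const_nhds)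
  have hWV1 : ‖W 0 - V 0‖ = δ := by
    have h2 := ((hWt 0).sub (hVt 0)).norm
    simp only [hWV0] at h2
    exact (tendsto_nhds_unique h2 tendsto_const_nhds)
  have hVne : ∀ z, V z ≠ 0 := by
    intro z h
    have h2 := gronwall hVd hVld 0 z
    rw [h, norm_zero, zero_mul, hV1] at h2
    linarith
  have hW1 : 0 < ‖W 0‖ := by
    have h2 := norm_le_norm_add_norm_sub' (V 0) (W 0)
    rw [hV1, norm_sub_rev, hWV1] at h2
    linarith
  have hWne : ∀ z, W z ≠ 0 := by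
    intro z h
    have h2 := gronwall hWd hWld 0 z
    rw [h, norm_zero, zero_mul] at h2
    linarith
  have honV : ∀ z, D.on (V z) := D.on_lim (fun n z => D.on_smul ((hv n).on _)) hVt
  have honW : ∀ z, D.on (W z) := by
    intro z
    refine D.isClosed_on.mem_of_tendsto (hWt z) ?_
    filter_upwards [hldw (‖z‖ + 1)] with n hn
    have hz := hn.1 z (by rw [mem_ball_zero_iff]; linarith)
    exact D.on_smul ((hw n).on _ hz)
  obtain ⟨a, ha, -, -⟩ := D.degen hk hVd hVne hVld hαβ hpV hqV honV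
  obtain ⟨a', ha', -, -⟩ := D.degen hk hWd hWne hWld hαβ hpW hqW honW
  obtain ⟨ν, hν, -, hhp⟩ := half_plane (p := p) (fun n => by
    have := hpn n
    linarith)
  have hlim : ∀ z : ℂ, (z * (starRingEnd ℂ) ν).re < 0 → ‖W z - V z‖ ≤ δ * ‖V z‖ := by
    intro z hz
    refine le_of_tendsto_of_tendsto ((hWt z).sub (hVt z)).norm ((hVt z).norm.const_mul δ) ?_
    filter_upwards [hhp z hz] with n hn
    exact hWV n z hn
  have haa : a' = a := by
    refine exp_rigid (V0 := V 0) (W0 := W 0) (δ := δ) hν (hVne 0) (by linarith) fun z hz => ?_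
    rw [← ha, ← ha']
    exact hlim z hz
  have hWVz : ∀ z, ‖W z - V z‖ = δ * ‖V z‖ := by
    intro z
    rw [ha z, ha' z, haa, ← smul_sub, norm_smul, norm_smul, hWV1, hV1]
    ring
  -- conclusion
  set m : ℝ := Real.exp (-(C * t)) with hm
  have hmp : 0 < m := Real.exp_pos _
  have hVlow : ∀ z, ‖z‖ ≤ t → m ≤ ‖V z‖ := by
    intro z hz
    have h2 := gronwall hVd hVld 0 z
    rw [hV1, dist_comm, dist_zero_right] at h2
    have h3 : Real.exp (C * ‖z‖) ≤ Real.exp (C * t) := by gcongr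
    have h4 : 1 ≤ ‖V z‖ * Real.exp (C * t) :=
      h2.trans (mul_le_mul_of_nonneg_left h3 (norm_nonneg _))
    calc m = 1 * m := (one_mul m).symm
      _ ≤ (‖V z‖ * Real.exp (C * t)) * m := by gcongr
      _ = ‖V z‖ := by
          rw [mul_assoc, hm, ← Real.exp_add, add_neg_cancel, Real.exp_zero, mul_one]
  set e : ℝ := δ * m / 8 with he
  have hep : 0 < e := by positivity
  have he1 : e ≤ m / 32 := by
    rw [he]
    nlinarith
  obtain ⟨j, hj⟩ := exists_max (V 0)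
  have hVj : ∀ z, ‖V z j‖ = ‖V z‖ := by
    intro z
    rw [ha z, Pi.smul_apply, smul_eq_mul, norm_mul, norm_smul, hj]
  have hev := (hVu t e hep).and (hWu t e hep)
  obtain ⟨n, hn1, hn2⟩ := hev.exists
  have hj2 : ∀ z, ‖z‖ ≤ t → ‖v n (p n + z)‖ ≤ 2 * ‖v n (p n + z) j‖ := by
    intro z hz
    have hzb : z ∈ closedBall (0 : ℂ) t := mem_closedBall_zero_iff.2 hz
    have h2 := hn1 z hzb
    have h3 := hVlow z hz
    have h4 : ‖sv n • v n (p n + z)‖ ≤ ‖V z‖ + e := by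
      have := norm_le_norm_add_norm_sub' (sv n • v n (p n + z)) (V z)
      linarith
    have h5 : ‖V z‖ - e ≤ ‖(sv n • v n (p n + z)) j‖ := by
      have h6 : ‖(sv n • v n (p n + z) - V z) j‖ ≤ e := (le3 _ j).trans h2.le
      rw [Pi.sub_apply] at h6
      have h7 := norm_le_norm_add_norm_sub' (V z j) ((sv n • v n (p n + z)) j)
      rw [norm_sub_rev, hVj] at h7
      linarith
    rw [Pi.smul_apply, norm_smul] at h5
    rw [norm_smul] at h4
    have h8 : ‖sv n‖ * ‖v n (p n + z)‖ ≤ ‖sv n‖ * (2 * ‖v n (p n + z) j‖) := by linarith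
    exact le_of_mul_le_mul_left h8 (hsp n)
  obtain ⟨z, hz, hzbad⟩ := hbad n ⟨j, hj2⟩
  have hzb : z ∈ closedBall (0 : ℂ) t := mem_closedBall_zero_iff.2 hz
  have h2 := hn1 z hzb
  have h3 := hn2 z hzb
  have h4 := hVlow z hz
  have h5 : ‖sv n • w n (p n + z) - sv n • v n (p n + z)‖ ≤ δ * ‖V z‖ + 2 * e := by
    have h6 : sv n • w n (p n + z) - sv n • v n (p n + z) = (sv n • w n (p n + z) - W z) +
        (W z - V z) - (sv n • v n (p n + z) - V z) := by abel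
    rw [h6]
    have h7 := norm_sub_le ((sv n • w n (p n + z) - W z) + (W z - V z)) (sv n • v n (p n + z) - V z)
    have h8 := norm_add_le (sv n • w n (p n + z) - W z) (W z - V z)
    rw [hWVz] at h8
    linarith
  have h6 : ‖V z‖ - e ≤ ‖sv n • v n (p n + z)‖ := by
    have h7 := norm_le_norm_add_norm_sub' (V z) (sv n • v n (p n + z))
    rw [norm_sub_rev] at h7
    linarith
  have h7 : 2 * δ * ‖sv n • v n (p n + z)‖ ≤ ‖sv n • w n (p n + z) - sv n • v n (p n + z)‖ := by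
    rw [← smul_sub, norm_smul, norm_smul]
    nlinarith [hsp n]
  have h8 : 2 * δ * (‖V z‖ - e) ≤ δ * ‖V z‖ + 2 * e := by
    have := mul_le_mul_of_nonneg_left h6 (show 0 ≤ 2 * δ by positivity)
    linarith
  have h9 : δ * ‖V z‖ ≤ 2 * e + 2 * δ * e := by linarith
  have h10 : δ * m ≤ δ * ‖V z‖ := mul_le_mul_of_nonneg_left h4 hδ.le
  nlinarith

/-- at the first contact point the curve is not deep -/
theorem not_deepD (hk : 1 ≤ D.k) {B : ℝ} (hB : 0 ≤ B) : ∃ δ : ℝ, 0 < δ ∧ δ ≤ 1 / 16 ∧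
    (∃ c C : ℝ, 0 < c ∧ 0 < C ∧
    ∀ (β : ℂ) (v w : ℂ → VV s), D.Cv B β v → ∀ O : Set ℂ, IsOpen O → DifferentiableOn ℂ w O →
    (∀ z ∈ O, D.on (w z)) → (∀ z ∈ O, D.p (w z) = 1) →
    (∀ z ∈ O, D.q (w z) = Complex.exp (z + β)) →
    (∀ z ∈ O, ‖w z - v z‖ < 4 * δ * ‖v z‖) → ∃ l : ℂ → ℂ, DifferentiableOn ℂ l O ∧
    ∀ z ∈ O, c * ‖w z - v z‖ ≤ ‖l z‖ * ‖v z‖ ^ (D.k + 1) ∧
      ‖l z‖ * ‖v z‖ ^ (D.k + 1) ≤ C * ‖w z - v z‖) ∧
    ∀ K : ℝ, 0 < K → ∃ K0 : ℝ, 0 < K0 ∧ ∀ (v w : ℂ → VV s) (Y : ℝ), D.Cv B 0 v → D.Dw B Y w →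
    ‖v 0‖ ≤ K → ∀ p : ℂ, K0 < ‖p‖ → 0 ≤ Y → ‖p‖ + Y ^ (3 / 4 : ℝ) ≤ Y →
    (∀ z, ‖z‖ ≤ ‖p‖ → ‖w z - v z‖ ≤ δ * ‖v z‖) → ‖w p - v p‖ = δ * ‖v p‖ →
    ‖v p‖ ≤ K0 ∧ ‖v p‖ ≤ K0 * Real.exp (p.re / D.b) := by
  obtain ⟨δ0, cl, Cl, hδ0, hδ04, hcl, hCl, hlam⟩ := D.lam_on hB
  obtain ⟨C, hC, hld⟩ := D.ld hB
  obtain ⟨c1, hc1, hlow⟩ := D.cv_low'
  have hb1 : (1 : ℝ) ≤ D.b := by exact_mod_cast D.hb
  refine ⟨δ0 / 4, by positivity, by linarith, ⟨cl, Cl, hcl, hCl, ?_⟩, fun K hK => ?_⟩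
  · have : 4 * (δ0 / 4) = δ0 := by ring
    rw [this]
    exact hlam
  obtain ⟨η, R1, E, c3, hη, hη5, hR1, hE, hc3, hdec⟩ := decay (b := D.b) (c1 := c1) (C := C) (K := K)
    (E0 := Cl * δ0) hb1 hc1 hC hK (by positivity) hk
  -- choice of the radius
  obtain ⟨t, ht1, ht⟩ : ∃ t : ℝ, 1 ≤ t ∧ (Cl * δ0) ^ 3 * (E * Real.exp (-(c3 * (t / 2)))) <
      ((1 / 2) ^ D.k * (cl * (δ0 / 4))) ^ 4 := by
    have h1 : Tendsto (fun t : ℝ => (Cl * δ0) ^ 3 * (E * Real.exp (-(c3 * (t / 2))))) atTop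
        (𝓝 ((Cl * δ0) ^ 3 * (E * 0))) := by
      apply Tendsto.const_mul
      apply Tendsto.const_mul
      apply Real.tendsto_exp_atBot.comp
      apply tendsto_neg_atTop_atBot.comp
      apply Tendsto.const_mul_atTop hc3
      exact tendsto_id.atTop_div_const (by norm_num)
    rw [mul_zero, mul_zero] at h1
    have h2 : (0 : ℝ) < ((1 / 2) ^ D.k * (cl * (δ0 / 4))) ^ 4 := by positivity
    obtain ⟨t, ht⟩ := ((h1.eventually (gt_mem_nhds h2)).and (eventually_ge_atTop 1)).exists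
    exact ⟨t, ht.2, ht.1⟩
  have htp : 0 < t := by linarith
  obtain ⟨K1, hK1, hdeep⟩ := D.deep_closeD hk hB (δ := δ0 / 4) (by positivity) (by linarith) hK htp
  refine ⟨max K1 (max R1 (max (2 * t) ((t + 1) ^ 2))), by positivity, ?_⟩
  intro v w Y hv hw hv0 p hp hY0 hpY hclose heq
  have hpK1 : K1 < ‖p‖ := lt_of_le_of_lt (le_max_left _ _) hp
  have hpR1 : R1 ≤ ‖p‖ := (le_max_left _ _).trans ((le_max_right _ _).trans hp.le)
  have hpt : 2 * t ≤ ‖p‖ := (le_max_left _ _).trans ((le_max_right _ _).trans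
    ((le_max_right _ _).trans hp.le))
  have hpt2 : (t + 1) ^ 2 ≤ ‖p‖ := (le_max_right _ _).trans ((le_max_right _ _).trans
    ((le_max_right _ _).trans hp.le))
  have hsg0 : 0 ≤ Y ^ (3 / 4 : ℝ) := Real.rpow_nonneg hY0 _
  have hY1 : 1 ≤ Y := by nlinarith
  have hsgt : t + 1 ≤ Y ^ (3 / 4 : ℝ) := by
    refine le_trans ?_ (sg_ge hY1)
    apply Real.le_sqrt_of_sq_le
    linarith
  by_contra hcon
  have hd : K1 < ‖v p‖ ∨ K1 * Real.exp (p.re / D.b) < ‖v p‖ := by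
    by_contra h
    push Not at h
    apply hcon
    refine ⟨h.1.trans (le_max_left _ _), h.2.trans ?_⟩
    gcongr
    exact le_max_left _ _
  obtain ⟨⟨j, hj⟩, hcl2⟩ := hdeep v w Y hv hw hv0 p hpK1 hpY hd hclose heq
  set O : Set ℂ := {z | ‖z‖ < Y} ∩ (fun z => ‖w z - v z‖ - δ0 * ‖v z‖) ⁻¹' (Iio 0) with hO
  have hHo : IsOpen {z : ℂ | ‖z‖ < Y} := isOpen_lt continuous_norm continuous_const
  have hwc : ContinuousOn w {z : ℂ | ‖z‖ < Y} := fun z hz =>
    (hw.dif z hz).continuousAt.continuousWithinAt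
  have hOo : IsOpen O := by
    refine ContinuousOn.isOpen_inter_preimage ?_ hHo isOpen_Iio
    exact (hwc.sub hv.dif.continuous.continuousOn).norm.sub
      (continuous_const.mul hv.dif.continuous.norm).continuousOn
  have hOmem : ∀ z, z ∈ O ↔ ‖z‖ < Y ∧ ‖w z - v z‖ < δ0 * ‖v z‖ := by
    intro z
    constructor
    · rintro ⟨h1, h2⟩
      have h3 : ‖w z - v z‖ - δ0 * ‖v z‖ < 0 := h2
      exact ⟨h1, by linarith⟩
    · rintro ⟨h1, h2⟩
      refine ⟨h1, ?_⟩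
      show ‖w z - v z‖ - δ0 * ‖v z‖ < 0
      linarith
  obtain ⟨l, hl, hlb⟩ := hlam 0 v w hv O hOo (fun z hz => (hw.dif z hz.1).differentiableWithinAt)
    (fun z hz => hw.on z hz.1) (fun z hz => hw.hp z hz.1) (fun z hz => by rw [add_zero]; exact hw.hq z hz.1)
    (fun z hz => ((hOmem z).1 hz).2)
  have hO1 : ∀ z, ‖z‖ ≤ ‖p‖ → z ∈ O := by
    intro z hz
    have h1 := hclose z hz
    have h2 := hv.pos z
    rw [hOmem]
    constructor
    · have h3 := Complex.abs_im_le_norm z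
      have h4 := neg_abs_le z.im
      linarith
    · nlinarith
  have hO2 : ∀ z, ‖z‖ ≤ t → p + z ∈ O := by
    intro z hz
    have h1 := hcl2 z hz
    have h2 := hv.pos (p + z)
    rw [hOmem]
    constructor
    · have h3 := Complex.abs_im_le_norm (p + z)
      have h4 := neg_abs_le (p + z).im
      have h5 := norm_add_le p z
      linarith
    · nlinarith
  have hlO : ∀ z ∈ O, ‖l z‖ * ‖v z‖ ^ D.k ≤ Cl * δ0 := by
    intro z hz
    have h1 := (hlb z hz).2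
    have h2 : ‖w z - v z‖ < δ0 * ‖v z‖ := ((hOmem z).1 hz).2
    have h3 := hv.pos z
    rw [pow_succ] at h1
    have h4 : (‖l z‖ * ‖v z‖ ^ D.k) * ‖v z‖ ≤ (Cl * δ0) * ‖v z‖ := by nlinarith
    exact le_of_mul_le_mul_right h4 h3
  have hgr : ∀ z : ℂ, ‖v z‖ ≤ K * Real.exp (C * ‖z‖) := by
    intro z
    have h1 := gronwall hv.dif (hld 0 v hv) z 0
    rw [dist_zero_right] at h1
    refine h1.trans ?_
    gcongr
  have hpp : 0 < ‖p‖ := by linarith
  have hdl : DiffContOnCl ℂ l (ball 0 ‖p‖) := by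
    apply DifferentiableOn.diffContOnCl
    rw [closure_ball (0 : ℂ) hpp.ne']
    exact hl.mono fun z hz => hO1 z (mem_closedBall_zero_iff.1 hz)
  have hdec' := hdec v hv.dif (hlow B v hv) hgr ‖p‖ hpR1 l hdl
    (fun z hz => hlO z (hO1 z hz))
  -- the function near `p`
  have hLd : DiffContOnCl ℂ (fun z => l (p + z) * (v (p + z) j) ^ D.k) (ball 0 t) := by
    apply DifferentiableOn.diffContOnCl
    rw [closure_ball (0 : ℂ) htp.ne']
    intro z hz
    apply DifferentiableAt.differentiableWithinAt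
    have hz2 := hO2 z (mem_closedBall_zero_iff.1 hz)
    have e1 : DifferentiableAt ℂ l (p + z) := (hl _ hz2).differentiableAt (hOo.mem_nhds hz2)
    have e2 : DifferentiableAt ℂ (fun z => l (p + z)) z := e1.comp z (by fun_prop)
    have e3 : Differentiable ℂ (fun z => v (p + z)) := hv.dif.comp (by fun_prop)
    have e4 : DifferentiableAt ℂ (fun z => v (p + z) j) z := (differentiableAt_pi.1 (e3 z)) j
    exact e2.mul (e4.pow _)
  have hb : ∀ z, ‖l z * (v z j) ^ D.k‖ ≤ ‖l z‖ * ‖v z‖ ^ D.k := by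
    intro z
    rw [norm_mul, norm_pow]
    gcongr
    exact le3 _ j
  have hmean := four_mean (L := fun z => l z * (v z j) ^ D.k) (p := p) (t := t) (M := Cl * δ0)
    (ε := E * Real.exp (-(c3 * (t / 2)))) htp hpt hLd (by positivity)
    (fun z hz => (hb _).trans (hlO _ (hO2 z hz)))
    (fun z hz hz2 => by
      refine (hb _).trans ((hdec' (p + z) ?_ (by linarith)).trans ?_)
      · have h1 : ‖p‖ - t ≤ ‖p + z‖ := by
          have := norm_sub_le (p + z) z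
          rw [add_sub_cancel_right] at this
          linarith
        nlinarith
      · gcongr
        linarith)
  have hlowp : (1 / 2) ^ D.k * (cl * (δ0 / 4)) ≤ ‖l p * (v p j) ^ D.k‖ := by
    have h1 := (hlb p (hO1 p le_rfl)).1
    have h2 := hj 0 (by rw [norm_zero]; linarith)
    rw [add_zero] at h2
    have h3 := hv.pos p
    rw [heq, pow_succ] at h1
    have h4 : cl * (δ0 / 4) ≤ ‖l p‖ * ‖v p‖ ^ D.k := by
      have h5 : (cl * (δ0 / 4)) * ‖v p‖ ≤ (‖l p‖ * ‖v p‖ ^ D.k) * ‖v p‖ := by linarith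
      exact le_of_mul_le_mul_right h5 h3
    rw [norm_mul, norm_pow]
    have h6 : (1 / 2 * ‖v p‖) ^ D.k ≤ ‖v p j‖ ^ D.k := by
      apply pow_le_pow_left₀ (by positivity)
      linarith
    rw [mul_pow] at h6
    calc (1 / 2) ^ D.k * (cl * (δ0 / 4)) ≤ (1 / 2) ^ D.k * (‖l p‖ * ‖v p‖ ^ D.k) := by gcongr
      _ = ‖l p‖ * ((1 / 2) ^ D.k * ‖v p‖ ^ D.k) := by ring
      _ ≤ ‖l p‖ * ‖v p j‖ ^ D.k := by gcongr
  have h7 : ((1 / 2) ^ D.k * (cl * (δ0 / 4))) ^ 4 ≤ ‖l p * (v p j) ^ D.k‖ ^ 4 :=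
    pow_le_pow_left₀ (by positivity) hlowp 4
  have h8 := h7.trans hmean
  linarith

end Pair

end Pool.Agent.K9h84.CI
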