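import Pool.Agent.K9h84.CI.Base
import Pool.Agent.K9h3.TC.App

/-!
# Decay towards the centre of a disc

A pure analysis lemma: a holomorphic function bounded in terms of the inverse of the length of a
vector of exponential type which is large on one side decays exponentially with the distance to
the boundary of the disc.
-/

set_option autoImplicit false

open Set Filter Topology Metric

namespace Pool.Agent.K9h84.CI

open Pool.Agent.K9h3.TC (approx)

variable {s : ℕ}

/-- the harmonic polynomial below `max x 0` on the circle of radius `R` -/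
noncomputable def hR (R : ℝ) (z : ℂ) : ℂ := R / 4 + z / 2 + z ^ 2 / (4 * R)

theorem hR_diff (R : ℝ) : Differentiable ℂ (hR R) := by
  unfold hR
  fun_prop

theorem hR_re (R : ℝ) (z : ℂ) : (hR R z).re = R / 4 + z.re / 2 + (z.re ^ 2 - z.im ^ 2) / (4 * R) := by
  have h1 : (4 * (R : ℂ)) = ((4 * R : ℝ) : ℂ) := by push_cast; ring
  unfold hR
  rw [h1, Complex.add_re, Complex.add_re, Complex.div_ofReal_re]
  have h2 : ((R : ℂ) / 4).re = R / 4 := by
    have : (R : ℂ) / 4 = ((R / 4 : ℝ) : ℂ) := by push_cast; ring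
    rw [this, Complex.ofReal_re]
  have h3 : (z / 2).re = z.re / 2 := by
    have : z / 2 = z / ((2 : ℝ) : ℂ) := by norm_num
    rw [this, Complex.div_ofReal_re]
  have h4 : (z ^ 2).re = z.re ^ 2 - z.im ^ 2 := by
    rw [sq, Complex.mul_re]
    ring
  rw [h2, h3, h4]

theorem hR_le {R : ℝ} (hRp : 0 < R) {z : ℂ} (hz : ‖z‖ = R) : (hR R z).re ≤ max z.re 0 := by
  have h1 : z.re ^ 2 + z.im ^ 2 = R ^ 2 := by
    rw [← hz, ← Complex.normSq_eq_norm_sq, Complex.normSq_apply]
    ring
  have h2 : (hR R z).re = z.re * (R + z.re) / (2 * R) := by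
    rw [hR_re]
    have : z.im ^ 2 = R ^ 2 - z.re ^ 2 := by linarith
    rw [this]
    field_simp
    ring
  have h3 : |z.re| ≤ R := by
    rw [← hz]
    exact Complex.abs_re_le_norm z
  have h4 := abs_le.1 h3
  rw [h2, div_le_iff₀ (by positivity)]
  rcases le_total z.re 0 with h5 | h5
  · rw [max_eq_right h5, zero_mul]
    exact mul_nonpos_of_nonpos_of_nonneg h5 (by linarith)
  · rw [max_eq_left h5]
    nlinarith

theorem hR_low {R : ℝ} (hRp : 0 < R) {z : ℂ} (hz : ‖z‖ ≤ R / 5) : R / 8 ≤ (hR R z).re := by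
  rw [hR_re]
  have h3 : |z.re| ≤ R / 5 := (Complex.abs_re_le_norm z).trans hz
  have h4 := abs_le.1 h3
  have h5 : |z.im| ≤ R / 5 := (Complex.abs_im_le_norm z).trans hz
  have h6 : z.im ^ 2 ≤ (R / 5) ^ 2 := sq_le_sq' (abs_le.1 h5).1 (abs_le.1 h5).2
  have h7 : -(R / 100) ≤ (z.re ^ 2 - z.im ^ 2) / (4 * R) := by
    rw [le_div_iff₀ (by positivity)]
    nlinarith [sq_nonneg z.re]
  linarith

/-- a bound for an entire function on a disc from the circle -/
theorem max_disc {f : ℂ → ℂ} (hf : Differentiable ℂ f) {R K : ℝ} (hR : 0 < R)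
    (h : ∀ z, ‖z‖ = R → ‖f z‖ ≤ K) : ∀ z, ‖z‖ ≤ R → ‖f z‖ ≤ K := by
  intro z hz
  have := Complex.norm_le_of_forall_mem_frontier_norm_le (f := f) (U := ball 0 R)
    Metric.isBounded_ball hf.diffContOnCl (C := K) (fun w hw => by
      rw [frontier_ball (0 : ℂ) hR.ne', mem_sphere_zero_iff_norm] at hw
      exact h w hw) (z := z) (by
      rw [closure_ball (0 : ℂ) hR.ne', mem_closedBall_zero_iff]
      exact hz)
  exact this

/-- the decay lemma -/
theorem decay {b c1 C K E0 : ℝ} (hb : 1 ≤ b) (hc1 : 0 < c1) (hC : 0 < C) (hK : 0 < K)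
    (hE0 : 0 < E0) {k : ℕ} (hk : 1 ≤ k) : ∃ η R1 E c3 : ℝ, 0 < η ∧ η ≤ 1 / 5 ∧ 0 < R1 ∧ 0 < E ∧
    0 < c3 ∧ ∀ (v : ℂ → VV s), Differentiable ℂ v →
    (∀ z : ℂ, c1 * Real.exp (max z.re 0 / b) ≤ ‖v z‖) →
    (∀ z : ℂ, ‖v z‖ ≤ K * Real.exp (C * ‖z‖)) → ∀ R : ℝ, R1 ≤ R → ∀ l : ℂ → ℂ,
    DiffContOnCl ℂ l (ball 0 R) → (∀ z, ‖z‖ ≤ R → ‖l z‖ * ‖v z‖ ^ k ≤ E0) →
    ∀ z : ℂ, η * R ≤ ‖z‖ → ‖z‖ ≤ R → ‖l z‖ * ‖v z‖ ^ k ≤ E * Real.exp (-(c3 * (R - ‖z‖))) := by
  set η : ℝ := min (1 / 5) (1 / (16 * b * C)) with hη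
  have hηp : 0 < η := by positivity
  have hη5 : η ≤ 1 / 5 := min_le_left _ _
  have hηC : C * η ≤ 1 / (16 * b) := by
    have h1 : η ≤ 1 / (16 * b * C) := min_le_right _ _
    calc C * η ≤ C * (1 / (16 * b * C)) := by gcongr
      _ = 1 / (16 * b) := by field_simp
  set lη : ℝ := Real.log (1 / η) with hlη
  have hlηp : 0 < lη := Real.log_pos (by
    rw [lt_div_iff₀ hηp]
    linarith)
  set c4 : ℝ := 1 / (32 * b * lη) with hc4
  have hc4p : 0 < c4 := by positivity
  set A : ℝ := max (K / c1) 1 with hA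
  have hA1 : 1 ≤ A := le_max_right _ _
  set R1 : ℝ := max (32 * b * Real.log A) (2 / c4) + 1 with hR1
  have hR1p : 0 < R1 := by
    have : 0 ≤ 2 / c4 := by positivity
    have : 2 / c4 ≤ max (32 * b * Real.log A) (2 / c4) := le_max_right _ _
    linarith
  refine ⟨η, R1, E0 * Real.exp (2 * k), c4 / 2, hηp, hη5, hR1p, by positivity, by positivity, ?_⟩
  intro v hv hlow hup R hR l hl hlv
  have hRp : 0 < R := by linarith
  have hRa : 32 * b * Real.log A ≤ R := by
    have : 32 * b * Real.log A ≤ max (32 * b * Real.log A) (2 / c4) := le_max_left _ _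
    linarith
  have hRb : 2 / c4 ≤ R := by
    have : 2 / c4 ≤ max (32 * b * Real.log A) (2 / c4) := le_max_right _ _
    linarith
  have hvp : ∀ z, 0 < ‖v z‖ := fun z => lt_of_lt_of_le (by positivity) (hlow z)
  have hvc : Continuous (fun z => Real.log ‖v z‖) :=
    hv.continuous.norm.log fun z => (hvp z).ne'
  obtain ⟨q, hq, hqU⟩ := approx hRp (hvc.continuousOn (s := sphere 0 R))
  -- Step 1
  have h1 : ∀ z, ‖z‖ ≤ R → ‖l z * Complex.exp (k * q z)‖ ≤ E0 * Real.exp k := by
    intro z hz
    have hd : DiffContOnCl ℂ (fun z => l z * Complex.exp (k * q z)) (ball 0 R) := by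
      have : Differentiable ℂ (fun z => Complex.exp (k * q z)) := (hq.const_mul _).cexp
      exact hl.smul this.diffContOnCl
    refine Complex.norm_le_of_forall_mem_frontier_norm_le (U := ball 0 R)
      Metric.isBounded_ball hd (fun w hw => ?_) (by
      rw [closure_ball (0 : ℂ) hRp.ne', mem_closedBall_zero_iff]
      exact hz)
    rw [frontier_ball (0 : ℂ) hRp.ne', mem_sphere_zero_iff_norm] at hw
    have h2 := hlv w hw.le
    have h3 := (abs_le.1 (hqU w hw)).2
    rw [norm_mul, Complex.norm_exp]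
    have h4 : ((k : ℂ) * q w).re = k * (q w).re := by
      rw [← Complex.ofReal_natCast, Complex.re_ofReal_mul]
    rw [h4]
    have h5 : Real.exp (k * (q w).re) ≤ ‖v w‖ ^ k * Real.exp k := by
      have h6 : (k : ℝ) * (q w).re ≤ k * Real.log ‖v w‖ + k := by
        have : (0 : ℝ) ≤ k := Nat.cast_nonneg k
        nlinarith
      refine (Real.exp_le_exp.2 h6).trans (le_of_eq ?_)
      rw [Real.exp_add, Real.exp_nat_mul, Real.exp_log (hvp w)]
    calc ‖l w‖ * Real.exp (k * (q w).re) ≤ ‖l w‖ * (‖v w‖ ^ k * Real.exp k) := by gcongr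
      _ = (‖l w‖ * ‖v w‖ ^ k) * Real.exp k := by ring
      _ ≤ E0 * Real.exp k := by gcongr
  have h1' : ∀ z, ‖z‖ ≤ R → ‖l z‖ ≤ E0 * Real.exp k * Real.exp (-(k * (q z).re)) := by
    intro z hz
    have h2 := h1 z hz
    rw [norm_mul, Complex.norm_exp] at h2
    have h4 : ((k : ℂ) * q z).re = k * (q z).re := by
      rw [← Complex.ofReal_natCast, Complex.re_ofReal_mul]
    rw [h4] at h2
    calc ‖l z‖ = (‖l z‖ * Real.exp (k * (q z).re)) * Real.exp (-(k * (q z).re)) := by
          rw [mul_assoc, ← Real.exp_add, add_neg_cancel, Real.exp_zero, mul_one]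
      _ ≤ _ := by gcongr
  -- Step 2
  have h2 : ∀ z, ‖z‖ ≤ R → (CI.hR R z).re / b - 1 + Real.log c1 ≤ (q z).re := by
    intro z hz
    have hd : Differentiable ℂ (fun z => Complex.exp (CI.hR R z / b - q z)) :=
      (((hR_diff R).div_const _).sub hq).cexp
    have h3 := max_disc hd hRp (K := Real.exp (1 - Real.log c1)) (fun w hw => by
      rw [Complex.norm_exp, Complex.sub_re, Complex.div_ofReal_re]
      apply Real.exp_le_exp.2
      have h4 := (abs_le.1 (hqU w hw)).1
      have h5 : Real.log c1 + max w.re 0 / b ≤ Real.log ‖v w‖ := by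
        have := Real.log_le_log (by positivity) (hlow w)
        rwa [Real.log_mul hc1.ne' (Real.exp_pos _).ne', Real.log_exp] at this
      have h6 : (CI.hR R w).re / b ≤ max w.re 0 / b := by
        have := hR_le hRp hw
        gcongr
      linarith) z hz
    rw [Complex.norm_exp, Complex.sub_re, Complex.div_ofReal_re] at h3
    have := Real.exp_le_exp.1 h3
    linarith
  -- Steps 3 and 4
  set m : ℕ := ⌊c4 * R⌋₊ with hm
  have hm1 : (m : ℝ) ≤ c4 * R := Nat.floor_le (by positivity)
  have hm2 : c4 / 2 * R ≤ m := by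
    have h3 := Nat.lt_floor_add_one (c4 * R)
    rw [← hm] at h3
    rw [div_le_iff₀ hc4p] at hRb
    linarith
  have h3 : ∀ j : Fin (s + 3), ∀ z, η * R ≤ ‖z‖ → ‖z‖ ≤ R →
      ‖v z j * Complex.exp (- q z) * (R / z) ^ m‖ ≤ Real.exp 1 := by
    intro j z hz1 hz2
    set W : Set ℂ := ball 0 R \ closedBall 0 (η * R) with hW
    have hWo : IsOpen W := isOpen_ball.sdiff isClosed_closedBall
    have hcl : closure W ⊆ closedBall 0 R \ ball 0 (η * R) := by
      refine closure_minimal ?_ ?_
      · intro w hw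
        refine ⟨ball_subset_closedBall hw.1, fun h => hw.2 (ball_subset_closedBall h)⟩
      · exact isClosed_closedBall.sdiff isOpen_ball
    have hne : ∀ w ∈ closure W, w ≠ 0 := by
      intro w hw h
      have := (hcl hw).2
      rw [h] at this
      exact this (mem_ball_self (by positivity))
    have hd : DiffContOnCl ℂ (fun z => v z j * Complex.exp (- q z) * (R / z) ^ m) W := by
      apply DifferentiableOn.diffContOnCl
      intro w hw
      apply DifferentiableAt.differentiableWithinAt
      have e1 : DifferentiableAt ℂ (fun z => v z j) w := (differentiableAt_pi.1 (hv w)) j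
      have e2 : DifferentiableAt ℂ (fun z => Complex.exp (- q z)) w := (hq w).neg.cexp
      have e3 : DifferentiableAt ℂ (fun z : ℂ => ((R : ℂ) / z) ^ m) w :=
        ((differentiableAt_const _).div differentiableAt_id (hne w hw)).pow m
      exact (e1.mul e2).mul e3
    have hbd : ∀ w, ‖w‖ = R ∨ ‖w‖ = η * R →
        ‖v w j * Complex.exp (- q w) * (R / w) ^ m‖ ≤ Real.exp 1 := by
      intro w hw
      rw [norm_mul, norm_mul, norm_pow, norm_div, Complex.norm_real, Real.norm_of_nonneg hRp.le,
        Complex.norm_exp, Complex.neg_re]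
      rcases hw with hw | hw
      · rw [hw, div_self hRp.ne', one_pow, mul_one]
        have h4 := (abs_le.1 (hqU w hw)).1
        calc ‖v w j‖ * Real.exp (-(q w).re) ≤ ‖v w‖ * Real.exp (-(q w).re) := by
              gcongr
              exact le3 _ j
          _ = Real.exp (Real.log ‖v w‖ - (q w).re) := by
              rw [sub_eq_add_neg, Real.exp_add, Real.exp_log (hvp w)]
          _ ≤ Real.exp 1 := Real.exp_le_exp.2 (by linarith)
      · rw [hw]
        have h4 : R / (η * R) = 1 / η := by field_simp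
        rw [h4]
        have h5 : (1 / η) ^ m = Real.exp (m * lη) := by
          rw [Real.exp_nat_mul, hlη, Real.exp_log (by positivity)]
        rw [h5]
        have h6 : ‖w‖ ≤ R / 5 := by
          rw [hw]
          have := mul_le_mul_of_nonneg_right hη5 hRp.le
          linarith
        have h7 := hR_low hRp h6
        have hwR : ‖w‖ ≤ R := by linarith
        have h8 := h2 w hwR
        have h9 : ‖v w j‖ ≤ K * Real.exp (C * (η * R)) := by
          have := (le3 (v w) j).trans (hup w)
          rwa [hw] at this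
        have h10 : R / (8 * b) - 1 + Real.log c1 ≤ (q w).re := by
          refine le_trans ?_ h8
          have : R / (8 * b) ≤ (CI.hR R w).re / b := by
            rw [div_le_div_iff₀ (by positivity) (by positivity)]
            nlinarith
          linarith
        have h11 : C * (η * R) ≤ R / (16 * b) := by
          have := mul_le_mul_of_nonneg_right hηC hRp.le
          calc C * (η * R) = C * η * R := by ring
            _ ≤ 1 / (16 * b) * R := this
            _ = R / (16 * b) := by ring
        have h12 : m * lη ≤ R / (32 * b) := by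
          calc m * lη ≤ (c4 * R) * lη := by gcongr
            _ = R / (32 * b) := by rw [hc4]; field_simp
        have h13 : Real.log A ≤ R / (32 * b) := by
          rw [le_div_iff₀ (by positivity)]
          linarith
        have h14 : K / c1 ≤ Real.exp (R / (32 * b)) := by
          calc K / c1 ≤ A := le_max_left _ _
            _ = Real.exp (Real.log A) := (Real.exp_log (by linarith)).symm
            _ ≤ _ := Real.exp_le_exp.2 h13
        have h15 : K ≤ c1 * Real.exp (R / (32 * b)) := by
          rw [div_le_iff₀ hc1] at h14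
          linarith
        calc ‖v w j‖ * Real.exp (-(q w).re) * Real.exp (m * lη)
            ≤ (K * Real.exp (C * (η * R))) * Real.exp (-(R / (8 * b) - 1 + Real.log c1)) *
              Real.exp (R / (32 * b)) := by gcongr
          _ ≤ ((c1 * Real.exp (R / (32 * b))) * Real.exp (R / (16 * b))) *
              Real.exp (-(R / (8 * b) - 1 + Real.log c1)) * Real.exp (R / (32 * b)) := by gcongr
          _ = c1 * Real.exp (1 - Real.log c1) := by
              rw [mul_assoc, mul_assoc, mul_assoc, ← Real.exp_add, ← Real.exp_add, ← Real.exp_add]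
              congr 2
              field_simp
              ring
          _ = Real.exp 1 := by
              rw [Real.exp_sub, Real.exp_log hc1]
              field_simp
    by_cases hzb : ‖z‖ = R ∨ ‖z‖ = η * R
    · exact hbd z hzb
    · push Not at hzb
      have hzW : z ∈ closure W := subset_closure ⟨by
          rw [mem_ball_zero_iff]
          exact lt_of_le_of_ne hz2 hzb.1, by
          rw [mem_closedBall_zero_iff, not_le]
          exact lt_of_le_of_ne hz1 (Ne.symm hzb.2)⟩
      refine Complex.norm_le_of_forall_mem_frontier_norm_le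
        (Metric.isBounded_ball.subset sdiff_subset) hd (fun w hw => ?_) hzW
      have hwc := hcl (frontier_subset_closure hw)
      have hwn : w ∉ W := by
        rw [hWo.frontier_eq] at hw
        exact hw.2
      apply hbd
      have hw1 : ‖w‖ ≤ R := by
        have := hwc.1
        rwa [mem_closedBall_zero_iff] at this
      have hw2 : η * R ≤ ‖w‖ := by
        have := hwc.2
        rwa [mem_ball_zero_iff, not_lt] at this
      by_contra hcon
      push Not at hcon
      apply hwn
      refine ⟨by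
          rw [mem_ball_zero_iff]
          exact lt_of_le_of_ne hw1 hcon.1, by
          rw [mem_closedBall_zero_iff, not_le]
          exact lt_of_le_of_ne hw2 (Ne.symm hcon.2)⟩
  -- Step 5
  intro z hz1 hz2
  have hzp : 0 < ‖z‖ := lt_of_lt_of_le (by positivity) hz1
  have h4 : ‖v z‖ * Real.exp (-(q z).re) * (R / ‖z‖) ^ m ≤ Real.exp 1 := by
    obtain ⟨j, hj⟩ := exists_max (v z)
    have h5 := h3 j z hz1 hz2
    rw [norm_mul, norm_mul, norm_pow, norm_div, Complex.norm_real, Real.norm_of_nonneg hRp.le,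
      Complex.norm_exp, Complex.neg_re, hj] at h5
    exact h5
  have h5 : Real.exp (c4 / 2 * (R - ‖z‖)) ≤ (R / ‖z‖) ^ m := by
    have h6 : (R - ‖z‖) / R ≤ Real.log (R / ‖z‖) := by
      have h7 := Real.one_sub_inv_le_log_of_pos (show 0 < R / ‖z‖ by positivity)
      rw [inv_div] at h7
      have : (R - ‖z‖) / R = 1 - ‖z‖ / R := by field_simp
      rw [this]
      exact h7
    have h8 : (R / ‖z‖) ^ m = Real.exp (m * Real.log (R / ‖z‖)) := by
      rw [Real.exp_nat_mul, Real.exp_log (by positivity)]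
    rw [h8]
    apply Real.exp_le_exp.2
    calc c4 / 2 * (R - ‖z‖) = (c4 / 2 * R) * ((R - ‖z‖) / R) := by field_simp
      _ ≤ m * ((R - ‖z‖) / R) := by
          have : 0 ≤ (R - ‖z‖) / R := div_nonneg (by linarith) hRp.le
          gcongr
      _ ≤ m * Real.log (R / ‖z‖) := by gcongr
  have h6 : ‖v z‖ * Real.exp (-(q z).re) ≤ Real.exp 1 * Real.exp (-(c4 / 2 * (R - ‖z‖))) := by
    have h7 : ‖v z‖ * Real.exp (-(q z).re) * Real.exp (c4 / 2 * (R - ‖z‖)) ≤ Real.exp 1 :=
      (mul_le_mul_of_nonneg_left h5 (by positivity)).trans h4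
    calc ‖v z‖ * Real.exp (-(q z).re) = (‖v z‖ * Real.exp (-(q z).re) *
          Real.exp (c4 / 2 * (R - ‖z‖))) * Real.exp (-(c4 / 2 * (R - ‖z‖))) := by
          rw [mul_assoc _ (Real.exp (c4 / 2 * (R - ‖z‖))), ← Real.exp_add, add_neg_cancel,
            Real.exp_zero, mul_one]
      _ ≤ _ := by gcongr
  have h7 : ‖v z‖ ^ k * Real.exp (-(k * (q z).re)) ≤
      Real.exp k * Real.exp (-(c4 / 2 * (R - ‖z‖))) := by
    have h8 : ‖v z‖ ^ k * Real.exp (-(k * (q z).re)) = (‖v z‖ * Real.exp (-(q z).re)) ^ k := by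
      rw [mul_pow, ← Real.exp_nat_mul]
      congr 2
      ring
    rw [h8]
    refine (pow_le_pow_left₀ (by positivity) h6 k).trans ?_
    rw [mul_pow, ← Real.exp_nat_mul, ← Real.exp_nat_mul, mul_one]
    have h9 : (k : ℝ) * -(c4 / 2 * (R - ‖z‖)) ≤ -(c4 / 2 * (R - ‖z‖)) := by
      have h10 : 0 ≤ c4 / 2 * (R - ‖z‖) := mul_nonneg (by positivity) (by linarith)
      have h11 : (1 : ℝ) ≤ k := by exact_mod_cast hk
      nlinarith
    gcongr
  calc ‖l z‖ * ‖v z‖ ^ k ≤ (E0 * Real.exp k * Real.exp (-(k * (q z).re))) * ‖v z‖ ^ k := by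
        gcongr
        exact h1' z hz2
    _ = E0 * Real.exp k * (‖v z‖ ^ k * Real.exp (-(k * (q z).re))) := by ring
    _ ≤ E0 * Real.exp k * (Real.exp k * Real.exp (-(c4 / 2 * (R - ‖z‖)))) := by gcongr
    _ = E0 * Real.exp (2 * k) * Real.exp (-(c4 / 2 * (R - ‖z‖))) := by
        rw [two_mul, Real.exp_add]
        ring

end Pool.Agent.K9h84.CI
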