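import Pool.Agent.K9h84.CI.Lam
import Pool.Agent.K9h84.CI.Dec

/-!
# Behaviour near deep points

At a point far out in the strata, where two normalised curves are close on a large disc with this
point on its boundary, the curves stay close on a disc of prescribed radius about the point.
-/

set_option autoImplicit false

open Set Filter Topology Metric

namespace Pool.Agent.K9h84.CI

variable {s : ℕ}

/-- the limit of large discs seen from boundary points is a half-plane -/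
theorem half_plane {p : ℕ → ℂ} (hp : ∀ n : ℕ, (n : ℝ) < ‖p n‖) :
    ∃ ν : ℂ, ‖ν‖ = 1 ∧ Tendsto (fun n => p n / (‖p n‖ : ℂ)) UU (𝓝 ν) ∧
      ∀ z : ℂ, (z * (starRingEnd ℂ) ν).re < 0 → ∀ᶠ n in (UU : Filter ℕ), ‖p n + z‖ ≤ ‖p n‖ := by
  have hp0 : ∀ n, 0 < ‖p n‖ := fun n => lt_of_le_of_lt (Nat.cast_nonneg n) (hp n)
  have hun : ∀ n, ‖p n / (‖p n‖ : ℂ)‖ = 1 := fun n => by
    rw [norm_div, Complex.norm_real, norm_norm, div_self (hp0 n).ne']
  obtain ⟨ν, -, hν⟩ := exists_ulim (x := fun n => p n / (‖p n‖ : ℂ)) (K := 1) (fun n => (hun n).le)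
  have hν1 : ‖ν‖ = 1 := by
    have h1 := hν.norm
    simp only [hun] at h1
    exact (tendsto_nhds_unique h1 tendsto_const_nhds)
  refine ⟨ν, hν1, hν, fun z hz => ?_⟩
  have h1 : Tendsto (fun n => (z * (starRingEnd ℂ) (p n / (‖p n‖ : ℂ))).re) UU
      (𝓝 (z * (starRingEnd ℂ) ν).re) := by
    have h2 : Tendsto (fun n => (starRingEnd ℂ) (p n / (‖p n‖ : ℂ))) UU (𝓝 ((starRingEnd ℂ) ν)) :=
      (Complex.continuous_conj.tendsto ν).comp hν
    exact (Complex.continuous_re.tendsto _).comp (h2.const_mul z)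
  set s : ℝ := (z * (starRingEnd ℂ) ν).re with hs
  have h3 : ∀ᶠ n in (UU : Filter ℕ), (z * (starRingEnd ℂ) (p n / (‖p n‖ : ℂ))).re < s / 2 :=
    h1.eventually (gt_mem_nhds (by linarith))
  have h4 : ∀ᶠ n in (UU : Filter ℕ), ‖z‖ ^ 2 / (-s) < ‖p n‖ := by
    have : ∀ᶠ n : ℕ in atTop, ‖z‖ ^ 2 / (-s) ≤ n := by
      filter_upwards [eventually_ge_atTop ⌈‖z‖ ^ 2 / (-s)⌉₊] with n hn
      exact (Nat.le_ceil _).trans (by exact_mod_cast hn)
    filter_upwards [UU_le this] with n hn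
    exact lt_of_le_of_lt hn (hp n)
  filter_upwards [h3, h4] with n h5 h6
  have h7 : ‖p n + z‖ ^ 2 = ‖p n‖ ^ 2 + 2 * ‖p n‖ * (z * (starRingEnd ℂ) (p n / (‖p n‖ : ℂ))).re +
      ‖z‖ ^ 2 := by
    have h8 : (z * (starRingEnd ℂ) (p n / (‖p n‖ : ℂ))).re * ‖p n‖ =
        z.re * (p n).re + z.im * (p n).im := by
      rw [map_div₀, Complex.conj_ofReal, ← mul_div_assoc, Complex.div_ofReal_re,
        div_mul_cancel₀ _ (hp0 n).ne', Complex.mul_re, Complex.conj_re, Complex.conj_im]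
      ring
    have h9 : 2 * ‖p n‖ * (z * (starRingEnd ℂ) (p n / (‖p n‖ : ℂ))).re =
        2 * (z.re * (p n).re + z.im * (p n).im) := by
      rw [← h8]; ring
    rw [h9, ← Complex.normSq_eq_norm_sq, ← Complex.normSq_eq_norm_sq, ← Complex.normSq_eq_norm_sq,
      Complex.normSq_apply, Complex.normSq_apply, Complex.normSq_apply, Complex.add_re,
      Complex.add_im]
    ring
  have hsn : 0 < -s := by linarith
  rw [div_lt_iff₀ hsn] at h6
  apply le_of_sq_le_sq _ (norm_nonneg _)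
  rw [h7]
  nlinarith [hp0 n]

theorem exp_bdd {m M W r : ℝ} (hm : 0 < m)
    (h : ∀ s : ℝ, 0 < s → m ≤ Real.exp (s * r) * W ∧ Real.exp (s * r) * W ≤ M) : r = 0 := by
  have hW : 0 < W := by
    have h1 := (h 1 one_pos).1
    by_contra hcon
    push Not at hcon
    have := mul_nonpos_of_nonneg_of_nonpos (Real.exp_pos (1 * r)).le hcon
    linarith
  rcases lt_trichotomy r 0 with hr | hr | hr
  · exfalso
    have hs : 0 < W / (m * (-r)) := div_pos hW (mul_pos hm (by linarith))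
    have h1 := (h _ hs).1
    have h2 : Real.exp (W / (m * (-r)) * r) * (1 + W / m) ≤ 1 := by
      have h3 : W / (m * (-r)) * r = -(W / m) := by
        have : r ≠ 0 := hr.ne
        field_simp
      rw [h3]
      have h4 := Real.add_one_le_exp (W / m)
      calc Real.exp (-(W / m)) * (1 + W / m) ≤ Real.exp (-(W / m)) * Real.exp (W / m) := by
            gcongr
            linarith
        _ = 1 := by rw [← Real.exp_add, neg_add_cancel, Real.exp_zero]
    have h5 : m * (1 + W / m) ≤ W := by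
      calc m * (1 + W / m) ≤ (Real.exp (W / (m * (-r)) * r) * W) * (1 + W / m) := by gcongr
        _ = (Real.exp (W / (m * (-r)) * r) * (1 + W / m)) * W := by ring
        _ ≤ 1 * W := by gcongr
        _ = W := one_mul W
    have h6 : m * (1 + W / m) = m + W := by field_simp
    linarith
  · exact hr
  · exfalso
    have hM : 0 < M := lt_of_lt_of_le hm ((h 1 one_pos).1.trans (h 1 one_pos).2)
    have hs : 0 < M / W / r := by positivity
    have h1 := (h _ hs).2
    have h3 : M / W / r * r = M / W := by field_simp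
    rw [h3] at h1
    have h4 := Real.add_one_le_exp (M / W)
    have h5 : (M / W + 1) * W ≤ M := (mul_le_mul_of_nonneg_right h4 hW.le).trans h1
    have h6 : (M / W + 1) * W = M + W := by field_simp
    linarith

/-- two exponential curves close on a half-plane have the same exponent -/
theorem exp_rigid {ν : ℂ} (hν : ‖ν‖ = 1) {V0 W0 : VV s} {a a' : ℂ} {δ : ℝ} (hV0 : V0 ≠ 0)
    (hδ : δ < 1)
    (h : ∀ z : ℂ, (z * (starRingEnd ℂ) ν).re < 0 →
      ‖Complex.exp (a' * z) • W0 - Complex.exp (a * z) • V0‖ ≤ δ * ‖Complex.exp (a * z) • V0‖) :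
    a' = a := by
  have hVp : 0 < ‖V0‖ := norm_pos_iff.2 hV0
  have h1 : ∀ z : ℂ, (z * (starRingEnd ℂ) ν).re < 0 →
      (1 - δ) * ‖V0‖ ≤ Real.exp (((a' - a) * z).re) * ‖W0‖ ∧
      Real.exp (((a' - a) * z).re) * ‖W0‖ ≤ (1 + δ) * ‖V0‖ := by
    intro z hz
    have h2 := h z hz
    have h3 : Complex.exp (a' * z) • W0 - Complex.exp (a * z) • V0 =
        Complex.exp (a * z) • (Complex.exp ((a' - a) * z) • W0 - V0) := by
      rw [smul_sub, smul_smul, ← Complex.exp_add]
      congr 3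
      ring
    rw [h3, norm_smul, norm_smul] at h2
    have hep : 0 < ‖Complex.exp (a * z)‖ := norm_pos_iff.2 (Complex.exp_ne_zero _)
    have h4 : ‖Complex.exp ((a' - a) * z) • W0 - V0‖ ≤ δ * ‖V0‖ := by
      have h5 : ‖Complex.exp (a * z)‖ * ‖Complex.exp ((a' - a) * z) • W0 - V0‖ ≤
          ‖Complex.exp (a * z)‖ * (δ * ‖V0‖) := by linarith
      exact le_of_mul_le_mul_left h5 hep
    have h6 : ‖Complex.exp ((a' - a) * z) • W0‖ = Real.exp (((a' - a) * z).re) * ‖W0‖ := by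
      rw [norm_smul, Complex.norm_exp]
    rw [← h6]
    have h7 := norm_sub_norm_le (Complex.exp ((a' - a) * z) • W0) V0
    have h8 := norm_sub_norm_le V0 (Complex.exp ((a' - a) * z) • W0)
    rw [norm_sub_rev] at h8
    constructor
    · linarith
    · linarith
  have hdir : ∀ u : ℂ, (u * (starRingEnd ℂ) ν).re < 0 → ((a' - a) * u).re = 0 := by
    intro u hu
    refine exp_bdd (m := (1 - δ) * ‖V0‖) (M := (1 + δ) * ‖V0‖) (W := ‖W0‖)
      (mul_pos (by linarith) hVp) fun s hs => ?_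
    have h2 := h1 (s * u) (by
      rw [mul_assoc, Complex.re_ofReal_mul]
      exact mul_neg_of_pos_of_neg hs hu)
    have h3 : ((a' - a) * (s * u)).re = s * ((a' - a) * u).re := by
      rw [← Complex.re_ofReal_mul]
      congr 1
      ring
    rw [h3] at h2
    exact h2
  have hνν : ν * (starRingEnd ℂ) ν = 1 := by
    rw [Complex.mul_conj, Complex.normSq_eq_norm_sq, hν]
    norm_num
  have e1 : ((a' - a) * (-ν)).re = 0 := by
    apply hdir
    rw [neg_mul, hνν]
    norm_num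
  have e2 : ((a' - a) * (-ν + Complex.I * ν)).re = 0 := by
    apply hdir
    rw [add_mul, neg_mul, mul_assoc, hνν]
    norm_num
  have e3 : (a' - a) * ν = 0 := by
    apply Complex.ext
    · rw [mul_neg, Complex.neg_re] at e1
      rw [Complex.zero_re]
      linarith
    · have h4 : (a' - a) * (-ν + Complex.I * ν) = -((a' - a) * ν) + Complex.I * ((a' - a) * ν) := by
        ring
      rw [h4, Complex.add_re, Complex.neg_re, Complex.I_mul_re] at e2
      rw [mul_neg, Complex.neg_re] at e1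
      rw [Complex.zero_im]
      linarith
  have hν0 : ν ≠ 0 := by
    intro h0
    rw [h0, norm_zero] at hν
    exact zero_ne_one hν
  exact sub_eq_zero.1 ((mul_eq_zero.1 e3).resolve_right hν0)

namespace Pair

variable (D : Pair s)

/-- scaled translate of a normalised curve -/
theorem scaled {B : ℝ} {v : ℂ → VV s} (hv : D.Cv B 0 v) (s p : ℂ) :
    Differentiable ℂ (fun z => s • v (p + z)) ∧
    (∀ z, deriv (fun z => s • v (p + z)) z = s • deriv v (p + z)) ∧
    (∀ z, D.p (s • v (p + z)) = s ^ D.a) ∧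
    (∀ z, D.q (s • v (p + z)) = (s ^ D.b * Complex.exp p) * Complex.exp z) := by
  refine ⟨?_, fun z => ?_, fun z => ?_, fun z => ?_⟩
  · have : Differentiable ℂ (fun z => v (p + z)) := hv.dif.comp (by fun_prop)
    exact this.const_smul s
  · have h1 : HasDerivAt (fun z => v (p + z)) (deriv v (p + z)) z := by
      have h2 : HasDerivAt (fun z : ℂ => p + z) 1 z := (hasDerivAt_id z).const_add p
      have h3 := (hv.dif (p + z)).hasDerivAt.scomp z h2
      rwa [one_smul] at h3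
    exact (h1.const_smul s).deriv
  · rw [D.p_smul, hv.hp, mul_one]
  · rw [D.q_smul, hv.hq, add_zero, Complex.exp_add]
    ring

/-- **deep points**: closeness persists on a disc of prescribed radius -/
theorem deep_close (hk : 1 ≤ D.k) {B δ : ℝ} (hB : 0 ≤ B) (hδ : 0 < δ) (hδ4 : δ ≤ 1 / 4)
    {t : ℝ} (_ht : 0 < t) : ∃ K0 : ℝ, 0 < K0 ∧ ∀ v w : ℂ → VV s, D.Cv B 0 v → D.Cv B 0 w →
    ∀ p : ℂ, K0 < ‖p‖ → (K0 < ‖v p‖ ∨ K0 * Real.exp (p.re / D.b) < ‖v p‖) →
    (∀ z, ‖z‖ ≤ ‖p‖ → ‖w z - v z‖ ≤ δ * ‖v z‖) → ‖w p - v p‖ = δ * ‖v p‖ →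
    (∃ j : Fin (s + 3), ∀ z, ‖z‖ ≤ t → ‖v (p + z)‖ ≤ 2 * ‖v (p + z) j‖) ∧
    ∀ z, ‖z‖ ≤ t → ‖w (p + z) - v (p + z)‖ < 2 * δ * ‖v (p + z)‖ := by
  obtain ⟨C, hC, hld⟩ := D.ld hB
  obtain ⟨c1, hc1, hlow⟩ := D.cv_low
  obtain ⟨Cq, hCq, hqle⟩ := D.q_le
  by_contra hcon
  push Not at hcon
  have h1 : ∀ n : ℕ, ∃ (v w : ℂ → VV s) (p : ℂ), D.Cv B 0 v ∧ D.Cv B 0 w ∧ ((n : ℝ) + 1) < ‖p‖ ∧
      (((n : ℝ) + 1) < ‖v p‖ ∨ ((n : ℝ) + 1) * Real.exp (p.re / D.b) < ‖v p‖) ∧
      (∀ z, ‖z‖ ≤ ‖p‖ → ‖w z - v z‖ ≤ δ * ‖v z‖) ∧ ‖w p - v p‖ = δ * ‖v p‖ ∧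
      ((∃ j : Fin (s + 3), ∀ z, ‖z‖ ≤ t → ‖v (p + z)‖ ≤ 2 * ‖v (p + z) j‖) →
        ∃ z, ‖z‖ ≤ t ∧ 2 * δ * ‖v (p + z)‖ ≤ ‖w (p + z) - v (p + z)‖) := by
    intro n
    obtain ⟨v, w, hv, hw, p, h2, h3, h4, h5, h6⟩ := hcon ((n : ℝ) + 1) (by positivity)
    exact ⟨v, w, p, hv, hw, h2, h3, h4, h5, h6⟩
  choose v w p hv hw hpn hdeep hclose heq hbad using h1
  have hvp : ∀ n z, 0 < ‖v n z‖ := fun n z => (hv n).pos z
  set s : ℕ → ℂ := fun n => ((‖v n (p n)‖⁻¹ : ℝ) : ℂ) with hs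
  have hsn : ∀ n, ‖s n‖ = ‖v n (p n)‖⁻¹ := fun n => by
    rw [hs]
    simp only
    rw [Complex.norm_real, Real.norm_of_nonneg (inv_nonneg.2 (norm_nonneg _))]
  have hsp : ∀ n, 0 < ‖s n‖ := fun n => by
    rw [hsn]
    exact inv_pos.2 (hvp n _)
  have hs0 : ∀ n, s n ≠ 0 := fun n => norm_pos_iff.1 (hsp n)
  have scV := fun n => D.scaled (hv n) (s n) (p n)
  have scW := fun n => D.scaled (hw n) (s n) (p n)
  have hldV : ∀ n z, ‖deriv (fun z => s n • v n (p n + z)) z‖ ≤ C * ‖s n • v n (p n + z)‖ := by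
    intro n z
    rw [(scV n).2.1 z, norm_smul, norm_smul]
    have := hld 0 (v n) (hv n) (p n + z)
    nlinarith [hsp n]
  have hldW : ∀ n z, ‖deriv (fun z => s n • w n (p n + z)) z‖ ≤ C * ‖s n • w n (p n + z)‖ := by
    intro n z
    rw [(scW n).2.1 z, norm_smul, norm_smul]
    have := hld 0 (w n) (hw n) (p n + z)
    nlinarith [hsp n]
  have hV0 : ∀ n, ‖s n • v n (p n + 0)‖ = 1 := fun n => by
    rw [add_zero, norm_smul, hsn, inv_mul_cancel₀ (hvp n _).ne']
  have hWV : ∀ n z, ‖p n + z‖ ≤ ‖p n‖ →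
      ‖s n • w n (p n + z) - s n • v n (p n + z)‖ ≤ δ * ‖s n • v n (p n + z)‖ := by
    intro n z hz
    rw [← smul_sub, norm_smul, norm_smul]
    have := hclose n (p n + z) hz
    nlinarith [hsp n]
  have hWV0 : ∀ n, ‖s n • w n (p n + 0) - s n • v n (p n + 0)‖ = δ := by
    intro n
    rw [← smul_sub, norm_smul, add_zero, heq n, hsn]
    have := (hvp n (p n)).ne'
    field_simp
  have hW0 : ∀ n, ‖s n • w n (p n + 0)‖ ≤ 2 := fun n => by
    have h2 := norm_le_norm_add_norm_sub' (s n • w n (p n + 0)) (s n • v n (p n + 0))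
    rw [hV0, hWV0] at h2
    linarith
  obtain ⟨V, hVd, hVu, hVt, -, hVld⟩ := exists_lim hC.le (fun n => (scV n).1) hldV
    (fun n => (hV0 n).le)
  obtain ⟨W, hWd, hWu, hWt, -, hWld⟩ := exists_lim hC.le (fun n => (scW n).1) hldW hW0
  -- the limit equations
  obtain ⟨s', -, hs'⟩ := exists_ulim (x := s) (K := c1⁻¹) (fun n => by
    rw [hsn]
    exact inv_anti₀ hc1 (hlow B 0 (v n) (hv n) (p n)).1)
  have hβb : ∀ n, ‖s n ^ D.b * Complex.exp (p n)‖ ≤ Cq := by
    intro n
    have h2 := (scV n).2.2.2 0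
    rw [Complex.exp_zero, mul_one] at h2
    rw [← h2]
    have h3 := hqle (s n • v n (p n + 0))
    rwa [hV0, one_pow, mul_one] at h3
  obtain ⟨β, -, hβ⟩ := exists_ulim (x := fun n => s n ^ D.b * Complex.exp (p n)) hβb
  have hpV : ∀ z, D.p (V z) = s' ^ D.a := by
    intro z
    have h2 : Tendsto (fun n => D.p (s n • v n (p n + z))) UU (𝓝 (D.p (V z))) :=
      (D.p_cont.tendsto _).comp (hVt z)
    simp only [fun n => (scV n).2.2.1 z] at h2
    exact tendsto_nhds_unique h2 (hs'.pow _)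
  have hpW : ∀ z, D.p (W z) = s' ^ D.a := by
    intro z
    have h2 : Tendsto (fun n => D.p (s n • w n (p n + z))) UU (𝓝 (D.p (W z))) :=
      (D.p_cont.tendsto _).comp (hWt z)
    simp only [fun n => (scW n).2.2.1 z] at h2
    exact tendsto_nhds_unique h2 (hs'.pow _)
  have hqV : ∀ z, D.q (V z) = β * Complex.exp z := by
    intro z
    have h2 : Tendsto (fun n => D.q (s n • v n (p n + z))) UU (𝓝 (D.q (V z))) :=
      (D.q_cont.tendsto _).comp (hVt z)
    simp only [fun n => (scV n).2.2.2 z] at h2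
    exact tendsto_nhds_unique h2 (hβ.mul_const _)
  have hqW : ∀ z, D.q (W z) = β * Complex.exp z := by
    intro z
    have h2 : Tendsto (fun n => D.q (s n • w n (p n + z))) UU (𝓝 (D.q (W z))) :=
      (D.q_cont.tendsto _).comp (hWt z)
    simp only [fun n => (scW n).2.2.2 z] at h2
    exact tendsto_nhds_unique h2 (hβ.mul_const _)
  have hinv : Tendsto (fun n : ℕ => ((n : ℝ) + 1)⁻¹) UU (𝓝 0) :=
    (tendsto_inv_atTop_zero.comp (tendsto_natCast_atTop_atTop.atTop_add tendsto_const_nhds)).mono_left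
      UU_le
  have hαβ : s' ^ D.a * β = 0 := by
    have hor : (∀ᶠ n : ℕ in (UU : Filter ℕ), ((n : ℝ) + 1) < ‖v n (p n)‖) ∨
        (∀ᶠ n : ℕ in (UU : Filter ℕ), ((n : ℝ) + 1) * Real.exp ((p n).re / D.b) < ‖v n (p n)‖) := by
      rw [← Ultrafilter.eventually_or]
      exact Eventually.of_forall hdeep
    rcases hor with h | h
    · have h2 : Tendsto (fun n => ‖s n‖) UU (𝓝 0) := by
        refine squeeze_zero' (Eventually.of_forall fun n => norm_nonneg _) ?_ hinv
        filter_upwards [h] with n hn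
        rw [hsn]
        exact inv_anti₀ (by positivity) hn.le
      have h3 : s' = 0 := by
        have := tendsto_nhds_unique hs' (tendsto_zero_iff_norm_tendsto_zero.2 h2)
        exact this
      rw [h3, zero_pow (by have := D.ha; omega), zero_mul]
    · have h2 : Tendsto (fun n => ‖s n ^ D.b * Complex.exp (p n)‖) UU (𝓝 0) := by
        have h3 : Tendsto (fun n : ℕ => (((n : ℝ) + 1)⁻¹) ^ D.b) UU (𝓝 0) := by
          have := hinv.pow D.b
          rwa [zero_pow (by have := D.hb; omega)] at this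
        refine squeeze_zero' (Eventually.of_forall fun n => norm_nonneg _) ?_ h3
        filter_upwards [h] with n hn
        rw [norm_mul, norm_pow, Complex.norm_exp, hsn]
        have hb0 : (D.b : ℝ) ≠ 0 := by
          have := D.hb
          exact_mod_cast (by omega : D.b ≠ 0)
        have h4 : Real.exp (p n).re = (Real.exp ((p n).re / D.b)) ^ D.b := by
          rw [← Real.exp_nat_mul]
          congr 1
          field_simp
        rw [h4, ← mul_pow]
        refine pow_le_pow_left₀ (by positivity) ?_ _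
        rw [inv_mul_le_iff₀ (hvp n _), ← div_eq_mul_inv, le_div_iff₀ (by positivity)]
        linarith
      have h3 : β = 0 := tendsto_nhds_unique hβ (tendsto_zero_iff_norm_tendsto_zero.2 h2)
      rw [h3, mul_zero]
  -- nonvanishing of the limits
  have hV1 : ‖V 0‖ = 1 := by
    have h2 := (hVt 0).norm
    simp only [hV0] at h2
    exact (tendsto_nhds_unique h2 tendsto_const_nhds)
  have hWV1 : ‖W 0 - V 0‖ = δ := by
    have h2 := ((hWt 0).sub (hVt 0)).norm
    simp only [hWV0] at h2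
    exact (tendsto_nhds_unique h2 tendsto_const_nhds)
  have hVne : ∀ z, V z ≠ 0 := by
    intro z h
    have h2 := gronwall hVd hVld 0 z
    rw [h, norm_zero, zero_mul, hV1] at h2
    linarith
  have hW1 : 0 < ‖W 0‖ := by
    have h2 := norm_le_norm_add_norm_sub' (V 0) (W 0)
    rw [hV1, norm_sub_rev, hWV1] at h2
    linarith
  have hWne : ∀ z, W z ≠ 0 := by
    intro z h
    have h2 := gronwall hWd hWld 0 z
    rw [h, norm_zero, zero_mul] at h2
    linarith
  have honV : ∀ z, D.on (V z) := D.on_lim (fun n z => D.on_smul ((hv n).on _)) hVt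
  have honW : ∀ z, D.on (W z) := D.on_lim (fun n z => D.on_smul ((hw n).on _)) hWt
  obtain ⟨a, ha, -, -⟩ := D.degen hk hVd hVne hVld hαβ hpV hqV honV
  obtain ⟨a', ha', -, -⟩ := D.degen hk hWd hWne hWld hαβ hpW hqW honW
  obtain ⟨ν, hν, -, hhp⟩ := half_plane (p := p) (fun n => by
    have := hpn n
    linarith)
  have hlim : ∀ z : ℂ, (z * (starRingEnd ℂ) ν).re < 0 → ‖W z - V z‖ ≤ δ * ‖V z‖ := by
    intro z hz
    refine le_of_tendsto_of_tendsto ((hWt z).sub (hVt z)).norm ((hVt z).norm.const_mul δ) ?_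
    filter_upwards [hhp z hz] with n hn
    exact hWV n z hn
  have haa : a' = a := by
    refine exp_rigid (V0 := V 0) (W0 := W 0) (δ := δ) hν (hVne 0) (by linarith) fun z hz => ?_
    rw [← ha, ← ha']
    exact hlim z hz
  have hWVz : ∀ z, ‖W z - V z‖ = δ * ‖V z‖ := by
    intro z
    rw [ha z, ha' z, haa, ← smul_sub, norm_smul, norm_smul, hWV1, hV1]
    ring
  -- conclusion
  set m : ℝ := Real.exp (-(C * t)) with hm
  have hmp : 0 < m := Real.exp_pos _
  have hVlow : ∀ z, ‖z‖ ≤ t → m ≤ ‖V z‖ := by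
    intro z hz
    have h2 := gronwall hVd hVld 0 z
    rw [hV1, dist_comm, dist_zero_right] at h2
    have h3 : Real.exp (C * ‖z‖) ≤ Real.exp (C * t) := by gcongr
    have h4 : 1 ≤ ‖V z‖ * Real.exp (C * t) :=
      h2.trans (mul_le_mul_of_nonneg_left h3 (norm_nonneg _))
    calc m = 1 * m := (one_mul m).symm
      _ ≤ (‖V z‖ * Real.exp (C * t)) * m := by gcongr
      _ = ‖V z‖ := by
          rw [mul_assoc, hm, ← Real.exp_add, add_neg_cancel, Real.exp_zero, mul_one]
  set e : ℝ := δ * m / 8 with he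
  have hep : 0 < e := by positivity
  have he1 : e ≤ m / 32 := by
    rw [he]
    nlinarith
  obtain ⟨j, hj⟩ := exists_max (V 0)
  have hVj : ∀ z, ‖V z j‖ = ‖V z‖ := by
    intro z
    rw [ha z, Pi.smul_apply, smul_eq_mul, norm_mul, norm_smul, hj]
  have hev := (hVu t e hep).and (hWu t e hep)
  obtain ⟨n, hn1, hn2⟩ := hev.exists
  have hj2 : ∀ z, ‖z‖ ≤ t → ‖v n (p n + z)‖ ≤ 2 * ‖v n (p n + z) j‖ := by
    intro z hz
    have hzb : z ∈ closedBall (0 : ℂ) t := mem_closedBall_zero_iff.2 hz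
    have h2 := hn1 z hzb
    have h3 := hVlow z hz
    have h4 : ‖s n • v n (p n + z)‖ ≤ ‖V z‖ + e := by
      have := norm_le_norm_add_norm_sub' (s n • v n (p n + z)) (V z)
      linarith
    have h5 : ‖V z‖ - e ≤ ‖(s n • v n (p n + z)) j‖ := by
      have h6 : ‖(s n • v n (p n + z) - V z) j‖ ≤ e := (le3 _ j).trans h2.le
      rw [Pi.sub_apply] at h6
      have h7 := norm_le_norm_add_norm_sub' (V z j) ((s n • v n (p n + z)) j)
      rw [norm_sub_rev, hVj] at h7
      linarith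
    rw [Pi.smul_apply, norm_smul] at h5
    rw [norm_smul] at h4
    have h8 : ‖s n‖ * ‖v n (p n + z)‖ ≤ ‖s n‖ * (2 * ‖v n (p n + z) j‖) := by linarith
    exact le_of_mul_le_mul_left h8 (hsp n)
  obtain ⟨z, hz, hzbad⟩ := hbad n ⟨j, hj2⟩
  have hzb : z ∈ closedBall (0 : ℂ) t := mem_closedBall_zero_iff.2 hz
  have h2 := hn1 z hzb
  have h3 := hn2 z hzb
  have h4 := hVlow z hz
  have h5 : ‖s n • w n (p n + z) - s n • v n (p n + z)‖ ≤ δ * ‖V z‖ + 2 * e := by
    have h6 : s n • w n (p n + z) - s n • v n (p n + z) = (s n • w n (p n + z) - W z) +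
        (W z - V z) - (s n • v n (p n + z) - V z) := by abel
    rw [h6]
    have h7 := norm_sub_le ((s n • w n (p n + z) - W z) + (W z - V z)) (s n • v n (p n + z) - V z)
    have h8 := norm_add_le (s n • w n (p n + z) - W z) (W z - V z)
    rw [hWVz] at h8
    linarith
  have h6 : ‖V z‖ - e ≤ ‖s n • v n (p n + z)‖ := by
    have h7 := norm_le_norm_add_norm_sub' (V z) (s n • v n (p n + z))
    rw [norm_sub_rev] at h7
    linarith
  have h7 : 2 * δ * ‖s n • v n (p n + z)‖ ≤ ‖s n • w n (p n + z) - s n • v n (p n + z)‖ := by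
    rw [← smul_sub, norm_smul, norm_smul]
    nlinarith [hsp n]
  have h8 : 2 * δ * (‖V z‖ - e) ≤ δ * ‖V z‖ + 2 * e := by
    have := mul_le_mul_of_nonneg_left h6 (show 0 ≤ 2 * δ by positivity)
    linarith
  have h9 : δ * ‖V z‖ ≤ 2 * e + 2 * δ * e := by linarith
  have h10 : δ * m ≤ δ * ‖V z‖ := mul_le_mul_of_nonneg_left h4 hδ.le
  nlinarith

end Pair

end Pool.Agent.K9h84.CI
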