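import Pool.Agent.K9h84.CI.Fin
import Pool.Agent.H552R3.Tsen.Zero

/-!
# Definitions used in the statements

Smooth complete intersection surfaces in projective space with two smooth transversal sections, entire
curves in their complement, and curves of bounded speed. A map into projective space is represented
by a lift `f : ℂ → (Fin (s + 3) → ℂ)`.
-/

set_option autoImplicit false

open Set Filter Topology Metric

namespace Pool.Agent.K9h84.CI

/-- the gradient of a polynomial at a point -/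
noncomputable def grad {n : ℕ} (P : MvPolynomial (Fin n) ℂ) (x : Fin n → ℂ) : Fin n → ℂ :=
  fun i => MvPolynomial.eval x (MvPolynomial.pderiv i P)

/-- the gradients of the forms `F i` are linearly independent at each nonzero common zero: the
hypersurfaces `F i = 0` of projective space meet transversally and their intersection is a smooth
complete intersection (or empty) -/
def SmoothCI {n m : ℕ} (F : Fin m → MvPolynomial (Fin n) ℂ) : Prop :=
  ∀ x : Fin n → ℂ, x ≠ 0 → (∀ i, MvPolynomial.eval x (F i) = 0) →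
    LinearIndependent ℂ (fun i => grad (F i) x)

variable {s : ℕ}

/-- `S : R 0 = ... = R (s - 1) = 0` is a smooth complete intersection surface in the projective
space of dimension `s + 2`, and the hypersurfaces `P = 0`, `Q = 0` of degrees `a`, `b` cut out smooth
curves in `S` which meet transversally -/
structure SmoothPair (R : Fin s → MvPolynomial (Fin (s + 3)) ℂ) (P Q : MvPolynomial (Fin (s + 3)) ℂ)
    (d : Fin s → ℕ) (a b : ℕ) : Prop where
  homR : ∀ i, (R i).IsHomogeneous (d i)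
  posR : ∀ i, 1 ≤ d i
  homP : P.IsHomogeneous a
  homQ : Q.IsHomogeneous b
  smooth : SmoothCI R
  smoothP : SmoothCI (Fin.cons (α := fun _ => MvPolynomial (Fin (s + 3)) ℂ) P R)
  smoothQ : SmoothCI (Fin.cons (α := fun _ => MvPolynomial (Fin (s + 3)) ℂ) Q R)
  transversal : SmoothCI (Fin.cons (α := fun _ => MvPolynomial (Fin (s + 3)) ℂ) P
    (Fin.cons (α := fun _ => MvPolynomial (Fin (s + 3)) ℂ) Q R))

/-- `f` is a lift of an entire curve in the surface `R i = 0` outside the curves `P = 0` and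
`Q = 0` -/
structure CurveIn (R : Fin s → MvPolynomial (Fin (s + 3)) ℂ) (P Q : MvPolynomial (Fin (s + 3)) ℂ)
    (f : ℂ → Fin (s + 3) → ℂ) : Prop where
  entire : Differentiable ℂ f
  on : ∀ z i, MvPolynomial.eval (f z) (R i) = 0
  offP : ∀ z, MvPolynomial.eval (f z) P ≠ 0
  offQ : ∀ z, MvPolynomial.eval (f z) Q ≠ 0

/-- the map to projective space with lift `f` has bounded speed (is a Brody curve) -/
def BoundedSpeed {n : ℕ} (f : ℂ → Fin n → ℂ) : Prop :=
  ∃ B : ℝ, ∀ z i j, ‖f z i * deriv f z j - f z j * deriv f z i‖ ≤ B * ‖f z‖ ^ 2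

/-- the map to projective space with lift `f` is not constant -/
def Nonconst {n : ℕ} (f : ℂ → Fin n → ℂ) : Prop := ∃ z w i j, f z i * f w j ≠ f z j * f w i

theorem BoundedSpeed.bro {f : ℂ → Fin (s + 3) → ℂ} (h : BoundedSpeed f) : ∃ B, Bro B f := by
  obtain ⟨B, hB⟩ := h
  refine ⟨B, fun z => ?_⟩
  have h0 : 0 ≤ B * ‖f z‖ ^ 2 := (norm_nonneg _).trans (hB z 0 0)
  exact norm_cr_le_of h0 fun i j => hB z i j

theorem Nonconst.cr {f : ℂ → Fin (s + 3) → ℂ} (h : Nonconst f) : ∃ z w, cr (f z) (f w) ≠ 0 := by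
  obtain ⟨z, w, i, j, h⟩ := h
  refine ⟨z, w, fun h0 => h ?_⟩
  have h1 := cross_comp (f z) (f w) i j
  rw [h0, norm_zero] at h1
  exact sub_eq_zero.1 (norm_le_zero_iff.1 h1)

theorem cons_zero_iff {m : ℕ} {R : Fin m → PP s} {P : PP s} {x : VV s} :
    (∀ i, MvPolynomial.eval x ((Fin.cons (α := fun _ => PP s) P R : Fin (m + 1) → PP s) i) = 0) ↔
      MvPolynomial.eval x P = 0 ∧ ∀ i, MvPolynomial.eval x (R i) = 0 := by
  constructor
  · intro h
    exact ⟨h 0, fun i => h i.succ⟩
  · rintro ⟨h1, h2⟩ i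
    refine Fin.cases ?_ (fun i => ?_) i
    · exact h1
    · exact h2 i

theorem grad_cons {m : ℕ} (R : Fin m → PP s) (P : PP s) (x : VV s) :
    (fun i => grad ((Fin.cons (α := fun _ => PP s) P R : Fin (m + 1) → PP s) i) x) =
      Fin.cons (α := fun _ => VV s) (gr P x) (fun i => gr (R i) x) := by
  funext i
  refine Fin.cases ?_ (fun i => ?_) i
  · rfl
  · rfl

theorem hom_zero {n d : ℕ} {P : MvPolynomial (Fin n) ℂ} (hP : P.IsHomogeneous d) (hd : 1 ≤ d) :
    MvPolynomial.eval 0 P = 0 := by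
  rw [MvPolynomial.eval_zero]
  rw [MvPolynomial.constantCoeff_eq]
  refine hP.coeff_eq_zero ?_
  rw [map_zero]
  omega

/-- near a transversal intersection point of the two curves there is a point of the first curve
outside the second curve -/
theorem cross_pt {R : Fin s → PP s} {P Q : PP s} {d : Fin s → ℕ} {a b : ℕ}
    (hR : ∀ i, (R i).IsHomogeneous (d i)) (hP : P.IsHomogeneous a) (hQ : Q.IsHomogeneous b)
    {x0 : VV s} (hx0 : x0 ≠ 0) (hR0 : ∀ i, MvPolynomial.eval x0 (R i) = 0)
    (hP0 : MvPolynomial.eval x0 P = 0) (hQ0 : MvPolynomial.eval x0 Q = 0)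
    (hli : LinearIndependent ℂ (Fin.cons (α := fun _ => VV s) (gr P x0)
      (Fin.cons (α := fun _ => VV s) (gr Q x0) (fun i => gr (R i) x0) : Fin (s + 1) → VV s) :
        Fin (s + 2) → VV s)) :
    ∃ x : VV s, x ≠ 0 ∧ (∀ i, MvPolynomial.eval x (R i) = 0) ∧ MvPolynomial.eval x P = 0 ∧
      MvPolynomial.eval x Q ≠ 0 := by
  obtain ⟨l0, h0⟩ := exists_ext (by omega) hli
  set A : Fin (s + 3) → VV s := Fin.cons (α := fun _ => VV s) l0 (Fin.cons (α := fun _ => VV s)
    (gr P x0) (Fin.cons (α := fun _ => VV s) (gr Q x0) (fun i => gr (R i) x0))) with hA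
  set Φ : VV s → VV s := fun x => Fin.cons (α := fun _ => ℂ) (dt l0 x)
    (Fin.cons (α := fun _ => ℂ) (MvPolynomial.eval x P) (Fin.cons (α := fun _ => ℂ)
      (MvPolynomial.eval x Q) (fun i => MvPolynomial.eval x (R i)))) with hΦ
  have hstr : HasStrictFDerivAt Φ (lin A) x0 := by
    rw [hasStrictFDerivAt_pi']
    intro i
    refine Fin.cases ?_ (fun i => ?_) i
    · exact (dtL l0).hasStrictFDerivAt
    · refine Fin.cases ?_ (fun i => ?_) i
      · exact ev_strict hP x0
      · refine Fin.cases ?_ (fun i => ?_) i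
        · exact ev_strict hQ x0
        · exact ev_strict (hR i) x0
  have hmap := hstr.map_nhds_eq_of_surj (lin_surj h0)
  have hU : {x : VV s | x ≠ 0} ∈ 𝓝 x0 := isOpen_ne.mem_nhds hx0
  have h3 : Φ '' {x : VV s | x ≠ 0} ∈ 𝓝 (Φ x0) := by
    rw [← hmap]
    exact image_mem_map hU
  set J : ℂ → VV s := fun y => Fin.cons (α := fun _ => ℂ) (dt l0 x0)
    (Fin.cons (α := fun _ => ℂ) 0 (Fin.cons (α := fun _ => ℂ) y (fun _ => 0))) with hJ
  have hJc : Continuous J := by
    rw [continuous_pi_iff]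
    intro i
    refine Fin.cases ?_ (fun i => ?_) i
    · exact continuous_const
    · refine Fin.cases ?_ (fun i => ?_) i
      · exact continuous_const
      · refine Fin.cases ?_ (fun i => ?_) i
        · exact continuous_id
        · exact continuous_const
  have hJ0 : J 0 = Φ x0 := by
    rw [hJ, hΦ]
    simp only
    rw [hP0, hQ0]
    have : (fun i => MvPolynomial.eval x0 (R i)) = fun _ => 0 := funext hR0
    rw [this]
  have h4 : J ⁻¹' (Φ '' {x : VV s | x ≠ 0}) ∈ 𝓝 (0 : ℂ) :=
    hJc.continuousAt.preimage_mem_nhds (by rw [hJ0]; exact h3)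
  obtain ⟨y, hy, hy0⟩ := (infinite_of_mem_nhds (0 : ℂ) h4).exists_notMem_finset {0}
  obtain ⟨x, hx, hxy⟩ := hy
  refine ⟨x, hx, fun i => congrFun hxy i.succ.succ.succ, congrFun hxy 1, ?_⟩
  have h5 : MvPolynomial.eval x Q = y := congrFun hxy 2
  rw [h5]
  intro h6
  exact hy0 (by rw [h6]; simp)

/-- the surface is not empty -/
theorem SmoothPair.nonempty {R : Fin s → PP s} {P Q : PP s} {d : Fin s → ℕ} {a b : ℕ}
    (h : SmoothPair R P Q d a b) : ∃ x : VV s, x ≠ 0 ∧ ∀ i, MvPolynomial.eval x (R i) = 0 :=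
  Pool.Agent.H552R3.Tsen.exists_common_zero R (fun i => hom_zero (h.homR i) (h.posR i)) (by
    rw [Fintype.card_fin, Fintype.card_fin]
    omega)

/-- the curve cut out by the first form is not empty -/
theorem SmoothPair.nonemptyP {R : Fin s → PP s} {P Q : PP s} {d : Fin s → ℕ} {a b : ℕ}
    (h : SmoothPair R P Q d a b) (ha : 1 ≤ a) : ∃ x : VV s, x ≠ 0 ∧
      (∀ i, MvPolynomial.eval x (R i) = 0) ∧ MvPolynomial.eval x P = 0 := by
  obtain ⟨x, hx, h0⟩ := Pool.Agent.H552R3.Tsen.exists_common_zero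
    (Fin.cons (α := fun _ => PP s) P R : Fin (s + 1) → PP s) (fun i => by
      refine Fin.cases ?_ (fun i => ?_) i
      · exact hom_zero h.homP ha
      · exact hom_zero (h.homR i) (h.posR i)) (by
      rw [Fintype.card_fin, Fintype.card_fin]
      omega)
  obtain ⟨h1, h2⟩ := cons_zero_iff.1 h0
  exact ⟨x, hx, h2, h1⟩

/-- a point of the first curve outside the second curve -/
theorem SmoothPair.exists_pt {R : Fin s → PP s} {P Q : PP s} {d : Fin s → ℕ} {a b : ℕ}
    (h : SmoothPair R P Q d a b) (ha : 1 ≤ a) : ∃ x : VV s, x ≠ 0 ∧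
      (∀ i, MvPolynomial.eval x (R i) = 0) ∧ MvPolynomial.eval x P = 0 ∧
      MvPolynomial.eval x Q ≠ 0 := by
  obtain ⟨x0, hx0, hR0, hP0⟩ := h.nonemptyP ha
  by_cases hQ0 : MvPolynomial.eval x0 Q = 0
  · have hli := h.transversal x0 hx0 (cons_zero_iff.2 ⟨hP0, cons_zero_iff.2 ⟨hQ0, hR0⟩⟩)
    rw [grad_cons] at hli
    have e : (fun i => gr ((Fin.cons (α := fun _ => PP s) Q R : Fin (s + 1) → PP s) i) x0) =
        Fin.cons (α := fun _ => VV s) (gr Q x0) (fun i => gr (R i) x0) := grad_cons R Q x0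
    rw [e] at hli
    exact cross_pt h.homR h.homP h.homQ hx0 hR0 hP0 hQ0 hli
  · exact ⟨x0, hx0, hR0, hP0, hQ0⟩

/-- the internal structure attached to a smooth pair -/
def SmoothPair.toPair {R : Fin s → PP s} {P Q : PP s} {d : Fin s → ℕ} {a b : ℕ}
    (h : SmoothPair R P Q d a b) (ha : 1 ≤ a) (hb : 1 ≤ b) (hab : s + 4 ≤ a + b + ∑ i, d i) :
    Pair s where
  P := P
  Q := Q
  R := R
  a := a
  b := b
  d := d
  k := a + b + ∑ i, d i - (s + 3)
  hP := h.homP
  hQ := h.homQ
  hR := h.homR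
  ha := ha
  hb := hb
  hk := by omega
  sR := fun x hx h0 => h.smooth x hx h0
  sP := fun x hx h0 hP => by
    have h1 := h.smoothP x hx (cons_zero_iff.2 ⟨hP, h0⟩)
    rw [grad_cons, linearIndependent_finCons] at h1
    exact h1.2
  sQ := fun x hx h0 hQ => by
    have h1 := h.smoothQ x hx (cons_zero_iff.2 ⟨hQ, h0⟩)
    rw [grad_cons, linearIndependent_finCons] at h1
    exact h1.2
  tr := fun x hx h0 hP hQ => by
    refine h.transversal x hx fun i => ?_
    refine Fin.cases ?_ (fun i => ?_) i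
    · exact hP
    · refine Fin.cases ?_ (fun i => ?_) i
      · exact hQ
      · exact h0 i

end Pool.Agent.K9h84.CI
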