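import Pool.Agent.K9h84.CI.Dwa

/-!
# Logarithmic derivative bound near first contact points, over discs
-/

set_option autoImplicit false

open Set Filter Topology Metric

namespace Pool.Agent.K9h84.CI

variable {s : ℕ}

namespace Pair

variable (D : Pair s)

/-- **logarithmic derivative bound** near first contact points -/
theorem ldxD {B K : ℝ} (hB : 0 ≤ B) (hK : 0 < K) : ∃ C A : ℝ, 0 < C ∧ 0 < A ∧
    ∀ (v w : ℂ → VV s) (Y : ℝ) (p : ℂ) (r t : ℝ), D.Cv B 0 v → D.Dw B Y w → ‖v 0‖ ≤ K →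
    1 < ‖p‖ → 0 ≤ t → 32 * (t + 1) ≤ r → ‖p‖ + r ≤ Y → A * (1 + ‖p‖) * (t + 1) ≤ r ^ 2 →
    (∀ z, ‖z‖ ≤ ‖p‖ → ‖w z - v z‖ ≤ 1 / 4 * ‖v z‖) →
    ∀ z, ‖z‖ ≤ t → ‖deriv w (p + z)‖ ≤ C * ‖w (p + z)‖ := by
  obtain ⟨M, hM1, hcusp⟩ := D.cusp_hw
  have hMp : 0 < M := by linarith
  obtain ⟨r0, c, hr0, hr01, hc, hlow, hloc⟩ := D.hrn hB
  obtain ⟨C1, hC1, hex1⟩ := D.exit_on hB hMp
  obtain ⟨C2, hC2, hex2⟩ := D.swap.exit_on hB hMp
  obtain ⟨Cd, hCd, hld⟩ := D.ld hB
  set C3 : ℝ := 5 / 3 * Real.exp Cd * Cd + 5 / 3 * Real.exp Cd with hC3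
  have hC3p : 0 < C3 := by positivity
  set A : ℝ := 1024 * (|Real.log (5 * K / (4 * c))| + Cd) + 1 with hA
  have hAp : 0 < A := by positivity
  refine ⟨C1 + C2 + 2 * C3 + 2 * B + 2, A, by positivity, hAp, ?_⟩
  intro v w Y p r t hv hw hv0 hp1 ht hrt hpY hAr hclose z hz
  have hrp : 0 < r := by linarith
  set z0 : ℂ := p + z with hz0
  have hz0p : dist z0 p ≤ t := by
    rw [hz0, dist_eq_norm, add_sub_cancel_left]
    exact hz
  -- the domain
  have hdm : ∀ ζ ∈ ball p r, ‖ζ‖ < Y := by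
    intro ζ hζ
    have h1 : ‖ζ‖ < ‖p‖ + r := by
      have h2 := norm_le_norm_add_norm_sub' ζ p
      have h3 : ‖ζ - p‖ < r := by rw [← dist_eq_norm]; exact hζ
      linarith
    have h2 := Complex.abs_im_le_norm ζ
    have h3 := neg_abs_le ζ.im
    linarith
  have hsub : ∀ sv : ℝ, sv + t ≤ r → ball z0 sv ⊆ ball p r := fun sv hsv =>
    ball_subset_ball' (by linarith)
  have hz0m : z0 ∈ ball p r := by
    rw [mem_ball]
    linarith
  have hwz0 : 0 < ‖w z0‖ := hw.pos (hdm z0 hz0m)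
  -- the two kinds of exit
  have hexit : ∀ (zs : ℂ) (ρ : ℝ) (j : Fin (s + 3)), dist z0 zs = ρ → ρ + 1 + t ≤ r →
      (‖w zs‖ ≤ M ∨ ‖w zs‖ ≤ M * Real.exp (zs.re / D.b)) →
      (∀ ζ ∈ ball z0 ρ, ‖w ζ‖ ≤ 2 * ‖w ζ j‖) →
      ‖deriv w z0‖ ≤ (C1 + C2 + 1) * ‖w z0‖ := by
    intro zs ρ j hdist hρ hor hj
    have hs1 : ball z0 (ρ + 1) ⊆ ball p r := hsub (ρ + 1) hρ
    rcases hor with h | h
    · have h1 := hex1 w z0 zs ρ j hdist (hw.diffOn fun ζ hζ => hdm ζ (hs1 hζ))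
        (fun ζ hζ => hw.hp ζ (hdm ζ (hs1 hζ))) (fun ζ hζ => hw.sp ζ (hdm ζ (hs1 hζ))) h hj
      refine h1.trans (mul_le_mul_of_nonneg_right (by linarith) hwz0.le)
    · have h1 := hex2 (D.qn w) z0 zs ρ j hdist
        (fun ζ hζ => (D.qn_dif (hw.dif ζ (hdm ζ (hs1 hζ)))).differentiableWithinAt)
        (fun ζ hζ => D.qn_q (hw.hq ζ (hdm ζ (hs1 hζ))))
        (fun ζ hζ => D.qn_speed (hw.dif ζ (hdm ζ (hs1 hζ))) (hw.sp ζ (hdm ζ (hs1 hζ))))
        ((D.qn_le w zs M).2 h) (fun ζ hζ => by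
          have h2 := hj ζ hζ
          have h3 : ‖D.qn w ζ j‖ = Real.exp (-(ζ.re / D.b)) * ‖w ζ j‖ := by
            unfold qn
            rw [Pi.smul_apply, smul_eq_mul, norm_mul, Complex.norm_exp, Complex.neg_re,
              Complex.div_natCast_re]
          rw [qn_norm, h3]
          have h4 := Real.exp_pos (-(ζ.re / D.b))
          nlinarith)
      have h2 := D.qn_ld (hw.dif z0 (hdm z0 hz0m)) h1
      refine h2.trans (mul_le_mul_of_nonneg_right (by linarith) hwz0.le)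
  set S : Set ℂ := (closedBall z0 (r / 2) ∩ {ζ | ‖w ζ‖ - M ≤ 0}) ∪
    (closedBall z0 (r / 2) ∩ {ζ | ‖w ζ‖ - M * Real.exp (ζ.re / D.b) ≤ 0}) with hS
  have hcbsub : closedBall z0 (r / 2) ⊆ ball p r := closedBall_subset_ball' (by linarith)
  have hwc : ContinuousOn w (closedBall z0 (r / 2)) := fun ζ hζ =>
    (hw.dif ζ (hdm ζ (hcbsub hζ))).continuousAt.continuousWithinAt
  have hSc : IsClosed S := by
    refine IsClosed.union ?_ ?_
    · exact (hwc.norm.sub continuousOn_const).preimage_isClosed_of_isClosed isClosed_closedBall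
        (isClosed_Iic (a := (0 : ℝ)))
    · refine (hwc.norm.sub ?_).preimage_isClosed_of_isClosed isClosed_closedBall
        (isClosed_Iic (a := (0 : ℝ)))
      exact Continuous.continuousOn (by fun_prop)
  have hSmem : ∀ ζ ∈ closedBall z0 (r / 2), ζ ∉ S →
      M < ‖w ζ‖ ∧ M * Real.exp (ζ.re / D.b) < ‖w ζ‖ := by
    intro ζ hζ hζS
    constructor
    · by_contra h
      exact hζS (Or.inl ⟨hζ, by
        show ‖w ζ‖ - M ≤ 0
        linarith [not_lt.1 h]⟩)
    · by_contra h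
      exact hζS (Or.inr ⟨hζ, by
        show ‖w ζ‖ - M * Real.exp (ζ.re / D.b) ≤ 0
        linarith [not_lt.1 h]⟩)
  have hcu : ∀ O : Set ℂ, IsPreconnected O → (∀ ζ ∈ O, ζ ∈ closedBall z0 (r / 2) ∧ ζ ∉ S) →
      ∃ j : Fin (s + 3), ∀ ζ ∈ O, ‖w ζ‖ ≤ 2 * ‖w ζ j‖ := by
    intro O hO hOS
    refine hcusp O w hO (hwc.mono fun ζ hζ => (hOS ζ hζ).1)
      (fun ζ hζ => hw.on ζ (hdm ζ (hcbsub (hOS ζ hζ).1)))
      (fun ζ hζ => hw.hp ζ (hdm ζ (hcbsub (hOS ζ hζ).1)))
      (fun ζ hζ => hw.hq ζ (hdm ζ (hcbsub (hOS ζ hζ).1))) fun ζ hζ => ?_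
    exact hSmem ζ (hOS ζ hζ).1 (hOS ζ hζ).2
  by_cases hne : S.Nonempty
  · obtain ⟨zs, hzsS, hdist⟩ := hSc.exists_infDist_eq_dist hne z0
    set ρ : ℝ := dist z0 zs with hρ
    have hzscb : zs ∈ closedBall z0 (r / 2) := by
      rcases hzsS with h | h
      · exact h.1
      · exact h.1
    have hρr : ρ ≤ r / 2 := by
      rw [hρ, dist_comm]
      exact hzscb
    have hballS : ∀ ζ ∈ ball z0 ρ, ζ ∉ S := by
      intro ζ hζ hζS
      have h1 := infDist_le_dist_of_mem (x := z0) hζS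
      rw [hdist] at h1
      rw [mem_ball, dist_comm] at hζ
      linarith
    obtain ⟨j, hj⟩ := hcu _ (convex_ball z0 ρ).isPreconnected (fun ζ hζ =>
      ⟨ball_subset_closedBall (ball_subset_ball hρr hζ), hballS ζ hζ⟩)
    have hor : ‖w zs‖ ≤ M ∨ ‖w zs‖ ≤ M * Real.exp (zs.re / D.b) := by
      rcases hzsS with h | h
      · left
        have h1 : ‖w zs‖ - M ≤ 0 := h.2
        linarith
      · right
        have h1 : ‖w zs‖ - M * Real.exp (zs.re / D.b) ≤ 0 := h.2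
        linarith
    have h1 := hexit zs ρ j rfl (by linarith) hor hj
    refine h1.trans (mul_le_mul_of_nonneg_right (by linarith) hwz0.le)
  · obtain ⟨j, hj⟩ := hcu _ (convex_ball z0 (r / 2)).isPreconnected (fun ζ hζ =>
      ⟨ball_subset_closedBall hζ, fun h => hne ⟨ζ, h⟩⟩)
    -- the comparison point
    have hpn : 0 < ‖p‖ := by linarith
    set p' : ℂ := ((1 - 1 / ‖p‖ : ℝ) : ℂ) * p with hp'
    have hfac : 0 ≤ 1 - 1 / ‖p‖ := by
      rw [sub_nonneg, div_le_one hpn]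
      exact hp1.le
    have hp'n : ‖p'‖ = ‖p‖ - 1 := by
      rw [hp', norm_mul, Complex.norm_real, Real.norm_of_nonneg hfac, sub_mul, one_mul,
        one_div_mul_cancel hpn.ne']
    have hp'd : dist p p' = 1 := by
      have : p - p' = ((1 / ‖p‖ : ℝ) : ℂ) * p := by
        rw [hp']
        push_cast
        ring
      rw [dist_eq_norm, this, norm_mul, Complex.norm_real, Real.norm_of_nonneg (by positivity),
        one_div_mul_cancel hpn.ne']
    have hcb1 : ∀ ζ ∈ closedBall p' 1, ‖ζ‖ ≤ ‖p‖ := by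
      intro ζ hζ
      have h2 := norm_le_norm_add_norm_sub' ζ p'
      have h3 : ‖ζ - p'‖ ≤ 1 := by rw [← dist_eq_norm]; exact hζ
      linarith
    have hdm0 : ∀ ζ : ℂ, ‖ζ‖ ≤ ‖p‖ → ‖ζ‖ < Y := by
      intro ζ hζ
      have h2 := Complex.abs_im_le_norm ζ
      have h3 := neg_abs_le ζ.im
      linarith
    have hp'm : ‖p'‖ ≤ ‖p‖ := by linarith
    have hvw : ∀ ζ : ℂ, ‖ζ‖ ≤ ‖p‖ → ‖w ζ‖ ≤ 5 / 4 * ‖v ζ‖ ∧ 3 / 4 * ‖v ζ‖ ≤ ‖w ζ‖ := by
      intro ζ hζ
      have h1 := hclose ζ hζ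
      have h2 := norm_le_norm_add_norm_sub' (w ζ) (v ζ)
      have h3 := norm_le_norm_add_norm_sub' (v ζ) (w ζ)
      rw [norm_sub_rev] at h3
      constructor <;> linarith
    have hwp' : 0 < ‖w p'‖ := hw.pos (hdm0 p' hp'm)
    have hderp' : ‖deriv w p'‖ ≤ C3 * ‖w p'‖ := by
      have h1 : DiffContOnCl ℂ w (ball p' 1) := by
        apply DifferentiableOn.diffContOnCl
        rw [closure_ball p' one_ne_zero]
        exact fun ζ hζ => (hw.dif ζ (hdm0 ζ (hcb1 ζ hζ))).differentiableWithinAt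
      have h2 := Complex.norm_deriv_le_of_forall_mem_sphere_norm_le one_pos h1
        (C := 5 / 3 * Real.exp Cd * ‖w p'‖) (fun ζ hζ => by
          have h3 := (hvw ζ (hcb1 ζ (sphere_subset_closedBall hζ))).1
          have h4 := gronwall hv.dif (hld 0 v hv) ζ p'
          rw [mem_sphere.1 hζ, mul_one] at h4
          have h5 := (hvw p' hp'm).2
          have h6 := Real.exp_pos Cd
          calc ‖w ζ‖ ≤ 5 / 4 * ‖v ζ‖ := h3
            _ ≤ 5 / 4 * (‖v p'‖ * Real.exp Cd) := by linarith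
            _ ≤ 5 / 4 * ((4 / 3 * ‖w p'‖) * Real.exp Cd) := by
                have : ‖v p'‖ ≤ 4 / 3 * ‖w p'‖ := by linarith
                gcongr
            _ = 5 / 3 * Real.exp Cd * ‖w p'‖ := by ring)
      rw [div_one] at h2
      refine h2.trans (mul_le_mul_of_nonneg_right ?_ hwp'.le)
      rw [hC3]
      have : 0 ≤ 5 / 3 * Real.exp Cd * Cd := by positivity
      linarith
    have hdz : dist z0 p' ≤ t + 1 := by
      have := dist_triangle z0 p p'
      linarith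
    have hp'b : p' ∈ ball z0 (r / 2) := by
      rw [mem_ball, dist_comm]
      linarith
    have hwb : ∀ ζ ∈ ball z0 (r / 2), 4 * c ≤ ‖w ζ‖ := fun ζ hζ =>
      hlow _ (hw.hp ζ (hdm ζ (hcbsub (ball_subset_closedBall hζ))))
    have hul : ∀ ζ ∈ ball z0 (r / 2), c < ‖w ζ j‖ := by
      intro ζ hζ
      have h1 := hj ζ hζ
      have h2 := hwb ζ hζ
      linarith
    have hud : DifferentiableOn ℂ (fun ζ => w ζ j) (ball z0 (r / 2)) := fun ζ hζ =>
      (differentiableWithinAt_pi.1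
        ((hw.dif ζ (hdm ζ (hcbsub (ball_subset_closedBall hζ)))).differentiableWithinAt)) j
    have htr := transfer (u := fun ζ => w ζ j) (z1 := p') (by linarith : 0 < r / 2) hud hc hul
      (by linarith)
    rw [deriv_coord (hw.dif z0 (hdm z0 hz0m)), deriv_coord (hw.dif p' (hdm0 p' hp'm))] at htr
    have hjp' := hj p' hp'b
    have hjz0 := hj z0 (mem_ball_self (by linarith))
    have hjp0 : 0 < ‖w p' j‖ := by linarith
    have hjz00 : 0 < ‖w z0 j‖ := by linarith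
    have hlp' : ‖deriv w p' j / w p' j‖ ≤ 2 * C3 := by
      rw [norm_div, div_le_iff₀ hjp0]
      have h1 := (le3 (deriv w p') j).trans hderp'
      nlinarith
    have hG : Real.log (‖w p' j‖ / c) ≤ |Real.log (5 * K / (4 * c))| + Cd * ‖p‖ := by
      have h1 : ‖w p' j‖ ≤ 5 / 4 * (K * Real.exp (Cd * ‖p‖)) := by
        refine (le3 _ j).trans ((hvw p' hp'm).1.trans ?_)
        have h2 := gronwall hv.dif (hld 0 v hv) p' 0
        rw [dist_zero_right] at h2
        have h3 : Real.exp (Cd * ‖p'‖) ≤ Real.exp (Cd * ‖p‖) := by gcongr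
        have h4 : ‖v 0‖ * Real.exp (Cd * ‖p'‖) ≤ K * Real.exp (Cd * ‖p‖) :=
          mul_le_mul hv0 h3 (Real.exp_pos _).le hK.le
        linarith
      have h2 : ‖w p' j‖ / c ≤ 5 * K / (4 * c) * Real.exp (Cd * ‖p‖) := by
        rw [div_le_iff₀ hc]
        refine h1.trans (le_of_eq ?_)
        field_simp
      have h3 := Real.log_le_log (div_pos hjp0 hc) h2
      rw [Real.log_mul (by positivity) (Real.exp_pos _).ne', Real.log_exp] at h3
      have h4 := le_abs_self (Real.log (5 * K / (4 * c)))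
      linarith
    have hone : 256 * Real.log (‖w p' j‖ / c) / (r / 2) ^ 2 * dist z0 p' ≤ 1 := by
      have hlog0 : 0 ≤ Real.log (‖w p' j‖ / c) := by
        apply Real.log_nonneg
        rw [le_div_iff₀ hc, one_mul]
        exact (hul p' hp'b).le
      have h1 : 256 * Real.log (‖w p' j‖ / c) / (r / 2) ^ 2 * dist z0 p' =
          (1024 * Real.log (‖w p' j‖ / c) * dist z0 p') / r ^ 2 := by
        field_simp
        ring
      rw [h1, div_le_one (by positivity)]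
      refine le_trans ?_ hAr
      have h2 : |Real.log (5 * K / (4 * c))| + Cd * ‖p‖ ≤
          (|Real.log (5 * K / (4 * c))| + Cd) * (1 + ‖p‖) := by
        have h3 : 0 ≤ |Real.log (5 * K / (4 * c))| := abs_nonneg _
        nlinarith [mul_nonneg h3 hpn.le]
      have h3 : 0 ≤ (|Real.log (5 * K / (4 * c))| + Cd) := by positivity
      calc 1024 * Real.log (‖w p' j‖ / c) * dist z0 p' ≤
          1024 * ((|Real.log (5 * K / (4 * c))| + Cd) * (1 + ‖p‖)) * (t + 1) := by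
            have := hG.trans h2
            gcongr
        _ ≤ A * (1 + ‖p‖) * (t + 1) := by
            have h4 : 1024 * ((|Real.log (5 * K / (4 * c))| + Cd) * (1 + ‖p‖)) ≤ A * (1 + ‖p‖) := by
              rw [hA]
              nlinarith
            exact mul_le_mul_of_nonneg_right h4 (by linarith)
    have hfin : ‖deriv w z0 j‖ ≤ (2 * C3 + 1) * ‖w z0 j‖ := by
      have h1 : ‖deriv w z0 j / w z0 j‖ ≤ 2 * C3 + 1 := by
        have h2 := norm_le_norm_add_norm_sub' (deriv w z0 j / w z0 j) (deriv w p' j / w p' j)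
        have h3 := htr.trans hone
        linarith
      rw [norm_div, div_le_iff₀ hjz00] at h1
      exact h1
    have h7 := deriv_le_of_coord (hw.sp z0 (hdm z0 hz0m)) hjz0 (norm_pos_iff.1 hjz00) hfin
    refine h7.trans (mul_le_mul_of_nonneg_right (by linarith) hwz0.le)

end Pair

end Pool.Agent.K9h84.CI
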