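import Pool.Agent.K9h84.CI.Ddc

/-!
# Propagation of closeness over discs
-/

set_option autoImplicit false

open Set Filter Topology Metric

namespace Pool.Agent.K9h84.CI

open Pool.Agent.K9h3.TC (li)

variable {s : ℕ}

namespace Pair

variable (D : Pair s)

/-- **points of the middle region**: no first contact there -/
theorem stripD (hk : 1 ≤ D.k) {B δ : ℝ} (hB : 0 ≤ B) (hδ : 0 < δ) (hδ16 : δ ≤ 1 / 16) {c C : ℝ}
    (hc : 0 < c) (hCp : 0 < C)
    (hlam : ∀ (β : ℂ) (v w : ℂ → VV s), D.Cv B β v → ∀ O : Set ℂ, IsOpen O →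
    DifferentiableOn ℂ w O → (∀ z ∈ O, D.on (w z)) → (∀ z ∈ O, D.p (w z) = 1) →
    (∀ z ∈ O, D.q (w z) = Complex.exp (z + β)) →
    (∀ z ∈ O, ‖w z - v z‖ < 4 * δ * ‖v z‖) → ∃ l : ℂ → ℂ, DifferentiableOn ℂ l O ∧
    ∀ z ∈ O, c * ‖w z - v z‖ ≤ ‖l z‖ * ‖v z‖ ^ (D.k + 1) ∧
      ‖l z‖ * ‖v z‖ ^ (D.k + 1) ≤ C * ‖w z - v z‖)
    {K0 : ℝ} (hK0 : 0 < K0) : ∃ R0 : ℝ, 0 < R0 ∧ ∀ (v w : ℂ → VV s) (Y : ℝ), D.Cv B 0 v →
    D.Dw B Y w → ∀ p : ℂ, R0 < ‖p‖ → 0 ≤ Y → ‖p‖ + Y ^ (3 / 4 : ℝ) ≤ Y →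
    ‖v p‖ ≤ K0 → ‖v p‖ ≤ K0 * Real.exp (p.re / D.b) →
    (∀ z, ‖z‖ ≤ ‖p‖ → ‖w z - v z‖ ≤ δ * ‖v z‖) → ‖w p - v p‖ ≠ δ * ‖v p‖ := by
  obtain ⟨Cd, hCd, hld⟩ := D.ld hB
  obtain ⟨c1, hc1, hlow⟩ := D.cv_low
  have hb1 : (1 : ℝ) ≤ D.b := by exact_mod_cast D.hb
  have hbp : (0 : ℝ) < D.b := by linarith
  by_contra hcon
  push Not at hcon
  have h1 : ∀ n : ℕ, ∃ (v w : ℂ → VV s) (Y : ℝ) (p : ℂ), D.Cv B 0 v ∧ D.Dw B Y w ∧
      ((n : ℝ) + 2) ^ 2 < ‖p‖ ∧ 0 ≤ Y ∧ ‖p‖ + Y ^ (3 / 4 : ℝ) ≤ Y ∧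
      ‖v p‖ ≤ K0 ∧ ‖v p‖ ≤ K0 * Real.exp (p.re / D.b) ∧
      (∀ z, ‖z‖ ≤ ‖p‖ → ‖w z - v z‖ ≤ δ * ‖v z‖) ∧ ‖w p - v p‖ = δ * ‖v p‖ := by
    intro n
    obtain ⟨v, w, Y, hv, hw, p, h2, h0, h2', h3, h4, h5, h6⟩ := hcon (((n : ℝ) + 2) ^ 2)
      (by positivity)
    exact ⟨v, w, Y, p, hv, hw, h2, h0, h2', h3, h4, h5, h6⟩
  choose v w Y p hv hw hpn hY0 hpY hK1 hK2 hclose heq using h1
  have hn0 : ∀ n : ℕ, (0 : ℝ) ≤ n := fun n => Nat.cast_nonneg n
  have hpn1 : ∀ n : ℕ, (n : ℝ) + 1 < ‖p n‖ := fun n => by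
    have := hpn n
    have := hn0 n
    nlinarith
  have hsg : ∀ n : ℕ, (n : ℝ) + 2 ≤ (Y n) ^ (3 / 4 : ℝ) := by
    intro n
    have h2 : 0 ≤ (Y n) ^ (3 / 4 : ℝ) := Real.rpow_nonneg (hY0 n) _
    have h3 : ((n : ℝ) + 2) ^ 2 ≤ Y n := by
      have := hpn n
      have := hpY n
      linarith
    have h4 : 1 ≤ Y n := by
      have := hn0 n
      nlinarith
    exact (Real.le_sqrt_of_sq_le h3).trans (sg_ge h4)
  have hdm : ∀ (n : ℕ), ∀ z ∈ ball (0 : ℂ) ((n : ℝ) + 1), ‖p n + z‖ < Y n := by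
    intro n z hz
    rw [mem_ball_zero_iff] at hz
    have h2 := Complex.abs_im_le_norm (p n + z)
    have h3 := neg_abs_le (p n + z).im
    have h4 := norm_add_le (p n) z
    have := hsg n
    have := hpY n
    linarith
  -- the real part of the base points is bounded
  set X : ℝ := D.b * |Real.log (K0 / c1)| with hX
  have hre : ∀ n, |(p n).re| ≤ X := by
    intro n
    obtain ⟨l1, l2⟩ := hlow B 0 (v n) (hv n) (p n)
    rw [Complex.zero_re, add_zero] at l2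
    have e1 : c1 ≤ K0 * Real.exp ((p n).re / D.b) := l1.trans (hK2 n)
    have e2 : c1 * Real.exp ((p n).re / D.b) ≤ K0 := l2.trans (hK1 n)
    have f1 : Real.log c1 ≤ Real.log K0 + (p n).re / D.b := by
      have := Real.log_le_log hc1 e1
      rwa [Real.log_mul hK0.ne' (Real.exp_pos _).ne', Real.log_exp] at this
    have f2 : Real.log c1 + (p n).re / D.b ≤ Real.log K0 := by
      have := Real.log_le_log (by positivity) e2
      rwa [Real.log_mul hc1.ne' (Real.exp_pos _).ne', Real.log_exp] at this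
    have f3 : Real.log (K0 / c1) = Real.log K0 - Real.log c1 := Real.log_div hK0.ne' hc1.ne'
    have f4 : |(p n).re / D.b| ≤ |Real.log (K0 / c1)| := by
      rw [f3]
      refine le_trans ?_ (le_abs_self _)
      rw [abs_le]
      constructor <;> linarith
    rw [abs_div, abs_of_pos hbp, div_le_iff₀ hbp] at f4
    rw [hX]
    linarith
  set m : ℕ → ℤ := fun n => ⌊(p n).im / (2 * Real.pi)⌋ with hm
  set β : ℕ → ℂ := fun n => 0 + p n - m n * (2 * Real.pi * Complex.I) with hβ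
  have hβb : ∀ n, ‖β n‖ ≤ X + 2 * Real.pi := by
    intro n
    refine (Complex.norm_le_abs_re_add_abs_im _).trans (add_le_add ?_ ?_)
    · have : (β n).re = (p n).re := by rw [hβ]; simp
      rw [this]
      exact hre n
    · have h2 : (β n).im = (p n).im - m n * (2 * Real.pi) := by rw [hβ]; simp
      rw [h2]
      have h3 := Int.floor_le ((p n).im / (2 * Real.pi))
      have h4 := Int.lt_floor_add_one ((p n).im / (2 * Real.pi))
      have hπ : 0 < 2 * Real.pi := by positivity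
      rw [le_div_iff₀ hπ] at h3
      rw [div_lt_iff₀ hπ] at h4
      rw [abs_le]
      constructor
      · have : (m n : ℝ) = ⌊(p n).im / (2 * Real.pi)⌋ := rfl
        rw [this]
        linarith
      · have : (m n : ℝ) = ⌊(p n).im / (2 * Real.pi)⌋ := rfl
        rw [this]
        linarith
  have hvC : ∀ n, D.Cv B (β n) (fun z => v n (z + p n)) := fun n => D.cv_mod ((hv n).shift (p n)) (m n)
  have hqβ : ∀ n z, Complex.exp (p n + z) = Complex.exp (z + β n) := by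
    intro n z
    rw [hβ]
    simp only
    rw [show z + (0 + p n - m n * (2 * Real.pi * Complex.I)) =
      (p n + z) - m n * (2 * Real.pi * Complex.I) by ring]
    exact (Complex.exp_periodic.sub_int_mul_eq (m n)).symm
  have heq0 : ∀ n, ‖w n (p n + 0) - v n (0 + p n)‖ = δ * ‖v n (0 + p n)‖ := fun n => by
    rw [zero_add, add_zero]
    exact heq n
  obtain ⟨V, hVd, -, hVt, hVt', -⟩ := exists_lim (v := fun n z => v n (z + p n)) hCd.le
    (fun n => (hvC n).dif) (fun n => hld _ _ (hvC n)) (K := K0) (fun n => by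
      simp only [zero_add]
      exact hK1 n)
  obtain ⟨W, hWd, hWt, hWt', hWp, hWB, hWon⟩ := D.lim_bdd hB (v := fun n z => w n (p n + z))
    (fun n z hz => (shift_deriv ((hw n).dif _ (hdm n z hz))).differentiableAt.differentiableWithinAt)
    (fun n z hz => (hw n).hp _ (hdm n z hz))
    (fun n z hz => by
      rw [(shift_deriv ((hw n).dif _ (hdm n z hz))).deriv]
      exact (hw n).sp _ (hdm n z hz)) (fun n z hz => (hw n).on _ (hdm n z hz))
    (K := 2 * K0) (Eventually.of_forall fun n => by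
      have h2 := norm_le_norm_add_norm_sub' (w n (p n + 0)) (v n (0 + p n))
      have h3 := heq0 n
      have h4 : ‖v n (0 + p n)‖ ≤ K0 := by rw [zero_add]; exact hK1 n
      have h5 := norm_nonneg (v n (0 + p n))
      nlinarith)
  obtain ⟨β', -, hβ'⟩ := exists_ulim hβb
  have hVC : D.Cv B β' V := D.cv_lim hvC hVd hVt hVt' hβ'
  have hWq : ∀ z, D.q (W z) = Complex.exp (z + β') := by
    intro z
    have h2 : Tendsto (fun n => D.q (w n (p n + z))) UU (𝓝 (D.q (W z))) :=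
      (D.q_cont.tendsto _).comp (hWt z)
    have h3 : Tendsto (fun n => Complex.exp (z + β n)) UU (𝓝 (Complex.exp (z + β'))) :=
      (Complex.continuous_exp.tendsto _).comp (hβ'.const_add z)
    refine tendsto_nhds_unique h2 (h3.congr' ?_)
    filter_upwards [UU_large ⌈‖z‖⌉₊] with n hn
    have hz : z ∈ ball (0 : ℂ) ((n : ℝ) + 1) := by
      rw [mem_ball_zero_iff]
      have h6 := Nat.le_ceil ‖z‖
      have h7 : (⌈‖z‖⌉₊ : ℝ) ≤ n := by exact_mod_cast hn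
      linarith
    rw [(hw n).hq _ (hdm n z hz), hqβ]
  have hWV0 : ‖W 0 - V 0‖ = δ * ‖V 0‖ := by
    have h2 := ((hWt 0).sub (hVt 0)).norm
    have h3 := (hVt 0).norm.const_mul δ
    simp only [heq0] at h2
    exact tendsto_nhds_unique h2 h3
  obtain ⟨ν, hν, hνt, hhp⟩ := half_plane (p := p) (fun n => by
    have := hpn1 n
    linarith)
  -- the direction is vertical
  have hνre : ν.re = 0 := by
    have h2 : Tendsto (fun n => (p n / (‖p n‖ : ℂ)).re) UU (𝓝 ν.re) :=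
      (Complex.continuous_re.tendsto _).comp hνt
    have h3 : Tendsto (fun n : ℕ => X * ((n : ℝ) + 1)⁻¹) UU (𝓝 (X * 0)) :=
      ((tendsto_inv_atTop_zero.comp (tendsto_natCast_atTop_atTop.atTop_add
        tendsto_const_nhds)).mono_left UU_le).const_mul X
    rw [mul_zero] at h3
    have h4 : Tendsto (fun n => (p n / (‖p n‖ : ℂ)).re) UU (𝓝 0) := by
      refine squeeze_zero_norm (fun n => ?_) h3
      have hpp : (0 : ℝ) < (n : ℝ) + 1 := by positivity
      have hX0 : 0 ≤ X := (abs_nonneg _).trans (hre 0)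
      rw [Complex.div_ofReal_re, Real.norm_eq_abs, abs_div, abs_norm, div_eq_mul_inv]
      have h5 := hre n
      have h6 := (hpn1 n).le
      gcongr
    exact tendsto_nhds_unique h2 h4
  have hlim : ∀ z : ℂ, (z * (starRingEnd ℂ) ν).re < 0 → ‖W z - V z‖ ≤ δ * ‖V z‖ := by
    intro z hz
    refine le_of_tendsto_of_tendsto ((hWt z).sub (hVt z)).norm ((hVt z).norm.const_mul δ) ?_
    filter_upwards [hhp z hz] with n hn
    have h2 := hclose n (p n + z) hn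
    rw [add_comm z (p n)]
    exact h2
  have hνim : ν.im = 1 ∨ ν.im = -1 := by
    have h2 : ‖ν‖ ^ 2 = ν.im ^ 2 := by
      rw [← Complex.normSq_eq_norm_sq, Complex.normSq_apply, hνre]
      ring
    rw [hν, one_pow] at h2
    have h3 : (ν.im - 1) * (ν.im + 1) = 0 := by linarith
    rcases mul_eq_zero.1 h3 with h4 | h4
    · left; linarith
    · right; linarith
  have hzre : ∀ z : ℂ, (z * (starRingEnd ℂ) ν).re = z.im * ν.im := by
    intro z
    rw [Complex.mul_re, Complex.conj_re, Complex.conj_im, hνre]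
    ring
  -- the difference vanishes on the half-plane
  have hzero : ∀ O : Set ℂ, IsOpen O → (∀ z ∈ O, ‖W z - V z‖ ≤ δ * ‖V z‖) →
      (∀ l : ℂ → ℂ, DifferentiableOn ℂ l O → ∀ C' : ℝ,
        (∀ z ∈ O, ‖l z‖ ≤ C' * Real.exp (-(1 / D.b * max z.re 0))) → ∀ z ∈ O, l z = 0) →
      ∀ z ∈ O, W z = V z := by
    intro O hO hOc hOl z hz
    obtain ⟨l, hl, hlb⟩ := hlam β' V W hVC O hO hWd.differentiableOn (fun z _ => hWon z)
      (fun z _ => hWp z)
      (fun z _ => hWq z) (fun z hz => by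
      have h2 := hOc z hz
      have h3 := hVC.pos z
      nlinarith)
    obtain ⟨C', hC'⟩ := D.l_bound hVC hk (M := C * δ) (by positivity)
    have hl0 := hOl l hl C' (fun z hz => hC' z ‖l z‖ (norm_nonneg _) (by
      have h2 := (hlb z hz).2
      have h3 := hOc z hz
      have h4 := hVC.pos z
      rw [pow_succ] at h2
      have h5 : (‖l z‖ * ‖V z‖ ^ D.k) * ‖V z‖ ≤ (C * δ) * ‖V z‖ := by nlinarith
      exact le_of_mul_le_mul_right h5 h4)) z hz
    have h6 := (hlb z hz).1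
    rw [hl0, norm_zero, zero_mul] at h6
    have h7 : ‖W z - V z‖ ≤ 0 := by
      by_contra h
      push Not at h
      have := mul_pos hc h
      linarith
    exact sub_eq_zero.1 (norm_le_zero_iff.1 h7)
  have hfin : ∀ sv : ℝ, (∀ t : ℝ, 0 < t → W ((sv * t : ℝ) * Complex.I) = V ((sv * t : ℝ) * Complex.I)) →
      False := by
    intro sv hsv
    have h2 : Tendsto (fun t : ℝ => W ((sv * t : ℝ) * Complex.I) - V ((sv * t : ℝ) * Complex.I))
        (𝓝[>] 0) (𝓝 (W 0 - V 0)) := by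
      have h3 : Continuous (fun t : ℝ => W ((sv * t : ℝ) * Complex.I) - V ((sv * t : ℝ) * Complex.I)) :=
        (hWd.continuous.comp (by fun_prop)).sub (hVd.continuous.comp (by fun_prop))
      have h4 := h3.tendsto 0
      simp only [mul_zero, Complex.ofReal_zero, zero_mul] at h4
      exact h4.mono_left nhdsWithin_le_nhds
    have h5 : Tendsto (fun t : ℝ => W ((sv * t : ℝ) * Complex.I) - V ((sv * t : ℝ) * Complex.I))
        (𝓝[>] 0) (𝓝 0) := by
      refine (tendsto_const_nhds (x := (0 : VV s))).congr' ?_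
      filter_upwards [self_mem_nhdsWithin] with t ht
      rw [hsv t ht, sub_self]
    have h6 := tendsto_nhds_unique h2 h5
    rw [h6, norm_zero] at hWV0
    have := hVC.pos 0
    have : 0 < δ * ‖V 0‖ := by positivity
    linarith
  rcases hνim with h | h
  · have hopen : IsOpen {z : ℂ | z.im < 0} := isOpen_lt Complex.continuous_im continuous_const
    have h2 := hzero {z | z.im < 0} hopen (fun z hz => hlim z (by
      rw [hzre, h, mul_one]
      exact hz)) (fun l hl C' hb z hz => li_low hl (by positivity) hb z hz)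
    refine hfin (-1) fun t ht => h2 _ ?_
    show ((((-1 * t : ℝ) : ℂ)) * Complex.I).im < 0
    rw [Complex.im_ofReal_mul, Complex.I_im]
    linarith
  · have hopen : IsOpen {z : ℂ | 0 < z.im} := isOpen_lt continuous_const Complex.continuous_im
    have h2 := hzero {z | 0 < z.im} hopen (fun z hz => hlim z (by
      rw [hzre, h]
      have : 0 < z.im := hz
      linarith)) (fun l hl C' hb z hz => li hl (by positivity) hb z hz)
    refine hfin 1 fun t ht => h2 _ ?_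
    show 0 < ((((1 * t : ℝ) : ℂ)) * Complex.I).im
    rw [Complex.im_ofReal_mul, Complex.I_im]
    linarith

/-- **propagation**: a curve over a half-plane which is close to a normalised curve on a large disc
stays close to it on almost the whole disc inscribed in the half-plane -/
theorem uniqD (hk : 1 ≤ D.k) {B : ℝ} (hB : 0 ≤ B) : ∃ δ : ℝ, 0 < δ ∧ δ ≤ 1 / 16 ∧
    (∃ c C : ℝ, 0 < c ∧ 0 < C ∧
    ∀ (β : ℂ) (v w : ℂ → VV s), D.Cv B β v → ∀ O : Set ℂ, IsOpen O → DifferentiableOn ℂ w O →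
    (∀ z ∈ O, D.on (w z)) → (∀ z ∈ O, D.p (w z) = 1) →
    (∀ z ∈ O, D.q (w z) = Complex.exp (z + β)) →
    (∀ z ∈ O, ‖w z - v z‖ < 4 * δ * ‖v z‖) → ∃ l : ℂ → ℂ, DifferentiableOn ℂ l O ∧
    ∀ z ∈ O, c * ‖w z - v z‖ ≤ ‖l z‖ * ‖v z‖ ^ (D.k + 1) ∧
      ‖l z‖ * ‖v z‖ ^ (D.k + 1) ≤ C * ‖w z - v z‖) ∧
    ∀ K : ℝ, 0 < K → ∃ R0 : ℝ, 0 < R0 ∧ ∀ (v w : ℂ → VV s) (Y : ℝ), D.Cv B 0 v → D.Dw B Y w →
    0 ≤ Y → ‖v 0‖ ≤ K → (∀ z, ‖z‖ ≤ R0 → ‖w z - v z‖ < δ * ‖v z‖) →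
    ∀ z, ‖z‖ + Y ^ (3 / 4 : ℝ) ≤ Y → ‖w z - v z‖ < δ * ‖v z‖ := by
  obtain ⟨δ, hδ, hδ16, ⟨c, C, hc, hC, hlam⟩, hnd⟩ := D.not_deepD hk hB
  refine ⟨δ, hδ, hδ16, ⟨c, C, hc, hC, hlam⟩, fun K hK => ?_⟩
  obtain ⟨K0, hK0, hnd0⟩ := hnd K hK
  obtain ⟨R0, hR0, hstrip⟩ := D.stripD hk hB hδ hδ16 hc hC hlam hK0
  refine ⟨max K0 R0, by positivity, fun v w Y hv hw hY0 hv0 hclose => ?_⟩
  set ρ : ℝ := Y - Y ^ (3 / 4 : ℝ) with hρ
  by_contra hcon
  push Not at hcon
  obtain ⟨z1, hz1, hz1c⟩ := hcon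
  have hz1ρ : ‖z1‖ ≤ ρ := by linarith
  have hYne : Y ≠ 0 := by
    intro h
    have h1 : ‖z1‖ + Y ^ (3 / 4 : ℝ) ≤ Y := hz1
    rw [h, Real.zero_rpow (by norm_num), add_zero] at h1
    have h2 : z1 = 0 := norm_le_zero_iff.1 h1
    have h3 := hclose z1 (by rw [h2, norm_zero]; positivity)
    linarith
  have hYp : 0 < Y := lt_of_le_of_ne hY0 (Ne.symm hYne)
  have hsgp : 0 < Y ^ (3 / 4 : ℝ) := Real.rpow_pos_of_pos hYp _
  have hdm : ∀ z : ℂ, ‖z‖ ≤ ρ → ‖z‖ < Y := by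
    intro z hz
    have h3 := Complex.abs_im_le_norm z
    have h4 := neg_abs_le z.im
    linarith
  have hwc : ContinuousOn w (closedBall 0 ρ) := fun z hz =>
    (hw.dif z (hdm z (mem_closedBall_zero_iff.1 hz))).continuousAt.continuousWithinAt
  set T : Set ℂ := closedBall 0 ρ ∩ (fun z => δ * ‖v z‖ - ‖w z - v z‖) ⁻¹' (Iic 0) with hT
  have hTc : IsClosed T := by
    refine ContinuousOn.preimage_isClosed_of_isClosed ?_ isClosed_closedBall isClosed_Iic
    exact (continuous_const.mul hv.dif.continuous.norm).continuousOn.sub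
      (hwc.sub hv.dif.continuous.continuousOn).norm
  have hTmem : ∀ z, z ∈ T ↔ ‖z‖ ≤ ρ ∧ δ * ‖v z‖ ≤ ‖w z - v z‖ := by
    intro z
    constructor
    · rintro ⟨h1, h2⟩
      have h3 : δ * ‖v z‖ - ‖w z - v z‖ ≤ 0 := h2
      exact ⟨mem_closedBall_zero_iff.1 h1, by linarith⟩
    · rintro ⟨h1, h2⟩
      refine ⟨mem_closedBall_zero_iff.2 h1, ?_⟩
      show δ * ‖v z‖ - ‖w z - v z‖ ≤ 0
      linarith
  have hTe : T.Nonempty := ⟨z1, (hTmem z1).2 ⟨hz1ρ, hz1c⟩⟩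
  obtain ⟨p, hpT, hdist⟩ := hTc.exists_infDist_eq_dist hTe 0
  rw [dist_zero_left] at hdist
  obtain ⟨hpρ, hpT'⟩ := (hTmem p).1 hpT
  have hpR : max K0 R0 < ‖p‖ := by
    by_contra h
    have := hclose p (not_lt.1 h)
    linarith
  have hp0 : 0 < ‖p‖ := lt_trans (by positivity) hpR
  have hin : ∀ z, ‖z‖ < ‖p‖ → ‖w z - v z‖ < δ * ‖v z‖ := by
    intro z hz
    by_contra h
    have hzT : z ∈ T := (hTmem z).2 ⟨by linarith, not_lt.1 h⟩
    have h1 := infDist_le_dist_of_mem (x := (0 : ℂ)) hzT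
    rw [hdist, dist_zero_left] at h1
    linarith
  have hin2 : ∀ z, ‖z‖ ≤ ‖p‖ → ‖w z - v z‖ ≤ δ * ‖v z‖ := by
    have hsub : closedBall (0 : ℂ) ‖p‖ ⊆ closedBall 0 ρ := closedBall_subset_closedBall hpρ
    have hcl : IsClosed (closedBall (0 : ℂ) ‖p‖ ∩ (fun z => ‖w z - v z‖ - δ * ‖v z‖) ⁻¹' (Iic 0)) := by
      refine ContinuousOn.preimage_isClosed_of_isClosed ?_ isClosed_closedBall isClosed_Iic
      exact ((hwc.mono hsub).sub hv.dif.continuous.continuousOn).norm.sub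
        (continuous_const.mul hv.dif.continuous.norm).continuousOn
    have h1 : closure (ball (0 : ℂ) ‖p‖) ⊆
        closedBall (0 : ℂ) ‖p‖ ∩ (fun z => ‖w z - v z‖ - δ * ‖v z‖) ⁻¹' (Iic 0) := by
      refine closure_minimal (fun z hz => ⟨ball_subset_closedBall hz, ?_⟩) hcl
      show ‖w z - v z‖ - δ * ‖v z‖ ≤ 0
      have := hin z (mem_ball_zero_iff.1 hz)
      linarith
    rw [closure_ball (0 : ℂ) hp0.ne'] at h1
    intro z hz
    have h2 : ‖w z - v z‖ - δ * ‖v z‖ ≤ 0 := (h1 (mem_closedBall_zero_iff.2 hz)).2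
    linarith
  have heq : ‖w p - v p‖ = δ * ‖v p‖ := le_antisymm (hin2 p le_rfl) hpT'
  have hpY : ‖p‖ + Y ^ (3 / 4 : ℝ) ≤ Y := by linarith
  obtain ⟨h1, h2⟩ := hnd0 v w Y hv hw hv0 p (lt_of_le_of_lt (le_max_left _ _) hpR) hY0 hpY hin2 heq
  exact hstrip v w Y hv hw p (lt_of_le_of_lt (le_max_right _ _) hpR) hY0 hpY h1 h2 hin2 heq

end Pair

end Pool.Agent.K9h84.CI
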