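import Pool.Agent.K9h84.CI.Lii

/-!
# Normalised curves over a disc of large radius
-/

set_option autoImplicit false

open Set Filter Topology Metric

namespace Pool.Agent.K9h84.CI

variable {s : ℕ}

namespace Pair

variable (D : Pair s)

/-- normalised curves over the disc of radius `Y` about the origin -/
structure Dw (B Y : ℝ) (v : ℂ → VV s) : Prop where
  dif : ∀ z : ℂ, ‖z‖ < Y → DifferentiableAt ℂ v z
  hp : ∀ z : ℂ, ‖z‖ < Y → D.p (v z) = 1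
  hq : ∀ z : ℂ, ‖z‖ < Y → D.q (v z) = Complex.exp z
  sp : ∀ z : ℂ, ‖z‖ < Y → ‖cr (v z) (deriv v z)‖ ≤ B * ‖v z‖ ^ 2
  on : ∀ z : ℂ, ‖z‖ < Y → D.on (v z)

variable {D}

theorem Dw.ne {B Y : ℝ} {v : ℂ → VV s} (h : D.Dw B Y v) {z : ℂ} (hz : ‖z‖ < Y) : v z ≠ 0 :=
  D.p_eq_one_ne (h.hp z hz)

theorem Dw.pos {B Y : ℝ} {v : ℂ → VV s} (h : D.Dw B Y v) {z : ℂ} (hz : ‖z‖ < Y) : 0 < ‖v z‖ :=
  norm_pos_iff.2 (h.ne hz)

theorem Dw.diffOn {B Y : ℝ} {v : ℂ → VV s} (h : D.Dw B Y v) {S : Set ℂ} (hS : ∀ z ∈ S, ‖z‖ < Y) :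
    DifferentiableOn ℂ v S := fun z hz => (h.dif z (hS z hz)).differentiableWithinAt

end Pair

end Pool.Agent.K9h84.CI
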