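import Pool.Agent.K9h84.CI.Main

/-!
# Curves in the members of the pencil
-/

set_option autoImplicit false

open Set Filter Topology Metric

namespace Pool.Agent.K9h84.CI

variable {s : ℕ}

namespace Pair

variable (D : Pair s)

/-- **logarithmic derivative bound** with a parameter -/
theorem lda {B : ℝ} (hB : 0 ≤ B) : ∃ C : ℝ, 0 < C ∧ ∀ (α β : ℂ) (v : ℂ → VV s), ‖α‖ ≤ 1 →
    Differentiable ℂ v → (∀ z, D.on (v z)) → (∀ z, D.p (v z) = 1) →
    (∀ z, D.q (v z) = Complex.exp (α * z + β)) →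
    Bro B v → ∀ z, ‖deriv v z‖ ≤ C * ‖v z‖ := by
  obtain ⟨C, hC, hLL⟩ := D.LL hB
  refine ⟨C + 1, by positivity, fun α β v hα hvd hon hvp hvq hvB z => ?_⟩
  have hb0 : (D.b : ℂ) ≠ 0 := by
    have := D.hb
    exact_mod_cast (by omega : D.b ≠ 0)
  have hbr : (1 : ℝ) ≤ D.b := by exact_mod_cast D.hb
  set e : ℂ → ℂ := fun z => Complex.exp (-((α * z + β) / D.b)) with he
  have hed : Differentiable ℂ e := by
    rw [he]
    fun_prop
  have he' : ∀ z, deriv e z = e z * (-(α / D.b)) := fun z => by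
    have h1 : HasDerivAt (fun z : ℂ => -((α * z + β) / D.b)) (-(α * 1 / D.b)) z :=
      ((((hasDerivAt_id z).const_mul α).add_const β).div_const _).neg
    rw [mul_one] at h1
    exact h1.cexp.deriv
  have he0 : ∀ z, e z ≠ 0 := fun z => Complex.exp_ne_zero _
  have hv2 : Differentiable ℂ (fun z => e z • v z) := hed.smul hvd
  have hq2 : ∀ z, D.q (e z • v z) = 1 := by
    intro z
    rw [D.q_smul, hvq, he, ← Complex.exp_nat_mul, ← Complex.exp_add]
    have : (D.b : ℂ) * -((α * z + β) / D.b) + (α * z + β) = 0 := by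
      field_simp
      ring
    rw [this, Complex.exp_zero]
  have hB2 : Bro B (fun z => e z • v z) := hvB.smul hvd hed
  rcases (hLL v (fun z => e z • v z) e hon hvd hv2 hvp hq2 hvB hB2 (fun _ => rfl) he0 z).1
    with h1 | h1
  · nlinarith [norm_nonneg (v z)]
  · have h3 : deriv (fun z => e z • v z) z = e z • deriv v z + deriv e z • v z :=
      ((hed z).hasDerivAt.smul (hvd z).hasDerivAt).deriv
    have hep : 0 < ‖e z‖ := norm_pos_iff.2 (he0 z)
    have h4 : e z • deriv v z = (e z • deriv v z + deriv e z • v z) - deriv e z • v z := by abel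
    have h5 : ‖e z • deriv v z‖ ≤ C * (‖e z‖ * ‖v z‖) + ‖e z‖ * ‖v z‖ := by
      rw [h4]
      refine (norm_sub_le _ _).trans (add_le_add ?_ ?_)
      · rw [h3] at h1
        refine h1.trans (le_of_eq ?_)
        show C * ‖e z • v z‖ = _
        rw [norm_smul]
      · rw [norm_smul, he', norm_mul, norm_neg, norm_div, Complex.norm_natCast]
        have : ‖α‖ / D.b ≤ 1 := by
          rw [div_le_one (by linarith)]
          linarith
        have h6 : ‖e z‖ * (‖α‖ / D.b) ≤ ‖e z‖ * 1 := mul_le_mul_of_nonneg_left this hep.le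
        rw [mul_one] at h6
        exact mul_le_mul_of_nonneg_right h6 (norm_nonneg _)
    rw [norm_smul] at h5
    have h7 : ‖e z‖ * ‖deriv v z‖ ≤ ‖e z‖ * ((C + 1) * ‖v z‖) := by nlinarith
    exact le_of_mul_le_mul_left h7 hep

/-- bounded speed curves in the members of the pencil are constant -/
def HF : Prop := ∀ (B : ℝ) (v : ℂ → VV s) (c0 : ℂ), Differentiable ℂ v → (∀ z, D.on (v z)) →
  (∀ z, D.p (v z) = 1) →
  c0 ≠ 0 → (∀ z, D.q (v z) = c0) → Bro B v → ∀ z, cr (v z) (deriv v z) = 0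

/-- the Jacobian vector is almost parallel to the point where both forms are small -/
theorem cr_N_le : ∃ C : ℝ, 0 < C ∧ ∀ u : VV s, ‖u‖ = 1 → D.on u →
    ‖cr u (D.N u)‖ ≤ C * (‖D.p u‖ + ‖D.q u‖) := by
  have hg : ∀ i, ∃ K : ℝ, ∀ u ∈ Metric.sphere (0 : VV s) 1, ‖gr (D.F i) u‖ ≤ K := fun i =>
    isCompact_sph.exists_bound_of_continuousOn (D.hAA i).gr_cont.continuousOn
  choose Kg hKg using hg
  set K : ℝ := 2 + ∑ i, |Kg i| with hK
  have hs0 : 0 ≤ ∑ i, |Kg i| := Finset.sum_nonneg fun i _ => abs_nonneg _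
  have hK2 : 2 ≤ K := by linarith
  have hKK : ∀ i, Kg i ≤ K := fun i => by
    have h1 := Finset.single_le_sum (f := fun i => |Kg i|) (fun i _ => abs_nonneg _) (Finset.mem_univ i)
    have h2 := le_abs_self (Kg i)
    linarith
  set F : ℝ := (Nat.factorial (s + 2) : ℝ) * K ^ (s + 2) with hF
  have hF0 : 0 < F := by positivity
  have ha : (1 : ℝ) ≤ D.a := by exact_mod_cast D.ha
  refine ⟨((s : ℝ) + 3) * F * (D.a + D.b), by positivity, fun u hu hon => ?_⟩
  refine norm_cr_le_of (by positivity) fun l j => ?_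
  set w : VV s := u l • (Pi.single j 1 : VV s) - u j • (Pi.single l 1 : VV s) with hw
  have hwd : dt w u = 0 := by
    rw [hw, sub_dt, smul_dt, smul_dt, dt_single, dt_single]
    ring
  have h1 : dt w (D.N u) = u l * D.N u j - u j * D.N u l := by
    rw [hw, sub_dt, smul_dt, smul_dt, dt_single, dt_single]
  set M := mx w (fun i => gr (D.F i) u) with hM
  have hdet : dt w (D.N u) = M.det := dt_gcp _ _
  have hui : ∀ i, ‖u i‖ ≤ 1 := fun i => by
    rw [← hu]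
    exact le3 u i
  have hsg : ∀ a b : Fin (s + 3), ‖(Pi.single a 1 : VV s) b‖ ≤ 1 := by
    intro a b
    by_cases hab : b = a
    · rw [hab, Pi.single_eq_same, norm_one]
    · rw [Pi.single_eq_of_ne hab, norm_zero]
      exact zero_le_one
  have hent : ∀ i j, ‖M i j‖ ≤ K := by
    intro i b
    refine Fin.cases ?_ (fun i => ?_) i
    · have e : M 0 b = u l * (Pi.single j 1 : VV s) b - u j * (Pi.single l 1 : VV s) b := rfl
      rw [e]
      refine (norm_sub_le _ _).trans ?_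
      rw [norm_mul, norm_mul]
      have g1 : ‖u l‖ * ‖(Pi.single j 1 : VV s) b‖ ≤ 1 * 1 :=
        mul_le_mul (hui l) (hsg _ _) (norm_nonneg _) zero_le_one
      have g2 : ‖u j‖ * ‖(Pi.single l 1 : VV s) b‖ ≤ 1 * 1 :=
        mul_le_mul (hui j) (hsg _ _) (norm_nonneg _) zero_le_one
      linarith
    · have e : M i.succ b = gr (D.F i) u b := rfl
      rw [e]
      exact (le3 _ b).trans ((hKg i u (mem_sphere_zero_iff_norm.2 hu)).trans (hKK i))
  have hadj : ∀ i j, ‖M.adjugate i j‖ ≤ F := by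
    intro i j
    rw [Matrix.adjugate_fin_succ_eq_det_submatrix, norm_mul, norm_pow, norm_neg, norm_one, one_pow,
      one_mul]
    have h2 := Matrix.det_le (A := M.submatrix (Fin.succAbove j) (Fin.succAbove i))
      (abv := (NormedField.toAbsoluteValue ℂ)) (x := K) (fun a b => hent _ _)
    rw [Fintype.card_fin, nsmul_eq_mul] at h2
    exact h2
  obtain ⟨j0, hj0⟩ := exists_max u
  rw [hu] at hj0
  have hmul : M.det * u j0 = ∑ i, M.adjugate j0 i * (M.mulVec u) i := by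
    have h3 : M.adjugate.mulVec (M.mulVec u) = M.det • u := by
      rw [Matrix.mulVec_mulVec, Matrix.adjugate_mul, Matrix.smul_mulVec, Matrix.one_mulVec]
    have h4 := congrFun h3 j0
    rw [Pi.smul_apply, smul_eq_mul] at h4
    rw [← h4]
    rfl
  have hmv : ∀ i, ‖(M.mulVec u) i‖ ≤ (D.a + D.b) * (‖D.p u‖ + ‖D.q u‖) := by
    intro i
    have hb0 : (0 : ℝ) ≤ D.b := Nat.cast_nonneg _
    have hp0 := norm_nonneg (D.p u)
    have hq0 := norm_nonneg (D.q u)
    refine Fin.cases ?_ (fun i => ?_) i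
    · have e : M.mulVec u 0 = dt w u := rfl
      rw [e, hwd, norm_zero]
      positivity
    · have e : M.mulVec u i.succ = dt (gr (D.F i) u) u := rfl
      rw [e, dt_comm]
      refine Fin.cases ?_ (fun i => ?_) i
      · have e1 : dt u (gr (D.F 0) u) = D.a * D.p u := euler D.hP u
        rw [e1, norm_mul, Complex.norm_natCast]
        nlinarith [mul_nonneg (by linarith : (0 : ℝ) ≤ D.a) hq0, mul_nonneg hb0 hp0, mul_nonneg hb0 hq0]
      · refine Fin.cases ?_ (fun i => ?_) i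
        · have e1 : dt u (gr (D.F (Fin.succ 0)) u) = D.b * D.q u := euler D.hQ u
          rw [e1, norm_mul, Complex.norm_natCast]
          nlinarith [mul_nonneg (by linarith : (0 : ℝ) ≤ D.a) hq0, mul_nonneg hb0 hp0,
            mul_nonneg (by linarith : (0 : ℝ) ≤ D.a) hp0]
        · have e1 : dt u (gr (D.F (Fin.succ (Fin.succ i))) u) = 0 := D.euler_on hon i
          rw [e1, norm_zero]
          positivity
  rw [← h1, hdet]
  have h5 : ‖M.det‖ = ‖M.det * u j0‖ := by rw [norm_mul, hj0, mul_one]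
  rw [h5, hmul]
  refine (norm_sum_le _ _).trans ?_
  have h6 : ∀ i ∈ Finset.univ, ‖M.adjugate j0 i * (M.mulVec u) i‖ ≤
      F * ((D.a + D.b) * (‖D.p u‖ + ‖D.q u‖)) := fun i _ => by
    rw [norm_mul]
    exact mul_le_mul (hadj _ _) (hmv i) (norm_nonneg _) hF0.le
  refine (Finset.sum_le_sum h6).trans (le_of_eq ?_)
  rw [Finset.sum_const, Finset.card_univ, Fintype.card_fin, nsmul_eq_mul]
  push_cast
  ring

/-- the same bound on the surfaces `p = 1`, `q = c0` -/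
theorem cr_N_fib' {m : ℕ} (ha : m ≤ D.a) (hb : m ≤ D.b) (c0 : ℂ) : ∃ C : ℝ, 0 < C ∧
    ∀ x : VV s, 1 ≤ ‖x‖ → D.on x → D.p x = 1 → D.q x = c0 →
    ‖cr x (D.N x)‖ * ‖x‖ ^ m ≤ C * ‖x‖ ^ (D.k + 2) := by
  obtain ⟨C, hC, h⟩ := D.cr_N_le
  refine ⟨C * (1 + ‖c0‖), by positivity, fun x hx1 hon hp hq => ?_⟩
  have hxp : 0 < ‖x‖ := by linarith
  have hx0 : x ≠ 0 := norm_pos_iff.1 hxp
  obtain ⟨u, hu, hxu, h0⟩ := exists_unit hx0
  have hun : D.on u := D.on_of_smul h0 (by rwa [← hxu])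
  have h1 := h u hu hun
  have e1 : ‖cr x (D.N x)‖ = ‖x‖ ^ (D.k + 2) * ‖cr u (D.N u)‖ := by
    conv_lhs => rw [hxu]
    rw [D.N_hom h0, cr_smul, smul_cr, norm_smul, norm_smul, norm_pow, Complex.norm_real, norm_norm]
    ring
  have e2 : ‖x‖ ^ D.a * ‖D.p u‖ = 1 := by
    have h2 := hp
    rw [hxu, D.p_smul] at h2
    have h3 := congrArg norm h2
    rw [norm_mul, norm_pow, Complex.norm_real, norm_norm, norm_one] at h3
    exact h3
  have e3 : ‖x‖ ^ D.b * ‖D.q u‖ = ‖c0‖ := by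
    have h2 := hq
    rw [hxu, D.q_smul] at h2
    have h3 := congrArg norm h2
    rw [norm_mul, norm_pow, Complex.norm_real, norm_norm] at h3
    exact h3
  have hpu : ‖x‖ ^ m * ‖D.p u‖ ≤ 1 := by
    rw [← e2]
    exact mul_le_mul_of_nonneg_right (pow_le_pow_right₀ hx1 ha) (norm_nonneg _)
  have hqu : ‖x‖ ^ m * ‖D.q u‖ ≤ ‖c0‖ := by
    rw [← e3]
    exact mul_le_mul_of_nonneg_right (pow_le_pow_right₀ hx1 hb) (norm_nonneg _)
  rw [e1]
  calc ‖x‖ ^ (D.k + 2) * ‖cr u (D.N u)‖ * ‖x‖ ^ m ≤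
      ‖x‖ ^ (D.k + 2) * (C * (‖D.p u‖ + ‖D.q u‖)) * ‖x‖ ^ m := by gcongr
    _ = C * ‖x‖ ^ (D.k + 2) * (‖x‖ ^ m * ‖D.p u‖ + ‖x‖ ^ m * ‖D.q u‖) := by ring
    _ ≤ C * ‖x‖ ^ (D.k + 2) * (1 + ‖c0‖) := by gcongr
    _ = C * (1 + ‖c0‖) * ‖x‖ ^ (D.k + 2) := by ring

theorem cr_N_fib (hk : 1 ≤ D.k) (ha : 3 ≤ D.a) (hb : 3 ≤ D.b) (c0 : ℂ) : ∃ C : ℝ, 0 < C ∧
    ∀ x : VV s, 1 ≤ ‖x‖ → D.on x → D.p x = 1 → D.q x = c0 →
    ‖cr x (D.N x)‖ ≤ C * ‖x‖ ^ (D.k - 1) := by
  obtain ⟨C, hC, h⟩ := D.cr_N_fib' ha hb c0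
  refine ⟨C, hC, fun x hx1 hon hp hq => ?_⟩
  have h1 := h x hx1 hon hp hq
  have e4 : ‖x‖ ^ (D.k + 2) = ‖x‖ ^ (D.k - 1) * ‖x‖ ^ 3 := by
    rw [← pow_add]
    congr 1
    omega
  rw [e4, ← mul_assoc] at h1
  exact le_of_mul_le_mul_right h1 (by positivity)

theorem cr_N_fib2 (ha : 2 ≤ D.a) (hb : 2 ≤ D.b) (c0 : ℂ) : ∃ C : ℝ, 0 < C ∧
    ∀ x : VV s, 1 ≤ ‖x‖ → D.on x → D.p x = 1 → D.q x = c0 →
    ‖cr x (D.N x)‖ ≤ C * ‖x‖ ^ D.k := by
  obtain ⟨C, hC, h⟩ := D.cr_N_fib' ha hb c0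
  refine ⟨C, hC, fun x hx1 hon hp hq => ?_⟩
  have h1 := h x hx1 hon hp hq
  rw [pow_add, ← mul_assoc] at h1
  exact le_of_mul_le_mul_right h1 (by positivity)

theorem hf_of_three (hk : 1 ≤ D.k) (ha : 3 ≤ D.a) (hb : 3 ≤ D.b) : D.HF := by
  intro B v c0 hvd hon hvp hc0 hvq hvB
  have hne : ∀ z, v z ≠ 0 := fun z => D.p_eq_one_ne (hvp z)
  have hB0 : 0 ≤ B := hvB.nonneg (hne 0)
  obtain ⟨C, hC, hld⟩ := D.lda hB0
  have hvl : ∀ z, ‖deriv v z‖ ≤ C * ‖v z‖ := hld 0 (Complex.log c0) v (by simp) hvd hon hvp (fun z => by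
    rw [hvq, zero_mul, zero_add, Complex.exp_log hc0]) hvB
  obtain ⟨c, hc, hN⟩ := D.N_lower
  obtain ⟨Cf, hCf, hfib⟩ := D.cr_N_fib hk ha hb c0
  set w : ℂ → Fin (s + 3) → Fin (s + 3) → ℂ := fun z => cr (v z) (deriv v z) with hw
  have hv'd : Differentiable ℂ (deriv v) := fun z => hvd.deriv z
  have hwd : Differentiable ℂ w := by
    have h1 := fun i => (differentiable_pi.1 hvd) i
    have h2 := fun i => (differentiable_pi.1 hv'd) i
    rw [differentiable_pi]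
    intro i
    rw [differentiable_pi]
    intro j
    exact ((h1 i).mul (h2 j)).sub ((h1 j).mul (h2 i))
  set M : ℝ := max 1 (‖c0‖ / c + 1) with hM
  have hM1 : 1 ≤ M := le_max_left _ _
  set C1 : ℝ := C / c * Cf with hC1
  have hC10 : 0 ≤ C1 := by positivity
  -- bound where the curve is large
  have hbig : ∀ z, M ≤ ‖v z‖ → ‖w z‖ * ‖v z‖ ≤ C1 := by
    intro z hz
    have hv1 : 1 ≤ ‖v z‖ := hM1.trans hz
    have hvp' : 0 < ‖v z‖ := by linarith
    have hNl : c * ‖v z‖ ^ (D.k + 1) ≤ ‖D.N (v z)‖ := by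
      rcases hN (v z) (hne z) (hon z) with h | h
      · exact h
      · exfalso
        rw [hvp, hvq, norm_one, one_mul] at h
        have h1 : ‖v z‖ ≤ ‖v z‖ ^ (D.a + D.b) := le_self_pow₀ hv1 (by omega)
        have h2 : ‖c0‖ / c + 1 ≤ ‖v z‖ := (le_max_right _ _).trans hz
        have h3 : c * (‖c0‖ / c + 1) ≤ c * ‖v z‖ ^ (D.a + D.b) :=
          mul_le_mul_of_nonneg_left (h2.trans h1) hc.le
        have h4 : c * (‖c0‖ / c + 1) = ‖c0‖ + c := by field_simp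
        linarith
    have hNpos : 0 < ‖D.N (v z)‖ := lt_of_lt_of_le (by positivity) hNl
    obtain ⟨j, hj⟩ := exists_max (D.N (v z))
    have hj0 : D.N (v z) j ≠ 0 := by
      rw [← norm_pos_iff, hj]
      exact hNpos
    have o1 : dt (gr D.P (v z)) (deriv v z) = 0 := D.orth_p hvd hvp z
    have o2 : dt (gr D.Q (v z)) (deriv v z) = 0 := D.orth_q hvd hvq z
    have hpar : cr (deriv v z) (D.N (v z)) = 0 := D.par_N o1 o2 fun i => D.orth_R hvd hon i z
    have h5 := parallel hpar hj0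
    set l : ℂ := deriv v z j / D.N (v z) j with hl
    have hln : ‖l‖ * ‖D.N (v z)‖ ≤ C * ‖v z‖ := by
      rw [hl, norm_div, hj, div_mul_cancel₀ _ hNpos.ne']
      exact (le3 _ j).trans (hvl z)
    have hEn : ‖cr (v z) (D.N (v z))‖ ≤ Cf * ‖v z‖ ^ (D.k - 1) :=
      hfib (v z) hv1 (hon z) (hvp z) (hvq z)
    have h8 : w z = l • cr (v z) (D.N (v z)) := by
      rw [hw]
      simp only
      conv_lhs => rw [h5]
      rw [cr_smul]
    have h9 : ‖l‖ * (c * ‖v z‖ ^ (D.k + 1)) ≤ C * ‖v z‖ :=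
      (mul_le_mul_of_nonneg_left hNl (norm_nonneg _)).trans hln
    have h10 : ‖v z‖ ^ (D.k + 1) = ‖v z‖ ^ (D.k - 1) * (‖v z‖ * ‖v z‖) := by
      rw [← pow_two, ← pow_add]
      congr 1
      omega
    rw [h10] at h9
    have h11 : (‖l‖ * ‖v z‖ ^ (D.k - 1) * ‖v z‖) * (c * ‖v z‖) ≤ (C / c) * (c * ‖v z‖) := by
      have : C / c * (c * ‖v z‖) = C * ‖v z‖ := by field_simp
      rw [this]
      nlinarith
    have h12 : ‖l‖ * ‖v z‖ ^ (D.k - 1) * ‖v z‖ ≤ C / c :=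
      le_of_mul_le_mul_right h11 (by positivity)
    rw [h8, norm_smul]
    calc ‖l‖ * ‖cr (v z) (D.N (v z))‖ * ‖v z‖ ≤
        ‖l‖ * (Cf * ‖v z‖ ^ (D.k - 1)) * ‖v z‖ := by gcongr
      _ = (‖l‖ * ‖v z‖ ^ (D.k - 1) * ‖v z‖) * Cf := by ring
      _ ≤ C / c * Cf := by gcongr
  have hwb : ∀ z, ‖w z‖ ≤ max (B * M ^ 2) C1 := by
    intro z
    rcases le_or_gt M ‖v z‖ with h | h
    · refine le_trans ?_ (le_max_right _ _)
      have h1 := hbig z h
      have h2 : 1 ≤ ‖v z‖ := hM1.trans h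
      have h3 := norm_nonneg (w z)
      nlinarith
    · refine le_trans ?_ (le_max_left _ _)
      refine (hvB z).trans ?_
      have h1 : ‖v z‖ ^ 2 ≤ M ^ 2 := pow_le_pow_left₀ (norm_nonneg _) h.le 2
      exact mul_le_mul_of_nonneg_left h1 hB0
  have hwc : ∀ z, w z = w 0 := by
    intro z
    refine hwd.apply_eq_apply_of_bounded ?_ z 0
    rw [isBounded_iff_forall_norm_le]
    refine ⟨max (B * M ^ 2) C1, ?_⟩
    rintro _ ⟨y, rfl⟩
    exact hwb y
  by_cases hub : ∃ K, ∀ z, ‖v z‖ ≤ K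
  · obtain ⟨K, hK⟩ := hub
    have hvc : ∀ z, v z = v 0 := by
      intro z
      refine hvd.apply_eq_apply_of_bounded ?_ z 0
      rw [isBounded_iff_forall_norm_le]
      refine ⟨K, ?_⟩
      rintro _ ⟨y, rfl⟩
      exact hK y
    intro z
    have h1 : v = fun _ => v 0 := funext hvc
    have h2 : deriv v z = 0 := by
      rw [h1, deriv_const]
    have h0 : cr (v z) 0 = 0 := by
      have := cr_smul (v z) 0 0
      rw [zero_smul, zero_smul] at this
      exact this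
    rw [h2, h0]
  · push Not at hub
    have h0 : w 0 = 0 := by
      by_contra hw0
      have hw0' : 0 < ‖w 0‖ := norm_pos_iff.2 hw0
      obtain ⟨z, hz⟩ := hub (max M (C1 / ‖w 0‖ + 1))
      have h1 := hbig z ((le_max_left _ _).trans hz.le)
      rw [hwc] at h1
      have h2 : C1 / ‖w 0‖ + 1 < ‖v z‖ := lt_of_le_of_lt (le_max_right _ _) hz
      have h3 : ‖w 0‖ * (C1 / ‖w 0‖ + 1) < ‖w 0‖ * ‖v z‖ := mul_lt_mul_of_pos_left h2 hw0'
      have h4 : ‖w 0‖ * (C1 / ‖w 0‖ + 1) = C1 + ‖w 0‖ := by field_simp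
      linarith
    intro z
    exact (hwc z).trans h0

end Pair

end Pool.Agent.K9h84.CI
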