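import Pool.Agent.K9h84.CI.Base

/-!
# Algebraic relations
-/

set_option autoImplicit false

open Set Filter Topology Metric

namespace Pool.Agent.K9h84.CI

/-- exponent vectors of the monomials used below -/
noncomputable def ex (d : ℕ) (i j : ℕ) : Fin 3 →₀ ℕ :=
  Finsupp.single 0 i + Finsupp.single 1 j + Finsupp.single 2 (2 * d - i - j)

theorem ex_zero (d i j : ℕ) : ex d i j 0 = i := by
  simp [ex]

theorem ex_one (d i j : ℕ) : ex d i j 1 = j := by
  simp [ex]

theorem ex_two (d i j : ℕ) : ex d i j 2 = 2 * d - i - j := by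
  simp [ex]

theorem ex_degree (d i j : ℕ) (hi : i ≤ d) (hj : j ≤ d) : (ex d i j).degree = 2 * d := by
  rw [Finsupp.degree_eq_sum, Fin.sum_univ_three, ex_zero, ex_one, ex_two]
  omega

/-- three polynomials in one variable satisfy a homogeneous relation -/
theorem alg_rel (φ : Fin 3 → Polynomial ℂ) : ∃ (n : ℕ) (G : MvPolynomial (Fin 3) ℂ), G ≠ 0 ∧ G.IsHomogeneous n ∧
    ∀ t : ℂ, MvPolynomial.eval (fun i => (φ i).eval t) G = 0 := by
  set N : ℕ := max (max (φ 0).natDegree (φ 1).natDegree) (φ 2).natDegree with hN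
  set d : ℕ := 2 * N + 1 with hd
  have h0 : (φ 0).natDegree ≤ N := by omega
  have h1 : (φ 1).natDegree ≤ N := by omega
  have h2 : (φ 2).natDegree ≤ N := by omega
  have hmem : ∀ x : Fin (d + 1) × Fin (d + 1),
      φ 0 ^ (x.1 : ℕ) * φ 1 ^ (x.2 : ℕ) * φ 2 ^ (2 * d - x.1 - x.2) ∈
        Polynomial.degreeLT ℂ (2 * d * N + 1) := by
    intro x
    have hx1 := x.1.2
    have hx2 := x.2.2
    rw [Polynomial.mem_degreeLT]
    refine lt_of_le_of_lt Polynomial.degree_le_natDegree ?_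
    have e1 : (φ 0 ^ (x.1 : ℕ)).natDegree ≤ x.1 * N :=
      Polynomial.natDegree_pow_le.trans (Nat.mul_le_mul_left _ h0)
    have e2 : (φ 1 ^ (x.2 : ℕ)).natDegree ≤ x.2 * N :=
      Polynomial.natDegree_pow_le.trans (Nat.mul_le_mul_left _ h1)
    have e3 : (φ 2 ^ (2 * d - x.1 - x.2)).natDegree ≤ (2 * d - x.1 - x.2) * N :=
      Polynomial.natDegree_pow_le.trans (Nat.mul_le_mul_left _ h2)
    have e4 := (Polynomial.natDegree_mul_le (p := φ 0 ^ (x.1 : ℕ) * φ 1 ^ (x.2 : ℕ))
      (q := φ 2 ^ (2 * d - x.1 - x.2)))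
    have e5 := (Polynomial.natDegree_mul_le (p := φ 0 ^ (x.1 : ℕ)) (q := φ 1 ^ (x.2 : ℕ)))
    have e6 : (x.1 : ℕ) * N + x.2 * N + (2 * d - x.1 - x.2) * N = 2 * d * N := by
      rw [← add_mul, ← add_mul]
      congr 1
      omega
    have e7 : (φ 0 ^ (x.1 : ℕ) * φ 1 ^ (x.2 : ℕ) * φ 2 ^ (2 * d - x.1 - x.2)).natDegree <
        2 * d * N + 1 := by omega
    exact_mod_cast e7
  set w : Fin (d + 1) × Fin (d + 1) → Polynomial.degreeLT ℂ (2 * d * N + 1) :=
    fun x => ⟨_, hmem x⟩ with hw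
  have hdep : ¬ LinearIndependent ℂ w := by
    intro hli
    have : Module.Finite ℂ (Polynomial.degreeLT ℂ (2 * d * N + 1)) :=
      Module.Finite.equiv (Polynomial.degreeLTEquiv ℂ (2 * d * N + 1)).symm
    have h3 := hli.fintype_card_le_finrank
    rw [(Polynomial.degreeLTEquiv ℂ (2 * d * N + 1)).finrank_eq, Module.finrank_fin_fun,
      Fintype.card_prod, Fintype.card_fin] at h3
    rw [hd] at h3
    nlinarith
  rw [Fintype.not_linearIndependent_iff] at hdep
  obtain ⟨g, hg, ⟨x0, hx0⟩⟩ := hdep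
  have hg' : ∑ x, g x • (φ 0 ^ (x.1 : ℕ) * φ 1 ^ (x.2 : ℕ) * φ 2 ^ (2 * d - x.1 - x.2)) = 0 := by
    have h3 := congrArg (Submodule.subtype _) hg
    rw [map_sum, map_zero] at h3
    rw [← h3]
    refine Finset.sum_congr rfl fun x _ => ?_
    rw [map_smul]
    rfl
  refine ⟨2 * d, ∑ x : Fin (d + 1) × Fin (d + 1), MvPolynomial.monomial (ex d x.1 x.2) (g x),
    ?_, ?_, ?_⟩
  · intro h3
    apply hx0
    have h4 := congrArg (MvPolynomial.coeff (ex d x0.1 x0.2)) h3
    rw [MvPolynomial.coeff_sum, MvPolynomial.coeff_zero, Finset.sum_eq_single x0] at h4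
    · rw [MvPolynomial.coeff_monomial, if_pos rfl] at h4
      exact h4
    · intro x _ hx
      rw [MvPolynomial.coeff_monomial, if_neg]
      intro h5
      apply hx
      have h6 := DFunLike.congr_fun h5 0
      have h7 := DFunLike.congr_fun h5 1
      rw [ex_zero, ex_zero] at h6
      rw [ex_one, ex_one] at h7
      exact Prod.ext (Fin.ext h6) (Fin.ext h7)
    · intro h; exact absurd (Finset.mem_univ _) h
  · refine MvPolynomial.IsHomogeneous.sum _ _ _ fun x _ => ?_
    refine MvPolynomial.isHomogeneous_monomial _ ?_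
    exact ex_degree d x.1 x.2 (by have := x.1.2; omega) (by have := x.2.2; omega)
  · intro t
    have h4 := congrArg (Polynomial.eval t) hg'
    rw [Polynomial.eval_finsetSum, Polynomial.eval_zero] at h4
    rw [map_sum, ← h4]
    refine Finset.sum_congr rfl fun x _ => ?_
    rw [MvPolynomial.eval_monomial, Finsupp.prod_fintype _ _ (fun i => pow_zero _),
      Fin.prod_univ_three, ex_zero, ex_one, ex_two]
    simp only [Polynomial.eval_smul, Polynomial.eval_mul, Polynomial.eval_pow, smul_eq_mul]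

end Pool.Agent.K9h84.CI
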