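import Pool.Agent.K9h84.CI.Form
import Pool.Agent.K9h84.CI.Rel

/-!
# Forms which do not vanish identically on the surface

Near a point of the cone where the gradients of the `R i` are independent three suitable linear forms
are coordinates, so that a nonzero polynomial in these three linear forms does not vanish identically
on the cone.
-/

set_option autoImplicit false

open Set Filter Topology Metric

namespace Pool.Agent.K9h84.CI

variable {s : ℕ}

theorem exists_ext {m : ℕ} (hm : m < s + 3) {A : Fin m → VV s} (h : LinearIndependent ℂ A) :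
    ∃ w : VV s, LinearIndependent ℂ (Fin.cons (α := fun _ => VV s) w A : Fin (m + 1) → VV s) := by
  have hspan : Submodule.span ℂ (Set.range A) ≠ ⊤ := by
    intro htop
    have h1 := finrank_span_eq_card h
    rw [htop, finrank_top, Module.finrank_fin_fun, Fintype.card_fin] at h1
    omega
  obtain ⟨w, -, hw⟩ := SetLike.exists_of_lt (lt_top_iff_ne_top.2 hspan)
  exact ⟨w, linearIndependent_finCons.2 ⟨h, hw⟩⟩

/-- the linear form `v ↦ dt a v` -/
noncomputable def dtL (a : VV s) : VV s →L[ℂ] ℂ :=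
  LinearMap.toContinuousLinearMap
    { toFun := fun v => dt a v
      map_add' := fun x y => dt_add a x y
      map_smul' := fun c x => dt_smul a x c }

theorem dtL_apply (a v : VV s) : dtL a v = dt a v := rfl

/-- the linear map attached to a family of vectors -/
noncomputable def lin (A : Fin (s + 3) → VV s) : VV s →L[ℂ] VV s :=
  ContinuousLinearMap.pi fun i => dtL (A i)

theorem lin_apply (A : Fin (s + 3) → VV s) (v : VV s) (i : Fin (s + 3)) : lin A v i = dt (A i) v := rfl

theorem lin_surj {A : Fin (s + 3) → VV s} (h : LinearIndependent ℂ A) : (lin A).range = ⊤ := by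
  have hspan : Submodule.span ℂ (Set.range A) = ⊤ :=
    h.span_eq_top_of_card_eq_finrank (by rw [Fintype.card_fin, Module.finrank_fin_fun])
  have hinj : Function.Injective ((lin A : VV s →L[ℂ] VV s) : VV s →ₗ[ℂ] VV s) := by
    rw [← LinearMap.ker_eq_bot, LinearMap.ker_eq_bot']
    intro v hv
    have h1 : ∀ i, dt (A i) v = 0 := fun i => congrFun hv i
    have h2 : ∀ g : VV s, dt g v = 0 := by
      intro g
      have hg : g ∈ Submodule.span ℂ (Set.range A) := by rw [hspan]; exact Submodule.mem_top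
      induction hg using Submodule.span_induction with
      | mem y hy =>
        obtain ⟨i, rfl⟩ := hy
        exact h1 i
      | zero => rw [dt_comm, dt_zero]
      | add y z _ _ hy hz => rw [add_dt, hy, hz, add_zero]
      | smul c y _ hy => rw [smul_dt, hy, mul_zero]
    funext j
    rw [← dt_single j v, h2]
    rfl
  have hsur := LinearMap.injective_iff_surjective.1 hinj
  exact LinearMap.range_eq_top.2 hsur

theorem ev_strict {P : PP s} {d : ℕ} (hP : P.IsHomogeneous d) (x0 : VV s) :
    HasStrictFDerivAt (fun x : VV s => MvPolynomial.eval x P) (dtL (gr P x0)) x0 := by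
  obtain ⟨A, hA⟩ := exists_dd hP
  have h1 : AnalyticAt ℂ (fun x : VV s => MvPolynomial.eval x P) x0 :=
    (AnalyticOnNhd.eval_mvPolynomial P) x0 (mem_univ x0)
  have h2 := h1.hasStrictFDerivAt
  have h3 : fderiv ℂ (fun x : VV s => MvPolynomial.eval x P) x0 = dtL (gr P x0) := by
    ext v
    rw [dtL_apply]
    have h4 : HasDerivAt (fun t : ℂ => x0 + t • v) v 0 := by
      have := ((hasDerivAt_id (0 : ℂ)).smul_const v).const_add x0
      rwa [one_smul] at this
    have e0 : x0 + (0 : ℂ) • v = x0 := by rw [zero_smul, add_zero]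
    have h5 := hA.hasDerivAt h4
    rw [e0] at h5
    have h6 : HasFDerivAt (fun x : VV s => MvPolynomial.eval x P)
        (fderiv ℂ (fun x : VV s => MvPolynomial.eval x P) x0) (x0 + (0 : ℂ) • v) := by
      rw [e0]
      exact h2.hasFDerivAt
    have h7 := h6.comp_hasDerivAt (0 : ℂ) h4
    exact h7.unique h5
  rw [← h3]
  exact h2

/-- three linear forms which are coordinates near a point of the surface -/
theorem open_pt {R : Fin s → PP s} {d : Fin s → ℕ} (hR : ∀ i, (R i).IsHomogeneous (d i)) {x0 : VV s}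
    (hli : LinearIndependent ℂ (fun i => gr (R i) x0)) : ∃ l : Fin 3 → VV s,
    ∀ U ∈ 𝓝 x0, ∃ V ∈ 𝓝 (fun m => dt (l m) x0), ∀ y ∈ V, ∃ x ∈ U,
      (∀ i, MvPolynomial.eval x (R i) = MvPolynomial.eval x0 (R i)) ∧ ∀ m, dt (l m) x = y m := by
  obtain ⟨l2, h2⟩ := exists_ext (by omega) hli
  obtain ⟨l1, h1⟩ := exists_ext (by omega) h2
  obtain ⟨l0, h0⟩ := exists_ext (by omega) h1
  set A : Fin (s + 3) → VV s := Fin.cons (α := fun _ => VV s) l0 (Fin.cons (α := fun _ => VV s) l1
    (Fin.cons (α := fun _ => VV s) l2 (fun i => gr (R i) x0))) with hA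
  set Φ : VV s → VV s := fun x => Fin.cons (α := fun _ => ℂ) (dt l0 x)
    (Fin.cons (α := fun _ => ℂ) (dt l1 x) (Fin.cons (α := fun _ => ℂ) (dt l2 x)
      (fun i => MvPolynomial.eval x (R i)))) with hΦ
  have hstr : HasStrictFDerivAt Φ (lin A) x0 := by
    rw [hasStrictFDerivAt_pi']
    intro i
    refine Fin.cases ?_ (fun i => ?_) i
    · exact (dtL l0).hasStrictFDerivAt
    · refine Fin.cases ?_ (fun i => ?_) i
      · exact (dtL l1).hasStrictFDerivAt
      · refine Fin.cases ?_ (fun i => ?_) i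
        · exact (dtL l2).hasStrictFDerivAt
        · exact ev_strict (hR i) x0
  have hmap := hstr.map_nhds_eq_of_surj (lin_surj h0)
  refine ⟨![l0, l1, l2], fun U hU => ?_⟩
  have h3 : Φ '' U ∈ 𝓝 (Φ x0) := by
    rw [← hmap]
    exact image_mem_map hU
  set J : (Fin 3 → ℂ) → VV s := fun y => Fin.cons (α := fun _ => ℂ) (y 0)
    (Fin.cons (α := fun _ => ℂ) (y 1) (Fin.cons (α := fun _ => ℂ) (y 2)
      (fun i => MvPolynomial.eval x0 (R i)))) with hJ
  have hJc : Continuous J := by
    rw [continuous_pi_iff]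
    intro i
    refine Fin.cases ?_ (fun i => ?_) i
    · exact continuous_apply 0
    · refine Fin.cases ?_ (fun i => ?_) i
      · exact continuous_apply 1
      · refine Fin.cases ?_ (fun i => ?_) i
        · exact continuous_apply 2
        · exact continuous_const
  have hJ0 : J (fun m => dt ((![l0, l1, l2] : Fin 3 → VV s) m) x0) = Φ x0 := rfl
  refine ⟨J ⁻¹' (Φ '' U), hJc.continuousAt.preimage_mem_nhds (by rw [hJ0]; exact h3), ?_⟩
  rintro y ⟨x, hx, hxy⟩
  refine ⟨x, hx, fun i => ?_, fun m => ?_⟩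
  · have := congrFun hxy i.succ.succ.succ
    exact this
  · fin_cases m
    · exact congrFun hxy 0
    · exact congrFun hxy 1
    · exact congrFun hxy 2

/-- a nonzero polynomial does not vanish on a nonempty open set -/
theorem exists_nonvanish {G : MvPolynomial (Fin 3) ℂ} (hG : G ≠ 0) {y0 : Fin 3 → ℂ}
    {V : Set (Fin 3 → ℂ)} (hV : V ∈ 𝓝 y0) : ∃ y ∈ V, MvPolynomial.eval y G ≠ 0 := by
  by_contra hcon
  push Not at hcon
  obtain ⟨ε, hε, hball⟩ := Metric.mem_nhds_iff.1 hV
  apply hG
  refine MvPolynomial.funext_set (fun i => Metric.ball (y0 i) ε) (fun i => ?_) fun x hx => ?_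
  · exact infinite_of_mem_nhds (y0 i) (Metric.ball_mem_nhds _ hε)
  · rw [map_zero]
    refine hcon x (hball ?_)
    rw [Metric.mem_ball, dist_pi_lt_iff hε]
    exact fun i => hx i (mem_univ i)

/-- linear forms as polynomials -/
noncomputable def lf (a : VV s) : PP s := ∑ i, MvPolynomial.C (a i) * MvPolynomial.X i

theorem lf_hom (a : VV s) : (lf a).IsHomogeneous 1 := by
  refine MvPolynomial.IsHomogeneous.sum _ _ _ fun i _ => ?_
  have := (MvPolynomial.isHomogeneous_C (Fin (s + 3)) (a i)).mul (MvPolynomial.isHomogeneous_X ℂ i)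
  rwa [zero_add] at this

theorem lf_ev (a x : VV s) : MvPolynomial.eval x (lf a) = dt a x := by
  unfold lf dt
  rw [map_sum]
  refine Finset.sum_congr rfl fun i _ => ?_
  rw [map_mul, MvPolynomial.eval_C, MvPolynomial.eval_X]

/-- substitution of three linear forms -/
theorem comp_hom {G : MvPolynomial (Fin 3) ℂ} {n : ℕ} (hG : G.IsHomogeneous n) (l : Fin 3 → VV s) :
    (MvPolynomial.bind₁ (fun m => lf (l m)) G).IsHomogeneous n := by
  have h := MvPolynomial.IsHomogeneous.aeval hG (fun m => lf (l m)) (n := 1) fun m => lf_hom (l m)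
  rw [one_mul] at h
  exact h

theorem comp_ev (G : MvPolynomial (Fin 3) ℂ) (l : Fin 3 → VV s) (x : VV s) :
    MvPolynomial.eval x (MvPolynomial.bind₁ (fun m => lf (l m)) G) =
      MvPolynomial.eval (fun m => dt (l m) x) G := by
  have h1 : MvPolynomial.eval x (MvPolynomial.bind₁ (fun m => lf (l m)) G) =
      MvPolynomial.eval (fun m => MvPolynomial.eval x (lf (l m))) G :=
    MvPolynomial.eval₂Hom_bind₁ (RingHom.id ℂ) x _ G
  rw [h1]
  congr 2
  funext m
  rw [lf_ev]

/-- finitely many parametrised curves lie on a form which does not vanish identically on the cone -/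
theorem exists_form {R : Fin s → PP s} {d : Fin s → ℕ} (hR : ∀ i, (R i).IsHomogeneous (d i))
    {x0 : VV s} (hx0 : x0 ≠ 0) (h0 : ∀ i, MvPolynomial.eval x0 (R i) = 0)
    (hli : LinearIndependent ℂ (fun i => gr (R i) x0)) {N : ℕ}
    (φ : Fin N → Fin (s + 3) → Polynomial ℂ) : ∃ (n : ℕ) (G : PP s), G.IsHomogeneous n ∧
      (∃ x : VV s, x ≠ 0 ∧ (∀ i, MvPolynomial.eval x (R i) = 0) ∧ MvPolynomial.eval x G ≠ 0) ∧
      ∀ j t, MvPolynomial.eval (fun i => (φ j i).eval t) G = 0 := by
  obtain ⟨l, hl⟩ := open_pt hR hli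
  set ψ : Fin N → Fin 3 → Polynomial ℂ := fun j m => ∑ i, Polynomial.C (l m i) * φ j i with hψ
  have hψe : ∀ j m t, (ψ j m).eval t = dt (l m) (fun i => (φ j i).eval t) := by
    intro j m t
    rw [hψ]
    simp only
    rw [Polynomial.eval_finset_sum]
    unfold dt
    refine Finset.sum_congr rfl fun i _ => ?_
    rw [Polynomial.eval_mul, Polynomial.eval_C]
  choose n G hG0 hGh hG using fun j => alg_rel (ψ j)
  have hprod : (∏ j, G j) ≠ 0 := Finset.prod_ne_zero_iff.2 fun j _ => hG0 j
  have hhom : (∏ j, G j).IsHomogeneous (∑ j, n j) :=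
    MvPolynomial.IsHomogeneous.prod _ _ _ fun j _ => hGh j
  refine ⟨∑ j, n j, MvPolynomial.bind₁ (fun m => lf (l m)) (∏ j, G j), comp_hom hhom l, ?_,
    fun j t => ?_⟩
  · have hU : {x : VV s | x ≠ 0} ∈ 𝓝 x0 := isOpen_ne.mem_nhds hx0
    obtain ⟨V, hV, hVx⟩ := hl _ hU
    obtain ⟨y, hy, hyG⟩ := exists_nonvanish hprod hV
    obtain ⟨x, hx, hxR, hxl⟩ := hVx y hy
    refine ⟨x, hx, fun i => by rw [hxR, h0], ?_⟩
    rw [comp_ev]
    have : (fun m => dt (l m) x) = y := funext hxl
    rw [this]
    exact hyG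
  · rw [comp_ev, map_prod]
    refine Finset.prod_eq_zero (Finset.mem_univ j) ?_
    have h1 := hG j t
    have h2 : (fun m => (ψ j m).eval t) = fun m => dt (l m) (fun i => (φ j i).eval t) := by
      funext m
      exact hψe j m t
    rw [h2] at h1
    exact h1

end Pool.Agent.K9h84.CI
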