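import Pool.Agent.K9h84.CI.BB
import Pool.Agent.K9h84.CI.Sur

/-!
# Finiteness of the curves of bounded speed
-/

set_option autoImplicit false

open Set Filter Topology Metric

namespace Pool.Agent.K9h84.CI

open Pool.Agent.K9h3.TC (exists_log_univ)

variable {s : ℕ}

namespace Pair

variable (D : Pair s)

/-- the curves through the middle region form a finite set -/
theorem fin_set (hk : 1 ≤ D.k) {B : ℝ} (hB : 0 ≤ B) {K : ℝ} (hK : 0 < K) :
    {v : ℂ → VV s | D.Cv B 0 v ∧ ‖v 0‖ ≤ K}.Finite := by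
  by_contra hinf
  have hinf' : {v : ℂ → VV s | D.Cv B 0 v ∧ ‖v 0‖ ≤ K}.Infinite := hinf
  obtain ⟨m, n, hmn, h⟩ := D.fin_seq hk hB hK (v := fun n => (hinf'.natEmbedding _ n : ℂ → VV s))
    (fun n => (hinf'.natEmbedding _ n).2.1) (fun n => (hinf'.natEmbedding _ n).2.2)
  have h1 : hinf'.natEmbedding _ m = hinf'.natEmbedding _ n := Subtype.ext h
  exact hmn.ne ((hinf'.natEmbedding _).injective h1)

/-- reduction to the normalised curves -/
theorem red {u : ℂ → VV s} (hu : Differentiable ℂ u) (hon : ∀ z, D.on (u z)) (hp : ∀ z, D.p (u z) ≠ 0)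
    (hq : ∀ z, D.q (u z) ≠ 0) {B : ℝ} (hB : Bro B u) :
    ∃ (e : ℂ → ℂ), Differentiable ℂ e ∧ (∀ z, e z ≠ 0) ∧
      ((∃ c0 : ℂ, c0 ≠ 0 ∧ Bro B (fun z => e z • u z) ∧ (∀ z, D.p (e z • u z) = 1) ∧
        ∀ z, D.q (e z • u z) = c0) ∨
      ∃ (α β : ℂ) (w : ℂ → VV s), α ≠ 0 ∧ D.Cv (B / ‖α‖) 0 w ∧ ∀ z, e z • u z = w (α * z + β)) := by
  have hu0 : u 0 ≠ 0 := by
    intro h
    apply hp 0
    rw [h, D.p_zero]
  have hB0 : 0 ≤ B := hB.nonneg hu0
  have hac : (D.a : ℂ) ≠ 0 := by
    have := D.ha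
    exact_mod_cast (by omega : D.a ≠ 0)
  have hpd : Differentiable ℂ (fun z => D.p (u z)) := fun z =>
    (D.hA.hasDerivAt (hu z).hasDerivAt).differentiableAt
  obtain ⟨G, hG, hGe⟩ := exists_log_univ hpd hp
  set e : ℂ → ℂ := fun z => Complex.exp (-(G z / D.a)) with he
  have hed : Differentiable ℂ e := (hG.div_const _).neg.cexp
  have he0 : ∀ z, e z ≠ 0 := fun z => Complex.exp_ne_zero _
  set v : ℂ → VV s := fun z => e z • u z with hv
  have hvd : Differentiable ℂ v := hed.smul hu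
  have hvB : Bro B v := hB.smul hu hed
  have hea : ∀ z, e z ^ D.a * D.p (u z) = 1 := by
    intro z
    rw [he]
    simp only
    rw [← Complex.exp_nat_mul, ← hGe z, ← Complex.exp_add]
    have : (D.a : ℂ) * -(G z / D.a) + G z = 0 := by
      field_simp
      ring
    rw [this, Complex.exp_zero]
  have hvp : ∀ z, D.p (v z) = 1 := by
    intro z
    rw [hv]
    simp only
    rw [D.p_smul, hea]
  have hvq0 : ∀ z, D.q (v z) ≠ 0 := by
    intro z
    rw [hv]
    simp only
    rw [D.q_smul]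
    exact mul_ne_zero (pow_ne_zero _ (he0 z)) (hq z)
  have hqd : Differentiable ℂ (fun z => D.q (v z)) := fun z =>
    (D.hB.hasDerivAt (hvd z).hasDerivAt).differentiableAt
  obtain ⟨h, hh, hhe⟩ := exists_log_univ hqd hvq0
  obtain ⟨α, β, haff⟩ := D.affine hB0 hvd hvp hh (fun z => (hhe z).symm) hvB fun z => D.on_smul (hon z)
  refine ⟨e, hed, he0, ?_⟩
  by_cases hα : α = 0
  · left
    refine ⟨Complex.exp β, Complex.exp_ne_zero _, hvB, hvp, fun z => ?_⟩
    have h2 := hhe z
    rw [haff, hα, zero_mul, zero_add] at h2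
    exact h2.symm
  · right
    refine ⟨α, β, fun z => v ((z - β) / α), hα, ?_, fun z => ?_⟩
    · have hlin : ∀ z : ℂ, HasDerivAt (fun z : ℂ => (z - β) / α) (1 / α) z := fun z =>
        ((hasDerivAt_id z).sub_const β).div_const α
      have hwd' : ∀ z, HasDerivAt (fun z => v ((z - β) / α))
          ((1 / α) • deriv v ((z - β) / α)) z := fun z =>
        HasDerivAt.scomp (h := fun z : ℂ => (z - β) / α) z (hvd ((z - β) / α)).hasDerivAt (hlin z)
      refine ⟨fun z => (hwd' z).differentiableAt, fun z => hvp _, fun z => ?_, fun z => ?_,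
        fun z => D.on_smul (hon _)⟩
      · rw [← hhe, haff]
        congr 1
        field_simp
        ring
      · rw [(hwd' z).deriv, cr_smul, norm_smul, norm_div, norm_one]
        have h1 := hvB ((z - β) / α)
        have h2 : 0 < ‖α‖ := norm_pos_iff.2 hα
        calc 1 / ‖α‖ * ‖cr (v ((z - β) / α)) (deriv v ((z - β) / α))‖ ≤
            1 / ‖α‖ * (B * ‖v ((z - β) / α)‖ ^ 2) := by gcongr
          _ = B / ‖α‖ * ‖v ((z - β) / α)‖ ^ 2 := by ring
    · simp only
      have : (α * z + β - β) / α = z := by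
        field_simp
        ring
      rw [this]

/-- curves with vanishing speed are constant -/
theorem const_of_speed {u : ℂ → VV s} (hu : Differentiable ℂ u) (hp : ∀ z, D.p (u z) ≠ 0)
    (h0 : ∀ z, cr (u z) (deriv u z) = 0) : ∀ z w, cr (u z) (u w) = 0 := by
  have hac : (D.a : ℂ) ≠ 0 := by
    have := D.ha
    exact_mod_cast (by omega : D.a ≠ 0)
  have hpd : Differentiable ℂ (fun z => D.p (u z)) := fun z =>
    (D.hA.hasDerivAt (hu z).hasDerivAt).differentiableAt
  obtain ⟨G, hG, hGe⟩ := exists_log_univ hpd hp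
  set e : ℂ → ℂ := fun z => Complex.exp (-(G z / D.a)) with he
  have hed : Differentiable ℂ e := (hG.div_const _).neg.cexp
  have he0 : ∀ z, e z ≠ 0 := fun z => Complex.exp_ne_zero _
  set v : ℂ → VV s := fun z => e z • u z with hv
  have hvd : Differentiable ℂ v := hed.smul hu
  have hvp : ∀ z, D.p (v z) = 1 := by
    intro z
    rw [hv]
    simp only
    rw [D.p_smul, he]
    simp only
    rw [← Complex.exp_nat_mul, ← hGe z, ← Complex.exp_add]
    have : (D.a : ℂ) * -(G z / D.a) + G z = 0 := by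
      field_simp
      ring
    rw [this, Complex.exp_zero]
  have hvd' : ∀ z, deriv v z = e z • deriv u z + deriv e z • u z := fun z =>
    ((hed z).hasDerivAt.smul (hu z).hasDerivAt).deriv
  have hcv : ∀ z, cr (v z) (deriv v z) = 0 := by
    intro z
    have h1 : cr (v z) (deriv v z) = (e z * e z) • cr (u z) (deriv u z) := by
      rw [hvd', hv]
      funext i j
      simp only [cr_apply, Pi.smul_apply, Pi.add_apply, smul_eq_mul]
      ring
    rw [h1, h0, smul_zero]
  have hv0 : ∀ z, deriv v z = 0 := by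
    intro z
    obtain ⟨j, hj⟩ := exists_max (v z)
    have hne : v z ≠ 0 := D.p_eq_one_ne (hvp z)
    have hj0 : v z j ≠ 0 := by
      rw [← norm_pos_iff, hj]
      exact norm_pos_iff.2 hne
    have h1 : cr (deriv v z) (v z) = 0 := by
      rw [cr_comm, hcv, neg_zero]
    have h2 := parallel h1 hj0
    set μ : ℂ := deriv v z j / v z j with hμ
    have h3 : dt (gr D.P (v z)) (deriv v z) = 0 := D.orth_p hvd hvp z
    rw [h2, dt_smul, dt_comm, euler D.hP] at h3
    have h4 : MvPolynomial.eval (v z) D.P = 1 := hvp z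
    rw [h4, mul_one] at h3
    have h5 : μ = 0 := (mul_eq_zero.1 h3).resolve_right hac
    rw [h2, h5, zero_smul]
  intro z w
  have h1 : v z = v w := is_const_of_deriv_eq_zero hvd hv0 z w
  have h2 : e z • u z = e w • u w := h1
  have h3 : e w • cr (u z) (u w) = 0 := by
    rw [← cr_smul, ← h2, cr_smul, cr_self, smul_zero]
  exact (smul_eq_zero.1 h3).resolve_left (he0 w)

/-- **finiteness** -/
theorem fin_main (hk : 1 ≤ D.k) (hF : D.HF) : ∃ (N : ℕ) (φ : Fin N → Fin (s + 3) → Polynomial ℂ),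
    ∀ u : ℂ → VV s, Differentiable ℂ u → (∀ z, D.on (u z)) → (∀ z, D.p (u z) ≠ 0) →
    (∀ z, D.q (u z) ≠ 0) → ∀ B : ℝ, Bro B u → (∀ z w, cr (u z) (u w) = 0) ∨
      ∃ (j : Fin N) (c d : ℂ) (g : ℂ → ℂ), c ≠ 0 ∧ Differentiable ℂ g ∧ (∀ z, g z ≠ 0) ∧
        ∀ z i, g z * u z i = (φ j i).eval (Complex.exp (c * z + d)) := by
  obtain ⟨B0, hB0, hbb⟩ := D.bb hk hF
  obtain ⟨K, hK, hret⟩ := D.returns_nat hk hB0.le
  have hfin := D.fin_set hk hB0.le hK
  obtain ⟨sv, hsv⟩ := hfin.exists_finset_coe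
  -- polynomials attached to the members of the finite set
  have hpoly : ∀ x : sv, ∃ (k L : ℕ) (φ : Fin (s + 3) → Polynomial ℂ), 1 ≤ k ∧
      ∀ z i, Complex.exp (L * z / k) * (x : ℂ → VV s) z i = (φ i).eval (Complex.exp (z / k)) := by
    intro x
    have hx : (x : ℂ → VV s) ∈ {v : ℂ → VV s | D.Cv B0 0 v ∧ ‖v 0‖ ≤ K} := by
      rw [← hsv]
      exact x.2
    exact D.cv_laurent hk hB0.le hx.1
  choose k L φ hk1 hφ using hpoly
  refine ⟨sv.card, fun j => φ (sv.equivFin.symm j), fun u hu hon hp hq B hB => ?_⟩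
  obtain ⟨e, hed, he0, hcase⟩ := D.red hu hon hp hq hB
  rcases hcase with ⟨c0, hc0, hBe, h1, h2⟩ | ⟨α, β, w, hα, hw, hwe⟩
  · left
    have hvd : Differentiable ℂ (fun z => e z • u z) := hed.smul hu
    have h3 := hF B (fun z => e z • u z) c0 hvd (fun z => D.on_smul (hon z)) h1 hc0 h2 hBe
    refine D.const_of_speed hu hp fun z => ?_
    have h4 : deriv (fun z => e z • u z) z = e z • deriv u z + deriv e z • u z :=
      ((hed z).hasDerivAt.smul (hu z).hasDerivAt).deriv
    have h5 : cr (e z • u z) (deriv (fun z => e z • u z) z) = (e z * e z) • cr (u z) (deriv u z) := by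
      rw [h4]
      funext i j
      simp only [cr_apply, Pi.smul_apply, Pi.add_apply, smul_eq_mul]
      ring
    have h6 : (e z * e z) • cr (u z) (deriv u z) = 0 := by rw [← h5]; exact h3 z
    exact (smul_eq_zero.1 h6).resolve_left (mul_ne_zero (he0 z) (he0 z))
  · right
    have hw0 := hbb _ w hw
    obtain ⟨m, -, hm⟩ := hret w hw0 0
    set τ : ℂ := (m : ℂ) * (2 * Real.pi * Complex.I) with hτ
    have hC : D.Cv B0 0 (fun z => w (z + τ)) := by
      have h1 := D.cv_mod (hw0.shift τ) (m : ℤ)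
      have h2 : (0 : ℂ) + τ - ((m : ℤ) : ℂ) * (2 * Real.pi * Complex.I) = 0 := by
        rw [hτ]
        push_cast
        ring
      rw [h2] at h1
      exact h1
    have hmem : (fun z => w (z + τ)) ∈ sv := by
      have : (fun z => w (z + τ)) ∈ {v : ℂ → VV s | D.Cv B0 0 v ∧ ‖v 0‖ ≤ K} := by
        refine ⟨hC, ?_⟩
        simp only [zero_add]
        exact hm
      rw [← hsv] at this
      exact this
    set x : sv := ⟨_, hmem⟩ with hx
    have hkc : (k x : ℂ) ≠ 0 := by
      have := hk1 x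
      exact_mod_cast (by omega : k x ≠ 0)
    refine ⟨sv.equivFin x, α / k x, (β - τ) / k x,
      fun z => Complex.exp (L x * (α * z + β - τ) / k x) * e z, div_ne_zero hα hkc, ?_,
      fun z => mul_ne_zero (Complex.exp_ne_zero _) (he0 z), fun z i => ?_⟩
    · have : Differentiable ℂ (fun z : ℂ => Complex.exp (L x * (α * z + β - τ) / k x)) := by fun_prop
      exact this.mul hed
    · simp only [Equiv.symm_apply_apply]
      have h1 := hφ x (α * z + β - τ) i
      have h2 : (x : ℂ → VV s) (α * z + β - τ) = e z • u z := by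
        rw [hwe]
        show w (α * z + β - τ + τ) = _
        rw [sub_add_cancel]
      rw [h2] at h1
      have h3 : α / k x * z + (β - τ) / k x = (α * z + β - τ) / k x := by ring
      rw [h3, ← h1]
      simp only [Pi.smul_apply, smul_eq_mul]
      ring

/-- **one curve contains all** -/
theorem fin_deg (hk : 1 ≤ D.k) (hF : D.HF) {x0 : VV s} (hx0 : x0 ≠ 0) (hon0 : D.on x0) :
    ∃ (n N : ℕ) (G : PP s) (φ : Fin N → Fin (s + 3) → Polynomial ℂ), G.IsHomogeneous n ∧
    (∃ x : VV s, x ≠ 0 ∧ D.on x ∧ MvPolynomial.eval x G ≠ 0) ∧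
    ∀ u : ℂ → VV s, Differentiable ℂ u → (∀ z, D.on (u z)) → (∀ z, D.p (u z) ≠ 0) →
    (∀ z, D.q (u z) ≠ 0) → ∀ B : ℝ, Bro B u → (∃ z w, cr (u z) (u w) ≠ 0) →
      (∃ (j : Fin N) (c d : ℂ) (g : ℂ → ℂ), c ≠ 0 ∧ Differentiable ℂ g ∧ (∀ z, g z ≠ 0) ∧
        ∀ z i, g z * u z i = (φ j i).eval (Complex.exp (c * z + d))) ∧
      ∀ z, MvPolynomial.eval (u z) G = 0 := by
  obtain ⟨N, φ, hφ⟩ := D.fin_main hk hF
  obtain ⟨n, G, hGh, hGx, hG⟩ := exists_form D.hR hx0 hon0 (D.sR x0 hx0 hon0) φ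
  refine ⟨n, N, G, φ, hGh, hGx, fun u hu hon hp hq B hB hnc => ?_⟩
  rcases hφ u hu hon hp hq B hB with h | h
  · exfalso
    obtain ⟨z, w, hzw⟩ := hnc
    exact hzw (h z w)
  · refine ⟨h, fun z => ?_⟩
    obtain ⟨j, c, d, g, -, -, hg, hgu⟩ := h
    obtain ⟨A, hA⟩ := exists_dd hGh
    have h1 := hG j (Complex.exp (c * z + d))
    have h2 : (fun i => (φ j i).eval (Complex.exp (c * z + d))) = g z • u z := by
      funext i
      rw [← hgu z i]
      rfl
    rw [h2, hA.evh] at h1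
    exact (mul_eq_zero.1 h1).resolve_left (pow_ne_zero _ (hg z))

end Pair

end Pool.Agent.K9h84.CI
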