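import Pool.Agent.K9h84.CI.Base

/-!
# Complete intersection surfaces with two transversal sections

The structure `Pair`, the Jacobian vector `N`, its divided difference `NN`, and the compactness
constants attached to them.
-/

set_option autoImplicit false

open Set Filter Topology

namespace Pool.Agent.K9h84.CI

variable {s : ℕ}

section single

variable {P : PP s} {d : ℕ} {A : VV s → VV s → VV s}

theorem HasDD.gr_hom (h : HasDD P d A) (c : ℂ) (x : VV s) : c • gr P (c • x) = c ^ d • gr P x := by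
  rw [← h.diag, ← h.diag, h.hom]

theorem HasDD.cont (h : HasDD P d A) : Continuous (fun p : VV s × VV s => A p.1 p.2) :=
  h.dif.continuous

theorem HasDD.gr_cont (h : HasDD P d A) : Continuous (fun x => gr P x) := by
  have h1 : (fun x => gr P x) = (fun p : VV s × VV s => A p.1 p.2) ∘ (fun x => (x, x)) := by
    funext x
    exact (h.diag x).symm
  rw [h1]
  exact h.cont.comp (by fun_prop)

theorem ev_cont (P : PP s) : Continuous (fun x : VV s => MvPolynomial.eval x P) :=
  MvPolynomial.continuous_eval P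

theorem euler (hP : P.IsHomogeneous d) (x : VV s) :
    dt x (gr P x) = d * MvPolynomial.eval x P := by
  have h := congrArg (MvPolynomial.eval x) hP.sum_X_mul_pderiv
  simp only [map_sum, map_mul, MvPolynomial.eval_X, nsmul_eq_mul, map_natCast] at h
  exact h

theorem HasDD.slope_eq (h : HasDD P d A) (v : ℂ → VV s) (z w : ℂ) :
    slope (fun w => MvPolynomial.eval (v w) P) z w = dt (A (v z) (v w)) (slope v z w) := by
  have e1 : slope (fun w => MvPolynomial.eval (v w) P) z w =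
      (w - z)⁻¹ * (MvPolynomial.eval (v w) P - MvPolynomial.eval (v z) P) := rfl
  have e2 : slope v z w = (w - z)⁻¹ • (v w - v z) := rfl
  rw [e1, e2, dt_smul, h.diff (v z) (v w)]

theorem dt_cont : Continuous (fun p : VV s × VV s => dt p.1 p.2) := by
  unfold dt
  fun_prop

theorem HasDD.hasDerivAt (h : HasDD P d A) {v : ℂ → VV s} {v' : VV s} {z : ℂ}
    (hv : HasDerivAt v v' z) :
    HasDerivAt (fun w => MvPolynomial.eval (v w) P) (dt (gr P (v z)) v') z := by
  have hc : Tendsto v (𝓝[≠] z) (𝓝 (v z)) := hv.continuousAt.tendsto.mono_left nhdsWithin_le_nhds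
  have hs : Tendsto (slope v z) (𝓝[≠] z) (𝓝 v') := hasDerivAt_iff_tendsto_slope.1 hv
  rw [hasDerivAt_iff_tendsto_slope]
  have h1 : Tendsto (fun w => A (v z) (v w)) (𝓝[≠] z) (𝓝 (A (v z) (v z))) := by
    have h2 : Tendsto (fun w => ((v z, v w) : VV s × VV s)) (𝓝[≠] z) (𝓝 (v z, v z)) :=
      Tendsto.prodMk_nhds tendsto_const_nhds hc
    exact (h.cont.tendsto (v z, v z)).comp h2
  rw [h.diag] at h1
  have h5 : Tendsto (fun w => ((A (v z) (v w), slope v z w) : VV s × VV s)) (𝓝[≠] z)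
      (𝓝 (gr P (v z), v')) := h1.prodMk_nhds hs
  have h6 : Tendsto (fun p : VV s × VV s => dt p.1 p.2) (𝓝 (gr P (v z), v'))
      (𝓝 (dt (gr P (v z)) v')) := dt_cont.tendsto (gr P (v z), v')
  have h7 := h6.comp h5
  have h8 : slope (fun w => MvPolynomial.eval (v w) P) z =
      (fun p : VV s × VV s => dt p.1 p.2) ∘ (fun w => ((A (v z) (v w), slope v z w) : VV s × VV s)) := by
    funext w
    exact h.slope_eq v z w
  rw [h8]
  exact h7

end single

/-- the forms in the order `P, Q, R 0, R 1, ...` -/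
def fam (P Q : PP s) (R : Fin s → PP s) : Fin (s + 2) → PP s :=
  Fin.cons (α := fun _ => PP s) P (Fin.cons (α := fun _ => PP s) Q R)

/-- degrees in the same order -/
def famd (a b : ℕ) (d : Fin s → ℕ) : Fin (s + 2) → ℕ :=
  Fin.cons (α := fun _ => ℕ) a (Fin.cons (α := fun _ => ℕ) b d)

/-- a smooth complete intersection surface `R i = 0` and two smooth sections `P = 0`, `Q = 0` of
degrees `a` and `b` which meet transversally, with `a + b + ∑ d i = k + s + 3` -/
structure Pair (s : ℕ) where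
  P : PP s
  Q : PP s
  R : Fin s → PP s
  a : ℕ
  b : ℕ
  d : Fin s → ℕ
  k : ℕ
  hP : P.IsHomogeneous a
  hQ : Q.IsHomogeneous b
  hR : ∀ i, (R i).IsHomogeneous (d i)
  ha : 1 ≤ a
  hb : 1 ≤ b
  hk : a + b + ∑ i, d i = k + s + 3
  sR : ∀ x : VV s, x ≠ 0 → (∀ i, MvPolynomial.eval x (R i) = 0) →
    LinearIndependent ℂ (fun i => gr (R i) x)
  sP : ∀ x : VV s, x ≠ 0 → (∀ i, MvPolynomial.eval x (R i) = 0) → MvPolynomial.eval x P = 0 →
    gr P x ∉ Submodule.span ℂ (Set.range (fun i => gr (R i) x))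
  sQ : ∀ x : VV s, x ≠ 0 → (∀ i, MvPolynomial.eval x (R i) = 0) → MvPolynomial.eval x Q = 0 →
    gr Q x ∉ Submodule.span ℂ (Set.range (fun i => gr (R i) x))
  tr : ∀ x : VV s, x ≠ 0 → (∀ i, MvPolynomial.eval x (R i) = 0) → MvPolynomial.eval x P = 0 →
    MvPolynomial.eval x Q = 0 → LinearIndependent ℂ (fun i => gr (fam P Q R i) x)

namespace Pair

variable (D : Pair s)

theorem swap_indep {P Q : PP s} {R : Fin s → PP s} {x : VV s}
    (h : LinearIndependent ℂ (fun i => gr (fam P Q R i) x)) :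
    LinearIndependent ℂ (fun i => gr (fam Q P R i) x) := by
  have h1 := h.comp (Equiv.swap (0 : Fin (s + 2)) 1) (Equiv.injective _)
  have h2 : (fun i => gr (fam Q P R i) x) = (fun i => gr (fam P Q R i) x) ∘
      (Equiv.swap (0 : Fin (s + 2)) 1) := by
    funext i
    simp only [Function.comp]
    refine Fin.cases ?_ (fun i => ?_) i
    · rw [Equiv.swap_apply_left]
      rfl
    · refine Fin.cases ?_ (fun i => ?_) i
      · have : (Fin.succ 0 : Fin (s + 2)) = 1 := rfl
        rw [this, Equiv.swap_apply_right]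
        rfl
      · have e0 : (i.succ.succ : Fin (s + 2)) ≠ 0 := Fin.succ_ne_zero _
        have e1 : (i.succ.succ : Fin (s + 2)) ≠ 1 := by
          intro h
          have := congrArg Fin.val h
          simp at this
        rw [Equiv.swap_apply_of_ne_of_ne e0 e1]
        rfl
  rw [h2]
  exact h1

/-- the pair in the other order -/
def swap : Pair s where
  P := D.Q
  Q := D.P
  R := D.R
  a := D.b
  b := D.a
  d := D.d
  k := D.k
  hP := D.hQ
  hQ := D.hP
  hR := D.hR
  ha := D.hb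
  hb := D.ha
  hk := by rw [add_comm D.b]; exact D.hk
  sR := D.sR
  sP := D.sQ
  sQ := D.sP
  tr := fun x hx h0 h1 h2 => swap_indep (D.tr x hx h0 h2 h1)

/-- the cone over the surface -/
def on (x : VV s) : Prop := ∀ i, MvPolynomial.eval x (D.R i) = 0

/-- value of the first form -/
noncomputable def p (x : VV s) : ℂ := MvPolynomial.eval x D.P

/-- value of the second form -/
noncomputable def q (x : VV s) : ℂ := MvPolynomial.eval x D.Q

/-- all the forms -/
def F : Fin (s + 2) → PP s := fam D.P D.Q D.R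

/-- all the degrees -/
def deg : Fin (s + 2) → ℕ := famd D.a D.b D.d

theorem hF (i : Fin (s + 2)) : (D.F i).IsHomogeneous (D.deg i) := by
  unfold F deg fam famd
  refine Fin.cases ?_ (fun i => ?_) i
  · exact D.hP
  · refine Fin.cases ?_ (fun i => ?_) i
    · exact D.hQ
    · exact D.hR i

theorem sum_deg : ∑ i, D.deg i = D.k + s + 3 := by
  unfold deg famd
  rw [Fin.sum_univ_succ, Fin.sum_univ_succ]
  simp only [Fin.cons_zero, Fin.cons_succ]
  rw [← D.hk]
  ring

/-- divided differences of the forms -/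
noncomputable def AA (i : Fin (s + 2)) : VV s → VV s → VV s := Classical.choose (exists_dd (D.hF i))

theorem hAA (i : Fin (s + 2)) : HasDD (D.F i) (D.deg i) (D.AA i) :=
  Classical.choose_spec (exists_dd (D.hF i))

/-- divided difference of the first form -/
noncomputable def A : VV s → VV s → VV s := D.AA 0

/-- divided difference of the second form -/
noncomputable def B : VV s → VV s → VV s := D.AA 1

theorem hA : HasDD D.P D.a D.A := D.hAA 0

theorem hB : HasDD D.Q D.b D.B := D.hAA 1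

theorem hRR (i : Fin s) : HasDD (D.R i) (D.d i) (D.AA i.succ.succ) := D.hAA i.succ.succ

theorem ev_R_smul {i : Fin s} (c : ℂ) (x : VV s) :
    MvPolynomial.eval (c • x) (D.R i) = c ^ D.d i * MvPolynomial.eval x (D.R i) := (D.hRR i).evh c x

theorem on_smul {c : ℂ} {x : VV s} (h : D.on x) : D.on (c • x) := fun i => by
  rw [D.ev_R_smul, h i, mul_zero]

theorem on_of_smul {c : ℂ} (hc : c ≠ 0) {x : VV s} (h : D.on (c • x)) : D.on x := fun i => by
  have h1 := h i
  rw [D.ev_R_smul] at h1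
  exact (mul_eq_zero.1 h1).resolve_left (pow_ne_zero _ hc)

theorem isClosed_on : IsClosed {x | D.on x} := by
  have : {x | D.on x} = ⋂ i, {x : VV s | MvPolynomial.eval x (D.R i) = 0} := by
    ext x
    simp [on]
  rw [this]
  exact isClosed_iInter fun i => isClosed_eq (ev_cont _) continuous_const

/-- the Jacobian vector -/
noncomputable def N (x : VV s) : VV s := gcp (fun i => gr (D.F i) x)

/-- its divided difference -/
noncomputable def NN (x y : VV s) : VV s := gcp (fun i => D.AA i x y)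

theorem NN_diag (x : VV s) : D.NN x x = D.N x := by
  unfold NN N
  congr 1
  funext i
  exact (D.hAA i).diag x

/-- the difference of two points with the same values of the forms is parallel to `NN` -/
theorem par_NN {x y : VV s} (hx : D.on x) (hy : D.on y) (hp : D.p y = D.p x) (hq : D.q y = D.q x) :
    cr (y - x) (D.NN x y) = 0 := by
  refine cr_gcp fun i => ?_
  rw [← (D.hAA i).diff x y]
  refine Fin.cases ?_ (fun i => ?_) i
  · exact sub_eq_zero.2 hp
  · refine Fin.cases ?_ (fun i => ?_) i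
    · exact sub_eq_zero.2 hq
    · show MvPolynomial.eval y (D.R i) - MvPolynomial.eval x (D.R i) = 0
      rw [hx i, hy i, sub_zero]

/-- a vector orthogonal to the gradients is parallel to `N` -/
theorem par_N {x d : VV s} (hP : dt (gr D.P x) d = 0) (hQ : dt (gr D.Q x) d = 0)
    (hR : ∀ i, dt (gr (D.R i) x) d = 0) : cr d (D.N x) = 0 := by
  refine cr_gcp fun i => ?_
  refine Fin.cases ?_ (fun i => ?_) i
  · exact hP
  · refine Fin.cases ?_ (fun i => ?_) i
    · exact hQ
    · exact hR i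

theorem p_cont : Continuous D.p := ev_cont D.P

theorem q_cont : Continuous D.q := ev_cont D.Q

theorem p_smul (c : ℂ) (x : VV s) : D.p (c • x) = c ^ D.a * D.p x := D.hA.evh c x

theorem q_smul (c : ℂ) (x : VV s) : D.q (c • x) = c ^ D.b * D.q x := D.hB.evh c x

theorem NN_dif : Differentiable ℂ (fun p : VV s × VV s => D.NN p.1 p.2) :=
  gcp_dif fun i => (D.hAA i).dif

theorem NN_cont : Continuous (fun p : VV s × VV s => D.NN p.1 p.2) := D.NN_dif.continuous

theorem N_cont : Continuous D.N := by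
  have h1 : D.N = (fun p : VV s × VV s => D.NN p.1 p.2) ∘ (fun x => (x, x)) := by
    funext x
    exact (D.NN_diag x).symm
  rw [h1]
  exact D.NN_cont.comp (by fun_prop)

theorem NN_hom {c : ℂ} (hc : c ≠ 0) (x y : VV s) :
    D.NN (c • x) (c • y) = c ^ (D.k + 1) • D.NN x y := by
  have e1 : gcp (fun i => c • D.AA i (c • x) (c • y)) = c ^ (s + 2) • D.NN (c • x) (c • y) := by
    rw [gcp_smul (fun _ => c), Finset.prod_const, Finset.card_univ, Fintype.card_fin]
    rfl
  have e2 : gcp (fun i => c • D.AA i (c • x) (c • y)) = c ^ (D.k + s + 3) • D.NN x y := by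
    have h1 : (fun i => c • D.AA i (c • x) (c • y)) = (fun i => c ^ D.deg i • D.AA i x y) := by
      funext i
      exact (D.hAA i).hom c x y
    rw [h1, gcp_smul (fun i => c ^ D.deg i), Finset.prod_pow_eq_pow_sum, D.sum_deg]
    rfl
  have h3 : c ^ (s + 2) • D.NN (c • x) (c • y) = c ^ (s + 2) • (c ^ (D.k + 1) • D.NN x y) := by
    rw [← e1, e2, smul_smul]
    congr 1
    ring
  exact smul_right_injective _ (pow_ne_zero _ hc) h3

theorem N_hom {c : ℂ} (hc : c ≠ 0) (x : VV s) : D.N (c • x) = c ^ (D.k + 1) • D.N x := by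
  rw [← D.NN_diag, ← D.NN_diag, D.NN_hom hc]

theorem euler_on {x : VV s} (hx : D.on x) (i : Fin s) : dt x (gr (D.R i) x) = 0 := by
  rw [euler (D.hR i), hx i, mul_zero]

/-- independence of the gradients -/
theorem indep {x : VV s} (h1 : LinearIndependent ℂ (fun i => gr (D.R i) x))
    (h2 : ∀ α β : ℂ, α • gr D.P x + β • gr D.Q x ∈
      Submodule.span ℂ (Set.range (fun i => gr (D.R i) x)) → α = 0 ∧ β = 0) :
    LinearIndependent ℂ (fun i => gr (D.F i) x) := by
  have e : (fun i => gr (D.F i) x) = Fin.cons (α := fun _ => VV s) (gr D.P x)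
      (Fin.cons (α := fun _ => VV s) (gr D.Q x) (fun i => gr (D.R i) x)) := by
    funext i
    refine Fin.cases ?_ (fun i => ?_) i
    · rfl
    · refine Fin.cases ?_ (fun i => ?_) i
      · rfl
      · rfl
  rw [e, linearIndependent_finCons, linearIndependent_finCons]
  refine ⟨⟨h1, fun hQ => ?_⟩, fun hP => ?_⟩
  · exact one_ne_zero (h2 0 1 (by rwa [zero_smul, one_smul, zero_add])).2
  · rw [Fin.range_cons, Submodule.mem_span_insert] at hP
    obtain ⟨c, z, hz, hc⟩ := hP
    have h3 := h2 1 (-c) (by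
      rw [one_smul, hc, neg_smul]
      have : c • gr D.Q x + z + -(c • gr D.Q x) = z := by abel
      rw [this]
      exact hz)
    exact one_ne_zero h3.1

/-- the span of the gradients of the `R i` is orthogonal to `x` -/
theorem span_orth {x d g : VV s} (h : ∀ i, dt d (gr (D.R i) x) = 0)
    (hg : g ∈ Submodule.span ℂ (Set.range (fun i => gr (D.R i) x))) : dt d g = 0 := by
  induction hg using Submodule.span_induction with
  | mem y hy =>
    obtain ⟨i, rfl⟩ := hy
    exact h i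
  | zero => exact dt_zero d
  | add y z _ _ hy hz => rw [dt_add, hy, hz, add_zero]
  | smul c y _ hy => rw [dt_smul, hy, mul_zero]

/-- the Jacobian vector at a point of one of the curves is nonzero -/
theorem N_ne {x : VV s} (hx : x ≠ 0) (hon : D.on x) (h : D.p x * D.q x = 0) : D.N x ≠ 0 := by
  have eP := euler D.hP x
  have eQ := euler D.hQ x
  have ha : (D.a : ℂ) ≠ 0 := by
    have := D.ha
    exact_mod_cast (by omega : D.a ≠ 0)
  have hb : (D.b : ℂ) ≠ 0 := by
    have := D.hb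
    exact_mod_cast (by omega : D.b ≠ 0)
  have hxe : ∀ α β : ℂ, α • gr D.P x + β • gr D.Q x ∈
      Submodule.span ℂ (Set.range (fun i => gr (D.R i) x)) →
      α * (D.a * D.p x) + β * (D.b * D.q x) = 0 := by
    intro α β hm
    have h1 := D.span_orth (D.euler_on hon) hm
    rw [dt_add, dt_smul, dt_smul, eP, eQ] at h1
    exact h1
  by_cases hp : D.p x = 0
  · by_cases hq : D.q x = 0
    · exact gcp_ne (D.tr x hx hon hp hq)
    · refine gcp_ne (D.indep (D.sR x hx hon) fun α β hm => ?_)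
      have h1 := hxe α β hm
      rw [hp, mul_zero, mul_zero, zero_add] at h1
      have hβ : β = 0 := (mul_eq_zero.1 h1).resolve_right (mul_ne_zero hb hq)
      refine ⟨?_, hβ⟩
      by_contra hα
      rw [hβ, zero_smul, add_zero] at hm
      exact D.sP x hx hon hp ((Submodule.smul_mem_iff _ hα).1 hm)
  · have hq : D.q x = 0 := (mul_eq_zero.1 h).resolve_left hp
    refine gcp_ne (D.indep (D.sR x hx hon) fun α β hm => ?_)
    have h1 := hxe α β hm
    rw [hq, mul_zero, mul_zero, add_zero] at h1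
    have hα : α = 0 := (mul_eq_zero.1 h1).resolve_right (mul_ne_zero ha hp)
    refine ⟨hα, ?_⟩
    by_contra hβ
    rw [hα, zero_smul, zero_add] at hm
    exact D.sQ x hx hon hq ((Submodule.smul_mem_iff _ hβ).1 hm)

/-- the Jacobian vector is nonzero at a point with a tangent vector along which the second form
changes and the first form does not -/
theorem N_ne' {x w : VV s} (hx : x ≠ 0) (hon : D.on x) (hp : D.p x ≠ 0)
    (hPw : dt w (gr D.P x) = 0) (hQw : dt w (gr D.Q x) ≠ 0) (hRw : ∀ i, dt w (gr (D.R i) x) = 0) :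
    D.N x ≠ 0 := by
  have eP := euler D.hP x
  have eQ := euler D.hQ x
  have ha : (D.a : ℂ) ≠ 0 := by
    have := D.ha
    exact_mod_cast (by omega : D.a ≠ 0)
  refine gcp_ne (D.indep (D.sR x hx hon) fun α β hm => ?_)
  have h1 := D.span_orth (D.euler_on hon) hm
  have h2 := D.span_orth hRw hm
  rw [dt_add, dt_smul, dt_smul, hPw, mul_zero, zero_add] at h2
  have hβ : β = 0 := (mul_eq_zero.1 h2).resolve_right hQw
  rw [hβ, zero_smul, add_zero, dt_smul, eP] at h1
  exact ⟨(mul_eq_zero.1 h1).resolve_right (mul_ne_zero ha hp), hβ⟩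

/-- normalisation of a nonzero vector -/
theorem exists_unit {x : VV s} (hx : x ≠ 0) :
    ∃ u : VV s, ‖u‖ = 1 ∧ x = ((‖x‖ : ℝ) : ℂ) • u ∧ ((‖x‖ : ℝ) : ℂ) ≠ 0 := by
  have h0 : ((‖x‖ : ℝ) : ℂ) ≠ 0 := by
    exact_mod_cast norm_ne_zero_iff.2 hx
  refine ⟨((‖x‖ : ℝ) : ℂ)⁻¹ • x, ?_, ?_, h0⟩
  · rw [norm_smul, norm_inv, Complex.norm_real, norm_norm]
    exact inv_mul_cancel₀ (norm_ne_zero_iff.2 hx)
  · rw [smul_smul, mul_inv_cancel₀ h0, one_smul]

theorem isCompact_sph : IsCompact (Metric.sphere (0 : VV s) 1) := isCompact_sphere _ _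

theorem exists_unit_vec : (Metric.sphere (0 : VV s) 1).Nonempty := by
  refine ⟨fun _ => 1, ?_⟩
  rw [mem_sphere_zero_iff_norm, pi_norm_const, norm_one]

/-- growth of the first form -/
theorem p_le : ∃ C : ℝ, 0 < C ∧ ∀ x, ‖D.p x‖ ≤ C * ‖x‖ ^ D.a := by
  obtain ⟨C, hC⟩ := isCompact_sph.exists_bound_of_continuousOn D.p_cont.continuousOn
  refine ⟨max C 1, lt_max_of_lt_right one_pos, fun x => ?_⟩
  by_cases hx : x = 0
  · have h1 := D.p_smul 0 x
    rw [zero_smul, zero_pow (by have := D.ha; omega), zero_mul] at h1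
    rw [hx, h1, norm_zero]
    positivity
  · obtain ⟨u, hu, hxu, h0⟩ := exists_unit hx
    have h2 := hC u (mem_sphere_zero_iff_norm.2 hu)
    have h3 : ‖D.p x‖ = ‖x‖ ^ D.a * ‖D.p u‖ := by
      conv_lhs => rw [hxu]
      rw [D.p_smul, norm_mul, norm_pow, Complex.norm_real, norm_norm]
    rw [h3, mul_comm]
    have : ‖D.p u‖ ≤ max C 1 := h2.trans (le_max_left _ _)
    gcongr

theorem q_le : ∃ C : ℝ, 0 < C ∧ ∀ x, ‖D.q x‖ ≤ C * ‖x‖ ^ D.b := D.swap.p_le

/-- growth of the gradient -/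
theorem grP_le : ∃ C : ℝ, 0 < C ∧ ∀ x, ‖x‖ * ‖gr D.P x‖ ≤ C * ‖x‖ ^ D.a := by
  obtain ⟨C, hC⟩ := isCompact_sph.exists_bound_of_continuousOn D.hA.gr_cont.continuousOn
  refine ⟨max C 1, lt_max_of_lt_right one_pos, fun x => ?_⟩
  by_cases hx : x = 0
  · rw [hx, norm_zero, zero_mul]
    positivity
  · obtain ⟨u, hu, hxu, h0⟩ := exists_unit hx
    have h2 := hC u (mem_sphere_zero_iff_norm.2 hu)
    have h4 := D.hA.gr_hom ((‖x‖ : ℝ) : ℂ) u
    rw [← hxu] at h4
    have h5 := congrArg norm h4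
    rw [norm_smul, norm_smul, norm_pow, Complex.norm_real, norm_norm] at h5
    rw [h5, mul_comm]
    have : ‖gr D.P u‖ ≤ max C 1 := h2.trans (le_max_left _ _)
    gcongr

theorem grQ_le : ∃ C : ℝ, 0 < C ∧ ∀ x, ‖x‖ * ‖gr D.Q x‖ ≤ C * ‖x‖ ^ D.b := D.swap.grP_le

/-- unit vectors of the cone -/
theorem isCompact_sphon : IsCompact (Metric.sphere (0 : VV s) 1 ∩ {x | D.on x}) :=
  isCompact_sph.inter_right D.isClosed_on

/-- lower bound for the Jacobian vector away from its zeros -/
theorem N_lower : ∃ c : ℝ, 0 < c ∧ ∀ x, x ≠ 0 → D.on x →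
    c * ‖x‖ ^ (D.k + 1) ≤ ‖D.N x‖ ∨ c * ‖x‖ ^ (D.a + D.b) ≤ ‖D.p x‖ * ‖D.q x‖ := by
  have hc : Continuous (fun x => max ‖D.N x‖ (‖D.p x‖ * ‖D.q x‖)) :=
    D.N_cont.norm.max (D.p_cont.norm.mul D.q_cont.norm)
  rcases (Metric.sphere (0 : VV s) 1 ∩ {x | D.on x}).eq_empty_or_nonempty with hemp | hnon
  · refine ⟨1, one_pos, fun x hx hon => ?_⟩
    exfalso
    obtain ⟨u, hu, hxu, h0⟩ := exists_unit hx
    have h1 : u ∈ Metric.sphere (0 : VV s) 1 ∩ {x | D.on x} :=
      ⟨mem_sphere_zero_iff_norm.2 hu, D.on_of_smul h0 (by rwa [← hxu])⟩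
    rw [hemp] at h1
    exact h1
  obtain ⟨u0, hu0, hmin⟩ := D.isCompact_sphon.exists_isMinOn hnon hc.continuousOn
  have hne : u0 ≠ 0 := by
    intro h
    have := hu0.1
    rw [h, mem_sphere_zero_iff_norm, norm_zero] at this
    exact zero_ne_one this
  have hpos : 0 < max ‖D.N u0‖ (‖D.p u0‖ * ‖D.q u0‖) := by
    by_cases h : D.p u0 * D.q u0 = 0
    · exact lt_max_of_lt_left (norm_pos_iff.2 (D.N_ne hne hu0.2 h))
    · rw [← norm_mul]
      exact lt_max_of_lt_right (norm_pos_iff.2 h)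
  refine ⟨_, hpos, fun x hx hon => ?_⟩
  obtain ⟨u, hu, hxu, h0⟩ := exists_unit hx
  have h1 : max ‖D.N u0‖ (‖D.p u0‖ * ‖D.q u0‖) ≤ max ‖D.N u‖ (‖D.p u‖ * ‖D.q u‖) :=
    hmin ⟨mem_sphere_zero_iff_norm.2 hu, D.on_of_smul h0 (by rwa [← hxu])⟩
  have h3 : ‖D.p x‖ * ‖D.q x‖ = ‖x‖ ^ (D.a + D.b) * (‖D.p u‖ * ‖D.q u‖) := by
    conv_lhs => rw [hxu]
    rw [D.p_smul, D.q_smul, norm_mul, norm_mul, norm_pow, norm_pow, Complex.norm_real, norm_norm,
      pow_add]
    ring
  have h4 : ‖D.N x‖ = ‖x‖ ^ (D.k + 1) * ‖D.N u‖ := by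
    conv_lhs => rw [hxu]
    rw [D.N_hom h0, norm_smul, norm_pow, Complex.norm_real, norm_norm]
  rcases le_max_iff.1 h1 with h2 | h2
  · left
    rw [h4, mul_comm]
    gcongr
  · right
    rw [h3, mul_comm]
    gcongr

/-- continuity of the divided difference near the diagonal -/
theorem NN_close (ε : ℝ) (hε : 0 < ε) : ∃ δ : ℝ, 0 < δ ∧ ∀ x y, ‖y - x‖ ≤ δ * ‖x‖ →
    x ≠ 0 → ‖D.NN x y - D.N x‖ ≤ ε * ‖x‖ ^ (D.k + 1) := by
  have hK : IsCompact (Metric.sphere (0 : VV s) 1 ×ˢ Metric.closedBall (0 : VV s) 2) :=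
    isCompact_sph.prod (isCompact_closedBall _ _)
  have huc := hK.uniformContinuousOn_of_continuous D.NN_cont.continuousOn
  rw [Metric.uniformContinuousOn_iff] at huc
  obtain ⟨δ, hδ, hd⟩ := huc ε hε
  refine ⟨min (δ / 2) 1, by positivity, fun x y hxy hx => ?_⟩
  obtain ⟨u, hu, hxu, h0⟩ := exists_unit hx
  have hxp : 0 < ‖x‖ := norm_pos_iff.2 hx
  set c : ℂ := ((‖x‖ : ℝ) : ℂ) with hc
  have hcn : ‖c‖ = ‖x‖ := by rw [hc, Complex.norm_real, norm_norm]
  set w : VV s := c⁻¹ • y with hw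
  have hyw : y = c • w := by rw [hw, smul_smul, mul_inv_cancel₀ h0, one_smul]
  have h1 : ‖w - u‖ ≤ min (δ / 2) 1 := by
    have h2 : y - x = c • (w - u) := by
      rw [smul_sub, ← hyw]
      congr 1
    rw [h2, norm_smul, hcn, mul_comm] at hxy
    exact le_of_mul_le_mul_right hxy hxp
  have h3 : D.NN x y - D.N x = c ^ (D.k + 1) • (D.NN u w - D.NN u u) := by
    rw [smul_sub, ← D.NN_hom h0, ← D.NN_hom h0, ← hyw, ← hxu, D.NN_diag]
  rw [h3, norm_smul, norm_pow, hcn, mul_comm]
  have hw2 : w ∈ Metric.closedBall (0 : VV s) 2 := by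
    rw [mem_closedBall_zero_iff]
    have : ‖w‖ ≤ ‖w - u‖ + ‖u‖ := by
      have := norm_add_le (w - u) u
      rwa [sub_add_cancel] at this
    have h5 := h1.trans (min_le_right _ _)
    linarith
  have hu2 : u ∈ Metric.closedBall (0 : VV s) 2 := by
    rw [mem_closedBall_zero_iff, hu]
    norm_num
  have hus := mem_sphere_zero_iff_norm.2 hu
  have h4 := hd (u, w) ⟨hus, hw2⟩ (u, u) ⟨hus, hu2⟩ (by
    rw [Prod.dist_eq, dist_self]
    have : dist w u < δ := by
      rw [dist_eq_norm]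
      have := h1.trans (min_le_left _ _)
      linarith
    exact max_lt hδ this)
  rw [dist_eq_norm] at h4
  gcongr

/-- upper bound for the divided difference near the diagonal -/
theorem NN_upper : ∃ C : ℝ, 0 < C ∧ ∀ x y, ‖y - x‖ ≤ ‖x‖ →
    x ≠ 0 → ‖D.NN x y‖ ≤ C * ‖x‖ ^ (D.k + 1) := by
  have hK : IsCompact (Metric.sphere (0 : VV s) 1 ×ˢ Metric.closedBall (0 : VV s) 2) :=
    isCompact_sph.prod (isCompact_closedBall _ _)
  obtain ⟨C, hC⟩ := hK.exists_bound_of_continuousOn D.NN_cont.continuousOn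
  refine ⟨max C 1, lt_max_of_lt_right one_pos, fun x y hxy hx => ?_⟩
  obtain ⟨u, hu, hxu, h0⟩ := exists_unit hx
  have hxp : 0 < ‖x‖ := norm_pos_iff.2 hx
  set c : ℂ := ((‖x‖ : ℝ) : ℂ) with hc
  have hcn : ‖c‖ = ‖x‖ := by rw [hc, Complex.norm_real, norm_norm]
  set w : VV s := c⁻¹ • y with hw
  have hyw : y = c • w := by rw [hw, smul_smul, mul_inv_cancel₀ h0, one_smul]
  have h1 : ‖w - u‖ ≤ 1 := by
    have h2 : y - x = c • (w - u) := by
      rw [smul_sub, ← hyw]
      congr 1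
    rw [h2, norm_smul, hcn] at hxy
    have : ‖x‖ * ‖w - u‖ ≤ ‖x‖ * 1 := by rw [mul_one]; exact hxy
    exact le_of_mul_le_mul_left this hxp
  have h3 : D.NN x y = c ^ (D.k + 1) • D.NN u w := by
    rw [← D.NN_hom h0, ← hyw, ← hxu]
  have hw2 : w ∈ Metric.closedBall (0 : VV s) 2 := by
    rw [mem_closedBall_zero_iff]
    have : ‖w‖ ≤ ‖w - u‖ + ‖u‖ := by
      have := norm_add_le (w - u) u
      rwa [sub_add_cancel] at this
    linarith
  have h4 := hC (u, w) ⟨mem_sphere_zero_iff_norm.2 hu, hw2⟩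
  rw [h3, norm_smul, norm_pow, hcn, mul_comm]
  have : ‖D.NN u w‖ ≤ max C 1 := h4.trans (le_max_left _ _)
  gcongr

end Pair

end Pool.Agent.K9h84.CI
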