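import Pool.Agent.K9h84.CI.Loc
import Pool.Agent.K9h3.TC.Fac

/-!
# Smallness of the form on the Wiman–Valiron discs
-/

set_option autoImplicit false

open Set Filter Topology Metric

namespace Pool.Agent.K9h84.CI

open Pool.Agent.K9h3.TC (fac three_circles)

variable {s : ℕ}

/-- functions of a vector and a parameter which are small near the entire curves -/
structure Tst (D : Pair s) (B : ℝ) (T : VV s → ℂ → ℂ) (n : ℕ) (C : ℝ) : Prop where
  dif : ∀ (V : ℂ → VV s) (k : ℂ → ℂ) (z : ℂ), DifferentiableAt ℂ V z → DifferentiableAt ℂ k z →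
    DifferentiableAt ℂ (fun w => T (V w) (k w)) z
  bd : ∀ x t, ‖T x t‖ ≤ Real.exp (C * (1 + ‖t‖)) * (1 + ‖x‖) ^ n
  near : ∀ W, D.Cv B 0 W → ∀ x t, ‖T x t‖ ≤
    Real.exp (C * (1 + ‖t‖)) * (1 + ‖x‖) ^ n * ‖x - W t‖

theorem one_add_pow_le {x : VV s} {Y : ℝ} (hx : x ≠ 0) (hY : 0 ≤ Y) (h : Real.log ‖x‖ ≤ Y) (n : ℕ) :
    (1 + ‖x‖) ^ n ≤ Real.exp (n * (1 + Y)) := by
  have h1 : ‖x‖ ≤ Real.exp Y := (Real.log_le_iff_le_exp (norm_pos_iff.2 hx)).1 h
  have h2 : 1 ≤ Real.exp Y := Real.one_le_exp hY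
  have h3 : 1 + ‖x‖ ≤ Real.exp (1 + Y) := by
    rw [Real.exp_add]
    have h4 : 2 ≤ Real.exp 1 := by
      have := Real.add_one_le_exp (1 : ℝ)
      linarith
    have h5 : 2 * Real.exp Y ≤ Real.exp 1 * Real.exp Y :=
      mul_le_mul_of_nonneg_right h4 (by linarith)
    linarith
  rw [Real.exp_nat_mul]
  exact pow_le_pow_left₀ (by positivity) h3 n

namespace Pair

variable (D : Pair s)

/-- **smallness** -/
theorem small (hk : 1 ≤ D.k) {B : ℝ} (hB : 0 ≤ B)
    (hsp : ∀ (z0 : ℂ) (v : ℂ → VV s), DifferentiableOn ℂ v (ball z0 1) →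
      (∀ z ∈ ball z0 1, D.on (v z)) → (∀ z ∈ ball z0 1, D.p (v z) = 1) → (∀ z ∈ ball z0 1, D.q (v z) = Complex.exp z) →
      ‖cr (v z0) (deriv v z0)‖ ≤ B * ‖v z0‖ ^ 2) {T : VV s → ℂ → ℂ} {n : ℕ} {C : ℝ} (hC : 0 ≤ C)
    (hT : Tst D B T n C) {Λ : ℝ} (hΛ : 1 ≤ Λ) :
    ∃ Ls R2 : ℝ, 2 ≤ Ls ∧ 1 ≤ R2 ∧ ∀ (k : ℂ → ℂ) (V : ℂ → VV s) (L : ℝ),
      DifferentiableOn ℂ k (ball 0 (2 * L)) → DifferentiableOn ℂ V (ball 0 (2 * L)) →
      (∀ z, ‖z‖ < 2 * L → D.on (V z)) → (∀ z, ‖z‖ < 2 * L → D.p (V z) = 1) → (∀ z, ‖z‖ < 2 * L → D.q (V z) = Complex.exp (k z)) →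
      (∀ w, ‖w‖ < 2 * L → ‖k w‖ ≤ ‖k 0‖ * Real.exp (w.re + 1 / 48)) →
      (∀ w, ‖w‖ < 2 * L → Real.log ‖V w‖ ≤ 2 * Λ * (‖k 0‖ * Real.exp (w.re + 1 / 48))) →
      R2 * Real.exp L ≤ ‖k 0‖ → ∀ w, ‖w‖ ≤ L - Ls →
      ‖T (V w) (k w)‖ ≤ Real.exp (-(‖k 0‖ * Real.exp w.re)) := by
  have hπ := Real.pi_pos
  have hπ4 := Real.pi_lt_d2
  set B1 : ℝ := 2 * C + n * (1 + 4 * Λ) with hB1
  have hB10 : 0 ≤ B1 := by positivity
  set Cb : ℝ := Real.exp 1 * (B1 * Real.exp 10 + 4) with hCb
  have hCb0 : 0 ≤ Cb := by positivity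
  obtain ⟨Lam, R1, hLam2, hR1, hloc⟩ := D.loc hk hB hsp (E := 4 * Λ) (Cb := Cb + B1)
    (by positivity) (by positivity)
  have hlLam : 0 ≤ Real.log Lam := Real.log_nonneg (by linarith)
  have he1 : 1 ≤ Real.exp 1 := Real.one_le_exp (by norm_num)
  have he10 : 1 ≤ Real.exp 10 := Real.one_le_exp (by norm_num)
  refine ⟨Real.log Lam + 20, Real.exp 1 * R1 + Real.exp 10, by linarith, by nlinarith,
    fun k V L hkd hVd hVon hVp hVq hkb hVb hTL w hw => ?_⟩
  have hL20 : Real.log Lam + 20 ≤ L := by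
    have := norm_nonneg w
    linarith
  set T0 : ℝ := ‖k 0‖ with hT0
  have hR2 : 1 ≤ Real.exp 1 * R1 + Real.exp 10 := by nlinarith
  have hT0p : 0 < T0 := lt_of_lt_of_le (by positivity) hTL
  have hk0 : k 0 ≠ 0 := norm_pos_iff.1 hT0p
  obtain ⟨σ, hσd, hσ1, hσ2⟩ := fac hkd hk0 (ε := 1 / 48) (L := L) (by norm_num) le_rfl
    (by linarith) hkb
  set Vt : ℂ → VV s := fun u => V (σ u) with hVt
  have hσn : ∀ u ∈ ball (0 : ℂ) (L - 1), ‖σ u‖ < 2 * L ∧ (σ u).re ≤ u.re + 1 / 8 := by
    intro u hu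
    have h1 := (hσ1 u hu).1
    rw [mem_ball_zero_iff] at hu
    have h2 := norm_le_norm_add_norm_sub' (σ u) u
    have h3 := (le_abs_self _).trans (Complex.abs_re_le_norm (σ u - u))
    rw [Complex.sub_re] at h3
    constructor <;> linarith
  have hVtp : ∀ u ∈ ball (0 : ℂ) (L - 1), DifferentiableAt ℂ Vt u ∧ D.p (Vt u) = 1 ∧
      D.q (Vt u) = Complex.exp (k 0 * Complex.exp u) ∧
      Real.log ‖Vt u‖ ≤ 4 * Λ * (T0 * Real.exp u.re) ∧ D.on (Vt u) := by
    intro u hu
    have hσb : σ u ∈ ball (0 : ℂ) (2 * L) := mem_ball_zero_iff.2 (hσn u hu).1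
    refine ⟨?_, hVp _ (hσn u hu).1, ?_, ?_, hVon _ (hσn u hu).1⟩
    · exact ((hVd (σ u) hσb).differentiableAt (isOpen_ball.mem_nhds hσb)).comp u
        ((hσd u hu).differentiableAt (isOpen_ball.mem_nhds hu))
    · show D.q (V (σ u)) = _
      rw [hVq _ (hσn u hu).1, (hσ1 u hu).2]
    · have h1 := hVb (σ u) (hσn u hu).1
      refine h1.trans ?_
      have h2 : Real.exp ((σ u).re + 1 / 48) ≤ 2 * Real.exp u.re := by
        have h3 : (σ u).re + 1 / 48 ≤ u.re + 1 / 2 := by
          have := (hσn u hu).2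
          linarith
        refine (Real.exp_le_exp.2 h3).trans ?_
        rw [Real.exp_add, mul_comm]
        refine mul_le_mul_of_nonneg_right ?_ (Real.exp_pos _).le
        have h4 := Real.exp_one_lt_d9
        have h5 : Real.exp (1 / 2) * Real.exp (1 / 2) = Real.exp 1 := by
          rw [← Real.exp_add]
          norm_num
        by_contra hcon
        push Not at hcon
        nlinarith
      calc 2 * Λ * (T0 * Real.exp ((σ u).re + 1 / 48)) ≤ 2 * Λ * (T0 * (2 * Real.exp u.re)) := by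
            gcongr
        _ = _ := by ring
  have hnt : ∀ u : ℂ, ‖k 0 * Complex.exp u‖ = T0 * Real.exp u.re := by
    intro u
    rw [norm_mul, Complex.norm_exp]
  -- the upper bound
  have hup : ∀ u ∈ ball (0 : ℂ) (L - 1), ∀ Y : ℝ, 1 ≤ Y → T0 * Real.exp u.re ≤ Y →
      Real.exp (C * (1 + ‖k 0 * Complex.exp u‖)) * (1 + ‖Vt u‖) ^ n ≤ Real.exp (B1 * Y) := by
    intro u hu Y hY hTY
    obtain ⟨-, h2, -, h3, -⟩ := hVtp u hu
    have h4 := one_add_pow_le (D.p_eq_one_ne h2) (by positivity) h3 n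
    calc Real.exp (C * (1 + ‖k 0 * Complex.exp u‖)) * (1 + ‖Vt u‖) ^ n ≤
        Real.exp (C * (1 + ‖k 0 * Complex.exp u‖)) *
          Real.exp (n * (1 + 4 * Λ * (T0 * Real.exp u.re))) :=
          mul_le_mul_of_nonneg_left h4 (Real.exp_pos _).le
      _ ≤ Real.exp (B1 * Y) := by
          rw [← Real.exp_add, hnt]
          apply Real.exp_le_exp.2
          have h5 : C * (1 + T0 * Real.exp u.re) ≤ C * (2 * Y) :=
            mul_le_mul_of_nonneg_left (by linarith) hC
          have h6 : (n : ℝ) * (1 + 4 * Λ * (T0 * Real.exp u.re)) ≤ n * ((1 + 4 * Λ) * Y) := by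
            refine mul_le_mul_of_nonneg_left ?_ (Nat.cast_nonneg n)
            have h7 : 4 * Λ * (T0 * Real.exp u.re) ≤ 4 * Λ * Y :=
              mul_le_mul_of_nonneg_left hTY (by positivity)
            linarith
          rw [hB1]
          linarith
  -- the local estimate
  have hloc' : ∀ u1 : ℂ, ‖u1‖ + Real.log Lam + Real.pi < L - 1 → R1 ≤ T0 * Real.exp u1.re →
      T0 * Real.exp u1.re / 2 ≤ (k 0 * Complex.exp u1).im →
      ‖T (Vt u1) (k 0 * Complex.exp u1)‖ ≤ Real.exp (-(Cb * (T0 * Real.exp u1.re))) := by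
    intro u1 hu1 hR him
    have hup1 := hup u1 (by
      rw [mem_ball_zero_iff]
      linarith) (T0 * Real.exp u1.re) (by linarith) le_rfl
    set t1 : ℂ := k 0 * Complex.exp u1 with ht1
    have ht1n : ‖t1‖ = T0 * Real.exp u1.re := hnt u1
    have ht10 : t1 ≠ 0 := mul_ne_zero hk0 (Complex.exp_ne_zero _)
    have hNp : 0 < ‖t1‖ := norm_pos_iff.2 ht10
    rw [← ht1n] at hR him hup1 ⊢
    obtain ⟨W, hW, h1⟩ := hloc t1 (fun t => Vt (u1 + Complex.log (t / t1))) hR him (by
      intro t htim ht2 ht3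
      have ht0 : t ≠ 0 := by
        intro h
        rw [h, Complex.zero_im] at htim
        exact lt_irrefl _ htim
      have htn : 0 < ‖t‖ := norm_pos_iff.2 ht0
      have hz0 : t / t1 ≠ 0 := div_ne_zero ht0 ht10
      have hsl : t / t1 ∈ Complex.slitPlane := by
        rw [Complex.mem_slitPlane_iff]
        by_contra hcon
        push Not at hcon
        have h2 : t = t / t1 * t1 := by field_simp
        have h3 : t.im = (t / t1).re * t1.im + (t / t1).im * t1.re := by
          conv_lhs => rw [h2]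
          rw [Complex.mul_im]
        rw [hcon.2, zero_mul, add_zero] at h3
        have h4 : (t / t1).re * t1.im ≤ 0 :=
          mul_nonpos_of_nonpos_of_nonneg hcon.1 (by linarith)
        linarith
      have hlb : ‖Complex.log (t / t1)‖ ≤ Real.log Lam + Real.pi := by
        refine (Complex.norm_le_abs_re_add_abs_im _).trans ?_
        rw [Complex.log_re, Complex.log_im]
        refine add_le_add ?_ (Complex.abs_arg_le_pi _)
        rw [norm_div, Real.log_div htn.ne' hNp.ne', abs_le]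
        constructor
        · have h2 : Real.log (‖t1‖ / Lam) ≤ Real.log ‖t‖ := Real.log_le_log (by positivity) ht2.le
          rw [Real.log_div hNp.ne' (by linarith)] at h2
          linarith
        · have h2 : Real.log ‖t‖ ≤ Real.log (Lam * ‖t1‖) := Real.log_le_log htn ht3.le
          rw [Real.log_mul (by linarith) hNp.ne'] at h2
          linarith
      have hub : u1 + Complex.log (t / t1) ∈ ball (0 : ℂ) (L - 1) := by
        rw [mem_ball_zero_iff]
        have := norm_add_le u1 (Complex.log (t / t1))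
        linarith
      have hexp : k 0 * Complex.exp (u1 + Complex.log (t / t1)) = t := by
        rw [Complex.exp_add, Complex.exp_log hz0, ← mul_assoc, ← ht1]
        field_simp
      obtain ⟨h2, h3, h4, h5, h5on⟩ := hVtp _ hub
      refine ⟨?_, h3, ?_, ?_, h5on⟩
      · have h6 : DifferentiableAt ℂ (fun t => u1 + Complex.log (t / t1)) t :=
          ((differentiableAt_id.div_const t1).clog hsl).const_add u1
        exact DifferentiableAt.comp (g := Vt) (f := fun t => u1 + Complex.log (t / t1)) t h2 h6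
      · show D.q (Vt (u1 + Complex.log (t / t1))) = _
        rw [h4, hexp]
      · rw [← hnt, hexp] at h5
        exact h5)
    simp only [div_self ht10, Complex.log_one, add_zero] at h1
    refine (hT.near W hW _ _).trans ?_
    calc Real.exp (C * (1 + ‖t1‖)) * (1 + ‖Vt u1‖) ^ n * ‖Vt u1 - W t1‖ ≤
        Real.exp (B1 * ‖t1‖) * Real.exp (-((Cb + B1) * ‖t1‖)) :=
          mul_le_mul hup1 h1 (norm_nonneg _) (Real.exp_pos _).le
      _ = Real.exp (-(Cb * ‖t1‖)) := by
          rw [← Real.exp_add]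
          congr 1
          ring
  -- the point
  have hwL : w ∈ ball (0 : ℂ) (L - 2) := by
    rw [mem_ball_zero_iff]
    linarith
  obtain ⟨u, hu, huw, hσu⟩ := hσ2 w hwL
  have huw' : ‖u - w‖ ≤ 1 / 8 := by linarith
  have hun : ‖u‖ ≤ L - Real.log Lam - 19 := by
    have := norm_le_norm_add_norm_sub' u w
    linarith
  have hure : |u.re| ≤ L := by
    have := Complex.abs_re_le_norm u
    linarith
  set τ : ℝ := T0 * Real.exp u.re with hτ
  have hτR : Real.exp 1 * R1 + Real.exp 10 ≤ τ := by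
    have h1 : Real.exp (-L) ≤ Real.exp u.re := Real.exp_le_exp.2 (by linarith [neg_abs_le u.re])
    have h2 : T0 * Real.exp (-L) ≤ τ := mul_le_mul_of_nonneg_left h1 hT0p.le
    have h3 : (Real.exp 1 * R1 + Real.exp 10) * Real.exp L * Real.exp (-L) ≤ T0 * Real.exp (-L) :=
      mul_le_mul_of_nonneg_right hTL (Real.exp_pos _).le
    rw [mul_assoc, ← Real.exp_add, add_neg_cancel, Real.exp_zero, mul_one] at h3
    linarith
  have hτp : 0 < τ := by positivity
  set t : ℂ := k 0 * Complex.exp u with ht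
  have htn : ‖t‖ = τ := hnt u
  set β : ℝ := Complex.arg (-Complex.I * t) with hβ
  have hβπ : |β| ≤ Real.pi := Complex.abs_arg_le_pi _
  set u1 : ℂ := u - β * Complex.I with hu1
  have hu1re : u1.re = u.re := by
    rw [hu1]
    simp
  have huu1 : ‖u - u1‖ ≤ Real.pi := by
    rw [hu1, sub_sub_cancel, norm_mul, Complex.norm_I, mul_one, Complex.norm_real, Real.norm_eq_abs]
    exact hβπ
  have hu1n : ‖u1‖ ≤ ‖u‖ + Real.pi := by
    have := norm_le_norm_add_norm_sub u u1
    linarith
  have ht1 : k 0 * Complex.exp u1 = Complex.I * τ := by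
    have h1 := Complex.norm_mul_exp_arg_mul_I (-Complex.I * t)
    rw [norm_mul, norm_neg, Complex.norm_I, one_mul, htn, ← hβ] at h1
    have h2 : Complex.exp u1 = Complex.exp u * Complex.exp (-(β * Complex.I)) := by
      rw [← Complex.exp_add, hu1, sub_eq_add_neg]
    rw [h2, ← mul_assoc, ← ht]
    have h3 : t = Complex.I * (τ * Complex.exp (β * Complex.I)) := by
      rw [h1, ← mul_assoc]
      have : Complex.I * -Complex.I = 1 := by rw [mul_neg, Complex.I_mul_I, neg_neg]
      rw [this, one_mul]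
    rw [h3, mul_assoc, mul_assoc, ← Complex.exp_add, add_neg_cancel, Complex.exp_zero, mul_one]
  have hball : ∀ z : ℂ, ‖z - u1‖ < 11 → z ∈ ball (0 : ℂ) (L - 1) := by
    intro z hz
    rw [mem_ball_zero_iff]
    have := norm_le_norm_add_norm_sub' z u1
    linarith
  have hzre : ∀ z : ℂ, z.re ≤ u.re + ‖z - u1‖ ∧ u.re - ‖z - u1‖ ≤ z.re := by
    intro z
    have h1 := Complex.abs_re_le_norm (z - u1)
    rw [Complex.sub_re, hu1re, abs_le] at h1
    constructor <;> linarith
  have h3c := three_circles (g := fun u => T (Vt u) (k 0 * Complex.exp u)) (c := u1)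
    (A := Cb * τ / Real.exp 1) (B := B1 * (τ * Real.exp 10)) (by positivity) (by positivity) (by
      intro z hz
      refine DifferentiableAt.differentiableWithinAt ?_
      exact hT.dif Vt (fun u => k 0 * Complex.exp u) z
        (hVtp z (hball z (by rwa [mem_ball_iff_norm] at hz))).1 (by fun_prop)) (by
      intro z hz
      have hz1 := hzre z
      set d : ℂ := z - u1 with hd
      have hzt : k 0 * Complex.exp z = Complex.I * (τ * Complex.exp d) := by
        have h1 : z = u1 + d := by rw [hd]; ring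
        rw [h1, Complex.exp_add, ← mul_assoc, ht1, mul_assoc]
      have hzT : T0 * Real.exp z.re = τ * Real.exp d.re := by
        rw [← hnt z, hzt, norm_mul, Complex.norm_I, one_mul, norm_mul, Complex.norm_real,
          Real.norm_of_nonneg hτp.le, Complex.norm_exp]
      have hdre := Complex.abs_re_le_norm d
      have hdim := Complex.abs_im_le_norm d
      have hzlow : τ / Real.exp 1 ≤ T0 * Real.exp z.re := by
        rw [hzT, div_eq_mul_inv, ← Real.exp_neg]
        refine mul_le_mul_of_nonneg_left (Real.exp_le_exp.2 ?_) hτp.le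
        linarith [neg_abs_le d.re]
      have hzim : T0 * Real.exp z.re / 2 ≤ (k 0 * Complex.exp z).im := by
        rw [hzT, hzt, Complex.I_mul_im, Complex.re_ofReal_mul, Complex.exp_re]
        have h2 : 1 / 2 ≤ Real.cos d.im := by
          have h3 := Real.one_sub_sq_div_two_le_cos (x := d.im)
          have h4 : d.im ^ 2 ≤ 1 := by
            rw [← sq_abs]
            exact pow_le_one₀ (abs_nonneg _) (hdim.trans hz)
          linarith
        have h5 : 0 ≤ τ * Real.exp d.re := by positivity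
        nlinarith
      have hR1z : R1 ≤ T0 * Real.exp z.re := by
        refine le_trans ?_ hzlow
        rw [le_div_iff₀ (Real.exp_pos _)]
        have : 0 < Real.exp 10 := Real.exp_pos _
        linarith
      have h1 := hloc' z (by
        have := norm_le_norm_add_norm_sub' z u1
        linarith) hR1z hzim
      refine h1.trans (Real.exp_le_exp.2 ?_)
      have h2 := mul_le_mul_of_nonneg_left hzlow hCb0
      have h3 : Cb * (τ / Real.exp 1) = Cb * τ / Real.exp 1 := by ring
      linarith) (by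
      intro z hz
      have hz1 := hzre z
      have hzb := hball z (by linarith)
      have hzT : T0 * Real.exp z.re ≤ τ * Real.exp 10 := by
        rw [hτ, mul_assoc, ← Real.exp_add]
        exact mul_le_mul_of_nonneg_left (Real.exp_le_exp.2 (by linarith)) hT0p.le
      have h6 : (1 : ℝ) ≤ τ * Real.exp 10 := by
        have h7 : 1 ≤ τ := hR2.trans hτR
        exact one_le_mul_of_one_le_of_one_le h7 he10
      exact (hT.bd _ _).trans (hup z hzb _ h6 hzT)) huu1
  have h4 : Vt u = V w := by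
    show V (σ u) = V w
    rw [hσu]
  have h4' : k 0 * Complex.exp u = k w := by
    rw [← hσu]
    exact ((hσ1 u hu).2).symm
  simp only [h4] at h3c
  rw [h4'] at h3c
  refine h3c.trans (Real.exp_le_exp.2 ?_)
  have h5 : Cb * τ / Real.exp 1 = (B1 * Real.exp 10 + 4) * τ := by
    rw [hCb]
    have := (Real.exp_pos 1).ne'
    field_simp
  rw [h5]
  have h6 : T0 * Real.exp w.re ≤ 2 * τ := by
    rw [hτ]
    have h7 : w.re ≤ u.re + 1 / 8 := by
      have := (le_abs_self _).trans (Complex.abs_re_le_norm (w - u))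
      rw [Complex.sub_re, norm_sub_rev] at this
      linarith
    have h8 : Real.exp w.re ≤ Real.exp u.re * 2 := by
      refine (Real.exp_le_exp.2 h7).trans ?_
      rw [Real.exp_add]
      refine mul_le_mul_of_nonneg_left ?_ (Real.exp_pos _).le
      have h9 := Real.abs_exp_sub_one_le (x := 1 / 8) (by norm_num [abs_of_pos])
      have h10 := le_abs_self (Real.exp (1 / 8) - 1)
      have h11 : |(1 / 8 : ℝ)| = 1 / 8 := abs_of_pos (by norm_num)
      rw [h11] at h9
      linarith
    have := mul_le_mul_of_nonneg_left h8 hT0p.le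
    linarith
  linarith

end Pair

end Pool.Agent.K9h84.CI
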