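import Pool.Agent.K9h84.CI.Tch
import Pool.Agent.K9h84.CI.Sml
import Pool.Agent.K9h3.TC.Rec

/-!
# Test functions vanish along all entire curves
-/

set_option autoImplicit false

open Set Filter Topology Metric

namespace Pool.Agent.K9h84.CI

open Pool.Agent.K9h3.TC (rect rot)

variable {s : ℕ}

namespace Pair

variable (D : Pair s)

theorem glob0 (hk : 1 ≤ D.k) (hF : D.HF) {B : ℝ} (hB : 0 ≤ B)
    (hsp : ∀ (z0 : ℂ) (v : ℂ → VV s), DifferentiableOn ℂ v (ball z0 1) →
      (∀ z ∈ ball z0 1, D.on (v z)) → (∀ z ∈ ball z0 1, D.p (v z) = 1) → (∀ z ∈ ball z0 1, D.q (v z) = Complex.exp z) →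
      ‖cr (v z0) (deriv v z0)‖ ≤ B * ‖v z0‖ ^ 2) {T : VV s → ℂ → ℂ} {n : ℕ} {C : ℝ} (hC : 0 ≤ C)
    (hT : Tst D B T n C) {h : ℂ → ℂ} {v : ℂ → VV s} (hh : Differentiable ℂ h)
    (hv : Differentiable ℂ v) (hon : ∀ z, D.on (v z)) (hp : ∀ z, D.p (v z) = 1) (hq : ∀ z, D.q (v z) = Complex.exp (h z))
    (hn : ∃ z, deriv h z ≠ 0) : T (v 0) (h 0) = 0 := by
  by_contra hne
  have hπ := Real.pi_pos
  have hπ4 := Real.pi_lt_d2
  set g0 : ℝ := ‖T (v 0) (h 0)‖ with hg0
  have hg0p : 0 < g0 := norm_pos_iff.2 hne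
  obtain ⟨Λ, hΛ, htch⟩ := D.tch hk hF
  obtain ⟨Ls, R2, hLs, hR2, hsm⟩ := D.small hk hB hsp hC hT hΛ
  set C' : ℝ := 2 * C + n * (1 + 2 * Λ) with hC'
  have hC'0 : 0 ≤ C' := by positivity
  have hlog32 : 0 ≤ Real.log (32 * (C' + 1)) := Real.log_nonneg (by linarith)
  set C1 : ℝ := 16 + 4 * (Ls + 10) + 4 * Real.log (32 * (C' + 1)) with hC1
  have habs := abs_nonneg (Real.log g0)
  obtain ⟨z0, a, hz0, ha, hh0, hTm, hcirc, hw⟩ := htch h v hh hv hon hp hq hn C1 (1 / 48)
    (R2 + 1 + |Real.log g0|) (by linarith) (by norm_num) (by norm_num)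
  have hap : 0 < a := by linarith
  have hla : 0 ≤ Real.log (2 + a) := Real.log_nonneg (by linarith)
  set A : ℝ := C1 * (1 + Real.log (2 + a)) with hA
  have hAC : C1 ≤ A := by
    rw [hA]
    have : 0 ≤ C1 * Real.log (2 + a) := by positivity
    linarith
  set L : ℝ := A / 2 with hL
  set T0 : ℝ := ‖h z0‖ with hT0
  have hT0p : 0 < T0 := norm_pos_iff.2 hh0
  have hAp : 0 ≤ A := by linarith
  have heA : 1 ≤ Real.exp A := Real.one_le_exp hAp
  have hT0big : R2 + 1 + |Real.log g0| ≤ T0 := by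
    refine le_trans ?_ hTm
    exact le_mul_of_one_le_right (by linarith) heA
  have hT01 : 1 ≤ T0 := by linarith
  have h00 : z0 * Complex.exp ((0 : ℂ) / a) = z0 := by rw [zero_div, Complex.exp_zero, mul_one]
  have hsmall := hsm (fun w => h (z0 * Complex.exp (w / a))) (fun w => v (z0 * Complex.exp (w / a)))
    L (hh.comp (by fun_prop)).differentiableOn (hv.comp (by fun_prop)).differentiableOn
    (fun z _ => hon _) (fun z _ => hp _) (fun z _ => hq _) (fun w hw1 => by
      simp only [h00]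
      exact (hw w (by linarith)).1) (fun w hw1 => by
      simp only [h00]
      exact (hw w (by linarith)).2) (by
      simp only [h00]
      refine le_trans ?_ hTm
      have h1 : Real.exp L ≤ Real.exp A := Real.exp_le_exp.2 (by linarith)
      calc R2 * Real.exp L ≤ R2 * Real.exp A := mul_le_mul_of_nonneg_left h1 (by linarith)
        _ ≤ (R2 + 1 + |Real.log g0|) * Real.exp A :=
          mul_le_mul_of_nonneg_right (by linarith) (by linarith))
  simp only [h00] at hsmall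
  -- the test function along the curve
  set γ : ℂ → ℂ := fun z => T (v z) (h z) with hγ
  have hγd : Differentiable ℂ γ := fun z => hT.dif v h z (hv z) (hh z)
  set l : ℝ := L - Ls - 4 with hl
  have hl1 : 1 ≤ l := by linarith
  have hrect := rect (Γ := fun w => γ (z0 * Complex.exp (w / a))) (T := T0) (l := l)
    (hγd.comp (by fun_prop)).differentiableOn hT0p.le hl1 (fun w hw1 hw2 => by
      refine hsmall w ?_
      have := Complex.norm_le_abs_re_add_abs_im w
      linarith)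
  set m : ℕ := ⌈Real.pi * a⌉₊ with hm
  have hm1 : Real.pi * a ≤ m := Nat.le_ceil _
  have hm2 : (m : ℝ) < Real.pi * a + 1 := Nat.ceil_lt_add_one (by positivity)
  have hmp : (0 : ℝ) < m := lt_of_lt_of_le (by positivity) hm1
  have hrot := rot hγd hz0 hap hm1 (M := C' * T0) (S := T0 * Real.exp (l / 2) / 4) (by positivity)
    (fun z hz => by
      obtain ⟨h1, h2⟩ := hcirc z hz
      have h3 := one_add_pow_le (D.p_eq_one_ne (hp z)) (by positivity) h2 n
      refine (hT.bd _ _).trans ?_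
      calc Real.exp (C * (1 + ‖h z‖)) * (1 + ‖v z‖) ^ n ≤
          Real.exp (C * (1 + ‖h z‖)) * Real.exp (n * (1 + 2 * Λ * ‖h z0‖)) :=
            mul_le_mul_of_nonneg_left h3 (Real.exp_pos _).le
        _ ≤ Real.exp (C' * T0) := by
          rw [← Real.exp_add]
          apply Real.exp_le_exp.2
          have h5 : C * (1 + ‖h z‖) ≤ C * (2 * T0) := mul_le_mul_of_nonneg_left (by linarith) hC
          have h6 : (n : ℝ) * (1 + 2 * Λ * T0) ≤ n * ((1 + 2 * Λ) * T0) :=
            mul_le_mul_of_nonneg_left (by linarith) (Nat.cast_nonneg n)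
          rw [hC']
          linarith) hrect
  have hγ0 : ‖γ 0‖ = g0 := rfl
  rw [hγ0] at hrot
  have h1 := Real.log_le_log (by positivity) hrot
  rw [Real.log_pow, Real.log_exp] at h1
  have h2 := neg_abs_le (Real.log g0)
  have h3 : (m : ℝ) * (-T0) ≤ m * Real.log g0 := mul_le_mul_of_nonneg_left (by linarith) hmp.le
  have h4 : T0 * Real.exp (l / 2) ≤ T0 * (4 * (m * (C' + 1))) := by linarith
  have h5 : Real.exp (l / 2) ≤ 4 * (m * (C' + 1)) := le_of_mul_le_mul_left h4 hT0p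
  have h6 : (m : ℝ) ≤ 4 * (2 + a) := by
    have : Real.pi * a ≤ 4 * a := mul_le_mul_of_nonneg_right (by linarith) hap.le
    linarith
  have h7 : (m : ℝ) * (C' + 1) ≤ 4 * (2 + a) * (C' + 1) :=
    mul_le_mul_of_nonneg_right h6 (by linarith)
  have h8 : 32 * (C' + 1) * (2 + a) ≤ Real.exp (l / 2) := by
    rw [← Real.exp_log (show 0 < 32 * (C' + 1) * (2 + a) by positivity)]
    apply Real.exp_le_exp.2
    rw [Real.log_mul (by positivity) (by positivity)]
    have h9 : C1 / 4 * (1 + Real.log (2 + a)) = A / 4 := by rw [hA]; ring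
    have h10 : Real.log (2 + a) ≤ C1 / 4 * Real.log (2 + a) :=
      le_mul_of_one_le_left hla (by linarith)
    have h11 : A / 4 = C1 / 4 + C1 / 4 * Real.log (2 + a) := by rw [← h9]; ring
    have h12 : l / 2 = A / 4 - Ls / 2 - 2 := by rw [hl, hL]; ring
    rw [h12, h11]
    linarith
  have h9 : 0 < (C' + 1) * (2 + a) := by positivity
  linarith

/-- **test functions vanish along entire curves** -/
theorem glob (hk : 1 ≤ D.k) (hF : D.HF) {B : ℝ} (hB : 0 ≤ B)
    (hsp : ∀ (z0 : ℂ) (v : ℂ → VV s), DifferentiableOn ℂ v (ball z0 1) →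
      (∀ z ∈ ball z0 1, D.on (v z)) → (∀ z ∈ ball z0 1, D.p (v z) = 1) → (∀ z ∈ ball z0 1, D.q (v z) = Complex.exp z) →
      ‖cr (v z0) (deriv v z0)‖ ≤ B * ‖v z0‖ ^ 2) {T : VV s → ℂ → ℂ} {n : ℕ} {C : ℝ} (hC : 0 ≤ C)
    (hT : Tst D B T n C) {h : ℂ → ℂ} {v : ℂ → VV s} (hh : Differentiable ℂ h)
    (hv : Differentiable ℂ v) (hon : ∀ z, D.on (v z)) (hp : ∀ z, D.p (v z) = 1) (hq : ∀ z, D.q (v z) = Complex.exp (h z))
    (hn : ∃ z, deriv h z ≠ 0) (z : ℂ) : T (v z) (h z) = 0 := by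
  obtain ⟨z1, hz1⟩ := hn
  have h1 := D.glob0 hk hF hB hsp hC hT (h := fun w => h (w + z)) (v := fun w => v (w + z))
    (hh.comp (by fun_prop)) (hv.comp (by fun_prop)) (fun w => hon _) (fun w => hp _) (fun w => hq _)
    ⟨z1 - z, by
      rw [deriv_comp_add_const, sub_add_cancel]
      exact hz1⟩
  simp only [zero_add] at h1
  exact h1

end Pair

end Pool.Agent.K9h84.CI
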