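import Pool.Agent.K9h84.CI.Lul

/-!
# Normalised curves over a half-plane
-/

set_option autoImplicit false

open Set Filter Topology Metric

namespace Pool.Agent.K9h84.CI

open Pool.Agent.K9h3.TC (zf_harnack)

variable {s : ℕ}

/-- lower bound at the centre of a disc -/
theorem center_low_on {u : ℂ → ℂ} {y ρ b c σ : ℝ} (hσ : σ = 1 ∨ σ = -1) (hb : 1 ≤ b) (hc : 0 < c)
    (hρ : 0 < ρ) (hu : DifferentiableOn ℂ u (ball ((y : ℂ) * Complex.I) ρ))
    (hlow : ∀ z ∈ ball ((y : ℂ) * Complex.I) ρ, c * Real.exp (max (σ * z.re) 0 / b) ≤ ‖u z‖) :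
    c * Real.exp (ρ / (8 * b)) ≤ ‖u ((y : ℂ) * Complex.I)‖ := by
  set z0 : ℂ := (y : ℂ) * Complex.I with hz0
  have hz0re : z0.re = 0 := by rw [hz0]; simp
  have hu0 : ∀ z ∈ ball z0 ρ, u z ≠ 0 := fun z hz => by
    have h1 := hlow z hz
    have h2 : 0 < c * Real.exp (max (σ * z.re) 0 / b) := by positivity
    exact norm_pos_iff.1 (lt_of_lt_of_le h2 h1)
  have hρ2 : 0 < ρ / 2 := by positivity
  set F : ℂ → ℂ := fun z => Complex.exp (hR (ρ / 2) ((σ : ℂ) * (z - z0)) / (b : ℂ)) / u z with hF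
  have hFd : DifferentiableOn ℂ F (ball z0 ρ) := by
    refine DifferentiableOn.div ?_ hu hu0
    refine Differentiable.differentiableOn ?_
    have h1 : Differentiable ℂ (fun z => hR (ρ / 2) ((σ : ℂ) * (z - z0))) :=
      (hR_diff (ρ / 2)).comp (by fun_prop)
    exact (h1.div_const _).cexp
  have hsub : closedBall z0 (ρ / 2) ⊆ ball z0 ρ := closedBall_subset_ball (by linarith)
  have hFc : DiffContOnCl ℂ F (ball z0 (ρ / 2)) := hFd.diffContOnCl_ball hsub
  have hfr : ∀ z ∈ frontier (ball z0 (ρ / 2)), ‖F z‖ ≤ 1 / c := by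
    intro z hz
    rw [frontier_ball z0 hρ2.ne', mem_sphere_iff_norm] at hz
    have hzb : z ∈ ball z0 ρ := by
      rw [mem_ball_iff_norm, hz]
      linarith
    have h1 := hlow z hzb
    have h2 : ‖(σ : ℂ) * (z - z0)‖ = ρ / 2 := by
      rw [norm_mul, hz, Complex.norm_real]
      rcases hσ with h | h <;> rw [h] <;> simp
    have h3 := hR_le hρ2 h2
    have h4 : ((σ : ℂ) * (z - z0)).re = σ * z.re := by
      rw [Complex.re_ofReal_mul, Complex.sub_re, hz0re, sub_zero]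
    rw [h4] at h3
    rw [hF]
    simp only
    rw [norm_div, Complex.norm_exp, Complex.div_ofReal_re, div_le_div_iff₀ (norm_pos_iff.2 (hu0 z hzb)) hc,
      one_mul]
    refine le_trans ?_ h1
    rw [mul_comm]
    refine mul_le_mul_of_nonneg_left (Real.exp_le_exp.2 ?_) hc.le
    exact div_le_div_of_nonneg_right h3 (by linarith)
  have h5 := Complex.norm_le_of_forall_mem_frontier_norm_le Metric.isBounded_ball hFc hfr
    (z := z0) (subset_closure (mem_ball_self hρ2))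
  have h6 : F z0 = Complex.exp (((ρ / (8 * b) : ℝ)) : ℂ) / u z0 := by
    rw [hF]
    simp only [sub_self, mul_zero]
    congr 2
    unfold hR
    have hb0 : (b : ℂ) ≠ 0 := by
      have : b ≠ 0 := by linarith
      exact_mod_cast this
    push_cast
    field_simp
    ring
  rw [h6, norm_div, Complex.norm_exp, Complex.ofReal_re,
    div_le_div_iff₀ (norm_pos_iff.2 (hu0 z0 (mem_ball_self hρ))) hc, one_mul] at h5
  rw [mul_comm]
  exact h5

/-- a disc in the cusp region whose boundary meets a nearly constant piece is small -/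
theorem exit_deep_on {b c M : ℝ} (hb : 1 ≤ b) (hc : 0 < c) (_hM : 0 < M) : ∃ T : ℝ, 0 < T ∧
    ∀ (w : ℂ → VV s) (σ y ρ : ℝ) (zs : ℂ) (j : Fin (s + 3)),
    DifferentiableOn ℂ w (ball ((y : ℂ) * Complex.I) ρ) → (σ = 1 ∨ σ = -1) →
    (∀ z ∈ ball ((y : ℂ) * Complex.I) ρ, c * Real.exp (max (σ * z.re) 0 / b) ≤ ‖w z‖) →
    dist ((y : ℂ) * Complex.I) zs = ρ →
    (∀ z ∈ ball ((y : ℂ) * Complex.I) ρ, ‖w z‖ ≤ 2 * ‖w z j‖) →
    (∀ z, dist z zs ≤ T → ‖w z‖ ≤ 2 * M) → ρ ≤ T := by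
  set L : ℝ := |Real.log (8 * M / c)| with hL
  have hL0 : 0 ≤ L := abs_nonneg _
  refine ⟨32 * b * L + 1, by positivity, ?_⟩
  set T : ℝ := 32 * b * L + 1 with hT
  have hTp : 0 < T := by positivity
  intro w σ y ρ zs j hw hσ hlow hdist hcusp hnear
  by_contra hcon
  push Not at hcon
  have hρ : 0 < ρ := hTp.trans hcon
  set z0 : ℂ := (y : ℂ) * Complex.I with hz0
  have hu : DifferentiableOn ℂ (fun z => w z j) (ball z0 ρ) := fun z hz =>
    (differentiableWithinAt_pi.1 (hw z hz)) j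
  have hulow : ∀ z ∈ ball z0 ρ, c / 2 * Real.exp (max (σ * z.re) 0 / b) ≤ ‖w z j‖ := by
    intro z hz
    have h1 := hcusp z hz
    have h2 := hlow z hz
    linarith
  have hctr := center_low_on (u := fun z => w z j) hσ hb (half_pos hc) hρ hu hulow
  have hc4 : 0 < c / 4 := by positivity
  have hu4 : ∀ z ∈ ball z0 ρ, c / 4 < ‖w z j‖ := by
    intro z hz
    have h1 := hulow z hz
    have h2 : 1 ≤ Real.exp (max (σ * z.re) 0 / b) := by
      rw [← Real.exp_zero]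
      exact Real.exp_le_exp.2 (div_nonneg (le_max_right _ _) (by linarith))
    nlinarith
  set z1 : ℂ := zs + ((T / (2 * ρ) : ℝ) : ℂ) * (z0 - zs) with hz1
  have hnd : ‖z0 - zs‖ = ρ := by rw [← dist_eq_norm, hdist]
  have hTρ : T / (2 * ρ) * ρ = T / 2 := by field_simp
  have hTρ1 : T / (2 * ρ) ≤ 1 := by
    rw [div_le_one (by positivity)]
    linarith
  have hTρ0 : 0 ≤ T / (2 * ρ) := by positivity
  have hd1 : dist z1 z0 = ρ - T / 2 := by
    have : z1 - z0 = (((1 - T / (2 * ρ)) : ℝ) : ℂ) * (zs - z0) := by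
      rw [hz1]
      push_cast
      ring
    rw [dist_eq_norm, this, norm_mul, Complex.norm_real, Real.norm_of_nonneg (by linarith),
      norm_sub_rev, hnd, sub_mul, hTρ, one_mul]
  have hd2 : dist z1 zs ≤ T := by
    have : z1 - zs = (((T / (2 * ρ)) : ℝ) : ℂ) * (z0 - zs) := by
      rw [hz1]
      ring
    rw [dist_eq_norm, this, norm_mul, Complex.norm_real, Real.norm_of_nonneg hTρ0, hnd, hTρ]
    linarith
  have hz1b : z1 ∈ ball z0 ρ := by
    rw [mem_ball, hd1]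
    linarith
  have hh := zf_harnack (u := fun z => w z j) hu hc4 hu4 hz1b
  rw [hd1] at hh
  have e1 : Real.log (‖w z1 j‖ / (c / 4)) ≤ L := by
    refine le_trans ?_ (le_abs_self _)
    refine Real.log_le_log (div_pos (hc4.trans (hu4 z1 hz1b)) hc4) ?_
    rw [div_div_eq_mul_div]
    refine div_le_div_of_nonneg_right ?_ hc.le
    have h1 := hnear z1 hd2
    have h2 := le3 (w z1) j
    linarith
  have e2 : ρ / (8 * b) ≤ Real.log (‖w z0 j‖ / (c / 4)) := by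
    rw [Real.le_log_iff_exp_le (div_pos (hc4.trans (hu4 z0 (mem_ball_self hρ))) hc4),
      le_div_iff₀ hc4]
    have := Real.exp_pos (ρ / (8 * b))
    have h3 : c / 2 * Real.exp (ρ / (8 * b)) ≤ ‖w z0 j‖ := hctr
    nlinarith
  have e3 : (ρ - (ρ - T / 2)) * (ρ / (8 * b)) ≤ 2 * ρ * L := by
    refine le_trans ?_ (hh.trans ?_)
    · exact mul_le_mul_of_nonneg_left e2 (by linarith)
    · exact mul_le_mul_of_nonneg_left e1 (by positivity)
  have e4 : (ρ - (ρ - T / 2)) * (ρ / (8 * b)) = ρ * (T / (16 * b)) := by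
    field_simp
    ring
  rw [e4] at e3
  have e5 : T / (16 * b) ≤ 2 * L := by
    by_contra h
    push Not at h
    nlinarith
  rw [div_le_iff₀ (by positivity)] at e5
  have : T = 32 * b * L + 1 := hT
  linarith

/-- translation of a curve -/
theorem shift_deriv {v : ℂ → VV s} {p z : ℂ} (hv : DifferentiableAt ℂ v (p + z)) :
    HasDerivAt (fun z => v (p + z)) (deriv v (p + z)) z := by
  have h2 : HasDerivAt (fun z : ℂ => p + z) 1 z := (hasDerivAt_id z).const_add p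
  have h3 := hv.hasDerivAt.scomp z h2
  rwa [one_smul] at h3

namespace Pair

variable (D : Pair s)

/-- pointwise lower bound for the length of the normalised vectors -/
theorem pt_low : ∃ c : ℝ, 0 < c ∧ ∀ (x : VV s) (z : ℂ), D.p x = 1 → D.q x = Complex.exp z →
    c * Real.exp (max z.re 0 / D.b) ≤ ‖x‖ := by
  obtain ⟨c1, hc1, h1⟩ := D.low_of_p one_ne_zero
  obtain ⟨c2, hc2, h2⟩ := D.swap.low_of_p one_ne_zero
  refine ⟨min c1 c2, by positivity, fun x z hp hq => ?_⟩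
  rcases le_total z.re 0 with h0 | h0
  · rw [max_eq_right h0, zero_div, Real.exp_zero, mul_one]
    exact (min_le_left _ _).trans (h1 x hp)
  · rw [max_eq_left h0]
    have hb0 : (D.b : ℂ) ≠ 0 := by
      have := D.hb
      exact_mod_cast (by omega : D.b ≠ 0)
    have h3 : D.q (Complex.exp (-(z / D.b)) • x) = 1 := by
      rw [D.q_smul, hq, ← Complex.exp_nat_mul, ← Complex.exp_add]
      have : (D.b : ℂ) * -(z / D.b) + z = 0 := by
        field_simp
        ring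
      rw [this, Complex.exp_zero]
    have h4 := h2 _ h3
    rw [norm_smul, Complex.norm_exp, Complex.neg_re, Complex.div_natCast_re] at h4
    have h5 := (min_le_right c1 c2).trans h4
    calc min c1 c2 * Real.exp (z.re / D.b) ≤
        (Real.exp (-(z.re / D.b)) * ‖x‖) * Real.exp (z.re / D.b) := by gcongr
      _ = ‖x‖ := by
          rw [mul_right_comm, ← Real.exp_add, neg_add_cancel, Real.exp_zero, one_mul]

/-- cusp lemma for normalised curves -/
theorem cusp_hw : ∃ M : ℝ, 1 ≤ M ∧ ∀ (S : Set ℂ) (v : ℂ → VV s), IsPreconnected S →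
    ContinuousOn v S → (∀ z ∈ S, D.on (v z)) → (∀ z ∈ S, D.p (v z) = 1) →
    (∀ z ∈ S, D.q (v z) = Complex.exp z) →
    (∀ z ∈ S, M < ‖v z‖ ∧ M * Real.exp (z.re / D.b) < ‖v z‖) →
    ∃ j : Fin (s + 3), ∀ z ∈ S, ‖v z‖ ≤ 2 * ‖v z j‖ := by
  obtain ⟨e, he, hcusp⟩ := D.cusp
  have hbp : (0 : ℝ) < D.b := by exact_mod_cast D.hb
  set M : ℝ := max 1 (1 / e) with hM
  have hM1 : 1 ≤ M := le_max_left _ _
  have hMp : 0 < M := by linarith
  have hMe : 1 ≤ e * M := by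
    have : 1 / e ≤ M := le_max_right _ _
    rw [div_le_iff₀ he] at this
    linarith
  refine ⟨M, hM1, fun S v hS hv hon hp hq hbig => ?_⟩
  refine hcusp S v hS hv fun z hz => ?_
  obtain ⟨h2, h3⟩ := hbig z hz
  refine ⟨D.p_eq_one_ne (hp z hz), ?_, ?_, hon z hz⟩
  · rw [hp z hz, norm_one]
    have h4 : M ^ D.a ≤ ‖v z‖ ^ D.a := pow_le_pow_left₀ hMp.le h2.le _
    have h5 : M ≤ M ^ D.a := le_self_pow₀ hM1 (by have := D.ha; omega)
    nlinarith
  · rw [hq z hz, Complex.norm_exp]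
    have h4 : (M * Real.exp (z.re / D.b)) ^ D.b ≤ ‖v z‖ ^ D.b :=
      pow_le_pow_left₀ (by positivity) h3.le _
    have h5 : M ≤ M ^ D.b := le_self_pow₀ hM1 (by have := D.hb; omega)
    rw [mul_pow, ← Real.exp_nat_mul] at h4
    have h7 : (D.b : ℝ) * (z.re / D.b) = z.re := by
      field_simp
    rw [h7] at h4
    have h8 := Real.exp_pos z.re
    have h9 : e * (M * Real.exp z.re) ≤ e * ‖v z‖ ^ D.b := by
      refine mul_le_mul_of_nonneg_left (le_trans ?_ h4) he.le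
      exact mul_le_mul_of_nonneg_right h5 h8.le
    nlinarith

/-- normalised curves over the half-plane `im > -Y` -/
structure Hw (B Y : ℝ) (v : ℂ → VV s) : Prop where
  dif : ∀ z : ℂ, -Y < z.im → DifferentiableAt ℂ v z
  hp : ∀ z : ℂ, -Y < z.im → D.p (v z) = 1
  hq : ∀ z : ℂ, -Y < z.im → D.q (v z) = Complex.exp z
  sp : ∀ z : ℂ, -Y < z.im → ‖cr (v z) (deriv v z)‖ ≤ B * ‖v z‖ ^ 2
  on : ∀ z : ℂ, -Y < z.im → D.on (v z)

variable {D}

theorem Hw.ne {B Y : ℝ} {v : ℂ → VV s} (h : D.Hw B Y v) {z : ℂ} (hz : -Y < z.im) : v z ≠ 0 :=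
  D.p_eq_one_ne (h.hp z hz)

theorem Hw.pos {B Y : ℝ} {v : ℂ → VV s} (h : D.Hw B Y v) {z : ℂ} (hz : -Y < z.im) : 0 < ‖v z‖ :=
  norm_pos_iff.2 (h.ne hz)

theorem Hw.diffOn {B Y : ℝ} {v : ℂ → VV s} (h : D.Hw B Y v) {S : Set ℂ} (hS : ∀ z ∈ S, -Y < z.im) :
    DifferentiableOn ℂ v S := fun z hz => (h.dif z (hS z hz)).differentiableWithinAt

variable (D)

/-- the other normalisation -/
noncomputable def qn (v : ℂ → VV s) (z : ℂ) : VV s := Complex.exp (-(z / D.b)) • v z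

theorem qn_norm (v : ℂ → VV s) (z : ℂ) : ‖D.qn v z‖ = Real.exp (-(z.re / D.b)) * ‖v z‖ := by
  unfold qn
  rw [norm_smul, Complex.norm_exp, Complex.neg_re, Complex.div_natCast_re]

theorem qn_le (v : ℂ → VV s) (z : ℂ) (M : ℝ) :
    ‖D.qn v z‖ ≤ M ↔ ‖v z‖ ≤ M * Real.exp (z.re / D.b) := by
  rw [qn_norm, Real.exp_neg, inv_mul_le_iff₀ (Real.exp_pos _), mul_comm]

theorem qn_dif {v : ℂ → VV s} {z : ℂ} (h : DifferentiableAt ℂ v z) :
    DifferentiableAt ℂ (D.qn v) z := by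
  have h1 : DifferentiableAt ℂ (fun z : ℂ => Complex.exp (-(z / D.b))) z := by fun_prop
  exact h1.smul h

theorem qn_deriv {v : ℂ → VV s} {z : ℂ} (h : DifferentiableAt ℂ v z) :
    deriv (D.qn v) z = Complex.exp (-(z / D.b)) • deriv v z - (1 / (D.b : ℂ)) • D.qn v z := by
  have h1 : HasDerivAt (fun z : ℂ => Complex.exp (-(z / D.b)))
      (Complex.exp (-(z / D.b)) * (-(1 / D.b))) z :=
    (((hasDerivAt_id z).div_const (D.b : ℂ)).neg).cexp
  have h2 := (h1.smul h.hasDerivAt).deriv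
  rw [show deriv (D.qn v) z = _ from h2]
  unfold qn
  module

theorem qn_speed {v : ℂ → VV s} {z : ℂ} {B : ℝ} (h : DifferentiableAt ℂ v z)
    (hsv : ‖cr (v z) (deriv v z)‖ ≤ B * ‖v z‖ ^ 2) :
    ‖cr (D.qn v z) (deriv (D.qn v) z)‖ ≤ B * ‖D.qn v z‖ ^ 2 := by
  have h1 : DifferentiableAt ℂ (fun z : ℂ => Complex.exp (-(z / D.b))) z := by fun_prop
  have h2 := cr_deriv_smul h h1
  have h3 : cr (D.qn v z) (deriv (D.qn v) z) = (Complex.exp (-(z / D.b))) ^ 2 •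
      cr (v z) (deriv v z) := h2
  rw [h3]
  unfold qn
  rw [norm_smul, norm_smul, norm_pow, mul_pow]
  have h4 : 0 ≤ ‖Complex.exp (-(z / D.b))‖ ^ 2 := by positivity
  nlinarith

theorem qn_q {v : ℂ → VV s} {z : ℂ} (h : D.q (v z) = Complex.exp z) : D.q (D.qn v z) = 1 := by
  have hb0 : (D.b : ℂ) ≠ 0 := by
    have := D.hb
    exact_mod_cast (by omega : D.b ≠ 0)
  unfold qn
  rw [D.q_smul, h, ← Complex.exp_nat_mul, ← Complex.exp_add]
  have : (D.b : ℂ) * -(z / D.b) + z = 0 := by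
    field_simp
    ring
  rw [this, Complex.exp_zero]

theorem qn_p {v : ℂ → VV s} {z : ℂ} (h : D.p (v z) = 1) :
    D.p (D.qn v z) = Complex.exp (-(D.a / D.b) * z) := by
  have hb0 : (D.b : ℂ) ≠ 0 := by
    have := D.hb
    exact_mod_cast (by omega : D.b ≠ 0)
  unfold qn
  rw [D.p_smul, h, mul_one, ← Complex.exp_nat_mul]
  congr 1
  field_simp

/-- near a point where the second form is tiny the curve is nearly constant -/
theorem near_const' (hk : 1 ≤ D.k) {B M : ℝ} (hB : 0 ≤ B) (hM : 0 < M) (t : ℝ) (κ : ℂ) :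
    ∃ ε R : ℝ, 0 < ε ∧ 0 < R ∧ ∀ (w : ℂ → VV s) (α : ℂ), DifferentiableOn ℂ w (ball 0 R) →
    (∀ z ∈ ball (0 : ℂ) R, ‖cr (w z) (deriv w z)‖ ≤ B * ‖w z‖ ^ 2) →
    (∀ z ∈ ball (0 : ℂ) R, D.on (w z)) → (∀ z ∈ ball (0 : ℂ) R, D.p (w z) = 1) →
    (∀ z ∈ ball (0 : ℂ) R, D.q (w z) = α * Complex.exp (κ * z)) → ‖α‖ ≤ ε → ‖w 0‖ ≤ M →
    ∀ z, ‖z‖ ≤ t → ‖w z‖ ≤ 2 * M := by
  by_contra hcon
  push Not at hcon
  have h1 : ∀ n : ℕ, ∃ (w : ℂ → VV s) (α : ℂ), DifferentiableOn ℂ w (ball 0 ((n : ℝ) + 1)) ∧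
      (∀ z ∈ ball (0 : ℂ) ((n : ℝ) + 1), ‖cr (w z) (deriv w z)‖ ≤ B * ‖w z‖ ^ 2) ∧
      (∀ z ∈ ball (0 : ℂ) ((n : ℝ) + 1), D.on (w z)) ∧
      (∀ z ∈ ball (0 : ℂ) ((n : ℝ) + 1), D.p (w z) = 1) ∧
      (∀ z ∈ ball (0 : ℂ) ((n : ℝ) + 1), D.q (w z) = α * Complex.exp (κ * z)) ∧
      ‖α‖ ≤ ((n : ℝ) + 1)⁻¹ ∧ ‖w 0‖ ≤ M ∧
      ∃ z, ‖z‖ ≤ t ∧ 2 * M < ‖w z‖ := fun n =>
    hcon (((n : ℝ) + 1)⁻¹) ((n : ℝ) + 1) (by positivity) (by positivity)
  choose w α hw hsv hon hp hq hα h0 z hz hbad using h1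
  obtain ⟨V, hVd, hVt, -, hVp, hVB, hVon, hVu⟩ := D.lim_bdd_u hB hw hp hsv hon
    (Eventually.of_forall h0)
  have hα0 : Tendsto α UU (𝓝 0) := by
    have h3 : Tendsto (fun n : ℕ => ((n : ℝ) + 1)⁻¹) UU (𝓝 0) :=
      (tendsto_inv_atTop_zero.comp (tendsto_natCast_atTop_atTop.atTop_add
        tendsto_const_nhds)).mono_left UU_le
    exact squeeze_zero_norm hα h3
  have hVq : ∀ z, D.q (V z) = 0 := by
    intro z
    have h2 : Tendsto (fun n => D.q (w n z)) UU (𝓝 (D.q (V z))) :=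
      (D.q_cont.tendsto _).comp (hVt z)
    have h3 := hα0.mul_const (Complex.exp (κ * z))
    rw [zero_mul] at h3
    refine tendsto_nhds_unique h2 (h3.congr' ?_)
    filter_upwards [UU_large ⌈‖z‖⌉₊] with n hn
    have hzb : z ∈ ball (0 : ℂ) ((n : ℝ) + 1) := by
      rw [mem_ball_zero_iff]
      have h6 := Nat.le_ceil ‖z‖
      have h7 : (⌈‖z‖⌉₊ : ℝ) ≤ n := by exact_mod_cast hn
      linarith
    exact (hq n z hzb).symm
  have hcst := D.strat_bro hk hVd hB hVB hVp hVq hVon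
  have hV0 : ‖V 0‖ ≤ M := le_of_tendsto (hVt 0).norm (Eventually.of_forall h0)
  obtain ⟨n, hn⟩ := (hVu t M hM).exists
  have h4 := hn (z n) (mem_closedBall_zero_iff.2 (hz n))
  rw [hcst] at h4
  have h5 := norm_le_norm_add_norm_sub' (w n (z n)) (V 0)
  have h6 := hbad n
  linarith

end Pair

end Pool.Agent.K9h84.CI
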