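import Pool.Agent.K9h84.CI.Spd

/-!
# A Harnack inequality near the crossing points
-/

set_option autoImplicit false

open Set Filter Topology Metric

namespace Pool.Agent.K9h84.CI

open Pool.Agent.K9h3.TC (zf_harnack zf_deriv)

variable {s : ℕ}

namespace Pair

variable (D : Pair s)

theorem const_p {V : ℂ → VV s} (hV : Differentiable ℂ V) (hp : ∀ z, D.p (V z) = 1)
    (h0 : ∀ z, cr (V z) (deriv V z) = 0) (z : ℂ) : V z = V 0 := by
  have hac : (D.a : ℂ) ≠ 0 := by
    have := D.ha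
    exact_mod_cast (by omega : D.a ≠ 0)
  have hv0 : ∀ z, deriv V z = 0 := by
    intro z
    obtain ⟨j, hj⟩ := exists_max (V z)
    have hne : V z ≠ 0 := D.p_eq_one_ne (hp z)
    have hj0 : V z j ≠ 0 := by
      rw [← norm_pos_iff, hj]
      exact norm_pos_iff.2 hne
    have h1 : cr (deriv V z) (V z) = 0 := by
      rw [cr_comm, h0, neg_zero]
    have h2 := parallel h1 hj0
    set μ : ℂ := deriv V z j / V z j with hμ
    have h3 : dt (gr D.P (V z)) (deriv V z) = 0 := D.orth_p hV hp z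
    rw [h2, dt_smul, dt_comm, euler D.hP] at h3
    have h4 : MvPolynomial.eval (V z) D.P = 1 := hp z
    rw [h4, mul_one] at h3
    have h5 : μ = 0 := (mul_eq_zero.1 h3).resolve_right hac
    rw [h2, h5, zero_smul]
  exact is_const_of_deriv_eq_zero hV hv0 z 0

/-- slow curves do not leave the region of bounded length -/
theorem slow {M : ℝ} (hM : 0 < M) : ∃ n : ℕ, ∀ w : ℂ → VV s,
    DifferentiableOn ℂ w (ball 0 ((n : ℝ) + 1)) →
    (∀ z ∈ ball (0 : ℂ) ((n : ℝ) + 1), ‖cr (w z) (deriv w z)‖ ≤ ((n : ℝ) + 1)⁻¹ * ‖w z‖ ^ 2) →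
    (∀ z ∈ ball (0 : ℂ) ((n : ℝ) + 1), D.on (w z)) →
    (∀ z ∈ ball (0 : ℂ) ((n : ℝ) + 1), D.p (w z) = 1) → ‖w 0‖ ≤ M →
    ∀ z, ‖z‖ ≤ 1 → ‖w z‖ ≤ 2 * M := by
  by_contra hcon
  push Not at hcon
  choose w hw hsv hon hp h0 z hz hbad using hcon
  have hs1 : ∀ n : ℕ, ∀ z ∈ ball (0 : ℂ) ((n : ℝ) + 1),
      ‖cr (w n z) (deriv (w n) z)‖ ≤ 1 * ‖w n z‖ ^ 2 := by
    intro n z hz
    refine (hsv n z hz).trans (mul_le_mul_of_nonneg_right ?_ (by positivity))
    rw [inv_le_one₀ (by positivity)]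
    have : (0 : ℝ) ≤ n := Nat.cast_nonneg n
    linarith
  obtain ⟨V, hVd, hVt, hVt', hVp, hVB, hVon, hVu⟩ := D.lim_bdd_u (by norm_num) hw hp hs1 hon
    (Eventually.of_forall h0)
  have hcr : ∀ z, cr (V z) (deriv V z) = 0 := by
    intro z
    have h1 : Tendsto (fun n => cr (w n z) (deriv (w n) z)) UU (𝓝 (cr (V z) (deriv V z))) := by
      have h2 : Tendsto (fun n => ((w n z, deriv (w n) z) : VV s × VV s)) UU (𝓝 (V z, deriv V z)) :=
        (hVt z).prodMk_nhds (hVt' z)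
      exact (cr_cont.tendsto _).comp h2
    have h3 : Tendsto (fun n : ℕ => ((n : ℝ) + 1)⁻¹ * ‖w n z‖ ^ 2) UU (𝓝 (0 * ‖V z‖ ^ 2)) := by
      have h4 : Tendsto (fun n : ℕ => ((n : ℝ) + 1)⁻¹) UU (𝓝 0) :=
        (tendsto_inv_atTop_zero.comp (tendsto_natCast_atTop_atTop.atTop_add
          tendsto_const_nhds)).mono_left UU_le
      exact h4.mul ((hVt z).norm.pow 2)
    rw [zero_mul] at h3
    have h5 : Tendsto (fun n => cr (w n z) (deriv (w n) z)) UU (𝓝 0) := by
      rw [tendsto_zero_iff_norm_tendsto_zero]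
      refine squeeze_zero' (Eventually.of_forall fun n => norm_nonneg _) ?_ h3
      filter_upwards [UU_large ⌈‖z‖⌉₊] with n hn
      refine hsv n z ?_
      rw [mem_ball_zero_iff]
      have h6 := Nat.le_ceil ‖z‖
      have h7 : (⌈‖z‖⌉₊ : ℝ) ≤ n := by exact_mod_cast hn
      linarith
    exact tendsto_nhds_unique h1 h5
  have hcst := D.const_p hVd hVp hcr
  have hV0 : ‖V 0‖ ≤ M := le_of_tendsto (hVt 0).norm (Eventually.of_forall h0)
  obtain ⟨n, hn⟩ := (hVu 1 M hM).exists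
  have h4 := hn (z n) (mem_closedBall_zero_iff.2 (hz n))
  rw [hcst] at h4
  have h5 := norm_le_norm_add_norm_sub' (w n (z n)) (V 0)
  have h6 := hbad n
  linarith

/-- scaled form: a curve of speed `κ` stays bounded for a time proportional to `1 / κ` -/
theorem slow' {M : ℝ} (hM : 0 < M) : ∃ N : ℝ, 1 ≤ N ∧ ∀ (w : ℂ → VV s) (zs : ℂ) (σ κ : ℝ),
    0 < σ → 0 ≤ κ → κ * σ * N ≤ 1 → DifferentiableOn ℂ w (ball zs (N * σ)) →
    (∀ z ∈ ball zs (N * σ), ‖cr (w z) (deriv w z)‖ ≤ κ * ‖w z‖ ^ 2) →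
    (∀ z ∈ ball zs (N * σ), D.on (w z)) →
    (∀ z ∈ ball zs (N * σ), D.p (w z) = 1) → ‖w zs‖ ≤ M →
    ∀ z, dist z zs ≤ σ → ‖w z‖ ≤ 2 * M := by
  obtain ⟨n, hn⟩ := D.slow hM
  have hn0 : (0 : ℝ) ≤ n := Nat.cast_nonneg n
  refine ⟨(n : ℝ) + 1, by linarith, fun w zs σ κ hσ hκ hκσ hw hsv hon hp h0 z hz => ?_⟩
  have hσc : (σ : ℂ) ≠ 0 := by exact_mod_cast hσ.ne'
  have hin : ∀ ζ ∈ ball (0 : ℂ) ((n : ℝ) + 1), zs + ζ * σ ∈ ball zs (((n : ℝ) + 1) * σ) := by
    intro ζ hζ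
    rw [mem_ball_zero_iff] at hζ
    rw [mem_ball_iff_norm, add_sub_cancel_left, norm_mul, Complex.norm_real,
      Real.norm_of_nonneg hσ.le]
    exact mul_lt_mul_of_pos_right hζ hσ
  have hder : ∀ ζ ∈ ball (0 : ℂ) ((n : ℝ) + 1), HasDerivAt (fun ζ => w (zs + ζ * σ))
      ((σ : ℂ) • deriv w (zs + ζ * σ)) ζ := by
    intro ζ hζ
    have h1 : HasDerivAt (fun ζ : ℂ => zs + ζ * σ) (1 * σ) ζ :=
      ((hasDerivAt_id ζ).mul_const (σ : ℂ)).const_add zs
    rw [one_mul] at h1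
    exact (hw.differentiableAt (isOpen_ball.mem_nhds (hin ζ hζ))).hasDerivAt.scomp ζ h1
  have key := hn (fun ζ => w (zs + ζ * σ))
    (fun ζ hζ => (hder ζ hζ).differentiableAt.differentiableWithinAt) (fun ζ hζ => by
      rw [(hder ζ hζ).deriv, cr_smul, norm_smul, Complex.norm_real, Real.norm_of_nonneg hσ.le]
      have h1 := hsv _ (hin ζ hζ)
      have h2 : σ * κ ≤ ((n : ℝ) + 1)⁻¹ := by
        rw [inv_eq_one_div, le_div_iff₀ (by linarith)]
        linarith
      calc σ * ‖cr (w (zs + ζ * σ)) (deriv w (zs + ζ * σ))‖ ≤ σ * (κ * ‖w (zs + ζ * σ)‖ ^ 2) :=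
            mul_le_mul_of_nonneg_left h1 hσ.le
        _ = (σ * κ) * ‖w (zs + ζ * σ)‖ ^ 2 := by ring
        _ ≤ _ := mul_le_mul_of_nonneg_right h2 (by positivity))
    (fun ζ hζ => hon _ (hin ζ hζ)) (fun ζ hζ => hp _ (hin ζ hζ)) (by
      show ‖w (zs + 0 * σ)‖ ≤ M
      rw [zero_mul, add_zero]
      exact h0) ((z - zs) / σ) (by
      rw [norm_div, Complex.norm_real, Real.norm_of_nonneg hσ.le, div_le_one hσ, ← dist_eq_norm]
      exact hz)
  have h1 : zs + (z - zs) / σ * σ = z := by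
    rw [div_mul_cancel₀ _ hσc]
    ring
  have h2 : ‖w (zs + (z - zs) / σ * σ)‖ ≤ 2 * M := key
  rwa [h1] at h2

/-- cusp lemma with a general exponent -/
theorem cusp_h : ∃ M : ℝ, 1 ≤ M ∧ ∀ (S : Set ℂ) (h : ℂ → ℂ) (v : ℂ → VV s), IsPreconnected S →
    ContinuousOn v S → (∀ z ∈ S, D.on (v z)) → (∀ z ∈ S, D.p (v z) = 1) →
    (∀ z ∈ S, D.q (v z) = Complex.exp (h z)) →
    (∀ z ∈ S, M < ‖v z‖ ∧ M * Real.exp ((h z).re / D.b) < ‖v z‖) →
    ∃ j : Fin (s + 3), ∀ z ∈ S, ‖v z‖ ≤ 2 * ‖v z j‖ := by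
  obtain ⟨e, he, hcusp⟩ := D.cusp
  have hbp : (0 : ℝ) < D.b := by exact_mod_cast D.hb
  set M : ℝ := max 1 (1 / e) with hM
  have hM1 : 1 ≤ M := le_max_left _ _
  have hMp : 0 < M := by linarith
  have hMe : 1 ≤ e * M := by
    have : 1 / e ≤ M := le_max_right _ _
    rw [div_le_iff₀ he] at this
    linarith
  refine ⟨M, hM1, fun S h v hS hv hon hp hq hbig => ?_⟩
  refine hcusp S v hS hv fun z hz => ?_
  obtain ⟨h2, h3⟩ := hbig z hz
  refine ⟨D.p_eq_one_ne (hp z hz), ?_, ?_, hon z hz⟩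
  · rw [hp z hz, norm_one]
    have h4 : M ^ D.a ≤ ‖v z‖ ^ D.a := pow_le_pow_left₀ hMp.le h2.le _
    have h5 : M ≤ M ^ D.a := le_self_pow₀ hM1 (by have := D.ha; omega)
    nlinarith
  · rw [hq z hz, Complex.norm_exp]
    have h4 : (M * Real.exp ((h z).re / D.b)) ^ D.b ≤ ‖v z‖ ^ D.b :=
      pow_le_pow_left₀ (by positivity) h3.le _
    have h5 : M ≤ M ^ D.b := le_self_pow₀ hM1 (by have := D.hb; omega)
    rw [mul_pow, ← Real.exp_nat_mul] at h4
    have h7 : (D.b : ℝ) * ((h z).re / D.b) = (h z).re := by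
      field_simp
    rw [h7] at h4
    have h8 := Real.exp_pos (h z).re
    have h9 : e * (M * Real.exp (h z).re) ≤ e * ‖v z‖ ^ D.b := by
      refine mul_le_mul_of_nonneg_left (le_trans ?_ h4) he.le
      exact mul_le_mul_of_nonneg_right h5 h8.le
    nlinarith

/-- the other normalisation, with a general exponent -/
noncomputable def qh (h : ℂ → ℂ) (v : ℂ → VV s) (z : ℂ) : VV s := Complex.exp (-(h z / D.b)) • v z

theorem qh_norm (h : ℂ → ℂ) (v : ℂ → VV s) (z : ℂ) :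
    ‖D.qh h v z‖ = Real.exp (-((h z).re / D.b)) * ‖v z‖ := by
  unfold qh
  rw [norm_smul, Complex.norm_exp, Complex.neg_re, Complex.div_natCast_re]

theorem qh_q {h : ℂ → ℂ} {v : ℂ → VV s} {z : ℂ} (hq : D.q (v z) = Complex.exp (h z)) :
    D.q (D.qh h v z) = 1 := by
  have hb0 : (D.b : ℂ) ≠ 0 := by
    have := D.hb
    exact_mod_cast (by omega : D.b ≠ 0)
  unfold qh
  rw [D.q_smul, hq, ← Complex.exp_nat_mul, ← Complex.exp_add]
  have : (D.b : ℂ) * -(h z / D.b) + h z = 0 := by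
    field_simp
    ring
  rw [this, Complex.exp_zero]

theorem qh_dif {h : ℂ → ℂ} {v : ℂ → VV s} {z : ℂ} (hh : DifferentiableAt ℂ h z)
    (hv : DifferentiableAt ℂ v z) : DifferentiableAt ℂ (D.qh h v) z :=
  ((hh.div_const _).neg.cexp).smul hv

theorem qh_speed {h : ℂ → ℂ} {v : ℂ → VV s} {z : ℂ} {B : ℝ} (hh : DifferentiableAt ℂ h z)
    (hv : DifferentiableAt ℂ v z) (hsv : ‖cr (v z) (deriv v z)‖ ≤ B * ‖v z‖ ^ 2) :
    ‖cr (D.qh h v z) (deriv (D.qh h v) z)‖ ≤ B * ‖D.qh h v z‖ ^ 2 := by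
  have h1 : DifferentiableAt ℂ (fun z : ℂ => Complex.exp (-(h z / D.b))) z :=
    (hh.div_const _).neg.cexp
  have h3 : cr (D.qh h v z) (deriv (D.qh h v) z) = (Complex.exp (-(h z / D.b))) ^ 2 •
      cr (v z) (deriv v z) := cr_deriv_smul hv h1
  rw [h3]
  unfold qh
  rw [norm_smul, norm_smul, norm_pow, mul_pow]
  have h4 : 0 ≤ ‖Complex.exp (-(h z / D.b))‖ ^ 2 := by positivity
  nlinarith

theorem log_qh (h : ℂ → ℂ) {v : ℂ → VV s} {z : ℂ} (hz : v z ≠ 0) :
    Real.log ‖D.qh h v z‖ = Real.log ‖v z‖ - (h z).re / D.b := by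
  rw [qh_norm, Real.log_mul (Real.exp_pos _).ne' (norm_pos_iff.2 hz).ne', Real.log_exp]
  ring

/-- **Harnack inequality**: if both normalised lengths are very large compared with the variation
of the exponent, then they stay large on a smaller disc -/
theorem hrk (hk : 1 ≤ D.k) (hF : D.HF) : ∃ Λ : ℝ, 1 ≤ Λ ∧
    ∀ (z0 : ℂ) (sv ω : ℝ) (h : ℂ → ℂ) (v : ℂ → VV s), 0 < sv → 1 ≤ ω →
      DifferentiableOn ℂ h (ball z0 sv) → (∀ z ∈ ball z0 sv, ‖deriv h z‖ ≤ ω / sv) →
      DifferentiableOn ℂ v (ball z0 sv) → (∀ z ∈ ball z0 sv, D.on (v z)) →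
      (∀ z ∈ ball z0 sv, D.p (v z) = 1) →
      (∀ z ∈ ball z0 sv, D.q (v z) = Complex.exp (h z)) →
      Λ * ω ≤ Real.log ‖v z0‖ → Λ * ω ≤ Real.log ‖v z0‖ - (h z0).re / D.b →
      ∀ z ∈ ball z0 (sv / 4), Real.log ‖v z0‖ ≤ 6 * Real.log ‖v z‖ + 9 ∧
        Real.log ‖v z0‖ - (h z0).re / D.b ≤ 6 * (Real.log ‖v z‖ - (h z).re / D.b) + 9 := by
  obtain ⟨C, hC, hsp⟩ := D.rel_speed3 hk hF
  obtain ⟨M, hM1, hcusp⟩ := D.cusp_h
  have hMp : 0 < M := by linarith
  obtain ⟨N1, hN1, hslow1⟩ := D.slow' hMp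
  obtain ⟨N2, hN2, hslow2⟩ := D.swap.slow' hMp
  set N : ℝ := max N1 N2 with hN
  have hN1' : N1 ≤ N := le_max_left _ _
  have hN2' : N2 ≤ N := le_max_right _ _
  have hNp : 1 ≤ N := hN1.trans hN1'
  set ε : ℝ := 1 / (N * (8 + 2 * C)) with hε
  have hεp : 0 < ε := by positivity
  have hlogM : 0 ≤ Real.log M := Real.log_nonneg hM1
  set Λ : ℝ := Real.log M + 2 / ε + 1 with hΛ
  have hΛ1 : 1 ≤ Λ := by
    have : 0 < 2 / ε := by positivity
    linarith
  have hlog2 : Real.log 2 < 0.6931471808 := Real.log_two_lt_d9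
  have hlog2' : 0.6931471803 < Real.log 2 := Real.log_two_gt_d9
  have hlog4 : Real.log 4 = 2 * Real.log 2 := by
    rw [show (4 : ℝ) = 2 ^ 2 by norm_num, Real.log_pow]
    norm_num
  have hlog8 : Real.log 8 = 3 * Real.log 2 := by
    rw [show (8 : ℝ) = 2 ^ 3 by norm_num, Real.log_pow]
    norm_num
  refine ⟨Λ, hΛ1, fun z0 sv ω h v hsv hω hh hh' hv hon hp hq hE1 hE2 => ?_⟩
  have hωp : 0 < ω := by linarith
  set w2 : ℂ → VV s := D.qh h v with hw2
  have hhA : ∀ z ∈ ball z0 sv, DifferentiableAt ℂ h z := fun z hz =>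
    hh.differentiableAt (isOpen_ball.mem_nhds hz)
  have hvA : ∀ z ∈ ball z0 sv, DifferentiableAt ℂ v z := fun z hz =>
    hv.differentiableAt (isOpen_ball.mem_nhds hz)
  have hw2d : DifferentiableOn ℂ w2 (ball z0 sv) := fun z hz =>
    (D.qh_dif (hhA z hz) (hvA z hz)).differentiableWithinAt
  have hvne : ∀ z ∈ ball z0 sv, v z ≠ 0 := fun z hz => D.p_eq_one_ne (hp z hz)
  have hw2p : ∀ z ∈ ball z0 sv, D.swap.p (w2 z) = 1 := fun z hz => D.qh_q (hq z hz)
  have hw2ne : ∀ z ∈ ball z0 sv, w2 z ≠ 0 := fun z hz => D.swap.p_eq_one_ne (hw2p z hz)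
  have hlw2 : ∀ z ∈ ball z0 sv, Real.log ‖w2 z‖ = Real.log ‖v z‖ - (h z).re / D.b := fun z hz =>
    D.log_qh h (hvne z hz)
  -- the speed bound
  set κ : ℝ := 2 * C * ω / sv with hκ
  have hκp : 0 < κ := by positivity
  have hspv : ∀ z ∈ ball z0 (sv / 2), ‖cr (v z) (deriv v z)‖ ≤ κ * ‖v z‖ ^ 2 := by
    intro z hz
    have hr : 0 < sv / (2 * ω) := by positivity
    have hr2 : sv / (2 * ω) ≤ sv / 2 := by
      apply div_le_div_of_nonneg_left hsv.le (by norm_num)
      linarith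
    have hsub : ball z (sv / (2 * ω)) ⊆ ball z0 sv := by
      intro y hy
      rw [mem_ball] at hy hz ⊢
      have := dist_triangle y z z0
      linarith
    have h1 := hsp (sv / (2 * ω)) z h v hr (hh.mono hsub) (fun y hy => by
      have h2 := hh' y (hsub hy)
      calc ‖deriv h y‖ * (sv / (2 * ω)) ≤ ω / sv * (sv / (2 * ω)) :=
            mul_le_mul_of_nonneg_right h2 hr.le
        _ = 1 / 2 := by field_simp
        _ ≤ 1 := by norm_num) (hv.mono hsub) (fun y hy => hon y (hsub hy)) (fun y hy => hp y (hsub hy))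
      (fun y hy => hq y (hsub hy))
    have h2 : C / (sv / (2 * ω)) = κ := by
      rw [hκ]
      field_simp
    rwa [h2] at h1
  have hsub2 : ball z0 (sv / 2) ⊆ ball z0 sv := ball_subset_ball (by linarith)
  have hspw : ∀ z ∈ ball z0 (sv / 2), ‖cr (w2 z) (deriv w2 z)‖ ≤ κ * ‖w2 z‖ ^ 2 := fun z hz =>
    D.qh_speed (hhA z (hsub2 hz)) (hvA z (hsub2 hz)) (hspv z hz)
  set σ : ℝ := ε * sv / ω with hσ
  have hσp : 0 < σ := by positivity
  have hκσ : κ * σ * N ≤ 1 := by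
    have h1 : κ * σ * N = 2 * C / (8 + 2 * C) := by
      rw [hκ, hσ, hε]
      field_simp
    rw [h1, div_le_one (by positivity)]
    linarith
  have hNσ : N * σ ≤ sv / 8 := by
    have h1 : N * σ = sv / (ω * (8 + 2 * C)) := by
      rw [hσ, hε]
      field_simp
    rw [h1]
    apply div_le_div_of_nonneg_left hsv.le (by norm_num)
    nlinarith
  -- bounded length persists
  have hper : ∀ u : ℂ → VV s, (u = v ∨ u = w2) → ∀ zs, dist zs z0 ≤ 3 * sv / 8 → ‖u zs‖ ≤ M →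
      ∀ z, dist z zs ≤ σ → ‖u z‖ ≤ 2 * M := by
    intro u hu zs hzs hM0
    have hsub : ball zs (N * σ) ⊆ ball z0 (sv / 2) := by
      intro y hy
      rw [mem_ball] at hy ⊢
      have := dist_triangle y zs z0
      linarith
    rcases hu with rfl | rfl
    · have hb : ball zs (N1 * σ) ⊆ ball zs (N * σ) :=
        ball_subset_ball (mul_le_mul_of_nonneg_right hN1' hσp.le)
      refine hslow1 u zs σ κ hσp hκp.le (le_trans ?_ hκσ)
        (hv.mono (hb.trans (hsub.trans hsub2))) (fun y hy => hspv y (hsub (hb hy)))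
        (fun y hy => hon y (hsub2 (hsub (hb hy)))) (fun y hy => hp y (hsub2 (hsub (hb hy)))) hM0
      exact mul_le_mul_of_nonneg_left hN1' (by positivity)
    · have hb : ball zs (N2 * σ) ⊆ ball zs (N * σ) :=
        ball_subset_ball (mul_le_mul_of_nonneg_right hN2' hσp.le)
      refine hslow2 w2 zs σ κ hσp hκp.le (le_trans ?_ hκσ)
        (hw2d.mono (hb.trans (hsub.trans hsub2))) (fun y hy => hspw y (hsub (hb hy)))
        (fun y hy => D.on_smul (hon y (hsub2 (hsub (hb hy)))))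
        (fun y hy => hw2p y (hsub2 (hsub (hb hy)))) hM0
      exact mul_le_mul_of_nonneg_left hN2' (by positivity)
  have hz0s : z0 ∈ ball z0 sv := mem_ball_self hsv
  have hE : ∀ u : ℂ → VV s, (u = v ∨ u = w2) → Λ * ω ≤ Real.log ‖u z0‖ := by
    intro u hu
    rcases hu with rfl | rfl
    · exact hE1
    · rw [hlw2 z0 hz0s]
      exact hE2
  have hune : ∀ u : ℂ → VV s, (u = v ∨ u = w2) → ∀ z ∈ ball z0 sv, u z ≠ 0 := by
    intro u hu
    rcases hu with rfl | rfl
    · exact hvne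
    · exact hw2ne
  have hud : ∀ u : ℂ → VV s, (u = v ∨ u = w2) → DifferentiableOn ℂ u (ball z0 sv) := by
    intro u hu
    rcases hu with rfl | rfl
    · exact hv
    · exact hw2d
  have hsub38 : closedBall z0 (3 * sv / 8) ⊆ ball z0 sv := closedBall_subset_ball (by linarith)
  -- the cusp property for both normalisations
  have hcu : ∀ ρ : ℝ, ρ ≤ sv → (∀ z ∈ ball z0 ρ, M < ‖v z‖ ∧ M < ‖w2 z‖) → ∃ j : Fin (s + 3),
      ∀ u : ℂ → VV s, (u = v ∨ u = w2) → ∀ z ∈ ball z0 ρ, M < ‖u z‖ ∧ ‖u z‖ ≤ 2 * ‖u z j‖ := by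
    intro ρ hρs hbig
    have hsub : ball z0 ρ ⊆ ball z0 sv := ball_subset_ball hρs
    obtain ⟨j, hj⟩ := hcusp (ball z0 ρ) h v (convex_ball _ _).isPreconnected
      (hv.mono hsub).continuousOn (fun z hz => hon z (hsub hz)) (fun z hz => hp z (hsub hz))
      (fun z hz => hq z (hsub hz))
      (fun z hz => by
        refine ⟨(hbig z hz).1, ?_⟩
        have h1 := (hbig z hz).2
        rw [hw2, qh_norm, Real.exp_neg, ← div_eq_inv_mul, lt_div_iff₀ (Real.exp_pos _)] at h1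
        exact h1)
    refine ⟨j, fun u hu z hz => ?_⟩
    rcases hu with rfl | rfl
    · exact ⟨(hbig z hz).1, hj z hz⟩
    · refine ⟨(hbig z hz).2, ?_⟩
      have h1 := hj z hz
      rw [hw2]
      unfold qh
      rw [norm_smul, Pi.smul_apply, norm_smul]
      have h2 := norm_nonneg (Complex.exp (-(h z / D.b)))
      nlinarith
  -- the exit set
  set T : Set ℂ := {z ∈ closedBall z0 (3 * sv / 8) | ‖v z‖ ≤ M ∨ ‖w2 z‖ ≤ M} with hT
  have hTc : IsClosed T := by
    have h1 : T = (closedBall z0 (3 * sv / 8) ∩ (fun z => ‖v z‖) ⁻¹' (Iic M)) ∪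
        (closedBall z0 (3 * sv / 8) ∩ (fun z => ‖w2 z‖) ⁻¹' (Iic M)) := by
      ext z
      simp only [hT, mem_ofPred_eq, mem_union, mem_inter_iff, mem_preimage, mem_Iic]
      tauto
    rw [h1]
    exact ((hv.continuousOn.mono hsub38).norm.preimage_isClosed_of_isClosed isClosed_closedBall
      isClosed_Iic).union ((hw2d.continuousOn.mono hsub38).norm.preimage_isClosed_of_isClosed
      isClosed_closedBall isClosed_Iic)
  have hnotT : ∀ z, dist z z0 ≤ 3 * sv / 8 → z ∉ T → M < ‖v z‖ ∧ M < ‖w2 z‖ := by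
    intro z hz hzT
    have h1 : ¬ (‖v z‖ ≤ M ∨ ‖w2 z‖ ≤ M) := fun h => hzT ⟨mem_closedBall.2 hz, h⟩
    push Not at h1
    exact h1
  have hTe : T = ∅ := by
    by_contra hTne
    have hTne' : T.Nonempty := nonempty_iff_ne_empty.2 hTne
    obtain ⟨zs, hzsT, hdist⟩ := hTc.exists_infDist_eq_dist hTne' z0
    obtain ⟨hzs1, hzs2⟩ := hzsT
    rw [mem_closedBall] at hzs1
    set ρ : ℝ := dist z0 zs with hρ
    have hρ1 : ρ ≤ 3 * sv / 8 := by rw [hρ, dist_comm]; exact hzs1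
    have hin : ∀ z ∈ ball z0 ρ, M < ‖v z‖ ∧ M < ‖w2 z‖ := by
      intro z hz
      rw [mem_ball] at hz
      refine hnotT z (by linarith) fun hzT => ?_
      have h1 := infDist_le_dist_of_mem (x := z0) hzT
      rw [hdist, dist_comm z0 z] at h1
      linarith
    obtain ⟨u, hu, huM⟩ : ∃ u : ℂ → VV s, (u = v ∨ u = w2) ∧ ‖u zs‖ ≤ M := by
      rcases hzs2 with h1 | h1
      · exact ⟨v, Or.inl rfl, h1⟩
      · exact ⟨w2, Or.inr rfl, h1⟩
    have hnear := hper u hu zs hzs1 huM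
    have hu0 : 0 < ‖u z0‖ := norm_pos_iff.2 (hune u hu z0 hz0s)
    have hEu := hE u hu
    rcases le_or_gt ρ σ with hc | hc
    · have h1 := hnear z0 hc
      have h2 : Real.log ‖u z0‖ ≤ Real.log (2 * M) := Real.log_le_log hu0 h1
      rw [Real.log_mul (by norm_num) hMp.ne'] at h2
      have h3 : Λ ≤ Λ * ω := by nlinarith
      have h4 : 0 < 2 / ε := by positivity
      linarith
    · have hρp : 0 < ρ := hσp.trans hc
      obtain ⟨j, hj⟩ := hcu ρ (by linarith) hin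
      set z4 : ℂ := zs + ((σ / ρ : ℝ) : ℂ) * (z0 - zs) with hz4
      have hσρ : σ / ρ < 1 := by rw [div_lt_one hρp]; exact hc
      have hσρ0 : 0 ≤ σ / ρ := by positivity
      have hnd : ‖z0 - zs‖ = ρ := by rw [← dist_eq_norm]
      have hd1 : dist z4 z0 = ρ - σ := by
        have : z4 - z0 = (((1 - σ / ρ) : ℝ) : ℂ) * (zs - z0) := by
          rw [hz4]
          push_cast
          ring
        rw [dist_eq_norm, this, norm_mul, Complex.norm_real, Real.norm_of_nonneg (by linarith),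
          norm_sub_rev, hnd]
        field_simp
      have hd2 : dist z4 zs ≤ σ := by
        have : z4 - zs = (((σ / ρ) : ℝ) : ℂ) * (z0 - zs) := by
          rw [hz4]
          ring
        rw [dist_eq_norm, this, norm_mul, Complex.norm_real, Real.norm_of_nonneg hσρ0, hnd,
          div_mul_cancel₀ _ hρp.ne']
      have hz4b : z4 ∈ ball z0 ρ := by
        rw [mem_ball, hd1]
        linarith
      have hsubρ : ball z0 ρ ⊆ ball z0 sv := ball_subset_ball (by linarith)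
      have hujd : DifferentiableOn ℂ (fun z => u z j) (ball z0 ρ) := fun z hz =>
        (differentiableWithinAt_pi.1 ((hud u hu).mono hsubρ z hz)) j
      have hujl : ∀ z ∈ ball z0 ρ, M / 4 < ‖u z j‖ := fun z hz => by
        obtain ⟨h1, h2⟩ := hj u hu z hz
        linarith
      have hh1 := zf_harnack hujd (by positivity : 0 < M / 4) hujl hz4b
      rw [hd1] at hh1
      have e1 : Real.log (‖u z4 j‖ / (M / 4)) ≤ Real.log 8 := by
        refine Real.log_le_log (div_pos ((by positivity : 0 < M / 4).trans (hujl z4 hz4b))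
          (by positivity)) ?_
        rw [div_le_iff₀ (by positivity)]
        have h1 := hnear z4 hd2
        have h2 := le3 (u z4) j
        linarith
      have e2 : Real.log ‖u z0‖ - Real.log M ≤ Real.log (‖u z0 j‖ / (M / 4)) := by
        rw [← Real.log_div hu0.ne' hMp.ne']
        refine Real.log_le_log (by positivity) ?_
        obtain ⟨h1, h2⟩ := hj u hu z0 (mem_ball_self hρp)
        rw [div_le_div_iff₀ hMp (by positivity)]
        nlinarith
      have e3 : σ * (Λ * ω - Real.log M) ≤ 2 * ρ * Real.log 8 := by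
        have h1 : σ * (Λ * ω - Real.log M) ≤ (ρ - (ρ - σ)) * Real.log (‖u z0 j‖ / (M / 4)) := by
          rw [sub_sub_cancel]
          exact mul_le_mul_of_nonneg_left (by linarith) hσp.le
        refine h1.trans (hh1.trans ?_)
        exact mul_le_mul_of_nonneg_left e1 (by positivity)
      have e4 : ε * sv * (Λ - Real.log M) ≤ σ * (Λ * ω - Real.log M) := by
        have h1 : σ * (Λ * ω - Real.log M) = ε * sv * (Λ - Real.log M / ω) := by
          rw [hσ]
          field_simp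
        rw [h1]
        refine mul_le_mul_of_nonneg_left ?_ (by positivity)
        have h2 : Real.log M / ω ≤ Real.log M := div_le_self hlogM hω
        linarith
      have e5 : ε * sv * (Λ - Real.log M) = 2 * sv + ε * sv := by
        rw [hΛ]
        field_simp
        ring
      have e6 : 2 * ρ * Real.log 8 ≤ 2 * (3 * sv / 8) * Real.log 8 := by
        refine mul_le_mul_of_nonneg_right (by linarith) ?_
        rw [hlog8]
        positivity
      rw [hlog8] at e6 e3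
      nlinarith
  -- conclusion
  have hin : ∀ z ∈ ball z0 (3 * sv / 8), M < ‖v z‖ ∧ M < ‖w2 z‖ := by
    intro z hz
    rw [mem_ball] at hz
    exact hnotT z hz.le (by rw [hTe]; exact notMem_empty z)
  obtain ⟨j, hj⟩ := hcu (3 * sv / 8) (by linarith) hin
  have hfin : ∀ u : ℂ → VV s, (u = v ∨ u = w2) → ∀ z ∈ ball z0 (sv / 4),
      Real.log ‖u z0‖ ≤ 6 * Real.log ‖u z‖ + 9 := by
    intro u hu z hz
    have hsub' : ball z0 (3 * sv / 8) ⊆ ball z0 sv := ball_subset_ball (by linarith)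
    have hzb : z ∈ ball z0 (3 * sv / 8) := by
      rw [mem_ball] at hz ⊢
      linarith
    have hujd : DifferentiableOn ℂ (fun z => u z j) (ball z0 (3 * sv / 8)) := fun z hz =>
      (differentiableWithinAt_pi.1 ((hud u hu).mono hsub' z hz)) j
    have hujl : ∀ z ∈ ball z0 (3 * sv / 8), M / 4 < ‖u z j‖ := fun z hz => by
      obtain ⟨h1, h2⟩ := hj u hu z hz
      linarith
    have hh1 := zf_harnack hujd (by positivity : 0 < M / 4) hujl hzb
    rw [mem_ball] at hz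
    have hz0b : z0 ∈ ball z0 (3 * sv / 8) := mem_ball_self (by positivity)
    have hu0 : 0 < ‖u z0‖ := norm_pos_iff.2 (hune u hu z0 hz0s)
    have huz : 0 < ‖u z‖ := norm_pos_iff.2 (hune u hu z (hsub' hzb))
    have e1 : 0 ≤ Real.log (‖u z0 j‖ / (M / 4)) := by
      apply Real.log_nonneg
      rw [le_div_iff₀ (by positivity)]
      have := hujl z0 hz0b
      linarith
    have e2 : sv / 8 * Real.log (‖u z0 j‖ / (M / 4)) ≤
        2 * (3 * sv / 8) * Real.log (‖u z j‖ / (M / 4)) := by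
      refine le_trans ?_ hh1
      exact mul_le_mul_of_nonneg_right (by linarith) e1
    have e3 : Real.log (‖u z0 j‖ / (M / 4)) ≤ 6 * Real.log (‖u z j‖ / (M / 4)) := by
      have h1 : 2 * (3 * sv / 8) * Real.log (‖u z j‖ / (M / 4)) =
          sv / 8 * (6 * Real.log (‖u z j‖ / (M / 4))) := by ring
      rw [h1] at e2
      exact le_of_mul_le_mul_left e2 (by positivity)
    have e4 : Real.log ‖u z0‖ + Real.log 2 - Real.log M ≤ Real.log (‖u z0 j‖ / (M / 4)) := by
      rw [← Real.log_mul hu0.ne' (by norm_num), ← Real.log_div (by positivity) hMp.ne']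
      refine Real.log_le_log (by positivity) ?_
      obtain ⟨h1, h2⟩ := hj u hu z0 hz0b
      rw [div_le_div_iff₀ hMp (by positivity)]
      nlinarith
    have e5 : Real.log (‖u z j‖ / (M / 4)) ≤ Real.log ‖u z‖ + Real.log 4 - Real.log M := by
      rw [← Real.log_mul huz.ne' (by norm_num), ← Real.log_div (by positivity) hMp.ne']
      refine Real.log_le_log (div_pos ((by positivity : 0 < M / 4).trans (hujl z hzb))
          (by positivity)) ?_
      have h2 := le3 (u z) j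
      rw [div_le_div_iff₀ (by positivity) hMp]
      nlinarith
    rw [hlog4] at e5
    linarith
  intro z hz
  have hzs : z ∈ ball z0 sv := by
    rw [mem_ball] at hz ⊢
    linarith
  refine ⟨hfin v (Or.inl rfl) z hz, ?_⟩
  have h1 := hfin w2 (Or.inr rfl) z hz
  rwa [hlw2 z0 hz0s, hlw2 z hzs] at h1

end Pair

end Pool.Agent.K9h84.CI
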