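import Pool.Agent.K9h84.CI.Mon

/-!
# Local Harnack estimates for the normalised vectors
-/

set_option autoImplicit false

open Set Filter Topology Metric

namespace Pool.Agent.K9h84.CI

open Pool.Agent.K9h3.TC (zf_harnack zf_deriv)

variable {s : ℕ}

namespace Pair

variable (D : Pair s)

/-- local comparison of the sizes of the normalised vector, and a bound for its derivative -/
theorem hrn {B : ℝ} (hB : 0 ≤ B) : ∃ r0 c : ℝ, 0 < r0 ∧ r0 ≤ 1 ∧ 0 < c ∧
    (∀ x, D.p x = 1 → 4 * c ≤ ‖x‖) ∧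
    ∀ (v : ℂ → VV s) (z0 : ℂ), DifferentiableOn ℂ v (ball z0 r0) →
    (∀ z ∈ ball z0 r0, D.p (v z) = 1) →
    (∀ z ∈ ball z0 r0, ‖cr (v z) (deriv v z)‖ ≤ B * ‖v z‖ ^ 2) →
    (∀ z1, dist z1 z0 ≤ r0 / 4 → Real.log (‖v z1‖ / c) ≤ 5 * Real.log (‖v z0‖ / c) ∧
      Real.log (‖v z0‖ / c) ≤ 5 * Real.log (‖v z1‖ / c)) ∧
    ‖deriv v z0‖ ≤ (2 / r0 * Real.log (‖v z0‖ / c) + 2 * B) * ‖v z0‖ := by
  obtain ⟨c0, hc0, hlow⟩ := D.low_of_p one_ne_zero
  set r0 : ℝ := 1 / (8 * (B + 1)) with hr0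
  set c : ℝ := c0 / 4 with hc
  have hr0p : 0 < r0 := by positivity
  have hcp : 0 < c := by positivity
  have hr01 : r0 ≤ 1 := by
    rw [hr0, div_le_one (by positivity)]
    linarith
  refine ⟨r0, c, hr0p, hr01, hcp, fun x hx => ?_, ?_⟩
  · have := hlow x hx
    rw [hc]
    linarith
  intro v z0 hv hp hsv
  have hvl : ∀ z ∈ ball z0 r0, 4 * c ≤ ‖v z‖ := fun z hz => by
    have := hlow _ (hp z hz)
    rw [hc]
    linarith
  have hne : ∀ z ∈ ball z0 r0, v z ≠ 0 := fun z hz =>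
    norm_pos_iff.1 (lt_of_lt_of_le (by positivity) (hvl z hz))
  obtain ⟨j, hj⟩ := exists_max (v z0)
  have hdom := dom hB (le_refl r0) hv hne hsv hj
  have hz0 : z0 ∈ ball z0 r0 := mem_ball_self hr0p
  have hvj : ∀ z ∈ ball z0 r0, c < ‖v z j‖ := by
    intro z hz
    have h1 := hdom z hz
    have h2 := hvl z hz
    linarith
  have hvjd : DifferentiableOn ℂ (fun z => v z j) (ball z0 r0) := fun z hz =>
    (differentiableWithinAt_pi.1 (hv z hz)) j
  have hlog2 : 0 < Real.log 2 := Real.log_pos (by norm_num)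
  have hlog0 : Real.log 2 ≤ Real.log (‖v z0‖ / c) := by
    refine Real.log_le_log (by norm_num) ?_
    rw [le_div_iff₀ hcp]
    have := hvl z0 hz0
    linarith
  constructor
  · intro z1 hz1
    have hz1b : z1 ∈ ball z0 r0 := by
      rw [mem_ball]
      linarith
    constructor
    · have hsub : ball z1 (r0 / 2) ⊆ ball z0 r0 := ball_subset_ball' (by linarith)
      have hz0b : z0 ∈ ball z1 (r0 / 2) := by
        rw [mem_ball, dist_comm]
        linarith
      have h1 := zf_harnack (u := fun z => v z j) (hvjd.mono hsub) hcp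
        (fun z hz => hvj z (hsub hz)) hz0b
      rw [hj] at h1
      rw [dist_comm] at hz1
      have h2 : 0 ≤ Real.log (‖v z1 j‖ / c) := by
        refine Real.log_nonneg ?_
        rw [le_div_iff₀ hcp, one_mul]
        exact (hvj z1 hz1b).le
      have h3 : r0 / 4 * Real.log (‖v z1 j‖ / c) ≤ r0 * Real.log (‖v z0‖ / c) := by
        calc r0 / 4 * Real.log (‖v z1 j‖ / c) ≤ (r0 / 2 - dist z0 z1) * Real.log (‖v z1 j‖ / c) := by
              refine mul_le_mul_of_nonneg_right ?_ h2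
              linarith
          _ ≤ 2 * (r0 / 2) * Real.log (‖v z0‖ / c) := h1
          _ = _ := by ring
      have h4 : Real.log (‖v z1 j‖ / c) ≤ 4 * Real.log (‖v z0‖ / c) := by
        have h5 : r0 * Real.log (‖v z1 j‖ / c) ≤ r0 * (4 * Real.log (‖v z0‖ / c)) := by linarith
        exact le_of_mul_le_mul_left h5 hr0p
      have h5 : Real.log (‖v z1‖ / c) ≤ Real.log 2 + Real.log (‖v z1 j‖ / c) := by
        rw [← Real.log_mul (by norm_num) (div_pos (hcp.trans (hvj z1 hz1b)) hcp).ne']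
        refine Real.log_le_log (div_pos (norm_pos_iff.2 (hne z1 hz1b)) hcp) ?_
        rw [← mul_div_assoc]
        exact div_le_div_of_nonneg_right (hdom z1 hz1b) hcp.le
      linarith
    · have h1 := zf_harnack (u := fun z => v z j) hvjd hcp hvj hz1b
      rw [hj] at h1
      have h2 : 3 / 4 * r0 * Real.log (‖v z0‖ / c) ≤ 2 * r0 * Real.log (‖v z1 j‖ / c) := by
        refine le_trans ?_ h1
        refine mul_le_mul_of_nonneg_right ?_ (by linarith)
        linarith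
      have h3 : Real.log (‖v z1 j‖ / c) ≤ Real.log (‖v z1‖ / c) :=
        Real.log_le_log (div_pos (hcp.trans (hvj z1 hz1b)) hcp)
          (div_le_div_of_nonneg_right (le3 _ j) hcp.le)
      have h4 : r0 * Real.log (‖v z0‖ / c) ≤ r0 * (8 / 3 * Real.log (‖v z1‖ / c)) := by
        have h5 : 2 * r0 * Real.log (‖v z1 j‖ / c) ≤ 2 * r0 * Real.log (‖v z1‖ / c) :=
          mul_le_mul_of_nonneg_left h3 (by positivity)
        linarith
      have h5 := le_of_mul_le_mul_left h4 hr0p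
      have h6 : 0 ≤ Real.log (‖v z1‖ / c) := by
        refine Real.log_nonneg ?_
        rw [le_div_iff₀ hcp, one_mul]
        exact (hvj z1 hz1b).le.trans (le3 _ j)
      linarith
  · have h1 := zf_deriv (u := fun z => v z j) hvjd hcp hvj hr0p
    rw [deriv_coord (hv.differentiableAt (isOpen_ball.mem_nhds hz0))] at h1
    have hj0 : v z0 j ≠ 0 := norm_pos_iff.1 (hcp.trans (hvj z0 hz0))
    have h2 : ‖deriv v z0 j‖ ≤ (2 / r0 * Real.log (‖v z0‖ / c)) * ‖v z0 j‖ := by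
      refine h1.trans (le_of_eq ?_)
      rw [hj]
      ring
    exact deriv_le_of_coord (hsv z0 hz0) (by rw [hj]; linarith [norm_nonneg (v z0)]) hj0 h2

/-- comparison of the sizes on larger discs -/
theorem chain {B : ℝ} (hB : 0 ≤ B) : ∃ c : ℝ, 0 < c ∧ (∀ x, D.p x = 1 → 4 * c ≤ ‖x‖) ∧
    ∀ R : ℝ, 0 ≤ R → ∃ L : ℝ, 1 ≤ L ∧ ∀ v : ℂ → VV s, DifferentiableOn ℂ v (ball 0 (R + 1)) →
    (∀ z ∈ ball (0 : ℂ) (R + 1), D.p (v z) = 1) →
    (∀ z ∈ ball (0 : ℂ) (R + 1), ‖cr (v z) (deriv v z)‖ ≤ B * ‖v z‖ ^ 2) →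
    ∀ z, ‖z‖ ≤ R → Real.log (‖v z‖ / c) ≤ L * Real.log (‖v 0‖ / c) ∧
      Real.log (‖v 0‖ / c) ≤ L * Real.log (‖v z‖ / c) := by
  obtain ⟨r0, c, hr0, hr01, hc, hlow, hloc⟩ := D.hrn hB
  refine ⟨c, hc, hlow, fun R hR => ?_⟩
  set N : ℕ := ⌈4 * R / r0⌉₊ + 1 with hN
  have hNp : (0 : ℝ) < N := by positivity
  have hNr : R / N ≤ r0 / 4 := by
    rw [div_le_iff₀ hNp]
    have h1 : 4 * R / r0 ≤ N := by
      rw [hN]
      push_cast
      have := Nat.le_ceil (4 * R / r0)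
      linarith
    rw [div_le_iff₀ hr0] at h1
    linarith
  refine ⟨5 ^ N, one_le_pow₀ (by norm_num), fun v hv hp hsv z hz => ?_⟩
  have key : ∀ k : ℕ, k ≤ N →
      Real.log (‖v ((k / N : ℝ) * z)‖ / c) ≤ 5 ^ k * Real.log (‖v 0‖ / c) ∧
      Real.log (‖v 0‖ / c) ≤ 5 ^ k * Real.log (‖v ((k / N : ℝ) * z)‖ / c) := by
    intro k
    induction k with
    | zero =>
      intro _
      simp
    | succ k ih =>
      intro hk
      obtain ⟨h1, h2⟩ := ih (by omega)
      have hkN : (k : ℝ) / N ≤ 1 := by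
        rw [div_le_one hNp]
        exact_mod_cast (by omega : k ≤ N)
      have hzk : ‖((k / N : ℝ) : ℂ) * z‖ ≤ R := by
        rw [norm_mul, Complex.norm_real, Real.norm_of_nonneg (by positivity)]
        calc (k : ℝ) / N * ‖z‖ ≤ 1 * R := mul_le_mul hkN hz (norm_nonneg _) zero_le_one
          _ = R := one_mul R
      have hsub : ball (((k / N : ℝ) : ℂ) * z) r0 ⊆ ball (0 : ℂ) (R + 1) := by
        refine ball_subset_ball' ?_
        rw [dist_zero_right]
        linarith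
      have hd : dist ((((k + 1 : ℕ) : ℝ) / N : ℝ) * z) (((k / N : ℝ) : ℂ) * z) ≤ r0 / 4 := by
        rw [dist_eq_norm]
        have h3 : ((((k + 1 : ℕ) : ℝ) / N : ℝ) : ℂ) * z - ((k / N : ℝ) : ℂ) * z =
            ((1 / N : ℝ) : ℂ) * z := by
          push_cast
          ring
        rw [h3, norm_mul, Complex.norm_real, Real.norm_of_nonneg (by positivity)]
        calc 1 / (N : ℝ) * ‖z‖ ≤ 1 / N * R := by gcongr
          _ = R / N := by ring
          _ ≤ r0 / 4 := hNr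
      obtain ⟨h4, h5⟩ := (hloc v (((k / N : ℝ) : ℂ) * z) (hv.mono hsub)
        (fun w hw => hp w (hsub hw)) (fun w hw => hsv w (hsub hw))).1 _ hd
      rw [pow_succ]
      constructor
      · calc _ ≤ 5 * Real.log (‖v (((k / N : ℝ) : ℂ) * z)‖ / c) := h4
          _ ≤ 5 * (5 ^ k * Real.log (‖v 0‖ / c)) := by gcongr
          _ = _ := by ring
      · calc _ ≤ 5 ^ k * Real.log (‖v (((k / N : ℝ) : ℂ) * z)‖ / c) := h2
          _ ≤ 5 ^ k * (5 * Real.log (‖v ((((k + 1 : ℕ) : ℝ) / N : ℝ) * z)‖ / c)) := by gcongr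
          _ = _ := by ring
  have h1 := key N le_rfl
  rw [div_self hNp.ne', Complex.ofReal_one, one_mul] at h1
  exact h1

/-- curves of bounded speed inside the second curve and off the first one are constant -/
theorem strat_bro (hk : 1 ≤ D.k) {W : ℂ → VV s} (hW : Differentiable ℂ W) {B : ℝ} (hB : 0 ≤ B)
    (hWB : Bro B W) (hp : ∀ z, D.p (W z) = 1) (hq : ∀ z, D.q (W z) = 0) (hon : ∀ z, D.on (W z)) :
    ∀ z, W z = W 0 := by
  obtain ⟨r0, c0, hr0, hr01, hc0, hlow0, hloc⟩ := D.hrn hB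
  have hne : ∀ z, W z ≠ 0 := fun z => D.p_eq_one_ne (hp z)
  obtain ⟨c, hc, hN⟩ := D.N_lower_zero
  have hlow : ∀ z, 4 * c0 ≤ ‖W z‖ := fun z => hlow0 _ (hp z)
  have hN' : ∀ z, c * ‖W z‖ ^ (D.k + 1) ≤ ‖D.N (W z)‖ := fun z =>
    hN (W z) (hne z) (hon z) (by rw [hq, mul_zero])
  have hNne : ∀ z, D.N (W z) ≠ 0 := fun z => D.N_ne (hne z) (hon z) (by rw [hq, mul_zero])
  have hpar : ∀ z, cr (deriv W z) (D.N (W z)) = 0 := fun z =>
    D.par_N (D.orth_p hW hp z) (D.orth_q hW hq z) fun i => D.orth_R hW hon i z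
  have hWd : Differentiable ℂ (deriv W) := fun z => hW.deriv z
  obtain ⟨l, hl, hWl⟩ := exists_ratio isOpen_univ hWd.differentiableOn
    (D.N_dif_comp hW).differentiableOn (fun z _ => hNne z) (fun z _ => hpar z)
  rw [differentiableOn_univ] at hl
  set K : ℝ := 4 / r0 / Real.sqrt c0 + 2 * B / Real.sqrt (4 * c0) with hK
  have hK0 : 0 ≤ K := by positivity
  -- the main estimate
  have hlb : ∀ z, ‖l z‖ * (c * ‖W z‖ ^ D.k) ≤ K * Real.sqrt ‖W z‖ := by
    intro z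
    have hWp : 0 < ‖W z‖ := norm_pos_iff.2 (hne z)
    have h1 := (hloc W z hW.differentiableOn (fun z _ => hp z) (fun z _ => hWB z)).2
    rw [hWl z (mem_univ z), norm_smul] at h1
    have h2 : ‖l z‖ * (c * ‖W z‖ ^ (D.k + 1)) ≤
        (2 / r0 * Real.log (‖W z‖ / c0) + 2 * B) * ‖W z‖ :=
      (mul_le_mul_of_nonneg_left (hN' z) (norm_nonneg _)).trans h1
    rw [pow_succ] at h2
    have h4 : (‖l z‖ * (c * ‖W z‖ ^ D.k)) * ‖W z‖ ≤
        (2 / r0 * Real.log (‖W z‖ / c0) + 2 * B) * ‖W z‖ := by linarith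
    have h5 := le_of_mul_le_mul_right h4 hWp
    refine h5.trans ?_
    have h6 : Real.log (‖W z‖ / c0) ≤ 2 * Real.sqrt (‖W z‖ / c0) := by
      have hx : 0 < ‖W z‖ / c0 := by positivity
      have h7 : Real.log (‖W z‖ / c0) = 2 * Real.log (Real.sqrt (‖W z‖ / c0)) := by
        rw [Real.log_sqrt hx.le]
        ring
      rw [h7]
      have h8 := Real.log_le_sub_one_of_pos (Real.sqrt_pos.2 hx)
      linarith
    have h7 : Real.sqrt (‖W z‖ / c0) = Real.sqrt ‖W z‖ / Real.sqrt c0 :=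
      Real.sqrt_div (norm_nonneg _) c0
    have h8 : 2 * B ≤ 2 * B / Real.sqrt (4 * c0) * Real.sqrt ‖W z‖ := by
      have h9 : Real.sqrt (4 * c0) ≤ Real.sqrt ‖W z‖ := Real.sqrt_le_sqrt (hlow z)
      have h10 : 0 < Real.sqrt (4 * c0) := Real.sqrt_pos.2 (by positivity)
      rw [div_mul_eq_mul_div, le_div_iff₀ h10]
      exact mul_le_mul_of_nonneg_left h9 (by positivity)
    rw [h7] at h6
    have h9 : 2 / r0 * Real.log (‖W z‖ / c0) ≤ 2 / r0 * (2 * (Real.sqrt ‖W z‖ / Real.sqrt c0)) :=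
      mul_le_mul_of_nonneg_left h6 (by positivity)
    have h10 : 2 / r0 * (2 * (Real.sqrt ‖W z‖ / Real.sqrt c0)) =
        4 / r0 / Real.sqrt c0 * Real.sqrt ‖W z‖ := by ring
    rw [hK, add_mul]
    linarith
  have hlb2 : ∀ z, ‖l z‖ * (c * Real.sqrt ‖W z‖ * (4 * c0) ^ (D.k - 1)) ≤ K := by
    intro z
    have hWp : 0 < ‖W z‖ := norm_pos_iff.2 (hne z)
    have hsp : 0 < Real.sqrt ‖W z‖ := Real.sqrt_pos.2 hWp
    have h1 := hlb z
    have h2 : ‖W z‖ ^ D.k = ‖W z‖ ^ (D.k - 1) * (Real.sqrt ‖W z‖ * Real.sqrt ‖W z‖) := by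
      rw [Real.mul_self_sqrt hWp.le, ← pow_succ]
      congr 1
      omega
    rw [h2] at h1
    have h3 : (‖l z‖ * (c * Real.sqrt ‖W z‖ * ‖W z‖ ^ (D.k - 1))) * Real.sqrt ‖W z‖ ≤
        K * Real.sqrt ‖W z‖ := by linarith
    have h4 := le_of_mul_le_mul_right h3 hsp
    refine le_trans ?_ h4
    have h5 : (4 * c0) ^ (D.k - 1) ≤ ‖W z‖ ^ (D.k - 1) :=
      pow_le_pow_left₀ (by positivity) (hlow z) _
    gcongr
  set S : ℝ := Real.sqrt (4 * c0) with hS
  have hSp : 0 < S := Real.sqrt_pos.2 (by positivity)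
  have hlb3 : ∀ z, ‖l z‖ ≤ K / (c * S * (4 * c0) ^ (D.k - 1)) := by
    intro z
    rw [le_div_iff₀ (by positivity)]
    refine le_trans ?_ (hlb2 z)
    have h1 : S ≤ Real.sqrt ‖W z‖ := Real.sqrt_le_sqrt (hlow z)
    gcongr
  have hlc : ∀ z, l z = l 0 := by
    intro z
    refine hl.apply_eq_apply_of_bounded ?_ z 0
    rw [isBounded_iff_forall_norm_le]
    refine ⟨K / (c * S * (4 * c0) ^ (D.k - 1)), ?_⟩
    rintro _ ⟨w, rfl⟩
    exact hlb3 w
  by_cases hl0 : l 0 = 0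
  · intro z
    refine is_const_of_deriv_eq_zero hW (fun w => ?_) z 0
    rw [hWl w (mem_univ w), hlc w, hl0, zero_smul]
  · exfalso
    have hlp : 0 < ‖l 0‖ := norm_pos_iff.2 hl0
    set T : ℝ := K / (‖l 0‖ * (c * (4 * c0) ^ (D.k - 1))) with hT
    have hT0 : 0 ≤ T := by positivity
    have hWb : ∀ z, ‖W z‖ ≤ T ^ 2 := by
      intro z
      have h1 := hlb2 z
      rw [hlc z] at h1
      have h2 : Real.sqrt ‖W z‖ ≤ T := by
        rw [hT, le_div_iff₀ (by positivity)]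
        calc Real.sqrt ‖W z‖ * (‖l 0‖ * (c * (4 * c0) ^ (D.k - 1))) =
            ‖l 0‖ * (c * Real.sqrt ‖W z‖ * (4 * c0) ^ (D.k - 1)) := by ring
          _ ≤ K := h1
      calc ‖W z‖ = Real.sqrt ‖W z‖ ^ 2 := (Real.sq_sqrt (norm_nonneg _)).symm
        _ ≤ T ^ 2 := pow_le_pow_left₀ (Real.sqrt_nonneg _) h2 2
    have hWc : ∀ z, W z = W 0 := by
      intro z
      refine hW.apply_eq_apply_of_bounded ?_ z 0
      rw [isBounded_iff_forall_norm_le]
      refine ⟨T ^ 2, ?_⟩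
      rintro _ ⟨w, rfl⟩
      exact hWb w
    have h5 : deriv W 0 = 0 := by
      have : W = fun _ => W 0 := funext hWc
      rw [this]
      exact deriv_const _ _
    rw [hWl 0 (mem_univ 0)] at h5
    rcases smul_eq_zero.1 h5 with h6 | h6
    · exact hl0 h6
    · exact hNne 0 h6

end Pair

end Pool.Agent.K9h84.CI
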