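import Pool.Agent.K9h84.CI.Cusp
import Pool.Agent.K9h3.TC.Har

/-!
# The logarithmic derivative bound

For a curve of bounded speed omitting both curves, normalised so that one of the forms equals one,
the derivative is bounded by a constant times the length of the vector, at every point for one of
the two normalisations.
-/

set_option autoImplicit false

open Set Filter Topology Metric

namespace Pool.Agent.K9h84.CI

open Pool.Agent.K9h3.TC (zf_harnack zf_deriv)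

variable {s : ℕ}

/-- bounded speed of the curve represented by `v` -/
def Bro (B : ℝ) (v : ℂ → VV s) : Prop := ∀ z, ‖cr (v z) (deriv v z)‖ ≤ B * ‖v z‖ ^ 2

theorem Bro.nonneg {B : ℝ} {v : ℂ → VV s} (h : Bro B v) (hv : v 0 ≠ 0) : 0 ≤ B := by
  have h1 := (norm_nonneg _).trans (h 0)
  have h2 : 0 < ‖v 0‖ ^ 2 := by
    have := norm_pos_iff.2 hv
    positivity
  exact nonneg_of_mul_nonneg_left h1 h2

theorem deriv_coord {v : ℂ → VV s} {z : ℂ} (hv : DifferentiableAt ℂ v z) (j : Fin (s + 3)) :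
    deriv (fun w => v w j) z = deriv v z j := by
  have h := hv.hasDerivAt
  rw [hasDerivAt_pi] at h
  exact (h j).deriv

/-- the part of the derivative transversal to the vector -/
theorem trans_part {v : ℂ → VV s} {z : ℂ} {B : ℝ} (h : ‖cr (v z) (deriv v z)‖ ≤ B * ‖v z‖ ^ 2)
    {j : Fin (s + 3)} (hj : ‖v z‖ ≤ 2 * ‖v z j‖) (hj0 : v z j ≠ 0) :
    ‖deriv v z - (deriv v z j / v z j) • v z‖ ≤ 2 * B * ‖v z‖ := by
  have hp : 0 < ‖v z j‖ := norm_pos_iff.2 hj0
  have hB : 0 ≤ B * ‖v z‖ ^ 2 := (norm_nonneg _).trans h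
  have hvp : 0 < ‖v z‖ := hp.trans_le (le3 _ j)
  have hB0 : 0 ≤ B := nonneg_of_mul_nonneg_left hB (by positivity)
  rw [pi_norm_le_iff_of_nonneg (by positivity)]
  intro k
  have h1 : (deriv v z - (deriv v z j / v z j) • v z) k =
      (v z j * deriv v z k - v z k * deriv v z j) / v z j := by
    rw [Pi.sub_apply, Pi.smul_apply, smul_eq_mul]
    field_simp
  rw [h1, norm_div, div_le_iff₀ hp]
  have h2 := (cross_comp (v z) (deriv v z) j k).trans h
  have h3 : B * ‖v z‖ ^ 2 ≤ 2 * B * ‖v z‖ * ‖v z j‖ := by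
    have := mul_le_mul_of_nonneg_left hj (mul_nonneg hB0 hvp.le)
    nlinarith
  exact h2.trans h3

/-- bound for the derivative from a bound for the logarithmic derivative of a large coordinate -/
theorem deriv_le_of_coord {v : ℂ → VV s} {z : ℂ} {B K : ℝ}
    (h : ‖cr (v z) (deriv v z)‖ ≤ B * ‖v z‖ ^ 2)
    {j : Fin (s + 3)} (hj : ‖v z‖ ≤ 2 * ‖v z j‖) (hj0 : v z j ≠ 0)
    (hK : ‖deriv v z j‖ ≤ K * ‖v z j‖) : ‖deriv v z‖ ≤ (K + 2 * B) * ‖v z‖ := by
  have hp : 0 < ‖v z j‖ := norm_pos_iff.2 hj0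
  have h1 := trans_part h hj hj0
  have h2 : ‖(deriv v z j / v z j) • v z‖ ≤ K * ‖v z‖ := by
    rw [norm_smul, norm_div]
    have : ‖deriv v z j‖ / ‖v z j‖ ≤ K := by
      rw [div_le_iff₀ hp]
      exact hK
    exact mul_le_mul_of_nonneg_right this (norm_nonneg _)
  have h3 := norm_add_le (deriv v z - (deriv v z j / v z j) • v z) ((deriv v z j / v z j) • v z)
  rw [sub_add_cancel] at h3
  linarith

theorem Bro.smul {B : ℝ} {v : ℂ → VV s} (h : Bro B v) (hv : Differentiable ℂ v) {e : ℂ → ℂ}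
    (he : Differentiable ℂ e) : Bro B (fun z => e z • v z) := by
  intro z
  have h1 : deriv (fun z => e z • v z) z = e z • deriv v z + deriv e z • v z :=
    ((he z).hasDerivAt.smul (hv z).hasDerivAt).deriv
  rw [h1]
  have h2 : cr (e z • v z) (e z • deriv v z + deriv e z • v z) = (e z * e z) • cr (v z) (deriv v z) := by
    funext i j
    simp only [cr_apply, Pi.smul_apply, Pi.add_apply, smul_eq_mul]
    ring
  rw [h2, norm_smul, norm_mul]
  show ‖e z‖ * ‖e z‖ * ‖cr (v z) (deriv v z)‖ ≤ B * ‖e z • v z‖ ^ 2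
  rw [norm_smul]
  have := mul_le_mul_of_nonneg_left (h z) (mul_nonneg (norm_nonneg (e z)) (norm_nonneg (e z)))
  nlinarith

namespace Pair

variable (D : Pair s)

theorem p_eq_one_ne {x : VV s} (h : D.p x = 1) : x ≠ 0 := by
  intro hx
  have h1 := D.p_smul 0 x
  rw [zero_smul, hx, zero_pow (by have := D.ha; omega), zero_mul] at h1
  rw [hx, h1] at h
  exact zero_ne_one h

/-- derivative bound where the normalised vector is bounded -/
theorem nc {B M : ℝ} (hB : 0 ≤ B) (hM : 0 ≤ M) : ∃ C : ℝ, 0 < C ∧ ∀ v : ℂ → VV s,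
    Differentiable ℂ v → (∀ z, D.p (v z) = 1) → Bro B v → ∀ z, ‖v z‖ ≤ M →
    ‖deriv v z‖ ≤ C * ‖v z‖ := by
  obtain ⟨Cg, hCg, hg⟩ := D.grP_le
  have hnv := nv_pos s
  refine ⟨nv s * Cg * (2 * B) * M ^ D.a + 2 * B + 1, by positivity, fun v hv hv1 hBv z hz => ?_⟩
  have hne : v z ≠ 0 := D.p_eq_one_ne (hv1 z)
  obtain ⟨j, hj⟩ := exists_max (v z)
  have hn : 0 < ‖v z‖ := norm_pos_iff.2 hne
  have hj2 : ‖v z‖ ≤ 2 * ‖v z j‖ := by rw [hj]; linarith
  have hj0 : v z j ≠ 0 := by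
    rw [← norm_pos_iff, hj]
    exact hn
  have h1 := trans_part (hBv z) hj2 hj0
  set w : VV s := deriv v z - (deriv v z j / v z j) • v z with hw
  have hd : HasDerivAt (fun t => MvPolynomial.eval (v t) D.P) (dt (gr D.P (v z)) (deriv v z)) z :=
    D.hA.hasDerivAt (hv z).hasDerivAt
  have hc : (fun t => MvPolynomial.eval (v t) D.P) = fun _ => (1 : ℂ) := by
    funext t
    exact hv1 t
  rw [hc] at hd
  have h0 : dt (gr D.P (v z)) (deriv v z) = 0 := hd.unique (hasDerivAt_const _ _)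
  have h2 : deriv v z = (deriv v z j / v z j) • v z + w := by rw [hw]; abel
  have h3 : dt (gr D.P (v z)) (v z) = D.a := by
    rw [dt_comm, euler D.hP]
    have : MvPolynomial.eval (v z) D.P = 1 := hv1 z
    rw [this, mul_one]
  have h4 : (deriv v z j / v z j) * D.a = - dt (gr D.P (v z)) w := by
    have h5 : dt (gr D.P (v z)) (deriv v z) =
        (deriv v z j / v z j) * dt (gr D.P (v z)) (v z) + dt (gr D.P (v z)) w := by
      conv_lhs => rw [h2]
      rw [dt_add, dt_smul]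
    rw [h0, h3] at h5
    linear_combination - h5
  have ha1 : (1 : ℝ) ≤ D.a := by exact_mod_cast D.ha
  have h5 : ‖deriv v z j / v z j‖ ≤ nv s * Cg * (2 * B) * M ^ D.a := by
    have h6 : ‖deriv v z j / v z j‖ * D.a ≤ nv s * ‖gr D.P (v z)‖ * ‖w‖ := by
      have h7 := congrArg norm h4
      rw [norm_mul, norm_neg, Complex.norm_natCast] at h7
      rw [h7]
      exact norm_dt_le _ _
    have h8 : ‖gr D.P (v z)‖ * ‖w‖ ≤ (2 * B) * (Cg * M ^ D.a) := by
      calc ‖gr D.P (v z)‖ * ‖w‖ ≤ ‖gr D.P (v z)‖ * (2 * B * ‖v z‖) :=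
            mul_le_mul_of_nonneg_left h1 (norm_nonneg _)
        _ = (2 * B) * (‖v z‖ * ‖gr D.P (v z)‖) := by ring
        _ ≤ (2 * B) * (Cg * ‖v z‖ ^ D.a) := mul_le_mul_of_nonneg_left (hg _) (by positivity)
        _ ≤ (2 * B) * (Cg * M ^ D.a) := by gcongr
    have h9 : ‖deriv v z j / v z j‖ ≤ ‖deriv v z j / v z j‖ * D.a :=
      le_mul_of_one_le_right (norm_nonneg _) ha1
    nlinarith
  calc ‖deriv v z‖ = ‖(deriv v z j / v z j) • v z + w‖ := by rw [← h2]
    _ ≤ ‖(deriv v z j / v z j) • v z‖ + ‖w‖ := norm_add_le _ _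
    _ ≤ nv s * Cg * (2 * B) * M ^ D.a * ‖v z‖ + 2 * B * ‖v z‖ := by
        rw [norm_smul]
        exact add_le_add (mul_le_mul_of_nonneg_right h5 (norm_nonneg _)) h1
    _ ≤ (nv s * Cg * (2 * B) * M ^ D.a + 2 * B + 1) * ‖v z‖ := by nlinarith

/-- the normalised vector at most doubles on a disc of fixed radius -/
theorem grow {B M : ℝ} (hB : 0 ≤ B) (hM : 0 < M) : ∃ t0 : ℝ, 0 < t0 ∧ ∀ v : ℂ → VV s,
    Differentiable ℂ v → (∀ z, D.p (v z) = 1) → Bro B v → ∀ zs z, ‖v zs‖ ≤ M → dist z zs ≤ t0 →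
    ‖v z‖ ≤ 2 * M := by
  obtain ⟨C, hC, hnc⟩ := D.nc hB (show 0 ≤ 2 * M by positivity)
  refine ⟨1 / (4 * C), by positivity, fun v hv hv1 hBv zs z hzs hz => ?_⟩
  have key := image_norm_le_of_norm_deriv_right_lt_deriv_boundary' (a := 0) (b := 1)
    (f := fun s : ℝ => v (zs + s * (z - zs))) (f' := fun s : ℝ => (z - zs) • deriv v (zs + s * (z - zs)))
    (B := fun s => M + M * s) (B' := fun _ => M) ?_ ?_ ?_ ?_ ?_ ?_
  · have := key (show (1 : ℝ) ∈ Icc 0 1 from ⟨zero_le_one, le_refl _⟩)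
    simp only [Complex.ofReal_one, one_mul, add_sub_cancel, mul_one] at this
    linarith
  · apply Continuous.continuousOn
    exact hv.continuous.comp (by fun_prop)
  · intro s _
    have h1 : HasDerivAt (fun s : ℝ => zs + (s : ℂ) * (z - zs)) (z - zs) s := by
      have h2 : HasDerivAt (fun s : ℝ => (s : ℂ)) 1 s := Complex.ofRealCLM.hasDerivAt
      have h3 := (h2.mul_const (z - zs)).const_add zs
      rwa [one_mul] at h3
    exact ((hv _).hasDerivAt.scomp s h1).hasDerivWithinAt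
  · simp only [Complex.ofReal_zero, zero_mul, add_zero, mul_zero]
    exact hzs
  · fun_prop
  · intro s _
    have h1 : HasDerivAt (fun s : ℝ => M + M * s) M s := by
      have := ((hasDerivAt_id s).const_mul M).const_add M
      simpa using this
    exact h1.hasDerivWithinAt
  · intro s hs heq
    have h1 : ‖v (zs + s * (z - zs))‖ ≤ 2 * M := by
      rw [heq]
      nlinarith [hs.2]
    have h2 := hnc v hv hv1 hBv _ h1
    rw [norm_smul, ← dist_eq_norm]
    have h3 : ‖deriv v (zs + s * (z - zs))‖ ≤ C * (2 * M) :=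
      h2.trans (mul_le_mul_of_nonneg_left h1 hC.le)
    calc dist z zs * ‖deriv v (zs + s * (z - zs))‖ ≤ (1 / (4 * C)) * (C * (2 * M)) := by gcongr
      _ = M / 2 := by field_simp; ring
      _ < M := by linarith

/-- bound at the centre of a disc in the cusp region, from an exit point -/
theorem exit_bound {B M : ℝ} (hB : 0 ≤ B) (hM : 0 < M) : ∃ C : ℝ, 0 < C ∧
    ∀ (v1 v2 : ℂ → VV s) (e : ℂ → ℂ), Differentiable ℂ v1 → Differentiable ℂ v2 →
    (∀ z, D.p (v1 z) = 1) → (∀ z, D.q (v2 z) = 1) → Bro B v1 → Bro B v2 →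
    (∀ z, v2 z = e z • v1 z) → (∀ z, e z ≠ 0) → ∀ (z0 zs : ℂ) (ρ : ℝ) (j : Fin (s + 3)),
    dist z0 zs = ρ → 0 < ρ → ‖v1 zs‖ ≤ M →
    (∀ z ∈ ball z0 ρ, M < ‖v1 z‖ ∧ M < ‖v2 z‖ ∧ ‖v1 z‖ ≤ 2 * ‖v1 z j‖) →
    ‖deriv v1 z0‖ ≤ C * ‖v1 z0‖ ∧ (‖e z0‖ = 1 → ‖deriv v2 z0‖ ≤ C * ‖v2 z0‖) := by
  obtain ⟨C1, hC1, hnc1⟩ := D.nc hB (show 0 ≤ 2 * M by positivity)
  obtain ⟨C2, hC2, hnc2⟩ := D.swap.nc hB (show 0 ≤ 2 * M by positivity)
  obtain ⟨t0, ht0, hgrow⟩ := D.grow hB hM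
  set K : ℝ := 8 * Real.log 4 / t0 with hK
  have hlog4 : 0 < Real.log 4 := Real.log_pos (by norm_num)
  have hK0 : 0 < K := by positivity
  refine ⟨C1 + C2 + K + 2 * B, by positivity, ?_⟩
  intro v1 v2 e hv1 hv2 hp hq hB1 hB2 he he0 z0 zs ρ j hd hρ hzs hball
  have hz0 : z0 ∈ ball z0 ρ := mem_ball_self hρ
  have hn2 : ∀ z, ‖v2 z‖ = ‖e z‖ * ‖v1 z‖ := fun z => by rw [he, norm_smul]
  have big1 : ∀ (x y : ℝ), 0 ≤ y → x ≤ C1 * y → x ≤ (C1 + C2 + K + 2 * B) * y := fun x y hy h => by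
    nlinarith [mul_nonneg hC2.le hy, mul_nonneg hK0.le hy, mul_nonneg hB hy]
  have big2 : ∀ (x y : ℝ), 0 ≤ y → x ≤ C2 * y → x ≤ (C1 + C2 + K + 2 * B) * y := fun x y hy h => by
    nlinarith [mul_nonneg hC1.le hy, mul_nonneg hK0.le hy, mul_nonneg hB hy]
  have big3 : ∀ (x y : ℝ), 0 ≤ y → x ≤ (K + 2 * B) * y → x ≤ (C1 + C2 + K + 2 * B) * y :=
    fun x y hy h => by
    nlinarith [mul_nonneg hC1.le hy, mul_nonneg hC2.le hy]
  by_cases hcase : ρ ≤ t0
  · have h1 : ‖v1 z0‖ ≤ 2 * M := hgrow v1 hv1 hp hB1 zs z0 hzs (by rw [hd]; exact hcase)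
    refine ⟨big1 _ _ (norm_nonneg _) (hnc1 v1 hv1 hp hB1 z0 h1), fun he1 => ?_⟩
    have h2 : ‖v2 z0‖ ≤ 2 * M := by rw [hn2, he1, one_mul]; exact h1
    exact big2 _ _ (norm_nonneg _) (hnc2 v2 hv2 hq hB2 z0 h2)
  · push Not at hcase
    set z1 : ℂ := zs + ((t0 / (2 * ρ) : ℝ) : ℂ) * (z0 - zs) with hz1
    have hdz : ‖z0 - zs‖ = ρ := by rw [← dist_eq_norm]; exact hd
    have h1 : dist z1 zs = t0 / 2 := by
      rw [dist_eq_norm, hz1, add_sub_cancel_left, norm_mul, Complex.norm_real,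
        Real.norm_of_nonneg (by positivity), hdz]
      field_simp
    have h2 : dist z1 z0 = ρ - t0 / 2 := by
      have : z1 - z0 = ((t0 / (2 * ρ) - 1 : ℝ) : ℂ) * (z0 - zs) := by
        rw [hz1]
        push_cast
        ring
      have hneg : t0 / (2 * ρ) - 1 ≤ 0 := by
        rw [sub_nonpos, div_le_one (by positivity)]
        linarith
      rw [dist_eq_norm, this, norm_mul, Complex.norm_real, Real.norm_of_nonpos hneg, hdz]
      field_simp
      ring
    have hz1b : z1 ∈ ball z0 ρ := by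
      rw [mem_ball, h2]
      linarith
    have h3 : ‖v1 z1‖ ≤ 2 * M := hgrow v1 hv1 hp hB1 zs z1 hzs (by rw [h1]; linarith)
    have hc : (0 : ℝ) < M / 2 := by positivity
    have hu1 : Differentiable ℂ (fun z => v1 z j) := fun z => (differentiableAt_pi.1 (hv1 z)) j
    have hu2 : Differentiable ℂ (fun z => v2 z j) := fun z => (differentiableAt_pi.1 (hv2 z)) j
    have hlow1 : ∀ z ∈ ball z0 ρ, M / 2 < ‖v1 z j‖ := fun z hz => by
      have := hball z hz
      linarith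
    have hj2 : ∀ z ∈ ball z0 ρ, ‖v2 z‖ ≤ 2 * ‖v2 z j‖ := fun z hz => by
      have h5 : v2 z j = e z * v1 z j := by rw [he]; rfl
      rw [h5, norm_mul, hn2]
      have := (hball z hz).2.2
      nlinarith [mul_le_mul_of_nonneg_left this (norm_nonneg (e z))]
    have hlow2 : ∀ z ∈ ball z0 ρ, M / 2 < ‖v2 z j‖ := fun z hz => by
      have := hball z hz
      have := hj2 z hz
      linarith
    have hH := zf_harnack (u := fun z => v1 z j) hu1.differentiableOn hc hlow1 hz1b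
    have h4 : ‖v1 z1 j‖ ≤ 2 * M := (le3 _ j).trans h3
    have h5 : Real.log (‖v1 z1 j‖ / (M / 2)) ≤ Real.log 4 := by
      apply Real.log_le_log
      · have := hlow1 z1 hz1b
        exact div_pos (by linarith) hc
      · rw [div_le_iff₀ hc]
        linarith
    have h6 : Real.log (‖v1 z0 j‖ / (M / 2)) ≤ 4 * ρ / t0 * Real.log 4 := by
      rw [h2] at hH
      have h7 : t0 / 2 * Real.log (‖v1 z0 j‖ / (M / 2)) ≤ 2 * ρ * Real.log 4 := by
        calc t0 / 2 * Real.log (‖v1 z0 j‖ / (M / 2)) =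
            (ρ - (ρ - t0 / 2)) * Real.log (‖v1 z0 j‖ / (M / 2)) := by ring
          _ ≤ 2 * ρ * Real.log (‖v1 z1 j‖ / (M / 2)) := hH
          _ ≤ 2 * ρ * Real.log 4 := by gcongr
      have h8 : Real.log (‖v1 z0 j‖ / (M / 2)) ≤ (2 * ρ * Real.log 4) / (t0 / 2) := by
        rw [le_div_iff₀ (by positivity), mul_comm]
        exact h7
      calc Real.log (‖v1 z0 j‖ / (M / 2)) ≤ (2 * ρ * Real.log 4) / (t0 / 2) := h8
        _ = 4 * ρ / t0 * Real.log 4 := by field_simp; ring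
    have hKρ : ∀ L : ℝ, L ≤ 4 * ρ / t0 * Real.log 4 → 2 * L / ρ ≤ K := by
      intro L hL
      rw [div_le_iff₀ hρ]
      calc 2 * L ≤ 2 * (4 * ρ / t0 * Real.log 4) := by linarith
        _ = K * ρ := by rw [hK]; field_simp; ring
    have hne1 : v1 z0 j ≠ 0 := by
      intro h
      have := hlow1 z0 hz0
      rw [h, norm_zero] at this
      linarith
    have hne2 : v2 z0 j ≠ 0 := by
      intro h
      have := hlow2 z0 hz0
      rw [h, norm_zero] at this
      linarith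
    constructor
    · have h7 := zf_deriv (u := fun z => v1 z j) hu1.differentiableOn hc hlow1 hρ
      rw [deriv_coord (hv1 z0)] at h7
      have h8 : ‖deriv v1 z0 j‖ ≤ K * ‖v1 z0 j‖ :=
        h7.trans (mul_le_mul_of_nonneg_right (hKρ _ h6) (norm_nonneg _))
      exact big3 _ _ (norm_nonneg _) (deriv_le_of_coord (hB1 z0) (hball z0 hz0).2.2 hne1 h8)
    · intro he1
      have h7 := zf_deriv (u := fun z => v2 z j) hu2.differentiableOn hc hlow2 hρ
      rw [deriv_coord (hv2 z0)] at h7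
      have h9 : ‖v2 z0 j‖ = ‖v1 z0 j‖ := by
        have h5 : v2 z0 j = e z0 * v1 z0 j := by rw [he]; rfl
        rw [h5, norm_mul, he1, one_mul]
      have h6' : Real.log (‖v2 z0 j‖ / (M / 2)) ≤ 4 * ρ / t0 * Real.log 4 := by
        rw [h9]; exact h6
      have h8 : ‖deriv v2 z0 j‖ ≤ K * ‖v2 z0 j‖ :=
        h7.trans (mul_le_mul_of_nonneg_right (hKρ _ h6') (norm_nonneg _))
      exact big3 _ _ (norm_nonneg _) (deriv_le_of_coord (hB2 z0) (hj2 z0 hz0) hne2 h8)

/-- a zero-free entire function bounded below is constant -/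
theorem const_of_low {u : ℂ → ℂ} (hu : Differentiable ℂ u) {c : ℝ} (hc : 0 < c)
    (h : ∀ z, c < ‖u z‖) (z : ℂ) : deriv u z = 0 := by
  have h0 : ∀ z, u z ≠ 0 := fun z hz => by
    have := h z
    rw [hz, norm_zero] at this
    linarith
  have hd : Differentiable ℂ (fun z => (u z)⁻¹) := fun z => (hu z).inv (h0 z)
  have hb : Bornology.IsBounded (range (fun z => (u z)⁻¹)) := by
    rw [isBounded_iff_forall_norm_le]
    refine ⟨c⁻¹, ?_⟩
    rintro _ ⟨z, rfl⟩
    rw [norm_inv]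
    exact inv_anti₀ hc (h z).le
  have hcst : ∀ w, u w = u 0 := by
    intro w
    have := hd.apply_eq_apply_of_bounded hb w 0
    exact inv_injective this
  have : u = fun _ => u 0 := funext hcst
  rw [this]
  exact deriv_const _ _

/-- **logarithmic derivative bound**: at every point for one of the two normalisations, and for
both where they have the same length -/
theorem LL {B : ℝ} (hB : 0 ≤ B) : ∃ C : ℝ, 0 < C ∧
    ∀ (v1 v2 : ℂ → VV s) (e : ℂ → ℂ), (∀ z, D.on (v1 z)) → Differentiable ℂ v1 →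
    Differentiable ℂ v2 → (∀ z, D.p (v1 z) = 1) → (∀ z, D.q (v2 z) = 1) → Bro B v1 → Bro B v2 →
    (∀ z, v2 z = e z • v1 z) → (∀ z, e z ≠ 0) → ∀ z0 : ℂ,
    (‖deriv v1 z0‖ ≤ C * ‖v1 z0‖ ∨ ‖deriv v2 z0‖ ≤ C * ‖v2 z0‖) ∧
    (‖e z0‖ = 1 → ‖deriv v1 z0‖ ≤ C * ‖v1 z0‖ ∧ ‖deriv v2 z0‖ ≤ C * ‖v2 z0‖) := by
  obtain ⟨ε, hε, hcusp⟩ := D.cusp
  set M : ℝ := max 1 (1 / ε) with hMdef
  have hM1 : 1 ≤ M := le_max_left _ _
  have hMε : 1 ≤ ε * M := by
    have : 1 / ε ≤ M := le_max_right _ _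
    rw [div_le_iff₀ hε] at this
    linarith
  have hM : 0 < M := by linarith
  obtain ⟨C1, hC1, hnc1⟩ := D.nc hB hM.le
  obtain ⟨C2, hC2, hnc2⟩ := D.swap.nc hB hM.le
  obtain ⟨C3, hC3, hex1⟩ := D.exit_bound hB hM
  obtain ⟨C4, hC4, hex2⟩ := D.swap.exit_bound hB hM
  refine ⟨C1 + C2 + C3 + C4 + 2 * B, by positivity, ?_⟩
  intro v1 v2 e hon hv1 hv2 hp hq hB1 hB2 he he0 z0
  have hn2 : ∀ z, ‖v2 z‖ = ‖e z‖ * ‖v1 z‖ := fun z => by rw [he, norm_smul]
  have bg : ∀ (c x y : ℝ), c ≤ C1 + C2 + C3 + C4 + 2 * B → 0 ≤ y → x ≤ c * y →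
      x ≤ (C1 + C2 + C3 + C4 + 2 * B) * y := fun c x y hc hy h =>
    h.trans (mul_le_mul_of_nonneg_right hc hy)
  have i1 : C1 ≤ C1 + C2 + C3 + C4 + 2 * B := by linarith
  have i2 : C2 ≤ C1 + C2 + C3 + C4 + 2 * B := by linarith
  have i3 : C3 ≤ C1 + C2 + C3 + C4 + 2 * B := by linarith
  have i4 : C4 ≤ C1 + C2 + C3 + C4 + 2 * B := by linarith
  have i5 : 2 * B ≤ C1 + C2 + C3 + C4 + 2 * B := by linarith
  -- the cusp lemma in terms of the normalised vectors
  have hcu : ∀ S : Set ℂ, IsPreconnected S → (∀ z ∈ S, M < ‖v1 z‖ ∧ M < ‖v2 z‖) →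
      ∃ j : Fin (s + 3), ∀ z ∈ S, ‖v1 z‖ ≤ 2 * ‖v1 z j‖ := by
    intro S hS hSM
    refine hcusp S v1 hS hv1.continuous.continuousOn fun z hz => ?_
    obtain ⟨h1, h2⟩ := hSM z hz
    refine ⟨D.p_eq_one_ne (hp z), ?_, ?_, hon z⟩
    · rw [hp z, norm_one]
      have : M ≤ ‖v1 z‖ ^ D.a := h1.le.trans (le_self_pow₀ (by linarith) (by have := D.ha; omega))
      calc (1 : ℝ) ≤ ε * M := hMε
        _ ≤ ε * ‖v1 z‖ ^ D.a := by gcongr
    · have h3 : D.q (v2 z) = e z ^ D.b * D.q (v1 z) := by rw [he, D.q_smul]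
      rw [hq z] at h3
      have h4 := congrArg norm h3
      rw [norm_one, norm_mul, norm_pow] at h4
      have h5 : M ≤ ‖v2 z‖ ^ D.b := h2.le.trans (le_self_pow₀ (by linarith) (by have := D.hb; omega))
      rw [hn2, mul_pow] at h5
      have hep : 0 < ‖e z‖ ^ D.b := by
        have := norm_pos_iff.2 (he0 z)
        positivity
      have h6 : ‖e z‖ ^ D.b * ‖D.q (v1 z)‖ ≤ ‖e z‖ ^ D.b * (ε * ‖v1 z‖ ^ D.b) := by
        rw [← h4]
        calc (1 : ℝ) ≤ ε * M := hMε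
          _ ≤ ε * (‖e z‖ ^ D.b * ‖v1 z‖ ^ D.b) := by gcongr
          _ = _ := by ring
      exact le_of_mul_le_mul_left h6 hep
  have hj2 : ∀ (z : ℂ) (j : Fin (s + 3)), ‖v1 z‖ ≤ 2 * ‖v1 z j‖ → ‖v2 z‖ ≤ 2 * ‖v2 z j‖ := by
    intro z j h
    have h5 : v2 z j = e z * v1 z j := by rw [he]; rfl
    rw [h5, norm_mul, hn2]
    nlinarith [mul_le_mul_of_nonneg_left h (norm_nonneg (e z))]
  set S : Set ℂ := {z | ‖v1 z‖ ≤ M ∨ ‖v2 z‖ ≤ M} with hSdef
  have hSc : IsClosed S :=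
    (isClosed_le hv1.continuous.norm continuous_const).union
      (isClosed_le hv2.continuous.norm continuous_const)
  have hnS : ∀ z, z ∉ S → M < ‖v1 z‖ ∧ M < ‖v2 z‖ := by
    intro z hz
    rw [hSdef, mem_ofPred_eq] at hz
    push Not at hz
    exact hz
  by_cases hz0 : z0 ∈ S
  · rcases hz0 with h | h
    · refine ⟨Or.inl (bg _ _ _ i1 (norm_nonneg _) (hnc1 v1 hv1 hp hB1 z0 h)), fun he1 => ?_⟩
      refine ⟨bg _ _ _ i1 (norm_nonneg _) (hnc1 v1 hv1 hp hB1 z0 h), ?_⟩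
      refine bg _ _ _ i2 (norm_nonneg _) (hnc2 v2 hv2 hq hB2 z0 ?_)
      rw [hn2, he1, one_mul]
      exact h
    · refine ⟨Or.inr (bg _ _ _ i2 (norm_nonneg _) (hnc2 v2 hv2 hq hB2 z0 h)), fun he1 => ?_⟩
      refine ⟨?_, bg _ _ _ i2 (norm_nonneg _) (hnc2 v2 hv2 hq hB2 z0 h)⟩
      refine bg _ _ _ i1 (norm_nonneg _) (hnc1 v1 hv1 hp hB1 z0 ?_)
      rw [hn2, he1, one_mul] at h
      exact h
  · by_cases hSe : S.Nonempty
    · obtain ⟨zs, hzs, hdist⟩ := hSc.exists_infDist_eq_dist hSe z0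
      have hρ : 0 < dist z0 zs := by
        rw [dist_pos]
        intro h
        rw [h] at hz0
        exact hz0 hzs
      have hout : ∀ z ∈ ball z0 (dist z0 zs), z ∉ S := by
        intro z hz hzS
        have h1 := infDist_le_dist_of_mem (x := z0) hzS
        rw [hdist] at h1
        rw [mem_ball, dist_comm] at hz
        linarith
      obtain ⟨j, hj⟩ := hcu (ball z0 (dist z0 zs)) (convex_ball _ _).isPreconnected
        (fun z hz => hnS z (hout z hz))
      rcases hzs with h | h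
      · obtain ⟨r1, r2⟩ := hex1 v1 v2 e hv1 hv2 hp hq hB1 hB2 he he0 z0 zs _ j rfl hρ h
          (fun z hz => ⟨(hnS z (hout z hz)).1, (hnS z (hout z hz)).2, hj z hz⟩)
        exact ⟨Or.inl (bg _ _ _ i3 (norm_nonneg _) r1), fun he1 =>
          ⟨bg _ _ _ i3 (norm_nonneg _) r1, bg _ _ _ i3 (norm_nonneg _) (r2 he1)⟩⟩
      · obtain ⟨r1, r2⟩ := hex2 v2 v1 (fun z => (e z)⁻¹) hv2 hv1 hq hp hB2 hB1
          (fun z => by rw [he, smul_smul, inv_mul_cancel₀ (he0 z), one_smul])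
          (fun z => inv_ne_zero (he0 z)) z0 zs _ j rfl hρ h
          (fun z hz => ⟨(hnS z (hout z hz)).2, (hnS z (hout z hz)).1, hj2 z j (hj z hz)⟩)
        exact ⟨Or.inr (bg _ _ _ i4 (norm_nonneg _) r1), fun he1 =>
          ⟨bg _ _ _ i4 (norm_nonneg _) (r2 (by rw [norm_inv, he1, inv_one])),
            bg _ _ _ i4 (norm_nonneg _) r1⟩⟩
    · have hall : ∀ z, z ∉ S := fun z hz => hSe ⟨z, hz⟩
      obtain ⟨j, hj⟩ := hcu univ isPreconnected_univ (fun z _ => hnS z (hall z))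
      have hu1 : Differentiable ℂ (fun z => v1 z j) := fun z => (differentiableAt_pi.1 (hv1 z)) j
      have hu2 : Differentiable ℂ (fun z => v2 z j) := fun z => (differentiableAt_pi.1 (hv2 z)) j
      have hlow1 : ∀ z, M / 2 < ‖v1 z j‖ := fun z => by
        have := hj z (mem_univ z)
        have := (hnS z (hall z)).1
        linarith
      have hlow2 : ∀ z, M / 2 < ‖v2 z j‖ := fun z => by
        have := hj2 z j (hj z (mem_univ z))
        have := (hnS z (hall z)).2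
        linarith
      have d1 := const_of_low hu1 (by positivity) hlow1 z0
      have d2 := const_of_low hu2 (by positivity) hlow2 z0
      rw [deriv_coord (hv1 z0)] at d1
      rw [deriv_coord (hv2 z0)] at d2
      have hne1 : v1 z0 j ≠ 0 := by
        intro h
        have := hlow1 z0
        rw [h, norm_zero] at this
        linarith
      have hne2 : v2 z0 j ≠ 0 := by
        intro h
        have := hlow2 z0
        rw [h, norm_zero] at this
        linarith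
      have r1 := deriv_le_of_coord (K := 0) (hB1 z0) (hj z0 (mem_univ _)) hne1 (by
        rw [d1, norm_zero, zero_mul])
      have r2 := deriv_le_of_coord (K := 0) (hB2 z0) (hj2 z0 j (hj z0 (mem_univ _))) hne2 (by
        rw [d2, norm_zero, zero_mul])
      rw [zero_add] at r1 r2
      exact ⟨Or.inl (bg _ _ _ i5 (norm_nonneg _) r1), fun _ =>
        ⟨bg _ _ _ i5 (norm_nonneg _) r1, bg _ _ _ i5 (norm_nonneg _) r2⟩⟩

end Pair

end Pool.Agent.K9h84.CI
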