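import Pool.Agent.K9h84.CI.Lim
import Pool.Agent.K9h3.TC.LI

/-!
# The holomorphic quotient attached to two close curves
-/

set_option autoImplicit false

open Set Filter Topology Metric

namespace Pool.Agent.K9h84.CI

variable {s : ℕ}

namespace Pair

variable (D : Pair s)

theorem on_lim {v : ℕ → ℂ → VV s} {V : ℂ → VV s} (h : ∀ n z, D.on (v n z))
    (hV : ∀ z, Tendsto (fun n => v n z) UU (𝓝 (V z))) (z : ℂ) : D.on (V z) :=
  D.isClosed_on.mem_of_tendsto (hV z) (Eventually.of_forall fun n => h n z)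

theorem scale_dt {P : PP s} {d : ℕ} {A : VV s → VV s → VV s} (h : HasDD P d A) (c : ℂ) (w u : VV s) :
    dt (c • w) (gr P (c • u)) = c ^ d * dt w (gr P u) := by
  rw [smul_dt, ← dt_smul, h.gr_hom, dt_smul]

theorem cv_q' {B : ℝ} {β : ℂ} {v : ℂ → VV s} (hv : D.Cv B β v) (z : ℂ) :
    dt (deriv v z) (gr D.Q (v z)) = D.q (v z) := by
  rw [dt_comm]
  have hd : HasDerivAt (fun t => MvPolynomial.eval (v t) D.Q)
      (dt (gr D.Q (v z)) (deriv v z)) z := D.hB.hasDerivAt (hv.dif z).hasDerivAt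
  have hc : (fun t => MvPolynomial.eval (v t) D.Q) = fun t => Complex.exp (t + β) :=
    funext hv.hq
  rw [hc] at hd
  have h4 : HasDerivAt (fun t => Complex.exp (t + β)) (Complex.exp (z + β) * 1) z :=
    ((hasDerivAt_id z).add_const β).cexp
  rw [hd.unique h4, mul_one]
  exact (hv.hq z).symm

/-- lower bound for the Jacobian vector along the curves -/
theorem N_cv {B : ℝ} (hB : 0 ≤ B) : ∃ c : ℝ, 0 < c ∧ ∀ (β : ℂ) (v : ℂ → VV s), D.Cv B β v →
    ∀ z, c * ‖v z‖ ^ (D.k + 1) ≤ ‖D.N (v z)‖ := by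
  obtain ⟨c, hc, hN⟩ := D.N_lower
  obtain ⟨C, hC, hld⟩ := D.ld hB
  -- the compact set of pairs of points and tangent vectors
  set K : Set (VV s × VV s) := ((Metric.sphere (0 : VV s) 1 ∩ {x | D.on x}) ×ˢ
    Metric.closedBall (0 : VV s) C) ∩ ({y | c ≤ ‖D.p y.1‖ * ‖D.q y.1‖} ∩
    ({y | dt y.2 (gr D.P y.1) = 0} ∩ ({y | dt y.2 (gr D.Q y.1) = D.q y.1} ∩
    {y | ∀ i, dt y.2 (gr (D.R i) y.1) = 0}))) with hK
  have hgc : ∀ {P : PP s} {d : ℕ} {A : VV s → VV s → VV s}, HasDD P d A →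
      Continuous (fun y : VV s × VV s => dt y.2 (gr P y.1)) := fun h =>
    dt_cont.comp (continuous_snd.prodMk (h.gr_cont.comp continuous_fst))
  have hKc : IsCompact K := by
    refine (D.isCompact_sphon.prod (isCompact_closedBall _ _)).inter_right ?_
    refine IsClosed.inter ?_ (IsClosed.inter ?_ (IsClosed.inter ?_ ?_))
    · exact isClosed_le continuous_const ((D.p_cont.comp continuous_fst).norm.mul
        (D.q_cont.comp continuous_fst).norm)
    · exact isClosed_eq (hgc D.hA) continuous_const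
    · exact isClosed_eq (hgc D.hB) (D.q_cont.comp continuous_fst)
    · have : {y : VV s × VV s | ∀ i, dt y.2 (gr (D.R i) y.1) = 0} =
          ⋂ i, {y : VV s × VV s | dt y.2 (gr (D.R i) y.1) = 0} := by
        ext y
        simp
      rw [this]
      exact isClosed_iInter fun i => isClosed_eq (hgc (D.hRR i)) continuous_const
  have hKm : ∃ m : ℝ, 0 < m ∧ ∀ y ∈ K, m ≤ ‖D.N y.1‖ := by
    rcases K.eq_empty_or_nonempty with hemp | hnon
    · exact ⟨1, one_pos, fun y hy => by rw [hemp] at hy; exact hy.elim⟩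
    · obtain ⟨y0, hy0, hmin⟩ := hKc.exists_isMinOn hnon
        ((D.N_cont.comp continuous_fst).norm.continuousOn (s := K))
      refine ⟨‖D.N y0.1‖, norm_pos_iff.2 ?_, fun y hy => hmin hy⟩
      obtain ⟨⟨⟨hs, hon⟩, -⟩, h1, h2, h3, h4⟩ := hy0
      have hpq : D.p y0.1 * D.q y0.1 ≠ 0 := by
        rw [← norm_pos_iff, norm_mul]
        exact lt_of_lt_of_le hc h1
      refine D.N_ne' (w := y0.2) ?_ hon (left_ne_zero_of_mul hpq) h2 ?_ h4
      · intro h
        rw [h, mem_sphere_zero_iff_norm, norm_zero] at hs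
        exact zero_ne_one hs
      · have h3' : dt y0.2 (gr D.Q y0.1) = D.q y0.1 := h3
        rw [h3']
        exact right_ne_zero_of_mul hpq
  obtain ⟨m, hm, hKm⟩ := hKm
  refine ⟨min c m, by positivity, fun β v hv z => ?_⟩
  have hn := hv.pos z
  rcases hN (v z) (hv.ne z) (hv.on z) with h | h
  · refine le_trans ?_ h
    gcongr
    exact min_le_left _ _
  · obtain ⟨u, hu, hvu, h0⟩ := exists_unit (hv.ne z)
    set r : ℂ := ((‖v z‖ : ℝ) : ℂ) with hr
    have hrn : ‖r‖ = ‖v z‖ := by rw [hr, Complex.norm_real, norm_norm]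
    set w : VV s := r⁻¹ • deriv v z with hw
    have hdw : deriv v z = r • w := by rw [hw, smul_smul, mul_inv_cancel₀ h0, one_smul]
    have hdt : ∀ {P : PP s} {d : ℕ} {A : VV s → VV s → VV s}, HasDD P d A →
        dt (deriv v z) (gr P (v z)) = r ^ d * dt w (gr P u) := by
      intro P d A hh
      rw [hvu, hdw]
      exact scale_dt hh _ _ _
    have hmem : (u, w) ∈ K := by
      refine ⟨⟨⟨mem_sphere_zero_iff_norm.2 hu, D.on_of_smul h0 (by rw [← hvu]; exact hv.on z)⟩, ?_⟩,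
        ?_, ?_, ?_, fun i => ?_⟩
      · rw [mem_closedBall_zero_iff, hw, norm_smul, norm_inv, hrn]
        have := hld β v hv z
        rw [inv_mul_le_iff₀ hn]
        linarith
      · have h3 : ‖D.p (v z)‖ * ‖D.q (v z)‖ = ‖v z‖ ^ (D.a + D.b) * (‖D.p u‖ * ‖D.q u‖) := by
          conv_lhs => rw [hvu]
          rw [D.p_smul, D.q_smul, norm_mul, norm_mul, norm_pow, norm_pow, hrn, pow_add]
          ring
        rw [h3, mul_comm] at h
        exact le_of_mul_le_mul_left h (by positivity)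
      · have h4 := hdt D.hA
        rw [dt_comm, D.orth_p hv.dif hv.hp z] at h4
        exact (mul_eq_zero.1 h4.symm).resolve_left (pow_ne_zero _ h0)
      · have h4 := hdt D.hB
        rw [D.cv_q' hv z] at h4
        have h5 : D.q (v z) = r ^ D.b * D.q u := by
          conv_lhs => rw [hvu]
          exact D.q_smul _ _
        rw [h5] at h4
        exact (mul_left_cancel₀ (pow_ne_zero _ h0) h4).symm
      · have h4 := hdt (D.hRR i)
        rw [dt_comm, D.orth_R hv.dif hv.on i z] at h4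
        exact (mul_eq_zero.1 h4.symm).resolve_left (pow_ne_zero _ h0)
    have h5 := hKm _ hmem
    have h6 : ‖D.N (v z)‖ = ‖v z‖ ^ (D.k + 1) * ‖D.N u‖ := by
      conv_lhs => rw [hvu]
      rw [D.N_hom h0, norm_smul, norm_pow, hrn]
    rw [h6, mul_comm]
    have h7 : min c m ≤ ‖D.N u‖ := (min_le_right _ _).trans h5
    gcongr

/-- the quotient `l` with `w - v = l • NN` -/
theorem lam {B : ℝ} (hB : 0 ≤ B) : ∃ δ c C : ℝ, 0 < δ ∧ δ ≤ 1 / 4 ∧ 0 < c ∧ 0 < C ∧
    ∀ (β : ℂ) (v w : ℂ → VV s), D.Cv B β v → D.Cv B β w → ∀ O : Set ℂ, IsOpen O →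
    (∀ z ∈ O, ‖w z - v z‖ < δ * ‖v z‖) → ∃ l : ℂ → ℂ, DifferentiableOn ℂ l O ∧
    ∀ z ∈ O, c * ‖w z - v z‖ ≤ ‖l z‖ * ‖v z‖ ^ (D.k + 1) ∧
      ‖l z‖ * ‖v z‖ ^ (D.k + 1) ≤ C * ‖w z - v z‖ := by
  obtain ⟨c0, hc0, hN⟩ := D.N_cv hB
  obtain ⟨δ0, hδ0, hcl⟩ := D.NN_close (c0 / 2) (by positivity)
  obtain ⟨C0, hC0, hup⟩ := D.NN_upper
  refine ⟨min δ0 (1 / 4), C0⁻¹, 2 / c0, by positivity, min_le_right _ _, by positivity,
    by positivity, ?_⟩
  intro β v w hv hw O hO hvw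
  have hvw0 : ∀ z ∈ O, ‖w z - v z‖ ≤ δ0 * ‖v z‖ := fun z hz =>
    (hvw z hz).le.trans (mul_le_mul_of_nonneg_right (min_le_left _ _) (norm_nonneg _))
  have hvw1 : ∀ z ∈ O, ‖w z - v z‖ ≤ ‖v z‖ := fun z hz => by
    have h1 := (hvw z hz).le.trans (mul_le_mul_of_nonneg_right (min_le_right _ _) (norm_nonneg _))
    have := norm_nonneg (v z)
    linarith
  have hlow : ∀ z ∈ O, c0 / 2 * ‖v z‖ ^ (D.k + 1) ≤ ‖D.NN (v z) (w z)‖ := by
    intro z hz
    have h1 := hcl (v z) (w z) (hvw0 z hz) (hv.ne z)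
    have h2 := hN β v hv z
    have h3 := norm_sub_norm_le (D.N (v z)) (D.N (v z) - D.NN (v z) (w z))
    rw [sub_sub_cancel, norm_sub_rev (D.N (v z))] at h3
    linarith
  have hne : ∀ z ∈ O, D.NN (v z) (w z) ≠ 0 := by
    intro z hz h
    have h1 := hlow z hz
    rw [h, norm_zero] at h1
    have h2 := hv.pos z
    have : 0 < c0 / 2 * ‖v z‖ ^ (D.k + 1) := by positivity
    linarith
  have hpar : ∀ z ∈ O, cr (w z - v z) (D.NN (v z) (w z)) = 0 := by
    intro z _
    exact D.par_NN (hv.on z) (hw.on z) ((hw.hp z).trans (hv.hp z).symm)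
      ((hw.hq z).trans (hv.hq z).symm)
  have hNd : Differentiable ℂ (fun z => D.NN (v z) (w z)) :=
    D.NN_dif.comp (hv.dif.prodMk hw.dif)
  obtain ⟨l, hl, hleq⟩ := exists_ratio hO (hw.dif.sub hv.dif).differentiableOn
    hNd.differentiableOn hne hpar
  refine ⟨l, hl, fun z hz => ?_⟩
  have h1 : ‖w z - v z‖ = ‖l z‖ * ‖D.NN (v z) (w z)‖ := by
    rw [← norm_smul, ← hleq z hz]
    rfl
  have h2 := hlow z hz
  have h3 := hup (v z) (w z) (hvw1 z hz) (hv.ne z)
  constructor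
  · rw [h1, inv_mul_le_iff₀ hC0]
    have := mul_le_mul_of_nonneg_left h3 (norm_nonneg (l z))
    linarith
  · rw [h1]
    have := mul_le_mul_of_nonneg_left h2 (norm_nonneg (l z))
    rw [div_mul_eq_mul_div, le_div_iff₀ hc0]
    linarith

/-- lower bound for the length of the vectors of a normalised curve -/
theorem cv_low : ∃ c : ℝ, 0 < c ∧ ∀ (B : ℝ) (β : ℂ) (v : ℂ → VV s), D.Cv B β v → ∀ z,
    c ≤ ‖v z‖ ∧ c * Real.exp ((z.re + β.re) / D.b) ≤ ‖v z‖ := by
  obtain ⟨c1, hc1, h1⟩ := D.low_of_p one_ne_zero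
  obtain ⟨c2, hc2, h2⟩ := D.swap.low_of_p one_ne_zero
  refine ⟨min c1 c2, by positivity, fun B β v hv z => ⟨?_, ?_⟩⟩
  · exact (min_le_left _ _).trans (h1 (v z) (hv.hp z))
  · have hb0 : (D.b : ℂ) ≠ 0 := by
      have := D.hb
      exact_mod_cast (by omega : D.b ≠ 0)
    have h3 : D.q (Complex.exp (-((z + β) / D.b)) • v z) = 1 := by
      rw [D.q_smul, hv.hq, ← Complex.exp_nat_mul, ← Complex.exp_add]
      have : (D.b : ℂ) * -((z + β) / D.b) + (z + β) = 0 := by
        field_simp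
        ring
      rw [this, Complex.exp_zero]
    have h4 := h2 _ h3
    rw [norm_smul, Complex.norm_exp, Complex.neg_re, Complex.div_natCast_re, Complex.add_re] at h4
    have h5 := (min_le_right c1 c2).trans h4
    calc min c1 c2 * Real.exp ((z.re + β.re) / D.b) ≤
        (Real.exp (-((z.re + β.re) / D.b)) * ‖v z‖) * Real.exp ((z.re + β.re) / D.b) := by gcongr
      _ = ‖v z‖ := by
          rw [mul_right_comm, ← Real.exp_add, neg_add_cancel, Real.exp_zero, one_mul]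

/-- limits of normalised curves -/
theorem cv_lim {B : ℝ} {β : ℕ → ℂ} {v : ℕ → ℂ → VV s} (hv : ∀ n, D.Cv B (β n) (v n))
    {V : ℂ → VV s} {β' : ℂ} (hVd : Differentiable ℂ V)
    (hV : ∀ z, Tendsto (fun n => v n z) UU (𝓝 (V z)))
    (hV' : ∀ z, Tendsto (fun n => deriv (v n) z) UU (𝓝 (deriv V z)))
    (hβ : Tendsto β UU (𝓝 β')) : D.Cv B β' V := by
  refine ⟨hVd, fun z => ?_, fun z => ?_, fun z => ?_, D.on_lim (fun n => (hv n).on) hV⟩
  · have h1 : Tendsto (fun n => D.p (v n z)) UU (𝓝 (D.p (V z))) :=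
      (D.p_cont.tendsto _).comp (hV z)
    simp only [fun n => (hv n).hp z] at h1
    exact tendsto_nhds_unique h1 tendsto_const_nhds
  · have h1 : Tendsto (fun n => D.q (v n z)) UU (𝓝 (D.q (V z))) :=
      (D.q_cont.tendsto _).comp (hV z)
    simp only [fun n => (hv n).hq z] at h1
    have h2 : Tendsto (fun n => Complex.exp (z + β n)) UU (𝓝 (Complex.exp (z + β'))) :=
      (Complex.continuous_exp.tendsto _).comp (hβ.const_add z)
    exact tendsto_nhds_unique h1 h2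
  · have h1 : Tendsto (fun n => ‖cr (v n z) (deriv (v n) z)‖) UU (𝓝 ‖cr (V z) (deriv V z)‖) := by
      have h2 : Tendsto (fun n => ((v n z, deriv (v n) z) : VV s × VV s)) UU
          (𝓝 (V z, deriv V z)) := (hV z).prodMk_nhds (hV' z)
      exact ((cr_cont.tendsto _).comp h2).norm
    have h3 : Tendsto (fun n => B * ‖v n z‖ ^ 2) UU (𝓝 (B * ‖V z‖ ^ 2)) :=
      ((hV z).norm.pow 2).const_mul B
    exact le_of_tendsto_of_tendsto h1 h3 (Eventually.of_forall fun n => (hv n).bro z)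

end Pair

end Pool.Agent.K9h84.CI
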