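import Pool.Agent.K9h84.CI.Defs

/-!
# Algebraic maps of the punctured line have bounded speed
-/

set_option autoImplicit false

open Set Filter Topology Metric

namespace Pool.Agent.K9h84.CI

variable {s : ℕ}

/-- sum of the absolute values of the coefficients -/
noncomputable def Sc (f : Polynomial ℂ) : ℝ := ∑ k ∈ f.support, ‖f.coeff k‖

theorem Sc_nonneg (f : Polynomial ℂ) : 0 ≤ Sc f := Finset.sum_nonneg fun _ _ => norm_nonneg _

theorem eval_bound (f : Polynomial ℂ) (t : ℂ) {r : ℝ}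
    (h : ∀ k ∈ f.support, ‖t‖ ^ k ≤ r) : ‖f.eval t‖ ≤ Sc f * r := by
  rw [Polynomial.eval_eq_sum, Polynomial.sum_def]
  refine (norm_sum_le _ _).trans ?_
  unfold Sc
  rw [Finset.sum_mul]
  refine Finset.sum_le_sum fun k hk => ?_
  rw [norm_mul, norm_pow]
  exact mul_le_mul_of_nonneg_left (h k hk) (norm_nonneg _)

theorem up1 (f : Polynomial ℂ) {n : ℕ} (hf : f.natDegree ≤ n) {t : ℂ} (ht : 1 ≤ ‖t‖) :
    ‖f.eval t‖ ≤ Sc f * ‖t‖ ^ n :=
  eval_bound f t fun k hk =>
    pow_le_pow_right₀ ht ((Polynomial.le_natDegree_of_mem_supp k hk).trans hf)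

theorem up0 (f : Polynomial ℂ) {m : ℕ} (hf : ∀ k, k < m → f.coeff k = 0) {t : ℂ} (ht : ‖t‖ ≤ 1) :
    ‖f.eval t‖ ≤ Sc f * ‖t‖ ^ m := by
  refine eval_bound f t fun k hk => pow_le_pow_of_le_one (norm_nonneg _) ht ?_
  by_contra hlt
  exact (Polynomial.mem_support_iff.1 hk) (hf k (not_le.1 hlt))

/-- lower bound near infinity -/
theorem low1 {ψ : Fin (s + 3) → Polynomial ℂ} (h : ∀ t : ℂ, 1 ≤ ‖t‖ → (fun i => (ψ i).eval t) ≠ 0) :
    ∃ (d : ℕ) (c : ℝ), 0 < c ∧ (∀ i, (ψ i).natDegree ≤ d) ∧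
      ∀ t : ℂ, 1 ≤ ‖t‖ → c * ‖t‖ ^ d ≤ ‖(fun i => (ψ i).eval t : VV s)‖ := by
  obtain ⟨i0, hi0⟩ := Finite.exists_max (fun i => (ψ i).degree)
  have hne : ψ i0 ≠ 0 := by
    intro h0
    apply h 1 (by simp)
    funext i
    have h1 := hi0 i
    rw [h0, Polynomial.degree_zero, le_bot_iff, Polynomial.degree_eq_bot] at h1
    rw [h1, Polynomial.eval_zero]
    rfl
  set d : ℕ := (ψ i0).natDegree with hd
  have hdeg : ∀ i, (ψ i).natDegree ≤ d := fun i => Polynomial.natDegree_le_natDegree (hi0 i)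
  set g : Fin (s + 3) → Polynomial ℂ := fun i => (ψ i).reflect d with hg
  have hrel : ∀ (i : Fin (s + 3)) (t : ℂ), t ≠ 0 → (g i).eval t⁻¹ * t ^ d = (ψ i).eval t := by
    intro i t ht
    have hinv : Invertible t := invertibleOfNonzero ht
    have h1 := Polynomial.eval₂_reflect_mul_pow (RingHom.id ℂ) t d (ψ i) (hdeg i)
    rw [invOf_eq_inv] at h1
    exact h1
  have hg0 : ∀ sv : ℂ, ‖sv‖ ≤ 1 → (fun i => (g i).eval sv : VV s) ≠ 0 := by
    intro sv hsv h0
    by_cases hs0 : sv = 0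
    · have h1 := congrFun h0 i0
      simp only [Pi.zero_apply] at h1
      rw [hs0, ← Polynomial.coeff_zero_eq_eval_zero, hg] at h1
      simp only at h1
      rw [Polynomial.coeff_reflect, Polynomial.revAt_le (Nat.zero_le d), Nat.sub_zero] at h1
      exact hne (Polynomial.leadingCoeff_eq_zero.1 h1)
    · have hs1 : sv⁻¹ ≠ 0 := inv_ne_zero hs0
      apply h sv⁻¹ (by
        rw [norm_inv]
        exact (one_le_inv₀ (norm_pos_iff.2 hs0)).2 hsv)
      funext i
      have h1 := hrel i sv⁻¹ hs1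
      rw [inv_inv] at h1
      have h2 := congrFun h0 i
      simp only [Pi.zero_apply] at h2
      rw [← h1, h2, zero_mul]
      rfl
  have hgc : Continuous (fun sv : ℂ => ‖(fun i => (g i).eval sv : VV s)‖) :=
    (continuous_pi fun i => (g i).continuous).norm
  obtain ⟨s0, hs0, hmin⟩ := (isCompact_closedBall (0 : ℂ) 1).exists_isMinOn
    ⟨0, mem_closedBall_self zero_le_one⟩ hgc.continuousOn
  have hpos : 0 < ‖(fun i => (g i).eval s0 : VV s)‖ :=
    norm_pos_iff.2 (hg0 s0 (mem_closedBall_zero_iff.1 hs0))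
  refine ⟨d, _, hpos, hdeg, fun t ht => ?_⟩
  have ht0 : t ≠ 0 := by
    rintro rfl
    rw [norm_zero] at ht
    linarith
  have hinv : ‖t⁻¹‖ ≤ 1 := by
    rw [norm_inv]
    exact inv_le_one_of_one_le₀ ht
  have h1 : ‖(fun i => (g i).eval s0 : VV s)‖ ≤ ‖(fun i => (g i).eval t⁻¹ : VV s)‖ :=
    hmin (mem_closedBall_zero_iff.2 hinv)
  have h2 : (fun i => (ψ i).eval t : VV s) = (t ^ d) • (fun i => (g i).eval t⁻¹ : VV s) := by
    funext i
    rw [Pi.smul_apply, smul_eq_mul, mul_comm]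
    exact (hrel i t ht0).symm
  rw [h2, norm_smul, norm_pow, mul_comm]
  exact mul_le_mul_of_nonneg_left h1 (by positivity)

theorem norm_vec_le {f : Fin (s + 3) → Polynomial ℂ} {t : ℂ} {r : ℝ} (hr : 0 ≤ r)
    (h : ∀ i, ‖(f i).eval t‖ ≤ Sc (f i) * r) :
    ‖(fun i => (f i).eval t : VV s)‖ ≤ (∑ i, Sc (f i)) * r := by
  have h0 : 0 ≤ ∑ i, Sc (f i) := Finset.sum_nonneg fun i _ => Sc_nonneg (f i)
  refine norm3_le (mul_nonneg h0 hr) fun i => ?_
  refine (h i).trans (mul_le_mul_of_nonneg_right ?_ hr)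
  exact Finset.single_le_sum (f := fun i => Sc (f i)) (fun i _ => Sc_nonneg (f i)) (Finset.mem_univ i)

/-- logarithmic derivative bound for algebraic maps of the punctured line -/
theorem alg_ld {ψ : Fin (s + 3) → Polynomial ℂ} (h : ∀ t : ℂ, t ≠ 0 → (fun i => (ψ i).eval t) ≠ 0) :
    ∃ C : ℝ, 0 ≤ C ∧ ∀ t : ℂ, t ≠ 0 →
      ‖(fun i => (Polynomial.X * (ψ i).derivative).eval t : VV s)‖ ≤
        C * ‖(fun i => (ψ i).eval t : VV s)‖ := by
  have hne1 : ∀ t : ℂ, 1 ≤ ‖t‖ → t ≠ 0 := by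
    rintro t ht rfl
    rw [norm_zero] at ht
    linarith
  obtain ⟨d, c, hc, hdeg, hlow⟩ := low1 (fun t ht => h t (hne1 t ht))
  set f : Fin (s + 3) → Polynomial ℂ := fun i => Polynomial.X * (ψ i).derivative with hf
  have hfdeg : ∀ i, (f i).natDegree ≤ d := by
    intro i
    rw [hf]
    by_cases h0 : (ψ i).natDegree = 0
    · have h1 : (ψ i).derivative = 0 := by
        rw [Polynomial.eq_C_of_natDegree_eq_zero h0, Polynomial.derivative_C]
      simp only
      rw [h1, mul_zero, Polynomial.natDegree_zero]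
      exact Nat.zero_le _
    · have h1 := Polynomial.natDegree_mul_le (p := (Polynomial.X : Polynomial ℂ))
        (q := (ψ i).derivative)
      have h2 := Polynomial.natDegree_derivative_lt h0
      have h3 := hdeg i
      have h4 : (Polynomial.X : Polynomial ℂ).natDegree ≤ 1 := Polynomial.natDegree_X_le
      simp only
      omega
  -- the reflected polynomials control the behaviour at the origin
  set g : Fin (s + 3) → Polynomial ℂ := fun i => (ψ i).reflect d with hg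
  have hrel : ∀ (i : Fin (s + 3)) (t : ℂ), t ≠ 0 → (g i).eval t⁻¹ * t ^ d = (ψ i).eval t := by
    intro i t ht
    have hinv : Invertible t := invertibleOfNonzero ht
    have h1 := Polynomial.eval₂_reflect_mul_pow (RingHom.id ℂ) t d (ψ i) (hdeg i)
    rw [invOf_eq_inv] at h1
    exact h1
  obtain ⟨e, c', hc', hedeg, hlow'⟩ := low1 (ψ := g) (fun sv hsv h0 => by
    have hs0 := hne1 sv hsv
    apply h sv⁻¹ (inv_ne_zero hs0)
    funext i
    have h1 := hrel i sv⁻¹ (inv_ne_zero hs0)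
    rw [inv_inv] at h1
    have h2 := congrFun h0 i
    simp only [Pi.zero_apply] at h2
    rw [← h1, h2, zero_mul]
    rfl)
  have hcoef : ∀ i k, k < d - e → (ψ i).coeff k = 0 := by
    intro i k hk
    have h1 : (g i).coeff (d - k) = (ψ i).coeff k := by
      rw [hg]
      simp only
      rw [Polynomial.coeff_reflect, Polynomial.revAt_le (Nat.sub_le d k)]
      congr 1
      omega
    rw [← h1]
    refine Polynomial.coeff_eq_zero_of_natDegree_lt (lt_of_le_of_lt (hedeg i) ?_)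
    omega
  have hfcoef : ∀ i k, k < d - e → (f i).coeff k = 0 := by
    intro i k hk
    rw [hf]
    simp only
    cases k with
    | zero => rw [Polynomial.coeff_X_mul_zero]
    | succ k =>
      rw [Polynomial.coeff_X_mul, Polynomial.coeff_derivative, hcoef i (k + 1) hk, zero_mul]
  set S : ℝ := ∑ i, Sc (f i) with hS
  have hS0 : 0 ≤ S := Finset.sum_nonneg fun i _ => Sc_nonneg (f i)
  have hed : e ≤ d := by
    by_contra hlt
    push Not at hlt
    -- all reflected polynomials have degree at most `d`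
    have h1 : ∀ i, (g i).natDegree ≤ d := by
      intro i
      rw [hg]
      exact (Polynomial.natDegree_reflect_le).trans (max_le le_rfl (hdeg i))
    -- compare growth
    have h2 : ∀ t : ℂ, 1 ≤ ‖t‖ → c' * ‖t‖ ≤ (∑ i, Sc (g i)) := by
      intro t ht
      have h3 := hlow' t ht
      have h4 := norm_vec_le (f := g) (t := t) (r := ‖t‖ ^ d) (by positivity)
        (fun i => up1 (g i) (h1 i) ht)
      have h5 : ‖t‖ ^ d * ‖t‖ ≤ ‖t‖ ^ e := by
        rw [← pow_succ]
        exact pow_le_pow_right₀ ht hlt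
      have h6 : 0 < ‖t‖ ^ d := by positivity
      have h7 : (c' * ‖t‖) * ‖t‖ ^ d ≤ ((∑ i, Sc (g i))) * ‖t‖ ^ d := by
        calc (c' * ‖t‖) * ‖t‖ ^ d = c' * (‖t‖ ^ d * ‖t‖) := by ring
          _ ≤ c' * ‖t‖ ^ e := by gcongr
          _ ≤ _ := h3.trans h4
      exact le_of_mul_le_mul_right h7 h6
    set T : ℝ := max 1 (((∑ i, Sc (g i))) / c' + 1) with hT
    have hT1 : 1 ≤ T := le_max_left _ _
    have h3 := h2 (T : ℂ) (by rw [Complex.norm_real, Real.norm_of_nonneg (by linarith)]; exact hT1)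
    rw [Complex.norm_real, Real.norm_of_nonneg (by linarith)] at h3
    have h4 : ((∑ i, Sc (g i))) / c' + 1 ≤ T := le_max_right _ _
    have h5 : c' * (((∑ i, Sc (g i))) / c' + 1) ≤ c' * T := by gcongr
    have h6 : c' * (((∑ i, Sc (g i))) / c' + 1) = (∑ i, Sc (g i)) + c' := by
      field_simp
    linarith
  refine ⟨max (S / c) (S / c'), le_max_of_le_left (by positivity), fun t ht => ?_⟩
  rcases le_total 1 ‖t‖ with h1 | h1
  · have h2 := norm_vec_le (f := f) (t := t) (r := ‖t‖ ^ d) (by positivity)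
      (fun i => up1 (f i) (hfdeg i) h1)
    have h3 := hlow t h1
    calc ‖(fun i => (f i).eval t : VV s)‖ ≤ S * ‖t‖ ^ d := h2
      _ = S / c * (c * ‖t‖ ^ d) := by field_simp
      _ ≤ S / c * ‖(fun i => (ψ i).eval t : VV s)‖ := by gcongr
      _ ≤ _ := mul_le_mul_of_nonneg_right (le_max_left _ _) (norm_nonneg _)
  · have h2 := norm_vec_le (f := f) (t := t) (r := ‖t‖ ^ (d - e)) (by positivity)
      (fun i => up0 (f i) (hfcoef i) h1)
    have hti : 1 ≤ ‖t⁻¹‖ := by
      rw [norm_inv]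
      exact (one_le_inv₀ (norm_pos_iff.2 ht)).2 h1
    have h3 := hlow' t⁻¹ hti
    have h4 : (fun i => (ψ i).eval t : VV s) = (t ^ d) • (fun i => (g i).eval t⁻¹ : VV s) := by
      funext i
      rw [Pi.smul_apply, smul_eq_mul, mul_comm]
      exact (hrel i t ht).symm
    have htp : 0 < ‖t‖ := norm_pos_iff.2 ht
    have h5 : c' * ‖t‖ ^ (d - e) ≤ ‖(fun i => (ψ i).eval t : VV s)‖ := by
      rw [h4, norm_smul, norm_pow]
      rw [norm_inv, inv_pow] at h3
      have h6 : ‖t‖ ^ d * (‖t‖ ^ e)⁻¹ = ‖t‖ ^ (d - e) := by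
        rw [pow_sub₀ _ htp.ne' hed]
      calc c' * ‖t‖ ^ (d - e) = ‖t‖ ^ d * (c' * (‖t‖ ^ e)⁻¹) := by rw [← h6]; ring
        _ ≤ _ := by gcongr
    calc ‖(fun i => (f i).eval t : VV s)‖ ≤ S * ‖t‖ ^ (d - e) := h2
      _ = S / c' * (c' * ‖t‖ ^ (d - e)) := by field_simp
      _ ≤ S / c' * ‖(fun i => (ψ i).eval t : VV s)‖ := by gcongr
      _ ≤ _ := mul_le_mul_of_nonneg_right (le_max_right _ _) (norm_nonneg _)

/-- algebraic maps of the punctured line composed with the exponential -/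
theorem alg_bro {ψ : Fin (s + 3) → Polynomial ℂ} (h : ∀ t : ℂ, t ≠ 0 → (fun i => (ψ i).eval t) ≠ 0) :
    Differentiable ℂ (fun z i => (ψ i).eval (Complex.exp z) : ℂ → VV s) ∧
    ∃ B, Bro B (fun z i => (ψ i).eval (Complex.exp z) : ℂ → VV s) := by
  have hder : ∀ z, HasDerivAt (fun z i => (ψ i).eval (Complex.exp z) : ℂ → VV s)
      (fun i => (Polynomial.X * (ψ i).derivative).eval (Complex.exp z)) z := by
    intro z
    rw [hasDerivAt_pi]
    intro i
    have h1 := ((ψ i).hasDerivAt (Complex.exp z)).comp z (Complex.hasDerivAt_exp z)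
    rw [Polynomial.eval_mul, Polynomial.eval_X, mul_comm]
    exact h1
  refine ⟨fun z => (hder z).differentiableAt, ?_⟩
  obtain ⟨C, hC, hCl⟩ := alg_ld h
  refine ⟨2 * C, fun z => ?_⟩
  rw [(hder z).deriv]
  refine (norm_cr_le _ _).trans ?_
  have h1 := hCl (Complex.exp z) (Complex.exp_ne_zero z)
  have h2 := norm_nonneg (fun i => (ψ i).eval (Complex.exp z) : VV s)
  rw [pow_two]
  nlinarith

end Pool.Agent.K9h84.CI
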