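import Pool.Agent.K9h84.CI.Hpl

/-!
# Logarithmic derivative bound near first contact points
-/

set_option autoImplicit false

open Set Filter Topology Metric

namespace Pool.Agent.K9h84.CI

open Pool.Agent.K9h3.TC (zf_harnack zf_deriv)

variable {s : ℕ}

/-- the logarithmic derivative of a zero-free function varies slowly -/
theorem transfer {u : ℂ → ℂ} {z0 z1 : ℂ} {r c : ℝ} (hr : 0 < r)
    (hu : DifferentiableOn ℂ u (ball z0 r)) (hc : 0 < c) (hlow : ∀ z ∈ ball z0 r, c < ‖u z‖)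
    (hd : dist z0 z1 ≤ r / 16) :
    ‖deriv u z0 / u z0 - deriv u z1 / u z1‖ ≤
      256 * Real.log (‖u z1‖ / c) / r ^ 2 * dist z0 z1 := by
  have hu0 : ∀ z ∈ ball z0 r, u z ≠ 0 := fun z hz h => by
    have := hlow z hz
    rw [h, norm_zero] at this
    linarith
  have hsub : ∀ ρ : ℝ, ρ ≤ 15 / 16 * r → ball z1 ρ ⊆ ball z0 r := by
    intro ρ hρ
    refine ball_subset_ball' ?_
    rw [dist_comm]
    linarith
  have hz1 : z1 ∈ ball z0 r := by
    rw [mem_ball, dist_comm]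
    linarith
  set G : ℝ := Real.log (‖u z1‖ / c) with hG
  have hG0 : 0 ≤ G := by
    apply Real.log_nonneg
    rw [le_div_iff₀ hc, one_mul]
    exact (hlow z1 hz1).le
  set h : ℂ → ℂ := fun z => deriv u z / u z with hh
  have hhd : DifferentiableOn ℂ h (ball z0 r) := (hu.deriv isOpen_ball).div hu hu0
  have hhb : ∀ ζ ∈ ball z1 (r / 4), ‖h ζ‖ ≤ 32 * G / r := by
    intro ζ hζ
    have hζd : dist ζ z1 < r / 4 := hζ
    have hs1 : ball ζ (r / 2) ⊆ ball z0 r :=
      (ball_subset_ball' (ε₂ := 3 / 4 * r) (by linarith)).trans (hsub (3 / 4 * r) (by linarith))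
    have hz1b : z1 ∈ ball ζ (r / 2) := by
      rw [mem_ball, dist_comm]
      linarith
    have h1 := zf_harnack (hu.mono hs1) hc (fun z hz => hlow z (hs1 hz)) hz1b
    have hs2 : ball ζ (r / 4) ⊆ ball z0 r := (ball_subset_ball (by linarith)).trans hs1
    have h2 := zf_deriv (hu.mono hs2) hc (fun z hz => hlow z (hs2 hz)) (by linarith : 0 < r / 4)
    have hζm : ζ ∈ ball z0 r := hs1 (mem_ball_self (by linarith))
    have hup : 0 < ‖u ζ‖ := norm_pos_iff.2 (hu0 ζ hζm)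
    have hlog : 0 ≤ Real.log (‖u ζ‖ / c) := by
      apply Real.log_nonneg
      rw [le_div_iff₀ hc, one_mul]
      exact (hlow ζ hζm).le
    rw [dist_comm] at hζd
    have h3 : r / 4 * Real.log (‖u ζ‖ / c) ≤ r * G := by
      calc r / 4 * Real.log (‖u ζ‖ / c) ≤ (r / 2 - dist z1 ζ) * Real.log (‖u ζ‖ / c) :=
            mul_le_mul_of_nonneg_right (by linarith) hlog
        _ ≤ 2 * (r / 2) * G := h1
        _ = r * G := by ring
    have h4 : Real.log (‖u ζ‖ / c) ≤ 4 * G := by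
      have h5 : r * Real.log (‖u ζ‖ / c) ≤ r * (4 * G) := by linarith
      exact le_of_mul_le_mul_left h5 hr
    rw [hh]
    simp only
    rw [norm_div, div_le_iff₀ hup]
    refine h2.trans (mul_le_mul_of_nonneg_right ?_ hup.le)
    rw [div_le_div_iff₀ (by positivity) hr]
    nlinarith
  have hder : ∀ ζ ∈ ball z1 (r / 8), ‖deriv h ζ‖ ≤ 256 * G / r ^ 2 := by
    intro ζ hζ
    have hζd : dist ζ z1 < r / 8 := hζ
    have hsv : closedBall ζ (r / 8) ⊆ ball z1 (r / 4) := closedBall_subset_ball' (by linarith)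
    have hsv' : closedBall ζ (r / 8) ⊆ ball z0 r := hsv.trans (hsub (r / 4) (by linarith))
    have h1 : DiffContOnCl ℂ h (ball ζ (r / 8)) := hhd.diffContOnCl_ball hsv'
    have h2 := Complex.norm_deriv_le_of_forall_mem_sphere_norm_le (by linarith : 0 < r / 8) h1
      (C := 32 * G / r) (fun w hw => hhb w (hsv (sphere_subset_closedBall hw)))
    refine h2.trans (le_of_eq ?_)
    field_simp
    ring
  have hz1' : z1 ∈ ball z1 (r / 8) := mem_ball_self (by linarith)
  have hz0' : z0 ∈ ball z1 (r / 8) := by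
    rw [mem_ball]
    linarith
  have h1 := (convex_ball z1 (r / 8)).norm_image_sub_le_of_norm_deriv_le
    (f := h) (fun ζ hζ => hhd.differentiableAt (isOpen_ball.mem_nhds
      (hsub (r / 8) (by linarith) hζ))) hder hz1' hz0'
  rw [← dist_eq_norm z0 z1] at h1
  exact h1

namespace Pair

variable (D : Pair s)

/-- bound at the centre of a disc in the cusp region, from an exit point -/
theorem exit_on {B M : ℝ} (hB : 0 ≤ B) (_hM : 0 < M) : ∃ C : ℝ, 0 < C ∧
    ∀ (f : ℂ → VV s) (z0 zs : ℂ) (ρ : ℝ) (j : Fin (s + 3)), dist z0 zs = ρ →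
    DifferentiableOn ℂ f (ball z0 (ρ + 1)) → (∀ z ∈ ball z0 (ρ + 1), D.p (f z) = 1) →
    (∀ z ∈ ball z0 (ρ + 1), ‖cr (f z) (deriv f z)‖ ≤ B * ‖f z‖ ^ 2) → ‖f zs‖ ≤ M →
    (∀ z ∈ ball z0 ρ, ‖f z‖ ≤ 2 * ‖f z j‖) → ‖deriv f z0‖ ≤ C * ‖f z0‖ := by
  obtain ⟨r0, c, hr0, hr01, hc, hlow, hloc⟩ := D.hrn hB
  set Λ : ℝ := |Real.log (M / c)| with hΛ
  have hΛ0 : 0 ≤ Λ := abs_nonneg _
  refine ⟨80 * Λ / r0 + 2 * B + 1, by positivity, ?_⟩
  intro f z0 zs ρ j hdist hf hp hsv hfzs hcusp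
  have hρ0 : 0 ≤ ρ := by rw [← hdist]; exact dist_nonneg
  have hz0 : z0 ∈ ball z0 (ρ + 1) := mem_ball_self (by linarith)
  have hzs : zs ∈ ball z0 (ρ + 1) := by
    rw [mem_ball, dist_comm, hdist]
    linarith
  have hsub0 : ball z0 r0 ⊆ ball z0 (ρ + 1) := ball_subset_ball (by linarith)
  have hsubs : ball zs r0 ⊆ ball z0 (ρ + 1) := ball_subset_ball' (by rw [dist_comm, hdist]; linarith)
  have hposn : ∀ z ∈ ball z0 (ρ + 1), 0 < ‖f z‖ := fun z hz => by
    have := hlow _ (hp z hz)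
    linarith
  have hzsl : Real.log (‖f zs‖ / c) ≤ Λ :=
    (Real.log_le_log (div_pos (hposn zs hzs) hc) (div_le_div_of_nonneg_right hfzs hc.le)).trans
      (le_abs_self _)
  have hf0 := hposn z0 hz0
  rcases le_or_gt ρ (r0 / 4) with hρ | hρ
  · have h1 := ((hloc f zs (hf.mono hsubs) (fun z hz => hp z (hsubs hz))
      (fun z hz => hsv z (hsubs hz))).1 z0 (by rw [hdist]; exact hρ)).1
    have h2 := (hloc f z0 (hf.mono hsub0) (fun z hz => hp z (hsub0 hz))
      (fun z hz => hsv z (hsub0 hz))).2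
    refine h2.trans (mul_le_mul_of_nonneg_right ?_ hf0.le)
    have h3 : 2 / r0 * Real.log (‖f z0‖ / c) ≤ 2 / r0 * (5 * Λ) :=
      mul_le_mul_of_nonneg_left (h1.trans (by linarith)) (by positivity)
    have h4 : 2 / r0 * (5 * Λ) ≤ 80 * Λ / r0 := by
      rw [div_mul_eq_mul_div, div_le_div_iff_of_pos_right hr0]
      linarith
    linarith
  · have hρp : 0 < ρ := by linarith
    set z1 : ℂ := zs + ((r0 / 4 / ρ : ℝ) : ℂ) * (z0 - zs) with hz1
    have hnd : ‖z0 - zs‖ = ρ := by rw [← dist_eq_norm, hdist]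
    have hTρ : r0 / 4 / ρ * ρ = r0 / 4 := by field_simp
    have hTρ1 : r0 / 4 / ρ ≤ 1 := by
      rw [div_le_one hρp]
      linarith
    have hTρ0 : 0 ≤ r0 / 4 / ρ := by positivity
    have hd1 : dist z1 z0 = ρ - r0 / 4 := by
      have : z1 - z0 = (((1 - r0 / 4 / ρ) : ℝ) : ℂ) * (zs - z0) := by
        rw [hz1]
        push_cast
        ring
      rw [dist_eq_norm, this, norm_mul, Complex.norm_real, Real.norm_of_nonneg (by linarith),
        norm_sub_rev, hnd, sub_mul, hTρ, one_mul]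
    have hd2 : dist z1 zs = r0 / 4 := by
      have : z1 - zs = (((r0 / 4 / ρ) : ℝ) : ℂ) * (z0 - zs) := by
        rw [hz1]
        ring
      rw [dist_eq_norm, this, norm_mul, Complex.norm_real, Real.norm_of_nonneg hTρ0, hnd, hTρ]
    have hz1b : z1 ∈ ball z0 ρ := by
      rw [mem_ball, hd1]
      linarith
    have hsubρ : ball z0 ρ ⊆ ball z0 (ρ + 1) := ball_subset_ball (by linarith)
    have hfj : ∀ z ∈ ball z0 ρ, c < ‖f z j‖ := by
      intro z hz
      have h1 := hcusp z hz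
      have h2 := hlow _ (hp z (hsubρ hz))
      linarith
    have hfjd : DifferentiableOn ℂ (fun z => f z j) (ball z0 ρ) := fun z hz =>
      (differentiableWithinAt_pi.1 ((hf.mono hsubρ) z hz)) j
    have h1 := ((hloc f zs (hf.mono hsubs) (fun z hz => hp z (hsubs hz))
      (fun z hz => hsv z (hsubs hz))).1 z1 (by rw [hd2])).1
    have h2 := zf_harnack (u := fun z => f z j) hfjd hc hfj hz1b
    rw [hd1] at h2
    have h3 : Real.log (‖f z1 j‖ / c) ≤ 5 * Λ := by
      refine le_trans ?_ (h1.trans (by linarith))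
      exact Real.log_le_log (div_pos (hc.trans (hfj z1 hz1b)) hc)
        (div_le_div_of_nonneg_right (le3 _ j) hc.le)
    have h4 : Real.log (‖f z0 j‖ / c) ≤ 40 * ρ * Λ / r0 := by
      rw [le_div_iff₀ hr0]
      have h5 : (ρ - (ρ - r0 / 4)) * Real.log (‖f z0 j‖ / c) ≤ 2 * ρ * (5 * Λ) :=
        h2.trans (mul_le_mul_of_nonneg_left h3 (by positivity))
      have h6 : (ρ - (ρ - r0 / 4)) * Real.log (‖f z0 j‖ / c) =
        Real.log (‖f z0 j‖ / c) * r0 / 4 := by ring
      rw [h6] at h5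
      linarith
    have h5 := zf_deriv (u := fun z => f z j) hfjd hc hfj hρp
    rw [deriv_coord (hf.differentiableAt (isOpen_ball.mem_nhds hz0))] at h5
    have hj0 : f z0 j ≠ 0 := norm_pos_iff.1 (hc.trans (hfj z0 (mem_ball_self hρp)))
    have h6 : ‖deriv f z0 j‖ ≤ (80 * Λ / r0) * ‖f z0 j‖ := by
      refine h5.trans (mul_le_mul_of_nonneg_right ?_ (norm_nonneg _))
      rw [div_le_iff₀ hρp]
      calc 2 * Real.log (‖f z0 j‖ / c) ≤ 2 * (40 * ρ * Λ / r0) := by linarith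
        _ = 80 * Λ / r0 * ρ := by ring
    have h7 := deriv_le_of_coord (hsv z0 hz0) (hcusp z0 (mem_ball_self hρp)) hj0 h6
    refine h7.trans (mul_le_mul_of_nonneg_right (by linarith) (norm_nonneg _))

theorem qn_ld {w : ℂ → VV s} {z : ℂ} {C : ℝ} (hw : DifferentiableAt ℂ w z)
    (h : ‖deriv (D.qn w) z‖ ≤ C * ‖D.qn w z‖) : ‖deriv w z‖ ≤ (C + 1) * ‖w z‖ := by
  have hb1 : (1 : ℝ) ≤ D.b := by exact_mod_cast D.hb
  have h1 := D.qn_deriv hw
  have h2 : Complex.exp (-(z / D.b)) • deriv w z = deriv (D.qn w) z + (1 / (D.b : ℂ)) • D.qn w z := by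
    rw [h1, sub_add_cancel]
  have h3 : ‖Complex.exp (-(z / D.b)) • deriv w z‖ ≤ (C + 1) * ‖D.qn w z‖ := by
    rw [h2]
    refine (norm_add_le _ _).trans ?_
    rw [norm_smul, norm_div, norm_one, Complex.norm_natCast]
    have h4 : 1 / (D.b : ℝ) ≤ 1 := by
      rw [div_le_one (by linarith)]
      exact hb1
    have h5 : 1 / (D.b : ℝ) * ‖D.qn w z‖ ≤ 1 * ‖D.qn w z‖ :=
      mul_le_mul_of_nonneg_right h4 (norm_nonneg _)
    linarith
  unfold qn at h3
  rw [norm_smul, norm_smul] at h3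
  have hep : 0 < ‖Complex.exp (-(z / D.b))‖ := norm_pos_iff.2 (Complex.exp_ne_zero _)
  have h4 : ‖Complex.exp (-(z / D.b))‖ * ‖deriv w z‖ ≤
      ‖Complex.exp (-(z / D.b))‖ * ((C + 1) * ‖w z‖) := by linarith
  exact le_of_mul_le_mul_left h4 hep

end Pair

end Pool.Agent.K9h84.CI
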