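import Pool.Agent.K9h84.CI.Dcl

/-!
# A uniqueness theorem in domains slightly smaller than a half-plane
-/

set_option autoImplicit false

open Set Filter Topology Metric

namespace Pool.Agent.K9h84.CI

open Pool.Agent.K9h3.TC

/-- auxiliary function of order `6 / 7` -/
noncomputable def pw (w : ℂ) : ℂ :=
  Complex.exp (((6 / 7 : ℝ) : ℂ) * Complex.log (1 - Complex.I * w))

theorem norm_one_sub (w : ℂ) : ‖1 - Complex.I * w‖ = ‖w + Complex.I‖ := by
  have h1 : 1 - Complex.I * w = -Complex.I * (w + Complex.I) := by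
    have := Complex.I_mul_I
    linear_combination this
  rw [h1, norm_mul, norm_neg, Complex.norm_I, one_mul]

theorem pw_re {w : ℂ} (hw : 0 ≤ w.im) :
    Real.cos (3 * Real.pi / 7) * ‖w + Complex.I‖ ^ (6 / 7 : ℝ) ≤ (pw w).re := by
  have hπ := Real.pi_pos
  have hre : 0 < (1 - Complex.I * w).re := by
    rw [Complex.sub_re, Complex.one_re, Complex.I_mul_re]
    linarith
  have hne : (1 - Complex.I * w) ≠ 0 := by
    intro h
    rw [h, Complex.zero_re] at hre
    exact lt_irrefl _ hre
  have hnp : 0 < ‖1 - Complex.I * w‖ := norm_pos_iff.2 hne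
  have harg : |(1 - Complex.I * w).arg| < Real.pi / 2 :=
    Complex.abs_arg_lt_pi_div_two_iff.2 (Or.inl hre)
  unfold pw
  rw [Complex.exp_re, Complex.re_ofReal_mul, Complex.im_ofReal_mul, Complex.log_re, Complex.log_im,
    ← norm_one_sub, Real.rpow_def_of_pos hnp, mul_comm, mul_comm (Real.log _)]
  refine mul_le_mul_of_nonneg_left ?_ (Real.exp_pos _).le
  rw [← Real.cos_abs (6 / 7 * _)]
  refine Real.cos_le_cos_of_nonneg_of_le_pi (abs_nonneg _) ?_ ?_
  · linarith
  · rw [abs_mul, abs_of_pos (by norm_num : (0 : ℝ) < 6 / 7)]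
    linarith

theorem pw_diff {w : ℂ} (hw : 0 ≤ w.im) : DifferentiableAt ℂ pw w := by
  have hre : 0 < (1 - Complex.I * w).re := by
    rw [Complex.sub_re, Complex.one_re, Complex.I_mul_re]
    linarith
  have hsv : 1 - Complex.I * w ∈ Complex.slitPlane := Or.inl hre
  have h1 : DifferentiableAt ℂ (fun w : ℂ => Complex.log (1 - Complex.I * w)) w :=
    DifferentiableAt.clog (by fun_prop) hsv
  exact (h1.const_mul _).cexp

theorem pw_imag {y : ℝ} (hy : 0 ≤ y) :
    (pw ((y : ℂ) * Complex.I)).re = (1 + y) ^ (6 / 7 : ℝ) := by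
  have h1 : 1 - Complex.I * ((y : ℂ) * Complex.I) = ((1 + y : ℝ) : ℂ) := by
    have := Complex.I_mul_I
    push_cast
    linear_combination -(y : ℂ) * this
  unfold pw
  rw [h1, ← Complex.ofReal_log (by linarith), ← Complex.ofReal_mul, Complex.exp_ofReal_re,
    Real.rpow_def_of_pos (by linarith), mul_comm]

theorem li_dom {φ : ℂ → ℂ} {U : Set ℂ} (hU : IsOpen U) (hpos : ∀ z ∈ closure U, 0 ≤ z.im)
    (hφ : ∀ z ∈ closure U, DifferentiableAt ℂ φ z) {C c : ℝ} (hc : 0 < c)
    (hb : ∀ z ∈ closure U, ‖φ z‖ ≤ C * Real.exp (-(c * max z.re 0))) {A : ℝ} (hA : 0 < A)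
    (hbd : ∀ z : ℂ, 0 ≤ z.im → z ∉ U → z.im + 1 ≤ A * ‖z + Complex.I‖ ^ (6 / 7 : ℝ)) :
    ∃ Y0 : ℝ, ∀ y : ℝ, Y0 ≤ y → (y : ℂ) * Complex.I ∈ U → φ ((y : ℂ) * Complex.I) = 0 := by
  have hπ := Real.pi_pos
  set q : ℝ := Real.cos (3 * Real.pi / 7) with hq
  have hqp : 0 < q := by
    apply Real.cos_pos_of_mem_Ioo
    constructor <;> linarith
  set κ : ℝ := A / (Real.pi * q) with hκ
  have hκp : 0 < κ := by positivity
  refine ⟨(Real.pi * κ) ^ 7, fun y hy hyU => ?_⟩
  have hy0 : 0 < y := lt_of_lt_of_le (by positivity) hy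
  have hC : 0 ≤ C := by
    have h1 := (norm_nonneg _).trans (hb _ (subset_closure hyU))
    exact nonneg_of_mul_nonneg_left h1 (Real.exp_pos _)
  set w0 : ℂ := (y : ℂ) * Complex.I with hw0
  have hw0re : w0.re = 0 := by rw [hw0]; simp
  have hw0im : w0.im = y := by rw [hw0]; simp
  have hw0n : ‖w0‖ = y := by
    rw [hw0, norm_mul, Complex.norm_I, mul_one, Complex.norm_real, Real.norm_of_nonneg hy0.le]
  have hw0I : ‖w0 + Complex.I‖ = 1 + y := by
    have : w0 + Complex.I = ((1 + y : ℝ) : ℂ) * Complex.I := by
      rw [hw0]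
      push_cast
      ring
    rw [this, norm_mul, Complex.norm_I, mul_one, Complex.norm_real,
      Real.norm_of_nonneg (by linarith)]
  -- the gain
  set g : ℝ := (1 + y) / Real.pi - κ * (1 + y) ^ (6 / 7 : ℝ) with hg
  have hgp : 0 < g := by
    have h1 : 0 < 1 + y := by linarith
    have h2 : Real.pi * κ < (1 + y) ^ (1 / 7 : ℝ) := by
      by_contra hcon
      push Not at hcon
      have h3 : ((1 + y) ^ (1 / 7 : ℝ)) ^ 7 = 1 + y := by
        rw [← Real.rpow_natCast, ← Real.rpow_mul h1.le]
        norm_num
      have h4 : ((1 + y) ^ (1 / 7 : ℝ)) ^ 7 ≤ (Real.pi * κ) ^ 7 :=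
        pow_le_pow_left₀ (Real.rpow_nonneg h1.le _) hcon 7
      linarith
    have h4 : (1 + y) = (1 + y) ^ (1 / 7 : ℝ) * (1 + y) ^ (6 / 7 : ℝ) := by
      rw [← Real.rpow_add h1]
      norm_num
    have h5 : 0 < (1 + y) ^ (6 / 7 : ℝ) := Real.rpow_pos_of_pos h1 _
    have h6 : Real.pi * (κ * (1 + y) ^ (6 / 7 : ℝ)) < 1 + y := by
      nth_rw 2 [h4]
      nlinarith
    rw [hg, sub_pos, lt_div_iff₀ hπ]
    linarith
  have key : ∀ L : ℝ, 1 ≤ L → y < L → ‖φ w0‖ ≤
      C * Real.exp (c * ((1 + y) / Real.pi * Real.log (1 + y) - g * Real.log L)) := by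
    intro L hL1 hL
    have hLp : 0 < L := by linarith
    have hlogL : 0 ≤ Real.log L := Real.log_nonneg hL1
    set G : ℂ → ℂ := fun w => (Complex.I / Real.pi) * (w + Complex.I) *
      (Complex.log (w + Complex.I) - ((Real.log L : ℝ) : ℂ)) + w with hG
    set F : ℂ → ℂ := fun w => G w - ((κ * Real.log L : ℝ) : ℂ) * pw w with hF
    set f : ℂ → ℂ := fun w => φ w * Complex.exp (c * F w) with hf
    set V : Set ℂ := U ∩ ball 0 L with hV
    have hVo : IsOpen V := hU.inter isOpen_ball
    have hcl : closure V ⊆ closure U ∩ closedBall 0 L := by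
      refine closure_minimal ?_ (isClosed_closure.inter isClosed_closedBall)
      exact inter_subset_inter subset_closure ball_subset_closedBall
    have hGre : ∀ w : ℂ, (G w).re = w.re - (w.re * (w + Complex.I).arg +
        (w.im + 1) * (Real.log ‖w + Complex.I‖ - Real.log L)) / Real.pi := by
      intro w
      rw [hG]
      simp only
      rw [re_aux]
      simp
    have hFre : ∀ w : ℂ, (F w).re = (G w).re - κ * Real.log L * (pw w).re := by
      intro w
      rw [hF]
      simp only
      rw [Complex.sub_re, Complex.re_ofReal_mul]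
    have hfn : ∀ w ∈ closure U, ‖f w‖ ≤ C * Real.exp (c * ((F w).re - max w.re 0)) := by
      intro w hw
      rw [hf]
      simp only
      rw [norm_mul, Complex.norm_exp, Complex.re_ofReal_mul]
      calc ‖φ w‖ * Real.exp (c * (F w).re) ≤
          (C * Real.exp (-(c * max w.re 0))) * Real.exp (c * (F w).re) :=
            mul_le_mul_of_nonneg_right (hb w hw) (Real.exp_pos _).le
        _ = C * Real.exp (c * ((F w).re - max w.re 0)) := by
            rw [mul_assoc, ← Real.exp_add]
            congr 2
            ring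
    have hd : DiffContOnCl ℂ f V := by
      apply DifferentiableOn.diffContOnCl
      intro w hw
      have hw2 := hcl hw
      have hwim : 0 ≤ w.im := hpos w hw2.1
      apply DifferentiableAt.differentiableWithinAt
      have h2 : DifferentiableAt ℂ φ w := hφ w hw2.1
      have hsv : w + Complex.I ∈ Complex.slitPlane := by
        right
        have : (w + Complex.I).im = w.im + 1 := by simp
        rw [this]
        linarith
      have h3 : DifferentiableAt ℂ G w := by
        have h4 : DifferentiableAt ℂ (fun w : ℂ => Complex.log (w + Complex.I)) w :=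
          DifferentiableAt.clog (by fun_prop) hsv
        rw [hG]
        fun_prop
      have h5 : DifferentiableAt ℂ F w := h3.sub ((pw_diff hwim).const_mul _)
      exact h2.mul (h5.const_mul _).cexp
    have hfr : ∀ w ∈ frontier V, ‖f w‖ ≤ C * Real.exp (c * 0) := by
      intro w hw
      have hwc : w ∈ closure V := frontier_subset_closure hw
      have hwn : w ∉ V := by
        rw [hVo.frontier_eq] at hw
        exact hw.2
      have hw2 := hcl hwc
      have hwim : 0 ≤ w.im := hpos w hw2.1
      have hwL : ‖w‖ ≤ L := by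
        have := hw2.2
        rwa [mem_closedBall_zero_iff] at this
      refine (hfn w hw2.1).trans ?_
      have hnorm : ‖w + Complex.I‖ ^ 2 = ‖w‖ ^ 2 + 2 * w.im + 1 := by
        rw [← Complex.normSq_eq_norm_sq, ← Complex.normSq_eq_norm_sq, Complex.normSq_apply,
          Complex.normSq_apply]
        simp
        ring
      have hn1 : 1 ≤ ‖w + Complex.I‖ := by
        apply le_of_sq_le_sq _ (norm_nonneg _)
        rw [hnorm]
        nlinarith [sq_nonneg ‖w‖]
      have harg0 : 0 ≤ (w + Complex.I).arg := by
        rw [Complex.arg_nonneg_iff]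
        have : (w + Complex.I).im = w.im + 1 := by simp
        rw [this]
        linarith
      have hargπ : (w + Complex.I).arg ≤ Real.pi := Complex.arg_le_pi _
      have hAa : w.re - w.re * (w + Complex.I).arg / Real.pi ≤ max w.re 0 := by
        have h1 : 0 ≤ 1 - (w + Complex.I).arg / Real.pi := by
          rw [sub_nonneg, div_le_one hπ]
          exact hargπ
        have h2 : 1 - (w + Complex.I).arg / Real.pi ≤ 1 := by
          have : 0 ≤ (w + Complex.I).arg / Real.pi := by positivity
          linarith
        have h3 : w.re - w.re * (w + Complex.I).arg / Real.pi =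
            w.re * (1 - (w + Complex.I).arg / Real.pi) := by ring
        rw [h3]
        rcases le_total w.re 0 with h4 | h4
        · exact (mul_nonpos_of_nonpos_of_nonneg h4 h1).trans (le_max_right _ _)
        · exact (mul_le_of_le_one_right h4 h2).trans (le_max_left _ _)
      have hpw := pw_re hwim
      have hpw0 : 0 ≤ (pw w).re := le_trans (by positivity) hpw
      have hB : -((w.im + 1) * (Real.log ‖w + Complex.I‖ - Real.log L)) / Real.pi ≤
          κ * Real.log L * (pw w).re := by
        by_cases hwU : w ∈ U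
        · have hwL2 : L ≤ ‖w + Complex.I‖ := by
            have h0 : L ≤ ‖w‖ := by
              by_contra hne
              exact hwn ⟨hwU, by rw [mem_ball_zero_iff]; exact not_le.1 hne⟩
            apply le_of_sq_le_sq _ (norm_nonneg _)
            rw [hnorm]
            nlinarith
          have h2 := Real.log_le_log hLp hwL2
          have h3 : -((w.im + 1) * (Real.log ‖w + Complex.I‖ - Real.log L)) / Real.pi ≤ 0 := by
            apply div_nonpos_of_nonpos_of_nonneg _ hπ.le
            nlinarith
          have h4 : 0 ≤ κ * Real.log L * (pw w).re := by positivity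
          linarith
        · have h1 := hbd w hwim hwU
          have h2 := Real.log_nonneg hn1
          have h3 : -((w.im + 1) * (Real.log ‖w + Complex.I‖ - Real.log L)) ≤
              (w.im + 1) * Real.log L := by nlinarith
          have h4 : κ * Real.log L * (q * ‖w + Complex.I‖ ^ (6 / 7 : ℝ)) ≤
              κ * Real.log L * (pw w).re := mul_le_mul_of_nonneg_left hpw (by positivity)
          have h5 : κ * Real.log L * (q * ‖w + Complex.I‖ ^ (6 / 7 : ℝ)) =
              (A * ‖w + Complex.I‖ ^ (6 / 7 : ℝ)) * Real.log L / Real.pi := by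
            rw [hκ]
            field_simp
          refine le_trans ?_ (le_trans h5.symm.le h4)
          refine div_le_div_of_nonneg_right (h3.trans ?_) hπ.le
          exact mul_le_mul_of_nonneg_right h1 hlogL
      have hfin : (F w).re - max w.re 0 ≤ 0 := by
        rw [hFre, hGre, add_div]
        have h5 : -((w.im + 1) * (Real.log ‖w + Complex.I‖ - Real.log L)) / Real.pi =
          -((w.im + 1) * (Real.log ‖w + Complex.I‖ - Real.log L) / Real.pi) := by
          rw [neg_div]
        rw [h5] at hB
        linarith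
      gcongr
    have hwU : w0 ∈ closure V := subset_closure ⟨hyU, by rw [mem_ball_zero_iff, hw0n]; exact hL⟩
    have hmain := Complex.norm_le_of_forall_mem_frontier_norm_le
      (Metric.isBounded_ball.subset inter_subset_right) hd hfr hwU
    rw [mul_zero, Real.exp_zero, mul_one, hf] at hmain
    simp only at hmain
    rw [norm_mul, Complex.norm_exp, Complex.re_ofReal_mul, hFre, hGre, hw0re, hw0im, hw0I,
      pw_imag hy0.le] at hmain
    have e1 : 0 - (0 * (w0 + Complex.I).arg + (y + 1) * (Real.log (1 + y) - Real.log L)) / Real.pi -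
        κ * Real.log L * (1 + y) ^ (6 / 7 : ℝ) =
        -((1 + y) / Real.pi * Real.log (1 + y) - g * Real.log L) := by
      rw [hg]
      ring
    rw [e1] at hmain
    have h9 : ‖φ w0‖ = (‖φ w0‖ * Real.exp (c * -((1 + y) / Real.pi * Real.log (1 + y) -
        g * Real.log L))) * Real.exp (c * ((1 + y) / Real.pi * Real.log (1 + y) -
        g * Real.log L)) := by
      rw [mul_assoc, ← Real.exp_add, ← mul_add, neg_add_cancel, mul_zero, Real.exp_zero, mul_one]
    rw [h9]
    exact mul_le_mul_of_nonneg_right hmain (Real.exp_pos _).le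
  -- let the radius tend to infinity
  have hlim : Tendsto (fun L : ℝ => C * Real.exp (c * ((1 + y) / Real.pi * Real.log (1 + y) -
      g * Real.log L))) atTop (𝓝 (C * 0)) := by
    apply Tendsto.const_mul
    apply Real.tendsto_exp_atBot.comp
    apply Tendsto.const_mul_atBot hc
    have h1 : Tendsto (fun L : ℝ => g * Real.log L) atTop atTop :=
      Tendsto.const_mul_atTop hgp Real.tendsto_log_atTop
    exact tendsto_atBot_add_const_left _ _ (tendsto_neg_atTop_atBot.comp h1)
  rw [mul_zero] at hlim
  have h10 : ‖φ w0‖ ≤ 0 := by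
    refine ge_of_tendsto hlim ?_
    filter_upwards [eventually_ge_atTop 1, eventually_gt_atTop y] with L h1 h2
    exact key L h1 h2
  exact norm_le_zero_iff.1 h10

end Pool.Agent.K9h84.CI
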