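import Pool.Agent.K9h84.CI.Step

/-!
# Limits of curves and curves inside the strata

Ultralimits of sequences of curves with a uniform logarithmic derivative bound, ratios of
parallel holomorphic vectors, and the classification of curves contained in one of the two
plane curves.
-/

set_option autoImplicit false

open Set Filter Topology Metric

namespace Pool.Agent.K9h84.CI

variable {s : ℕ}

/-- a fixed nonprincipal ultrafilter -/
noncomputable abbrev UU : Ultrafilter ℕ := Filter.hyperfilter ℕ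

theorem UU_le : (UU : Filter ℕ) ≤ atTop := Nat.hyperfilter_le_atTop

/-- bounded sequences in a proper space converge along the ultrafilter -/
theorem exists_ulim {E : Type*} [NormedAddCommGroup E] [ProperSpace E] {x : ℕ → E} {K : ℝ}
    (h : ∀ n, ‖x n‖ ≤ K) : ∃ y : E, ‖y‖ ≤ K ∧ Tendsto x UU (𝓝 y) := by
  have hcomp := isCompact_closedBall (0 : E) K
  have hle : ((UU.map x : Ultrafilter E) : Filter E) ≤ 𝓟 (closedBall 0 K) := by
    rw [le_principal_iff, Ultrafilter.coe_map, Filter.mem_map]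
    refine Filter.mem_of_superset Filter.univ_mem ?_
    intro n _
    show x n ∈ closedBall 0 K
    rw [mem_closedBall_zero_iff]
    exact h n
  obtain ⟨y, hy, hy2⟩ := hcomp.ultrafilter_le_nhds _ hle
  exact ⟨y, mem_closedBall_zero_iff.1 hy, hy2⟩

/-- Montel for curves with a uniform logarithmic derivative bound -/
theorem exists_lim {v : ℕ → ℂ → VV s} {C K : ℝ} (hC : 0 ≤ C) (hv : ∀ n, Differentiable ℂ (v n))
    (hld : ∀ n z, ‖deriv (v n) z‖ ≤ C * ‖v n z‖) (h0 : ∀ n, ‖v n 0‖ ≤ K) :
    ∃ V : ℂ → VV s, Differentiable ℂ V ∧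
      (∀ (R ε : ℝ), 0 < ε → ∀ᶠ n in (UU : Filter ℕ), ∀ z ∈ closedBall (0 : ℂ) R, ‖v n z - V z‖ < ε) ∧
      (∀ z, Tendsto (fun n => v n z) UU (𝓝 (V z))) ∧
      (∀ z, Tendsto (fun n => deriv (v n) z) UU (𝓝 (deriv V z))) ∧
      (∀ z, ‖deriv V z‖ ≤ C * ‖V z‖) := by
  have hK : 0 ≤ K := (norm_nonneg _).trans (h0 0)
  have hbd : ∀ n z, ‖v n z‖ ≤ K * Real.exp (C * ‖z‖) := by
    intro n z
    have := gronwall (hv n) (hld n) z 0
    rw [dist_zero_right] at this
    exact this.trans (mul_le_mul_of_nonneg_right (h0 n) (Real.exp_pos _).le)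
  have hpt : ∀ z, ∃ y : VV s, Tendsto (fun n => v n z) UU (𝓝 y) := fun z => by
    obtain ⟨y, -, hy⟩ := exists_ulim (x := fun n => v n z) (fun n => hbd n z)
    exact ⟨y, hy⟩
  choose V hV using hpt
  -- uniform Lipschitz bound on balls
  have hlip : ∀ R : ℝ, ∀ n, ∀ x ∈ ball (0 : ℂ) R, ∀ y ∈ ball (0 : ℂ) R,
      ‖v n y - v n x‖ ≤ (C * (K * Real.exp (C * R))) * ‖y - x‖ := by
    intro R n x hx y hy
    refine (convex_ball (0 : ℂ) R).norm_image_sub_le_of_norm_deriv_le
      (fun z _ => (hv n z)) (fun z hz => ?_) hx hy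
    refine (hld n z).trans (mul_le_mul_of_nonneg_left ?_ hC)
    refine (hbd n z).trans ?_
    have : ‖z‖ ≤ R := by
      rw [mem_ball_zero_iff] at hz
      exact hz.le
    gcongr
  have hlipV : ∀ R : ℝ, ∀ x ∈ ball (0 : ℂ) R, ∀ y ∈ ball (0 : ℂ) R,
      ‖V y - V x‖ ≤ (C * (K * Real.exp (C * R))) * ‖y - x‖ := by
    intro R x hx y hy
    have h1 : Tendsto (fun n => ‖v n y - v n x‖) UU (𝓝 ‖V y - V x‖) :=
      ((hV y).sub (hV x)).norm
    exact le_of_tendsto h1 (Eventually.of_forall fun n => hlip R n x hx y hy)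
  have hlu : TendstoLocallyUniformlyOn v V (UU : Filter ℕ) univ := by
    rw [Metric.tendstoLocallyUniformlyOn_iff]
    intro ε hε x _
    set R : ℝ := ‖x‖ + 1 with hR
    set L : ℝ := C * (K * Real.exp (C * R)) + 1 with hL
    have hLp : 0 < L := by positivity
    have hxR : x ∈ ball (0 : ℂ) R := by rw [mem_ball_zero_iff]; linarith
    refine ⟨ball x (min 1 (ε / (4 * L))), mem_nhdsWithin_of_mem_nhds
      (ball_mem_nhds _ (by positivity)), ?_⟩
    have hx' : ∀ᶠ n in (UU : Filter ℕ), dist (v n x) (V x) < ε / 4 :=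
      (Metric.tendsto_nhds.1 (hV x)) _ (by positivity)
    filter_upwards [hx'] with n hn y hy
    have hy1 : dist y x < 1 := lt_of_lt_of_le hy (min_le_left _ _)
    have hy2 : dist y x < ε / (4 * L) := lt_of_lt_of_le hy (min_le_right _ _)
    have hyR : y ∈ ball (0 : ℂ) R := by
      rw [mem_ball_zero_iff]
      have h1 := norm_sub_norm_le y x
      rw [dist_eq_norm] at hy1
      linarith
    have hy3 : L * ‖y - x‖ < ε / 4 := by
      rw [← dist_eq_norm]
      calc L * dist y x < L * (ε / (4 * L)) := by gcongr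
        _ = ε / 4 := by field_simp
    have h1 : ‖v n y - v n x‖ ≤ L * ‖y - x‖ := (hlip R n x hxR y hyR).trans
      (mul_le_mul_of_nonneg_right (by linarith) (norm_nonneg _))
    have h2 : ‖V y - V x‖ ≤ L * ‖y - x‖ := (hlipV R x hxR y hyR).trans
      (mul_le_mul_of_nonneg_right (by linarith) (norm_nonneg _))
    calc dist (V y) (v n y) ≤ dist (V y) (V x) + dist (V x) (v n x) + dist (v n x) (v n y) :=
          dist_triangle4 _ _ _ _
      _ < ε := by
          rw [dist_comm (V x), dist_comm (v n x) (v n y), dist_eq_norm (V y), dist_eq_norm (v n y)]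
          linarith
  have hVd : Differentiable ℂ V := by
    rw [← differentiableOn_univ]
    exact hlu.differentiableOn (Eventually.of_forall fun n => (hv n).differentiableOn) isOpen_univ
  have hder := hlu.deriv (Eventually.of_forall fun n => (hv n).differentiableOn) isOpen_univ
  have hder' : ∀ z, Tendsto (fun n => deriv (v n) z) UU (𝓝 (deriv V z)) := fun z =>
    hder.tendsto_at (mem_univ z)
  refine ⟨V, hVd, ?_, hV, hder', ?_⟩
  · intro R ε hε
    have h1 := (tendstoLocallyUniformlyOn_iff_forall_isCompact isOpen_univ).1 hlu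
      (closedBall 0 R) (subset_univ _) (isCompact_closedBall _ _)
    rw [Metric.tendstoUniformlyOn_iff] at h1
    filter_upwards [h1 ε hε] with n hn z hz
    have := hn z hz
    rwa [dist_comm, dist_eq_norm] at this
  · intro z
    exact le_of_tendsto_of_tendsto (hder' z).norm ((hV z).norm.const_mul C)
      (Eventually.of_forall fun n => hld n z)

/-- the ratio of parallel holomorphic vectors is holomorphic -/
theorem exists_ratio {V N : ℂ → VV s} {O : Set ℂ} (hO : IsOpen O) (hV : DifferentiableOn ℂ V O)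
    (hN : DifferentiableOn ℂ N O) (hN0 : ∀ z ∈ O, N z ≠ 0) (hpar : ∀ z ∈ O, cr (V z) (N z) = 0) :
    ∃ l : ℂ → ℂ, DifferentiableOn ℂ l O ∧ ∀ z ∈ O, V z = l z • N z := by
  have h1 : ∀ z, ∃ c : ℂ, z ∈ O → V z = c • N z := by
    intro z
    by_cases hz : z ∈ O
    · obtain ⟨j, hj⟩ : ∃ j, N z j ≠ 0 := by
        by_contra hcon
        push Not at hcon
        exact hN0 z hz (funext hcon)
      exact ⟨_, fun _ => parallel (hpar z hz) hj⟩
    · exact ⟨0, fun h => absurd h hz⟩
  choose l hl using h1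
  refine ⟨l, fun z hz => ?_, fun z hz => hl z hz⟩
  obtain ⟨j, hj⟩ : ∃ j, N z j ≠ 0 := by
    by_contra hcon
    push Not at hcon
    exact hN0 z hz (funext hcon)
  have hVj : DifferentiableAt ℂ (fun w => V w j) z :=
    (differentiableAt_pi.1 ((hV z hz).differentiableAt (hO.mem_nhds hz))) j
  have hNj : DifferentiableAt ℂ (fun w => N w j) z :=
    (differentiableAt_pi.1 ((hN z hz).differentiableAt (hO.mem_nhds hz))) j
  have hev : l =ᶠ[𝓝 z] fun w => V w j / N w j := by
    have h2 : ∀ᶠ w in 𝓝 z, N w j ≠ 0 := hNj.continuousAt.eventually_ne hj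
    filter_upwards [h2, hO.mem_nhds hz] with w hw hwO
    have h3 := congrFun (hl w hwO) j
    rw [Pi.smul_apply, smul_eq_mul] at h3
    rw [h3, mul_div_cancel_right₀ _ hw]
  exact ((hVj.div hNj hj).congr_of_eventuallyEq hev).differentiableWithinAt

theorem par_trans {a b n : VV s} (hn : n ≠ 0) (h1 : cr a n = 0) (h2 : cr b n = 0) : cr a b = 0 := by
  obtain ⟨j, hj⟩ : ∃ j, n j ≠ 0 := by
    by_contra hcon
    push Not at hcon
    exact hn (funext hcon)
  rw [parallel h1 hj, parallel h2 hj, smul_cr, cr_smul, cr_self, smul_zero, smul_zero]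

namespace Pair

variable (D : Pair s)

theorem N_dif_comp {W : ℂ → VV s} (hW : Differentiable ℂ W) : Differentiable ℂ (fun z => D.N (W z)) := by
  have h1 : (fun z => D.N (W z)) = (fun p : VV s × VV s => D.NN p.1 p.2) ∘ (fun z => (W z, W z)) := by
    funext z
    exact (D.NN_diag (W z)).symm
  rw [h1]
  exact D.NN_dif.comp (hW.prodMk hW)

/-- derivative of a form along a curve on which the form is constant -/
theorem orth_p {W : ℂ → VV s} (hW : Differentiable ℂ W) {α : ℂ} (hp : ∀ z, D.p (W z) = α) (z : ℂ) :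
    dt (gr D.P (W z)) (deriv W z) = 0 := by
  have hd : HasDerivAt (fun t => MvPolynomial.eval (W t) D.P) (dt (gr D.P (W z)) (deriv W z)) z :=
    D.hA.hasDerivAt (hW z).hasDerivAt
  have hc : (fun t => MvPolynomial.eval (W t) D.P) = fun _ => α := funext hp
  rw [hc] at hd
  exact hd.unique (hasDerivAt_const _ _)

theorem orth_q {W : ℂ → VV s} (hW : Differentiable ℂ W) {α : ℂ} (hq : ∀ z, D.q (W z) = α) (z : ℂ) :
    dt (gr D.Q (W z)) (deriv W z) = 0 := D.swap.orth_p hW hq z

theorem orth_R {W : ℂ → VV s} (hW : Differentiable ℂ W) (hon : ∀ z, D.on (W z)) (i : Fin s) (z : ℂ) :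
    dt (gr (D.R i) (W z)) (deriv W z) = 0 := by
  have hd : HasDerivAt (fun t => MvPolynomial.eval (W t) (D.R i))
      (dt (gr (D.R i) (W z)) (deriv W z)) z := (D.hRR i).hasDerivAt (hW z).hasDerivAt
  have hc : (fun t => MvPolynomial.eval (W t) (D.R i)) = fun _ => 0 := funext fun t => hon t i
  rw [hc] at hd
  exact hd.unique (hasDerivAt_const _ _)

theorem p_zero : D.p 0 = 0 := by
  have h1 := D.p_smul 0 0
  rwa [zero_smul, zero_pow (by have := D.ha; omega), zero_mul] at h1

/-- a lower bound for the length from a nonzero value of the form -/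
theorem low_of_p {α : ℂ} (hα : α ≠ 0) : ∃ c : ℝ, 0 < c ∧ ∀ x, D.p x = α → c ≤ ‖x‖ := by
  obtain ⟨C, hC, hp⟩ := D.p_le
  by_contra hcon
  push Not at hcon
  have h1 : ∀ n : ℕ, ∃ x, D.p x = α ∧ ‖x‖ < 1 / ((n : ℝ) + 1) := fun n => by
    obtain ⟨x, hx, hx2⟩ := hcon (1 / ((n : ℝ) + 1)) (by positivity)
    exact ⟨x, hx, hx2⟩
  choose x hx hx2 using h1
  have h2 : Tendsto (fun n => ‖x n‖) atTop (𝓝 0) :=
    squeeze_zero (fun n => norm_nonneg _) (fun n => (hx2 n).le) tendsto_one_div_add_atTop_nhds_zero_nat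
  have h3 : Tendsto (fun n => D.p (x n)) atTop (𝓝 (D.p 0)) :=
    (D.p_cont.tendsto 0).comp (tendsto_zero_iff_norm_tendsto_zero.2 h2)
  simp only [hx] at h3
  have h4 := tendsto_nhds_unique h3 tendsto_const_nhds
  rw [D.p_zero] at h4
  exact hα h4.symm

theorem N_lower_zero : ∃ c : ℝ, 0 < c ∧ ∀ x, x ≠ 0 → D.on x → D.p x * D.q x = 0 →
    c * ‖x‖ ^ (D.k + 1) ≤ ‖D.N x‖ := by
  obtain ⟨c, hc, h⟩ := D.N_lower
  refine ⟨c, hc, fun x hx hon h0 => ?_⟩
  rcases h x hx hon with h1 | h1
  · exact h1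
  · exfalso
    rw [← norm_mul, h0, norm_zero] at h1
    have : 0 < ‖x‖ := norm_pos_iff.2 hx
    have : 0 < c * ‖x‖ ^ (D.a + D.b) := by positivity
    linarith

/-- curves of bounded logarithmic derivative inside the second curve and off the first one are
constant -/
theorem strat (hk : 1 ≤ D.k) {W : ℂ → VV s} (hW : Differentiable ℂ W) {C : ℝ}
    (hld : ∀ z, ‖deriv W z‖ ≤ C * ‖W z‖) {α : ℂ} (hα : α ≠ 0) (hp : ∀ z, D.p (W z) = α)
    (hq : ∀ z, D.q (W z) = 0) (hon : ∀ z, D.on (W z)) : ∀ z, W z = W 0 := by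
  have hne : ∀ z, W z ≠ 0 := fun z h => by
    have := hp z
    rw [h, D.p_zero] at this
    exact hα this.symm
  obtain ⟨c, hc, hN⟩ := D.N_lower_zero
  obtain ⟨c1, hc1, hlow⟩ := D.low_of_p hα
  have hN' : ∀ z, c * ‖W z‖ ^ (D.k + 1) ≤ ‖D.N (W z)‖ := fun z =>
    hN (W z) (hne z) (hon z) (by rw [hq, mul_zero])
  have hNne : ∀ z, D.N (W z) ≠ 0 := fun z => D.N_ne (hne z) (hon z) (by rw [hq, mul_zero])
  have hpar : ∀ z, cr (deriv W z) (D.N (W z)) = 0 := fun z =>
    D.par_N (D.orth_p hW hp z) (D.orth_q hW hq z) fun i => D.orth_R hW hon i z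
  have hWd : Differentiable ℂ (deriv W) := fun z => hW.deriv z
  obtain ⟨l, hl, hWl⟩ := exists_ratio isOpen_univ hWd.differentiableOn
    (D.N_dif_comp hW).differentiableOn (fun z _ => hNne z) (fun z _ => hpar z)
  rw [differentiableOn_univ] at hl
  have hlb : ∀ z, ‖l z‖ * (c * ‖W z‖ ^ D.k) ≤ C := by
    intro z
    have h1 := hld z
    rw [hWl z (mem_univ z), norm_smul] at h1
    have h2 : ‖l z‖ * (c * ‖W z‖ ^ (D.k + 1)) ≤ C * ‖W z‖ :=
      (mul_le_mul_of_nonneg_left (hN' z) (norm_nonneg _)).trans h1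
    have h3 : 0 < ‖W z‖ := norm_pos_iff.2 (hne z)
    rw [pow_succ] at h2
    have h4 : (‖l z‖ * (c * ‖W z‖ ^ D.k)) * ‖W z‖ ≤ C * ‖W z‖ := by linarith
    exact le_of_mul_le_mul_right h4 h3
  have hlb2 : ∀ z, ‖l z‖ ≤ C / (c * c1 ^ D.k) := by
    intro z
    rw [le_div_iff₀ (by positivity)]
    refine le_trans ?_ (hlb z)
    have h1 := hlow (W z) (hp z)
    gcongr
  have hlc : ∀ z, l z = l 0 := by
    intro z
    refine hl.apply_eq_apply_of_bounded ?_ z 0
    rw [isBounded_iff_forall_norm_le]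
    refine ⟨C / (c * c1 ^ D.k), ?_⟩
    rintro _ ⟨w, rfl⟩
    exact hlb2 w
  by_cases hl0 : l 0 = 0
  · intro z
    refine is_const_of_deriv_eq_zero hW (fun w => ?_) z 0
    rw [hWl w (mem_univ w), hlc w, hl0, zero_smul]
  · exfalso
    have hlp : 0 < ‖l 0‖ := norm_pos_iff.2 hl0
    have hWb : ∀ z, ‖W z‖ ≤ max 1 (C / (‖l 0‖ * c)) := by
      intro z
      by_cases h1 : ‖W z‖ ≤ 1
      · exact h1.trans (le_max_left _ _)
      · push Not at h1
        refine le_trans ?_ (le_max_right _ _)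
        rw [le_div_iff₀ (by positivity)]
        have h2 := hlb z
        rw [hlc z] at h2
        have h3 : ‖W z‖ ≤ ‖W z‖ ^ D.k := le_self_pow₀ h1.le (by omega)
        calc ‖W z‖ * (‖l 0‖ * c) ≤ ‖W z‖ ^ D.k * (‖l 0‖ * c) := by gcongr
          _ = ‖l 0‖ * (c * ‖W z‖ ^ D.k) := by ring
          _ ≤ C := h2
    have hWc : ∀ z, W z = W 0 := by
      intro z
      refine hW.apply_eq_apply_of_bounded ?_ z 0
      rw [isBounded_iff_forall_norm_le]
      refine ⟨max 1 (C / (‖l 0‖ * c)), ?_⟩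
      rintro _ ⟨w, rfl⟩
      exact hWb w
    have h5 : deriv W 0 = 0 := by
      have : W = fun _ => W 0 := funext hWc
      rw [this]
      exact deriv_const _ _
    rw [hWl 0 (mem_univ 0)] at h5
    rcases smul_eq_zero.1 h5 with h6 | h6
    · exact hl0 h6
    · exact hNne 0 h6

/-- curves of bounded logarithmic derivative over a crossing point are exponentials -/
theorem strat0 {W : ℂ → VV s} (hW : Differentiable ℂ W) (hne : ∀ z, W z ≠ 0) {C : ℝ}
    (hld : ∀ z, ‖deriv W z‖ ≤ C * ‖W z‖) (hp : ∀ z, D.p (W z) = 0)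
    (hq : ∀ z, D.q (W z) = 0) (hon : ∀ z, D.on (W z)) :
    ∃ a : ℂ, ∀ z, W z = Complex.exp (a * z) • W 0 := by
  have hNne : ∀ z, D.N (W z) ≠ 0 := fun z => D.N_ne (hne z) (hon z) (by rw [hq, mul_zero])
  have hpar : ∀ z, cr (deriv W z) (D.N (W z)) = 0 := fun z =>
    D.par_N (D.orth_p hW hp z) (D.orth_q hW hq z) fun i => D.orth_R hW hon i z
  have hpar2 : ∀ z, cr (W z) (D.N (W z)) = 0 := by
    intro z
    have eP := euler D.hP (W z)
    have eQ := euler D.hQ (W z)
    have h1 : MvPolynomial.eval (W z) D.P = 0 := hp z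
    have h2 : MvPolynomial.eval (W z) D.Q = 0 := hq z
    refine D.par_N ?_ ?_ fun i => ?_
    · rw [dt_comm, eP, h1, mul_zero]
    · rw [dt_comm, eQ, h2, mul_zero]
    · rw [dt_comm]
      exact D.euler_on (hon z) i
  have hpar3 : ∀ z, cr (deriv W z) (W z) = 0 :=
    fun z => par_trans (hNne z) (hpar z) (hpar2 z)
  have hWd : Differentiable ℂ (deriv W) := fun z => hW.deriv z
  obtain ⟨l, hl, hWl⟩ := exists_ratio isOpen_univ hWd.differentiableOn
    hW.differentiableOn (fun z _ => hne z) (fun z _ => hpar3 z)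
  rw [differentiableOn_univ] at hl
  have hlb : ∀ z, ‖l z‖ ≤ C := by
    intro z
    have h1 := hld z
    rw [hWl z (mem_univ z), norm_smul] at h1
    exact le_of_mul_le_mul_right h1 (norm_pos_iff.2 (hne z))
  have hlc : ∀ z, l z = l 0 := by
    intro z
    refine hl.apply_eq_apply_of_bounded ?_ z 0
    rw [isBounded_iff_forall_norm_le]
    refine ⟨C, ?_⟩
    rintro _ ⟨w, rfl⟩
    exact hlb w
  refine ⟨l 0, fun z => ?_⟩
  have hg : Differentiable ℂ (fun z => Complex.exp (-(l 0 * z)) • W z) := by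
    have : Differentiable ℂ (fun z : ℂ => Complex.exp (-(l 0 * z))) := by fun_prop
    exact this.smul hW
  have hg' : ∀ z, deriv (fun z => Complex.exp (-(l 0 * z)) • W z) z = 0 := by
    intro z
    have h1 : HasDerivAt (fun z : ℂ => Complex.exp (-(l 0 * z)))
        (Complex.exp (-(l 0 * z)) * (-(l 0 * 1))) z :=
      (((hasDerivAt_id z).const_mul (l 0)).neg).cexp
    have h2 := (h1.smul (hW z).hasDerivAt).deriv
    refine h2.trans ?_
    rw [hWl z (mem_univ z), hlc z, smul_smul, ← add_smul]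
    have : Complex.exp (-(l 0 * z)) * l 0 + Complex.exp (-(l 0 * z)) * (-(l 0 * 1)) = 0 := by ring
    rw [this, zero_smul]
  have h3 := is_const_of_deriv_eq_zero hg hg' z 0
  simp only [mul_zero, neg_zero, Complex.exp_zero, one_smul] at h3
  rw [← h3, smul_smul, ← Complex.exp_add, add_neg_cancel, Complex.exp_zero, one_smul]

/-- classification of the degenerate limits: the curve is an exponential multiple of a constant
vector; the exponent is zero when the first form does not vanish -/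
theorem degen (hk : 1 ≤ D.k) {W : ℂ → VV s} (hW : Differentiable ℂ W) (hne : ∀ z, W z ≠ 0) {C : ℝ}
    (hld : ∀ z, ‖deriv W z‖ ≤ C * ‖W z‖) {α β : ℂ} (hαβ : α * β = 0)
    (hp : ∀ z, D.p (W z) = α) (hq : ∀ z, D.q (W z) = β * Complex.exp z) (hon : ∀ z, D.on (W z)) :
    ∃ a : ℂ, (∀ z, W z = Complex.exp (a * z) • W 0) ∧ (α ≠ 0 → a = 0) ∧ (β ≠ 0 → a = 1 / D.b) := by
  have hC : 0 ≤ C := by
    have h1 := (norm_nonneg _).trans (hld 0)
    exact nonneg_of_mul_nonneg_left h1 (norm_pos_iff.2 (hne 0))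
  by_cases hα : α = 0
  · by_cases hβ : β = 0
    · obtain ⟨a, ha⟩ := D.strat0 hW hne hld (fun z => (hp z).trans hα) (fun z => by
        rw [hq, hβ, zero_mul]) hon
      exact ⟨a, ha, fun h => absurd hα h, fun h => absurd hβ h⟩
    · have hb0 : (D.b : ℂ) ≠ 0 := by
        have := D.hb
        exact_mod_cast (by omega : D.b ≠ 0)
      have hed : Differentiable ℂ (fun z : ℂ => Complex.exp (-(z / D.b))) := by fun_prop
      have hW2 : Differentiable ℂ (fun z => Complex.exp (-(z / D.b)) • W z) := hed.smul hW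
      have he' : ∀ z, deriv (fun z : ℂ => Complex.exp (-(z / D.b))) z =
          Complex.exp (-(z / D.b)) * (-(1 / D.b)) := fun z => by
        have h1 : HasDerivAt (fun z : ℂ => -(z / D.b)) (-(1 / D.b)) z :=
          ((hasDerivAt_id z).div_const _).neg
        exact h1.cexp.deriv
      have hbr : (1 : ℝ) ≤ D.b := by exact_mod_cast D.hb
      have hld2 : ∀ z, ‖deriv (fun z => Complex.exp (-(z / D.b)) • W z) z‖ ≤
          (C + 1) * ‖Complex.exp (-(z / D.b)) • W z‖ := by
        intro z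
        have h3 : deriv (fun z => Complex.exp (-(z / D.b)) • W z) z =
            Complex.exp (-(z / D.b)) • deriv W z +
              (Complex.exp (-(z / D.b)) * (-(1 / D.b))) • W z := by
          rw [← he' z]
          exact ((hed z).hasDerivAt.smul (hW z).hasDerivAt).deriv
        rw [h3, norm_smul]
        refine (norm_add_le _ _).trans ?_
        rw [norm_smul, norm_smul, norm_mul, norm_neg, norm_div, norm_one, Complex.norm_natCast]
        have h4 : (1 : ℝ) / D.b ≤ 1 := by
          rw [div_le_one (by linarith)]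
          exact hbr
        have h5 := norm_nonneg (Complex.exp (-(z / D.b)))
        have h6 := mul_le_mul_of_nonneg_left (hld z) h5
        have h7 : ‖Complex.exp (-(z / D.b))‖ * (1 / D.b) * ‖W z‖ ≤
            ‖Complex.exp (-(z / D.b))‖ * 1 * ‖W z‖ := by gcongr
        nlinarith
      have hcon := D.swap.strat hk hW2 hld2 hβ (fun z => by
          show D.q (Complex.exp (-(z / D.b)) • W z) = β
          rw [D.q_smul, hq, ← Complex.exp_nat_mul, mul_comm β, ← mul_assoc, ← Complex.exp_add]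
          have : (D.b : ℂ) * -(z / D.b) + z = 0 := by
            field_simp
            ring
          rw [this, Complex.exp_zero, one_mul])
        (fun z => by
          show D.p (Complex.exp (-(z / D.b)) • W z) = 0
          rw [D.p_smul, hp, hα, mul_zero])
        (fun z => D.on_smul (hon z))
      refine ⟨1 / D.b, fun z => ?_, fun h => absurd hα h, fun _ => rfl⟩
      have h1 := hcon z
      simp only [zero_div, neg_zero, Complex.exp_zero, one_smul] at h1
      rw [← h1, smul_smul, ← Complex.exp_add]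
      have : 1 / (D.b : ℂ) * z + -(z / D.b) = 0 := by ring
      rw [this, Complex.exp_zero, one_smul]
  · have hβ : β = 0 := (mul_eq_zero.1 hαβ).resolve_left hα
    have hcon := D.strat hk hW hld hα hp (fun z => by rw [hq, hβ, zero_mul]) hon
    refine ⟨0, fun z => ?_, fun _ => rfl, fun h => absurd hβ h⟩
    rw [zero_mul, Complex.exp_zero, one_smul]
    exact hcon z

end Pair

end Pool.Agent.K9h84.CI
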