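import Pool.Agent.K9h84.CI.Low

/-!
# Local estimate: curves over large regions are very close to entire curves
-/

set_option autoImplicit false

open Set Filter Topology Metric

namespace Pool.Agent.K9h84.CI

variable {s : ℕ}

namespace Pair

variable (D : Pair s)

theorem exp_per (m : ℕ) (z : ℂ) :
    Complex.exp (((2 * Real.pi * m : ℝ) : ℂ) * Complex.I + z) = Complex.exp z := by
  have h1 : ((2 * Real.pi * m : ℝ) : ℂ) * Complex.I = (m : ℤ) * (2 * Real.pi * Complex.I) := by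
    push_cast
    ring
  rw [Complex.exp_add, h1, Complex.exp_int_mul_two_pi_mul_I, one_mul]

/-- **local estimate** -/
theorem loc (hk : 1 ≤ D.k) {B : ℝ} (hB : 0 ≤ B)
    (hsp : ∀ (z0 : ℂ) (v : ℂ → VV s), DifferentiableOn ℂ v (ball z0 1) →
      (∀ z ∈ ball z0 1, D.on (v z)) → (∀ z ∈ ball z0 1, D.p (v z) = 1) → (∀ z ∈ ball z0 1, D.q (v z) = Complex.exp z) →
      ‖cr (v z0) (deriv v z0)‖ ≤ B * ‖v z0‖ ^ 2) {E Cb : ℝ} (hE : 0 ≤ E)
    (hCb : 0 ≤ Cb) : ∃ Lam R1 : ℝ, 2 ≤ Lam ∧ 1 ≤ R1 ∧ ∀ (t1 : ℂ) (v : ℂ → VV s), R1 ≤ ‖t1‖ →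
      ‖t1‖ / 2 ≤ t1.im → (∀ t : ℂ, 0 < t.im → ‖t1‖ / Lam < ‖t‖ → ‖t‖ < Lam * ‖t1‖ →
        DifferentiableAt ℂ v t ∧ D.p (v t) = 1 ∧ D.q (v t) = Complex.exp t ∧
        Real.log ‖v t‖ ≤ E * ‖t‖ ∧ D.on (v t)) →
      ∃ W : ℂ → VV s, D.Cv B 0 W ∧ ‖v t1 - W t1‖ ≤ Real.exp (-(Cb * ‖t1‖)) := by
  have hπ := Real.pi_pos
  have hπ3 := Real.pi_gt_three
  have hb1 : (1 : ℝ) ≤ D.b := by exact_mod_cast D.hb
  have hbp : (0 : ℝ) < D.b := by linarith
  obtain ⟨δ, hδ, hδ16, ⟨c, C, hc, hC, hlam⟩, huq⟩ := D.uniqD hk hB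
  obtain ⟨K, hK, hlow⟩ := D.low_nat hk hB
  obtain ⟨lam, T0, hlam1, hT01, hlowE⟩ := hlow (2 * E) (by positivity)
  obtain ⟨R0, hR0, huqK⟩ := huq (K + 1) (by positivity)
  obtain ⟨R, hR, hnear⟩ := D.near_cv hB (K := K) (R0 := R0) hδ
  obtain ⟨c1, hc1, hcvl⟩ := D.cv_low'
  set Γ : ℝ := (D.k + 1) * E + Cb + 1 with hΓ
  have hΓp : 0 < Γ := by positivity
  set μ : ℝ := Real.pi * (1 / 4 + (1.1 + 2 * D.b * Γ) / 0.4) with hμ
  have hμ1 : 1 ≤ μ := by
    rw [hμ]
    have h1 : 0 ≤ (1.1 + 2 * D.b * Γ) / 0.4 - 1 := by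
      rw [sub_nonneg, le_div_iff₀ (by norm_num)]
      have : 0 < 2 * D.b * Γ := by positivity
      linarith
    exact one_le_mul_of_one_le_of_one_le (by linarith) (by linarith)
  set la : ℝ := 2 * Real.exp μ with hla
  have hla4 : 4 ≤ la := by
    have := Real.add_one_le_exp μ
    linarith
  set κ : ℝ := 3 * lam * la with hκ
  have hκp : 0 < κ := by positivity
  have hκ12 : 12 ≤ κ := by
    have h1 : 1 * 4 ≤ lam * la := mul_le_mul hlam1 hla4 (by norm_num) (by linarith)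
    have h2 : κ = 3 * (lam * la) := by rw [hκ]; ring
    linarith
  set C' : ℝ := C * δ / c1 ^ D.k with hC'
  have hC'p : 0 < C' := by positivity
  set Cf : ℝ := 1 / c * 2 ^ (D.k + 1) * C' with hCf
  have hCfp : 0 < Cf := by positivity
  set Lam : ℝ := 2 * κ + 100 with hLam
  set R1 : ℝ := T0 + 100 + R + κ ^ 3 / 0.04 ^ 4 + |Real.log Cf| with hR1
  have hκ3 : 0 ≤ κ ^ 3 / 0.04 ^ 4 := by positivity
  have habs : 0 ≤ |Real.log Cf| := abs_nonneg _
  refine ⟨Lam, R1, by linarith, by linarith, fun t1 v hN ht1 hv => ?_⟩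
  set N : ℝ := ‖t1‖ with hNdef
  have hN100 : 100 ≤ N := by linarith
  have hNp : 0 < N := by linarith
  have hLamp : 0 < Lam := by linarith
  have hNL : N / Lam ≤ 0.01 * N := by
    rw [div_le_iff₀ hLamp]
    have h1 : 100 * N ≤ Lam * N := mul_le_mul_of_nonneg_right (by linarith) hNp.le
    linarith
  -- the speed bound
  have hsv : ∀ t : ℂ, 1 ≤ t.im → 0.01 * N + 1 ≤ ‖t‖ → ‖t‖ + 1 ≤ Lam * N →
      DifferentiableAt ℂ v t ∧ D.p (v t) = 1 ∧ D.q (v t) = Complex.exp t ∧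
      ‖cr (v t) (deriv v t)‖ ≤ B * ‖v t‖ ^ 2 ∧ D.on (v t) := by
    intro t h1 h2 h3
    have hb : ∀ z ∈ ball t 1, 0 < z.im ∧ N / Lam < ‖z‖ ∧ ‖z‖ < Lam * N := by
      intro z hz
      rw [mem_ball_iff_norm] at hz
      have h4 := Complex.abs_im_le_norm (z - t)
      rw [Complex.sub_im] at h4
      have h5 := neg_abs_le (z.im - t.im)
      have h6 := norm_le_norm_add_norm_sub' z t
      have h7 := norm_le_norm_add_norm_sub' t z
      rw [norm_sub_rev] at h7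
      refine ⟨by linarith, by linarith, by linarith⟩
    have h4 := hv t (by linarith) (by linarith) (by linarith)
    refine ⟨h4.1, h4.2.1, h4.2.2.1, hsp t v (fun z hz => ?_) (fun z hz => ?_) (fun z hz => ?_)
      fun z hz => ?_, h4.2.2.2.2⟩
    · obtain ⟨h5, h6, h7⟩ := hb z hz
      exact (hv z h5 h6 h7).1.differentiableWithinAt
    · obtain ⟨h5, h6, h7⟩ := hb z hz
      exact (hv z h5 h6 h7).2.2.2.2
    · obtain ⟨h5, h6, h7⟩ := hb z hz
      exact (hv z h5 h6 h7).2.1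
    · obtain ⟨h5, h6, h7⟩ := hb z hz
      exact (hv z h5 h6 h7).2.2.1
  -- the low point
  set T : ℝ := la * N with hT
  have hT4 : 4 * N ≤ T := mul_le_mul_of_nonneg_right hla4 hNp.le
  have hTT0 : T0 ≤ T := by linarith
  have h4lT : 4 * lam * T ≤ 2 * κ * N := by
    rw [hT, hκ]
    have : 0 ≤ lam * la * N := by positivity
    linarith
  have hLN : Lam * N = 2 * κ * N + 100 * N := by rw [hLam]; ring
  obtain ⟨m, hm1, hm2, hm3⟩ := hlowE T v hTT0 (fun t ht1 ht2 => by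
    have h5 := (le_abs_self t.im).trans (Complex.abs_im_le_norm t)
    refine hsv t (by linarith) (by linarith) (by linarith)) (by
    have h2T : ‖((2 * T : ℝ) : ℂ) * Complex.I‖ = 2 * T := by
      rw [norm_mul, Complex.norm_I, mul_one, Complex.norm_real, Real.norm_of_nonneg (by linarith)]
    have h2Ti : (((2 * T : ℝ) : ℂ) * Complex.I).im = 2 * T := by
      rw [Complex.im_ofReal_mul, Complex.I_im, mul_one]
    have h5 : 2 * T < Lam * N := by
      have : 1 * T ≤ lam * T := mul_le_mul_of_nonneg_right hlam1 (by linarith)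
      linarith
    have h6 := (hv (((2 * T : ℝ) : ℂ) * Complex.I) (by rw [h2Ti]; linarith)
      (by rw [h2T]; linarith) (by rw [h2T]; exact h5)).2.2.2.1
    rw [h2T] at h6
    linarith)
  set yc : ℝ := 2 * Real.pi * m with hyc
  set ic : ℂ := (yc : ℂ) * Complex.I with hic
  have hicim : ic.im = yc := by rw [hic]; simp
  have hicn : ‖ic‖ = yc := by
    rw [hic, norm_mul, Complex.norm_I, mul_one, Complex.norm_real, Real.norm_of_nonneg (by linarith)]
  have hycκ : yc ≤ κ * N := by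
    have : 3 * lam * T = κ * N := by rw [hT, hκ]; ring
    linarith
  set Yc : ℝ := yc - 0.02 * N with hYc
  have hYcN : N ≤ Yc := by linarith
  have hdm : ∀ z : ℂ, ‖z‖ < Yc → DifferentiableAt ℂ v (ic + z) ∧ D.p (v (ic + z)) = 1 ∧
      D.q (v (ic + z)) = Complex.exp (ic + z) ∧
      ‖cr (v (ic + z)) (deriv v (ic + z))‖ ≤ B * ‖v (ic + z)‖ ^ 2 ∧ D.on (v (ic + z)) := by
    intro z hz
    have h1 := Complex.abs_im_le_norm z
    have h2 := neg_abs_le z.im
    have h3 : (ic + z).im = yc + z.im := by rw [Complex.add_im, hicim]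
    have h4 := (le_abs_self (ic + z).im).trans (Complex.abs_im_le_norm (ic + z))
    have h5 := norm_add_le ic z
    rw [h3] at h4
    rw [hicn] at h5
    refine hsv _ ?_ ?_ ?_
    · rw [h3]
      linarith
    · linarith
    · rw [hLN]
      linarith
  set w : ℂ → VV s := fun z => v (ic + z) with hw
  have hwD : D.Dw B Yc w := by
    refine ⟨fun z hz => ?_, fun z hz => (hdm z hz).2.1, fun z hz => ?_, fun z hz => ?_,
      fun z hz => (hdm z hz).2.2.2.2⟩
    · exact (shift_deriv (hdm z hz).1).differentiableAt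
    · show D.q (v (ic + z)) = _
      rw [(hdm z hz).2.2.1]
      exact exp_per m z
    · rw [hw, (shift_deriv (hdm z hz).1).deriv]
      exact (hdm z hz).2.2.2.1
  have hRY : R ≤ Yc := by linarith
  obtain ⟨W, hW, hW0, hWc⟩ := hnear w ⟨fun z hz => hwD.dif z (by linarith),
    fun z hz => hwD.hp z (by linarith), fun z hz => hwD.hq z (by linarith),
    fun z hz => hwD.sp z (by linarith), fun z hz => hwD.on z (by linarith)⟩ (by
      show ‖v (ic + 0)‖ ≤ K
      rw [add_zero]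
      exact hm3)
  have hYc0 : 0 ≤ Yc := by linarith
  have hcl := huqK W w Yc hW hwD hYc0 hW0 hWc
  set sg : ℝ := Yc ^ (3 / 4 : ℝ) with hsg
  have hsg0 : 0 ≤ sg := Real.rpow_nonneg hYc0 _
  have hsgN : sg ≤ 0.04 * N := by
    have h1 : sg ^ 4 = Yc ^ 3 := by
      rw [hsg, ← Real.rpow_natCast, ← Real.rpow_mul hYc0, ← Real.rpow_natCast]
      norm_num
    have h2 : Yc ≤ κ * N := by linarith
    have h3 : Yc ^ 3 ≤ (κ * N) ^ 3 := pow_le_pow_left₀ hYc0 h2 3
    have h4 : κ ^ 3 ≤ 0.04 ^ 4 * N := by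
      have h5 : κ ^ 3 / 0.04 ^ 4 ≤ N := by linarith
      rw [div_le_iff₀ (by norm_num)] at h5
      linarith
    have h5 : (κ * N) ^ 3 ≤ (0.04 * N) ^ 4 := by
      have h6 : (κ * N) ^ 3 = κ ^ 3 * N ^ 3 := by ring
      have h7 : (0.04 * N) ^ 4 = (0.04 ^ 4 * N) * N ^ 3 := by ring
      rw [h6, h7]
      exact mul_le_mul_of_nonneg_right h4 (by positivity)
    by_contra hcon
    push Not at hcon
    have h6 : (0.04 * N) ^ 4 < sg ^ 4 := pow_lt_pow_left₀ hcon (by positivity) (by norm_num)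
    linarith
  set ρo : ℝ := Yc - sg with hρo
  set O : Set ℂ := ball 0 ρo with hO
  have hOm : ∀ z ∈ O, ‖z‖ + sg ≤ Yc ∧ ‖z‖ < Yc := by
    intro z hz
    rw [hO, mem_ball_zero_iff] at hz
    constructor <;> linarith
  obtain ⟨l, hl, hlb⟩ := hlam 0 W w hW O isOpen_ball
    (hwD.diffOn fun z hz => (hOm z hz).2) (fun z hz => hwD.on z (hOm z hz).2)
    (fun z hz => hwD.hp z (hOm z hz).2)
    (fun z hz => by rw [add_zero]; exact hwD.hq z (hOm z hz).2) (fun z hz => by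
      have h1 := hcl z (hOm z hz).1
      have h2 : 0 < δ * ‖W z‖ := mul_pos hδ (hW.pos z)
      linarith)
  have hlbd : ∀ z ∈ O, ‖l z‖ ≤ C' * Real.exp (-(1 / D.b * max z.re 0)) := by
    intro z hz
    have h1 := (hlb z hz).2
    have h2 := hcl z (hOm z hz).1
    have h3 := hW.pos z
    have h4 : ‖l z‖ * ‖W z‖ ^ D.k ≤ C * δ := by
      rw [pow_succ] at h1
      have h5 : (‖l z‖ * ‖W z‖ ^ D.k) * ‖W z‖ ≤ (C * δ) * ‖W z‖ := by
        have h6 := mul_le_mul_of_nonneg_left h2.le hC.le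
        rw [mul_assoc, mul_assoc]
        linarith
      exact le_of_mul_le_mul_right h5 h3
    have h5 := hcvl B W hW z
    set M0 : ℝ := max z.re 0 with hM0
    have hM00 : 0 ≤ M0 := le_max_right _ _
    have h6 : c1 ^ D.k * Real.exp (1 / D.b * M0) ≤ ‖W z‖ ^ D.k := by
      have h7 : (c1 * Real.exp (M0 / D.b)) ^ D.k ≤ ‖W z‖ ^ D.k :=
        pow_le_pow_left₀ (by positivity) h5 _
      rw [mul_pow] at h7
      refine le_trans ?_ h7
      refine mul_le_mul_of_nonneg_left ?_ (by positivity)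
      have h8 : 1 ≤ Real.exp (M0 / D.b) := by
        rw [← Real.exp_zero]
        exact Real.exp_le_exp.2 (by positivity)
      have h9 : 1 / (D.b : ℝ) * M0 = M0 / D.b := by ring
      rw [h9]
      exact le_self_pow₀ h8 (by omega)
    rw [Real.exp_neg, ← div_eq_mul_inv, le_div_iff₀ (Real.exp_pos _), hC', le_div_iff₀ (by positivity)]
    calc ‖l z‖ * Real.exp (1 / D.b * M0) * c1 ^ D.k =
        ‖l z‖ * (c1 ^ D.k * Real.exp (1 / D.b * M0)) := by ring
      _ ≤ ‖l z‖ * ‖W z‖ ^ D.k := mul_le_mul_of_nonneg_left h6 (norm_nonneg _)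
      _ ≤ C * δ := h4
  -- comparison
  set ρ : ℝ := ρo - 1 with hρ
  have hρ2 : 1.9 * N ≤ ρ := by linarith
  have hρp : 0 < ρ := by linarith
  set iρ : ℂ := (ρ : ℂ) * Complex.I with hiρ
  have hsubO : ∀ τ ∈ closedBall iρ ρ, τ - iρ ∈ O := by
    intro τ hτ
    rw [mem_closedBall_iff_norm] at hτ
    rw [hO, mem_ball_zero_iff]
    linarith
  have hφd : DiffContOnCl ℂ (fun τ => l (τ - iρ)) (ball iρ ρ) := by
    apply DifferentiableOn.diffContOnCl
    rw [closure_ball _ hρp.ne']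
    exact hl.comp (by fun_prop) hsubO
  have hφb : ∀ τ ∈ closedBall iρ ρ, ‖l (τ - iρ)‖ ≤ C' * Real.exp (-(1 / D.b * max τ.re 0)) := by
    intro τ hτ
    have h1 := hlbd _ (hsubO τ hτ)
    have h2 : (τ - iρ).re = τ.re := by rw [hiρ]; simp
    rwa [h2] at h1
  set η : ℝ := yc - ρ with hη
  have hη0 : 0 ≤ η := by linarith
  have hη1 : η ≤ 0.1 * N := by linarith
  set τ1 : ℂ := t1 - (η : ℂ) * Complex.I with hτ1
  have hτim : τ1.im = t1.im - η := by rw [hτ1]; simp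
  have hτre : τ1.re = t1.re := by rw [hτ1]; simp
  have hτn : ‖τ1‖ ≤ 1.1 * N := by
    have h1 := norm_sub_le t1 ((η : ℂ) * Complex.I)
    rw [norm_mul, Complex.norm_I, mul_one, Complex.norm_real, Real.norm_of_nonneg hη0] at h1
    linarith
  have hτim' : 0.4 * N ≤ τ1.im := by rw [hτim]; linarith
  have hτim0 : 0 < τ1.im := by linarith
  have hτ1n : 0 < ‖τ1‖ := lt_of_lt_of_le hτim0 ((le_abs_self _).trans (Complex.abs_im_le_norm _))
  have hτb : τ1 ∈ closedBall iρ ρ := by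
    rw [mem_closedBall_iff_norm]
    have h1 : ‖τ1 - iρ‖ ^ 2 ≤ ρ ^ 2 := by
      have h2 : ‖τ1‖ ^ 2 ≤ (1.1 * N) ^ 2 := pow_le_pow_left₀ (norm_nonneg _) hτn 2
      rw [← Complex.normSq_eq_norm_sq, Complex.normSq_apply] at h2 ⊢
      rw [hiρ]
      simp only [Complex.sub_re, Complex.sub_im, Complex.im_ofReal_mul, Complex.re_ofReal_mul,
        Complex.I_im, Complex.I_re, mul_zero, mul_one, sub_zero]
      have h3 : (0.4 * N) * (1.9 * N) ≤ τ1.im * ρ := mul_le_mul hτim' hρ2 (by positivity) hτim0.le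
      have h4 : 0 ≤ N * N := mul_self_nonneg N
      linarith
    exact abs_le_of_sq_le_sq' h1 hρp.le |>.2
  have h1 := cmp hρp (by positivity) hφd hφb hτb
  set z1 : ℂ := τ1 - iρ with hz1
  have hz1t : ic + z1 = t1 := by
    rw [hz1, hτ1, hiρ, hic, hη]
    push_cast
    ring
  have hz1O : z1 ∈ O := hsubO τ1 hτb
  have h2 := cf_low hρp hτim0
  have hlog : μ ≤ Real.log (2 * ρ / ‖τ1‖) := by
    rw [Real.le_log_iff_exp_le (by positivity), le_div_iff₀ hτ1n]
    have h3 : Real.exp μ = la / 2 := by rw [hla]; ring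
    rw [h3]
    have h4 : T / 2 - 0.1 * N ≤ ρ := by linarith
    have h5 : la / 2 * ‖τ1‖ ≤ la / 2 * (1.1 * N) := mul_le_mul_of_nonneg_left hτn (by positivity)
    have h6 : la / 2 * (1.1 * N) = 0.55 * T := by rw [hT]; ring
    linarith
  have h3 : D.b * Γ * N ≤ (cf ρ τ1).re := by
    refine le_trans ?_ h2
    have h4 : 1 / 4 + (1.1 + 2 * D.b * Γ) / 0.4 ≤ 1 / Real.pi * Real.log (2 * ρ / ‖τ1‖) := by
      rw [div_mul_eq_mul_div, one_mul, le_div_iff₀ hπ]
      refine le_trans (le_of_eq ?_) hlog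
      rw [hμ]
      ring
    have h5 : (1.1 + 2 * D.b * Γ) / 0.4 ≤ 1 / Real.pi * Real.log (2 * ρ / ‖τ1‖) - 1 / 4 := by
      linarith
    have h6 : (0.4 * N) * ((1.1 + 2 * D.b * Γ) / 0.4) ≤
        τ1.im * (1 / Real.pi * Real.log (2 * ρ / ‖τ1‖) - 1 / 4) := by
      apply mul_le_mul hτim' h5 (by positivity) hτim0.le
    have h7 : (0.4 * N) * ((1.1 + 2 * D.b * Γ) / 0.4) = 1.1 * N + 2 * D.b * Γ * N := by
      field_simp
    have h8 : -(1.1 * N) ≤ τ1.re := by
      have := Complex.abs_re_le_norm τ1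
      have := neg_abs_le τ1.re
      linarith
    have h9 : 1 / Real.pi * (τ1.im * Real.log (2 * ρ / ‖τ1‖)) - τ1.im / 4 =
        τ1.im * (1 / Real.pi * Real.log (2 * ρ / ‖τ1‖) - 1 / 4) := by ring
    linarith
  have h4 : ‖l z1‖ ≤ C' * Real.exp (-(Γ * N)) := by
    refine h1.trans (mul_le_mul_of_nonneg_left (Real.exp_le_exp.2 (neg_le_neg ?_)) hC'p.le)
    rw [one_div, inv_mul_eq_div, le_div_iff₀ hbp]
    linarith
  -- conclusion
  have h5 := hcl z1 (hOm z1 hz1O).1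
  have hWp := hW.pos z1
  have h6 : ‖W z1‖ ≤ 2 * ‖w z1‖ := by
    have h7 := norm_le_norm_add_norm_sub' (W z1) (w z1)
    rw [norm_sub_rev] at h7
    have h8 : δ * ‖W z1‖ ≤ 1 / 16 * ‖W z1‖ := mul_le_mul_of_nonneg_right hδ16 hWp.le
    linarith
  have hwz1 : w z1 = v t1 := by
    show v (ic + z1) = v t1
    rw [hz1t]
  rw [hwz1] at h6
  have ht1L := hv t1 (by linarith) (by linarith) (by
    show N < Lam * N
    have h1 : 100 * N ≤ Lam * N := mul_le_mul_of_nonneg_right (by linarith) hNp.le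
    linarith)
  have hvt1 : 0 < ‖v t1‖ := norm_pos_iff.2 (D.p_eq_one_ne ht1L.2.1)
  have h7 : ‖v t1‖ ≤ Real.exp (E * N) := by
    rw [← Real.log_le_iff_le_exp hvt1]
    exact ht1L.2.2.2.1
  have h9 : ‖w z1 - W z1‖ ≤ 1 / c * (‖l z1‖ * ‖W z1‖ ^ (D.k + 1)) := by
    rw [one_div, ← div_eq_inv_mul, le_div_iff₀ hc, mul_comm]
    exact (hlb z1 hz1O).1
  rw [hwz1] at h9
  have h11 : ‖W z1‖ ^ (D.k + 1) ≤ 2 ^ (D.k + 1) * Real.exp ((D.k + 1) * E * N) := by
    have h12 : ‖W z1‖ ^ (D.k + 1) ≤ (2 * Real.exp (E * N)) ^ (D.k + 1) :=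
      pow_le_pow_left₀ (norm_nonneg _) (h6.trans (by linarith)) _
    rw [mul_pow, ← Real.exp_nat_mul] at h12
    refine h12.trans (le_of_eq ?_)
    push_cast
    ring_nf
  have hW' : D.Cv B 0 (fun z => W (z + -ic)) := by
    have h1 := D.cv_mod (hW.shift (-ic)) (-(m : ℤ))
    have h2 : (0 : ℂ) + -ic - ((-(m : ℤ) : ℤ) : ℂ) * (2 * Real.pi * Complex.I) = 0 := by
      rw [hic, hyc]
      push_cast
      ring
    rw [h2] at h1
    exact h1
  refine ⟨fun z => W (z + -ic), hW', ?_⟩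
  have hWz : W (t1 + -ic) = W z1 := by
    congr 1
    rw [← hz1t]
    ring
  show ‖v t1 - W (t1 + -ic)‖ ≤ _
  rw [hWz]
  refine h9.trans ?_
  calc 1 / c * (‖l z1‖ * ‖W z1‖ ^ (D.k + 1)) ≤ 1 / c * ((C' * Real.exp (-(Γ * N))) *
      (2 ^ (D.k + 1) * Real.exp ((D.k + 1) * E * N))) := by gcongr
    _ = Cf * Real.exp (-(Γ * N) + (D.k + 1) * E * N) := by
        rw [Real.exp_add, hCf]
        ring
    _ = Real.exp (Real.log Cf + (-(Γ * N) + (D.k + 1) * E * N)) := by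
        rw [Real.exp_add (Real.log Cf), Real.exp_log hCfp]
    _ ≤ Real.exp (-(Cb * N)) := by
        apply Real.exp_le_exp.2
        have h12 := le_abs_self (Real.log Cf)
        have h13 : -(Γ * N) + (D.k + 1) * E * N = -(Cb * N) - N := by
          rw [hΓ]
          ring
        rw [h13]
        linarith

end Pair

end Pool.Agent.K9h84.CI
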