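import Pool.Agent.K9h84.CI.Cmp

/-!
# Low points of curves over large discs
-/

set_option autoImplicit false

open Set Filter Topology Metric

namespace Pool.Agent.K9h84.CI

variable {s : ℕ}

namespace Pair

variable (D : Pair s)

/-- **existence of low points**: a curve over a large disc which is not too long has a point of
bounded length near the imaginary axis -/
theorem low_pt (hk : 1 ≤ D.k) {B : ℝ} (hB : 0 ≤ B) : ∃ K X : ℝ, 0 < K ∧ 0 ≤ X ∧
    ∀ E : ℝ, 0 ≤ E → ∃ lam T0 : ℝ, 1 ≤ lam ∧ 1 ≤ T0 ∧ ∀ (T : ℝ) (v : ℂ → VV s), T0 ≤ T →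
      (∀ t : ℂ, T / 2 < t.im → ‖t‖ < 4 * lam * T → DifferentiableAt ℂ v t ∧ D.p (v t) = 1 ∧
        D.q (v t) = Complex.exp t ∧ ‖cr (v t) (deriv v t)‖ ≤ B * ‖v t‖ ^ 2 ∧ D.on (v t)) →
      Real.log ‖v (((2 * T : ℝ) : ℂ) * Complex.I)‖ ≤ E * T →
      ∃ zs : ℂ, T ≤ zs.im ∧ ‖zs‖ ≤ 3 * lam * T ∧ |zs.re| ≤ X ∧ ‖v zs‖ ≤ K := by
  obtain ⟨M, hM1, hcusp⟩ := D.cusp_hw
  have hMp : 0 < M := by linarith
  obtain ⟨c, hc, hlow⟩ := D.pt_low
  have hb1 : (1 : ℝ) ≤ D.b := by exact_mod_cast D.hb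
  have ha1 : (1 : ℝ) ≤ D.a := by exact_mod_cast D.ha
  have hbp : (0 : ℝ) < D.b := by linarith
  have hbc : (D.b : ℂ) ≠ 0 := by exact_mod_cast hbp.ne'
  have hπ := Real.pi_pos
  obtain ⟨Tx, hTx, hexit⟩ := exit_deep_on hb1 hc hMp
  obtain ⟨ε1, R1, hε1, hR1, hn1⟩ := D.near_const' hk hB hMp Tx 1
  obtain ⟨ε2, R2, hε2, hR2, hn2⟩ := D.swap.near_const' hk hB hMp Tx (-(D.a / D.b))
  set X0 : ℝ := |Real.log ε1| + D.b * |Real.log ε2| with hX0
  have hX00 : 0 ≤ X0 := by positivity
  set X : ℝ := max X0 Tx with hX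
  have hXX0 : X0 ≤ X := le_max_left _ _
  have hXTx : Tx ≤ X := le_max_right _ _
  have hXp : 0 ≤ X := hX00.trans hXX0
  refine ⟨M * Real.exp (X / D.b), X, by positivity, hXp, fun E hE => ?_⟩
  -- choice of `lam`
  set lam : ℝ := Real.exp (Real.pi * (2 * D.b * (E + 1) + 1)) with hlam
  have hlam1 : 1 ≤ lam := by
    rw [hlam, ← Real.exp_zero]
    exact Real.exp_le_exp.2 (by positivity)
  have hlamp : 0 < lam := by linarith
  set T0 : ℝ := 1 + 2 * (R1 + R2) + |Real.log (c / 2)| with hT0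
  have hT01 : 1 ≤ T0 := by
    have : 0 ≤ |Real.log (c / 2)| := abs_nonneg _
    linarith
  refine ⟨lam, T0, hlam1, hT01, fun T v hT hG hgr => ?_⟩
  have hTp : 0 < T := by linarith
  have hTR : 2 * (R1 + R2) + 1 ≤ T := by
    have : 0 ≤ |Real.log (c / 2)| := abs_nonneg _
    linarith
  have hTlog : |Real.log (c / 2)| + 1 ≤ T := by linarith
  set ρ1 : ℝ := lam * T with hρ1
  have hρ1p : 0 < ρ1 := by positivity
  have hρ1T : T ≤ ρ1 := by
    rw [hρ1]
    nlinarith
  set Y : ℝ := ρ1 + T with hY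
  set ctr : ℂ := (Y : ℂ) * Complex.I with hctr
  have hctrim : ctr.im = Y := by rw [hctr]; simp
  have hctrre : ctr.re = 0 := by rw [hctr]; simp
  have hctrn : ‖ctr‖ = Y := by
    rw [hctr, norm_mul, Complex.norm_I, mul_one, Complex.norm_real, Real.norm_of_nonneg (by linarith)]
  have himsub : ∀ z w : ℂ, z.im - dist w z ≤ w.im := by
    intro z w
    have h1 : |(w - z).im| ≤ dist w z := by
      rw [dist_eq_norm]
      exact Complex.abs_im_le_norm _
    rw [Complex.sub_im] at h1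
    have := neg_abs_le (w.im - z.im)
    linarith
  have hnsub : ∀ z w : ℂ, ‖w‖ ≤ ‖z‖ + dist w z := by
    intro z w
    rw [dist_eq_norm]
    have := norm_le_norm_add_norm_sub' w z
    linarith
  -- the domain
  have hdom : ∀ z w : ℂ, dist z ctr ≤ ρ1 → dist w z < R1 + R2 + 1 / 2 →
      T / 2 < w.im ∧ ‖w‖ < 4 * lam * T := by
    intro z w hz hw
    have h1 := himsub ctr z
    have h2 := himsub z w
    have h3 := hnsub ctr z
    have h4 := hnsub z w
    rw [hctrim] at h1
    rw [hctrn] at h3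
    have h5 : 4 * lam * T = 4 * ρ1 := by rw [hρ1]; ring
    constructor
    · linarith
    · rw [h5]
      linarith
  have hdom0 : ∀ z : ℂ, dist z ctr ≤ ρ1 → T / 2 < z.im ∧ ‖z‖ < 4 * lam * T := fun z hz =>
    hdom z z hz (by rw [dist_self]; positivity)
  have hvd : ∀ z : ℂ, dist z ctr ≤ ρ1 → DifferentiableAt ℂ v z := fun z hz =>
    (hG z (hdom0 z hz).1 (hdom0 z hz).2).1
  have hvp : ∀ z : ℂ, dist z ctr ≤ ρ1 → D.p (v z) = 1 := fun z hz =>
    (hG z (hdom0 z hz).1 (hdom0 z hz).2).2.1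
  have hvq : ∀ z : ℂ, dist z ctr ≤ ρ1 → D.q (v z) = Complex.exp z := fun z hz =>
    (hG z (hdom0 z hz).1 (hdom0 z hz).2).2.2.1
  have hvon : ∀ z : ℂ, dist z ctr ≤ ρ1 → D.on (v z) := fun z hz =>
    (hG z (hdom0 z hz).1 (hdom0 z hz).2).2.2.2.2
  -- first kind of deep points
  have deep1 : ∀ zs : ℂ, dist zs ctr ≤ ρ1 → ‖v zs‖ ≤ M → zs.re ≤ -X0 → ∀ z, dist z zs ≤ Tx →
      ‖v z‖ ≤ 2 * M := by
    intro zs hzs h1 h2 z hz
    have hpos : ∀ z ∈ ball (0 : ℂ) R1, DifferentiableAt ℂ v (zs + z) ∧ D.p (v (zs + z)) = 1 ∧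
        D.q (v (zs + z)) = Complex.exp (zs + z) ∧
        ‖cr (v (zs + z)) (deriv v (zs + z))‖ ≤ B * ‖v (zs + z)‖ ^ 2 ∧
        D.on (v (zs + z)) := by
      intro z hz
      rw [mem_ball_zero_iff] at hz
      have h3 := hdom zs (zs + z) hzs (by rw [dist_eq_norm, add_sub_cancel_left]; linarith)
      exact hG _ h3.1 h3.2
    have h4 := hn1 (fun z => v (zs + z)) (Complex.exp zs)
      (fun z hz => (shift_deriv (hpos z hz).1).differentiableAt.differentiableWithinAt)
      (fun z hz => by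
        rw [(shift_deriv (hpos z hz).1).deriv]
        exact (hpos z hz).2.2.2.1)
      (fun z hz => (hpos z hz).2.2.2.2) (fun z hz => (hpos z hz).2.1)
      (fun z hz => by rw [(hpos z hz).2.2.1, one_mul, ← Complex.exp_add]) (by
      rw [Complex.norm_exp, ← Real.le_log_iff_exp_le hε1]
      have := neg_abs_le (Real.log ε1)
      have : 0 ≤ D.b * |Real.log ε2| := by positivity
      linarith) (by
      simp only [add_zero]
      exact h1) (z - zs) (by rwa [← dist_eq_norm])
    simp only [add_sub_cancel] at h4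
    exact h4
  -- second kind of deep points
  have deep2 : ∀ zs : ℂ, dist zs ctr ≤ ρ1 → ‖v zs‖ ≤ M * Real.exp (zs.re / D.b) → X0 ≤ zs.re →
      ∀ z, dist z zs ≤ Tx → ‖D.qn v z‖ ≤ 2 * M := by
    intro zs hzs h1 h2 z hz
    have hpos : ∀ z ∈ ball (0 : ℂ) R2, DifferentiableAt ℂ v (zs + z) ∧ D.p (v (zs + z)) = 1 ∧
        D.q (v (zs + z)) = Complex.exp (zs + z) ∧
        ‖cr (v (zs + z)) (deriv v (zs + z))‖ ≤ B * ‖v (zs + z)‖ ^ 2 ∧
        D.on (v (zs + z)) := by
      intro z hz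
      rw [mem_ball_zero_iff] at hz
      have h3 := hdom zs (zs + z) hzs (by rw [dist_eq_norm, add_sub_cancel_left]; linarith)
      exact hG _ h3.1 h3.2
    have h4 := hn2 (fun z => D.qn v (zs + z)) (Complex.exp (-(D.a / D.b) * zs))
      (fun z hz => (shift_deriv (D.qn_dif
        (hpos z hz).1)).differentiableAt.differentiableWithinAt)
      (fun z hz => by
        rw [(shift_deriv (D.qn_dif (hpos z hz).1)).deriv]
        exact D.qn_speed (hpos z hz).1 (hpos z hz).2.2.2.1)
      (fun z hz => D.on_smul (hpos z hz).2.2.2.2)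
      (fun z hz => D.qn_q (hpos z hz).2.2.1)
      (fun z hz => by
        show D.p (D.qn v (zs + z)) = _
        rw [D.qn_p (hpos z hz).2.1, ← Complex.exp_add]
        congr 1
        ring) (by
      rw [Complex.norm_exp, ← Real.le_log_iff_exp_le hε2]
      have h5 : (-((D.a : ℂ) / D.b) * zs).re = -(D.a / D.b * zs.re) := by
        have : (-((D.a : ℂ) / D.b) * zs) = ((-(D.a / D.b : ℝ) : ℝ) : ℂ) * zs := by push_cast; ring
        rw [this, Complex.re_ofReal_mul]
        ring
      rw [h5]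
      have h6 := neg_abs_le (Real.log ε2)
      have h7 : 0 ≤ |Real.log ε1| := abs_nonneg _
      have h8 : D.b * |Real.log ε2| ≤ zs.re := by linarith
      have h9 : |Real.log ε2| ≤ zs.re / D.b := by
        rw [le_div_iff₀ hbp]
        linarith
      have h10 : 0 ≤ zs.re / D.b := (abs_nonneg _).trans h9
      have h11 : zs.re / D.b ≤ D.a / D.b * zs.re := by
        rw [div_mul_eq_mul_div, mul_div_assoc]
        nlinarith
      linarith) (by
      simp only [add_zero]
      exact (D.qn_le v zs M).2 h1) (z - zs) (by rwa [← dist_eq_norm])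
    simp only [add_sub_cancel] at h4
    exact h4
  set S : Set ℂ := (closedBall ctr ρ1 ∩ {z | ‖v z‖ - M ≤ 0}) ∪
    (closedBall ctr ρ1 ∩ {z | ‖v z‖ - M * Real.exp (z.re / D.b) ≤ 0}) with hS
  have hvc : ContinuousOn v (closedBall ctr ρ1) := fun z hz =>
    (hvd z hz).continuousAt.continuousWithinAt
  have hSc : IsClosed S := by
    refine IsClosed.union ?_ ?_
    · exact (hvc.norm.sub continuousOn_const).preimage_isClosed_of_isClosed isClosed_closedBall
        (isClosed_Iic (a := (0 : ℝ)))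
    · refine (hvc.norm.sub ?_).preimage_isClosed_of_isClosed isClosed_closedBall
        (isClosed_Iic (a := (0 : ℝ)))
      exact Continuous.continuousOn (by fun_prop)
  have hSmem : ∀ z : ℂ, dist z ctr ≤ ρ1 → z ∉ S →
      M < ‖v z‖ ∧ M * Real.exp (z.re / D.b) < ‖v z‖ := by
    intro z hz hzS
    constructor
    · by_contra h
      exact hzS (Or.inl ⟨hz, by
        show ‖v z‖ - M ≤ 0
        linarith [not_lt.1 h]⟩)
    · by_contra h
      exact hzS (Or.inr ⟨hz, by
        show ‖v z‖ - M * Real.exp (z.re / D.b) ≤ 0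
        linarith [not_lt.1 h]⟩)
  -- off this set one coordinate dominates
  have hcu : ∀ O : Set ℂ, IsPreconnected O → (∀ z ∈ O, dist z ctr ≤ ρ1 ∧ z ∉ S) →
      ∃ j : Fin (s + 3), ∀ z ∈ O, ‖v z‖ ≤ 2 * ‖v z j‖ := by
    intro O hO hOS
    refine hcusp O v hO (hvc.mono fun z hz => (hOS z hz).1)
      (fun z hz => hvon z (hOS z hz).1) (fun z hz => hvp z (hOS z hz).1)
      (fun z hz => hvq z (hOS z hz).1) fun z hz => ?_
    exact hSmem z (hOS z hz).1 (hOS z hz).2
  by_cases hne : S.Nonempty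
  · obtain ⟨zs, hzsS, hdist⟩ := hSc.exists_infDist_eq_dist hne ctr
    set ρ : ℝ := dist ctr zs with hρ
    have hzscb : dist zs ctr ≤ ρ1 := by
      rcases hzsS with h | h
      · exact h.1
      · exact h.1
    have hρρ1 : ρ ≤ ρ1 := by rw [hρ, dist_comm]; exact hzscb
    have hballS : ∀ z ∈ ball ctr ρ, z ∉ S := by
      intro z hz hzS
      have h1 := infDist_le_dist_of_mem (x := ctr) hzS
      rw [hdist] at h1
      rw [mem_ball, dist_comm] at hz
      linarith
    have hballc : ∀ z ∈ ball ctr ρ, dist z ctr ≤ ρ1 := fun z hz => by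
      rw [mem_ball] at hz
      linarith
    obtain ⟨j, hj⟩ := hcu _ (convex_ball _ _).isPreconnected (fun z hz => ⟨hballc z hz, hballS z hz⟩)
    have hzsS' : ‖v zs‖ ≤ M ∨ ‖v zs‖ ≤ M * Real.exp (zs.re / D.b) := by
      rcases hzsS with h | h
      · left
        have h1 : ‖v zs‖ - M ≤ 0 := h.2
        linarith
      · right
        have h1 : ‖v zs‖ - M * Real.exp (zs.re / D.b) ≤ 0 := h.2
        linarith
    have hre : |zs.re| ≤ dist ctr zs := by
      rw [dist_comm, dist_eq_norm]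
      have := Complex.abs_re_le_norm (zs - ctr)
      rwa [Complex.sub_re, hctrre, sub_zero] at this
    -- the real part is bounded
    have hX' : |zs.re| ≤ X := by
      by_cases hA : ‖v zs‖ ≤ M ∧ zs.re ≤ -X0
      · have hd := deep1 zs hzscb hA.1 hA.2
        have h1 := hexit v 1 Y ρ zs j
          (fun w hw => (hvd w (hballc w hw)).differentiableWithinAt) (Or.inl rfl) (fun z hz => by
          rw [one_mul]
          exact hlow _ z (hvp z (hballc z hz)) (hvq z (hballc z hz))) rfl hj hd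
        exact hre.trans (h1.trans hXTx)
      by_cases hA2 : ‖v zs‖ ≤ M * Real.exp (zs.re / D.b) ∧ X0 ≤ zs.re
      · have hd := deep2 zs hzscb hA2.1 hA2.2
        have h1 := hexit (D.qn v) (-1) Y ρ zs j
          (fun w hw => (D.qn_dif (hvd w (hballc w hw))).differentiableWithinAt) (Or.inr rfl)
          (fun z hz => by
          have h2 := hlow _ z (hvp z (hballc z hz)) (hvq z (hballc z hz))
          rw [qn_norm]
          have h3 : max (-1 * z.re) 0 / D.b = -(z.re / D.b) + max z.re 0 / D.b := by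
            rw [← neg_div, ← add_div]
            congr 1
            rcases le_total z.re 0 with h | h
            · rw [max_eq_left (by linarith), max_eq_right h]
              ring
            · rw [max_eq_right (by linarith), max_eq_left h]
              ring
          rw [h3, Real.exp_add]
          have h4 := Real.exp_pos (-(z.re / D.b))
          calc c * (Real.exp (-(z.re / D.b)) * Real.exp (max z.re 0 / D.b)) =
              Real.exp (-(z.re / D.b)) * (c * Real.exp (max z.re 0 / D.b)) := by ring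
            _ ≤ _ := by gcongr) rfl (fun z hz => by
          have h2 := hj z hz
          have h3 : ‖D.qn v z j‖ = Real.exp (-(z.re / D.b)) * ‖v z j‖ := by
            unfold qn
            rw [Pi.smul_apply, smul_eq_mul, norm_mul, Complex.norm_exp, Complex.neg_re,
              Complex.div_natCast_re]
          rw [qn_norm, h3]
          have h4 := Real.exp_pos (-(z.re / D.b))
          nlinarith) hd
        exact hre.trans (h1.trans hXTx)
      -- the exit point lies in the middle region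
      refine le_trans ?_ hXX0
      rcases hzsS' with h1' | h1'
      · have h2 : -X0 < zs.re := by
          by_contra h
          exact hA ⟨h1', not_lt.1 h⟩
        have h3 : zs.re < X0 := by
          by_contra h
          push Not at h
          refine hA2 ⟨h1'.trans ?_, h⟩
          have h4 : 1 ≤ Real.exp (zs.re / D.b) := by
            rw [← Real.exp_zero]
            exact Real.exp_le_exp.2 (div_nonneg (hX00.trans h) hbp.le)
          nlinarith
        exact abs_le.2 ⟨h2.le, h3.le⟩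
      · have h3 : zs.re < X0 := by
          by_contra h
          exact hA2 ⟨h1', not_lt.1 h⟩
        have h2 : -X0 < zs.re := by
          by_contra h
          push Not at h
          refine hA ⟨h1'.trans ?_, h⟩
          have h4 : Real.exp (zs.re / D.b) ≤ 1 := by
            rw [Real.exp_le_one_iff]
            exact div_nonpos_of_nonpos_of_nonneg (by linarith) hbp.le
          nlinarith
        exact abs_le.2 ⟨h2.le, h3.le⟩
    refine ⟨zs, ?_, ?_, hX', ?_⟩
    · have h1 := himsub ctr zs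
      rw [hctrim] at h1
      linarith
    · have h1 := hnsub ctr zs
      rw [hctrn] at h1
      have h5 : 3 * lam * T = 3 * ρ1 := by rw [hρ1]; ring
      rw [h5]
      linarith
    · have hX1 : 1 ≤ Real.exp (X / D.b) := by
        rw [← Real.exp_zero]
        exact Real.exp_le_exp.2 (by positivity)
      rcases hzsS' with h1 | h1
      · refine h1.trans ?_
        nlinarith
      · refine h1.trans (mul_le_mul_of_nonneg_left (Real.exp_le_exp.2 ?_) hMp.le)
        exact div_le_div_of_nonneg_right ((le_abs_self _).trans hX') hbp.le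
  · -- no exit: the curve would be too long
    exfalso
    obtain ⟨j, hj⟩ := hcu _ (convex_closedBall ctr ρ1).isPreconnected (fun z hz =>
      ⟨hz, fun h => hne ⟨z, h⟩⟩)
    have hvpos : ∀ z : ℂ, dist z ctr ≤ ρ1 → 0 < ‖v z‖ := fun z hz =>
      norm_pos_iff.2 (D.p_eq_one_ne (hvp z hz))
    have hjne : ∀ z : ℂ, dist z ctr ≤ ρ1 → v z j ≠ 0 := by
      intro z hz h0
      have h1 := hj z hz
      rw [h0, norm_zero, mul_zero] at h1
      have := hvpos z hz
      linarith
    have hsh : ∀ t : ℂ, dist t ((ρ1 : ℂ) * Complex.I) = dist (t + (T : ℂ) * Complex.I) ctr := by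
      intro t
      rw [dist_eq_norm, dist_eq_norm, hctr, hY]
      congr 1
      push_cast
      ring
    have hφd : DiffContOnCl ℂ (fun t => (v (t + (T : ℂ) * Complex.I) j)⁻¹)
        (ball ((ρ1 : ℂ) * Complex.I) ρ1) := by
      apply DifferentiableOn.diffContOnCl
      rw [closure_ball _ hρ1p.ne']
      intro t ht
      rw [mem_closedBall, hsh] at ht
      have h1 : DifferentiableAt ℂ (fun z => v z j) (t + (T : ℂ) * Complex.I) :=
        (differentiableAt_pi.1 (hvd _ ht)) j
      have h2 : DifferentiableAt ℂ (fun z : ℂ => z + (T : ℂ) * Complex.I) t := by fun_prop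
      have h3 : DifferentiableAt ℂ (fun t : ℂ => v (t + (T : ℂ) * Complex.I) j) t :=
        DifferentiableAt.comp (g := fun z => v z j) (f := fun z : ℂ => z + (T : ℂ) * Complex.I) t h1 h2
      exact (DifferentiableAt.inv h3 (hjne _ ht)).differentiableWithinAt
    have hb : ∀ t ∈ closedBall ((ρ1 : ℂ) * Complex.I) ρ1, ‖(v (t + (T : ℂ) * Complex.I) j)⁻¹‖ ≤
        2 / c * Real.exp (-(1 / D.b * max t.re 0)) := by
      intro t ht
      rw [mem_closedBall, hsh] at ht
      have h1 := hj _ ht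
      have h2 := hlow _ (t + (T : ℂ) * Complex.I) (hvp _ ht) (hvq _ ht)
      have h3 : (t + (T : ℂ) * Complex.I).re = t.re := by simp
      rw [h3] at h2
      have h4 : 1 / (D.b : ℝ) * max t.re 0 = max t.re 0 / D.b := by ring
      rw [norm_inv, Real.exp_neg, h4, ← div_eq_mul_inv, div_div, inv_eq_one_div,
        div_le_div_iff₀ (norm_pos_iff.2 (hjne _ ht)) (by positivity)]
      linarith
    have hTI : (T : ℂ) * Complex.I ∈ closedBall ((ρ1 : ℂ) * Complex.I) ρ1 := by
      rw [mem_closedBall, dist_eq_norm, ← sub_mul, norm_mul, Complex.norm_I, mul_one,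
        ← Complex.ofReal_sub, Complex.norm_real, Real.norm_eq_abs, abs_le]
      constructor <;> linarith
    have h1 := cmp hρ1p (by positivity) hφd hb hTI
    have hTIim : ((T : ℂ) * Complex.I).im = T := by simp
    have hTIre : ((T : ℂ) * Complex.I).re = 0 := by simp
    have hTIn : ‖(T : ℂ) * Complex.I‖ = T := by
      rw [norm_mul, Complex.norm_I, mul_one, Complex.norm_real, Real.norm_of_nonneg hTp.le]
    have h2 := cf_low hρ1p (t := (T : ℂ) * Complex.I) (by rw [hTIim]; exact hTp)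
    rw [hTIim, hTIre, hTIn] at h2
    have h3 : Real.log (2 * ρ1 / T) = Real.log 2 + Real.pi * (2 * D.b * (E + 1) + 1) := by
      have : 2 * ρ1 / T = 2 * lam := by
        rw [hρ1]
        field_simp
      rw [this, Real.log_mul (by norm_num) hlamp.ne', hlam, Real.log_exp]
    have hlog2 : 0 ≤ Real.log 2 := Real.log_nonneg (by norm_num)
    have h4 : D.b * (E + 1) * T ≤ (cf ρ1 ((T : ℂ) * Complex.I)).re := by
      refine le_trans ?_ h2
      rw [h3]
      have h5 : 1 / Real.pi * (T * (Real.log 2 + Real.pi * (2 * D.b * (E + 1) + 1))) =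
          T * (Real.log 2 / Real.pi) + T * (2 * D.b * (E + 1) + 1) := by
        field_simp
      rw [h5]
      have h6 : 0 ≤ T * (Real.log 2 / Real.pi) := by positivity
      nlinarith
    have h2TI : (T : ℂ) * Complex.I + (T : ℂ) * Complex.I = ((2 * T : ℝ) : ℂ) * Complex.I := by
      push_cast
      ring
    rw [h2TI, norm_inv] at h1
    have hd2 : dist (((2 * T : ℝ) : ℂ) * Complex.I) ctr ≤ ρ1 := by
      have h5 := hsh ((T : ℂ) * Complex.I)
      rw [h2TI] at h5
      rw [← h5]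
      exact hTI
    have hvj : 0 < ‖v (((2 * T : ℝ) : ℂ) * Complex.I) j‖ := norm_pos_iff.2 (hjne _ hd2)
    have h5 : c / 2 * Real.exp ((E + 1) * T) ≤ ‖v (((2 * T : ℝ) : ℂ) * Complex.I) j‖ := by
      have h6 : 2 / c * Real.exp (-(1 / D.b * (cf ρ1 ((T : ℂ) * Complex.I)).re)) ≤
          2 / c * Real.exp (-((E + 1) * T)) := by
        refine mul_le_mul_of_nonneg_left (Real.exp_le_exp.2 (neg_le_neg ?_)) (by positivity)
        rw [one_div, inv_mul_eq_div, le_div_iff₀ hbp]
        linarith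
      have h7 := h1.trans h6
      rw [inv_le_comm₀ hvj (by positivity)] at h7
      refine le_trans (le_of_eq ?_) h7
      rw [Real.exp_neg, mul_inv, inv_inv, inv_div]
    have h6 := h5.trans (le3 (v (((2 * T : ℝ) : ℂ) * Complex.I)) j)
    have h7 := Real.log_le_log (by positivity) h6
    rw [Real.log_mul (by positivity) (Real.exp_pos _).ne', Real.log_exp] at h7
    have h8 := neg_abs_le (Real.log (c / 2))
    linarith

/-- low points at multiples of the period -/
theorem low_nat (hk : 1 ≤ D.k) {B : ℝ} (hB : 0 ≤ B) : ∃ K : ℝ, 0 < K ∧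
    ∀ E : ℝ, 0 ≤ E → ∃ lam T0 : ℝ, 1 ≤ lam ∧ 1 ≤ T0 ∧ ∀ (T : ℝ) (v : ℂ → VV s), T0 ≤ T →
      (∀ t : ℂ, T / 2 < t.im → ‖t‖ < 4 * lam * T → DifferentiableAt ℂ v t ∧ D.p (v t) = 1 ∧
        D.q (v t) = Complex.exp t ∧ ‖cr (v t) (deriv v t)‖ ≤ B * ‖v t‖ ^ 2 ∧ D.on (v t)) →
      Real.log ‖v (((2 * T : ℝ) : ℂ) * Complex.I)‖ ≤ E * T →
      ∃ m : ℕ, T / 2 ≤ 2 * Real.pi * m ∧ 2 * Real.pi * m ≤ 3 * lam * T ∧
        ‖v (((2 * Real.pi * m : ℝ) : ℂ) * Complex.I)‖ ≤ K := by
  obtain ⟨K0, X, hK0, hX, hmain⟩ := D.low_pt hk hB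
  have hπ := Real.pi_pos
  obtain ⟨c0, hc0, hlow0, hch⟩ := D.chain hB
  obtain ⟨L, hL1, hL⟩ := hch (X + 2 * Real.pi) (by positivity)
  refine ⟨c0 * Real.exp (L * Real.log (K0 / c0)), by positivity, fun E hE => ?_⟩
  obtain ⟨lam, T0, hlam, hT0, hlo⟩ := hmain E hE
  refine ⟨lam, T0 + 2 * (X + 2 * Real.pi + 1), hlam, by linarith, fun T v hT hG hgr => ?_⟩
  have hT0' : T0 ≤ T := by linarith
  have hTX : 2 * (X + 2 * Real.pi + 1) < T := by linarith
  have hTp : 0 < T := by linarith
  obtain ⟨zs, hzs1, hzs2, hzs3, hzs4⟩ := hlo T v hT0' hG hgr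
  set y : ℝ := zs.im with hy
  have hy0 : 0 ≤ y / (2 * Real.pi) := div_nonneg (by linarith) (by positivity)
  set m : ℕ := ⌊y / (2 * Real.pi)⌋₊ with hm
  have h3 := Nat.floor_le hy0
  have h4 := Nat.lt_floor_add_one (y / (2 * Real.pi))
  rw [le_div_iff₀ (by positivity)] at h3
  rw [div_lt_iff₀ (by positivity)] at h4
  have h3' : (m : ℝ) * (2 * Real.pi) ≤ y := h3
  have h4' : y < ((m : ℝ) + 1) * (2 * Real.pi) := h4
  have hyn : y ≤ ‖zs‖ := (le_abs_self _).trans (Complex.abs_im_le_norm zs)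
  have hpos : ∀ z ∈ ball (0 : ℂ) (X + 2 * Real.pi + 1), DifferentiableAt ℂ v (zs + z) ∧
      D.p (v (zs + z)) = 1 ∧ D.q (v (zs + z)) = Complex.exp (zs + z) ∧
      ‖cr (v (zs + z)) (deriv v (zs + z))‖ ≤ B * ‖v (zs + z)‖ ^ 2 ∧ D.on (v (zs + z)) := by
    intro z hz
    rw [mem_ball_zero_iff] at hz
    have h5 := Complex.abs_im_le_norm z
    have h6 := neg_abs_le z.im
    have h7 := norm_add_le zs z
    refine hG _ ?_ ?_
    · rw [Complex.add_im]
      linarith
    · have : T ≤ lam * T := by nlinarith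
      nlinarith
  set ze : ℂ := ((2 * Real.pi * m : ℝ) : ℂ) * Complex.I with hze
  have hd : ‖ze - zs‖ ≤ X + 2 * Real.pi := by
    refine (Complex.norm_le_abs_re_add_abs_im _).trans (add_le_add ?_ ?_)
    · rw [Complex.sub_re, hze, Complex.re_ofReal_mul, Complex.I_re, mul_zero, zero_sub, abs_neg]
      exact hzs3
    · rw [Complex.sub_im, hze, Complex.im_ofReal_mul, Complex.I_im, mul_one, abs_le]
      constructor <;> linarith
  have hchn := (hL (fun z => v (zs + z))
    (fun z hz => (shift_deriv (hpos z hz).1).differentiableAt.differentiableWithinAt)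
    (fun z hz => (hpos z hz).2.1)
    (fun z hz => by
      rw [(shift_deriv (hpos z hz).1).deriv]
      exact (hpos z hz).2.2.2.1) (ze - zs) hd).1
  simp only [add_sub_cancel, add_zero] at hchn
  refine ⟨m, by linarith, by linarith, ?_⟩
  have hzeb : ze - zs ∈ ball (0 : ℂ) (X + 2 * Real.pi + 1) := by
    rw [mem_ball_zero_iff]
    linarith
  have hv1 : 0 < ‖v ze‖ := by
    have h5 := (hpos _ hzeb).2.1
    rw [add_sub_cancel] at h5
    exact norm_pos_iff.2 (D.p_eq_one_ne h5)
  have hv2 : 0 < ‖v zs‖ := by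
    have h5 := (hpos 0 (mem_ball_self (by positivity))).2.1
    rw [add_zero] at h5
    exact norm_pos_iff.2 (D.p_eq_one_ne h5)
  have h5 : Real.log (‖v zs‖ / c0) ≤ Real.log (K0 / c0) :=
    Real.log_le_log (by positivity) (div_le_div_of_nonneg_right hzs4 hc0.le)
  have h6 : Real.log (‖v ze‖ / c0) ≤ L * Real.log (K0 / c0) :=
    hchn.trans (mul_le_mul_of_nonneg_left h5 (by linarith))
  rw [Real.log_le_iff_le_exp (by positivity), div_le_iff₀ hc0] at h6
  linarith

/-- a curve over a large disc with low centre is close to an entire curve -/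
theorem near_cv {B : ℝ} (hB : 0 ≤ B) {K R0 δ : ℝ} (hδ : 0 < δ) : ∃ R : ℝ, 0 < R ∧
    ∀ w : ℂ → VV s, D.Dw B R w → ‖w 0‖ ≤ K → ∃ W : ℂ → VV s, D.Cv B 0 W ∧ ‖W 0‖ ≤ K + 1 ∧
      ∀ z, ‖z‖ ≤ R0 → ‖w z - W z‖ < δ * ‖W z‖ := by
  obtain ⟨cl, hcl, hlowp⟩ := D.low_of_p one_ne_zero
  by_contra hcon
  push Not at hcon
  have h1 : ∀ n : ℕ, ∃ w : ℂ → VV s, D.Dw B ((n : ℝ) + 1) w ∧ ‖w 0‖ ≤ K ∧ ∀ W : ℂ → VV s,
      D.Cv B 0 W → ‖W 0‖ ≤ K + 1 → ∃ z, ‖z‖ ≤ R0 ∧ δ * ‖W z‖ ≤ ‖w z - W z‖ := fun n =>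
    hcon ((n : ℝ) + 1) (by positivity)
  choose w hw h0 hbad using h1
  have hin : ∀ (n : ℕ), ∀ z ∈ ball (0 : ℂ) ((n : ℝ) + 1), ‖z‖ < (n : ℝ) + 1 := fun n z hz =>
    mem_ball_zero_iff.1 hz
  obtain ⟨W, hWd, hWt, -, hWp, hWB, hWon, hWu⟩ := D.lim_bdd_u hB
    (fun n => (hw n).diffOn (hin n)) (fun n z hz => (hw n).hp z (hin n z hz))
    (fun n z hz => (hw n).sp z (hin n z hz)) (fun n z hz => (hw n).on z (hin n z hz))
    (Eventually.of_forall h0)
  have hWq : ∀ z, D.q (W z) = Complex.exp (z + 0) := by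
    intro z
    have h2 : Tendsto (fun n => D.q (w n z)) UU (𝓝 (D.q (W z))) :=
      (D.q_cont.tendsto _).comp (hWt z)
    refine tendsto_nhds_unique h2 ((tendsto_const_nhds (x := Complex.exp (z + 0))).congr' ?_)
    filter_upwards [UU_large ⌈‖z‖⌉₊] with n hn
    have hz : ‖z‖ < (n : ℝ) + 1 := by
      have h6 := Nat.le_ceil ‖z‖
      have h7 : (⌈‖z‖⌉₊ : ℝ) ≤ n := by exact_mod_cast hn
      linarith
    rw [(hw n).hq z hz, add_zero]
  have hW : D.Cv B 0 W := ⟨hWd, hWp, hWq, hWB, hWon⟩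
  have hW0 : ‖W 0‖ ≤ K := le_of_tendsto (hWt 0).norm (Eventually.of_forall h0)
  obtain ⟨n, hn⟩ := (hWu R0 (δ * cl) (by positivity)).exists
  obtain ⟨z, hz, hzb⟩ := hbad n W hW (by linarith)
  have h2 := hn z (mem_closedBall_zero_iff.2 hz)
  have h3 := mul_le_mul_of_nonneg_left (hlowp _ (hWp z)) hδ.le
  linarith

end Pair

end Pool.Agent.K9h84.CI
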