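import Pool.Agent.K9h84.CI.Rsp

/-!
# Locally uniform limits of curves defined on growing discs
-/

set_option autoImplicit false

open Set Filter Topology Metric

namespace Pool.Agent.K9h84.CI

variable {s : ℕ}

/-- limits of bounded holomorphic curves on a disc are locally uniform -/
theorem montel_lu {x : ℂ} {r K : ℝ} {y : ℕ → ℂ → VV s} {Y : ℂ → VV s}
    (hd : ∀ᶠ n in (UU : Filter ℕ), DifferentiableOn ℂ (y n) (ball x r) ∧
      ∀ z ∈ ball x r, ‖y n z‖ ≤ K)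
    (hY : ∀ z ∈ ball x r, Tendsto (fun n => y n z) UU (𝓝 (Y z))) :
    TendstoLocallyUniformlyOn y Y (UU : Filter ℕ) (ball x r) := by
  rw [Metric.tendstoLocallyUniformlyOn_iff]
  intro ε hε p hp
  have hp' : dist p x < r := hp
  set sv : ℝ := (r - dist p x) / 4 with hsv
  have hsp : 0 < sv := by linarith
  set K' : ℝ := max K 0 with hK'
  have hK0 : 0 ≤ K' := le_max_right _ _
  set L : ℝ := K' / sv + 1 with hL
  have hLp : 0 < L := by positivity
  have hlip : ∀ᶠ n in (UU : Filter ℕ), ∀ z ∈ ball p sv, ‖y n z - y n p‖ ≤ L * ‖z - p‖ := by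
    filter_upwards [hd] with n hn z hz
    have hsub : ∀ w ∈ ball p sv, closedBall w sv ⊆ ball x r := by
      intro w hw
      refine closedBall_subset_ball' ?_
      have h1 := dist_triangle w p x
      have h2 : dist w p < sv := hw
      linarith
    have hder : ∀ w ∈ ball p sv, ‖deriv (y n) w‖ ≤ L := by
      intro w hw
      have h1 : DiffContOnCl ℂ (y n) (ball w sv) := hn.1.diffContOnCl_ball (hsub w hw)
      have h2 := Complex.norm_deriv_le_of_forall_mem_sphere_norm_le hsp h1 (C := K')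
        (fun ζ hζ => (hn.2 ζ (hsub w hw (sphere_subset_closedBall hζ))).trans (le_max_left _ _))
      linarith
    have hdiff : ∀ w ∈ ball p sv, DifferentiableAt ℂ (y n) w := by
      intro w hw
      exact hn.1.differentiableAt (isOpen_ball.mem_nhds (hsub w hw (mem_closedBall_self hsp.le)))
    exact (convex_ball p sv).norm_image_sub_le_of_norm_deriv_le hdiff hder (mem_ball_self hsp) hz
  have hlipY : ∀ z ∈ ball p sv, ‖Y z - Y p‖ ≤ L * ‖z - p‖ := by
    intro z hz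
    have hzx : z ∈ ball x r := by
      have h1 := dist_triangle z p x
      have h2 : dist z p < sv := hz
      show dist z x < r
      linarith
    have h1 : Tendsto (fun n => ‖y n z - y n p‖) UU (𝓝 ‖Y z - Y p‖) :=
      ((hY z hzx).sub (hY p hp)).norm
    exact le_of_tendsto h1 (hlip.mono fun n hn => hn z hz)
  refine ⟨ball p (min sv (ε / (4 * L))), mem_nhdsWithin_of_mem_nhds
    (ball_mem_nhds _ (by positivity)), ?_⟩
  have hx' : ∀ᶠ n in (UU : Filter ℕ), dist (y n p) (Y p) < ε / 4 :=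
    (Metric.tendsto_nhds.1 (hY p hp)) _ (by positivity)
  filter_upwards [hx', hlip] with n hn hln z hz
  have hz1 : z ∈ ball p sv := ball_subset_ball (min_le_left _ _) hz
  have hz2 : dist z p < ε / (4 * L) := lt_of_lt_of_le hz (min_le_right _ _)
  have hz3 : L * ‖z - p‖ < ε / 4 := by
    rw [← dist_eq_norm]
    calc L * dist z p < L * (ε / (4 * L)) := by gcongr
      _ = ε / 4 := by field_simp
  have h1 := hln z hz1
  have h2 := hlipY z hz1
  calc dist (Y z) (y n z) ≤ dist (Y z) (Y p) + dist (Y p) (y n p) + dist (y n p) (y n z) :=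
        dist_triangle4 _ _ _ _
    _ < ε := by
        rw [dist_comm (Y p), dist_comm (y n p) (y n z), dist_eq_norm (Y z), dist_eq_norm (y n z)]
        linarith

/-- uniform convergence on closed discs -/
theorem unif_closed {R K : ℝ} {y : ℕ → ℂ → VV s} {Y : ℂ → VV s}
    (hd : ∀ᶠ n in (UU : Filter ℕ), DifferentiableOn ℂ (y n) (ball 0 (R + 1)) ∧
      ∀ z ∈ ball (0 : ℂ) (R + 1), ‖y n z‖ ≤ K)
    (hY : ∀ z ∈ ball (0 : ℂ) (R + 1), Tendsto (fun n => y n z) UU (𝓝 (Y z))) {ε : ℝ} (hε : 0 < ε) :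
    ∀ᶠ n in (UU : Filter ℕ), ∀ z ∈ closedBall (0 : ℂ) R, ‖y n z - Y z‖ < ε := by
  have h1 := montel_lu hd hY
  rw [tendstoLocallyUniformlyOn_iff_forall_isCompact isOpen_ball] at h1
  have h2 := h1 (closedBall (0 : ℂ) R) (closedBall_subset_ball (by linarith))
    (isCompact_closedBall _ _)
  rw [Metric.tendstoUniformlyOn_iff] at h2
  filter_upwards [h2 ε hε] with n hn z hz
  have := hn z hz
  rwa [dist_comm, dist_eq_norm] at this

/-- Gronwall estimate on a convex open set -/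
theorem gronwall_on {v : ℂ → VV s} {S : Set ℂ} (hS : Convex ℝ S) (hSo : IsOpen S)
    (hv : DifferentiableOn ℂ v S) {C : ℝ}
    (h : ∀ z ∈ S, ‖deriv v z‖ ≤ C * ‖v z‖) {z w : ℂ} (hz : z ∈ S) (hw : w ∈ S) :
    ‖v z‖ ≤ ‖v w‖ * Real.exp (C * dist z w) := by
  have hmem : ∀ sv ∈ Icc (0 : ℝ) 1, w + (sv : ℂ) * (z - w) ∈ S := by
    intro sv hsv
    have h1 := hS.add_smul_sub_mem hw hz hsv
    have h2 : w + sv • (z - w) = w + (sv : ℂ) * (z - w) := by
      rw [Complex.real_smul]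
    rwa [h2] at h1
  have key := norm_le_gronwallBound_of_norm_deriv_right_le (a := 0) (b := 1) (K := C * dist z w)
    (ε := 0) (δ := ‖v w‖)
    (f := fun sv : ℝ => v (w + sv * (z - w))) (f' := fun sv : ℝ => (z - w) • deriv v (w + sv * (z - w)))
    ?_ ?_ ?_ ?_ 1 ⟨zero_le_one, le_refl _⟩
  · rw [gronwallBound_ε0] at key
    simpa using key
  · exact hv.continuousOn.comp (by fun_prop) hmem
  · intro sv hsv
    have h1 : HasDerivAt (fun sv : ℝ => w + (sv : ℂ) * (z - w)) (z - w) sv := by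
      have h2 : HasDerivAt (fun sv : ℝ => (sv : ℂ)) 1 sv := Complex.ofRealCLM.hasDerivAt
      have h3 := (h2.mul_const (z - w)).const_add w
      rwa [one_mul] at h3
    have h4 : DifferentiableAt ℂ v (w + sv * (z - w)) :=
      hv.differentiableAt (hSo.mem_nhds (hmem sv ⟨hsv.1, hsv.2.le⟩))
    exact (h4.hasDerivAt.scomp sv h1).hasDerivWithinAt
  · simp
  · intro sv hsv
    rw [norm_smul, ← dist_eq_norm, add_zero]
    have := mul_le_mul_of_nonneg_left (h (w + sv * (z - w)) (hmem sv ⟨hsv.1, hsv.2.le⟩))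
      (dist_nonneg (x := z) (y := w))
    linarith

/-- limits of curves with a logarithmic derivative bound on growing discs -/
theorem exists_lim2 {v : ℕ → ℂ → VV s} {C K : ℝ} (hC : 0 ≤ C)
    (hv : ∀ R : ℝ, ∀ᶠ n in (UU : Filter ℕ), DifferentiableOn ℂ (v n) (ball 0 R) ∧
      ∀ z ∈ ball (0 : ℂ) R, ‖deriv (v n) z‖ ≤ C * ‖v n z‖)
    (h0 : ∀ᶠ n in (UU : Filter ℕ), ‖v n 0‖ ≤ K) :
    ∃ V : ℂ → VV s, Differentiable ℂ V ∧
      (∀ (R ε : ℝ), 0 < ε → ∀ᶠ n in (UU : Filter ℕ), ∀ z ∈ closedBall (0 : ℂ) R, ‖v n z - V z‖ < ε) ∧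
      (∀ z, Tendsto (fun n => v n z) UU (𝓝 (V z))) ∧
      (∀ z, Tendsto (fun n => deriv (v n) z) UU (𝓝 (deriv V z))) ∧
      (∀ z, ‖deriv V z‖ ≤ C * ‖V z‖) := by
  have hbd : ∀ R : ℝ, ∀ᶠ n in (UU : Filter ℕ), DifferentiableOn ℂ (v n) (ball 0 R) ∧
      ∀ z ∈ ball (0 : ℂ) R, ‖v n z‖ ≤ max K 0 * Real.exp (C * R) := by
    intro R
    filter_upwards [hv R, h0] with n hn hn0
    refine ⟨hn.1, fun z hz => ?_⟩
    have hR : 0 < R := lt_of_le_of_lt (norm_nonneg _) (mem_ball_zero_iff.1 hz)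
    have h1 := gronwall_on (convex_ball (0 : ℂ) R) isOpen_ball hn.1 hn.2 hz (mem_ball_self hR)
    rw [dist_zero_right] at h1
    refine h1.trans ?_
    have h2 : ‖z‖ ≤ R := (mem_ball_zero_iff.1 hz).le
    have h3 : ‖v n 0‖ ≤ max K 0 := hn0.trans (le_max_left _ _)
    have h4 : Real.exp (C * ‖z‖) ≤ Real.exp (C * R) := by gcongr
    exact mul_le_mul h3 h4 (Real.exp_pos _).le (le_max_right _ _)
  have hpt : ∀ z, ∃ y : VV s, Tendsto (fun n => v n z) UU (𝓝 y) := fun z => by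
    refine exists_ulim' (K := max K 0 * Real.exp (C * (‖z‖ + 1))) ?_
    filter_upwards [hbd (‖z‖ + 1)] with n hn
    exact hn.2 z (by rw [mem_ball_zero_iff]; linarith)
  choose V hV using hpt
  have hmon := fun R : ℝ => montel_ball (x := 0) (r := R) (hbd R) (fun z _ => hV z)
  have hVd : Differentiable ℂ V := fun z =>
    (hmon (‖z‖ + 1)).1.differentiableAt (isOpen_ball.mem_nhds (by rw [mem_ball_zero_iff]; linarith))
  have hV' : ∀ z, Tendsto (fun n => deriv (v n) z) UU (𝓝 (deriv V z)) := fun z =>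
    (hmon (‖z‖ + 1)).2 z (by rw [mem_ball_zero_iff]; linarith)
  refine ⟨V, hVd, fun R ε hε => unif_closed (hbd (R + 1)) (fun z _ => hV z) hε, hV, hV', fun z => ?_⟩
  refine le_of_tendsto_of_tendsto (hV' z).norm ((hV z).norm.const_mul C) ?_
  filter_upwards [hv (‖z‖ + 1)] with n hn
  exact hn.2 z (by rw [mem_ball_zero_iff]; linarith)

namespace Pair

variable (D : Pair s)

/-- limits of curves of bounded speed, with uniform convergence -/
theorem lim_bdd_u {B : ℝ} (hB : 0 ≤ B) {v : ℕ → ℂ → VV s}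
    (hv : ∀ n : ℕ, DifferentiableOn ℂ (v n) (ball 0 ((n : ℝ) + 1)))
    (hp : ∀ n : ℕ, ∀ z ∈ ball (0 : ℂ) ((n : ℝ) + 1), D.p (v n z) = 1)
    (hsv : ∀ n : ℕ, ∀ z ∈ ball (0 : ℂ) ((n : ℝ) + 1),
      ‖cr (v n z) (deriv (v n) z)‖ ≤ B * ‖v n z‖ ^ 2)
    (hon : ∀ n : ℕ, ∀ z ∈ ball (0 : ℂ) ((n : ℝ) + 1), D.on (v n z))
    {K : ℝ} (hb : ∀ᶠ n in (UU : Filter ℕ), ‖v n 0‖ ≤ K) :
    ∃ V : ℂ → VV s, Differentiable ℂ V ∧ (∀ z, Tendsto (fun n => v n z) UU (𝓝 (V z))) ∧
      (∀ z, Tendsto (fun n => deriv (v n) z) UU (𝓝 (deriv V z))) ∧ (∀ z, D.p (V z) = 1) ∧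
      Bro B V ∧ (∀ z, D.on (V z)) ∧
      ∀ (R ε : ℝ), 0 < ε → ∀ᶠ n in (UU : Filter ℕ), ∀ z ∈ closedBall (0 : ℂ) R, ‖v n z - V z‖ < ε := by
  obtain ⟨V, hVd, hV, hV', hVp, hVB, hVon⟩ := D.lim_bdd hB hv hp hsv hon hb
  refine ⟨V, hVd, hV, hV', hVp, hVB, hVon, ?_⟩
  obtain ⟨c, hc, hlow, hch⟩ := D.chain hB
  have hin : ∀ R : ℝ, ∀ᶠ n : ℕ in (UU : Filter ℕ), ball (0 : ℂ) R ⊆ ball (0 : ℂ) ((n : ℝ) + 1) := by
    intro R
    filter_upwards [UU_large ⌈R⌉₊] with n hn
    refine ball_subset_ball ?_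
    have h1 := Nat.le_ceil R
    have h2 : (⌈R⌉₊ : ℝ) ≤ n := by exact_mod_cast hn
    linarith
  have hbd : ∀ R : ℝ, 0 ≤ R → ∃ K' : ℝ, ∀ᶠ n in (UU : Filter ℕ), ∀ z : ℂ, ‖z‖ ≤ R → ‖v n z‖ ≤ K' := by
    intro R hR
    obtain ⟨L, hL, hLR⟩ := hch R hR
    refine ⟨c * Real.exp (L * Real.log (K / c)), ?_⟩
    filter_upwards [hb, hin (R + 1)] with n hn hsub z hz
    have h0 : (0 : ℂ) ∈ ball (0 : ℂ) (R + 1) := mem_ball_self (by linarith)
    have hz' : z ∈ ball (0 : ℂ) (R + 1) := by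
      rw [mem_ball_zero_iff]
      linarith
    have h1 := (hLR (v n) ((hv n).mono hsub) (fun w hw => hp n w (hsub hw))
      (fun w hw => hsv n w (hsub hw)) z hz).1
    have hvz := hlow _ (hp n z (hsub hz'))
    have hv0 := hlow _ (hp n 0 (hsub h0))
    have h2 : Real.log (‖v n 0‖ / c) ≤ Real.log (K / c) := by
      refine Real.log_le_log ?_ (div_le_div_of_nonneg_right hn hc.le)
      exact div_pos (by linarith) hc
    have h3 : Real.log (‖v n z‖ / c) ≤ L * Real.log (K / c) :=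
      h1.trans (mul_le_mul_of_nonneg_left h2 (by linarith))
    have h4 : 0 < ‖v n z‖ / c := div_pos (by linarith) hc
    rw [Real.log_le_iff_le_exp h4, div_le_iff₀ hc] at h3
    linarith
  intro R ε hε
  obtain ⟨K', hK'⟩ := hbd (|R| + 1) (by positivity)
  have h1 := unif_closed (R := |R|) (K := K') (y := v) (Y := V) (by
    filter_upwards [hK', hin (|R| + 1)] with n hn hsub
    exact ⟨(hv n).mono hsub, fun z hz => hn z (mem_ball_zero_iff.1 hz).le⟩) (fun z _ => hV z) hε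
  filter_upwards [h1] with n hn z hz
  refine hn z (closedBall_subset_closedBall (le_abs_self R) hz)

end Pair

end Pool.Agent.K9h84.CI
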