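import Pool.Agent.K9h84.CI.Alg

/-!
# The classification of the curves of bounded speed
-/

set_option autoImplicit false

open Set Filter Topology Metric

namespace Pool.Agent.K9h84.CI

open Pool.Agent.K9h3.TC (exists_log_univ)

variable {s : ℕ}

namespace Pair

variable (D : Pair s)

/-- **classification** -/
theorem main (hk : 1 ≤ D.k) {u : ℂ → VV s} (hu : Differentiable ℂ u) (hon : ∀ z, D.on (u z)) (hp : ∀ z, D.p (u z) ≠ 0)
    (hq : ∀ z, D.q (u z) ≠ 0) {B : ℝ} (hB : Bro B u) :
    (∃ c : ℂ, c ≠ 0 ∧ ∀ z, D.q (u z) ^ D.a = c * D.p (u z) ^ D.b) ∨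
    ∃ (c : ℂ) (φ : Fin (s + 3) → Polynomial ℂ) (g : ℂ → ℂ), c ≠ 0 ∧ Differentiable ℂ g ∧
      (∀ z, g z ≠ 0) ∧ ∀ z i, g z * u z i = (φ i).eval (Complex.exp (c * z)) := by
  have hu0 : u 0 ≠ 0 := by
    intro h
    apply hp 0
    rw [h, D.p_zero]
  have hB0 : 0 ≤ B := hB.nonneg hu0
  have hac : (D.a : ℂ) ≠ 0 := by
    have := D.ha
    exact_mod_cast (by omega : D.a ≠ 0)
  have hpd : Differentiable ℂ (fun z => D.p (u z)) := fun z =>
    (D.hA.hasDerivAt (hu z).hasDerivAt).differentiableAt
  obtain ⟨G, hG, hGe⟩ := exists_log_univ hpd hp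
  set e : ℂ → ℂ := fun z => Complex.exp (-(G z / D.a)) with he
  have hed : Differentiable ℂ e := (hG.div_const _).neg.cexp
  have he0 : ∀ z, e z ≠ 0 := fun z => Complex.exp_ne_zero _
  set v : ℂ → VV s := fun z => e z • u z with hv
  have hvd : Differentiable ℂ v := hed.smul hu
  have hvB : Bro B v := hB.smul hu hed
  have hea : ∀ z, e z ^ D.a * D.p (u z) = 1 := by
    intro z
    rw [he]
    simp only
    rw [← Complex.exp_nat_mul, ← hGe z, ← Complex.exp_add]
    have : (D.a : ℂ) * -(G z / D.a) + G z = 0 := by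
      field_simp
      ring
    rw [this, Complex.exp_zero]
  have hvp : ∀ z, D.p (v z) = 1 := by
    intro z
    rw [hv]
    simp only
    rw [D.p_smul, hea]
  have hvq0 : ∀ z, D.q (v z) ≠ 0 := by
    intro z
    rw [hv]
    simp only
    rw [D.q_smul]
    exact mul_ne_zero (pow_ne_zero _ (he0 z)) (hq z)
  have hqd : Differentiable ℂ (fun z => D.q (v z)) := fun z =>
    (D.hB.hasDerivAt (hvd z).hasDerivAt).differentiableAt
  obtain ⟨h, hh, hhe⟩ := exists_log_univ hqd hvq0
  obtain ⟨α, β, haff⟩ := D.affine hB0 hvd hvp hh (fun z => (hhe z).symm) hvB fun z => D.on_smul (hon z)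
  by_cases hα : α = 0
  · left
    refine ⟨Complex.exp (D.a * β), Complex.exp_ne_zero _, fun z => ?_⟩
    have h1 : e z ^ D.b * D.q (u z) = Complex.exp β := by
      have h2 := hhe z
      rw [haff, hα, zero_mul, zero_add] at h2
      rw [h2, hv]
      simp only
      rw [D.q_smul]
    have h2 := hea z
    have h3 : (e z ^ D.b * D.q (u z)) ^ D.a = Complex.exp (D.a * β) * (e z ^ D.a * D.p (u z)) ^ D.b := by
      rw [h1, h2, one_pow, mul_one, Complex.exp_nat_mul]
    rw [mul_pow, mul_pow, ← pow_mul, ← pow_mul, mul_comm D.a D.b] at h3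
    have h4 : e z ^ (D.b * D.a) ≠ 0 := pow_ne_zero _ (he0 z)
    apply mul_left_cancel₀ h4
    rw [h3]
    ring
  · right
    set w : ℂ → VV s := fun z => v ((z - β) / α) with hw
    have hlin : ∀ z : ℂ, HasDerivAt (fun z : ℂ => (z - β) / α) (1 / α) z := fun z =>
      ((hasDerivAt_id z).sub_const β).div_const α
    have hwd' : ∀ z, HasDerivAt w ((1 / α) • deriv v ((z - β) / α)) z := fun z =>
      HasDerivAt.scomp (h := fun z : ℂ => (z - β) / α) z (hvd ((z - β) / α)).hasDerivAt (hlin z)
    have hCv : D.Cv (B / ‖α‖) 0 w := by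
      refine ⟨fun z => (hwd' z).differentiableAt, fun z => hvp _, fun z => ?_, fun z => ?_,
        fun z => D.on_smul (hon _)⟩
      · rw [hw]
        simp only
        rw [← hhe, haff]
        congr 1
        field_simp
        ring
      · rw [(hwd' z).deriv, cr_smul, norm_smul, norm_div, norm_one]
        have h1 := hvB ((z - β) / α)
        have h2 : 0 < ‖α‖ := norm_pos_iff.2 hα
        calc 1 / ‖α‖ * ‖cr (w z) (deriv v ((z - β) / α))‖ ≤ 1 / ‖α‖ * (B * ‖w z‖ ^ 2) := by gcongr
          _ = B / ‖α‖ * ‖w z‖ ^ 2 := by ring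
    obtain ⟨k, L, φ, hk1, hφ⟩ := D.cv_laurent hk (by positivity) hCv
    have hkc : (k : ℂ) ≠ 0 := by exact_mod_cast (by omega : k ≠ 0)
    refine ⟨α / k, fun i => (φ i).comp (Polynomial.C (Complex.exp (β / k)) * Polynomial.X),
      fun z => Complex.exp (L * (α * z + β) / k) * e z, div_ne_zero hα hkc, ?_, fun z => ?_,
      fun z i => ?_⟩
    · have : Differentiable ℂ (fun z : ℂ => Complex.exp (L * (α * z + β) / k)) := by fun_prop
      exact this.mul hed
    · exact mul_ne_zero (Complex.exp_ne_zero _) (he0 z)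
    · have h1 := hφ (α * z + β) i
      have h2 : w (α * z + β) = v z := by
        rw [hw]
        simp only
        congr 1
        field_simp
        ring
      rw [h2] at h1
      rw [Polynomial.eval_comp, Polynomial.eval_mul, Polynomial.eval_C, Polynomial.eval_X,
        ← Complex.exp_add]
      have h3 : β / k + α / k * z = (α * z + β) / k := by ring
      rw [h3, ← h1, hv]
      simp only [Pi.smul_apply, smul_eq_mul]
      ring

end Pair

end Pool.Agent.K9h84.CI
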