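import Pool.Agent.K9h84.CI.FinB

/-!
# Local limits and slowly moving directions
-/

set_option autoImplicit false

open Set Filter Topology Metric

namespace Pool.Agent.K9h84.CI

variable {s : ℕ}

/-- limits of bounded holomorphic curves on a disc -/
theorem montel_ball {x : ℂ} {r K : ℝ} {y : ℕ → ℂ → VV s} {Y : ℂ → VV s}
    (hd : ∀ᶠ n in (UU : Filter ℕ), DifferentiableOn ℂ (y n) (ball x r) ∧
      ∀ z ∈ ball x r, ‖y n z‖ ≤ K)
    (hY : ∀ z ∈ ball x r, Tendsto (fun n => y n z) UU (𝓝 (Y z))) :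
    DifferentiableOn ℂ Y (ball x r) ∧
      ∀ z ∈ ball x r, Tendsto (fun n => deriv (y n) z) UU (𝓝 (deriv Y z)) := by
  have hlu : TendstoLocallyUniformlyOn y Y (UU : Filter ℕ) (ball x r) := by
    rw [Metric.tendstoLocallyUniformlyOn_iff]
    intro ε hε p hp
    have hp' : dist p x < r := hp
    set sv : ℝ := (r - dist p x) / 4 with hsv
    have hsp : 0 < sv := by linarith
    set K' : ℝ := max K 0 with hK'
    have hK0 : 0 ≤ K' := le_max_right _ _
    set L : ℝ := K' / sv + 1 with hL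
    have hLp : 0 < L := by positivity
    have hlip : ∀ᶠ n in (UU : Filter ℕ), ∀ z ∈ ball p sv, ‖y n z - y n p‖ ≤ L * ‖z - p‖ := by
      filter_upwards [hd] with n hn z hz
      have hsub : ∀ w ∈ ball p sv, closedBall w sv ⊆ ball x r := by
        intro w hw
        refine closedBall_subset_ball' ?_
        have h1 := dist_triangle w p x
        have h2 : dist w p < sv := hw
        linarith
      have hder : ∀ w ∈ ball p sv, ‖deriv (y n) w‖ ≤ L := by
        intro w hw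
        have h1 : DiffContOnCl ℂ (y n) (ball w sv) := hn.1.diffContOnCl_ball (hsub w hw)
        have h2 := Complex.norm_deriv_le_of_forall_mem_sphere_norm_le hsp h1 (C := K')
          (fun ζ hζ => (hn.2 ζ (hsub w hw (sphere_subset_closedBall hζ))).trans (le_max_left _ _))
        linarith
      have hdiff : ∀ w ∈ ball p sv, DifferentiableAt ℂ (y n) w := by
        intro w hw
        exact hn.1.differentiableAt (isOpen_ball.mem_nhds (hsub w hw (mem_closedBall_self hsp.le)))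
      exact (convex_ball p sv).norm_image_sub_le_of_norm_deriv_le hdiff hder (mem_ball_self hsp) hz
    have hlipY : ∀ z ∈ ball p sv, ‖Y z - Y p‖ ≤ L * ‖z - p‖ := by
      intro z hz
      have hzx : z ∈ ball x r := by
        have h1 := dist_triangle z p x
        have h2 : dist z p < sv := hz
        show dist z x < r
        linarith
      have h1 : Tendsto (fun n => ‖y n z - y n p‖) UU (𝓝 ‖Y z - Y p‖) :=
        ((hY z hzx).sub (hY p hp)).norm
      exact le_of_tendsto h1 (hlip.mono fun n hn => hn z hz)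
    refine ⟨ball p (min sv (ε / (4 * L))), mem_nhdsWithin_of_mem_nhds
      (ball_mem_nhds _ (by positivity)), ?_⟩
    have hx' : ∀ᶠ n in (UU : Filter ℕ), dist (y n p) (Y p) < ε / 4 :=
      (Metric.tendsto_nhds.1 (hY p hp)) _ (by positivity)
    filter_upwards [hx', hlip] with n hn hln z hz
    have hz1 : z ∈ ball p sv := ball_subset_ball (min_le_left _ _) hz
    have hz2 : dist z p < ε / (4 * L) := lt_of_lt_of_le hz (min_le_right _ _)
    have hz3 : L * ‖z - p‖ < ε / 4 := by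
      rw [← dist_eq_norm]
      calc L * dist z p < L * (ε / (4 * L)) := by gcongr
        _ = ε / 4 := by field_simp
    have h1 := hln z hz1
    have h2 := hlipY z hz1
    calc dist (Y z) (y n z) ≤ dist (Y z) (Y p) + dist (Y p) (y n p) + dist (y n p) (y n z) :=
          dist_triangle4 _ _ _ _
      _ < ε := by
          rw [dist_comm (Y p), dist_comm (y n p) (y n z), dist_eq_norm (Y z), dist_eq_norm (y n z)]
          linarith
  have hdy : ∀ᶠ n in (UU : Filter ℕ), DifferentiableOn ℂ (y n) (ball x r) := hd.mono fun n hn => hn.1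
  exact ⟨hlu.differentiableOn hdy isOpen_ball,
    fun z hz => (hlu.deriv hdy isOpen_ball).tendsto_at hz⟩

/-- **slowly moving directions**: a dominating coordinate stays large on a disc of fixed radius -/
theorem dom {B : ℝ} (hB : 0 ≤ B) {v : ℂ → VV s} {z0 : ℂ} {r : ℝ} (hr : r ≤ 1 / (8 * (B + 1)))
    (hv : DifferentiableOn ℂ v (ball z0 r)) (hne : ∀ z ∈ ball z0 r, v z ≠ 0)
    (hsv : ∀ z ∈ ball z0 r, ‖cr (v z) (deriv v z)‖ ≤ B * ‖v z‖ ^ 2) {j : Fin (s + 3)}
    (hj : ‖v z0 j‖ = ‖v z0‖) : ∀ z ∈ ball z0 r, ‖v z‖ ≤ 2 * ‖v z j‖ := by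
  intro z hz
  have hr0 : 0 < r := lt_of_le_of_lt dist_nonneg hz
  set γ : ℝ → ℂ := fun t => z0 + (t : ℂ) * (z - z0) with hγ
  have hγc : Continuous γ := by
    rw [hγ]
    fun_prop
  have hγb : ∀ t ∈ Icc (0 : ℝ) 1, γ t ∈ ball z0 r := by
    intro t ht
    rw [mem_ball, dist_eq_norm, hγ]
    simp only [add_sub_cancel_left]
    rw [norm_mul, Complex.norm_real, Real.norm_of_nonneg ht.1]
    have h1 : ‖z - z0‖ < r := by rw [← dist_eq_norm]; exact hz
    calc t * ‖z - z0‖ ≤ 1 * ‖z - z0‖ := mul_le_mul_of_nonneg_right ht.2 (norm_nonneg _)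
      _ < r := by linarith
  have hvc : ContinuousOn (fun t => v (γ t)) (Icc (0 : ℝ) 1) :=
    hv.continuousOn.comp hγc.continuousOn hγb
  have hvjc : ContinuousOn (fun t => v (γ t) j) (Icc (0 : ℝ) 1) := fun t ht =>
    (continuous_apply j).continuousAt.comp_continuousWithinAt (hvc t ht)
  -- the key estimate on an initial segment
  have key : ∀ x ∈ Icc (0 : ℝ) 1, (∀ t ∈ Icc (0 : ℝ) x, ‖v (γ t)‖ ≤ 2 * ‖v (γ t) j‖) →
      ‖v (γ x)‖ ≤ 3 / 2 * ‖v (γ x) j‖ := by
    intro x hx hseg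
    have hsub : ∀ t ∈ Icc (0 : ℝ) x, t ∈ Icc (0 : ℝ) 1 := fun t ht => ⟨ht.1, ht.2.trans hx.2⟩
    have hvp : ∀ t ∈ Icc (0 : ℝ) x, 0 < ‖v (γ t)‖ := fun t ht =>
      norm_pos_iff.2 (hne _ (hγb t (hsub t ht)))
    have hvj : ∀ t ∈ Icc (0 : ℝ) x, v (γ t) j ≠ 0 := by
      intro t ht h0
      have h1 := hseg t ht
      rw [h0, norm_zero, mul_zero] at h1
      have := hvp t ht
      linarith
    set f : ℂ → VV s := fun z => (v z j)⁻¹ • v z with hf
    have hfd : ∀ t ∈ Icc (0 : ℝ) x, HasDerivAt f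
        ((v (γ t) j)⁻¹ • deriv v (γ t) + (-(deriv v (γ t) j) / (v (γ t) j) ^ 2) • v (γ t)) (γ t) := by
      intro t ht
      have h1 : HasDerivAt v (deriv v (γ t)) (γ t) :=
        (hv.differentiableAt (isOpen_ball.mem_nhds (hγb t (hsub t ht)))).hasDerivAt
      have h2 : HasDerivAt (fun z => v z j) (deriv v (γ t) j) (γ t) := (hasDerivAt_pi.1 h1) j
      exact (h2.inv (hvj t ht)).smul h1
    have hfn : ∀ t ∈ Icc (0 : ℝ) x,
        ‖(v (γ t) j)⁻¹ • deriv v (γ t) + (-(deriv v (γ t) j) / (v (γ t) j) ^ 2) • v (γ t)‖ ≤ 4 * B := by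
      intro t ht
      have hj0 : v (γ t) j ≠ 0 := hvj t ht
      have hjp : 0 < ‖v (γ t) j‖ := norm_pos_iff.2 hj0
      have h1 : ∀ i, ‖((v (γ t) j)⁻¹ • deriv v (γ t) +
          (-(deriv v (γ t) j) / (v (γ t) j) ^ 2) • v (γ t)) i‖ ≤ 4 * B := by
        intro i
        have h2 : ((v (γ t) j)⁻¹ • deriv v (γ t) +
            (-(deriv v (γ t) j) / (v (γ t) j) ^ 2) • v (γ t)) i =
            (v (γ t) j * deriv v (γ t) i - v (γ t) i * deriv v (γ t) j) / (v (γ t) j) ^ 2 := by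
          simp only [Pi.add_apply, Pi.smul_apply, smul_eq_mul]
          field_simp
          ring
        rw [h2, norm_div, norm_pow, div_le_iff₀ (by positivity)]
        have h3 := cross_comp (v (γ t)) (deriv v (γ t)) j i
        have h4 := hsv (γ t) (hγb t (hsub t ht))
        have h5 := hseg t ht
        have h6 : ‖v (γ t)‖ ^ 2 ≤ (2 * ‖v (γ t) j‖) ^ 2 := pow_le_pow_left₀ (norm_nonneg _) h5 2
        calc _ ≤ ‖cr (v (γ t)) (deriv v (γ t))‖ := h3
          _ ≤ B * ‖v (γ t)‖ ^ 2 := h4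
          _ ≤ B * (2 * ‖v (γ t) j‖) ^ 2 := mul_le_mul_of_nonneg_left h6 hB
          _ = 4 * B * ‖v (γ t) j‖ ^ 2 := by ring
      exact (pi_norm_le_iff_of_nonneg (by positivity)).2 h1
    have hγd : ∀ t : ℝ, HasDerivAt γ (z - z0) t := by
      intro t
      have h2 : HasDerivAt (fun sv : ℝ => (sv : ℂ)) 1 t := Complex.ofRealCLM.hasDerivAt
      have h3 := (h2.mul_const (z - z0)).const_add z0
      rwa [one_mul] at h3
    have hmv := norm_image_sub_le_of_norm_deriv_le_segment' (a := 0) (b := x)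
      (f := fun t : ℝ => f (γ t)) (C := 1 / 2)
      (f' := fun t => (z - z0) • ((v (γ t) j)⁻¹ • deriv v (γ t) +
        (-(deriv v (γ t) j) / (v (γ t) j) ^ 2) • v (γ t)))
      (fun t ht => ((hfd t ht).scomp t (hγd t)).hasDerivWithinAt)
      (fun t ht => by
        rw [norm_smul]
        have h1 := hfn t ⟨ht.1, ht.2.le⟩
        have h2 : ‖z - z0‖ ≤ r := by rw [← dist_eq_norm]; exact (mem_ball.1 hz).le
        have h3 : r * (8 * (B + 1)) ≤ 1 := by
          rwa [le_div_iff₀ (by positivity)] at hr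
        calc ‖z - z0‖ * _ ≤ r * (4 * B) := mul_le_mul h2 h1 (norm_nonneg _) hr0.le
          _ ≤ 1 / 2 := by nlinarith)
      x ⟨hx.1, le_refl x⟩
    have h0 : (0 : ℝ) ∈ Icc (0 : ℝ) x := ⟨le_refl _, hx.1⟩
    have hx' : x ∈ Icc (0 : ℝ) x := ⟨hx.1, le_refl _⟩
    have hf0 : ‖f (γ 0)‖ = 1 := by
      have h1 : γ 0 = z0 := by rw [hγ]; simp
      have h2 : 0 < ‖v z0‖ := by rw [← h1]; exact hvp 0 h0
      rw [h1, hf]
      simp only
      rw [norm_smul, norm_inv, hj]
      exact inv_mul_cancel₀ h2.ne'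
    have hfx : ‖f (γ x)‖ ≤ 3 / 2 := by
      have h1 := norm_le_norm_add_norm_sub' (f (γ x)) (f (γ 0))
      rw [hf0] at h1
      have h2 : (1 : ℝ) / 2 * (x - 0) ≤ 1 / 2 := by nlinarith [hx.2]
      linarith
    have hjx : 0 < ‖v (γ x) j‖ := norm_pos_iff.2 (hvj x hx')
    rw [hf] at hfx
    simp only at hfx
    rw [norm_smul, norm_inv, inv_mul_le_iff₀ hjx] at hfx
    linarith
  -- the continuity method
  set S : Set ℝ := {x | ∀ t ∈ Icc (0 : ℝ) (min x 1), ‖v (γ t)‖ ≤ 2 * ‖v (γ t) j‖} with hS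
  have hbad : IsClosed (Icc (0 : ℝ) 1 ∩ {t | ‖v (γ t)‖ ≤ 2 * ‖v (γ t) j‖}) := by
    have h1 : ContinuousOn (fun t => ‖v (γ t)‖ - 2 * ‖v (γ t) j‖) (Icc (0 : ℝ) 1) :=
      hvc.norm.sub (continuousOn_const.mul hvjc.norm)
    have h2 := h1.preimage_isClosed_of_isClosed isClosed_Icc (isClosed_Iic (a := (0 : ℝ)))
    convert h2 using 1
    ext t
    simp only [mem_inter_iff, mem_ofPred_eq, mem_preimage, mem_Iic, sub_nonpos]
  have hSc : IsClosed (S ∩ Icc (0 : ℝ) 1) := by
    rw [← isSeqClosed_iff_isClosed]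
    intro x a hx ha
    have haI : a ∈ Icc (0 : ℝ) 1 := isClosed_Icc.mem_of_tendsto ha (Eventually.of_forall fun n => (hx n).2)
    refine ⟨fun t ht => ?_, haI⟩
    rw [min_eq_left haI.2] at ht
    rcases ht.2.lt_or_eq with h | h
    · have h1 : ∀ᶠ n in atTop, t < x n := ha.eventually (lt_mem_nhds h)
      obtain ⟨n, hn⟩ := h1.exists
      exact (hx n).1 t ⟨ht.1, le_min hn.le (ht.2.trans haI.2)⟩
    · rw [h]
      have h1 : ∀ n, x n ∈ Icc (0 : ℝ) 1 ∩ {t | ‖v (γ t)‖ ≤ 2 * ‖v (γ t) j‖} := fun n =>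
        ⟨(hx n).2, (hx n).1 (x n) ⟨(hx n).2.1, le_min le_rfl (hx n).2.2⟩⟩
      exact (hbad.mem_of_tendsto ha (Eventually.of_forall h1)).2
  have h0S : (0 : ℝ) ∈ S := by
    intro t ht
    rw [min_eq_left zero_le_one] at ht
    have h1 : t = 0 := le_antisymm ht.2 ht.1
    have h2 : γ t = z0 := by rw [h1, hγ]; simp
    rw [h2, hj]
    have := norm_nonneg (v z0)
    linarith
  have hall := hSc.Icc_subset_of_forall_exists_gt h0S (fun x hx y hy => by
    have hx1 : x ∈ Icc (0 : ℝ) 1 := ⟨hx.2.1, hx.2.2.le⟩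
    have hxS : ∀ t ∈ Icc (0 : ℝ) x, ‖v (γ t)‖ ≤ 2 * ‖v (γ t) j‖ := fun t ht =>
      hx.1 t ⟨ht.1, le_min ht.2 (ht.2.trans hx1.2)⟩
    have h1 := key x hx1 hxS
    have hvx : 0 < ‖v (γ x)‖ := norm_pos_iff.2 (hne _ (hγb x hx1))
    have h2 : ‖v (γ x)‖ - 2 * ‖v (γ x) j‖ < 0 := by
      have : 0 < ‖v (γ x) j‖ := by
        by_contra h
        push Not at h
        linarith
      linarith
    have h3 : ContinuousWithinAt (fun t => ‖v (γ t)‖ - 2 * ‖v (γ t) j‖) (Icc (0 : ℝ) 1) x :=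
      (hvc.norm.sub (continuousOn_const.mul hvjc.norm)) x hx1
    have h4 := h3.eventually_lt_const h2
    rw [eventually_nhdsWithin_iff, Metric.eventually_nhds_iff] at h4
    obtain ⟨δ, hδ, h4⟩ := h4
    have hxy : x < y := hy
    have hx1' : x < 1 := hx.2.2
    set t1 : ℝ := min (min y 1) (x + δ / 2) with ht1
    have hxt : x < t1 := lt_min (lt_min hxy hx1') (by linarith)
    refine ⟨t1, ?_, hxt, (min_le_left _ _).trans (min_le_left _ _)⟩
    intro t ht
    have ht1le : t ≤ t1 := ht.2.trans (min_le_left _ _)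
    rcases le_or_gt t x with h | h
    · exact hxS t ⟨ht.1, h⟩
    · have h5 : dist t x < δ := by
        rw [Real.dist_eq, abs_of_pos (by linarith)]
        have : t1 ≤ x + δ / 2 := min_le_right _ _
        linarith
      have h6 := h4 h5 ⟨ht.1, ht.2.trans (min_le_right _ _)⟩
      linarith)
  have h1 := hall (right_mem_Icc.2 zero_le_one)
  have h2 := h1 1 ⟨zero_le_one, le_min le_rfl le_rfl⟩
  have h3 : γ 1 = z := by rw [hγ]; simp
  rw [h3] at h2
  exact h2

end Pool.Agent.K9h84.CI
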