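import Pool.Agent.K9h84.CI.Ret

/-!
# Periodicity and Laurent polynomials
-/

set_option autoImplicit false

open Set Filter Topology Metric

namespace Pool.Agent.K9h84.CI

variable {s : ℕ}

namespace Pair

variable (D : Pair s)

/-- **periodicity** -/
theorem periodic (hk : 1 ≤ D.k) {B : ℝ} (hB : 0 ≤ B) {v : ℂ → VV s} (hv : D.Cv B 0 v) :
    ∃ k : ℕ, 1 ≤ k ∧ ∀ z, v (z + k * (2 * Real.pi * Complex.I)) = v z := by
  obtain ⟨K, hK, hret'⟩ := D.returns_nat hk hB
  have hret := hret' v hv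
  have hfr : ∃ᶠ n : ℕ in atTop, ‖v ((n : ℂ) * (2 * Real.pi * Complex.I))‖ ≤ K :=
    frequently_atTop.2 hret
  obtain ⟨φ, hφ, hφK⟩ := extraction_of_frequently_atTop hfr
  have hC : ∀ n, D.Cv B 0 (fun z => v (z + (φ n : ℂ) * (2 * Real.pi * Complex.I))) := by
    intro n
    have h1 := D.cv_mod (hv.shift ((φ n : ℂ) * (2 * Real.pi * Complex.I))) (φ n : ℤ)
    have h2 : (0 : ℂ) + (φ n : ℂ) * (2 * Real.pi * Complex.I) -
        ((φ n : ℤ) : ℂ) * (2 * Real.pi * Complex.I) = 0 := by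
      push_cast
      ring
    rw [h2] at h1
    exact h1
  obtain ⟨m, n, hmn, heq⟩ := D.fin_seq hk hB hK hC (fun n => by
    simp only [zero_add]
    exact hφK n)
  have hlt : φ m < φ n := hφ hmn
  refine ⟨φ n - φ m, by omega, fun z => ?_⟩
  have h1 := congrFun heq (z - (φ m : ℂ) * (2 * Real.pi * Complex.I))
  simp only [sub_add_cancel] at h1
  rw [h1]
  congr 1
  rw [Nat.cast_sub hlt.le]
  ring

end Pair

end Pool.Agent.K9h84.CI
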