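import Pool.Agent.K9h84.CI.Hrk
import Pool.Agent.K9h3.TC.PunA

/-!
# The touching lemma for curves on a half-plane
-/

set_option autoImplicit false

open Set Filter Topology Metric

namespace Pool.Agent.K9h84.CI

open Pool.Agent.K9h3.TC (per_int exists_shift isCompact_box touchP)

variable {s : ℕ}

/-- the right half-plane -/
def HP : Set ℂ := {sv : ℂ | 0 < sv.re}

theorem isOpen_HP : IsOpen HP := isOpen_lt continuous_const Complex.continuous_re

namespace Pair

variable (D : Pair s)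

/-- periodic curves on the right half-plane with second form `exp (h0 sv + ρ sv)` -/
structure Hc (ρ : ℝ) (h0 : ℂ → ℂ) (V : ℂ → VV s) : Prop where
  hd : DifferentiableOn ℂ h0 HP
  vd : DifferentiableOn ℂ V HP
  hp : ∀ sv ∈ HP, D.p (V sv) = 1
  hq : ∀ sv ∈ HP, D.q (V sv) = Complex.exp (h0 sv + ρ * sv)
  hper : ∀ sv ∈ HP, h0 (sv + 2 * Real.pi * Complex.I) = h0 sv
  vper : ∀ sv ∈ HP, V (sv + 2 * Real.pi * Complex.I) = V sv
  on : ∀ sv ∈ HP, D.on (V sv)

/-- **touching lemma for curves on a half-plane** -/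
theorem tchP (hk : 1 ≤ D.k) (hF : D.HF) : ∃ Λ : ℝ, 1 ≤ Λ ∧
    ∀ (ρ : ℝ) (h0 : ℂ → ℂ) (V : ℂ → VV s), D.Hc ρ h0 V →
      (∃ c σ0 : ℝ, 0 < c ∧ ∀ σ : ℝ, σ0 ≤ σ → ∃ sv : ℂ, sv.re = σ ∧ c * Real.exp σ ≤ ‖h0 sv‖) →
      ∀ C1 ε Sb Sm : ℝ, 16 ≤ C1 → 0 < ε → ε ≤ 1 → 0 ≤ Sb → 1 ≤ Sm → ∃ (s0 : ℂ) (a : ℝ),
        17 * C1 + Sm ≤ s0.re ∧ 0 ≤ s0.im ∧ s0.im ≤ 2 * Real.pi ∧ 1 / 8 ≤ a ∧
        Sb * (1 + s0.re) * Real.exp (C1 * (1 + Real.log (2 + a))) ≤ ‖h0 s0‖ ∧
        (∀ sv : ℂ, sv.re = s0.re → ‖h0 sv‖ ≤ ‖h0 s0‖ ∧ Real.log ‖V sv‖ ≤ 2 * Λ * ‖h0 s0‖) ∧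
        ∀ w : ℂ, ‖w‖ ≤ C1 * (1 + Real.log (2 + a)) → ‖w‖ / a ≤ 17 * C1 ∧
          ‖h0 (s0 + w / a)‖ ≤ ‖h0 s0‖ * Real.exp (w.re + ε) ∧
          Real.log ‖V (s0 + w / a)‖ ≤ 2 * Λ * (‖h0 s0‖ * Real.exp (w.re + ε)) := by
  obtain ⟨Λ0, hΛ0, hhrk⟩ := D.hrk hk hF
  set Λ : ℝ := 30 * Real.exp 17 * Λ0 with hΛ
  have he17 : 1 ≤ Real.exp 17 := Real.one_le_exp (by norm_num)
  have hΛ1 : 1 ≤ Λ := by
    rw [hΛ]
    have : 1 ≤ Real.exp 17 * Λ0 := one_le_mul_of_one_le_of_one_le he17 hΛ0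
    linarith
  have hΛp : 0 < Λ := by linarith
  have hb1 : (1 : ℝ) ≤ D.b := by exact_mod_cast D.hb
  have hbp : (0 : ℝ) < D.b := by linarith
  refine ⟨2 * Λ, by linarith, fun ρ h0 V hc hgrow C1 ε Sb Sm hC1 hε hε1 hSb hSm => ?_⟩
  have hne : ∀ sv ∈ HP, V sv ≠ 0 := fun sv hsv => D.p_eq_one_ne (hc.hp sv hsv)
  have hsub : {sv : ℂ | 1 ≤ sv.re} ⊆ HP := fun sv hsv => by
    have h1 : 1 ≤ sv.re := hsv
    show 0 < sv.re
    linarith
  set hh : ℂ → ℂ := fun sv => h0 sv + ρ * sv with hhh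
  set E : ℂ → ℝ := fun sv => min (Real.log ‖V sv‖) (Real.log ‖V sv‖ - (hh sv).re / D.b) with hE
  set Θ : ℂ → ℝ := fun sv => max 1 (max (Λ * ‖h0 sv‖) (E sv)) with hΘ
  have hVc : ContinuousOn V {sv : ℂ | 1 ≤ sv.re} := hc.vd.continuousOn.mono hsub
  have hh0c : ContinuousOn h0 {sv : ℂ | 1 ≤ sv.re} := hc.hd.continuousOn.mono hsub
  have hhc : ContinuousOn hh {sv : ℂ | 1 ≤ sv.re} := hh0c.add (by fun_prop)
  have hlogc : ContinuousOn (fun sv => Real.log ‖V sv‖) {sv : ℂ | 1 ≤ sv.re} :=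
    hVc.norm.log fun sv hsv => norm_ne_zero_iff.2 (hne sv (hsub hsv))
  have hrec : ContinuousOn (fun sv => (hh sv).re / D.b) {sv : ℂ | 1 ≤ sv.re} :=
    (Complex.continuous_re.comp_continuousOn hhc).div_const _
  have hEc : ContinuousOn E {sv : ℂ | 1 ≤ sv.re} := hlogc.inf (hlogc.sub hrec)
  have hΘc : ContinuousOn Θ {sv : ℂ | 1 ≤ sv.re} :=
    continuousOn_const.sup ((continuousOn_const.mul hh0c.norm).sup hEc)
  have hΘ1 : ∀ sv, 1 ≤ Θ sv := fun sv => le_max_left _ _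
  have hΘh : ∀ sv, Λ * ‖h0 sv‖ ≤ Θ sv := fun sv => (le_max_left _ _).trans (le_max_right _ _)
  have hΘE : ∀ sv, E sv ≤ Θ sv := fun sv => (le_max_right _ _).trans (le_max_right _ _)
  have hΘper : ∀ sv : ℂ, 1 ≤ sv.re → ∀ n : ℤ, Θ (sv + n * (2 * Real.pi * Complex.I)) = Θ sv := by
    intro sv hsv n
    have h1 := per_int hc.hper n sv (lt_of_lt_of_le one_pos hsv)
    have h2 := per_int hc.vper n sv (lt_of_lt_of_le one_pos hsv)
    have h3 : (hh (sv + n * (2 * Real.pi * Complex.I))).re = (hh sv).re := by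
      rw [hhh]
      simp only
      rw [h1, Complex.add_re, Complex.add_re, Complex.re_ofReal_mul, Complex.re_ofReal_mul]
      simp
    rw [hΘ, hE]
    simp only
    rw [h1, h2, h3]
  obtain ⟨c, σ0, hcp, hgr⟩ := hgrow
  have hρ0 := abs_nonneg ρ
  obtain ⟨s0, a, hs17, him0, him1, ha, hT, hcirc, hw⟩ := touchP hΘc hΘper (fun sv _ => hΘ1 sv)
    (c := c) (r0 := σ0) hcp (fun σ hσ => by
      obtain ⟨sv, hsv, hs2⟩ := hgr σ hσ
      refine ⟨sv, hsv, hs2.trans ?_⟩
      refine le_trans ?_ (hΘh sv)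
      exact le_mul_of_one_le_left (norm_nonneg _) hΛ1) (C1 := C1) (ε := ε)
    (Sb := Λ * Sb + 1000 * Λ0 * (1 + |ρ|)) (Sm := Sm) (by linarith) hε (by positivity) hSm
  have hap : 0 < a := by linarith
  have hac : (a : ℂ) ≠ 0 := by exact_mod_cast hap.ne'
  have hla : 0 ≤ Real.log (2 + a) := Real.log_nonneg (by linarith)
  have hL16 : 16 ≤ C1 * (1 + Real.log (2 + a)) := by
    have : 0 ≤ C1 * Real.log (2 + a) := by positivity
    linarith
  set ℓ : ℝ := C1 * (1 + Real.log (2 + a)) with hℓ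
  have heL : 1 ≤ Real.exp ℓ := Real.one_le_exp (by linarith)
  have hs0re : 1 ≤ s0.re := by linarith
  have hΘbig : 1000 * Λ0 * (1 + |ρ|) * (1 + s0.re) * Real.exp ℓ ≤ Θ s0 := by
    refine le_trans ?_ hT
    refine mul_le_mul_of_nonneg_right ?_ (by linarith)
    refine mul_le_mul_of_nonneg_right ?_ (by linarith)
    have : 0 ≤ Λ * Sb := by positivity
    linarith
  have hΘbig1 : 1000 * Λ0 * (1 + |ρ|) ≤ Θ s0 := by
    refine le_trans ?_ hΘbig
    rw [mul_assoc (1000 * Λ0 * (1 + |ρ|))]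
    refine le_mul_of_one_le_right (by positivity) ?_
    exact one_le_mul_of_one_le_of_one_le (by linarith) heL
  have hΘ1000 : 1000 ≤ Θ s0 := by
    refine le_trans ?_ hΘbig1
    have h1 : 1 ≤ Λ0 * (1 + |ρ|) := one_le_mul_of_one_le_of_one_le hΛ0 (by linarith)
    linarith
  have hΘρ : 240 * Λ0 * |ρ| ≤ Θ s0 := by
    refine le_trans ?_ hΘbig1
    have h1 : 0 ≤ Λ0 * |ρ| := by positivity
    linarith
  have hΘΛ0 : Λ0 ≤ Θ s0 := by
    refine le_trans ?_ hΘbig1
    have h1 : 0 ≤ Λ0 * |ρ| := by positivity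
    linarith
  -- the points near s0
  have hwHP : ∀ w : ℂ, ‖w‖ ≤ ℓ → Sm ≤ (s0 + w / a).re ∧ (s0 + w / a).re ≤ 2 * s0.re := by
    intro w hw1
    have h1 := (hw w hw1).1
    have h2 : (s0 + w / a).re = s0.re + w.re / a := by rw [Complex.add_re, Complex.div_ofReal_re]
    have h3 : |w.re / a| ≤ 17 * C1 := by
      rw [abs_div, abs_of_pos hap]
      exact (div_le_div_of_nonneg_right (Complex.abs_re_le_norm w) hap.le).trans h1
    have h4 := abs_le.1 h3
    rw [h2]
    constructor <;> linarith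
  have hwHP' : ∀ w : ℂ, ‖w‖ ≤ ℓ → s0 + w / a ∈ HP := fun w hw1 => by
    have := (hwHP w hw1).1
    show 0 < (s0 + w / a).re
    linarith
  -- the case distinction
  have hcase : Θ s0 = Λ * ‖h0 s0‖ := by
    by_contra hcon
    have hEeq : Θ s0 = E s0 := by
      rcases max_choice 1 (max (Λ * ‖h0 s0‖) (E s0)) with h1 | h1
      · have h2 : Θ s0 = 1 := h1
        linarith
      · rcases max_choice (Λ * ‖h0 s0‖) (E s0) with h2 | h2
        · exact absurd (show Θ s0 = _ from h1.trans h2) hcon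
        · exact h1.trans h2
    set k0 : ℂ → ℂ := fun w => h0 (s0 + w / a) with hk0def
    set k : ℂ → ℂ := fun w => hh (s0 + w / a) with hkdef
    set W : ℂ → VV s := fun w => V (s0 + w / a) with hWdef
    have hb16 : ∀ w ∈ ball (0 : ℂ) 16, ‖w‖ ≤ ℓ := fun w hw1 => by
      rw [mem_ball_zero_iff] at hw1
      linarith
    have hk0d : DifferentiableOn ℂ k0 (ball 0 16) :=
      hc.hd.comp (by fun_prop) fun w hw1 => hwHP' w (hb16 w hw1)
    have hWd : DifferentiableOn ℂ W (ball 0 16) :=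
      hc.vd.comp (by fun_prop) fun w hw1 => hwHP' w (hb16 w hw1)
    have hlin : Differentiable ℂ (fun w : ℂ => (ρ : ℂ) * (s0 + w / a)) := by fun_prop
    have hkd : DifferentiableOn ℂ k (ball 0 16) := hk0d.add hlin.differentiableOn
    have h00 : s0 + (0 : ℂ) / a = s0 := by rw [zero_div, add_zero]
    have hsub15 : ball (0 : ℂ) 15 ⊆ ball (0 : ℂ) 16 := ball_subset_ball (by norm_num)
    have hder : ∀ w ∈ ball (0 : ℂ) 15, ‖deriv k w‖ ≤ (Θ s0 / Λ0) / 15 := by
      intro w hw15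
      have hw15' := mem_ball_zero_iff.1 hw15
      have hk0a : DifferentiableAt ℂ k0 w :=
        (hk0d w (hsub15 hw15)).differentiableAt (isOpen_ball.mem_nhds (hsub15 hw15))
      have hsm : ∀ r : ℝ, 0 < r → r < 1 → ‖deriv k0 w‖ ≤ Θ s0 * Real.exp 17 / Λ / r := by
        intro r hr hr1
        refine Complex.norm_deriv_le_of_forall_mem_sphere_norm_le (f := k0) (c := w) (R := r)
          (C := Θ s0 * Real.exp 17 / Λ) hr ?_ fun x hx => ?_
        · apply DifferentiableOn.diffContOnCl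
          rw [closure_ball _ hr.ne']
          refine hk0d.mono fun x hx => ?_
          rw [mem_closedBall_iff_norm] at hx
          rw [mem_ball_zero_iff]
          have := norm_le_norm_add_norm_sub' x w
          linarith
        · rw [mem_sphere_iff_norm] at hx
          have hx16 : ‖x‖ ≤ 16 := by
            have := norm_le_norm_add_norm_sub' x w
            linarith
          have h2 := (hw x (hx16.trans hL16)).2
          have h3 := (hΘh (s0 + x / a)).trans h2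
          rw [le_div_iff₀ hΛp]
          have h4 : Real.exp (x.re + ε) ≤ Real.exp 17 := by
            apply Real.exp_le_exp.2
            have := (le_abs_self _).trans (Complex.abs_re_le_norm x)
            linarith
          have h5 : Θ s0 * Real.exp (x.re + ε) ≤ Θ s0 * Real.exp 17 :=
            mul_le_mul_of_nonneg_left h4 (by linarith)
          have h6 : ‖k0 x‖ * Λ = Λ * ‖h0 (s0 + x / a)‖ := by rw [hk0def]; ring
          linarith
      have h1 : ‖deriv k0 w‖ ≤ Θ s0 * Real.exp 17 / Λ / 1 := by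
        have hcont : ContinuousAt (fun r : ℝ => Θ s0 * Real.exp 17 / Λ / r) 1 :=
          continuousAt_const.div continuousAt_id one_ne_zero
        have htend : Tendsto (fun r : ℝ => Θ s0 * Real.exp 17 / Λ / r) (𝓝[<] 1)
            (𝓝 (Θ s0 * Real.exp 17 / Λ / 1)) := hcont.tendsto.mono_left nhdsWithin_le_nhds
        refine ge_of_tendsto htend ?_
        filter_upwards [Ioo_mem_nhdsLT (show (0 : ℝ) < 1 by norm_num)] with r hr
        exact hsm r hr.1 hr.2
      have h2 : HasDerivAt (fun w : ℂ => (ρ : ℂ) * (s0 + w / a)) ((ρ : ℂ) * (1 / a)) w :=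
        (((hasDerivAt_id w).div_const (a : ℂ)).const_add s0).const_mul (ρ : ℂ)
      have h3 : deriv k w = deriv k0 w + (ρ : ℂ) * (1 / a) :=
        (hk0a.hasDerivAt.add h2).deriv
      have h4 : ‖(ρ : ℂ) * (1 / a)‖ ≤ 8 * |ρ| := by
        rw [norm_mul, norm_div, norm_one, Complex.norm_real, Complex.norm_real, Real.norm_eq_abs,
          Real.norm_of_nonneg hap.le, mul_comm]
        refine mul_le_mul_of_nonneg_right ?_ hρ0
        rw [div_le_iff₀ hap]
        linarith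
      have h5 : Θ s0 * Real.exp 17 / Λ / 1 = Θ s0 / Λ0 / 30 := by
        rw [hΛ]
        have : Λ0 ≠ 0 := by linarith
        field_simp
      have h6 : 8 * |ρ| ≤ Θ s0 / Λ0 / 30 := by
        rw [div_div, le_div_iff₀ (by positivity)]
        linarith
      rw [h3]
      refine (norm_add_le _ _).trans ?_
      rw [h5] at h1
      have h7 : Θ s0 / Λ0 / 15 = Θ s0 / Λ0 / 30 + Θ s0 / Λ0 / 30 := by ring
      rw [h7]
      exact add_le_add h1 (h4.trans h6)
    have hω : 1 ≤ Θ s0 / Λ0 := by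
      rw [le_div_iff₀ (by linarith)]
      linarith
    have hΛω : Λ0 * (Θ s0 / Λ0) = Θ s0 := by
      have : Λ0 ≠ 0 := by linarith
      field_simp
    have h1 := hhrk 0 15 (Θ s0 / Λ0) k W (by norm_num) hω (hkd.mono hsub15) hder
      (hWd.mono hsub15) (fun z hz => hc.on _ (hwHP' z (hb16 z (hsub15 hz))))
      (fun z hz => hc.hp _ (hwHP' z (hb16 z (hsub15 hz))))
      (fun z hz => hc.hq _ (hwHP' z (hb16 z (hsub15 hz)))) (by
        rw [hΛω, hEeq]
        show E s0 ≤ Real.log ‖V (s0 + (0 : ℂ) / a)‖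
        rw [h00]
        exact min_le_left _ _) (by
        rw [hΛω, hEeq]
        show E s0 ≤ Real.log ‖V (s0 + (0 : ℂ) / a)‖ - (hh (s0 + (0 : ℂ) / a)).re / D.b
        rw [h00]
        exact min_le_right _ _) (-3) (by
        rw [mem_ball_zero_iff, norm_neg]
        norm_num)
    have h2 : E s0 ≤ 6 * E (s0 + (-3 : ℂ) / a) + 9 := by
      have h3 : Real.log ‖V s0‖ ≤ 6 * Real.log ‖V (s0 + (-3 : ℂ) / a)‖ + 9 := by
        have := h1.1
        simp only [hWdef, h00] at this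
        exact this
      have h4 : Real.log ‖V s0‖ - (hh s0).re / D.b ≤
          6 * (Real.log ‖V (s0 + (-3 : ℂ) / a)‖ - (hh (s0 + (-3 : ℂ) / a)).re / D.b) + 9 := by
        have := h1.2
        simp only [hWdef, hkdef, h00] at this
        exact this
      have h5 : E s0 ≤ Real.log ‖V s0‖ := min_le_left _ _
      have h6 : E s0 ≤ Real.log ‖V s0‖ - (hh s0).re / D.b := min_le_right _ _
      rcases min_choice (Real.log ‖V (s0 + (-3 : ℂ) / a)‖)
        (Real.log ‖V (s0 + (-3 : ℂ) / a)‖ - (hh (s0 + (-3 : ℂ) / a)).re / D.b) with h7 | h7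
      · have h8 : E (s0 + (-3 : ℂ) / a) = _ := h7
        rw [h8]
        linarith
      · have h8 : E (s0 + (-3 : ℂ) / a) = _ := h7
        rw [h8]
        linarith
    have h3 := (hw (-3) (by
      rw [norm_neg]
      norm_num
      linarith)).2
    have h4 := hΘE (s0 + (-3 : ℂ) / a)
    have h5 : Real.exp ((-3 : ℂ).re + ε) ≤ 1 / 7 := by
      have h6 : (-3 : ℂ).re + ε ≤ -2 := by
        have : (-3 : ℂ).re = -3 := by norm_num
        rw [this]
        linarith
      refine (Real.exp_le_exp.2 h6).trans ?_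
      rw [Real.exp_neg, inv_eq_one_div]
      apply one_div_le_one_div_of_le (by norm_num)
      have h7 : Real.exp 2 = Real.exp 1 * Real.exp 1 := by
        rw [← Real.exp_add]
        norm_num
      have h8 := Real.exp_one_gt_d9
      rw [h7]
      nlinarith
    have h6 : Θ s0 * Real.exp ((-3 : ℂ).re + ε) ≤ Θ s0 * (1 / 7) :=
      mul_le_mul_of_nonneg_left h5 (by linarith)
    rw [← hEeq] at h2
    linarith
  have hhp : 0 < ‖h0 s0‖ := by
    by_contra hcon
    push Not at hcon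
    have : Λ * ‖h0 s0‖ ≤ 0 := mul_nonpos_of_nonneg_of_nonpos hΛp.le hcon
    linarith
  -- the length in terms of the majorant
  have hlogv : ∀ sv ∈ HP, Real.log ‖V sv‖ ≤ 2 * Θ sv + |ρ| * sv.re := by
    intro sv hsv
    have hsv' : 0 < sv.re := hsv
    have h1 := hΘh sv
    have h2 : ‖h0 sv‖ ≤ Θ sv := by
      refine le_trans ?_ h1
      exact le_mul_of_one_le_left (norm_nonneg _) hΛ1
    have h3 := hΘE sv
    have hρs : 0 ≤ |ρ| * sv.re := by positivity
    rcases min_choice (Real.log ‖V sv‖) (Real.log ‖V sv‖ - (hh sv).re / D.b) with h4 | h4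
    · have h5 : E sv = Real.log ‖V sv‖ := h4
      have := hΘ1 sv
      linarith
    · have h5 : E sv = Real.log ‖V sv‖ - (hh sv).re / D.b := h4
      have h6 : (hh sv).re / D.b ≤ ‖h0 sv‖ + |ρ| * sv.re := by
        rw [div_le_iff₀ hbp]
        have h7 := (le_abs_self _).trans (Complex.abs_re_le_norm (h0 sv))
        have h8 : (hh sv).re = (h0 sv).re + ρ * sv.re := by
          rw [hhh]
          simp only
          rw [Complex.add_re, Complex.re_ofReal_mul]
        have h9 : ρ * sv.re ≤ |ρ| * sv.re := mul_le_mul_of_nonneg_right (le_abs_self _) hsv'.le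
        have h10 : 0 ≤ ‖h0 sv‖ + |ρ| * sv.re := by positivity
        have h11 : (‖h0 sv‖ + |ρ| * sv.re) * 1 ≤ (‖h0 sv‖ + |ρ| * sv.re) * D.b :=
          mul_le_mul_of_nonneg_left hb1 h10
        linarith
      linarith
  have hρsmall : |ρ| * (2 * s0.re) * Real.exp ℓ ≤ Θ s0 := by
    refine le_trans ?_ hΘbig
    refine mul_le_mul_of_nonneg_right ?_ (by linarith)
    have h1 : |ρ| ≤ 1000 * Λ0 * (1 + |ρ|) / 2 := by
      have : 0 ≤ Λ0 * |ρ| := by positivity
      have : |ρ| ≤ Λ0 * |ρ| := le_mul_of_one_le_left hρ0 hΛ0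
      linarith
    calc |ρ| * (2 * s0.re) ≤ 1000 * Λ0 * (1 + |ρ|) / 2 * (2 * s0.re) :=
          mul_le_mul_of_nonneg_right h1 (by linarith)
      _ = 1000 * Λ0 * (1 + |ρ|) * s0.re := by ring
      _ ≤ _ := mul_le_mul_of_nonneg_left (by linarith) (by positivity)
  have hρsmall1 : |ρ| * (2 * s0.re) ≤ Θ s0 := by
    refine le_trans ?_ hρsmall
    exact le_mul_of_one_le_right (by positivity) heL
  refine ⟨s0, a, hs17, him0, him1, ha, ?_, ?_, ?_⟩
  · rw [hcase] at hT
    have h1 : Λ * (Sb * (1 + s0.re) * Real.exp ℓ) ≤ Λ * ‖h0 s0‖ := by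
      refine le_trans ?_ hT
      have h2 : Λ * Sb ≤ Λ * Sb + 1000 * Λ0 * (1 + |ρ|) := by
        have : 0 ≤ 1000 * Λ0 * (1 + |ρ|) := by positivity
        linarith
      have h3 : Λ * Sb * (1 + s0.re) * Real.exp ℓ ≤
          (Λ * Sb + 1000 * Λ0 * (1 + |ρ|)) * (1 + s0.re) * Real.exp ℓ :=
        mul_le_mul_of_nonneg_right (mul_le_mul_of_nonneg_right h2 (by linarith)) (by linarith)
      have h4 : Λ * (Sb * (1 + s0.re) * Real.exp ℓ) = Λ * Sb * (1 + s0.re) * Real.exp ℓ := by ring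
      rw [h4]
      exact h3
    exact le_of_mul_le_mul_left h1 hΛp
  · intro sv hsv
    have h1 := hcirc sv hsv
    have hsHP : sv ∈ HP := by
      show 0 < sv.re
      rw [hsv]
      linarith
    have h2 := hlogv sv hsHP
    rw [hsv] at h2
    have h4 : |ρ| * s0.re ≤ Θ s0 := by
      have : 0 ≤ |ρ| * s0.re := by positivity
      linarith
    have hΛh : Λ * ‖h0 sv‖ ≤ Λ * ‖h0 s0‖ := by
      rw [← hcase]
      exact (hΘh sv).trans h1
    refine ⟨le_of_mul_le_mul_left hΛh hΛp, ?_⟩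
    rw [hcase] at h1 h4
    linarith
  · intro w hw1
    obtain ⟨h0a, h1⟩ := hw w hw1
    have h2 := hΘh (s0 + w / a)
    have h3 := hlogv (s0 + w / a) (hwHP' w hw1)
    have h5 : |ρ| * (s0 + w / a).re ≤ Θ s0 * Real.exp (w.re + ε) := by
      have h6 : |ρ| * (s0 + w / a).re ≤ |ρ| * (2 * s0.re) :=
        mul_le_mul_of_nonneg_left (hwHP w hw1).2 hρ0
      have h7 : Real.exp (-ℓ) ≤ Real.exp (w.re + ε) := by
        apply Real.exp_le_exp.2
        have := neg_abs_le w.re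
        have := Complex.abs_re_le_norm w
        linarith
      have h8 : |ρ| * (2 * s0.re) ≤ Θ s0 * Real.exp (-ℓ) := by
        rw [Real.exp_neg, ← div_eq_mul_inv, le_div_iff₀ (Real.exp_pos _)]
        exact hρsmall
      have h9 : Θ s0 * Real.exp (-ℓ) ≤ Θ s0 * Real.exp (w.re + ε) :=
        mul_le_mul_of_nonneg_left h7 (by linarith)
      linarith
    refine ⟨h0a, ?_, ?_⟩
    · rw [hcase] at h1
      have h4 : Λ * ‖h0 (s0 + w / a)‖ ≤ Λ * (‖h0 s0‖ * Real.exp (w.re + ε)) := by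
        rw [← mul_assoc]
        exact h2.trans h1
      exact le_of_mul_le_mul_left h4 hΛp
    · rw [hcase] at h1 h5
      have h4 : Λ * ‖h0 s0‖ * Real.exp (w.re + ε) = Λ * (‖h0 s0‖ * Real.exp (w.re + ε)) := by ring
      rw [h4] at h1 h5
      have h6 : 0 ≤ Λ * (‖h0 s0‖ * Real.exp (w.re + ε)) := by positivity
      linarith

end Pair

end Pool.Agent.K9h84.CI
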