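import Pool.Agent.K9h3.TC.PunB
import Pool.Agent.K9h84.CI.PunC
import Pool.Agent.K9h84.CI.Sml
import Pool.Agent.K9h3.TC.Rec

/-!
# Test functions vanish along curves on a half-plane with a large exponent
-/

set_option autoImplicit false

open Set Filter Topology Metric

namespace Pool.Agent.K9h84.CI

open Pool.Agent.K9h3.TC (per_int exists_shift isCompact_box exists_line rect rotP)

variable {s : ℕ}

namespace Pair

variable (D : Pair s)

/-- **test functions vanish along periodic curves on a half-plane** -/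
theorem globP (hk : 1 ≤ D.k) (hF : D.HF) {B : ℝ} (hB : 0 ≤ B)
    (hsp : ∀ (z0 : ℂ) (v : ℂ → VV s), DifferentiableOn ℂ v (ball z0 1) →
      (∀ z ∈ ball z0 1, D.on (v z)) → (∀ z ∈ ball z0 1, D.p (v z) = 1) → (∀ z ∈ ball z0 1, D.q (v z) = Complex.exp z) →
      ‖cr (v z0) (deriv v z0)‖ ≤ B * ‖v z0‖ ^ 2) {T : VV s → ℂ → ℂ} {n : ℕ} {C : ℝ} (hC : 0 ≤ C)
    (hT : Tst D B T n C)
    (hTper : ∀ (x : VV s) (t : ℂ) (i : ℤ), T x (t + i * (2 * Real.pi * Complex.I)) = T x t)
    {ρ : ℤ} {h0 : ℂ → ℂ} {V : ℂ → VV s} (hc : D.Hc ρ h0 V)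
    (hgrow : ∃ c σ0 : ℝ, 0 < c ∧ ∀ σ : ℝ, σ0 ≤ σ → ∃ sv : ℂ, sv.re = σ ∧ c * Real.exp σ ≤ ‖h0 sv‖) :
    ∀ sv ∈ HP, T (V sv) (h0 sv + (ρ : ℝ) * sv) = 0 := by
  by_contra hcon
  push Not at hcon
  have hπ := Real.pi_pos
  have hπ4 := Real.pi_lt_d2
  set γ : ℂ → ℂ := fun sv => T (V sv) (h0 sv + (ρ : ℝ) * sv) with hγ
  have hγd : DifferentiableOn ℂ γ {sv : ℂ | 0 < sv.re} := by
    intro sv hsv
    have h1 : DifferentiableAt ℂ V sv := (hc.vd sv hsv).differentiableAt (isOpen_HP.mem_nhds hsv)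
    have h2 : DifferentiableAt ℂ h0 sv := (hc.hd sv hsv).differentiableAt (isOpen_HP.mem_nhds hsv)
    exact (hT.dif V (fun sv => h0 sv + (ρ : ℝ) * sv) sv h1
      (h2.add (by fun_prop))).differentiableWithinAt
  have hγper : ∀ sv : ℂ, 0 < sv.re → ∀ i : ℤ, γ (sv + i * (2 * Real.pi * Complex.I)) = γ sv := by
    intro sv hsv i
    have h1 := per_int hc.hper i sv hsv
    have h2 := per_int hc.vper i sv hsv
    rw [hγ]
    simp only
    rw [h1, h2]
    have h3 : h0 sv + (ρ : ℝ) * (sv + i * (2 * Real.pi * Complex.I)) =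
        (h0 sv + (ρ : ℝ) * sv) + ((ρ * i : ℤ) : ℂ) * (2 * Real.pi * Complex.I) := by
      push_cast
      ring
    rw [h3, hTper]
  obtain ⟨σ2, g0, hσ1, hσ2, hg0, hg⟩ := exists_line hγd hγper hcon
  obtain ⟨M1, hM10, hM1⟩ : ∃ M1 : ℝ, 0 ≤ M1 ∧ ∀ sv : ℂ, sv.re = 1 → ‖γ sv‖ ≤ Real.exp M1 := by
    obtain ⟨K, hK⟩ := (isCompact_box 1 1).exists_bound_of_continuousOn
      (hγd.continuousOn.mono fun sv hsv => by
        show 0 < sv.re
        linarith [hsv.1])
    refine ⟨|K|, abs_nonneg _, fun sv hsv => ?_⟩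
    obtain ⟨i, hi1, hi2, hi3⟩ := exists_shift sv
    have h1 := hK _ ⟨by rw [hi3, hsv], by rw [hi3, hsv], hi1, hi2⟩
    rw [hγper sv (by rw [hsv]; exact one_pos)] at h1
    have h2 := le_abs_self K
    have h3 := Real.add_one_le_exp |K|
    linarith
  obtain ⟨Λ, hΛ, htch⟩ := D.tchP hk hF
  obtain ⟨Ls, R2, hLs, hR2, hsm⟩ := D.small hk hB hsp hC hT hΛ
  set C' : ℝ := 3 * C + n * (1 + 2 * Λ) with hC'
  have hC'0 : 0 ≤ C' := by positivity
  have hlog64 : 0 ≤ Real.log (64 * (C' + 1)) := Real.log_nonneg (by linarith)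
  set C1 : ℝ := 16 + 4 * (Ls + 10) + 4 * Real.log (64 * (C' + 1)) with hC1
  have habs := abs_nonneg (Real.log g0)
  have hσ21 : 0 < σ2 - 1 := by linarith
  set r : ℝ := |(ρ : ℝ)| with hr
  have hr0 : 0 ≤ r := abs_nonneg _
  set Sb : ℝ := (M1 + |Real.log g0| + 1) / (σ2 - 1) + 1400 * r + 2 * R2 with hSb
  have hSb1 : (M1 + |Real.log g0| + 1) / (σ2 - 1) ≤ Sb := by
    have : 0 ≤ 1400 * r := by positivity
    rw [hSb]
    linarith
  have hSbp : 0 ≤ (M1 + |Real.log g0| + 1) / (σ2 - 1) := by positivity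
  have hSb2 : 1400 * r ≤ Sb := by rw [hSb]; linarith
  have hSb3 : 2 * R2 ≤ Sb := by
    have : 0 ≤ 1400 * r := by positivity
    rw [hSb]
    linarith
  obtain ⟨s0, a, hs17, him0, him1, ha, hTm, hcirc, hw⟩ := htch ρ h0 V hc hgrow C1 (1 / 200) Sb 2
    (by linarith) (by norm_num) (by norm_num) (by linarith) (by norm_num)
  have hap : 0 < a := by linarith
  have hla : 0 ≤ Real.log (2 + a) := Real.log_nonneg (by linarith)
  have hs0re : 2 < s0.re := by linarith
  set A : ℝ := C1 * (1 + Real.log (2 + a)) with hA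
  have hAC : C1 ≤ A := by
    rw [hA]
    have : 0 ≤ C1 * Real.log (2 + a) := by positivity
    linarith
  set L : ℝ := A / 2 with hL
  set T0 : ℝ := ‖h0 s0‖ with hT0
  have hAp : 0 ≤ A := by linarith
  have heA : 1 ≤ Real.exp A := Real.one_le_exp hAp
  have hSbT : Sb * (1 + s0.re) ≤ T0 := by
    refine le_trans ?_ hTm
    exact le_mul_of_one_le_right (mul_nonneg (by linarith) (by linarith)) heA
  have hT01 : 1 ≤ T0 := by
    refine le_trans ?_ hSbT
    exact one_le_mul_of_one_le_of_one_le (by linarith) (by linarith)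
  have hT0p : 0 < T0 := by linarith
  -- the domain
  have hwre : ∀ w : ℂ, ‖w‖ ≤ A → 0 < (s0 + w / a).re ∧ ‖s0 + w / a‖ ≤ 7 * (1 + s0.re) := by
    intro w hw1
    have h1 := (hw w hw1).1
    have h2 : (s0 + w / a).re = s0.re + w.re / a := by rw [Complex.add_re, Complex.div_ofReal_re]
    have h3 : |w.re / a| ≤ 17 * C1 := by
      rw [abs_div, abs_of_pos hap]
      exact (div_le_div_of_nonneg_right (Complex.abs_re_le_norm w) hap.le).trans h1
    have h4 := abs_le.1 h3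
    have h5 := norm_add_le s0 (w / a)
    have h6 : ‖w / (a : ℂ)‖ = ‖w‖ / a := by
      rw [norm_div, Complex.norm_real, Real.norm_of_nonneg hap.le]
    have h7 := Complex.norm_le_abs_re_add_abs_im s0
    rw [abs_of_pos (by linarith : 0 < s0.re), abs_of_nonneg him0] at h7
    constructor
    · rw [h2]
      linarith
    · rw [h6] at h5
      linarith
  have hρb : ∀ w : ℂ, ‖w‖ ≤ A → ‖((ρ : ℝ) : ℂ) * (s0 + w / a)‖ ≤ T0 * Real.exp w.re / 200 := by
    intro w hw1
    rw [norm_mul, Complex.norm_real, Real.norm_eq_abs, ← hr]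
    have h1 : r * ‖s0 + w / a‖ ≤ r * (7 * (1 + s0.re)) :=
      mul_le_mul_of_nonneg_left (hwre w hw1).2 hr0
    have h2 : 1400 * r * (1 + s0.re) * Real.exp A ≤ T0 := by
      refine le_trans ?_ hTm
      exact mul_le_mul_of_nonneg_right (mul_le_mul_of_nonneg_right hSb2 (by linarith)) (by linarith)
    have h3 : Real.exp (-A) ≤ Real.exp w.re := by
      apply Real.exp_le_exp.2
      have := neg_abs_le w.re
      have := Complex.abs_re_le_norm w
      linarith
    have h4 : 1400 * r * (1 + s0.re) ≤ T0 * Real.exp (-A) := by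
      rw [Real.exp_neg, ← div_eq_mul_inv, le_div_iff₀ (Real.exp_pos _)]
      exact h2
    have h5 : T0 * Real.exp (-A) ≤ T0 * Real.exp w.re := mul_le_mul_of_nonneg_left h3 hT0p.le
    linarith
  -- the exponent
  set k : ℂ → ℂ := fun w => h0 (s0 + w / a) + (ρ : ℝ) * (s0 + w / a) with hkdef
  have h00 : s0 + (0 : ℂ) / a = s0 := by rw [zero_div, add_zero]
  set x : ℝ := Real.exp (1 / 200) with hx
  have hx1 : 1 + 1 / 200 ≤ x := by
    have := Real.add_one_le_exp (1 / 200 : ℝ)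
    linarith
  have hx2 : x + 1 / 200 ≤ x ^ 2 := by nlinarith
  have hx3 : 1.01 ≤ x ^ 2 := by nlinarith
  have hk0 : 199 / 200 * T0 ≤ ‖k 0‖ := by
    have h1 := hρb 0 (by rw [norm_zero]; exact hAp)
    rw [Complex.zero_re, Real.exp_zero, mul_one, h00] at h1
    have h2 : k 0 = h0 s0 + (ρ : ℝ) * s0 := by
      rw [hkdef]
      simp only [h00]
    rw [h2]
    have h3 := norm_sub_norm_le (h0 s0) (-((ρ : ℝ) * s0))
    rw [norm_neg, sub_neg_eq_add] at h3
    linarith
  have hk0p : 0 < ‖k 0‖ := lt_of_lt_of_le (by positivity) hk0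
  have hTk : T0 ≤ ‖k 0‖ * x ^ 2 := by
    have h1 : ‖k 0‖ * 1.01 ≤ ‖k 0‖ * x ^ 2 := mul_le_mul_of_nonneg_left hx3 hk0p.le
    linarith
  have hx4 : x ^ 4 ≤ Real.exp (1 / 48) := by
    have h1 : x ^ 4 = Real.exp (4 * (1 / 200)) := by
      rw [hx]
      have := Real.exp_nat_mul (1 / 200) 4
      rw [← this]
      norm_num
    rw [h1]
    exact Real.exp_le_exp.2 (by norm_num)
  have hkw : ∀ w : ℂ, ‖w‖ ≤ A → ‖k w‖ ≤ ‖k 0‖ * Real.exp (w.re + 1 / 48) := by
    intro w hw1
    have h1 := (hw w hw1).2.1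
    have h2 := hρb w hw1
    have h3 : ‖k w‖ ≤ T0 * Real.exp (w.re + 1 / 200) + T0 * Real.exp w.re / 200 :=
      (norm_add_le _ _).trans (add_le_add h1 h2)
    refine h3.trans ?_
    rw [Real.exp_add, Real.exp_add, ← hx]
    have h4 := Real.exp_pos w.re
    calc T0 * (Real.exp w.re * x) + T0 * Real.exp w.re / 200 =
        T0 * (Real.exp w.re * (x + 1 / 200)) := by ring
      _ ≤ (‖k 0‖ * x ^ 2) * (Real.exp w.re * x ^ 2) :=
          mul_le_mul hTk (mul_le_mul_of_nonneg_left hx2 h4.le) (by positivity) (by positivity)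
      _ = ‖k 0‖ * (Real.exp w.re * x ^ 4) := by ring
      _ ≤ _ := by gcongr
  have hVw : ∀ w : ℂ, ‖w‖ ≤ A → Real.log ‖V (s0 + w / a)‖ ≤
      2 * Λ * (‖k 0‖ * Real.exp (w.re + 1 / 48)) := by
    intro w hw1
    refine (hw w hw1).2.2.trans ?_
    refine mul_le_mul_of_nonneg_left ?_ (by linarith)
    rw [Real.exp_add, Real.exp_add, ← hx]
    have h4 := Real.exp_pos w.re
    have h5 : x ≤ x ^ 2 := by linarith
    calc T0 * (Real.exp w.re * x) ≤ (‖k 0‖ * x ^ 2) * (Real.exp w.re * x ^ 2) :=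
          mul_le_mul hTk (mul_le_mul_of_nonneg_left h5 h4.le) (by positivity) (by positivity)
      _ = ‖k 0‖ * (Real.exp w.re * x ^ 4) := by ring
      _ ≤ _ := by gcongr
  have hLA : 2 * L = A := by rw [hL]; ring
  have hmaps : ∀ w ∈ ball (0 : ℂ) (2 * L), s0 + w / a ∈ HP := by
    intro w hw1
    rw [mem_ball_zero_iff, hLA] at hw1
    exact (hwre w hw1.le).1
  have hsmall := hsm k (fun w => V (s0 + w / a)) L
    ((hc.hd.comp (by fun_prop) hmaps).add (by fun_prop)) (hc.vd.comp (by fun_prop) hmaps)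
    (fun w hw1 => hc.on _ (hmaps w (mem_ball_zero_iff.2 hw1)))
    (fun w hw1 => hc.hp _ (hmaps w (mem_ball_zero_iff.2 hw1)))
    (fun w hw1 => hc.hq _ (hmaps w (mem_ball_zero_iff.2 hw1)))
    (fun w hw1 => hkw w (by linarith)) (fun w hw1 => hVw w (by linarith)) (by
      have h1 : Real.exp L ≤ Real.exp A := Real.exp_le_exp.2 (by linarith)
      have h2 : 2 * R2 * Real.exp A ≤ T0 := by
        refine le_trans ?_ hTm
        refine mul_le_mul_of_nonneg_right ?_ (by linarith)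
        have h3 : Sb * 1 ≤ Sb * (1 + s0.re) := mul_le_mul_of_nonneg_left (by linarith) (by linarith)
        linarith
      have h3 : R2 * Real.exp L ≤ R2 * Real.exp A := mul_le_mul_of_nonneg_left h1 (by linarith)
      linarith)
  set l : ℝ := L - Ls - 4 with hl
  have hl1 : 1 ≤ l := by linarith
  have hrect := rect (Γ := fun w => γ (s0 + w / a)) (T := ‖k 0‖) (l := l) (by
      refine hγd.comp (by fun_prop) fun w hw1 => ?_
      apply hmaps
      rw [mem_ball_zero_iff] at hw1 ⊢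
      linarith) hk0p.le hl1 (fun w hw1 hw2 => by
      refine hsmall w ?_
      have := Complex.norm_le_abs_re_add_abs_im w
      linarith)
  set m : ℕ := ⌈Real.pi * a⌉₊ with hm
  have hm1 : Real.pi * a ≤ m := Nat.le_ceil _
  have hm2 : (m : ℝ) < Real.pi * a + 1 := Nat.ceil_lt_add_one (by positivity)
  have hmp : (0 : ℝ) < m := lt_of_lt_of_le (by positivity) hm1
  have h6 : (m : ℝ) ≤ 4 * (2 + a) := by
    have : Real.pi * a ≤ 4 * a := mul_le_mul_of_nonneg_right (by linarith) hap.le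
    linarith
  have h8 : 64 * (C' + 1) * (2 + a) ≤ Real.exp (l / 2) := by
    rw [← Real.exp_log (show 0 < 64 * (C' + 1) * (2 + a) by positivity)]
    apply Real.exp_le_exp.2
    rw [Real.log_mul (by positivity) (by positivity)]
    have h9 : C1 / 4 * (1 + Real.log (2 + a)) = A / 4 := by rw [hA]; ring
    have h10 : Real.log (2 + a) ≤ C1 / 4 * Real.log (2 + a) :=
      le_mul_of_one_le_left hla (by linarith)
    have h11 : A / 4 = C1 / 4 + C1 / 4 * Real.log (2 + a) := by rw [← h9]; ring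
    have h12 : l / 2 = A / 4 - Ls / 2 - 2 := by rw [hl, hL]; ring
    rw [h12, h11]
    linarith
  have h2a : 0 < 2 + a := by linarith
  have hT2k : T0 ≤ 2 * ‖k 0‖ := by linarith
  have hrot := rotP hγd hγper one_pos hσ1 hg0 hM10 hM1 hg (s0 := s0) (by linarith) hap hm1
    (M := C' * T0) (S := ‖k 0‖ * Real.exp (l / 2) / 4) (by positivity) (fun sv hsv => by
      obtain ⟨i, hi1, hi2, hi3⟩ := exists_shift sv
      have hsp0 : 0 < sv.re := by rw [hsv]; linarith
      rw [← hγper sv hsp0 i]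
      set sv' : ℂ := sv + i * (2 * Real.pi * Complex.I) with hsv'
      have hsv're : sv'.re = s0.re := by rw [hi3, hsv]
      obtain ⟨h1, h2⟩ := hcirc sv' hsv're
      have hsv'HP : sv' ∈ HP := by
        show 0 < sv'.re
        rw [hsv're]
        linarith
      have h3 := one_add_pow_le (D.p_eq_one_ne (hc.hp sv' hsv'HP)) (by positivity) h2 n
      have h4 : ‖h0 sv' + (ρ : ℝ) * sv'‖ ≤ 2 * T0 := by
        refine (norm_add_le _ _).trans ?_
        rw [norm_mul, Complex.norm_real, Real.norm_eq_abs, ← hr]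
        have h5 := Complex.norm_le_abs_re_add_abs_im sv'
        rw [hsv're, abs_of_pos (by linarith : 0 < s0.re), abs_of_nonneg hi1] at h5
        have h6 : r * ‖sv'‖ ≤ r * (7 * (1 + s0.re)) :=
          mul_le_mul_of_nonneg_left (by linarith) hr0
        have h7 : 1400 * r * (1 + s0.re) ≤ T0 := by
          refine le_trans ?_ hSbT
          exact mul_le_mul_of_nonneg_right hSb2 (by linarith)
        have h8 : 0 ≤ r * (1 + s0.re) := mul_nonneg hr0 (by linarith)
        linarith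
      refine (hT.bd _ _).trans ?_
      calc Real.exp (C * (1 + ‖h0 sv' + (ρ : ℝ) * sv'‖)) * (1 + ‖V sv'‖) ^ n ≤
          Real.exp (C * (1 + ‖h0 sv' + (ρ : ℝ) * sv'‖)) * Real.exp (n * (1 + 2 * Λ * ‖h0 s0‖)) :=
            mul_le_mul_of_nonneg_left h3 (Real.exp_pos _).le
        _ ≤ Real.exp (C' * T0) := by
          rw [← Real.exp_add]
          apply Real.exp_le_exp.2
          have h5 : C * (1 + ‖h0 sv' + (ρ : ℝ) * sv'‖) ≤ C * (3 * T0) :=
            mul_le_mul_of_nonneg_left (by linarith) hC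
          have h6 : (n : ℝ) * (1 + 2 * Λ * T0) ≤ n * ((1 + 2 * Λ) * T0) :=
            mul_le_mul_of_nonneg_left (by linarith) (Nat.cast_nonneg n)
          rw [hC']
          linarith) hrect (by
      have h9 : (m : ℝ) * (C' * T0) ≤ 4 * (2 + a) * (C' * (2 * ‖k 0‖)) :=
        mul_le_mul h6 (mul_le_mul_of_nonneg_left hT2k hC'0) (by positivity) (by positivity)
      have h10 : ‖k 0‖ * (64 * (C' + 1) * (2 + a)) ≤ ‖k 0‖ * Real.exp (l / 2) :=
        mul_le_mul_of_nonneg_left h8 hk0p.le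
      have h11 : 0 ≤ (2 + a) * (C' * ‖k 0‖) := by positivity
      have h12 : 0 ≤ (2 + a) * ‖k 0‖ := by positivity
      linarith)
  -- the contradiction
  have hs0p : 0 < s0.re := by linarith
  have h9 : (m : ℝ) * (M1 - Real.log g0) ≤ m * (M1 + |Real.log g0|) := by
    refine mul_le_mul_of_nonneg_left ?_ hmp.le
    have := neg_abs_le (Real.log g0)
    linarith
  have h10 : (σ2 - 1) / s0.re * (2 * m * ‖k 0‖) ≤ m * (M1 + |Real.log g0|) := by
    refine le_trans ?_ (hrot.trans h9)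
    refine mul_le_mul_of_nonneg_left ?_ (by positivity)
    have h11 : ‖k 0‖ * (64 * (C' + 1) * (2 + a)) ≤ ‖k 0‖ * Real.exp (l / 2) :=
      mul_le_mul_of_nonneg_left h8 hk0p.le
    have h12 : ‖k 0‖ * m ≤ ‖k 0‖ * (4 * (2 + a)) := mul_le_mul_of_nonneg_left h6 hk0p.le
    have h13 : 0 ≤ (2 + a) * (C' * ‖k 0‖) := by positivity
    linarith
  have h11 : (σ2 - 1) / s0.re * (2 * ‖k 0‖) ≤ M1 + |Real.log g0| := by
    have h12 : m * ((σ2 - 1) / s0.re * (2 * ‖k 0‖)) ≤ m * (M1 + |Real.log g0|) := by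
      refine le_trans (le_of_eq ?_) h10
      ring
    exact le_of_mul_le_mul_left h12 hmp
  have h12 : (M1 + |Real.log g0| + 1) / (σ2 - 1) * (1 + s0.re) ≤ 2 * ‖k 0‖ := by
    have h13 : (M1 + |Real.log g0| + 1) / (σ2 - 1) * (1 + s0.re) ≤ Sb * (1 + s0.re) :=
      mul_le_mul_of_nonneg_right hSb1 (by linarith)
    linarith
  have h13 : (σ2 - 1) / s0.re * ((M1 + |Real.log g0| + 1) / (σ2 - 1) * (1 + s0.re)) ≤
      M1 + |Real.log g0| := (mul_le_mul_of_nonneg_left h12 (by positivity)).trans h11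
  have h14 : (σ2 - 1) / s0.re * ((M1 + |Real.log g0| + 1) / (σ2 - 1) * (1 + s0.re)) =
      (M1 + |Real.log g0| + 1) * ((1 + s0.re) / s0.re) := by
    field_simp
  rw [h14] at h13
  have h15 : 1 ≤ (1 + s0.re) / s0.re := by
    rw [le_div_iff₀ hs0p]
    linarith
  have h16 : M1 + |Real.log g0| + 1 ≤ (M1 + |Real.log g0| + 1) * ((1 + s0.re) / s0.re) :=
    le_mul_of_one_le_right (by positivity) h15
  linarith

end Pair

end Pool.Agent.K9h84.CI
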