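import Pool.Agent.K9h84.CI.PunC
import Pool.Agent.K9h21.PD

/-!
# Curves on a half-plane with a tame exponent extend
-/

set_option autoImplicit false

open Set Filter Topology Metric

namespace Pool.Agent.K9h84.CI

open Pool.Agent.K9h3.TC (per_int exists_shift isCompact_box)

variable {s : ℕ}

namespace Pair

variable (D : Pair s)

/-- **curves with a tame exponent extend** -/
theorem ext_case (hk : 1 ≤ D.k) (hF : D.HF) {ρ : ℝ} {h0 : ℂ → ℂ} {V : ℂ → VV s} (hc : D.Hc ρ h0 V)
    {K : ℝ} (hK : ∀ sv : ℂ, 1 ≤ sv.re → ‖h0 sv‖ ≤ K) :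
    ∃ (j : Fin (s + 3)) (C σ' : ℝ), 0 ≤ σ' ∧ ∀ sv : ℂ, σ' < sv.re → ‖V sv‖ ≤ C * ‖V sv j‖ := by
  have hπ := Real.pi_pos
  have hπ4 := Real.pi_lt_d2
  obtain ⟨Λ, hΛ, hhrk⟩ := D.hrk hk hF
  obtain ⟨Mc, hMc, hcusp⟩ := D.cusp_h
  have hb1 : (1 : ℝ) ≤ D.b := by exact_mod_cast D.hb
  have hbp : (0 : ℝ) < D.b := by linarith
  have hK0 : 0 ≤ K := (norm_nonneg _).trans (hK 1 (by simp))
  have hρ0 := abs_nonneg ρ
  have hne : ∀ sv ∈ HP, V sv ≠ 0 := fun sv hsv => D.p_eq_one_ne (hc.hp sv hsv)
  have hHP : ∀ sv : ℂ, 0 < sv.re → sv ∈ HP := fun sv hsv => hsv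
  set hh : ℂ → ℂ := fun sv => h0 sv + ρ * sv with hhh
  set M1 : ℂ → ℝ := fun sv => Real.log ‖V sv‖ with hM1
  set M2 : ℂ → ℝ := fun sv => Real.log ‖V sv‖ - (hh sv).re / D.b with hM2
  have hper1 : ∀ sv ∈ HP, ∀ n : ℤ, M1 (sv + n * (2 * Real.pi * Complex.I)) = M1 sv := by
    intro sv hsv n
    have h2 := per_int hc.vper n sv hsv
    rw [hM1]
    simp only
    rw [h2]
  have hper2 : ∀ sv ∈ HP, ∀ n : ℤ, M2 (sv + n * (2 * Real.pi * Complex.I)) = M2 sv := by
    intro sv hsv n
    have h1 := per_int hc.hper n sv hsv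
    have h2 := per_int hc.vper n sv hsv
    have h3 : (hh (sv + n * (2 * Real.pi * Complex.I))).re = (hh sv).re := by
      rw [hhh]
      simp only
      rw [h1, Complex.add_re, Complex.add_re, Complex.re_ofReal_mul, Complex.re_ofReal_mul]
      simp
    rw [hM2]
    simp only
    rw [h2, h3]
  -- the derivative of the exponent
  set K2 : ℝ := K + |ρ| + 1 with hK2
  have hK2p : 1 ≤ K2 := by linarith
  have hder : ∀ sv : ℂ, 2 < sv.re → ‖deriv hh sv‖ ≤ K2 := by
    intro sv hsv
    have hsHP : sv ∈ HP := hHP sv (by linarith)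
    have hd0 : DifferentiableAt ℂ h0 sv := (hc.hd sv hsHP).differentiableAt (isOpen_HP.mem_nhds hsHP)
    have hcl : ∀ x ∈ closedBall sv (1 : ℝ), 1 ≤ x.re := by
      intro x hx
      rw [mem_closedBall_iff_norm] at hx
      have h1 := Complex.abs_re_le_norm (x - sv)
      rw [Complex.sub_re] at h1
      have h2 := neg_abs_le (x.re - sv.re)
      linarith
    have h1 : ‖deriv h0 sv‖ ≤ K / 1 := by
      refine Complex.norm_deriv_le_of_forall_mem_sphere_norm_le one_pos ?_ fun x hx =>
        hK x (hcl x (sphere_subset_closedBall hx))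
      apply DifferentiableOn.diffContOnCl
      rw [closure_ball _ one_ne_zero]
      exact hc.hd.mono fun x hx => hHP x (by linarith [hcl x hx])
    rw [div_one] at h1
    have h2 : HasDerivAt (fun sv : ℂ => (ρ : ℂ) * sv) ρ sv := by
      have := (hasDerivAt_id sv).const_mul (ρ : ℂ)
      rw [mul_one] at this
      exact this
    have h3 : deriv hh sv = deriv h0 sv + ρ := (hd0.hasDerivAt.add h2).deriv
    rw [h3]
    refine (norm_add_le _ _).trans ?_
    rw [Complex.norm_real, Real.norm_eq_abs]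
    linarith
  set C2 : ℝ := Λ * K2 / 2 with hC2
  have hC2p : 0 < C2 := by positivity
  -- Harnack on large discs
  have hhar : ∀ s0 : ℂ, 60 ≤ s0.re → C2 * s0.re ≤ M1 s0 → C2 * s0.re ≤ M2 s0 →
      ∀ sv : ℂ, sv.re = s0.re → C2 * s0.re ≤ 6 * M1 sv + 9 ∧ C2 * s0.re ≤ 6 * M2 sv + 9 := by
    intro s0 hs0 h1 h2 sv hsv
    have hsub : ball s0 (s0.re / 2) ⊆ {x : ℂ | 2 < x.re} := by
      intro x hx
      rw [mem_ball_iff_norm] at hx
      have h3 := Complex.abs_re_le_norm (x - s0)
      rw [Complex.sub_re] at h3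
      have h4 := neg_abs_le (x.re - s0.re)
      show 2 < x.re
      linarith
    have hsubHP : ball s0 (s0.re / 2) ⊆ HP := fun x hx => by
      have : 2 < x.re := hsub hx
      exact hHP x (by linarith)
    have hω : K2 * (s0.re / 2) / (s0.re / 2) = K2 := by
      have : s0.re / 2 ≠ 0 := by
        intro h
        linarith
      field_simp
    have hΛω : Λ * (K2 * (s0.re / 2)) = C2 * s0.re := by
      rw [hC2]
      ring
    -- translate to the disc
    obtain ⟨n, hn⟩ : ∃ n : ℤ, |(sv + n * (2 * Real.pi * Complex.I)).im - s0.im| ≤ 2 * Real.pi := by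
      obtain ⟨n, hn1, hn2, -⟩ := exists_shift (sv - s0.im * Complex.I)
      refine ⟨n, ?_⟩
      have h3 : (sv + n * (2 * Real.pi * Complex.I)).im - s0.im =
          (sv - s0.im * Complex.I + n * (2 * Real.pi * Complex.I)).im := by
        simp
        ring
      rw [h3, abs_of_nonneg hn1]
      exact hn2
    set sv' : ℂ := sv + n * (2 * Real.pi * Complex.I) with hsv'
    have hsv're : sv'.re = s0.re := by
      rw [hsv', ← hsv]
      simp
    have hmem : sv' ∈ ball s0 (s0.re / 2 / 4) := by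
      rw [mem_ball_iff_norm]
      have h3 := Complex.norm_le_abs_re_add_abs_im (sv' - s0)
      rw [Complex.sub_re, Complex.sub_im, hsv're, sub_self, abs_zero, zero_add] at h3
      linarith
    have hsHP : sv ∈ HP := hHP sv (by rw [hsv]; linarith)
    have h3 := hhrk s0 (s0.re / 2) (K2 * (s0.re / 2)) hh V (by linarith) (by nlinarith)
      ((hc.hd.mono hsubHP).add (by fun_prop)) (fun x hx => by
        rw [hω]
        exact hder x (hsub hx)) (hc.vd.mono hsubHP) (fun x hx => hc.on x (hsubHP hx))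
      (fun x hx => hc.hp x (hsubHP hx))
      (fun x hx => hc.hq x (hsubHP hx)) (by rw [hΛω]; exact h1) (by rw [hΛω]; exact h2) sv' hmem
    have h4 : M1 sv' = M1 sv := hper1 sv hsHP n
    have h5 : M2 sv' = M2 sv := hper2 sv hsHP n
    have h6 : M1 s0 ≤ 6 * M1 sv' + 9 := h3.1
    have h7 : M2 s0 ≤ 6 * M2 sv' + 9 := h3.2
    rw [h4] at h6
    rw [h5] at h7
    constructor <;> linarith
  by_cases hgood : ∀ σs : ℝ, ∃ σ, σs ≤ σ ∧ ∀ sv : ℂ, sv.re = σ → min (M1 sv) (M2 sv) < C2 * σ
  · -- polynomial growth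
    set C4 : ℝ := C2 + K + |ρ| with hC4
    have hline : ∀ σ : ℝ, 1 ≤ σ → (∀ sv : ℂ, sv.re = σ → min (M1 sv) (M2 sv) < C2 * σ) →
        ∀ sv : ℂ, sv.re = σ → ‖V sv‖ ≤ Real.exp (C4 * sv.re) := by
      intro σ hσ hg sv hsv
      have hsHP : sv ∈ HP := hHP sv (by rw [hsv]; linarith)
      rw [← Real.log_le_iff_le_exp (norm_pos_iff.2 (hne sv hsHP))]
      have h1 := hg sv hsv
      have h2 : (hh sv).re / D.b ≤ K + |ρ| * sv.re := by
        rw [div_le_iff₀ hbp]
        have h7 := ((le_abs_self _).trans (Complex.abs_re_le_norm (h0 sv))).trans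
          (hK sv (by rw [hsv]; exact hσ))
        have h8 : (hh sv).re = (h0 sv).re + ρ * sv.re := by
          rw [hhh]
          simp only
          rw [Complex.add_re, Complex.re_ofReal_mul]
        have hsp : 0 ≤ sv.re := by rw [hsv]; linarith
        have h9 : ρ * sv.re ≤ |ρ| * sv.re := mul_le_mul_of_nonneg_right (le_abs_self _) hsp
        have h10 : 0 ≤ K + |ρ| * sv.re := by positivity
        have h11 : (K + |ρ| * sv.re) * 1 ≤ (K + |ρ| * sv.re) * D.b :=
          mul_le_mul_of_nonneg_left hb1 h10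
        linarith
      have h3 : K ≤ K * sv.re := by
        rw [hsv]
        exact le_mul_of_one_le_right hK0 hσ
      have h4 : 0 ≤ |ρ| * sv.re := by
        rw [hsv]
        positivity
      rw [← hsv] at h1
      rcases min_choice (M1 sv) (M2 sv) with h5 | h5
      · rw [h5] at h1
        have h6 : Real.log ‖V sv‖ < C2 * sv.re := h1
        rw [hC4]
        linarith
      · rw [h5] at h1
        have h6 : Real.log ‖V sv‖ - (hh sv).re / D.b < C2 * sv.re := h1
        rw [hC4]
        linarith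
    obtain ⟨σ1, hσ1, hg1⟩ := hgood 1
    refine Pool.Agent.K9h21.PD.dom_of_growth (σ := σ1) (N := C4) (K := 1) hc.vd
      (fun sv hsv => hne sv (hHP sv hsv)) (fun sv hsv => hc.vper sv (hHP sv hsv)) fun sv hsv => ?_
    rw [one_mul]
    obtain ⟨σ2, hσ2, hg2⟩ := hgood (sv.re + 1)
    have hlt : σ1 < σ2 := by linarith
    obtain ⟨Cb, hCb⟩ := (isCompact_box σ1 σ2).exists_bound_of_continuousOn
      (hc.vd.continuousOn.mono fun sv hsv => hHP sv (by linarith [hsv.1]))
    have hVb : ∀ x : ℂ, σ1 ≤ x.re → x.re ≤ σ2 → ‖V x‖ ≤ |Cb| := by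
      intro x hx1 hx2
      obtain ⟨n, hn1, hn2, hn3⟩ := exists_shift x
      have h3 := hCb _ ⟨by rw [hn3]; exact hx1, by rw [hn3]; exact hx2, hn1, hn2⟩
      rw [per_int hc.vper n x (by linarith)] at h3
      exact h3.trans (le_abs_self _)
    have hFn : ∀ x : ℂ, ‖Complex.exp (-(C4 * x)) • V x‖ = Real.exp (-(C4 * x.re)) * ‖V x‖ := by
      intro x
      rw [norm_smul, Complex.norm_exp, Complex.neg_re, Complex.re_ofReal_mul]
    have hF1 : ∀ x : ℂ, ‖V x‖ ≤ Real.exp (C4 * x.re) → ‖Complex.exp (-(C4 * x)) • V x‖ ≤ 1 := by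
      intro x hx
      rw [hFn, Real.exp_neg, inv_mul_le_iff₀ (Real.exp_pos _), mul_one]
      exact hx
    have hC40 : 0 ≤ C4 := by positivity
    have h3l := Complex.HadamardThreeLines.norm_le_interp_of_mem_verticalClosedStrip'
      (f := fun x => Complex.exp (-(C4 * x)) • V x) (z := sv) (a := 1) (b := 1) hlt
      ⟨hsv.le, by linarith⟩ (by
        apply DifferentiableOn.diffContOnCl
        have hcl : closure (Complex.HadamardThreeLines.verticalStrip σ1 σ2) ⊆
            {sv : ℂ | σ1 ≤ sv.re} := by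
          apply closure_minimal
          · intro sv hsv
            exact hsv.1.le
          · exact isClosed_le continuous_const Complex.continuous_re
        have hexp : Differentiable ℂ (fun x : ℂ => Complex.exp (-(C4 * x))) := by fun_prop
        refine hexp.differentiableOn.smul (hc.vd.mono fun x hx => ?_)
        have h1 : σ1 ≤ x.re := hcl hx
        exact hHP x (by linarith)) (by
        refine ⟨|Cb|, ?_⟩
        rintro _ ⟨x, hx, rfl⟩
        show ‖Complex.exp (-(C4 * x)) • V x‖ ≤ _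
        rw [hFn]
        have h1 : σ1 ≤ x.re := hx.1
        have h2 := hVb x hx.1 hx.2
        have h3 : Real.exp (-(C4 * x.re)) ≤ 1 := by
          rw [Real.exp_le_one_iff]
          have : 0 ≤ C4 * x.re := mul_nonneg hC40 (by linarith)
          linarith
        calc Real.exp (-(C4 * x.re)) * ‖V x‖ ≤ 1 * |Cb| :=
              mul_le_mul h3 h2 (norm_nonneg _) one_pos.le
          _ = |Cb| := one_mul _) (fun x hx => hF1 x (hline σ1 hσ1 hg1 x hx))
      (fun x hx => hF1 x (hline σ2 (by linarith) hg2 x hx))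
    rw [Real.one_rpow, Real.one_rpow, mul_one, hFn, Real.exp_neg,
      inv_mul_le_iff₀ (Real.exp_pos _), mul_one] at h3l
    exact h3l
  · -- near a base point
    push Not at hgood
    obtain ⟨σs, hσs⟩ := hgood
    set σ' : ℝ := max σs 60 + (9 + 6 * Real.log Mc + 1) / C2 with hσ'
    have hlogM : 0 ≤ Real.log Mc := Real.log_nonneg hMc
    have hq0 : 0 < (9 + 6 * Real.log Mc + 1) / C2 := by positivity
    have hdeep : ∀ sv : ℂ, σ' < sv.re → Real.log Mc < M1 sv ∧ Real.log Mc < M2 sv := by
      intro sv hsv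
      have h60 : 60 ≤ sv.re := by
        have := le_max_right σs 60
        linarith
      have hσss : σs ≤ sv.re := by
        have := le_max_left σs 60
        linarith
      obtain ⟨s0, hs0, hbad⟩ := hσs sv.re hσss
      have h1 : C2 * s0.re ≤ M1 s0 := by
        rw [hs0]
        exact hbad.trans (min_le_left _ _)
      have h2 : C2 * s0.re ≤ M2 s0 := by
        rw [hs0]
        exact hbad.trans (min_le_right _ _)
      have h3 := hhar s0 (by rw [hs0]; exact h60) h1 h2 sv hs0.symm
      have h4 : 9 + 6 * Real.log Mc + 1 ≤ C2 * s0.re := by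
        rw [hs0]
        have h5 : (9 + 6 * Real.log Mc + 1) / C2 ≤ sv.re := by
          have := le_max_right σs 60
          linarith
        rw [div_le_iff₀ hC2p] at h5
        linarith
      constructor
      · linarith [h3.1]
      · linarith [h3.2]
    have hSHP : {sv : ℂ | σ' < sv.re} ⊆ HP := fun sv hsv => by
      have h1 : σ' < sv.re := hsv
      have := le_max_right σs 60
      exact hHP sv (by linarith)
    obtain ⟨j, hj⟩ := hcusp {sv : ℂ | σ' < sv.re} hh V (convex_halfSpace_re_gt σ').isPreconnected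
      (hc.vd.continuousOn.mono hSHP) (fun sv hsv => hc.on sv (hSHP hsv))
      (fun sv hsv => hc.hp sv (hSHP hsv))
      (fun sv hsv => hc.hq sv (hSHP hsv)) (fun sv hsv => by
        obtain ⟨h1, h2⟩ := hdeep sv hsv
        have hVp : 0 < ‖V sv‖ := norm_pos_iff.2 (hne sv (hSHP hsv))
        have hMp : 0 < Mc := by linarith
        constructor
        · exact (Real.log_lt_log_iff hMp hVp).1 h1
        · have h3 : Real.log Mc < Real.log ‖V sv‖ - (hh sv).re / D.b := h2
          rw [← Real.log_lt_log_iff (by positivity) hVp, Real.log_mul hMp.ne' (Real.exp_ne_zero _),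
            Real.log_exp]
          linarith)
    refine ⟨j, 2, σ', ?_, fun sv hsv => hj sv hsv⟩
    have := le_max_right σs 60
    linarith

end Pair

end Pool.Agent.K9h84.CI
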