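import Pool.Agent.K9h84.CI.All
import Pool.Agent.K9h84.CI.PunD
import Pool.Agent.K9h84.CI.PunE

/-!
# Classification of the curves on the half-plane
-/

set_option autoImplicit false

open Set Filter Topology Metric

namespace Pool.Agent.K9h84.CI

variable {s : ℕ}

theorem HP_conn : IsPreconnected HP := (convex_halfSpace_re_gt 0).isPreconnected

theorem prod_zeroP {ι : Type*} [DecidableEq ι] (sv : Finset ι) {F : ι → ℂ → ℂ}
    (hF : ∀ i ∈ sv, DifferentiableOn ℂ (F i) HP) (h : ∀ z ∈ HP, ∏ i ∈ sv, F i z = 0) :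
    ∃ i ∈ sv, ∀ z ∈ HP, F i z = 0 := by
  induction sv using Finset.induction_on with
  | empty =>
    have := h 1 (by show (0 : ℝ) < (1 : ℂ).re; simp)
    simp at this
  | insert j sv hj ih =>
    have h1 : DifferentiableOn ℂ (F j) HP := hF j (Finset.mem_insert_self _ _)
    have h2 : DifferentiableOn ℂ (fun z => ∏ i ∈ sv, F i z) HP :=
      DifferentiableOn.fun_finsetProd fun i hi => hF i (Finset.mem_insert_of_mem hi)
    rcases AnalyticOnNhd.eq_zero_or_eq_zero_of_mul_eq_zero (U := HP)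
      (h1.analyticOnNhd isOpen_HP) (h2.analyticOnNhd isOpen_HP)
      (fun z hz => by
        have := h z hz
        rw [Finset.prod_insert hj] at this
        exact this) HP_conn with h3 | h3
    · exact ⟨j, Finset.mem_insert_self _ _, h3⟩
    · obtain ⟨i, hi, h4⟩ := ih (fun i hi => hF i (Finset.mem_insert_of_mem hi)) h3
      exact ⟨i, Finset.mem_insert_of_mem hi, h4⟩

namespace Pair

variable (D : Pair s)

/-- the product test functions are periodic in the parameter -/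
theorem tst_per {B : ℝ} (L : Finset (ℂ → VV s)) (hL : ∀ W, W ∈ L ↔ D.Cv B 0 W) (c x : VV s) (t : ℂ)
    (i : ℤ) : ∏ W ∈ L, dt c (x - W (t + i * (2 * Real.pi * Complex.I))) =
      ∏ W ∈ L, dt c (x - W t) := by
  have hsh : ∀ (i : ℤ) (W : ℂ → VV s), D.Cv B 0 W →
      D.Cv B 0 (fun z => W (z + i * (2 * Real.pi * Complex.I))) := by
    intro i W hW
    have h1 := D.cv_mod (hW.shift (i * (2 * Real.pi * Complex.I))) i
    have h2 : (0 : ℂ) + i * (2 * Real.pi * Complex.I) - (i : ℂ) * (2 * Real.pi * Complex.I) = 0 := by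
      ring
    rw [h2] at h1
    exact h1
  refine Finset.prod_bij' (fun W _ => fun z => W (z + i * (2 * Real.pi * Complex.I)))
    (fun W _ => fun z => W (z + (-i : ℤ) * (2 * Real.pi * Complex.I))) ?_ ?_ ?_ ?_ ?_
  · intro W hW
    exact (hL _).2 (hsh i W ((hL W).1 hW))
  · intro W hW
    exact (hL _).2 (hsh (-i) W ((hL W).1 hW))
  · intro W hW
    funext z
    simp only
    congr 1
    push_cast
    ring
  · intro W hW
    funext z
    simp only
    congr 1
    push_cast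
    ring
  · intro W hW
    rfl

/-- **classification of the normalised curves**, entire or on the half-plane -/
theorem classify2 (hk : 1 ≤ D.k) (hF : D.HF) : ∃ (B : ℝ) (L : Finset (ℂ → VV s)), 0 ≤ B ∧
    (∀ W ∈ L, D.Cv B 0 W) ∧
    (∀ (h : ℂ → ℂ) (v : ℂ → VV s), Differentiable ℂ h →
      Differentiable ℂ v → (∀ z, D.on (v z)) → (∀ z, D.p (v z) = 1) → (∀ z, D.q (v z) = Complex.exp (h z)) →
      (∃ z, deriv h z ≠ 0) → ∃ W ∈ L, ∀ z, v z = W (h z)) ∧
    ∀ (ρ : ℤ) (h0 : ℂ → ℂ) (V : ℂ → VV s), D.Hc ρ h0 V →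
      (∃ c σ0 : ℝ, 0 < c ∧ ∀ σ : ℝ, σ0 ≤ σ → ∃ sv : ℂ, sv.re = σ ∧ c * Real.exp σ ≤ ‖h0 sv‖) →
      ∃ W ∈ L, ∀ sv ∈ HP, V sv = W (h0 sv + (ρ : ℝ) * sv) := by
  classical
  obtain ⟨B, hBp, hspeed⟩ := D.rel_speed3 hk hF
  have hB : 0 ≤ B := hBp.le
  have hsp : ∀ (z0 : ℂ) (v : ℂ → VV s), DifferentiableOn ℂ v (ball z0 1) →
      (∀ z ∈ ball z0 1, D.on (v z)) → (∀ z ∈ ball z0 1, D.p (v z) = 1) → (∀ z ∈ ball z0 1, D.q (v z) = Complex.exp z) →
      ‖cr (v z0) (deriv v z0)‖ ≤ B * ‖v z0‖ ^ 2 := by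
    intro z0 v hv hon hp hq
    have h1 := hspeed 1 z0 id v one_pos differentiableOn_id (fun z _ => by
      rw [deriv_id]
      simp) hv hon hp hq
    rw [div_one] at h1
    exact h1
  have hfin := D.fin_all hk hB
  set L : Finset (ℂ → VV s) := hfin.toFinset with hL
  have hLm : ∀ W, W ∈ L ↔ D.Cv B 0 W := fun W => by
    rw [hL, Set.Finite.mem_toFinset]
    rfl
  -- growth of the curves in the list
  obtain ⟨Cl, hCl, hld⟩ := D.ld hB
  obtain ⟨K, hK⟩ : ∃ K : ℝ, ∀ W ∈ L, ‖W 0‖ ≤ K := by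
    obtain ⟨K, hK⟩ := (L.image fun W => ‖W 0‖).bddAbove
    exact ⟨K, fun W hW => hK (Finset.mem_coe.2 (Finset.mem_image_of_mem _ hW))⟩
  set Cw : ℝ := Cl + |K| with hCw
  have hCw0 : 0 ≤ Cw := by positivity
  have hgr : ∀ W ∈ L, ∀ t, ‖W t‖ ≤ Real.exp (Cw * (1 + ‖t‖)) := by
    intro W hW t
    have hCv := (hLm W).1 hW
    have h1 := gronwall hCv.dif (hld 0 W hCv) t 0
    rw [dist_zero_right] at h1
    have h2 : ‖W 0‖ ≤ Real.exp |K| := by
      have h3 := hK W hW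
      have h4 := le_abs_self K
      have h5 := Real.add_one_le_exp |K|
      linarith
    calc ‖W t‖ ≤ ‖W 0‖ * Real.exp (Cl * ‖t‖) := h1
      _ ≤ Real.exp |K| * Real.exp (Cl * ‖t‖) := mul_le_mul_of_nonneg_right h2 (Real.exp_pos _).le
      _ ≤ Real.exp (Cw * (1 + ‖t‖)) := by
        rw [← Real.exp_add]
        apply Real.exp_le_exp.2
        have h6 : 0 ≤ |K| * ‖t‖ := by positivity
        rw [hCw]
        linarith
  refine ⟨B, L, hB, fun W hW => (hLm W).1 hW, fun h v hh hv hon hp hq hn => ?_,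
    fun ρ h0 V hc hgrow => ?_⟩
  · have hd : ∀ W ∈ L, Differentiable ℂ (fun z => v z - W (h z)) := fun W hW =>
      hv.sub (((hLm W).1 hW).dif.comp hh)
    have hvan : ∀ sv : ℕ, ∃ W ∈ L, ∀ z, dt (mv s sv) (v z - W (h z)) = 0 := by
      intro sv
      obtain ⟨C, hC, hT⟩ := D.tst_prod (B := B) L (fun W hW => ((hLm W).1 hW).dif) hCw0 hgr
        (fun W hW => (hLm W).2 hW) (mv s sv)
      have h1 := D.glob hk hF hB hsp hC hT hh hv hon hp hq hn
      exact prod_zero L (F := fun W z => dt (mv s sv) (v z - W (h z)))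
        (fun W hW z => dt_dif (hd W hW z)) h1
    choose Ws hWs hvan using hvan
    obtain ⟨W, hW⟩ := Finite.exists_infinite_fiber (fun sv : ℕ => (⟨Ws sv, hWs sv⟩ : {W // W ∈ L}))
    refine ⟨W, W.2, fun z => ?_⟩
    have h1 := dt_mom (d := v z - (W : ℂ → VV s) (h z)) (Set.infinite_coe_iff.1 hW) (fun sv hsv => by
      have h2 : (⟨Ws sv, hWs sv⟩ : {W // W ∈ L}) = W := hsv
      have h3 : Ws sv = W := congrArg Subtype.val h2
      rw [← h3]
      exact hvan sv z)
    exact sub_eq_zero.1 h1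
  · have hvd : ∀ sv ∈ HP, DifferentiableAt ℂ V sv := fun sv hsv =>
      (hc.vd sv hsv).differentiableAt (isOpen_HP.mem_nhds hsv)
    have hhd : ∀ sv ∈ HP, DifferentiableAt ℂ (fun sv => h0 sv + (ρ : ℝ) * sv) sv := fun sv hsv =>
      ((hc.hd sv hsv).differentiableAt (isOpen_HP.mem_nhds hsv)).add (by fun_prop)
    have hvan : ∀ sv : ℕ, ∃ W ∈ L, ∀ z ∈ HP,
        dt (mv s sv) (V z - W (h0 z + (ρ : ℝ) * z)) = 0 := by
      intro sv
      obtain ⟨C, hC, hT⟩ := D.tst_prod (B := B) L (fun W hW => ((hLm W).1 hW).dif) hCw0 hgr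
        (fun W hW => (hLm W).2 hW) (mv s sv)
      have h1 := D.globP hk hF hB hsp hC hT (fun x t i => D.tst_per L hLm _ x t i) hc hgrow
      exact prod_zeroP L
        (F := fun W z => dt (mv s sv) (V z - W (h0 z + (ρ : ℝ) * z)))
        (fun W hW z hz => (dt_dif ((hvd z hz).sub ((((hLm W).1 hW).dif
          (h0 z + (ρ : ℝ) * z)).comp z (hhd z hz)))).differentiableWithinAt) h1
    choose Ws hWs hvan using hvan
    obtain ⟨W, hW⟩ := Finite.exists_infinite_fiber (fun sv : ℕ => (⟨Ws sv, hWs sv⟩ : {W // W ∈ L}))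
    refine ⟨W, W.2, fun z hz => ?_⟩
    have h1 := dt_mom (d := V z - (W : ℂ → VV s) (h0 z + (ρ : ℝ) * z)) (Set.infinite_coe_iff.1 hW)
      (fun sv hsv => by
        have h2 : (⟨Ws sv, hWs sv⟩ : {W // W ∈ L}) = W := hsv
        have h3 : Ws sv = W := congrArg Subtype.val h2
        rw [← h3]
        exact hvan sv z hz)
    exact sub_eq_zero.1 h1

end Pair

end Pool.Agent.K9h84.CI
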