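import Pool.Agent.K9h84.CI.PunF
import Pool.Agent.K9h84.CI.AllB

/-!
# Curves over the punctured disc
-/

set_option autoImplicit false

open Set Filter Topology Metric

namespace Pool.Agent.K9h84.CI

open Pool.Agent.K9h3.TC (exists_log_univ per_int)

variable {s : ℕ}

/-- the punctured unit disc -/
def DS : Set ℂ := {z : ℂ | 0 < ‖z‖ ∧ ‖z‖ < 1}

theorem exp_DS {sv : ℂ} (hsv : 0 < sv.re) : Complex.exp (-sv) ∈ DS := by
  refine ⟨by rw [Complex.norm_exp]; exact Real.exp_pos _, ?_⟩
  rw [Complex.norm_exp, Complex.neg_re]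
  rw [← Real.exp_zero]
  exact Real.exp_lt_exp.2 (by linarith)

theorem log_HP {z : ℂ} (hz : z ∈ DS) : -Complex.log z ∈ HP ∧ Complex.exp (-(-Complex.log z)) = z := by
  have h0 : z ≠ 0 := norm_pos_iff.1 hz.1
  refine ⟨?_, by rw [neg_neg, Complex.exp_log h0]⟩
  show 0 < (-Complex.log z).re
  rw [Complex.neg_re, Complex.log_re]
  have := Real.log_neg hz.1 hz.2
  linarith

namespace Pair

variable (D : Pair s)

/-- the normalised lift on the half-plane -/
theorem exists_lift {f : ℂ → VV s} (hf : DifferentiableOn ℂ f DS) (hon : ∀ z ∈ DS, D.on (f z)) (hp : ∀ z ∈ DS, D.p (f z) ≠ 0)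
    (hq : ∀ z ∈ DS, D.q (f z) ≠ 0) : ∃ (ρ : ℤ) (h0 e : ℂ → ℂ) (V : ℂ → VV s), D.Hc ρ h0 V ∧
      (∀ sv, e sv ≠ 0) ∧ ∀ sv ∈ HP, f (Complex.exp (-(D.a * sv))) = e sv • V sv := by
  have ha1 : 1 ≤ D.a := D.ha
  have hac : (D.a : ℂ) ≠ 0 := by exact_mod_cast (by omega : D.a ≠ 0)
  have hap : (0 : ℝ) < D.a := by exact_mod_cast (by omega : 0 < D.a)
  set F : ℂ → VV s := fun sv => f (Complex.exp (-(D.a * sv))) with hF
  have hmem : ∀ sv ∈ HP, Complex.exp (-(D.a * sv)) ∈ DS := by
    intro sv hsv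
    refine exp_DS ?_
    have h1 : ((D.a : ℂ) * sv).re = D.a * sv.re := by
      have : (D.a : ℂ) = ((D.a : ℝ) : ℂ) := by push_cast; rfl
      rw [this, Complex.re_ofReal_mul]
    rw [h1]
    exact mul_pos hap hsv
  have hFd : DifferentiableOn ℂ F HP := hf.comp (by fun_prop) hmem
  have hpd : DifferentiableOn ℂ (fun sv => D.p (F sv)) HP := fun sv hsv =>
    ((D.hA.hasDerivAt ((hFd sv hsv).differentiableAt
      (isOpen_HP.mem_nhds hsv)).hasDerivAt).differentiableAt).differentiableWithinAt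
  obtain ⟨g, hg, hge⟩ := Pool.Agent.K9h21.PD.exists_log_half hpd fun sv hsv => hp _ (hmem sv hsv)
  -- monodromy of the first logarithm
  set τ : ℝ := 2 * Real.pi / D.a with hτ
  have hHPτ : ∀ sv ∈ HP, ∀ x : ℝ, sv + x * Complex.I ∈ HP := by
    intro sv hsv x
    show 0 < (sv + x * Complex.I).re
    have h1 : (sv + x * Complex.I).re = sv.re := by simp
    rw [h1]
    exact hsv
  have hFτ : ∀ sv, F (sv + τ * Complex.I) = F sv := by
    intro sv
    rw [hF]
    simp only
    congr 1
    have h1 : -(D.a * (sv + τ * Complex.I)) = -(D.a * sv) + ((-1 : ℤ) : ℂ) * (2 * Real.pi * Complex.I) := by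
      rw [hτ]
      push_cast
      field_simp
      ring
    rw [h1, Complex.exp_add, Complex.exp_int_mul_two_pi_mul_I, mul_one]
  obtain ⟨m, hm⟩ := Pool.Agent.K9h21.PD.int_shift hg.continuousOn (τ := τ) fun sv hsv => by
    rw [hge sv hsv, hge _ (hHPτ sv hsv τ), hFτ]
  have hmn : ∀ (n : ℕ), ∀ sv ∈ HP, g (sv + ((n * τ : ℝ) : ℂ) * Complex.I) =
      g sv + n * m * (2 * Real.pi * Complex.I) := by
    intro n
    induction n with
    | zero =>
      intro sv _
      simp
    | succ n ih =>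
      intro sv hsv
      have h1 := hm (sv + ((n * τ : ℝ) : ℂ) * Complex.I) (hHPτ sv hsv _)
      rw [ih sv hsv] at h1
      have h2 : sv + (((n + 1 : ℕ) * τ : ℝ) : ℂ) * Complex.I =
          sv + ((n * τ : ℝ) : ℂ) * Complex.I + τ * Complex.I := by
        push_cast
        ring
      rw [h2, h1]
      push_cast
      ring
  have haτ : ((D.a * τ : ℝ) : ℂ) = 2 * Real.pi := by
    rw [hτ]
    push_cast
    field_simp
  have hg2 : ∀ sv ∈ HP, g (sv + 2 * Real.pi * Complex.I) = g sv + D.a * m * (2 * Real.pi * Complex.I) := by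
    intro sv hsv
    have h1 := hmn D.a sv hsv
    rw [haτ] at h1
    exact h1
  have hF2 : ∀ sv, F (sv + 2 * Real.pi * Complex.I) = F sv := by
    intro sv
    rw [hF]
    simp only
    congr 1
    have h1 : -(D.a * (sv + 2 * Real.pi * Complex.I)) =
        -(D.a * sv) + ((-(D.a : ℤ) : ℤ) : ℂ) * (2 * Real.pi * Complex.I) := by
      push_cast
      ring
    rw [h1, Complex.exp_add, Complex.exp_int_mul_two_pi_mul_I, mul_one]
  set V : ℂ → VV s := fun sv => Complex.exp (-(g sv / D.a)) • F sv with hV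
  have hVd : DifferentiableOn ℂ V HP := ((hg.div_const _).neg.cexp).smul hFd
  have hVp : ∀ sv ∈ HP, D.p (V sv) = 1 := by
    intro sv hsv
    rw [hV]
    simp only
    rw [D.p_smul, ← Complex.exp_nat_mul, ← hge sv hsv, ← Complex.exp_add]
    have : (D.a : ℂ) * -(g sv / D.a) + g sv = 0 := by
      field_simp
      ring
    rw [this, Complex.exp_zero]
  have hVper : ∀ sv ∈ HP, V (sv + 2 * Real.pi * Complex.I) = V sv := by
    intro sv hsv
    rw [hV]
    simp only
    rw [hF2, hg2 sv hsv]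
    congr 1
    have h1 : -((g sv + D.a * m * (2 * Real.pi * Complex.I)) / D.a) =
        -(g sv / D.a) + ((-m : ℤ) : ℂ) * (2 * Real.pi * Complex.I) := by
      push_cast
      field_simp
      ring
    rw [h1, Complex.exp_add, Complex.exp_int_mul_two_pi_mul_I, mul_one]
  have hVq0 : ∀ sv ∈ HP, D.q (V sv) ≠ 0 := by
    intro sv hsv
    rw [hV]
    simp only
    rw [D.q_smul]
    exact mul_ne_zero (pow_ne_zero _ (Complex.exp_ne_zero _)) (hq _ (hmem sv hsv))
  have hqd : DifferentiableOn ℂ (fun sv => D.q (V sv)) HP := fun sv hsv =>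
    ((D.hB.hasDerivAt ((hVd sv hsv).differentiableAt
      (isOpen_HP.mem_nhds hsv)).hasDerivAt).differentiableAt).differentiableWithinAt
  obtain ⟨h, hh, hhe⟩ := Pool.Agent.K9h21.PD.exists_log_half hqd hVq0
  have h2π : ∀ sv : ℂ, sv + ((2 * Real.pi : ℝ) : ℂ) * Complex.I = sv + 2 * Real.pi * Complex.I := by
    intro sv
    push_cast
    ring
  obtain ⟨r, hr⟩ := Pool.Agent.K9h21.PD.int_shift hh.continuousOn (τ := 2 * Real.pi) fun sv hsv => by
    have h1 := hHPτ sv hsv (2 * Real.pi)
    rw [hhe sv hsv, hhe _ h1, h2π, hVper sv hsv]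
  refine ⟨r, fun sv => h sv - (r : ℝ) * sv, fun sv => Complex.exp (g sv / D.a), V,
    ⟨hh.sub (by fun_prop), hVd, hVp, fun sv hsv => ?_, fun sv hsv => ?_, hVper,
      fun sv hsv => D.on_smul (hon _ (hmem sv hsv))⟩,
    fun sv => Complex.exp_ne_zero _, fun sv hsv => ?_⟩
  · rw [sub_add_cancel, hhe sv hsv]
  · have h1 := hr sv hsv
    rw [h2π] at h1
    rw [h1]
    push_cast
    ring
  · show F sv = Complex.exp (g sv / D.a) • (Complex.exp (-(g sv / D.a)) • F sv)
    rw [smul_smul, ← Complex.exp_add, add_neg_cancel, Complex.exp_zero, one_smul]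

/-- **structure of all curves**, entire or over the punctured disc -/
theorem all_main2 (hk : 1 ≤ D.k) (hF : D.HF) {x0 : VV s} (hx0 : x0 ≠ 0) (hon0 : D.on x0)
    (hgb : ∀ h : ℂ → ℂ, DifferentiableOn ℂ h {sv : ℂ | 0 < sv.re} →
      (∀ sv : ℂ, 0 < sv.re → h (sv + 2 * Real.pi * Complex.I) = h sv) →
      (∃ c σ0 : ℝ, 0 < c ∧ ∀ σ : ℝ, σ0 ≤ σ → ∃ sv : ℂ, sv.re = σ ∧ c * Real.exp σ ≤ ‖h sv‖) ∨
      (∃ K : ℝ, ∀ sv : ℂ, 1 ≤ sv.re → ‖h sv‖ ≤ K)) : ∃ (n N : ℕ) (G : PP s)
    (φ : Fin N → Fin (s + 3) → Polynomial ℂ), G.IsHomogeneous n ∧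
    (∃ x : VV s, x ≠ 0 ∧ D.on x ∧ MvPolynomial.eval x G ≠ 0) ∧
    (∀ j, (∀ t : ℂ, t ≠ 0 → D.on (fun i => (φ j i).eval t) ∧ D.p (fun i => (φ j i).eval t) ≠ 0 ∧
        D.q (fun i => (φ j i).eval t) ≠ 0 ∧ MvPolynomial.eval (fun i => (φ j i).eval t) G = 0) ∧
      ∃ t t' : ℂ, t ≠ 0 ∧ t' ≠ 0 ∧ cr (fun i => (φ j i).eval t) (fun i => (φ j i).eval t') ≠ 0) ∧
    (∀ u : ℂ → VV s, Differentiable ℂ u → (∀ z, D.on (u z)) → (∀ z, D.p (u z) ≠ 0) →
      (∀ z, D.q (u z) ≠ 0) →
      (∃ z w, cr (u z) (u w) ≠ 0) →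
      (∃ (j : Fin N) (g H : ℂ → ℂ), Differentiable ℂ g ∧ (∀ z, g z ≠ 0) ∧ Differentiable ℂ H ∧
        ∀ z i, g z * u z i = (φ j i).eval (Complex.exp (H z))) ∧
      ∀ z, MvPolynomial.eval (u z) G = 0) ∧
    ∀ f : ℂ → VV s, DifferentiableOn ℂ f DS → (∀ z ∈ DS, D.on (f z)) → (∀ z ∈ DS, D.p (f z) ≠ 0) →
      (∀ z ∈ DS, D.q (f z) ≠ 0) →
      (∃ (r : ℝ) (F : ℂ → VV s), 0 < r ∧ r ≤ 1 ∧ DifferentiableOn ℂ F (ball 0 r) ∧
        (∀ z ∈ ball (0 : ℂ) r, F z ≠ 0) ∧ ∀ z : ℂ, 0 < ‖z‖ → ‖z‖ < r → ∀ i i',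
          F z i * f z i' = F z i' * f z i) ∨
      ((∃ (j : Fin N) (m : ℕ) (u : ℂ → ℂ), 1 ≤ m ∧ DifferentiableOn ℂ u DS ∧
        (∀ z ∈ DS, u z ≠ 0) ∧ ∀ z ∈ DS, ∃ c : ℂ, c ≠ 0 ∧
          ∀ i, c * f (z ^ m) i = (φ j i).eval (u z)) ∧
        ∀ z ∈ DS, MvPolynomial.eval (f z) G = 0) := by
  classical
  obtain ⟨B, L, hB, hL, hcl, hclP⟩ := D.classify2 hk hF
  have hpoly : ∀ x : L, ∃ (k l : ℕ) (φ : Fin (s + 3) → Polynomial ℂ), 1 ≤ k ∧
      ∀ z i, Complex.exp (l * z / k) * (x : ℂ → VV s) z i = (φ i).eval (Complex.exp (z / k)) :=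
    fun x => D.cv_laurent hk hB (hL x.1 x.2)
  choose k l φ hk1 hφ using hpoly
  have hkc : ∀ x, (k x : ℂ) ≠ 0 := fun x => by
    have := hk1 x
    exact_mod_cast (by omega : k x ≠ 0)
  -- parametrisation by the exponential function
  have hpar : ∀ (x : L) (t : ℂ), t ≠ 0 → (fun i => (φ x i).eval t) =
      Complex.exp (l x * (k x * Complex.log t) / k x) • (x : ℂ → VV s) (k x * Complex.log t) := by
    intro x t ht
    funext i
    rw [Pi.smul_apply, smul_eq_mul, hφ]
    congr 1
    rw [mul_div_cancel_left₀ _ (hkc x), Complex.exp_log ht]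
  obtain ⟨n, G, hGh, hGx, hG⟩ := exists_form D.hR hx0 hon0
    (D.sR x0 hx0 hon0) (fun j => φ ((Fintype.equivFin L).symm j))
  -- the form vanishes on the list
  have hGW : ∀ (x : L) (t c : ℂ), MvPolynomial.eval (c • (x : ℂ → VV s) t) G = 0 := by
    intro x t c
    obtain ⟨A, hA⟩ := exists_dd hGh
    have h1 := hG (Fintype.equivFin L x) (Complex.exp (t / k x))
    rw [Equiv.symm_apply_apply] at h1
    have h2 : (fun i => (φ x i).eval (Complex.exp (t / k x))) =
        Complex.exp (l x * t / k x) • (x : ℂ → VV s) t := by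
      funext i
      rw [← hφ]
      rfl
    rw [h2, hA.evh] at h1
    have h3 := (mul_eq_zero.1 h1).resolve_left (pow_ne_zero _ (Complex.exp_ne_zero _))
    rw [hA.evh, h3, mul_zero]
  refine ⟨n, Fintype.card L, G, fun j => φ ((Fintype.equivFin L).symm j), hGh, hGx, fun j => ?_,
    fun u hu hon hp hq hnc => ?_, fun f hf hon hp hq => ?_⟩
  · set x := (Fintype.equivFin L).symm j with hx
    have hCv := hL x.1 x.2
    constructor
    · intro t ht
      refine ⟨?_, ?_, ?_, ?_⟩
      · rw [hpar x t ht]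
        exact D.on_smul (hCv.on _)
      · rw [hpar x t ht, D.p_smul]
        refine mul_ne_zero (pow_ne_zero _ (Complex.exp_ne_zero _)) ?_
        rw [hCv.hp]
        exact one_ne_zero
      · rw [hpar x t ht, D.q_smul]
        refine mul_ne_zero (pow_ne_zero _ (Complex.exp_ne_zero _)) ?_
        rw [hCv.hq]
        exact Complex.exp_ne_zero _
      · rw [hpar x t ht]
        exact hGW x _ _
    · by_contra hcon
      push Not at hcon
      have h1 : ∀ z w, cr ((x : ℂ → VV s) z) ((x : ℂ → VV s) w) = 0 := by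
        intro z w
        have h2 := hcon (Complex.exp (z / k x)) (Complex.exp (w / k x)) (Complex.exp_ne_zero _)
          (Complex.exp_ne_zero _)
        have h3 : ∀ z, (fun i => (φ x i).eval (Complex.exp (z / k x))) =
            Complex.exp (l x * z / k x) • (x : ℂ → VV s) z := by
          intro z
          funext i
          rw [← hφ]
          rfl
        rw [h3, h3, cr_smul, smul_cr] at h2
        have h4 := (smul_eq_zero.1 h2).resolve_left (Complex.exp_ne_zero _)
        exact (smul_eq_zero.1 h4).resolve_left (Complex.exp_ne_zero _)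
      have h2 := D.const_p hCv.dif hCv.hp (speed_zero hCv.dif h1) 1
      have h3 := hCv.hq 1
      rw [h2, hCv.hq 0, add_zero, add_zero, Complex.exp_zero] at h3
      have h4 := congrArg norm h3
      rw [norm_one, Complex.norm_exp, Complex.one_re] at h4
      have h5 := Real.add_one_lt_exp (x := 1) one_ne_zero
      linarith
  · -- entire curves
    have hac : (D.a : ℂ) ≠ 0 := by
      have := D.ha
      exact_mod_cast (by omega : D.a ≠ 0)
    have hpd : Differentiable ℂ (fun z => D.p (u z)) := fun z =>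
      (D.hA.hasDerivAt (hu z).hasDerivAt).differentiableAt
    obtain ⟨g0, hg0, hg0e⟩ := exists_log_univ hpd hp
    set e : ℂ → ℂ := fun z => Complex.exp (-(g0 z / D.a)) with he
    have hed : Differentiable ℂ e := (hg0.div_const _).neg.cexp
    have he0 : ∀ z, e z ≠ 0 := fun z => Complex.exp_ne_zero _
    set v : ℂ → VV s := fun z => e z • u z with hv
    have hvd : Differentiable ℂ v := hed.smul hu
    have hvp : ∀ z, D.p (v z) = 1 := by
      intro z
      rw [hv]
      simp only
      rw [D.p_smul, he]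
      simp only
      rw [← Complex.exp_nat_mul, ← hg0e z, ← Complex.exp_add]
      have : (D.a : ℂ) * -(g0 z / D.a) + g0 z = 0 := by
        field_simp
        ring
      rw [this, Complex.exp_zero]
    have hvq0 : ∀ z, D.q (v z) ≠ 0 := by
      intro z
      rw [hv]
      simp only
      rw [D.q_smul]
      exact mul_ne_zero (pow_ne_zero _ (he0 z)) (hq z)
    have hqd : Differentiable ℂ (fun z => D.q (v z)) := fun z =>
      (D.hB.hasDerivAt (hvd z).hasDerivAt).differentiableAt
    obtain ⟨h, hh, hhe⟩ := exists_log_univ hqd hvq0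
    by_cases hn : ∃ z, deriv h z ≠ 0
    · obtain ⟨W, hW, hvW⟩ := hcl h v hh hvd (fun z => D.on_smul (hon z)) hvp (fun z => (hhe z).symm) hn
      refine ⟨⟨Fintype.equivFin L ⟨W, hW⟩,
        fun z => Complex.exp (l ⟨W, hW⟩ * h z / k ⟨W, hW⟩) * e z,
        fun z => h z / k ⟨W, hW⟩, ?_, fun z => mul_ne_zero (Complex.exp_ne_zero _) (he0 z),
        hh.div_const _, fun z i => ?_⟩, fun z => ?_⟩
      · exact ((hh.const_mul _).div_const _).cexp.mul hed
      · simp only [Equiv.symm_apply_apply]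
        rw [← hφ ⟨W, hW⟩ (h z) i]
        have h1 : (⟨W, hW⟩ : L).1 (h z) = e z • u z := (hvW z).symm
        rw [h1]
        simp only [Pi.smul_apply, smul_eq_mul]
        ring
      · have h1 := hGW ⟨W, hW⟩ (h z) (e z)⁻¹
        have h2 : (⟨W, hW⟩ : L).1 (h z) = e z • u z := (hvW z).symm
        rw [h2, smul_smul, inv_mul_cancel₀ (he0 z), one_smul] at h1
        exact h1
    · -- curves in the members of the pencil
      exfalso
      push Not at hn
      obtain ⟨C, hC, hspeed⟩ := D.rel_speed3 hk hF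
      have h0 : ∀ z, cr (v z) (deriv v z) = 0 := by
        intro z
        have h1 : ∀ r : ℝ, 0 < r → ‖cr (v z) (deriv v z)‖ ≤ C / r * ‖v z‖ ^ 2 := fun r hr =>
          hspeed r z h v hr hh.differentiableOn (fun w _ => by
            rw [hn, norm_zero, zero_mul]
            exact zero_le_one) hvd.differentiableOn (fun w _ => D.on_smul (hon w))
            (fun w _ => hvp w) fun w _ => (hhe w).symm
        have h2 : Tendsto (fun r : ℝ => C / r * ‖v z‖ ^ 2) atTop (𝓝 (0 * ‖v z‖ ^ 2)) :=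
          (tendsto_const_nhds.div_atTop tendsto_id).mul_const _
        rw [zero_mul] at h2
        have h3 := ge_of_tendsto h2 (by
          filter_upwards [eventually_gt_atTop (0 : ℝ)] with r hr
          exact h1 r hr)
        exact norm_le_zero_iff.1 h3
      have h1 : ∀ z w, v z = v w := fun z w => by
        rw [D.const_p hvd hvp h0 z, D.const_p hvd hvp h0 w]
      obtain ⟨z, w, hzw⟩ := hnc
      apply hzw
      have h2 : e z • u z = e w • u w := h1 z w
      have h3 : e w • cr (u z) (u w) = 0 := by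
        rw [← cr_smul, ← h2, cr_smul, cr_self, smul_zero]
      exact (smul_eq_zero.1 h3).resolve_left (he0 w)
  · -- curves over the punctured disc
    have ha1 : 1 ≤ D.a := D.ha
    have hac : (D.a : ℂ) ≠ 0 := by exact_mod_cast (by omega : D.a ≠ 0)
    have hap : (0 : ℝ) < D.a := by exact_mod_cast (by omega : 0 < D.a)
    obtain ⟨ρ, h0, e, V, hc, he0, hfV⟩ := D.exists_lift hf hon hp hq
    have hroot : ∀ z ∈ DS, -Complex.log z / D.a ∈ HP ∧
        Complex.exp (-(D.a * (-Complex.log z / D.a))) = z := by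
      intro z hz
      obtain ⟨h1, h2⟩ := log_HP hz
      constructor
      · show 0 < (-Complex.log z / D.a).re
        have h3 : (-Complex.log z / (D.a : ℂ)).re = (-Complex.log z).re / D.a := by
          rw [Complex.div_natCast_re]
        rw [h3]
        exact div_pos h1 hap
      · rw [mul_div_cancel₀ _ hac]
        exact h2
    rcases hgb h0 hc.hd hc.hper with hgrow | ⟨K, hK⟩
    · right
      obtain ⟨W, hW, hVW⟩ := hclP ρ h0 V hc hgrow
      set x : L := ⟨W, hW⟩ with hx
      have hkx : 1 ≤ k x := hk1 x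
      have hkp : (0 : ℝ) < k x := by exact_mod_cast (by omega : 0 < k x)
      set Y : ℂ → Unit → ℂ := fun sv _ =>
        Complex.exp ((h0 (k x * sv) + (ρ : ℝ) * (k x * sv)) / k x) with hY
      have hkHP : ∀ sv ∈ HP, (k x : ℂ) * sv ∈ HP := by
        intro sv hsv
        show 0 < ((k x : ℂ) * sv).re
        have h1 : (k x : ℂ) = ((k x : ℝ) : ℂ) := by push_cast; rfl
        rw [h1, Complex.re_ofReal_mul]
        exact mul_pos hkp hsv
      have hYd : DifferentiableOn ℂ Y {sv : ℂ | 0 < sv.re} := by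
        rw [differentiableOn_pi]
        intro _
        have h1 : DifferentiableOn ℂ (fun sv => h0 (k x * sv)) HP :=
          hc.hd.comp (by fun_prop) hkHP
        exact ((h1.add (by fun_prop)).div_const _).cexp
      have hYper : ∀ sv : ℂ, 0 < sv.re → Y (sv + 2 * Real.pi * Complex.I) = Y sv := by
        intro sv hsv
        rw [hY]
        funext _
        simp only
        have h1 := per_int hc.hper (k x) ((k x : ℂ) * sv) (hkHP sv hsv)
        have h2 : (k x : ℂ) * (sv + 2 * Real.pi * Complex.I) =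
            (k x : ℂ) * sv + ((k x : ℤ) : ℂ) * (2 * Real.pi * Complex.I) := by
          push_cast
          ring
        rw [h2, h1]
        have h3 : (h0 (k x * sv) + (ρ : ℝ) * (k x * sv + ((k x : ℤ) : ℂ) * (2 * Real.pi * Complex.I))) /
            k x = (h0 (k x * sv) + (ρ : ℝ) * (k x * sv)) / k x + (ρ : ℂ) * (2 * Real.pi * Complex.I) := by
          have := hkc x
          push_cast
          field_simp
          ring
        rw [h3, Complex.exp_add, Complex.exp_int_mul_two_pi_mul_I, mul_one]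
      refine ⟨⟨Fintype.equivFin L x, D.a * k x,
        fun z => Pool.Agent.K9h21.PD.pf Y 0 z (), Nat.mul_pos ha1 hkx, ?_, ?_, ?_⟩, ?_⟩
      · intro z hz
        have h1 := Pool.Agent.K9h21.PD.pf_diff hYd hYper 0 (norm_pos_iff.1 hz.1) hz.2
        exact ((differentiableAt_pi.1 h1) ()).differentiableWithinAt
      · intro z _
        show (z ^ 0 • Y (-Complex.log z)) () ≠ 0
        rw [pow_zero, one_smul]
        exact Complex.exp_ne_zero _
      · intro z hz
        obtain ⟨h1, h2⟩ := log_HP hz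
        set sv : ℂ := -Complex.log z with hsv
        have h3 := hfV (k x * sv) (hkHP sv h1)
        have h4 : Complex.exp (-(D.a * (k x * sv))) = z ^ (D.a * k x) := by
          rw [← h2, ← Complex.exp_nat_mul]
          congr 1
          push_cast
          ring
        rw [h4, hVW _ (hkHP sv h1)] at h3
        set t : ℂ := h0 (k x * sv) + (ρ : ℝ) * (k x * sv) with ht
        refine ⟨Complex.exp (l x * t / k x) * (e (k x * sv))⁻¹,
          mul_ne_zero (Complex.exp_ne_zero _) (inv_ne_zero (he0 _)), fun i => ?_⟩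
        simp only [Equiv.symm_apply_apply]
        have h5 : Pool.Agent.K9h21.PD.pf Y 0 z () = Complex.exp (t / k x) := by
          show (z ^ 0 • Y (-Complex.log z)) () = _
          rw [pow_zero, one_smul]
        rw [h5, ← hφ x t i, h3]
        have h6 := he0 (k x * sv)
        simp only [Pi.smul_apply, smul_eq_mul]
        field_simp
        rfl
      · intro z hz
        obtain ⟨h1, h2⟩ := hroot z hz
        have h3 := hfV _ h1
        rw [h2, hVW _ h1] at h3
        rw [h3]
        exact hGW x _ _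
    · left
      obtain ⟨j, C, σ', hσ', hdom⟩ := D.ext_case hk hF hc hK
      set r : ℝ := Real.exp (-(D.a * σ')) with hr
      have hr0 : 0 < r := Real.exp_pos _
      have hr1 : r ≤ 1 := by
        rw [hr, Real.exp_le_one_iff]
        have : 0 ≤ (D.a : ℝ) * σ' := by positivity
        linarith
      have hsub : ∀ z : ℂ, 0 < ‖z‖ → ‖z‖ < r → z ∈ DS := fun z h1 h2 => ⟨h1, h2.trans_le hr1⟩
      obtain ⟨F, hFd, hF0, hFf⟩ := Pool.Agent.K9h21.PD.ext_of_dom (f := f) (r := r) (C := C)
        (j := j) hr0 (hf.mono fun z hz => hsub z hz.1 hz.2) (fun z h1 h2 h3 => by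
          apply hp z (hsub z h1 h2)
          rw [h3, D.p_zero]) (fun z h1 h2 => by
          obtain ⟨h3, h4⟩ := hroot z (hsub z h1 h2)
          have h5 := hfV _ h3
          rw [h4] at h5
          have h6 : σ' < (-Complex.log z / D.a).re := by
            rw [Complex.div_natCast_re, Complex.neg_re, Complex.log_re, lt_div_iff₀ hap]
            have h7 := Real.log_lt_log h1 h2
            rw [hr, Real.log_exp] at h7
            linarith
          have h7 := hdom _ h6
          rw [h5, norm_smul, Pi.smul_apply, smul_eq_mul, norm_mul]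
          have h8 := norm_nonneg (e (-Complex.log z / D.a))
          calc ‖e (-Complex.log z / D.a)‖ * ‖V (-Complex.log z / D.a)‖ ≤
              ‖e (-Complex.log z / D.a)‖ * (C * ‖V (-Complex.log z / D.a) j‖) :=
                mul_le_mul_of_nonneg_left h7 h8
            _ = _ := by ring)
      exact ⟨r, F, hr0, hr1, hFd, hF0, hFf⟩

end Pair

end Pool.Agent.K9h84.CI
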