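import Pool.Agent.K9h84.CI.Uni

/-!
# Returns to a bounded region
-/

set_option autoImplicit false

open Set Filter Topology Metric

namespace Pool.Agent.K9h84.CI

open Pool.Agent.K9h3.TC (li zf_harnack)

variable {s : ℕ}

/-- lower bound at the centre of a disc -/
theorem center_low {u : ℂ → ℂ} {y ρ b c σ : ℝ} (hσ : σ = 1 ∨ σ = -1) (hb : 1 ≤ b) (hc : 0 < c)
    (hρ : 0 < ρ) (hu : Differentiable ℂ u)
    (hlow : ∀ z ∈ ball ((y : ℂ) * Complex.I) ρ, c * Real.exp (max (σ * z.re) 0 / b) ≤ ‖u z‖) :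
    c * Real.exp (ρ / (8 * b)) ≤ ‖u ((y : ℂ) * Complex.I)‖ := by
  set z0 : ℂ := (y : ℂ) * Complex.I with hz0
  have hz0re : z0.re = 0 := by rw [hz0]; simp
  have hu0 : ∀ z ∈ ball z0 ρ, u z ≠ 0 := fun z hz => by
    have h1 := hlow z hz
    have h2 : 0 < c * Real.exp (max (σ * z.re) 0 / b) := by positivity
    exact norm_pos_iff.1 (lt_of_lt_of_le h2 h1)
  have hρ2 : 0 < ρ / 2 := by positivity
  set F : ℂ → ℂ := fun z => Complex.exp (hR (ρ / 2) ((σ : ℂ) * (z - z0)) / (b : ℂ)) / u z with hF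
  have hFd : DifferentiableOn ℂ F (ball z0 ρ) := by
    refine DifferentiableOn.div ?_ hu.differentiableOn hu0
    refine Differentiable.differentiableOn ?_
    have h1 : Differentiable ℂ (fun z => hR (ρ / 2) ((σ : ℂ) * (z - z0))) :=
      (hR_diff (ρ / 2)).comp (by fun_prop)
    exact (h1.div_const _).cexp
  have hsub : closedBall z0 (ρ / 2) ⊆ ball z0 ρ := closedBall_subset_ball (by linarith)
  have hFc : DiffContOnCl ℂ F (ball z0 (ρ / 2)) := hFd.diffContOnCl_ball hsub
  have hfr : ∀ z ∈ frontier (ball z0 (ρ / 2)), ‖F z‖ ≤ 1 / c := by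
    intro z hz
    rw [frontier_ball z0 hρ2.ne', mem_sphere_iff_norm] at hz
    have hzb : z ∈ ball z0 ρ := by
      rw [mem_ball_iff_norm, hz]
      linarith
    have h1 := hlow z hzb
    have h2 : ‖(σ : ℂ) * (z - z0)‖ = ρ / 2 := by
      rw [norm_mul, hz, Complex.norm_real]
      rcases hσ with h | h <;> rw [h] <;> simp
    have h3 := hR_le hρ2 h2
    have h4 : ((σ : ℂ) * (z - z0)).re = σ * z.re := by
      rw [Complex.re_ofReal_mul, Complex.sub_re, hz0re, sub_zero]
    rw [h4] at h3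
    rw [hF]
    simp only
    rw [norm_div, Complex.norm_exp, Complex.div_ofReal_re, div_le_div_iff₀ (norm_pos_iff.2 (hu0 z hzb)) hc,
      one_mul]
    refine le_trans ?_ h1
    rw [mul_comm]
    refine mul_le_mul_of_nonneg_left (Real.exp_le_exp.2 ?_) hc.le
    exact div_le_div_of_nonneg_right h3 (by linarith)
  have h5 := Complex.norm_le_of_forall_mem_frontier_norm_le Metric.isBounded_ball hFc hfr
    (z := z0) (subset_closure (mem_ball_self hρ2))
  have h6 : F z0 = Complex.exp (((ρ / (8 * b) : ℝ)) : ℂ) / u z0 := by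
    rw [hF]
    simp only [sub_self, mul_zero]
    congr 2
    unfold hR
    have hb0 : (b : ℂ) ≠ 0 := by
      have : b ≠ 0 := by linarith
      exact_mod_cast this
    push_cast
    field_simp
    ring
  rw [h6, norm_div, Complex.norm_exp, Complex.ofReal_re,
    div_le_div_iff₀ (norm_pos_iff.2 (hu0 z0 (mem_ball_self hρ))) hc, one_mul] at h5
  rw [mul_comm]
  exact h5

/-- a disc in the cusp region whose boundary meets a nearly constant piece is small -/
theorem exit_deep {b c M : ℝ} (hb : 1 ≤ b) (hc : 0 < c) (hM : 0 < M) : ∃ T : ℝ, 0 < T ∧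
    ∀ (w : ℂ → VV s) (σ y ρ : ℝ) (zs : ℂ) (j : Fin (s + 3)), Differentiable ℂ w → (σ = 1 ∨ σ = -1) →
    (∀ z : ℂ, c * Real.exp (max (σ * z.re) 0 / b) ≤ ‖w z‖) →
    dist ((y : ℂ) * Complex.I) zs = ρ →
    (∀ z ∈ ball ((y : ℂ) * Complex.I) ρ, ‖w z‖ ≤ 2 * ‖w z j‖) →
    (∀ z, dist z zs ≤ T → ‖w z‖ ≤ 2 * M) → ρ ≤ T := by
  set L : ℝ := |Real.log (8 * M / c)| with hL
  have hL0 : 0 ≤ L := abs_nonneg _
  refine ⟨32 * b * L + 1, by positivity, ?_⟩
  set T : ℝ := 32 * b * L + 1 with hT
  have hTp : 0 < T := by positivity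
  intro w σ y ρ zs j hw hσ hlow hdist hcusp hnear
  by_contra hcon
  push Not at hcon
  have hρ : 0 < ρ := hTp.trans hcon
  set z0 : ℂ := (y : ℂ) * Complex.I with hz0
  have hu : Differentiable ℂ (fun z => w z j) := fun z => differentiableAt_pi.1 (hw z) j
  have hulow : ∀ z ∈ ball z0 ρ, c / 2 * Real.exp (max (σ * z.re) 0 / b) ≤ ‖w z j‖ := by
    intro z hz
    have h1 := hcusp z hz
    have h2 := hlow z
    linarith
  have hctr := center_low (u := fun z => w z j) hσ hb (half_pos hc) hρ hu hulow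
  have hc4 : 0 < c / 4 := by positivity
  have hu4 : ∀ z ∈ ball z0 ρ, c / 4 < ‖w z j‖ := by
    intro z hz
    have h1 := hulow z hz
    have h2 : 1 ≤ Real.exp (max (σ * z.re) 0 / b) := by
      rw [← Real.exp_zero]
      exact Real.exp_le_exp.2 (div_nonneg (le_max_right _ _) (by linarith))
    nlinarith
  set z1 : ℂ := zs + ((T / (2 * ρ) : ℝ) : ℂ) * (z0 - zs) with hz1
  have hnd : ‖z0 - zs‖ = ρ := by rw [← dist_eq_norm, hdist]
  have hTρ : T / (2 * ρ) * ρ = T / 2 := by field_simp
  have hTρ1 : T / (2 * ρ) ≤ 1 := by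
    rw [div_le_one (by positivity)]
    linarith
  have hTρ0 : 0 ≤ T / (2 * ρ) := by positivity
  have hd1 : dist z1 z0 = ρ - T / 2 := by
    have : z1 - z0 = (((1 - T / (2 * ρ)) : ℝ) : ℂ) * (zs - z0) := by
      rw [hz1]
      push_cast
      ring
    rw [dist_eq_norm, this, norm_mul, Complex.norm_real, Real.norm_of_nonneg (by linarith),
      norm_sub_rev, hnd, sub_mul, hTρ, one_mul]
  have hd2 : dist z1 zs ≤ T := by
    have : z1 - zs = (((T / (2 * ρ)) : ℝ) : ℂ) * (z0 - zs) := by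
      rw [hz1]
      ring
    rw [dist_eq_norm, this, norm_mul, Complex.norm_real, Real.norm_of_nonneg hTρ0, hnd, hTρ]
    linarith
  have hz1b : z1 ∈ ball z0 ρ := by
    rw [mem_ball, hd1]
    linarith
  have hh := zf_harnack (u := fun z => w z j) hu.differentiableOn hc4 hu4 hz1b
  rw [hd1] at hh
  have e1 : Real.log (‖w z1 j‖ / (c / 4)) ≤ L := by
    refine le_trans ?_ (le_abs_self _)
    refine Real.log_le_log (div_pos (hc4.trans (hu4 z1 hz1b)) hc4) ?_
    rw [div_div_eq_mul_div]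
    refine div_le_div_of_nonneg_right ?_ hc.le
    have h1 := hnear z1 hd2
    have h2 := le3 (w z1) j
    linarith
  have e2 : ρ / (8 * b) ≤ Real.log (‖w z0 j‖ / (c / 4)) := by
    rw [Real.le_log_iff_exp_le (div_pos (hc4.trans (hu4 z0 (mem_ball_self hρ))) hc4),
      le_div_iff₀ hc4]
    have := Real.exp_pos (ρ / (8 * b))
    have h3 : c / 2 * Real.exp (ρ / (8 * b)) ≤ ‖w z0 j‖ := hctr
    nlinarith
  have e3 : (ρ - (ρ - T / 2)) * (ρ / (8 * b)) ≤ 2 * ρ * L := by
    refine le_trans ?_ (hh.trans ?_)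
    · exact mul_le_mul_of_nonneg_left e2 (by linarith)
    · exact mul_le_mul_of_nonneg_left e1 (by positivity)
  have e4 : (ρ - (ρ - T / 2)) * (ρ / (8 * b)) = ρ * (T / (16 * b)) := by
    field_simp
    ring
  rw [e4] at e3
  have e5 : T / (16 * b) ≤ 2 * L := by
    by_contra h
    push Not at h
    nlinarith
  rw [div_le_iff₀ (by positivity)] at e5
  have : T = 32 * b * L + 1 := hT
  linarith

namespace Pair

variable (D : Pair s)

/-- near a point where the second form is tiny the curve is nearly constant -/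
theorem near_const (hk : 1 ≤ D.k) {C M : ℝ} (hC : 0 ≤ C) (hM : 0 < M) (t : ℝ) (κ : ℂ) :
    ∃ ε : ℝ, 0 < ε ∧ ∀ (w : ℂ → VV s) (α : ℂ), Differentiable ℂ w →
    (∀ z, ‖deriv w z‖ ≤ C * ‖w z‖) → (∀ z, D.p (w z) = 1) →
    (∀ z, D.q (w z) = α * Complex.exp (κ * z)) → (∀ z, D.on (w z)) → ‖α‖ ≤ ε → ‖w 0‖ ≤ M →
    ∀ z, ‖z‖ ≤ t → ‖w z‖ ≤ 2 * M := by
  by_contra hcon
  push Not at hcon
  have h1 : ∀ n : ℕ, ∃ (w : ℂ → VV s) (α : ℂ), Differentiable ℂ w ∧
      (∀ z, ‖deriv w z‖ ≤ C * ‖w z‖) ∧ (∀ z, D.p (w z) = 1) ∧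
      (∀ z, D.q (w z) = α * Complex.exp (κ * z)) ∧ (∀ z, D.on (w z)) ∧ ‖α‖ ≤ ((n : ℝ) + 1)⁻¹ ∧
      ‖w 0‖ ≤ M ∧
      ∃ z, ‖z‖ ≤ t ∧ 2 * M < ‖w z‖ := fun n => hcon (((n : ℝ) + 1)⁻¹) (by positivity)
  choose w α hw hld hp hq hon hα h0 z hz hbad using h1
  obtain ⟨V, hVd, hVu, hVt, -, hVl⟩ := exists_lim hC hw hld h0
  have hα0 : Tendsto α UU (𝓝 0) := by
    have h3 : Tendsto (fun n : ℕ => ((n : ℝ) + 1)⁻¹) UU (𝓝 0) :=
      (tendsto_inv_atTop_zero.comp (tendsto_natCast_atTop_atTop.atTop_add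
        tendsto_const_nhds)).mono_left UU_le
    exact squeeze_zero_norm hα h3
  have hVp : ∀ z, D.p (V z) = 1 := by
    intro z
    have h2 : Tendsto (fun n => D.p (w n z)) UU (𝓝 (D.p (V z))) :=
      (D.p_cont.tendsto _).comp (hVt z)
    simp only [hp] at h2
    exact tendsto_nhds_unique h2 tendsto_const_nhds
  have hVq : ∀ z, D.q (V z) = 0 := by
    intro z
    have h2 : Tendsto (fun n => D.q (w n z)) UU (𝓝 (D.q (V z))) :=
      (D.q_cont.tendsto _).comp (hVt z)
    simp only [hq] at h2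
    have h3 := hα0.mul_const (Complex.exp (κ * z))
    rw [zero_mul] at h3
    exact tendsto_nhds_unique h2 h3
  have hcst := D.strat hk hVd hVl one_ne_zero hVp hVq (D.on_lim hon hVt)
  have hV0 : ‖V 0‖ ≤ M := le_of_tendsto (hVt 0).norm (Eventually.of_forall h0)
  obtain ⟨n, hn⟩ := (hVu t M hM).exists
  have h4 := hn (z n) (mem_closedBall_zero_iff.2 (hz n))
  rw [hcst] at h4
  have h5 := norm_le_norm_add_norm_sub' (w n (z n)) (V 0)
  have h6 := hbad n
  linarith

/-- **returns**: a normalised curve returns to a bounded region along the imaginary axis -/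
theorem returns (hk : 1 ≤ D.k) {B : ℝ} (hB : 0 ≤ B) : ∃ K : ℝ, ∀ v : ℂ → VV s, D.Cv B 0 v →
    ∀ Y : ℝ, ∃ y : ℝ, Y ≤ y ∧ ‖v ((y : ℂ) * Complex.I)‖ ≤ K := by
  obtain ⟨C, hC, hld⟩ := D.ld hB
  obtain ⟨c, hc, hlow⟩ := D.cv_low'
  obtain ⟨e, he, hcusp⟩ := D.cusp
  have hb1 : (1 : ℝ) ≤ D.b := by exact_mod_cast D.hb
  have ha1 : (1 : ℝ) ≤ D.a := by exact_mod_cast D.ha
  have hbp : (0 : ℝ) < D.b := by linarith
  have hbc : (D.b : ℂ) ≠ 0 := by exact_mod_cast hbp.ne'
  set M : ℝ := max 1 (1 / e) with hM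
  have hM1 : 1 ≤ M := le_max_left _ _
  have hMp : 0 < M := by linarith
  have hMe : 1 ≤ e * M := by
    have : 1 / e ≤ M := le_max_right _ _
    rw [div_le_iff₀ he] at this
    linarith
  obtain ⟨T, hT, hexit⟩ := exit_deep hb1 hc hMp
  obtain ⟨ε1, hε1, hn1⟩ := D.near_const hk hC.le hMp T 1
  obtain ⟨ε2, hε2, hn2⟩ := D.swap.near_const hk (C := C + 1) (by positivity) hMp T (-(D.a / D.b))
  set X : ℝ := |Real.log ε1| + D.b * |Real.log ε2| with hX
  have hX0 : 0 ≤ X := by positivity
  refine ⟨max (2 * M) (M * Real.exp (X / D.b) * Real.exp (C * X)), fun v hv => ?_⟩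
  -- first kind of deep points
  have deep1 : ∀ zs : ℂ, ‖v zs‖ ≤ M → zs.re ≤ -X → ∀ z, dist z zs ≤ T → ‖v z‖ ≤ 2 * M := by
    intro zs h1 h2 z hz
    have h3 := D.scaled hv 1 zs
    simp only [one_smul, one_pow, one_mul] at h3
    obtain ⟨s1, s2, s3, s4⟩ := h3
    have h4 := hn1 (fun z => v (zs + z)) (Complex.exp zs) s1 (fun z => by
      rw [s2 z]
      exact hld 0 v hv _) s3 (fun z => by rw [s4, one_mul]) (fun z => hv.on _) (by
      rw [Complex.norm_exp, ← Real.le_log_iff_exp_le hε1]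
      have := neg_abs_le (Real.log ε1)
      have : 0 ≤ D.b * |Real.log ε2| := by positivity
      linarith) (by
      simp only [add_zero]
      exact h1) (z - zs) (by rwa [← dist_eq_norm])
    simp only [add_sub_cancel] at h4
    exact h4
  -- second kind of deep points
  have hen : ∀ z : ℂ, ‖Complex.exp (-(z / D.b))‖ = Real.exp (-(z.re / D.b)) := fun z => by
    rw [Complex.norm_exp, Complex.neg_re, Complex.div_natCast_re]
  set w : ℂ → VV s := fun z => Complex.exp (-(z / D.b)) • v z with hw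
  have hwn : ∀ z, ‖w z‖ = Real.exp (-(z.re / D.b)) * ‖v z‖ := fun z => by
    rw [hw]
    simp only
    rw [norm_smul, hen]
  have hwd : Differentiable ℂ w := by
    have h1 : Differentiable ℂ (fun z : ℂ => Complex.exp (-(z / D.b))) := by fun_prop
    exact h1.smul hv.dif
  have hwld : ∀ z, ‖deriv w z‖ ≤ (C + 1) * ‖w z‖ := by
    intro z
    have h1 : HasDerivAt (fun z : ℂ => Complex.exp (-(z / D.b)))
        (Complex.exp (-(z / D.b)) * (-(1 / D.b))) z :=
      (((hasDerivAt_id z).div_const (D.b : ℂ)).neg).cexp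
    have h2 := (h1.smul (hv.dif z).hasDerivAt).deriv
    rw [show deriv w z = _ from h2]
    refine (norm_add_le _ _).trans ?_
    rw [norm_smul, norm_smul, norm_mul, hen, norm_neg, norm_div, norm_one, Complex.norm_natCast, hwn]
    have h3 := hld 0 v hv z
    have h4 : 1 / (D.b : ℝ) ≤ 1 := by
      rw [div_le_one hbp]
      exact hb1
    have h5 := Real.exp_pos (-(z.re / D.b))
    have h6 := norm_nonneg (v z)
    have h7 : Real.exp (-(z.re / D.b)) * (1 / D.b) * ‖v z‖ ≤ Real.exp (-(z.re / D.b)) * 1 * ‖v z‖ := by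
      gcongr
    have h8 : Real.exp (-(z.re / D.b)) * ‖deriv v z‖ ≤ Real.exp (-(z.re / D.b)) * (C * ‖v z‖) := by
      gcongr
    linarith
  have hwq : ∀ z, D.q (w z) = 1 := by
    intro z
    rw [hw]
    simp only
    rw [D.q_smul, hv.hq, ← Complex.exp_nat_mul, ← Complex.exp_add]
    have : (D.b : ℂ) * -(z / D.b) + (z + 0) = 0 := by
      field_simp
      ring
    rw [this, Complex.exp_zero]
  have hwp : ∀ z, D.p (w z) = Complex.exp (-(D.a / D.b) * z) := by
    intro z
    rw [hw]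
    simp only
    rw [D.p_smul, hv.hp, mul_one, ← Complex.exp_nat_mul]
    congr 1
    field_simp
  have deep2 : ∀ zs : ℂ, ‖w zs‖ ≤ M → X ≤ zs.re → ∀ z, dist z zs ≤ T → ‖w z‖ ≤ 2 * M := by
    intro zs h1 h2 z hz
    have hsh : Differentiable ℂ (fun z => w (zs + z)) := hwd.comp (by fun_prop)
    have hsd : ∀ z, deriv (fun z => w (zs + z)) z = deriv w (zs + z) := by
      intro z
      have h2 : HasDerivAt (fun z : ℂ => zs + z) 1 z := (hasDerivAt_id z).const_add zs
      have h3 := (hwd (zs + z)).hasDerivAt.scomp z h2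
      rw [one_smul] at h3
      exact h3.deriv
    have h4 := hn2 (fun z => w (zs + z)) (Complex.exp (-(D.a / D.b) * zs)) hsh (fun z => by
      rw [hsd z]
      exact hwld _) (fun z => hwq _) (fun z => by
        show D.p (w (zs + z)) = _
        rw [hwp, ← Complex.exp_add]
        congr 1
        ring) (fun z => D.on_smul (hv.on _)) (by
      rw [Complex.norm_exp, ← Real.le_log_iff_exp_le hε2]
      have h5 : (-((D.a : ℂ) / D.b) * zs).re = -(D.a / D.b * zs.re) := by
        have : (-((D.a : ℂ) / D.b) * zs) = ((-(D.a / D.b : ℝ) : ℝ) : ℂ) * zs := by push_cast; ring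
        rw [this, Complex.re_ofReal_mul]
        ring
      rw [h5]
      have h6 := neg_abs_le (Real.log ε2)
      have h7 : 0 ≤ |Real.log ε1| := abs_nonneg _
      have h8 : D.b * |Real.log ε2| ≤ zs.re := by linarith
      have h9 : |Real.log ε2| ≤ zs.re / D.b := by
        rw [le_div_iff₀ hbp]
        linarith
      have h10 : 0 ≤ zs.re / D.b := (abs_nonneg _).trans h9
      have h11 : zs.re / D.b ≤ D.a / D.b * zs.re := by
        rw [div_mul_eq_mul_div, mul_div_assoc]
        nlinarith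
      linarith) (by
      simp only [add_zero]
      exact h1) (z - zs) (by rwa [← dist_eq_norm])
    simp only [add_sub_cancel] at h4
    exact h4
  by_contra hcon
  push Not at hcon
  obtain ⟨Y1, hY1⟩ := hcon
  set S : Set ℂ := {z | ‖v z‖ ≤ M} ∪ {z | ‖w z‖ ≤ M} with hS
  have hSc : IsClosed S := (isClosed_le hv.dif.continuous.norm continuous_const).union
    (isClosed_le hwd.continuous.norm continuous_const)
  -- off this set one coordinate dominates
  have hcu : ∀ O : Set ℂ, IsPreconnected O → (∀ z ∈ O, z ∉ S) →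
      ∃ j : Fin (s + 3), ∀ z ∈ O, ‖v z‖ ≤ 2 * ‖v z j‖ := by
    intro O hO hOS
    refine hcusp O v hO hv.dif.continuous.continuousOn fun z hz => ?_
    have h1 := hOS z hz
    rw [hS, mem_union, not_or] at h1
    obtain ⟨h2, h3⟩ := h1
    have h2' : M < ‖v z‖ := not_le.1 h2
    have h3' : M < ‖w z‖ := not_le.1 h3
    refine ⟨hv.ne z, ?_, ?_, hv.on z⟩
    · rw [hv.hp, norm_one]
      have h4 : M ^ D.a ≤ ‖v z‖ ^ D.a := pow_le_pow_left₀ hMp.le h2'.le _
      have h5 : M ≤ M ^ D.a := le_self_pow₀ hM1 (by have := D.ha; omega)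
      nlinarith
    · have h4 : M ^ D.b ≤ ‖w z‖ ^ D.b := pow_le_pow_left₀ hMp.le h3'.le _
      have h5 : M ≤ M ^ D.b := le_self_pow₀ hM1 (by have := D.hb; omega)
      have h6 : 1 ≤ e * ‖w z‖ ^ D.b := by nlinarith
      rw [hwn, mul_pow, ← Real.exp_nat_mul] at h6
      have h7 : (D.b : ℝ) * -(z.re / D.b) = -z.re := by
        field_simp
      rw [h7, Real.exp_neg] at h6
      rw [hv.hq, add_zero, Complex.norm_exp]
      have h8 := Real.exp_pos z.re
      have h9 : e * ((Real.exp z.re)⁻¹ * ‖v z‖ ^ D.b) = (e * ‖v z‖ ^ D.b) / Real.exp z.re := by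
        field_simp
      rw [h9, le_div_iff₀ h8, one_mul] at h6
      exact h6
  -- no point of this set lies high up
  have hnoS : ∀ y : ℝ, Y1 ≤ y → ∀ z ∈ S, y - Y1 ≤ dist ((y : ℂ) * Complex.I) z := by
    intro y hy z hz
    have hyb := hY1 y hy
    obtain ⟨zs, hzsS, hdist⟩ := hSc.exists_infDist_eq_dist ⟨z, hz⟩ ((y : ℂ) * Complex.I)
    have hle : dist ((y : ℂ) * Complex.I) zs ≤ dist ((y : ℂ) * Complex.I) z := by
      rw [← hdist]
      exact infDist_le_dist_of_mem hz
    refine le_trans ?_ hle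
    set ρ : ℝ := dist ((y : ℂ) * Complex.I) zs with hρ
    have hballS : ∀ z ∈ ball ((y : ℂ) * Complex.I) ρ, z ∉ S := by
      intro z hz hzS
      have h1 := infDist_le_dist_of_mem (x := (y : ℂ) * Complex.I) hzS
      rw [hdist] at h1
      rw [mem_ball, dist_comm] at hz
      linarith
    obtain ⟨j, hj⟩ := hcu _ (convex_ball _ _).isPreconnected hballS
    have hvy : 2 * M < ‖v ((y : ℂ) * Complex.I)‖ := lt_of_le_of_lt (le_max_left _ _) hyb
    have hyre : ((y : ℂ) * Complex.I).re = 0 := by simp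
    have hwy : ‖w ((y : ℂ) * Complex.I)‖ = ‖v ((y : ℂ) * Complex.I)‖ := by
      rw [hwn, hyre, zero_div, neg_zero, Real.exp_zero, one_mul]
    by_cases hA : ‖v zs‖ ≤ M ∧ zs.re ≤ -X
    · exfalso
      have hd := deep1 zs hA.1 hA.2
      have h1 := hexit v 1 y ρ zs j hv.dif (Or.inl rfl) (fun z => by
        rw [one_mul]
        exact hlow B v hv z) rfl hj hd
      have h2 := hd ((y : ℂ) * Complex.I) h1
      linarith
    by_cases hA2 : ‖w zs‖ ≤ M ∧ X ≤ zs.re
    · exfalso
      have hd := deep2 zs hA2.1 hA2.2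
      have h1 := hexit w (-1) y ρ zs j hwd (Or.inr rfl) (fun z => by
        have h2 := hlow B v hv z
        rw [hwn]
        have h3 : max (-1 * z.re) 0 / D.b = -(z.re / D.b) + max z.re 0 / D.b := by
          rw [← neg_div, ← add_div]
          congr 1
          rcases le_total z.re 0 with h | h
          · rw [max_eq_left (by linarith), max_eq_right h]
            ring
          · rw [max_eq_right (by linarith), max_eq_left h]
            ring
        rw [h3, Real.exp_add]
        have h4 := Real.exp_pos (-(z.re / D.b))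
        calc c * (Real.exp (-(z.re / D.b)) * Real.exp (max z.re 0 / D.b)) =
            Real.exp (-(z.re / D.b)) * (c * Real.exp (max z.re 0 / D.b)) := by ring
          _ ≤ _ := by gcongr) rfl (fun z hz => by
        have h2 := hj z hz
        have h3 : ‖w z j‖ = Real.exp (-(z.re / D.b)) * ‖v z j‖ := by
          rw [hw]
          simp only [Pi.smul_apply, smul_eq_mul]
          rw [norm_mul, hen]
        rw [hwn, h3]
        have h4 := Real.exp_pos (-(z.re / D.b))
        nlinarith) hd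
      have h2 := hd ((y : ℂ) * Complex.I) h1
      linarith
    -- the exit point lies in the middle region
    have hmid : |zs.re| ≤ X ∧ ‖v zs‖ ≤ M * Real.exp (X / D.b) := by
      have hX1 : 1 ≤ Real.exp (X / D.b) := by
        rw [← Real.exp_zero]
        exact Real.exp_le_exp.2 (by positivity)
      have hcase : ∀ {r : ℝ}, r ≤ 0 → ‖w zs‖ = Real.exp (-(zs.re / D.b)) * ‖v zs‖ := fun _ => hwn zs
      rcases hzsS with h1 | h1
      · have h1' : ‖v zs‖ ≤ M := h1
        have h2 : -X < zs.re := by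
          by_contra h
          exact hA ⟨h1', not_lt.1 h⟩
        have h3 : zs.re < X := by
          by_contra h
          push Not at h
          refine hA2 ⟨?_, h⟩
          rw [hwn]
          have h4 : Real.exp (-(zs.re / D.b)) ≤ 1 := by
            rw [Real.exp_le_one_iff]
            have : 0 ≤ zs.re / D.b := div_nonneg (hX0.trans h) hbp.le
            linarith
          have h5 := norm_nonneg (v zs)
          nlinarith
        refine ⟨abs_le.2 ⟨h2.le, h3.le⟩, ?_⟩
        nlinarith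
      · have h1' : ‖w zs‖ ≤ M := h1
        have h3 : zs.re < X := by
          by_contra h
          exact hA2 ⟨h1', not_lt.1 h⟩
        have h6 : ‖v zs‖ = Real.exp (zs.re / D.b) * ‖w zs‖ := by
          rw [hwn, ← mul_assoc, ← Real.exp_add, add_neg_cancel, Real.exp_zero, one_mul]
        have h2 : -X < zs.re := by
          by_contra h
          push Not at h
          refine hA ⟨?_, h⟩
          rw [h6]
          have h4 : Real.exp (zs.re / D.b) ≤ 1 := by
            rw [Real.exp_le_one_iff]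
            exact div_nonpos_of_nonpos_of_nonneg (by linarith) hbp.le
          have h5 := norm_nonneg (w zs)
          nlinarith
        refine ⟨abs_le.2 ⟨h2.le, h3.le⟩, ?_⟩
        rw [h6]
        have h4 : Real.exp (zs.re / D.b) ≤ Real.exp (X / D.b) :=
          Real.exp_le_exp.2 (div_le_div_of_nonneg_right h3.le hbp.le)
        have h5 := norm_nonneg (w zs)
        have h7 := Real.exp_pos (zs.re / D.b)
        nlinarith
    have hgr := gronwall hv.dif (hld 0 v hv) ((zs.im : ℂ) * Complex.I) zs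
    have hdz : dist ((zs.im : ℂ) * Complex.I) zs = |zs.re| := by
      rw [dist_comm, dist_eq_norm]
      have : zs - (zs.im : ℂ) * Complex.I = (zs.re : ℂ) := by
        apply Complex.ext <;> simp
      rw [this, Complex.norm_real, Real.norm_eq_abs]
    rw [hdz] at hgr
    have hlt : zs.im < Y1 := by
      by_contra h
      push Not at h
      have h1 := hY1 zs.im h
      have h2 : M * Real.exp (X / D.b) * Real.exp (C * X) < ‖v ((zs.im : ℂ) * Complex.I)‖ :=
        lt_of_le_of_lt (le_max_right _ _) h1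
      have h3 : ‖v zs‖ * Real.exp (C * |zs.re|) ≤ M * Real.exp (X / D.b) * Real.exp (C * X) := by
        refine mul_le_mul hmid.2 (Real.exp_le_exp.2 ?_) (Real.exp_pos _).le (by positivity)
        exact mul_le_mul_of_nonneg_left hmid.1 hC.le
      linarith
    have h1 : |(zs - (y : ℂ) * Complex.I).im| ≤ dist zs ((y : ℂ) * Complex.I) := by
      rw [dist_eq_norm]
      exact Complex.abs_im_le_norm _
    have h2 : (zs - (y : ℂ) * Complex.I).im = zs.im - y := by simp
    rw [h2, dist_comm] at h1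
    have h3 := neg_abs_le (zs.im - y)
    linarith
  have hhalf : ∀ z : ℂ, Y1 < z.im → z ∉ S := by
    intro z hz hzS
    -- choose a high centre
    set s : ℝ := z.im - Y1 with hs
    have hsp : 0 < s := by linarith
    set y : ℝ := z.im + s + (z.re ^ 2 + 1) / s with hy
    have hd0 : 0 < (z.re ^ 2 + 1) / s := by positivity
    have h1 := hnoS y (by linarith) z hzS
    have h2 : dist ((y : ℂ) * Complex.I) z ^ 2 = z.re ^ 2 + (y - z.im) ^ 2 := by
      rw [dist_eq_norm, ← Complex.normSq_eq_norm_sq, Complex.normSq_apply]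
      simp
      ring
    have h3 : (y - Y1) ^ 2 ≤ dist ((y : ℂ) * Complex.I) z ^ 2 :=
      pow_le_pow_left₀ (by linarith) h1 2
    rw [h2] at h3
    have h4 : (z.re ^ 2 + 1) / s * s = z.re ^ 2 + 1 := div_mul_cancel₀ _ hsp.ne'
    have h5 : y - Y1 = s + (y - z.im) := by rw [hs]; ring
    have h6 : y - z.im = s + (z.re ^ 2 + 1) / s := by rw [hy]; ring
    rw [h5] at h3
    nlinarith
  have hHpre : IsPreconnected {z : ℂ | Y1 < z.im} := (convex_halfSpace_im_gt Y1).isPreconnected
  obtain ⟨j, hj⟩ := hcu _ hHpre (fun z hz => hhalf z hz)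
  have hne : ∀ z : ℂ, Y1 < z.im → v z j ≠ 0 := by
    intro z hz h0
    have h1 := hj z hz
    rw [h0, norm_zero, mul_zero] at h1
    have := hv.pos z
    linarith
  have himp : ∀ z : ℂ, 0 < z.im → Y1 < (z + (Y1 : ℂ) * Complex.I).im := by
    intro z hz
    simp
    exact hz
  have hz := li (φ := fun z => (v (z + (Y1 : ℂ) * Complex.I) j)⁻¹) (C := 2 / c) (c := 1 / D.b)
    (by
      refine DifferentiableOn.inv ?_ (fun z hz => hne _ (himp z hz))
      refine Differentiable.differentiableOn ?_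
      have hu : Differentiable ℂ (fun z => v z j) := fun z => differentiableAt_pi.1 (hv.dif z) j
      exact hu.comp (by fun_prop)) (by positivity) (fun z hz => by
      have h1 := hj _ (himp z hz)
      have h2 := hlow B v hv (z + (Y1 : ℂ) * Complex.I)
      have h3 : (z + (Y1 : ℂ) * Complex.I).re = z.re := by simp
      rw [h3] at h2
      have h4 : 1 / (D.b : ℝ) * max z.re 0 = max z.re 0 / D.b := by ring
      rw [norm_inv, Real.exp_neg, h4, ← div_eq_mul_inv, div_div, inv_eq_one_div,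
        div_le_div_iff₀ (norm_pos_iff.2 (hne _ (himp z hz))) (by positivity)]
      linarith) Complex.I (by rw [Complex.I_im]; exact one_pos)
  exact inv_ne_zero (hne _ (himp Complex.I (by rw [Complex.I_im]; exact one_pos))) hz

/-- returns along the integer multiples of the period -/
theorem returns_nat (hk : 1 ≤ D.k) {B : ℝ} (hB : 0 ≤ B) : ∃ K : ℝ, 0 < K ∧
    ∀ v : ℂ → VV s, D.Cv B 0 v → ∀ n : ℕ, ∃ m : ℕ, n ≤ m ∧
      ‖v ((m : ℂ) * (2 * Real.pi * Complex.I))‖ ≤ K := by
  obtain ⟨K', hK'⟩ := D.returns hk hB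
  obtain ⟨C, hC, hld⟩ := D.ld hB
  set K : ℝ := max K' 1 with hKd
  have hK0 : 0 < K := lt_of_lt_of_le one_pos (le_max_right _ _)
  have hπ := Real.pi_pos
  refine ⟨K * Real.exp (C * (2 * Real.pi)), by positivity, fun v hv n => ?_⟩
  obtain ⟨y, hy, hyK'⟩ := hK' v hv (2 * Real.pi * n)
  have hyK : ‖v ((y : ℂ) * Complex.I)‖ ≤ K := hyK'.trans (le_max_left _ _)
  have hy0 : 0 ≤ y / (2 * Real.pi) := by
    have : 0 ≤ 2 * Real.pi * (n : ℝ) := by positivity
    exact div_nonneg (this.trans hy) (by positivity)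
  refine ⟨⌊y / (2 * Real.pi)⌋₊, ?_, ?_⟩
  · rw [Nat.le_floor_iff hy0, le_div_iff₀ (by positivity)]
    linarith
  · have h1 := gronwall hv.dif (hld 0 v hv)
      ((⌊y / (2 * Real.pi)⌋₊ : ℂ) * (2 * Real.pi * Complex.I)) ((y : ℂ) * Complex.I)
    refine h1.trans ?_
    refine mul_le_mul hyK (Real.exp_le_exp.2 ?_) (Real.exp_pos _).le hK0.le
    refine mul_le_mul_of_nonneg_left ?_ hC.le
    have h2 : (⌊y / (2 * Real.pi)⌋₊ : ℂ) * (2 * Real.pi * Complex.I) - (y : ℂ) * Complex.I =
        (((⌊y / (2 * Real.pi)⌋₊ : ℝ) * (2 * Real.pi) - y : ℝ) : ℂ) * Complex.I := by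
      push_cast
      ring
    rw [dist_eq_norm, h2, norm_mul, Complex.norm_I, mul_one, Complex.norm_real, Real.norm_eq_abs,
      abs_le]
    have h3 := Nat.floor_le hy0
    have h4 := Nat.lt_floor_add_one (y / (2 * Real.pi))
    rw [le_div_iff₀ (by positivity)] at h3
    rw [div_lt_iff₀ (by positivity)] at h4
    constructor <;> linarith

end Pair

end Pool.Agent.K9h84.CI
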