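import Pool.Agent.K9h84.CI.Cri

/-!
# Relative speed bound

The speed of a holomorphic disc in the complement is bounded in terms of the radius of the disc as
long as the exponent of the second form varies by a bounded amount.
-/

set_option autoImplicit false

open Set Filter Topology Metric

namespace Pool.Agent.K9h84.CI

variable {s : ℕ}

/-- selection of a point of almost maximal speed, with control of the scale -/
theorem brody_sel' {r K : ℝ} (hr : 0 < r) (hK : 0 < K) {f : ℂ → VV s}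
    (hf : DifferentiableOn ℂ f (ball 0 r)) (hne : ∀ z ∈ ball (0 : ℂ) r, f z ≠ 0)
    (h0 : 4 * K / r * ‖f 0‖ ^ 2 < ‖cr (f 0) (deriv f 0)‖) :
    ∃ (z1 : ℂ) (sv : ℝ), 0 < sv ∧ 4 * K < sv * r ∧
      (∀ ζ ∈ ball (0 : ℂ) K, z1 + ζ / sv ∈ ball (0 : ℂ) r) ∧
      (∀ ζ ∈ ball (0 : ℂ) K, ‖cr (f (z1 + ζ / sv)) (deriv f (z1 + ζ / sv))‖ ≤
        2 * sv * ‖f (z1 + ζ / sv)‖ ^ 2) ∧
      sv * ‖f z1‖ ^ 2 ≤ ‖cr (f z1) (deriv f z1)‖ := by
  set σ : ℂ → ℝ := fun z => ‖cr (f z) (deriv f z)‖ / ‖f z‖ ^ 2 with hσ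
  have hsub : closedBall (0 : ℂ) (r / 2) ⊆ ball 0 r := closedBall_subset_ball (by linarith)
  have hfc : ContinuousOn f (ball 0 r) := hf.continuousOn
  have hf'c : ContinuousOn (deriv f) (ball 0 r) := (hf.deriv isOpen_ball).continuousOn
  have hcrc : ContinuousOn (fun z => cr (f z) (deriv f z)) (ball 0 r) := by
    have h1 : ContinuousOn (fun z => ((f z, deriv f z) : VV s × VV s)) (ball 0 r) := hfc.prodMk hf'c
    exact cr_cont.comp_continuousOn h1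
  have hσc : ContinuousOn σ (ball 0 r) := by
    refine hcrc.norm.div (hfc.norm.pow 2) fun z hz => ?_
    have := norm_pos_iff.2 (hne z hz)
    positivity
  have hFc : ContinuousOn (fun z => (r / 2 - ‖z‖) * σ z) (closedBall (0 : ℂ) (r / 2)) :=
    (continuousOn_const.sub continuous_norm.continuousOn).mul (hσc.mono hsub)
  obtain ⟨z1, hz1, hmax⟩ := (isCompact_closedBall (0 : ℂ) (r / 2)).exists_isMaxOn
    ⟨0, mem_closedBall_self (by linarith)⟩ hFc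
  have h00 : (0 : ℂ) ∈ ball (0 : ℂ) r := mem_ball_self hr
  have hf0 : 0 < ‖f 0‖ := norm_pos_iff.2 (hne 0 h00)
  have hσ0 : 4 * K / r < σ 0 := by
    rw [hσ]
    simp only
    rw [lt_div_iff₀ (by positivity)]
    exact h0
  have hz1n : ‖z1‖ ≤ r / 2 := mem_closedBall_zero_iff.1 hz1
  set δ : ℝ := r / 2 - ‖z1‖ with hδ
  set sv : ℝ := σ z1 with hsv
  have hM : 2 * K < δ * sv := by
    have h1 : (r / 2 - ‖(0 : ℂ)‖) * σ 0 ≤ δ * sv :=
      hmax (mem_closedBall_self (by linarith) : (0 : ℂ) ∈ closedBall (0 : ℂ) (r / 2))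
    rw [norm_zero, sub_zero] at h1
    have h2 : r / 2 * (4 * K / r) < r / 2 * σ 0 := mul_lt_mul_of_pos_left hσ0 (by linarith)
    have h3 : r / 2 * (4 * K / r) = 2 * K := by
      field_simp
      ring
    linarith
  have hδ0 : 0 ≤ δ := by linarith
  have hδp : 0 < δ := by
    rcases hδ0.lt_or_eq with h | h
    · exact h
    · rw [← h, zero_mul] at hM
      linarith
  have hsp : 0 < sv := by
    by_contra h
    push Not at h
    have := mul_nonpos_of_nonneg_of_nonpos hδ0 h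
    linarith
  have hin : ∀ ζ ∈ ball (0 : ℂ) K, ‖z1 + ζ / sv‖ ≤ r / 2 - δ / 2 := by
    intro ζ hζ
    have h1 : ‖ζ‖ < K := mem_ball_zero_iff.1 hζ
    have h2 : ‖ζ / (sv : ℂ)‖ ≤ δ / 2 := by
      rw [norm_div, Complex.norm_real, Real.norm_of_nonneg hsp.le, div_le_iff₀ hsp]
      linarith
    have h3 := norm_add_le z1 (ζ / (sv : ℂ))
    linarith
  refine ⟨z1, sv, hsp, ?_, fun ζ hζ => ?_, fun ζ hζ => ?_, ?_⟩
  · have h1 : δ ≤ r / 2 := by
      have := norm_nonneg z1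
      linarith
    have h2 : δ * sv ≤ r / 2 * sv := mul_le_mul_of_nonneg_right h1 hsp.le
    linarith
  · rw [mem_ball_zero_iff]
    have := hin ζ hζ
    linarith
  · have h1 := hin ζ hζ
    have h2 : z1 + ζ / (sv : ℂ) ∈ closedBall (0 : ℂ) (r / 2) := by
      rw [mem_closedBall_zero_iff]
      linarith
    have h3 : (r / 2 - ‖z1 + ζ / (sv : ℂ)‖) * σ (z1 + ζ / (sv : ℂ)) ≤ δ * sv := hmax h2
    have h4 : 0 ≤ σ (z1 + ζ / (sv : ℂ)) := by
      rw [hσ]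
      positivity
    have h5 : δ / 2 * σ (z1 + ζ / (sv : ℂ)) ≤ δ / 2 * (2 * sv) := by
      have h6 : δ / 2 * σ (z1 + ζ / (sv : ℂ)) ≤ (r / 2 - ‖z1 + ζ / (sv : ℂ)‖) * σ (z1 + ζ / (sv : ℂ)) :=
        mul_le_mul_of_nonneg_right (by linarith) h4
      linarith
    have h7 : σ (z1 + ζ / (sv : ℂ)) ≤ 2 * sv := le_of_mul_le_mul_left h5 (by linarith)
    have h8 : 0 < ‖f (z1 + ζ / (sv : ℂ))‖ := norm_pos_iff.2 (hne _ (hsub h2))
    rw [hσ] at h7
    simp only at h7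
    rwa [div_le_iff₀ (by positivity)] at h7
  · have h8 : 0 < ‖f z1‖ := norm_pos_iff.2 (hne _ (hsub hz1))
    have h9 : sv ≤ ‖cr (f z1) (deriv f z1)‖ / ‖f z1‖ ^ 2 := le_rfl
    rwa [le_div_iff₀ (by positivity)] at h9

namespace Pair

variable (D : Pair s)

/-- **relative speed bound** -/
theorem rel_speed (hk : 1 ≤ D.k) (hF : D.HF) : ∃ C : ℝ, 0 < C ∧
    ∀ (r : ℝ) (α β : ℂ) (v : ℂ → VV s), 0 < r → ‖α‖ * r ≤ 1 → DifferentiableOn ℂ v (ball 0 r) →
      (∀ z ∈ ball (0 : ℂ) r, D.on (v z)) →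
      (∀ z ∈ ball (0 : ℂ) r, D.p (v z) = 1) →
      (∀ z ∈ ball (0 : ℂ) r, D.q (v z) = Complex.exp (α * z + β)) →
      ‖cr (v 0) (deriv v 0)‖ ≤ C / r * ‖v 0‖ ^ 2 := by
  have hbc : (D.b : ℂ) ≠ 0 := by
    have := D.hb
    exact_mod_cast (by omega : D.b ≠ 0)
  by_contra hcon
  push Not at hcon
  have hch : ∀ n : ℕ, ∃ (v w : ℂ → VV s) (e : ℂ → ℂ) (κ τ : ℂ),
      DifferentiableOn ℂ v (ball 0 ((n : ℝ) + 1)) ∧ DifferentiableOn ℂ w (ball 0 ((n : ℝ) + 1)) ∧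
      (∀ z ∈ ball (0 : ℂ) ((n : ℝ) + 1), D.p (v z) = 1) ∧
      (∀ z ∈ ball (0 : ℂ) ((n : ℝ) + 1), D.q (w z) = 1) ∧
      (∀ z ∈ ball (0 : ℂ) ((n : ℝ) + 1), w z = e z • v z) ∧
      (∀ z ∈ ball (0 : ℂ) ((n : ℝ) + 1), ‖cr (v z) (deriv v z)‖ ≤ 2 * ‖v z‖ ^ 2) ∧
      (∀ z ∈ ball (0 : ℂ) ((n : ℝ) + 1), ‖cr (w z) (deriv w z)‖ ≤ 2 * ‖w z‖ ^ 2) ∧
      ‖v 0‖ ^ 2 ≤ ‖cr (v 0) (deriv v 0)‖ ∧ ‖w 0‖ ^ 2 ≤ ‖cr (w 0) (deriv w 0)‖ ∧
      ‖κ‖ ≤ ((n : ℝ) + 1)⁻¹ ∧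
      (∀ z ∈ ball (0 : ℂ) ((n : ℝ) + 1), D.q (v z) = Complex.exp (κ * z + τ)) ∧
      (∀ z ∈ ball (0 : ℂ) ((n : ℝ) + 1), D.on (v z)) := by
    intro n
    have hn1 : (0 : ℝ) < (n : ℝ) + 1 := by positivity
    obtain ⟨r, α, β, f, hr, hαr, hfd, hfon, hfp, hfq, hbig⟩ := hcon (4 * ((n : ℝ) + 1)) (by positivity)
    have hne : ∀ z ∈ ball (0 : ℂ) r, f z ≠ 0 := by
      intro z hz h
      have h1 := hfp z hz
      rw [h, D.p_zero] at h1
      exact zero_ne_one h1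
    obtain ⟨z1, sv, hsv, hsr, hin, hsp, hs0⟩ := brody_sel' hr hn1 hfd hne hbig
    have hsc0 : (sv : ℂ) ≠ 0 := by exact_mod_cast hsv.ne'
    set u : ℂ → VV s := fun ζ => f (z1 + ζ / sv) with hu
    have hud : DifferentiableOn ℂ u (ball 0 ((n : ℝ) + 1)) := by
      refine hfd.comp ?_ hin
      fun_prop
    have hus : ∀ ζ ∈ ball (0 : ℂ) ((n : ℝ) + 1), ‖cr (u ζ) (deriv u ζ)‖ ≤ 2 * ‖u ζ‖ ^ 2 := by
      intro ζ hζ
      have h1 := cr_deriv_rescale hsv (hfd.differentiableAt (isOpen_ball.mem_nhds (hin ζ hζ)))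
      have h2 := hsp ζ hζ
      show ‖cr (f (z1 + ζ / sv)) (deriv (fun ζ => f (z1 + ζ / sv)) ζ)‖ ≤ _
      rw [h1, div_le_iff₀ hsv]
      calc _ ≤ 2 * sv * ‖f (z1 + ζ / sv)‖ ^ 2 := h2
        _ = _ := by rw [hu]; ring
    have h0b : (0 : ℂ) ∈ ball (0 : ℂ) ((n : ℝ) + 1) := mem_ball_self hn1
    have hu0 : ‖u 0‖ ^ 2 ≤ ‖cr (u 0) (deriv u 0)‖ := by
      have h1 := cr_deriv_rescale hsv (hfd.differentiableAt (isOpen_ball.mem_nhds (hin 0 h0b)))
      have e1 : z1 + 0 / (sv : ℂ) = z1 := by rw [zero_div, add_zero]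
      show ‖f (z1 + 0 / sv)‖ ^ 2 ≤ ‖cr (f (z1 + 0 / sv)) (deriv (fun ζ => f (z1 + ζ / sv)) 0)‖
      rw [h1, e1, le_div_iff₀ hsv, mul_comm]
      exact hs0
    have hup : ∀ z ∈ ball (0 : ℂ) ((n : ℝ) + 1), D.p (u z) = 1 := fun z hz => hfp _ (hin z hz)
    have huq : ∀ z ∈ ball (0 : ℂ) ((n : ℝ) + 1), D.q (u z) =
        Complex.exp (α / sv * z + (α * z1 + β)) := by
      intro z hz
      show D.q (f (z1 + z / sv)) = _
      rw [hfq _ (hin z hz)]
      congr 1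
      field_simp
      ring
    set e : ℂ → ℂ := fun z => Complex.exp (-((α / sv * z + (α * z1 + β)) / D.b)) with he
    have hed : Differentiable ℂ e := by
      rw [he]
      fun_prop
    have he0 : ∀ z, e z ≠ 0 := fun z => Complex.exp_ne_zero _
    have hwq : ∀ z ∈ ball (0 : ℂ) ((n : ℝ) + 1), D.q (e z • u z) = 1 := by
      intro z hz
      rw [D.q_smul, huq z hz, he, ← Complex.exp_nat_mul, ← Complex.exp_add]
      have : (D.b : ℂ) * -((α / sv * z + (α * z1 + β)) / D.b) + (α / sv * z + (α * z1 + β)) = 0 := by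
        field_simp
        ring
      rw [this, Complex.exp_zero]
    have hsc : ∀ z ∈ ball (0 : ℂ) ((n : ℝ) + 1),
          ‖cr (e z • u z) (deriv (fun z => e z • u z) z)‖ = ‖e z‖ ^ 2 * ‖cr (u z) (deriv u z)‖ ∧
          ‖e z • u z‖ ^ 2 = ‖e z‖ ^ 2 * ‖u z‖ ^ 2 := by
      intro z hz
      constructor
      · rw [cr_deriv_smul (hud.differentiableAt (isOpen_ball.mem_nhds hz))
          (hed z), norm_smul, norm_pow]
      · rw [norm_smul, mul_pow]
    refine ⟨u, fun z => e z • u z, e, α / sv, α * z1 + β, hud, hed.differentiableOn.smul hud, hup, hwq,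
      fun z _ => rfl, hus, ?_, hu0, ?_, ?_, huq, fun z hz => hfon _ (hin z hz)⟩
    · intro z hz
      obtain ⟨h1, h2⟩ := hsc z hz
      show ‖cr (e z • u z) (deriv (fun z => e z • u z) z)‖ ≤ 2 * ‖e z • u z‖ ^ 2
      rw [h1, h2]
      have h3 := hus z hz
      have h4 : 0 ≤ ‖e z‖ ^ 2 := by positivity
      nlinarith
    · obtain ⟨h1, h2⟩ := hsc 0 h0b
      show ‖e 0 • u 0‖ ^ 2 ≤ ‖cr (e 0 • u 0) (deriv (fun z => e z • u z) 0)‖
      rw [h1, h2]
      have h4 : 0 ≤ ‖e 0‖ ^ 2 := by positivity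
      nlinarith
    · rw [norm_div, Complex.norm_real, Real.norm_of_nonneg hsv.le, div_le_iff₀ hsv,
        inv_mul_eq_div, le_div_iff₀ hn1]
      have h1 : ‖α‖ * ((n : ℝ) + 1) ≤ ‖α‖ * (sv * r) := by
        apply mul_le_mul_of_nonneg_left _ (norm_nonneg _)
        linarith
      have h2 : ‖α‖ * (sv * r) = sv * (‖α‖ * r) := by ring
      rw [h2] at h1
      have h3 : sv * (‖α‖ * r) ≤ sv * 1 := mul_le_mul_of_nonneg_left hαr hsv.le
      linarith
  choose v w e κ τ hv hw hp hq hvw hsv hsv' h0 h0' hκ hqv hon using hch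
  obtain ⟨V, hVd, hVB, hVp, hVq, hsp, hVon, hVt⟩ := D.limit_curve hk (B := 2) (by norm_num) hv hw hp hq hvw
    hsv hsv' h0 h0' hon
  have hκ0 : Tendsto κ UU (𝓝 0) := by
    have h3 : Tendsto (fun n : ℕ => ((n : ℝ) + 1)⁻¹) UU (𝓝 0) :=
      (tendsto_inv_atTop_zero.comp (tendsto_natCast_atTop_atTop.atTop_add
        tendsto_const_nhds)).mono_left UU_le
    exact squeeze_zero_norm hκ h3
  have hVq' : ∀ z, D.q (V z) = D.q (V 0) := by
    intro z
    have h1 : Tendsto (fun n => D.q (v n z)) UU (𝓝 (D.q (V z))) :=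
      (D.q_cont.tendsto _).comp (hVt z)
    have h2 : Tendsto (fun n => D.q (v n 0)) UU (𝓝 (D.q (V 0))) :=
      (D.q_cont.tendsto _).comp (hVt 0)
    have h3 : Tendsto (fun n => Complex.exp (κ n * z)) UU (𝓝 1) := by
      have h4 := (Complex.continuous_exp.tendsto (0 * z)).comp (hκ0.mul_const z)
      rw [zero_mul, Complex.exp_zero] at h4
      exact h4
    have h5 : Tendsto (fun n => D.q (v n z)) UU (𝓝 (D.q (V 0) * 1)) := by
      refine (h2.mul h3).congr' ?_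
      filter_upwards [UU_large ⌈‖z‖⌉₊] with n hn
      have hz : z ∈ ball (0 : ℂ) ((n : ℝ) + 1) := by
        rw [mem_ball_zero_iff]
        have h6 := Nat.le_ceil ‖z‖
        have h7 : (⌈‖z‖⌉₊ : ℝ) ≤ n := by exact_mod_cast hn
        linarith
      rw [hqv n z hz, hqv n 0 (mem_ball_self (by positivity)), ← Complex.exp_add]
      congr 1
      ring
    rw [mul_one] at h5
    exact tendsto_nhds_unique h1 h5
  exact hsp (hF 2 V (D.q (V 0)) hVd hVon hVp (hVq 0) hVq' hVB 0)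

/-- entire curves in the members of the pencil are constant -/
theorem fib_const (hk : 1 ≤ D.k) (hF : D.HF) {v : ℂ → VV s} (hv : Differentiable ℂ v)
    (hon : ∀ z, D.on (v z)) (hp : ∀ z, D.p (v z) = 1) {c0 : ℂ} (hc0 : c0 ≠ 0) (hq : ∀ z, D.q (v z) = c0) (z : ℂ) :
    cr (v z) (deriv v z) = 0 := by
  obtain ⟨C, hC, hb⟩ := D.rel_speed hk hF
  have hder : deriv (fun w => v (z + w)) 0 = deriv v z := by
    have h3 : HasDerivAt v (deriv v z) (z + 0) := by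
      rw [add_zero]
      exact (hv z).hasDerivAt
    have h4 : HasDerivAt (fun w : ℂ => z + w) 1 0 := (hasDerivAt_id (0 : ℂ)).const_add z
    have h5 := h3.scomp (0 : ℂ) h4
    rw [one_smul] at h5
    exact h5.deriv
  have h1 : ∀ r : ℝ, 0 < r → ‖cr (v z) (deriv v z)‖ ≤ C / r * ‖v z‖ ^ 2 := by
    intro r hr
    have h2 := hb r 0 (Complex.log c0) (fun w => v (z + w)) hr (by rw [norm_zero, zero_mul]; norm_num)
      ((hv.comp (by fun_prop)).differentiableOn) (fun w _ => hon _) (fun w _ => hp _) (fun w _ => by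
        rw [hq, zero_mul, zero_add, Complex.exp_log hc0])
    rw [hder] at h2
    simp only [add_zero] at h2
    exact h2
  have h2 : Tendsto (fun r : ℝ => C / r * ‖v z‖ ^ 2) atTop (𝓝 (0 * ‖v z‖ ^ 2)) :=
    (tendsto_const_nhds.div_atTop tendsto_id).mul_const _
  rw [zero_mul] at h2
  rw [← norm_le_zero_iff]
  refine ge_of_tendsto h2 ?_
  filter_upwards [eventually_gt_atTop 0] with r hr
  exact h1 r hr

end Pair

end Pool.Agent.K9h84.CI
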