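import Pool.Agent.K9h84.CI.Hpl

/-!
# Relative speed bound with a general exponent
-/

set_option autoImplicit false

open Set Filter Topology Metric

namespace Pool.Agent.K9h84.CI

variable {s : ℕ}

/-- Cauchy estimate for a function with small oscillation -/
theorem deriv_le_of_osc {h : ℂ → ℂ} {r M : ℝ} (_hr : 0 < r) (hh : DifferentiableOn ℂ h (ball 0 r))
    (hb : ∀ z ∈ ball (0 : ℂ) r, ‖h z - h 0‖ ≤ M) {z : ℂ} (hz : ‖z‖ < r) :
    ‖deriv h z‖ ≤ M / (r - ‖z‖) := by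
  have h1 : ∀ ρ : ℝ, 0 < ρ → ρ < r - ‖z‖ → ‖deriv h z‖ ≤ M / ρ := by
    intro ρ hρ hρr
    have hsub : closedBall z ρ ⊆ ball 0 r := by
      intro w hw
      rw [mem_closedBall_iff_norm] at hw
      rw [mem_ball_zero_iff]
      have h2 := norm_add_le (w - z) z
      rw [sub_add_cancel] at h2
      linarith
    have hd : DiffContOnCl ℂ (fun w => h w - h 0) (ball z ρ) :=
      (hh.sub_const _).diffContOnCl_ball hsub
    have h2 := Complex.norm_deriv_le_of_forall_mem_sphere_norm_le hρ hd (C := M) fun w hw =>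
      hb w (hsub (sphere_subset_closedBall hw))
    rwa [deriv_sub_const] at h2
  have hpos : 0 < r - ‖z‖ := by linarith
  have h2 : Tendsto (fun ρ : ℝ => M / ρ) (𝓝[<] (r - ‖z‖)) (𝓝 (M / (r - ‖z‖))) := by
    have h3 : ContinuousAt (fun ρ : ℝ => M / ρ) (r - ‖z‖) :=
      continuousAt_const.div continuousAt_id hpos.ne'
    exact h3.tendsto.mono_left nhdsWithin_le_nhds
  refine ge_of_tendsto h2 ?_
  have h3 : Ioo 0 (r - ‖z‖) ∈ 𝓝[<] (r - ‖z‖) := Ioo_mem_nhdsLT hpos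
  filter_upwards [h3] with ρ hρ
  exact h1 ρ hρ.1 hρ.2

namespace Pair

variable (D : Pair s)

/-- **relative speed bound** -/
theorem rel_speed2 (hk : 1 ≤ D.k) (hF : D.HF) : ∃ C : ℝ, 0 < C ∧
    ∀ (r : ℝ) (h : ℂ → ℂ) (v : ℂ → VV s), 0 < r → DifferentiableOn ℂ h (ball 0 r) →
      (∀ z ∈ ball (0 : ℂ) r, ‖h z - h 0‖ ≤ 1) → DifferentiableOn ℂ v (ball 0 r) →
      (∀ z ∈ ball (0 : ℂ) r, D.on (v z)) →
      (∀ z ∈ ball (0 : ℂ) r, D.p (v z) = 1) →
      (∀ z ∈ ball (0 : ℂ) r, D.q (v z) = Complex.exp (h z)) →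
      ‖cr (v 0) (deriv v 0)‖ ≤ C / r * ‖v 0‖ ^ 2 := by
  have hbc : (D.b : ℂ) ≠ 0 := by
    have := D.hb
    exact_mod_cast (by omega : D.b ≠ 0)
  by_contra hcon
  push Not at hcon
  have hch : ∀ n : ℕ, ∃ (v w : ℂ → VV s) (e : ℂ → ℂ) (k : ℂ → ℂ),
      DifferentiableOn ℂ v (ball 0 ((n : ℝ) + 1)) ∧ DifferentiableOn ℂ w (ball 0 ((n : ℝ) + 1)) ∧
      (∀ z ∈ ball (0 : ℂ) ((n : ℝ) + 1), D.p (v z) = 1) ∧
      (∀ z ∈ ball (0 : ℂ) ((n : ℝ) + 1), D.q (w z) = 1) ∧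
      (∀ z ∈ ball (0 : ℂ) ((n : ℝ) + 1), w z = e z • v z) ∧
      (∀ z ∈ ball (0 : ℂ) ((n : ℝ) + 1), ‖cr (v z) (deriv v z)‖ ≤ 2 * ‖v z‖ ^ 2) ∧
      (∀ z ∈ ball (0 : ℂ) ((n : ℝ) + 1), ‖cr (w z) (deriv w z)‖ ≤ 2 * ‖w z‖ ^ 2) ∧
      ‖v 0‖ ^ 2 ≤ ‖cr (v 0) (deriv v 0)‖ ∧ ‖w 0‖ ^ 2 ≤ ‖cr (w 0) (deriv w 0)‖ ∧
      (∀ z ∈ ball (0 : ℂ) ((n : ℝ) + 1), ‖k z - k 0‖ ≤ ‖z‖ * ((n : ℝ) + 1)⁻¹) ∧
      (∀ z ∈ ball (0 : ℂ) ((n : ℝ) + 1), D.q (v z) = Complex.exp (k z)) ∧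
      (∀ z ∈ ball (0 : ℂ) ((n : ℝ) + 1), D.on (v z)) := by
    intro n
    have hn1 : (0 : ℝ) < (n : ℝ) + 1 := by positivity
    obtain ⟨r, h, f, hr, hhd, hosc, hfd', hfon', hfp', hfq', hbig⟩ := hcon (8 * ((n : ℝ) + 1)) (by positivity)
    have hr2 : 0 < r / 2 := by positivity
    have hsub : ball (0 : ℂ) (r / 2) ⊆ ball 0 r := ball_subset_ball (by linarith)
    have hfd := hfd'.mono hsub
    have hfp : ∀ z ∈ ball (0 : ℂ) (r / 2), D.p (f z) = 1 := fun z hz => hfp' z (hsub hz)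
    have hfq : ∀ z ∈ ball (0 : ℂ) (r / 2), D.q (f z) = Complex.exp (h z) := fun z hz =>
      hfq' z (hsub hz)
    have hne : ∀ z ∈ ball (0 : ℂ) (r / 2), f z ≠ 0 := by
      intro z hz h
      have h1 := hfp z hz
      rw [h, D.p_zero] at h1
      exact zero_ne_one h1
    have hbig' : 4 * ((n : ℝ) + 1) / (r / 2) * ‖f 0‖ ^ 2 < ‖cr (f 0) (deriv f 0)‖ := by
      have h1 : 4 * ((n : ℝ) + 1) / (r / 2) = 8 * ((n : ℝ) + 1) / r := by
        field_simp
        ring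
      rwa [h1]
    obtain ⟨z1, sv, hsv, hsr, hin, hsp, hs0⟩ := brody_sel' hr2 hn1 hfd hne hbig'
    have hsc0 : (sv : ℂ) ≠ 0 := by exact_mod_cast hsv.ne'
    set u : ℂ → VV s := fun ζ => f (z1 + ζ / sv) with hu
    set k : ℂ → ℂ := fun ζ => h (z1 + ζ / sv) with hkdef
    have hkd : DifferentiableOn ℂ k (ball 0 ((n : ℝ) + 1)) := by
      refine (hhd.mono hsub).comp ?_ hin
      fun_prop
    have hud : DifferentiableOn ℂ u (ball 0 ((n : ℝ) + 1)) := by
      refine hfd.comp ?_ hin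
      fun_prop
    have hus : ∀ ζ ∈ ball (0 : ℂ) ((n : ℝ) + 1), ‖cr (u ζ) (deriv u ζ)‖ ≤ 2 * ‖u ζ‖ ^ 2 := by
      intro ζ hζ
      have h1 := cr_deriv_rescale hsv (hfd.differentiableAt (isOpen_ball.mem_nhds (hin ζ hζ)))
      have h2 := hsp ζ hζ
      show ‖cr (f (z1 + ζ / sv)) (deriv (fun ζ => f (z1 + ζ / sv)) ζ)‖ ≤ _
      rw [h1, div_le_iff₀ hsv]
      calc _ ≤ 2 * sv * ‖f (z1 + ζ / sv)‖ ^ 2 := h2
        _ = _ := by rw [hu]; ring
    have h0b : (0 : ℂ) ∈ ball (0 : ℂ) ((n : ℝ) + 1) := mem_ball_self hn1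
    have hu0 : ‖u 0‖ ^ 2 ≤ ‖cr (u 0) (deriv u 0)‖ := by
      have h1 := cr_deriv_rescale hsv (hfd.differentiableAt (isOpen_ball.mem_nhds (hin 0 h0b)))
      have e1 : z1 + 0 / (sv : ℂ) = z1 := by rw [zero_div, add_zero]
      show ‖f (z1 + 0 / sv)‖ ^ 2 ≤ ‖cr (f (z1 + 0 / sv)) (deriv (fun ζ => f (z1 + ζ / sv)) 0)‖
      rw [h1, e1, le_div_iff₀ hsv, mul_comm]
      exact hs0
    have hup : ∀ z ∈ ball (0 : ℂ) ((n : ℝ) + 1), D.p (u z) = 1 := fun z hz => hfp _ (hin z hz)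
    have huq : ∀ z ∈ ball (0 : ℂ) ((n : ℝ) + 1), D.q (u z) = Complex.exp (k z) := fun z hz =>
      hfq _ (hin z hz)
    set e : ℂ → ℂ := fun z => Complex.exp (-(k z / D.b)) with he
    have hed : DifferentiableOn ℂ e (ball 0 ((n : ℝ) + 1)) := (hkd.div_const _).neg.cexp
    have he0 : ∀ z, e z ≠ 0 := fun z => Complex.exp_ne_zero _
    have hwq : ∀ z ∈ ball (0 : ℂ) ((n : ℝ) + 1), D.q (e z • u z) = 1 := by
      intro z hz
      rw [D.q_smul, huq z hz, he, ← Complex.exp_nat_mul, ← Complex.exp_add]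
      have : (D.b : ℂ) * -(k z / D.b) + k z = 0 := by
        field_simp
        ring
      rw [this, Complex.exp_zero]
    have hsc : ∀ z ∈ ball (0 : ℂ) ((n : ℝ) + 1),
          ‖cr (e z • u z) (deriv (fun z => e z • u z) z)‖ = ‖e z‖ ^ 2 * ‖cr (u z) (deriv u z)‖ ∧
          ‖e z • u z‖ ^ 2 = ‖e z‖ ^ 2 * ‖u z‖ ^ 2 := by
      intro z hz
      constructor
      · rw [cr_deriv_smul (hud.differentiableAt (isOpen_ball.mem_nhds hz))
          (hed.differentiableAt (isOpen_ball.mem_nhds hz)), norm_smul, norm_pow]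
      · rw [norm_smul, mul_pow]
    refine ⟨u, fun z => e z • u z, e, k, hud, hed.smul hud, hup, hwq,
      fun z _ => rfl, hus, ?_, hu0, ?_, ?_, huq, fun z hz => hfon' _ (hsub (hin z hz))⟩
    · intro z hz
      obtain ⟨h1, h2⟩ := hsc z hz
      show ‖cr (e z • u z) (deriv (fun z => e z • u z) z)‖ ≤ 2 * ‖e z • u z‖ ^ 2
      rw [h1, h2]
      have h3 := hus z hz
      have h4 : 0 ≤ ‖e z‖ ^ 2 := by positivity
      nlinarith
    · obtain ⟨h1, h2⟩ := hsc 0 h0b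
      show ‖e 0 • u 0‖ ^ 2 ≤ ‖cr (e 0 • u 0) (deriv (fun z => e z • u z) 0)‖
      rw [h1, h2]
      have h4 : 0 ≤ ‖e 0‖ ^ 2 := by positivity
      nlinarith
    · intro z hz
      have h1 : ∀ w ∈ ball (0 : ℂ) (r / 2), ‖deriv h w‖ ≤ 2 / r := by
        intro w hw
        rw [mem_ball_zero_iff] at hw
        have h2 := deriv_le_of_osc hr hhd hosc (z := w) (by linarith)
        refine h2.trans ?_
        rw [div_le_div_iff₀ (by linarith) hr]
        linarith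
      have h2 := Convex.norm_image_sub_le_of_norm_deriv_le (𝕜 := ℂ) (f := h) (C := 2 / r)
        (fun w hw => hhd.differentiableAt (isOpen_ball.mem_nhds (hsub hw))) h1
        (convex_ball (0 : ℂ) (r / 2)) (hin 0 h0b) (hin z hz)
      have h3 : z1 + z / (sv : ℂ) - (z1 + 0 / (sv : ℂ)) = z / sv := by
        rw [zero_div]
        ring
      rw [h3, norm_div, Complex.norm_real, Real.norm_of_nonneg hsv.le] at h2
      refine h2.trans ?_
      have h4 : 2 / r * (‖z‖ / sv) = ‖z‖ * (2 / (r * sv)) := by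
        field_simp
      rw [h4]
      refine mul_le_mul_of_nonneg_left ?_ (norm_nonneg _)
      rw [inv_eq_one_div, div_le_div_iff₀ (by positivity) hn1]
      nlinarith
  choose v w e k hv hw hp hq hvw hsv hsv' h0 h0' hκ hqv hon using hch
  obtain ⟨V, hVd, hVB, hVp, hVq, hsp, hVon, hVt⟩ := D.limit_curve hk (B := 2) (by norm_num) hv hw hp hq hvw
    hsv hsv' h0 h0' hon
  have hVq' : ∀ z, D.q (V z) = D.q (V 0) := by
    intro z
    have h1 : Tendsto (fun n => D.q (v n z)) UU (𝓝 (D.q (V z))) :=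
      (D.q_cont.tendsto _).comp (hVt z)
    have h2 : Tendsto (fun n => D.q (v n 0)) UU (𝓝 (D.q (V 0))) :=
      (D.q_cont.tendsto _).comp (hVt 0)
    have hlarge : ∀ᶠ n : ℕ in (UU : Filter ℕ), z ∈ ball (0 : ℂ) ((n : ℝ) + 1) := by
      filter_upwards [UU_large ⌈‖z‖⌉₊] with n hn
      rw [mem_ball_zero_iff]
      have h6 := Nat.le_ceil ‖z‖
      have h7 : (⌈‖z‖⌉₊ : ℝ) ≤ n := by exact_mod_cast hn
      linarith
    have h3 : Tendsto (fun n => Complex.exp (k n z - k n 0)) UU (𝓝 1) := by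
      have h4 : Tendsto (fun n => k n z - k n 0) UU (𝓝 0) := by
        have h5 : Tendsto (fun n : ℕ => ‖z‖ * ((n : ℝ) + 1)⁻¹) UU (𝓝 (‖z‖ * 0)) :=
          ((tendsto_inv_atTop_zero.comp (tendsto_natCast_atTop_atTop.atTop_add
            tendsto_const_nhds)).mono_left UU_le).const_mul _
        rw [mul_zero] at h5
        rw [tendsto_zero_iff_norm_tendsto_zero]
        refine squeeze_zero' (Eventually.of_forall fun n => norm_nonneg _) ?_ h5
        filter_upwards [hlarge] with n hn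
        exact hκ n z hn
      have h5 := (Complex.continuous_exp.tendsto 0).comp h4
      rw [Complex.exp_zero] at h5
      exact h5
    have h5 : Tendsto (fun n => D.q (v n z)) UU (𝓝 (D.q (V 0) * 1)) := by
      refine (h2.mul h3).congr' ?_
      filter_upwards [hlarge] with n hz
      rw [hqv n z hz, hqv n 0 (mem_ball_self (by positivity)), ← Complex.exp_add]
      congr 1
      ring
    rw [mul_one] at h5
    exact tendsto_nhds_unique h1 h5
  exact hsp (hF 2 V (D.q (V 0)) hVd hVon hVp (hVq 0) hVq' hVB 0)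

/-- speed bound at a point of a disc, in terms of the derivative of the exponent -/
theorem rel_speed3 (hk : 1 ≤ D.k) (hF : D.HF) : ∃ C : ℝ, 0 < C ∧
    ∀ (r : ℝ) (z0 : ℂ) (h : ℂ → ℂ) (v : ℂ → VV s), 0 < r → DifferentiableOn ℂ h (ball z0 r) →
      (∀ z ∈ ball z0 r, ‖deriv h z‖ * r ≤ 1) → DifferentiableOn ℂ v (ball z0 r) →
      (∀ z ∈ ball z0 r, D.on (v z)) →
      (∀ z ∈ ball z0 r, D.p (v z) = 1) →
      (∀ z ∈ ball z0 r, D.q (v z) = Complex.exp (h z)) →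
      ‖cr (v z0) (deriv v z0)‖ ≤ C / r * ‖v z0‖ ^ 2 := by
  obtain ⟨C, hC, hb⟩ := D.rel_speed2 hk hF
  refine ⟨C, hC, fun r z0 h v hr hh hh' hv hon hp hq => ?_⟩
  have hin : ∀ z ∈ ball (0 : ℂ) r, z0 + z ∈ ball z0 r := fun z hz => by
    rw [mem_ball_iff_norm, add_sub_cancel_left]
    exact mem_ball_zero_iff.1 hz
  have hmaps : MapsTo (fun z => z0 + z) (ball (0 : ℂ) r) (ball z0 r) := hin
  have h1 := hb r (fun z => h (z0 + z)) (fun z => v (z0 + z)) hr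
    (hh.comp (by fun_prop) hmaps) (fun z hz => by
      have h2 := Convex.norm_image_sub_le_of_norm_deriv_le (𝕜 := ℂ) (f := h) (C := 1 / r)
        (fun w hw => hh.differentiableAt (isOpen_ball.mem_nhds hw))
        (fun w hw => by
          rw [le_div_iff₀ hr]
          exact hh' w hw)
        (convex_ball z0 r) (hin 0 (mem_ball_self hr)) (hin z hz)
      refine h2.trans ?_
      rw [add_zero, add_sub_cancel_left, div_mul_eq_mul_div, div_le_one hr, one_mul]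
      exact (mem_ball_zero_iff.1 hz).le) (hv.comp (by fun_prop) hmaps)
    (fun z hz => hon _ (hin z hz)) (fun z hz => hp _ (hin z hz)) (fun z hz => hq _ (hin z hz))
  have h3 : deriv (fun z => v (z0 + z)) 0 = deriv v z0 := by
    have h4 := shift_deriv (v := v) (p := z0) (z := 0) (by
      rw [add_zero]
      exact hv.differentiableAt (isOpen_ball.mem_nhds (mem_ball_self hr)))
    rw [h4.deriv, add_zero]
  rw [h3] at h1
  simpa only [add_zero] using h1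

end Pair

end Pool.Agent.K9h84.CI
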