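import Pool.Agent.K9h84.CI.LD

/-!
# The multiplier is the exponential of an affine function

For a curve of bounded speed omitting both curves the ratio of the two forms is the exponential
of an affine function, and the logarithmic derivative bound holds everywhere.
-/

set_option autoImplicit false

open Set Filter Topology Metric

namespace Pool.Agent.K9h84.CI

open Pool.Agent.K9h3.TC (harnack' harnack_deriv)

variable {s : ℕ}

/-- positive case of the next lemma -/
theorem ch_pos {h : ℂ → ℂ} (hh : Differentiable ℂ h) {C : ℝ}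
    (hC : ∀ z, (h z).re = 0 → ‖deriv h z‖ ≤ C) {z0 : ℂ} (hz0 : 0 < (h z0).re) (hC0 : 0 ≤ C) :
    ‖deriv h z0‖ ≤ 4 * C := by
  have hre : Continuous (fun z => (h z).re) := Complex.continuous_re.comp hh.continuous
  set Z : Set ℂ := {z | (h z).re = 0} with hZ
  have hZc : IsClosed Z := isClosed_eq hre continuous_const
  have hposS : ∀ S : Set ℂ, IsPreconnected S → z0 ∈ S → (∀ z ∈ S, z ∉ Z) → ∀ z ∈ S, 0 < (h z).re := by
    intro S hS hzS hnZ z hz
    by_contra hcon
    push Not at hcon
    have hiv := hS.intermediate_value hz hzS hre.continuousOn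
    obtain ⟨w, hw, hw0⟩ := hiv (show (0 : ℝ) ∈ Icc _ _ from ⟨hcon, hz0.le⟩)
    exact hnZ w hw hw0
  by_cases hZe : Z.Nonempty
  · obtain ⟨zs, hzs, hdist⟩ := hZc.exists_infDist_eq_dist hZe z0
    set ρ : ℝ := dist z0 zs with hρdef
    have hρ : 0 < ρ := by
      rw [hρdef, dist_pos]
      intro hh0
      rw [hh0] at hz0
      have : (h zs).re = 0 := hzs
      linarith
    have hpos : ∀ z ∈ ball z0 ρ, 0 < (h z).re := by
      refine hposS _ (convex_ball _ _).isPreconnected (mem_ball_self hρ) fun z hz hzZ => ?_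
      have h1 := infDist_le_dist_of_mem (x := z0) hzZ
      rw [hdist] at h1
      rw [mem_ball, dist_comm] at hz
      linarith
    have hdz : ‖z0 - zs‖ = ρ := by rw [← dist_eq_norm]
    set ν : ℂ := (z0 - zs) / ρ with hν
    have hνn : ‖ν‖ = 1 := by
      rw [hν, norm_div, hdz, Complex.norm_real, Real.norm_of_nonneg hρ.le, div_self hρ.ne']
    have hρc : (ρ : ℂ) ≠ 0 := by exact_mod_cast hρ.ne'
    have hfd : HasDerivAt (fun t : ℝ => (h (zs + t * ν)).re) (deriv h zs * ν).re 0 := by
      have h1 : HasDerivAt (fun t : ℝ => zs + (t : ℂ) * ν) ν 0 := by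
        have h2 : HasDerivAt (fun s : ℝ => (s : ℂ)) 1 (0 : ℝ) := Complex.ofRealCLM.hasDerivAt
        have h3 := (h2.mul_const ν).const_add zs
        rwa [one_mul] at h3
      have h4 : HasDerivAt h (deriv h zs) (zs + ((0 : ℝ) : ℂ) * ν) := by
        rw [Complex.ofReal_zero, zero_mul, add_zero]
        exact (hh zs).hasDerivAt
      have h5 : HasDerivAt (fun t : ℝ => h (zs + t * ν)) (ν • deriv h zs) 0 := h4.scomp 0 h1
      have h6 : HasDerivAt (fun t : ℝ => (h (zs + t * ν)).re) (ν • deriv h zs).re 0 :=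
        Complex.reCLM.hasFDerivAt.comp_hasDerivAt (0 : ℝ) h5
      rwa [smul_eq_mul, mul_comm] at h6
    have hzs0 : (h zs).re = 0 := hzs
    have hlow : (h z0).re / (2 * ρ) ≤ (deriv h zs * ν).re := by
      have h1 := hasDerivAt_iff_tendsto_slope.1 hfd
      have h2 : Tendsto (slope (fun t : ℝ => (h (zs + t * ν)).re) 0) (𝓝[>] 0)
          (𝓝 (deriv h zs * ν).re) :=
        h1.mono_left (nhdsWithin_mono _ (fun x hx => ne_of_gt hx))
      refine ge_of_tendsto h2 ?_
      have h3 : Ioo (0 : ℝ) ρ ∈ 𝓝[>] (0 : ℝ) := Ioo_mem_nhdsGT hρ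
      filter_upwards [h3] with t ht
      have hzt : zs + (t : ℂ) * ν - z0 = ((t / ρ - 1 : ℝ) : ℂ) * (z0 - zs) := by
        rw [hν]
        push_cast
        field_simp
        ring
      have hneg : t / ρ - 1 ≤ 0 := by
        rw [sub_nonpos, div_le_one hρ]
        exact ht.2.le
      have h4 : dist (zs + (t : ℂ) * ν) z0 = ρ - t := by
        rw [dist_eq_norm, hzt, norm_mul, Complex.norm_real, Real.norm_of_nonpos hneg, hdz]
        field_simp
        ring
      have h5 := harnack' hh.differentiableOn hρ hpos (z1 := zs + (t : ℂ) * ν) (by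
        rw [mem_ball, h4]
        linarith [ht.1])
      rw [h4] at h5
      have h6 : slope (fun t : ℝ => (h (zs + t * ν)).re) 0 t = (h (zs + t * ν)).re / t := by
        rw [slope_def_field]
        simp only [Complex.ofReal_zero, zero_mul, add_zero, sub_zero, hzs0]
      rw [h6, div_le_div_iff₀ (by positivity) ht.1]
      nlinarith
    have hup : (deriv h zs * ν).re ≤ C := by
      refine (Complex.re_le_norm _).trans ?_
      rw [norm_mul, hνn, mul_one]
      exact hC zs hzs0
    have h7 : (h z0).re ≤ 2 * ρ * C := by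
      have := hlow.trans hup
      rw [div_le_iff₀ (by positivity)] at this
      linarith
    have h8 := harnack_deriv hh.differentiableOn hρ hpos
    refine h8.trans ?_
    rw [div_le_iff₀ hρ]
    nlinarith
  · have hpos : ∀ z, 0 < (h z).re := fun z => hposS univ isPreconnected_univ (mem_univ _)
      (fun w _ hw => hZe ⟨w, hw⟩) z (mem_univ z)
    have h1 : ∀ ρ : ℝ, 0 < ρ → ‖deriv h z0‖ ≤ 2 * (h z0).re / ρ := fun ρ hρ =>
      harnack_deriv hh.differentiableOn hρ fun z _ => hpos z
    have h2 : ‖deriv h z0‖ ≤ 0 := by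
      have h3 : Tendsto (fun ρ : ℝ => 2 * (h z0).re / ρ) atTop (𝓝 0) :=
        tendsto_const_nhds.div_atTop tendsto_id
      refine ge_of_tendsto h3 ?_
      filter_upwards [eventually_gt_atTop 0] with ρ hρ
      exact h1 ρ hρ
    linarith

/-- a derivative bounded on the zero set of the real part is bounded everywhere -/
theorem ch {h : ℂ → ℂ} (hh : Differentiable ℂ h) {C : ℝ} (hC0 : 0 ≤ C)
    (hC : ∀ z, (h z).re = 0 → ‖deriv h z‖ ≤ C) (z0 : ℂ) : ‖deriv h z0‖ ≤ 4 * C := by
  rcases lt_trichotomy (h z0).re 0 with h1 | h1 | h1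
  · have h2 := ch_pos (h := fun z => - h z) hh.neg (C := C) (fun z hz => by
      rw [Complex.neg_re, neg_eq_zero] at hz
      have : deriv (fun z => - h z) z = - deriv h z := (hh z).hasDerivAt.neg.deriv
      rw [this, norm_neg]
      exact hC z hz) (z0 := z0) (by rw [Complex.neg_re]; linarith) hC0
    have : deriv (fun z => - h z) z0 = - deriv h z0 := (hh z0).hasDerivAt.neg.deriv
    rwa [this, norm_neg] at h2
  · have := hC z0 h1
    linarith
  · exact ch_pos hh hC h1 hC0

namespace Pair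

variable (D : Pair s)

/-- the exponent is affine -/
theorem affine {B : ℝ} (hB : 0 ≤ B) {v : ℂ → VV s} (hv : Differentiable ℂ v)
    (hp : ∀ z, D.p (v z) = 1) {h : ℂ → ℂ} (hh : Differentiable ℂ h)
    (hq : ∀ z, D.q (v z) = Complex.exp (h z)) (hBv : Bro B v) (hon : ∀ z, D.on (v z)) :
    ∃ α β : ℂ, ∀ z, h z = α * z + β := by
  obtain ⟨C, hC, hLL⟩ := D.LL hB
  have hb0 : (D.b : ℂ) ≠ 0 := by
    have := D.hb
    exact_mod_cast (by omega : D.b ≠ 0)
  have hbr : (1 : ℝ) ≤ D.b := by exact_mod_cast D.hb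
  set e : ℂ → ℂ := fun z => Complex.exp (-(h z / D.b)) with he
  have hed : Differentiable ℂ e := (hh.div_const _).neg.cexp
  have he' : ∀ z, deriv e z = e z * (-(deriv h z / D.b)) := fun z =>
    ((hh z).hasDerivAt.div_const (D.b : ℂ)).neg.cexp.deriv
  have he0 : ∀ z, e z ≠ 0 := fun z => Complex.exp_ne_zero _
  have hv2 : Differentiable ℂ (fun z => e z • v z) := hed.smul hv
  have hq2 : ∀ z, D.q (e z • v z) = 1 := by
    intro z
    rw [D.q_smul, hq, he, ← Complex.exp_nat_mul, ← Complex.exp_add]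
    have : (D.b : ℂ) * -(h z / D.b) + h z = 0 := by
      field_simp
      ring
    rw [this, Complex.exp_zero]
  have hB2 : Bro B (fun z => e z • v z) := hBv.smul hv hed
  have hkey : ∀ z, (h z).re = 0 → ‖deriv h z‖ ≤ 2 * D.b * C := by
    intro z hz
    have hen : ‖e z‖ = 1 := by
      rw [he, Complex.norm_exp, Real.exp_eq_one_iff, Complex.neg_re, Complex.div_natCast_re, hz,
        zero_div, neg_zero]
    obtain ⟨h1, h2⟩ := (hLL v (fun z => e z • v z) e hon hv hv2 hp hq2 hBv hB2 (fun _ => rfl) he0 z).2 hen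
    have h3 : deriv (fun z => e z • v z) z = e z • deriv v z + deriv e z • v z :=
      ((hed z).hasDerivAt.smul (hv z).hasDerivAt).deriv
    rw [h3, norm_smul, hen, one_mul] at h2
    have h4 : ‖deriv e z • v z‖ ≤ 2 * C * ‖v z‖ := by
      have h5 := norm_sub_le (e z • deriv v z + deriv e z • v z) (e z • deriv v z)
      rw [add_sub_cancel_left, norm_smul (e z), hen, one_mul] at h5
      linarith
    rw [norm_smul, he', norm_mul, hen, one_mul, norm_neg, norm_div, Complex.norm_natCast] at h4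
    have hn : 0 < ‖v z‖ := norm_pos_iff.2 (D.p_eq_one_ne (hp z))
    have h6 := le_of_mul_le_mul_right h4 hn
    rw [div_le_iff₀ (by linarith)] at h6
    linarith
  have hbd := ch hh (C := 2 * D.b * C) (by positivity) hkey
  have hd' : Differentiable ℂ (deriv h) := fun z => hh.deriv z
  have hcst : ∀ z, deriv h z = deriv h 0 := by
    intro z
    refine hd'.apply_eq_apply_of_bounded ?_ z 0
    rw [isBounded_iff_forall_norm_le]
    refine ⟨4 * (2 * D.b * C), ?_⟩
    rintro _ ⟨w, rfl⟩
    exact hbd w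
  refine ⟨deriv h 0, h 0, fun z => ?_⟩
  have h7 : Differentiable ℂ (fun z => h z - deriv h 0 * z) := hh.sub (by fun_prop)
  have h8 : ∀ z, deriv (fun z => h z - deriv h 0 * z) z = 0 := by
    intro z
    have := ((hh z).hasDerivAt.sub ((hasDerivAt_id z).const_mul (deriv h 0))).deriv
    rw [mul_one, hcst z, sub_self] at this
    exact this
  have h9 := is_const_of_deriv_eq_zero h7 h8 z 0
  simp only [mul_zero, sub_zero] at h9
  linear_combination h9

/-- the normalised curves of speed at most `B` whose second form is `exp (z + β)` -/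
structure Cv (B : ℝ) (β : ℂ) (v : ℂ → VV s) : Prop where
  dif : Differentiable ℂ v
  hp : ∀ z, D.p (v z) = 1
  hq : ∀ z, D.q (v z) = Complex.exp (z + β)
  bro : Bro B v
  on : ∀ z, D.on (v z)

variable {D}

theorem Cv.ne {B : ℝ} {β : ℂ} {v : ℂ → VV s} (h : D.Cv B β v) (z : ℂ) : v z ≠ 0 :=
  D.p_eq_one_ne (h.hp z)

theorem Cv.pos {B : ℝ} {β : ℂ} {v : ℂ → VV s} (h : D.Cv B β v) (z : ℂ) : 0 < ‖v z‖ :=
  norm_pos_iff.2 (h.ne z)

/-- translation -/
theorem Cv.shift {B : ℝ} {β : ℂ} {v : ℂ → VV s} (h : D.Cv B β v) (c : ℂ) :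
    D.Cv B (β + c) (fun z => v (z + c)) := by
  refine ⟨h.dif.comp (by fun_prop), fun z => h.hp _, fun z => ?_, fun z => ?_, fun z => h.on _⟩
  · show D.q (v (z + c)) = _
    rw [h.hq]
    congr 1
    ring
  · have : deriv (fun z => v (z + c)) z = deriv v (z + c) := deriv_comp_add_const _ _ _
    rw [this]
    exact h.bro (z + c)

variable (D)

/-- **logarithmic derivative bound** -/
theorem ld {B : ℝ} (hB : 0 ≤ B) : ∃ C : ℝ, 0 < C ∧ ∀ (β : ℂ) (v : ℂ → VV s), D.Cv B β v →
    ∀ z, ‖deriv v z‖ ≤ C * ‖v z‖ := by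
  obtain ⟨C, hC, hLL⟩ := D.LL hB
  refine ⟨C + 1, by positivity, fun β v hv z => ?_⟩
  have hb0 : (D.b : ℂ) ≠ 0 := by
    have := D.hb
    exact_mod_cast (by omega : D.b ≠ 0)
  have hbr : (1 : ℝ) ≤ D.b := by exact_mod_cast D.hb
  set e : ℂ → ℂ := fun z => Complex.exp (-((z + β) / D.b)) with he
  have hed : Differentiable ℂ e := by
    rw [he]
    fun_prop
  have he' : ∀ z, deriv e z = e z * (-(1 / D.b)) := fun z => by
    have h1 : HasDerivAt (fun z : ℂ => -((z + β) / D.b)) (-(1 / D.b)) z :=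
      (((hasDerivAt_id z).add_const β).div_const _).neg
    exact h1.cexp.deriv
  have he0 : ∀ z, e z ≠ 0 := fun z => Complex.exp_ne_zero _
  have hv2 : Differentiable ℂ (fun z => e z • v z) := hed.smul hv.dif
  have hq2 : ∀ z, D.q (e z • v z) = 1 := by
    intro z
    rw [D.q_smul, hv.hq, he, ← Complex.exp_nat_mul, ← Complex.exp_add]
    have : (D.b : ℂ) * -((z + β) / D.b) + (z + β) = 0 := by
      field_simp
      ring
    rw [this, Complex.exp_zero]
  have hB2 : Bro B (fun z => e z • v z) := hv.bro.smul hv.dif hed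
  rcases (hLL v (fun z => e z • v z) e hv.on hv.dif hv2 hv.hp hq2 hv.bro hB2 (fun _ => rfl) he0 z).1
    with h1 | h1
  · nlinarith [norm_nonneg (v z)]
  · have h3 : deriv (fun z => e z • v z) z = e z • deriv v z + deriv e z • v z :=
      ((hed z).hasDerivAt.smul (hv.dif z).hasDerivAt).deriv
    have hep : 0 < ‖e z‖ := norm_pos_iff.2 (he0 z)
    have h4 : e z • deriv v z = (e z • deriv v z + deriv e z • v z) - deriv e z • v z := by abel
    have h5 : ‖e z • deriv v z‖ ≤ C * (‖e z‖ * ‖v z‖) + ‖e z‖ * ‖v z‖ := by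
      rw [h4]
      refine (norm_sub_le _ _).trans (add_le_add ?_ ?_)
      · rw [h3] at h1
        refine h1.trans (le_of_eq ?_)
        show C * ‖e z • v z‖ = _
        rw [norm_smul]
      · rw [norm_smul, he', norm_mul, norm_neg, norm_div, norm_one, Complex.norm_natCast]
        have : (1 : ℝ) / D.b ≤ 1 := by
          rw [div_le_one (by linarith)]
          exact hbr
        have h6 : ‖e z‖ * (1 / D.b) ≤ ‖e z‖ * 1 := mul_le_mul_of_nonneg_left this hep.le
        rw [mul_one] at h6
        exact mul_le_mul_of_nonneg_right h6 (norm_nonneg _)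
    rw [norm_smul] at h5
    have h7 : ‖e z‖ * ‖deriv v z‖ ≤ ‖e z‖ * ((C + 1) * ‖v z‖) := by nlinarith
    exact le_of_mul_le_mul_left h7 hep

end Pair

/-- Gronwall estimate in the plane -/
theorem gronwall {v : ℂ → VV s} (hv : Differentiable ℂ v) {C : ℝ}
    (h : ∀ z, ‖deriv v z‖ ≤ C * ‖v z‖) (z w : ℂ) : ‖v z‖ ≤ ‖v w‖ * Real.exp (C * dist z w) := by
  have key := norm_le_gronwallBound_of_norm_deriv_right_le (a := 0) (b := 1) (K := C * dist z w)
    (ε := 0) (δ := ‖v w‖)
    (f := fun s : ℝ => v (w + s * (z - w))) (f' := fun s : ℝ => (z - w) • deriv v (w + s * (z - w)))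
    ?_ ?_ ?_ ?_ 1 ⟨zero_le_one, le_refl _⟩
  · rw [gronwallBound_ε0] at key
    simpa using key
  · apply Continuous.continuousOn
    exact hv.continuous.comp (by fun_prop)
  · intro s _
    have h1 : HasDerivAt (fun s : ℝ => w + (s : ℂ) * (z - w)) (z - w) s := by
      have h2 : HasDerivAt (fun s : ℝ => (s : ℂ)) 1 s := Complex.ofRealCLM.hasDerivAt
      have h3 := (h2.mul_const (z - w)).const_add w
      rwa [one_mul] at h3
    exact ((hv _).hasDerivAt.scomp s h1).hasDerivWithinAt
  · simp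
  · intro s _
    rw [norm_smul, ← dist_eq_norm, add_zero]
    have := mul_le_mul_of_nonneg_left (h (w + s * (z - w))) (dist_nonneg (x := z) (y := w))
    linarith

end Pool.Agent.K9h84.CI
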