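import Pool.Agent.K9h84.CI.Hrk
import Pool.Agent.K9h3.TC.Wv

/-!
# The touching lemma for curves
-/

set_option autoImplicit false

open Set Filter Topology Metric

namespace Pool.Agent.K9h84.CI

open Pool.Agent.K9h3.TC (circle_growth touch)

variable {s : ℕ}

namespace Pair

variable (D : Pair s)

/-- **touching lemma for curves** -/
theorem tch (hk : 1 ≤ D.k) (hF : D.HF) : ∃ Λ : ℝ, 1 ≤ Λ ∧
    ∀ (h : ℂ → ℂ) (v : ℂ → VV s), Differentiable ℂ h → Differentiable ℂ v →
      (∀ z, D.on (v z)) → (∀ z, D.p (v z) = 1) → (∀ z, D.q (v z) = Complex.exp (h z)) → (∃ z, deriv h z ≠ 0) →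
      ∀ C1 ε Tm : ℝ, 16 ≤ C1 → 0 < ε → ε ≤ 1 → ∃ (z0 : ℂ) (a : ℝ), z0 ≠ 0 ∧ 1 / 8 ≤ a ∧
        h z0 ≠ 0 ∧ Tm * Real.exp (C1 * (1 + Real.log (2 + a))) ≤ ‖h z0‖ ∧
        (∀ z, ‖z‖ = ‖z0‖ → ‖h z‖ ≤ ‖h z0‖ ∧ Real.log ‖v z‖ ≤ 2 * Λ * ‖h z0‖) ∧
        ∀ w : ℂ, ‖w‖ ≤ C1 * (1 + Real.log (2 + a)) →
          ‖h (z0 * Complex.exp (w / a))‖ ≤ ‖h z0‖ * Real.exp (w.re + ε) ∧
          Real.log ‖v (z0 * Complex.exp (w / a))‖ ≤ 2 * Λ * (‖h z0‖ * Real.exp (w.re + ε)) := by
  obtain ⟨Λ0, hΛ0, hhrk⟩ := D.hrk hk hF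
  set Λ : ℝ := 15 * Real.exp 17 * Λ0 with hΛ
  have he17 : 1 ≤ Real.exp 17 := Real.one_le_exp (by norm_num)
  have hΛ1 : 1 ≤ Λ := by
    rw [hΛ]
    have : 1 ≤ Real.exp 17 * Λ0 := one_le_mul_of_one_le_of_one_le he17 hΛ0
    nlinarith
  have hΛp : 0 < Λ := by linarith
  have hb1 : (1 : ℝ) ≤ D.b := by exact_mod_cast D.hb
  have hbp : (0 : ℝ) < D.b := by linarith
  refine ⟨Λ, hΛ1, fun h v hh hv hon hp hq hn C1 ε Tm hC1 hε hε1 => ?_⟩
  have hne : ∀ z, v z ≠ 0 := fun z => D.p_eq_one_ne (hp z)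
  set E : ℂ → ℝ := fun z => min (Real.log ‖v z‖) (Real.log ‖v z‖ - (h z).re / D.b) with hE
  set Θ : ℂ → ℝ := fun z => max 1 (max (Λ * ‖h z‖) (E z)) with hΘ
  have hlogc : Continuous (fun z => Real.log ‖v z‖) :=
    hv.continuous.norm.log fun z => norm_ne_zero_iff.2 (hne z)
  have hrec : Continuous (fun z => (h z).re / D.b) :=
    (Complex.continuous_re.comp hh.continuous).div_const _
  have hEc : Continuous E := hlogc.min (hlogc.sub hrec)
  have hΘc : Continuous Θ :=
    continuous_const.max ((continuous_const.mul hh.continuous.norm).max hEc)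
  have hΘ1 : ∀ z, 1 ≤ Θ z := fun z => le_max_left _ _
  have hΘh : ∀ z, Λ * ‖h z‖ ≤ Θ z := fun z => (le_max_left _ _).trans (le_max_right _ _)
  have hΘE : ∀ z, E z ≤ Θ z := fun z => (le_max_right _ _).trans (le_max_right _ _)
  obtain ⟨c, r0, hc, hgr⟩ := circle_growth hh hn
  obtain ⟨z0, a, hz0, ha, hT, hcirc, hw⟩ := touch hΘc hΘ1 (c := c) (r0 := r0) hc (fun r hr => by
    obtain ⟨z, hz, hz2⟩ := hgr r hr
    refine ⟨z, hz, hz2.trans ?_⟩
    refine le_trans ?_ (hΘh z)
    have := norm_nonneg (h z)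
    nlinarith) (C1 := C1) (ε := ε) (Tm := Λ * |Tm| + Λ0 + 100) (by linarith) hε
  have hap : 0 < a := by linarith
  have hac : (a : ℂ) ≠ 0 := by exact_mod_cast hap.ne'
  have hla : 0 ≤ Real.log (2 + a) := Real.log_nonneg (by linarith)
  have hL16 : 16 ≤ C1 * (1 + Real.log (2 + a)) := by nlinarith
  have heL : 1 ≤ Real.exp (C1 * (1 + Real.log (2 + a))) := Real.one_le_exp (by linarith)
  have hTm0 := abs_nonneg Tm
  have hΛT : 0 ≤ Λ * |Tm| := by positivity
  have hΘbig : Λ0 + 100 ≤ Θ z0 := by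
    refine le_trans ?_ hT
    nlinarith
  -- the case distinction
  have hcase : Θ z0 = Λ * ‖h z0‖ := by
    by_contra hcon
    have hEeq : Θ z0 = E z0 := by
      rcases max_choice 1 (max (Λ * ‖h z0‖) (E z0)) with h1 | h1
      · have h2 : Θ z0 = 1 := h1
        linarith
      · rcases max_choice (Λ * ‖h z0‖) (E z0) with h2 | h2
        · exact absurd (show Θ z0 = _ from h1.trans h2) hcon
        · exact h1.trans h2
    set k : ℂ → ℂ := fun w => h (z0 * Complex.exp (w / a)) with hkdef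
    set V : ℂ → VV s := fun w => v (z0 * Complex.exp (w / a)) with hVdef
    have hkd : Differentiable ℂ k := hh.comp (by fun_prop)
    have hVd : Differentiable ℂ V := hv.comp (by fun_prop)
    have h00 : z0 * Complex.exp ((0 : ℂ) / a) = z0 := by rw [zero_div, Complex.exp_zero, mul_one]
    have hder : ∀ w ∈ ball (0 : ℂ) 15, ‖deriv k w‖ ≤ (Θ z0 / Λ0) / 15 := by
      intro w hw15
      rw [mem_ball_zero_iff] at hw15
      have h1 := Complex.norm_deriv_le_of_forall_mem_sphere_norm_le (f := k) (c := w) (R := 1)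
        (C := Θ z0 * Real.exp 17 / Λ) one_pos hkd.diffContOnCl fun x hx => by
          rw [mem_sphere_iff_norm] at hx
          have hx16 : ‖x‖ ≤ 16 := by
            have := norm_le_norm_add_norm_sub' x w
            linarith
          have h2 := hw x (hx16.trans hL16)
          have h3 := (hΘh (z0 * Complex.exp (x / a))).trans h2
          rw [le_div_iff₀ hΛp]
          have h4 : Real.exp (x.re + ε) ≤ Real.exp 17 := by
            apply Real.exp_le_exp.2
            have := (le_abs_self _).trans (Complex.abs_re_le_norm x)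
            linarith
          have h5 : Θ z0 * Real.exp (x.re + ε) ≤ Θ z0 * Real.exp 17 :=
            mul_le_mul_of_nonneg_left h4 (by linarith [hΘ1 z0])
          have h6 : ‖k x‖ * Λ = Λ * ‖h (z0 * Complex.exp (x / a))‖ := by rw [hkdef]; ring
          linarith
      rw [div_one] at h1
      refine h1.trans (le_of_eq ?_)
      rw [hΛ]
      have : Λ0 ≠ 0 := by linarith
      field_simp
    have hω : 1 ≤ Θ z0 / Λ0 := by
      rw [le_div_iff₀ (by linarith)]
      linarith
    have hΛω : Λ0 * (Θ z0 / Λ0) = Θ z0 := by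
      have : Λ0 ≠ 0 := by linarith
      field_simp
    have h1 := hhrk 0 15 (Θ z0 / Λ0) k V (by norm_num) hω hkd.differentiableOn hder
      hVd.differentiableOn (fun z _ => hon _) (fun z _ => hp _) (fun z _ => hq _) (by
        rw [hΛω, hEeq]
        show E z0 ≤ Real.log ‖v (z0 * Complex.exp ((0 : ℂ) / a))‖
        rw [h00]
        exact min_le_left _ _) (by
        rw [hΛω, hEeq]
        show E z0 ≤ Real.log ‖v (z0 * Complex.exp ((0 : ℂ) / a))‖ -
          (h (z0 * Complex.exp ((0 : ℂ) / a))).re / D.b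
        rw [h00]
        exact min_le_right _ _) (-3) (by
        rw [mem_ball_zero_iff, norm_neg]
        norm_num)
    have h2 : E z0 ≤ 6 * E (z0 * Complex.exp ((-3 : ℂ) / a)) + 9 := by
      have h3 : Real.log ‖v z0‖ ≤ 6 * Real.log ‖v (z0 * Complex.exp ((-3 : ℂ) / a))‖ + 9 := by
        have := h1.1
        simp only [hVdef, h00] at this
        exact this
      have h4 : Real.log ‖v z0‖ - (h z0).re / D.b ≤
          6 * (Real.log ‖v (z0 * Complex.exp ((-3 : ℂ) / a))‖ -
            (h (z0 * Complex.exp ((-3 : ℂ) / a))).re / D.b) + 9 := by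
        have := h1.2
        simp only [hVdef, hkdef, h00] at this
        exact this
      have h5 : E z0 ≤ Real.log ‖v z0‖ := min_le_left _ _
      have h6 : E z0 ≤ Real.log ‖v z0‖ - (h z0).re / D.b := min_le_right _ _
      rcases min_choice (Real.log ‖v (z0 * Complex.exp ((-3 : ℂ) / a))‖)
        (Real.log ‖v (z0 * Complex.exp ((-3 : ℂ) / a))‖ -
            (h (z0 * Complex.exp ((-3 : ℂ) / a))).re / D.b) with h7 | h7
      · have h8 : E (z0 * Complex.exp ((-3 : ℂ) / a)) = _ := h7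
        rw [h8]
        linarith
      · have h8 : E (z0 * Complex.exp ((-3 : ℂ) / a)) = _ := h7
        rw [h8]
        linarith
    have h3 := hw (-3) (by
      rw [norm_neg]
      norm_num
      linarith)
    have h4 := hΘE (z0 * Complex.exp ((-3 : ℂ) / a))
    have h5 : Real.exp ((-3 : ℂ).re + ε) ≤ 1 / 7 := by
      have h6 : (-3 : ℂ).re + ε ≤ -2 := by
        have : (-3 : ℂ).re = -3 := by norm_num
        rw [this]
        linarith
      refine (Real.exp_le_exp.2 h6).trans ?_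
      rw [Real.exp_neg, inv_eq_one_div]
      apply one_div_le_one_div_of_le (by norm_num)
      have h7 : Real.exp 2 = Real.exp 1 * Real.exp 1 := by
        rw [← Real.exp_add]
        norm_num
      have h8 := Real.exp_one_gt_d9
      rw [h7]
      nlinarith
    have h6 : Θ z0 * Real.exp ((-3 : ℂ).re + ε) ≤ Θ z0 * (1 / 7) :=
      mul_le_mul_of_nonneg_left h5 (by linarith [hΘ1 z0])
    rw [← hEeq] at h2
    linarith
  have hhp : 0 < ‖h z0‖ := by
    by_contra hcon
    push Not at hcon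
    have : Λ * ‖h z0‖ ≤ 0 := by nlinarith
    linarith
  have hlogv : ∀ z, Real.log ‖v z‖ ≤ 2 * Θ z := by
    intro z
    have h1 := hΘh z
    have h2 : ‖h z‖ ≤ Θ z := by
      have := norm_nonneg (h z)
      nlinarith
    have h3 := hΘE z
    rcases min_choice (Real.log ‖v z‖) (Real.log ‖v z‖ - (h z).re / D.b) with h4 | h4
    · have h5 : E z = Real.log ‖v z‖ := h4
      have := hΘ1 z
      linarith
    · have h5 : E z = Real.log ‖v z‖ - (h z).re / D.b := h4
      have h6 : (h z).re / D.b ≤ ‖h z‖ := by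
        rw [div_le_iff₀ hbp]
        have h7 := (le_abs_self _).trans (Complex.abs_re_le_norm (h z))
        have := norm_nonneg (h z)
        nlinarith
      linarith
  refine ⟨z0, a, hz0, ha, norm_pos_iff.1 hhp, ?_, ?_, ?_⟩
  · rw [hcase] at hT
    have h1 : Λ * (Tm * Real.exp (C1 * (1 + Real.log (2 + a)))) ≤ Λ * ‖h z0‖ := by
      refine le_trans ?_ hT
      have h2 : Λ * Tm ≤ Λ * |Tm| + Λ0 + 100 := by
        have : Λ * Tm ≤ Λ * |Tm| := mul_le_mul_of_nonneg_left (le_abs_self _) hΛp.le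
        linarith
      have h3 := mul_le_mul_of_nonneg_right h2 (by linarith : 0 ≤ Real.exp (C1 * (1 + Real.log (2 + a))))
      rw [← mul_assoc]
      exact h3
    exact le_of_mul_le_mul_left h1 hΛp
  · intro z hz
    have h1 := hcirc z hz
    have h2 := hlogv z
    rw [hcase] at h1
    refine ⟨?_, by linarith⟩
    have h3 := (hΘh z).trans h1
    exact le_of_mul_le_mul_left h3 hΛp
  · intro w hw1
    have h1 := hw w hw1
    rw [hcase] at h1
    have h2 := hΘh (z0 * Complex.exp (w / a))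
    have h3 := hlogv (z0 * Complex.exp (w / a))
    constructor
    · have h4 : Λ * ‖h (z0 * Complex.exp (w / a))‖ ≤ Λ * (‖h z0‖ * Real.exp (w.re + ε)) := by
        rw [← mul_assoc]
        exact h2.trans h1
      exact le_of_mul_le_mul_left h4 hΛp
    · have h4 : Λ * ‖h z0‖ * Real.exp (w.re + ε) = Λ * (‖h z0‖ * Real.exp (w.re + ε)) := by ring
      rw [h4] at h1
      linarith

end Pair

end Pool.Agent.K9h84.CI
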