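import Pool.Agent.K9h84.CI.Bar

/-!
# Uniqueness and finiteness of the curves through the middle region
-/

set_option autoImplicit false

open Set Filter Topology Metric

namespace Pool.Agent.K9h84.CI

open Pool.Agent.K9h3.TC (li)

variable {s : ℕ}

/-- the uniqueness theorem in the lower half-plane -/
theorem li_low {φ : ℂ → ℂ} (hφ : DifferentiableOn ℂ φ {z | z.im < 0}) {C c : ℝ} (hc : 0 < c)
    (hb : ∀ z : ℂ, z.im < 0 → ‖φ z‖ ≤ C * Real.exp (-(c * max z.re 0))) :
    ∀ z : ℂ, z.im < 0 → φ z = 0 := by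
  intro z hz
  have hopen : IsOpen {z : ℂ | z.im < 0} := isOpen_lt Complex.continuous_im continuous_const
  have h1 := li (φ := fun z => (starRingEnd ℂ) (φ ((starRingEnd ℂ) z))) (C := C) (c := c) ?_ hc ?_
    ((starRingEnd ℂ) z) (by rw [Complex.conj_im]; linarith)
  · simp only [Complex.conj_conj] at h1
    rw [← Complex.conj_conj (φ z), h1, map_zero]
  · intro w hw
    have hw' : ((starRingEnd ℂ) w).im < 0 := by
      rw [Complex.conj_im]
      have : 0 < w.im := hw
      linarith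
    have h2 : DifferentiableAt ℂ φ ((starRingEnd ℂ) w) :=
      (hφ _ hw').differentiableAt (hopen.mem_nhds hw')
    have h3 := h2.conj_conj
    rw [Complex.conj_conj] at h3
    exact h3.differentiableWithinAt
  · intro w hw
    have hw' : ((starRingEnd ℂ) w).im < 0 := by
      rw [Complex.conj_im]
      linarith
    have h2 := hb _ hw'
    rw [Complex.conj_re] at h2
    rw [RCLike.norm_conj]
    exact h2

namespace Pair

variable (D : Pair s)

theorem cv_mod {B : ℝ} {β : ℂ} {v : ℂ → VV s} (hv : D.Cv B β v) (m : ℤ) :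
    D.Cv B (β - m * (2 * Real.pi * Complex.I)) v := by
  refine ⟨hv.dif, hv.hp, fun z => ?_, hv.bro, hv.on⟩
  rw [hv.hq, show z + (β - m * (2 * Real.pi * Complex.I)) = (z + β) - m * (2 * Real.pi * Complex.I)
    by ring]
  exact (Complex.exp_periodic.sub_int_mul_eq m).symm

/-- bound for the quotient in terms of the exponential -/
theorem l_bound {B : ℝ} {β : ℂ} {V : ℂ → VV s} (hV : D.Cv B β V) (hk : 1 ≤ D.k) {M : ℝ} (hM : 0 ≤ M) :
    ∃ C' : ℝ, ∀ (z : ℂ) (x : ℝ), 0 ≤ x → x * ‖V z‖ ^ D.k ≤ M →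
      x ≤ C' * Real.exp (-(1 / D.b * max z.re 0)) := by
  obtain ⟨c, hc, hlow⟩ := D.cv_low
  have hb1 : (1 : ℝ) ≤ D.b := by exact_mod_cast D.hb
  have hbp : (0 : ℝ) < D.b := by linarith
  set c2 : ℝ := c * Real.exp (-(|β.re| / D.b)) with hc2
  have hc2p : 0 < c2 := by positivity
  have hVlow : ∀ z : ℂ, c2 * Real.exp (max z.re 0 / D.b) ≤ ‖V z‖ := by
    intro z
    obtain ⟨h1, h2⟩ := hlow B β V hV z
    rcases le_total z.re 0 with h0 | h0
    · rw [max_eq_right h0, zero_div, Real.exp_zero, mul_one]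
      refine le_trans ?_ h1
      rw [hc2]
      have : Real.exp (-(|β.re| / D.b)) ≤ 1 := by
        rw [Real.exp_le_one_iff]
        have : 0 ≤ |β.re| / D.b := by positivity
        linarith
      nlinarith
    · rw [max_eq_left h0]
      refine le_trans ?_ h2
      rw [hc2, mul_assoc, ← Real.exp_add]
      refine mul_le_mul_of_nonneg_left (Real.exp_le_exp.2 ?_) hc.le
      rw [← neg_div, ← add_div]
      refine div_le_div_of_nonneg_right ?_ hbp.le
      have := neg_abs_le β.re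
      linarith
  refine ⟨M / c2 ^ D.k, fun z x hx h => ?_⟩
  have h1 : c2 ^ D.k * Real.exp (1 / D.b * max z.re 0) ≤ ‖V z‖ ^ D.k := by
    have h2 := pow_le_pow_left₀ (by positivity) (hVlow z) D.k
    rw [mul_pow, ← Real.exp_nat_mul] at h2
    refine le_trans ?_ h2
    have h3 : (1 : ℝ) ≤ D.k := by exact_mod_cast hk
    have h4 : 0 ≤ max z.re 0 / D.b := div_nonneg (le_max_right _ _) hbp.le
    refine mul_le_mul_of_nonneg_left (Real.exp_le_exp.2 ?_) (by positivity)
    calc 1 / D.b * max z.re 0 = 1 * (max z.re 0 / D.b) := by ring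
      _ ≤ D.k * (max z.re 0 / D.b) := by gcongr
  have h5 : x * (c2 ^ D.k * Real.exp (1 / D.b * max z.re 0)) ≤ M :=
    (mul_le_mul_of_nonneg_left h1 hx).trans h
  rw [Real.exp_neg, ← div_eq_mul_inv, div_div, le_div_iff₀ (by positivity)]
  exact h5

/-- **points of the middle region**: no first contact there -/
theorem strip (hk : 1 ≤ D.k) {B δ : ℝ} (hB : 0 ≤ B) (hδ : 0 < δ) (hδ16 : δ ≤ 1 / 16) {c C : ℝ}
    (hc : 0 < c) (hCp : 0 < C)
    (hlam : ∀ (β : ℂ) (v w : ℂ → VV s), D.Cv B β v → D.Cv B β w → ∀ O : Set ℂ, IsOpen O →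
    (∀ z ∈ O, ‖w z - v z‖ < 4 * δ * ‖v z‖) → ∃ l : ℂ → ℂ, DifferentiableOn ℂ l O ∧
    ∀ z ∈ O, c * ‖w z - v z‖ ≤ ‖l z‖ * ‖v z‖ ^ (D.k + 1) ∧
      ‖l z‖ * ‖v z‖ ^ (D.k + 1) ≤ C * ‖w z - v z‖)
    {K0 : ℝ} (hK0 : 0 < K0) : ∃ R0 : ℝ, 0 < R0 ∧ ∀ v w : ℂ → VV s, D.Cv B 0 v → D.Cv B 0 w →
    ∀ p : ℂ, R0 < ‖p‖ → ‖v p‖ ≤ K0 → ‖v p‖ ≤ K0 * Real.exp (p.re / D.b) →
    (∀ z, ‖z‖ ≤ ‖p‖ → ‖w z - v z‖ ≤ δ * ‖v z‖) → ‖w p - v p‖ ≠ δ * ‖v p‖ := by
  obtain ⟨Cd, hCd, hld⟩ := D.ld hB
  obtain ⟨c1, hc1, hlow⟩ := D.cv_low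
  have hb1 : (1 : ℝ) ≤ D.b := by exact_mod_cast D.hb
  have hbp : (0 : ℝ) < D.b := by linarith
  by_contra hcon
  push Not at hcon
  have h1 : ∀ n : ℕ, ∃ (v w : ℂ → VV s) (p : ℂ), D.Cv B 0 v ∧ D.Cv B 0 w ∧ ((n : ℝ) + 1) < ‖p‖ ∧
      ‖v p‖ ≤ K0 ∧ ‖v p‖ ≤ K0 * Real.exp (p.re / D.b) ∧
      (∀ z, ‖z‖ ≤ ‖p‖ → ‖w z - v z‖ ≤ δ * ‖v z‖) ∧ ‖w p - v p‖ = δ * ‖v p‖ := by
    intro n
    obtain ⟨v, w, hv, hw, p, h2, h3, h4, h5, h6⟩ := hcon ((n : ℝ) + 1) (by positivity)
    exact ⟨v, w, p, hv, hw, h2, h3, h4, h5, h6⟩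
  choose v w p hv hw hpn hK1 hK2 hclose heq using h1
  -- the real part of the base points is bounded
  set X : ℝ := D.b * |Real.log (K0 / c1)| with hX
  have hre : ∀ n, |(p n).re| ≤ X := by
    intro n
    obtain ⟨l1, l2⟩ := hlow B 0 (v n) (hv n) (p n)
    rw [Complex.zero_re, add_zero] at l2
    have e1 : c1 ≤ K0 * Real.exp ((p n).re / D.b) := l1.trans (hK2 n)
    have e2 : c1 * Real.exp ((p n).re / D.b) ≤ K0 := l2.trans (hK1 n)
    have f1 : Real.log c1 ≤ Real.log K0 + (p n).re / D.b := by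
      have := Real.log_le_log hc1 e1
      rwa [Real.log_mul hK0.ne' (Real.exp_pos _).ne', Real.log_exp] at this
    have f2 : Real.log c1 + (p n).re / D.b ≤ Real.log K0 := by
      have := Real.log_le_log (by positivity) e2
      rwa [Real.log_mul hc1.ne' (Real.exp_pos _).ne', Real.log_exp] at this
    have f3 : Real.log (K0 / c1) = Real.log K0 - Real.log c1 := Real.log_div hK0.ne' hc1.ne'
    have f4 : |(p n).re / D.b| ≤ |Real.log (K0 / c1)| := by
      rw [f3]
      refine le_trans ?_ (le_abs_self _)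
      rw [abs_le]
      constructor <;> linarith
    rw [abs_div, abs_of_pos hbp, div_le_iff₀ hbp] at f4
    rw [hX]
    linarith
  set m : ℕ → ℤ := fun n => ⌊(p n).im / (2 * Real.pi)⌋ with hm
  set β : ℕ → ℂ := fun n => 0 + p n - m n * (2 * Real.pi * Complex.I) with hβ
  have hβb : ∀ n, ‖β n‖ ≤ X + 2 * Real.pi := by
    intro n
    refine (Complex.norm_le_abs_re_add_abs_im _).trans (add_le_add ?_ ?_)
    · have : (β n).re = (p n).re := by rw [hβ]; simp
      rw [this]
      exact hre n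
    · have h2 : (β n).im = (p n).im - m n * (2 * Real.pi) := by rw [hβ]; simp
      rw [h2]
      have h3 := Int.floor_le ((p n).im / (2 * Real.pi))
      have h4 := Int.lt_floor_add_one ((p n).im / (2 * Real.pi))
      have hπ : 0 < 2 * Real.pi := by positivity
      rw [le_div_iff₀ hπ] at h3
      rw [div_lt_iff₀ hπ] at h4
      rw [abs_le]
      constructor
      · have : (m n : ℝ) = ⌊(p n).im / (2 * Real.pi)⌋ := rfl
        rw [this]
        linarith
      · have : (m n : ℝ) = ⌊(p n).im / (2 * Real.pi)⌋ := rfl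
        rw [this]
        linarith
  have hvC : ∀ n, D.Cv B (β n) (fun z => v n (z + p n)) := fun n => D.cv_mod ((hv n).shift (p n)) (m n)
  have hwC : ∀ n, D.Cv B (β n) (fun z => w n (z + p n)) := fun n => D.cv_mod ((hw n).shift (p n)) (m n)
  have heq0 : ∀ n, ‖w n (0 + p n) - v n (0 + p n)‖ = δ * ‖v n (0 + p n)‖ := fun n => by
    rw [zero_add]
    exact heq n
  obtain ⟨V, hVd, -, hVt, hVt', -⟩ := exists_lim (v := fun n z => v n (z + p n)) hCd.le
    (fun n => (hvC n).dif) (fun n => hld _ _ (hvC n)) (K := K0) (fun n => by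
      simp only [zero_add]
      exact hK1 n)
  obtain ⟨W, hWd, -, hWt, hWt', -⟩ := exists_lim (v := fun n z => w n (z + p n)) hCd.le
    (fun n => (hwC n).dif) (fun n => hld _ _ (hwC n)) (K := 2 * K0) (fun n => by
      have h2 := norm_le_norm_add_norm_sub' (w n (0 + p n)) (v n (0 + p n))
      have h3 := heq0 n
      have h4 : ‖v n (0 + p n)‖ ≤ K0 := by rw [zero_add]; exact hK1 n
      have h5 := norm_nonneg (v n (0 + p n))
      nlinarith)
  obtain ⟨β', -, hβ'⟩ := exists_ulim hβb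
  have hVC : D.Cv B β' V := D.cv_lim hvC hVd hVt hVt' hβ'
  have hWC : D.Cv B β' W := D.cv_lim hwC hWd hWt hWt' hβ'
  have hWV0 : ‖W 0 - V 0‖ = δ * ‖V 0‖ := by
    have h2 := ((hWt 0).sub (hVt 0)).norm
    have h3 := (hVt 0).norm.const_mul δ
    simp only [heq0] at h2
    exact tendsto_nhds_unique h2 h3
  obtain ⟨ν, hν, hνt, hhp⟩ := half_plane (p := p) (fun n => by
    have := hpn n
    linarith)
  -- the direction is vertical
  have hνre : ν.re = 0 := by
    have h2 : Tendsto (fun n => (p n / (‖p n‖ : ℂ)).re) UU (𝓝 ν.re) :=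
      (Complex.continuous_re.tendsto _).comp hνt
    have h3 : Tendsto (fun n : ℕ => X * ((n : ℝ) + 1)⁻¹) UU (𝓝 (X * 0)) :=
      ((tendsto_inv_atTop_zero.comp (tendsto_natCast_atTop_atTop.atTop_add
        tendsto_const_nhds)).mono_left UU_le).const_mul X
    rw [mul_zero] at h3
    have h4 : Tendsto (fun n => (p n / (‖p n‖ : ℂ)).re) UU (𝓝 0) := by
      refine squeeze_zero_norm (fun n => ?_) h3
      have hpp : (0 : ℝ) < (n : ℝ) + 1 := by positivity
      have hX0 : 0 ≤ X := (abs_nonneg _).trans (hre 0)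
      rw [Complex.div_ofReal_re, Real.norm_eq_abs, abs_div, abs_norm, div_eq_mul_inv]
      have h5 := hre n
      have h6 := (hpn n).le
      gcongr
    exact tendsto_nhds_unique h2 h4
  have hlim : ∀ z : ℂ, (z * (starRingEnd ℂ) ν).re < 0 → ‖W z - V z‖ ≤ δ * ‖V z‖ := by
    intro z hz
    refine le_of_tendsto_of_tendsto ((hWt z).sub (hVt z)).norm ((hVt z).norm.const_mul δ) ?_
    filter_upwards [hhp z hz] with n hn
    refine hclose n (z + p n) ?_
    rw [add_comm]
    exact hn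
  have hνim : ν.im = 1 ∨ ν.im = -1 := by
    have h2 : ‖ν‖ ^ 2 = ν.im ^ 2 := by
      rw [← Complex.normSq_eq_norm_sq, Complex.normSq_apply, hνre]
      ring
    rw [hν, one_pow] at h2
    have h3 : (ν.im - 1) * (ν.im + 1) = 0 := by linarith
    rcases mul_eq_zero.1 h3 with h4 | h4
    · left; linarith
    · right; linarith
  have hzre : ∀ z : ℂ, (z * (starRingEnd ℂ) ν).re = z.im * ν.im := by
    intro z
    rw [Complex.mul_re, Complex.conj_re, Complex.conj_im, hνre]
    ring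
  -- the difference vanishes on the half-plane
  have hzero : ∀ O : Set ℂ, IsOpen O → (∀ z ∈ O, ‖W z - V z‖ ≤ δ * ‖V z‖) →
      (∀ l : ℂ → ℂ, DifferentiableOn ℂ l O → ∀ C' : ℝ,
        (∀ z ∈ O, ‖l z‖ ≤ C' * Real.exp (-(1 / D.b * max z.re 0))) → ∀ z ∈ O, l z = 0) →
      ∀ z ∈ O, W z = V z := by
    intro O hO hOc hOl z hz
    obtain ⟨l, hl, hlb⟩ := hlam β' V W hVC hWC O hO (fun z hz => by
      have h2 := hOc z hz
      have h3 := hVC.pos z
      nlinarith)
    obtain ⟨C', hC'⟩ := D.l_bound hVC hk (M := C * δ) (by positivity)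
    have hl0 := hOl l hl C' (fun z hz => hC' z ‖l z‖ (norm_nonneg _) (by
      have h2 := (hlb z hz).2
      have h3 := hOc z hz
      have h4 := hVC.pos z
      rw [pow_succ] at h2
      have h5 : (‖l z‖ * ‖V z‖ ^ D.k) * ‖V z‖ ≤ (C * δ) * ‖V z‖ := by nlinarith
      exact le_of_mul_le_mul_right h5 h4)) z hz
    have h6 := (hlb z hz).1
    rw [hl0, norm_zero, zero_mul] at h6
    have h7 : ‖W z - V z‖ ≤ 0 := by
      by_contra h
      push Not at h
      have := mul_pos hc h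
      linarith
    exact sub_eq_zero.1 (norm_le_zero_iff.1 h7)
  have hfin : ∀ s : ℝ, (∀ t : ℝ, 0 < t → W ((s * t : ℝ) * Complex.I) = V ((s * t : ℝ) * Complex.I)) →
      False := by
    intro s hs
    have h2 : Tendsto (fun t : ℝ => W ((s * t : ℝ) * Complex.I) - V ((s * t : ℝ) * Complex.I))
        (𝓝[>] 0) (𝓝 (W 0 - V 0)) := by
      have h3 : Continuous (fun t : ℝ => W ((s * t : ℝ) * Complex.I) - V ((s * t : ℝ) * Complex.I)) :=
        (hWd.continuous.comp (by fun_prop)).sub (hVd.continuous.comp (by fun_prop))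
      have h4 := h3.tendsto 0
      simp only [mul_zero, Complex.ofReal_zero, zero_mul] at h4
      exact h4.mono_left nhdsWithin_le_nhds
    have h5 : Tendsto (fun t : ℝ => W ((s * t : ℝ) * Complex.I) - V ((s * t : ℝ) * Complex.I))
        (𝓝[>] 0) (𝓝 0) := by
      refine (tendsto_const_nhds (x := (0 : VV _))).congr' ?_
      filter_upwards [self_mem_nhdsWithin] with t ht
      rw [hs t ht, sub_self]
    have h6 := tendsto_nhds_unique h2 h5
    rw [h6, norm_zero] at hWV0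
    have := hVC.pos 0
    have : 0 < δ * ‖V 0‖ := by positivity
    linarith
  rcases hνim with h | h
  · have hopen : IsOpen {z : ℂ | z.im < 0} := isOpen_lt Complex.continuous_im continuous_const
    have h2 := hzero {z | z.im < 0} hopen (fun z hz => hlim z (by
      rw [hzre, h, mul_one]
      exact hz)) (fun l hl C' hb z hz => li_low hl (by positivity) hb z hz)
    refine hfin (-1) fun t ht => h2 _ ?_
    show ((((-1 * t : ℝ) : ℂ)) * Complex.I).im < 0
    rw [Complex.im_ofReal_mul, Complex.I_im]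
    linarith
  · have hopen : IsOpen {z : ℂ | 0 < z.im} := isOpen_lt continuous_const Complex.continuous_im
    have h2 := hzero {z | 0 < z.im} hopen (fun z hz => hlim z (by
      rw [hzre, h]
      have : 0 < z.im := hz
      linarith)) (fun l hl C' hb z hz => li hl (by positivity) hb z hz)
    refine hfin 1 fun t ht => h2 _ ?_
    show 0 < ((((1 * t : ℝ) : ℂ)) * Complex.I).im
    rw [Complex.im_ofReal_mul, Complex.I_im]
    linarith

/-- **uniqueness**: curves through the middle region which are close on a large disc are equal -/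
theorem uniq (hk : 1 ≤ D.k) {B : ℝ} (hB : 0 ≤ B) : ∃ δ : ℝ, 0 < δ ∧ ∀ K : ℝ, 0 < K →
    ∃ R0 : ℝ, 0 < R0 ∧ ∀ v w : ℂ → VV s, D.Cv B 0 v → D.Cv B 0 w → ‖v 0‖ ≤ K →
    (∀ z, ‖z‖ ≤ R0 → ‖w z - v z‖ < δ * ‖v z‖) → w = v := by
  obtain ⟨δ, hδ, hδ16, ⟨c, C, hc, hC, hlam⟩, hnd⟩ := D.not_deep hk hB
  refine ⟨δ, hδ, fun K hK => ?_⟩
  obtain ⟨K0, hK0, hnd0⟩ := hnd K hK
  obtain ⟨R0, hR0, hstrip⟩ := D.strip hk hB hδ hδ16 hc hC hlam hK0
  refine ⟨max K0 R0, by positivity, fun v w hv hw hv0 hclose => ?_⟩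
  set T : Set ℂ := {z | δ * ‖v z‖ ≤ ‖w z - v z‖} with hT
  have hTc : IsClosed T := isClosed_le (continuous_const.mul hv.dif.continuous.norm)
    (hw.dif.continuous.sub hv.dif.continuous).norm
  by_cases hTe : T.Nonempty
  · exfalso
    obtain ⟨p, hpT, hdist⟩ := hTc.exists_infDist_eq_dist hTe 0
    rw [dist_zero_left] at hdist
    have hpT' : δ * ‖v p‖ ≤ ‖w p - v p‖ := hpT
    have hpR : max K0 R0 < ‖p‖ := by
      by_contra h
      have := hclose p (not_lt.1 h)
      linarith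
    have hp0 : 0 < ‖p‖ := lt_trans (by positivity) hpR
    have hin : ∀ z, ‖z‖ < ‖p‖ → ‖w z - v z‖ < δ * ‖v z‖ := by
      intro z hz
      by_contra h
      have hzT : z ∈ T := not_lt.1 h
      have h1 := infDist_le_dist_of_mem (x := (0 : ℂ)) hzT
      rw [hdist, dist_zero_left] at h1
      linarith
    have hin2 : ∀ z, ‖z‖ ≤ ‖p‖ → ‖w z - v z‖ ≤ δ * ‖v z‖ := by
      have hcl : IsClosed {z | ‖w z - v z‖ ≤ δ * ‖v z‖} :=
        isClosed_le (hw.dif.continuous.sub hv.dif.continuous).norm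
          (continuous_const.mul hv.dif.continuous.norm)
      have h1 : closure (ball (0 : ℂ) ‖p‖) ⊆ {z | ‖w z - v z‖ ≤ δ * ‖v z‖} :=
        closure_minimal (fun z hz => (hin z (mem_ball_zero_iff.1 hz)).le) hcl
      rw [closure_ball (0 : ℂ) hp0.ne'] at h1
      exact fun z hz => h1 (mem_closedBall_zero_iff.2 hz)
    have heq : ‖w p - v p‖ = δ * ‖v p‖ := le_antisymm (hin2 p le_rfl) hpT'
    obtain ⟨h1, h2⟩ := hnd0 v w hv hw hv0 p (lt_of_le_of_lt (le_max_left _ _) hpR) hin2 heq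
    exact hstrip v w hv hw p (lt_of_le_of_lt (le_max_right _ _) hpR) h1 h2 hin2 heq
  · have hall : ∀ z, ‖w z - v z‖ < δ * ‖v z‖ := by
      intro z
      by_contra h
      exact hTe ⟨z, not_lt.1 h⟩
    obtain ⟨l, hl, hlb⟩ := hlam 0 v w hv hw univ isOpen_univ (fun z _ => by
      have h2 := hall z
      have h3 := hv.pos z
      nlinarith)
    have hlv : ∀ z, ‖l z‖ * ‖v z‖ ^ D.k ≤ C * δ := by
      intro z
      have h2 := (hlb z (mem_univ z)).2
      have h3 := hall z
      have h4 := hv.pos z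
      rw [pow_succ] at h2
      have h5 : (‖l z‖ * ‖v z‖ ^ D.k) * ‖v z‖ ≤ (C * δ) * ‖v z‖ := by nlinarith
      exact le_of_mul_le_mul_right h5 h4
    obtain ⟨C', hC'⟩ := D.l_bound hv hk (M := C * δ) (by positivity)
    have hl0 : ∀ z, l z = 0 := by
      rw [differentiableOn_univ] at hl
      have hb0 : ∀ z, ‖l z‖ ≤ C' * Real.exp (-(1 / D.b * max z.re 0)) := fun z =>
        hC' z ‖l z‖ (norm_nonneg _) (hlv z)
      have hC'0 : 0 ≤ C' := by
        have h1 := (norm_nonneg _).trans (hb0 0)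
        exact nonneg_of_mul_nonneg_left h1 (Real.exp_pos _)
      have h1 : ∀ z, l z = l Complex.I := by
        intro z
        refine hl.apply_eq_apply_of_bounded ?_ z _
        rw [isBounded_iff_forall_norm_le]
        refine ⟨C', ?_⟩
        rintro _ ⟨z, rfl⟩
        refine (hb0 z).trans ?_
        have : Real.exp (-(1 / D.b * max z.re 0)) ≤ 1 := by
          rw [Real.exp_le_one_iff]
          have : 0 ≤ 1 / (D.b : ℝ) * max z.re 0 := mul_nonneg (by positivity) (le_max_right _ _)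
          linarith
        nlinarith
      have hbp : (0 : ℝ) < D.b := by exact_mod_cast D.hb
      have h2 := li (φ := l) (C := C') (c := 1 / D.b) hl.differentiableOn (by positivity)
        (fun z _ => hb0 z) Complex.I (by rw [Complex.I_im]; exact one_pos)
      intro z
      rw [h1 z, h2]
    funext z
    have h6 := (hlb z (mem_univ z)).1
    rw [hl0 z, norm_zero, zero_mul] at h6
    have h7 : ‖w z - v z‖ ≤ 0 := by
      by_contra h
      push Not at h
      have := mul_pos hc h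
      linarith
    exact sub_eq_zero.1 (norm_le_zero_iff.1 h7)

/-- **finiteness**: a sequence of normalised curves through the middle region takes some value
twice -/
theorem fin_seq (hk : 1 ≤ D.k) {B : ℝ} (hB : 0 ≤ B) {K : ℝ} (hK : 0 < K) {v : ℕ → ℂ → VV s}
    (hv : ∀ n, D.Cv B 0 (v n)) (h0 : ∀ n, ‖v n 0‖ ≤ K) : ∃ m n, m < n ∧ v m = v n := by
  obtain ⟨δ, hδ, hu⟩ := D.uniq hk hB
  obtain ⟨R0, hR0, huR⟩ := hu K hK
  obtain ⟨C, hC, hld⟩ := D.ld hB
  obtain ⟨c1, hc1, hlow⟩ := D.cv_low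
  obtain ⟨V, -, hVu, -, -, -⟩ := exists_lim hC.le (fun n => (hv n).dif)
    (fun n => hld 0 (v n) (hv n)) h0
  have h1 := hVu R0 (δ * c1 / 2) (by positivity)
  obtain ⟨m, hm⟩ := h1.exists
  have h2 : ∀ᶠ n : ℕ in (UU : Filter ℕ), m < n := UU_le (eventually_gt_atTop m)
  obtain ⟨n, hn, hmn⟩ := (h1.and h2).exists
  refine ⟨m, n, hmn, ?_⟩
  refine huR (v n) (v m) (hv n) (hv m) (h0 n) fun z hz => ?_
  have hzb : z ∈ closedBall (0 : ℂ) R0 := mem_closedBall_zero_iff.2 hz
  have h3 := hm z hzb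
  have h4 := hn z hzb
  have h5 := norm_sub_le (v m z - V z) (v n z - V z)
  rw [sub_sub_sub_cancel_right] at h5
  have h6 := (hlow B 0 (v n) (hv n) z).1
  have h7 := mul_le_mul_of_nonneg_left h6 hδ.le
  linarith

end Pair

end Pool.Agent.K9h84.CI
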