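import Pool.Agent.K9h84.CI.Defs
import Pool.Agent.H135R2.VS.Der

/-!
# Very general sections: derivations of the field of complex numbers

Let `K` be a subfield of `ℂ` and let the coefficients of the form `Q` be algebraically independent
over `K`. For each form `G` of the same degree there is a derivation of `ℂ` over `K` which maps the
coefficients of `Q` to those of `G`. This gives the smoothness and transversality of very general
sections.
-/

set_option autoImplicit false

open MvPolynomial

namespace Pool.Agent.K9h84.CI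

section chain

variable {K : Type*} [Field K] [Algebra K ℂ] {σ : Type*}

/-- the coefficientwise derivative -/
noncomputable def mvD (D : Derivation K ℂ ℂ) (F : MvPolynomial σ ℂ) : MvPolynomial σ ℂ :=
  ∑ m ∈ F.support, monomial m (D (coeff m F))

theorem coeff_mvD (D : Derivation K ℂ ℂ) (F : MvPolynomial σ ℂ) (m : σ →₀ ℕ) :
    coeff m (mvD D F) = D (coeff m F) := by
  classical
  unfold mvD
  rw [coeff_sum]
  simp only [coeff_monomial]
  rw [Finset.sum_ite_eq']
  split_ifs with h
  · rfl
  · rw [notMem_support_iff.1 h, map_zero]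

theorem mvD_add (D : Derivation K ℂ ℂ) (F G : MvPolynomial σ ℂ) :
    mvD D (F + G) = mvD D F + mvD D G := by
  ext m
  rw [coeff_mvD, coeff_add, coeff_add, coeff_mvD, coeff_mvD, map_add]

theorem mvD_C (D : Derivation K ℂ ℂ) (c : ℂ) : mvD D (C c : MvPolynomial σ ℂ) = C (D c) := by
  classical
  ext m
  rw [coeff_mvD, coeff_C, coeff_C]
  split_ifs with h
  · rfl
  · rw [map_zero]

theorem mvD_mul_X (D : Derivation K ℂ ℂ) (F : MvPolynomial σ ℂ) (i : σ) :
    mvD D (F * X i) = mvD D F * X i := by
  classical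
  ext m
  rw [coeff_mvD, coeff_mul_X', coeff_mul_X']
  split_ifs with h
  · rw [coeff_mvD]
  · rw [map_zero]

/-- the chain rule -/
theorem chain [Fintype σ] {B : Type*} [CommRing B] [Algebra ℂ B] [Algebra K B]
    (D : Derivation K ℂ ℂ) (δ : Derivation K B B)
    (hδ : ∀ c, δ (algebraMap ℂ B c) = algebraMap ℂ B (D c)) (x : σ → B) (F : MvPolynomial σ ℂ) :
    δ (aeval x F) = aeval x (mvD D F) + ∑ i, aeval x (pderiv i F) * δ (x i) := by
  classical
  induction F using MvPolynomial.induction_on with
  | C a =>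
    rw [mvD_C]
    simp [hδ, algHom_C]
  | add p q hp hq =>
    rw [mvD_add, map_add, map_add, hp, hq, map_add]
    simp only [map_add, add_mul, Finset.sum_add_distrib]
    ring
  | mul_X p j hp =>
    rw [mvD_mul_X, map_mul, aeval_X, Derivation.leibniz, hp, map_mul, aeval_X]
    have h1 : ∀ i, aeval x (pderiv i (p * X j)) * δ (x i) =
        x j * (aeval x (pderiv i p) * δ (x i)) + (if j = i then aeval x p * δ (x i) else 0) := by
      intro i
      rw [pderiv_mul, pderiv_X, map_add, map_mul, map_mul, aeval_X]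
      by_cases hij : j = i
      · rw [if_pos hij, hij, Pi.single_eq_same, map_one]
        ring
      · rw [if_neg hij, Pi.single_eq_of_ne hij, map_zero]
        ring
    simp only [h1]
    rw [Finset.sum_add_distrib, ← Finset.mul_sum, Finset.sum_ite_eq]
    simp only [Finset.mem_univ, if_true, smul_eq_mul]
    ring

end chain

/-- the coefficients of the form `Q` of degree `b` are algebraically independent over `K` -/
def Gen {s : ℕ} (K : Subfield ℂ) (b : ℕ) (Q : PP s) : Prop :=
  AlgebraicIndependent K fun I : {I : Fin (s + 3) →₀ ℕ // I.degree = b} => Q.coeff I.1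

/-- all coefficients are in `K` -/
def CoeffIn {s : ℕ} (K : Subfield ℂ) (F : PP s) : Prop := ∀ m, coeff m F ∈ K

variable {s : ℕ}

theorem CoeffIn.mvD_eq {K : Subfield ℂ} {F : PP s} (h : CoeffIn K F) (D : Derivation K ℂ ℂ) :
    mvD D F = 0 := by
  ext m
  rw [coeff_mvD, coeff_zero]
  exact D.map_algebraMap ⟨coeff m F, h m⟩

theorem Gen.exists_der {K : Subfield ℂ} {b : ℕ} {Q G : PP s} (h : Gen K b Q)
    (hQ : Q.IsHomogeneous b) (hG : G.IsHomogeneous b) : ∃ D : Derivation K ℂ ℂ, mvD D Q = G := by
  obtain ⟨D, hD⟩ := Pool.Agent.H135R2.VS.exists_der h fun I => G.coeff I.1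
  refine ⟨D, ?_⟩
  ext m
  rw [coeff_mvD]
  by_cases hm : m.degree = b
  · exact hD ⟨m, hm⟩
  · rw [hQ.coeff_eq_zero hm, hG.coeff_eq_zero hm, map_zero]

theorem chainC {K : Subfield ℂ} (D : Derivation K ℂ ℂ) (x : VV s) (F : PP s) :
    D (eval x F) = eval x (mvD D F) + dt (gr F x) (fun i => D (x i)) := by
  have h := chain D D (fun c => rfl) x F
  simpa [dt, gr, MvPolynomial.aeval_eq_eval] using h

/-- Bertini's theorem for very general forms -/
theorem Gen.indep {K : Subfield ℂ} {b m : ℕ} {Q : PP s} (h : Gen K b Q)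
    (hQ : Q.IsHomogeneous b) {F : Fin m → PP s} (hF : ∀ i, CoeffIn K (F i)) {x : VV s}
    (hx : x ≠ 0) (hF0 : ∀ i, eval x (F i) = 0) (hQ0 : eval x Q = 0)
    (hli : LinearIndependent ℂ (fun i => gr (F i) x)) :
    LinearIndependent ℂ (Fin.cons (α := fun _ => VV s) (gr Q x) (fun i => gr (F i) x) :
      Fin (m + 1) → VV s) := by
  rw [linearIndependent_finCons]
  refine ⟨hli, fun hmem => ?_⟩
  obtain ⟨j, hj⟩ : ∃ j, x j ≠ 0 := by
    by_contra hcon
    push Not at hcon
    exact hx (funext hcon)
  obtain ⟨D, hD⟩ := h.exists_der hQ (isHomogeneous_X_pow (R := ℂ) j b)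
  obtain ⟨c, hc⟩ := (Submodule.mem_span_range_iff_exists_fun ℂ).1 hmem
  have h1 : ∀ i, dt (gr (F i) x) (fun i => D (x i)) = 0 := by
    intro i
    have h2 := chainC D x (F i)
    rw [(hF i).mvD_eq D, hF0 i, map_zero, map_zero, zero_add] at h2
    exact h2.symm
  have h3 := chainC D x Q
  rw [hD, hQ0, map_zero, map_pow, eval_X, ← hc] at h3
  have h4 : dt (∑ i, c i • gr (F i) x) (fun i => D (x i)) = 0 := by
    have h5 : dt (∑ i, c i • gr (F i) x) (fun i => D (x i)) =
        ∑ i, c i * dt (gr (F i) x) (fun i => D (x i)) := by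
      unfold dt
      simp only [Finset.sum_apply, Pi.smul_apply, smul_eq_mul, Finset.sum_mul, Finset.mul_sum]
      rw [Finset.sum_comm]
      exact Finset.sum_congr rfl fun i _ => Finset.sum_congr rfl fun l _ => by ring
    rw [h5]
    exact Finset.sum_eq_zero fun i _ => by rw [h1 i, mul_zero]
  rw [h4, add_zero] at h3
  exact pow_ne_zero b hj h3.symm

/-- a very general section is smooth and transversal to a given smooth section -/
theorem Gen.smoothPair {K : Subfield ℂ} {a b : ℕ} {d : Fin s → ℕ} {R : Fin s → PP s} {P Q : PP s}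
    (h : Gen K b Q) (hQ : Q.IsHomogeneous b) (hR : ∀ i, (R i).IsHomogeneous (d i))
    (hd : ∀ i, 1 ≤ d i) (hP : P.IsHomogeneous a) (hRK : ∀ i, CoeffIn K (R i)) (hPK : CoeffIn K P)
    (hS : SmoothCI R) (hSP : SmoothCI (Fin.cons (α := fun _ => MvPolynomial (Fin (s + 3)) ℂ) P R)) :
    SmoothPair R P Q d a b where
  homR := hR
  posR := hd
  homP := hP
  homQ := hQ
  smooth := hS
  smoothP := hSP
  smoothQ := fun x hx h0 => by
    obtain ⟨hQ0, hR0⟩ := cons_zero_iff.1 h0
    rw [grad_cons]
    exact h.indep hQ hRK hx hR0 hQ0 (hS x hx hR0)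
  transversal := fun x hx h0 => by
    obtain ⟨hP0, h1⟩ := cons_zero_iff.1 h0
    obtain ⟨hQ0, hR0⟩ := cons_zero_iff.1 h1
    have hK : ∀ i, CoeffIn K ((Fin.cons (α := fun _ => PP s) P R : Fin (s + 1) → PP s) i) := by
      intro i
      refine Fin.cases ?_ (fun i => ?_) i
      · exact hPK
      · exact hRK i
    have h2 := h.indep hQ hK hx (cons_zero_iff.2 ⟨hP0, hR0⟩) hQ0 (hSP x hx
      (cons_zero_iff.2 ⟨hP0, hR0⟩))
    have h3 := h2.comp (Equiv.swap (0 : Fin (s + 2)) 1) (Equiv.injective _)
    have h4 : (fun i => grad ((Fin.cons (α := fun _ => PP s) P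
        (Fin.cons (α := fun _ => PP s) Q R) : Fin (s + 2) → PP s) i) x) =
        (Fin.cons (α := fun _ => VV s) (gr Q x) (fun i => gr ((Fin.cons (α := fun _ => PP s) P R :
          Fin (s + 1) → PP s) i) x) : Fin (s + 2) → VV s) ∘ (Equiv.swap (0 : Fin (s + 2)) 1) := by
      funext i
      refine Fin.cases ?_ (fun i => ?_) i
      · rw [Function.comp_apply, Equiv.swap_apply_left]
        rfl
      · refine Fin.cases ?_ (fun i => ?_) i
        · have : (Fin.succ (0 : Fin (s + 1))) = 1 := rfl
          rw [this, Function.comp_apply, Equiv.swap_apply_right]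
          rfl
        · rw [Function.comp_apply, Equiv.swap_apply_of_ne_of_ne]
          · rfl
          · exact Fin.succ_ne_zero _
          · intro h5
            have h6 : (Fin.succ (Fin.succ i) : Fin (s + 2)) = Fin.succ 0 := h5
            exact Fin.succ_ne_zero i (Fin.succ_injective _ h6)
    rw [h4]
    exact h3

/-- the coefficients of finitely many forms are in a countable field -/
theorem exists_field {m : ℕ} (F : Fin m → PP s) :
    ∃ K : Subfield ℂ, Countable K ∧ ∀ i, CoeffIn K (F i) := by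
  refine ⟨Subfield.closure (Set.range fun p : Fin m × (Fin (s + 3) →₀ ℕ) => coeff p.2 (F p.1)),
    ?_, fun i m => Subfield.subset_closure ⟨(i, m), rfl⟩⟩
  rw [← Cardinal.mk_le_aleph0_iff]
  refine (Subfield.cardinalMk_closure_le_max _).trans ?_
  rw [max_le_iff]
  refine ⟨?_, le_rfl⟩
  rw [Cardinal.mk_le_aleph0_iff]
  exact (Set.countable_range _).to_subtype

/-- very general forms have algebraically independent coefficients -/
theorem very_general (K : Subfield ℂ) [Countable K] (s b : ℕ) :
    ∃ N : Set (MvPolynomial {I : Fin (s + 3) →₀ ℕ // I.degree = b} ℂ), N.Countable ∧ 0 ∉ N ∧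
      ∀ Q : PP s, (∀ Φ ∈ N, eval (fun I => Q.coeff I.1) Φ ≠ 0) → Gen K b Q := by
  classical
  have hfin : Finite {m : Fin (s + 3) →₀ ℕ // m.degree = b} := by
    have h1 : {m : Fin (s + 3) →₀ ℕ | m.degree = b}.Finite := by
      refine (Finsupp.finite_of_degree_le b).subset ?_
      intro m hm
      exact le_of_eq hm
    exact h1
  have hc : Countable (MvPolynomial {m : Fin (s + 3) →₀ ℕ // m.degree = b} K) := by
    have := Finite.to_countable (α := {m : Fin (s + 3) →₀ ℕ // m.degree = b})
    rw [← Cardinal.mk_le_aleph0_iff]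
    refine MvPolynomial.cardinalMk_le_max.trans ?_
    rw [max_le_iff, max_le_iff]
    exact ⟨⟨Cardinal.mk_le_aleph0, Cardinal.mk_le_aleph0⟩, le_rfl⟩
  refine ⟨(fun P => map (algebraMap K ℂ) P) '' {P | P ≠ 0}, (Set.to_countable _).image _, ?_, ?_⟩
  · rintro ⟨P, hP, h0⟩
    apply hP
    exact (map_injective _ (algebraMap K ℂ).injective) (h0.trans (map_zero _).symm)
  · intro F hF
    unfold Gen
    rw [algebraicIndependent_iff]
    intro P hP
    by_contra hP0
    apply hF _ ⟨P, hP0, rfl⟩
    rw [eval_map, ← aeval_def]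
    exact hP

end Pool.Agent.K9h84.CI
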