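import Pool.Agent.K9h84.CI.VgA

/-!
# Critical points of the fibres of the pencil of a hyperplane section and a very general section
-/

set_option autoImplicit false

open Set Filter Topology Metric

namespace Pool.Agent.K9h84.CI

variable {s : ℕ}

/-! ### more on the generalised cross product -/

theorem gcp_zero_of {A : Fin (s + 2) → VV s} (h : ¬ LinearIndependent ℂ A) : gcp A = 0 := by
  funext l
  have h1 : dt (Pi.single l 1) (gcp A) = gcp A l := dt_single l _
  rw [← h1, dt_gcp, Pi.zero_apply]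
  by_contra hne
  apply h
  have h2 : IsUnit (mx (Pi.single l 1) A) := (Matrix.isUnit_iff_isUnit_det _).2 (isUnit_iff_ne_zero.2 hne)
  have h3 : LinearIndependent ℂ (mx (Pi.single l 1) A).row := Matrix.linearIndependent_rows_iff_isUnit.2 h2
  have h4 : LinearIndependent ℂ (Fin.cons (α := fun _ => VV s) (Pi.single l 1) A :
    Fin (s + 2 + 1) → VV s) := h3
  exact (linearIndependent_finCons.1 h4).1

/-- the generalised cross product as a function of the second row -/
noncomputable def G2 (g c : VV s) (r : Fin s → VV s) : VV s :=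
  gcp (Fin.cons (α := fun _ => VV s) g (Fin.cons (α := fun _ => VV s) c r) : Fin (s + 2) → VV s)

theorem cons_update (g c c' : VV s) (r : Fin s → VV s) :
    (Fin.cons (α := fun _ => VV s) g (Fin.cons (α := fun _ => VV s) c r) : Fin (s + 2) → VV s) =
    Function.update (Fin.cons (α := fun _ => VV s) g (Fin.cons (α := fun _ => VV s) c' r) :
      Fin (s + 2) → VV s) 1 c := by
  funext i
  refine Fin.cases ?_ (fun i => ?_) i
  · rw [Function.update_of_ne (by exact Fin.succ_ne_zero (0 : Fin (s + 1)) |>.symm)]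
    rfl
  · refine Fin.cases ?_ (fun i => ?_) i
    · have : (Fin.succ (0 : Fin (s + 1))) = 1 := rfl
      rw [this, Function.update_self]
      rfl
    · rw [Function.update_of_ne]
      · rfl
      · intro h
        have := congrArg Fin.val h
        simp at this

theorem sub_update {A : Fin (s + 2) → VV s} (c : VV s) (l : Fin (s + 2 + 1)) :
    (Matrix.of (Function.update A 1 c) : Matrix (Fin (s + 2)) (Fin (s + 2 + 1)) ℂ).submatrix id
      (Fin.succAbove l) = ((Matrix.of A : Matrix (Fin (s + 2)) (Fin (s + 2 + 1)) ℂ).submatrix id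
      (Fin.succAbove l)).updateRow 1 (fun j => c (Fin.succAbove l j)) := by
  ext i j
  by_cases hi : i = 1
  · subst hi
    rw [Matrix.updateRow_self]
    simp
  · rw [Matrix.updateRow_ne hi]
    simp [Function.update_of_ne hi]

theorem G2_add (g c c' : VV s) (r : Fin s → VV s) : G2 g (c + c') r = G2 g c r + G2 g c' r := by
  unfold G2
  rw [cons_update g (c + c') 0, cons_update g c 0, cons_update g c' 0]
  funext l
  unfold gcp
  rw [Pi.add_apply, sub_update, sub_update, sub_update]
  have h1 : (fun j => (c + c') (Fin.succAbove l j)) = (fun j => c (Fin.succAbove l j)) +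
      fun j => c' (Fin.succAbove l j) := rfl
  rw [h1, Matrix.det_updateRow_add]
  ring

theorem G2_smul (g c : VV s) (t : ℂ) (r : Fin s → VV s) : G2 g (t • c) r = t • G2 g c r := by
  unfold G2
  rw [cons_update g (t • c) 0, cons_update g c 0]
  funext l
  unfold gcp
  rw [Pi.smul_apply, smul_eq_mul, sub_update, sub_update]
  have h1 : (fun j => (t • c) (Fin.succAbove l j)) = t • (fun j => c (Fin.succAbove l j)) := rfl
  rw [h1, Matrix.det_updateRow_smul]
  ring

theorem swap_cons {g c : VV s} {r : Fin s → VV s}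
    (h : LinearIndependent ℂ (Fin.cons (α := fun _ => VV s) g (Fin.cons (α := fun _ => VV s) c r) :
      Fin (s + 2) → VV s)) :
    LinearIndependent ℂ (Fin.cons (α := fun _ => VV s) c (Fin.cons (α := fun _ => VV s) g r) :
      Fin (s + 2) → VV s) := by
  have h1 := h.comp (Equiv.swap (0 : Fin (s + 2)) 1) (Equiv.injective _)
  have h2 : (Fin.cons (α := fun _ => VV s) c (Fin.cons (α := fun _ => VV s) g r) :
      Fin (s + 2) → VV s) = (Fin.cons (α := fun _ => VV s) g (Fin.cons (α := fun _ => VV s) c r) :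
      Fin (s + 2) → VV s) ∘ (Equiv.swap (0 : Fin (s + 2)) 1) := by
    funext i
    simp only [Function.comp]
    refine Fin.cases ?_ (fun i => ?_) i
    · rw [Equiv.swap_apply_left]
      rfl
    · refine Fin.cases ?_ (fun i => ?_) i
      · have : (Fin.succ 0 : Fin (s + 2)) = 1 := rfl
        rw [this, Equiv.swap_apply_right]
        rfl
      · have e0 : (i.succ.succ : Fin (s + 2)) ≠ 0 := Fin.succ_ne_zero _
        have e1 : (i.succ.succ : Fin (s + 2)) ≠ 1 := by
          intro h
          have := congrArg Fin.val h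
          simp at this
        rw [Equiv.swap_apply_of_ne_of_ne e0 e1]
        rfl
  rw [h2]
  exact h1

theorem G2_span {g c : VV s} {r : Fin s → VV s} (h : c ∈ Submodule.span ℂ
    (Set.range (Fin.cons (α := fun _ => VV s) g r : Fin (s + 1) → VV s))) : G2 g c r = 0 := by
  refine gcp_zero_of fun hli => ?_
  have h1 := swap_cons hli
  rw [linearIndependent_finCons] at h1
  exact h1.2 h

theorem span_of_G2 {g c : VV s} {r : Fin s → VV s}
    (hli : LinearIndependent ℂ (Fin.cons (α := fun _ => VV s) g r : Fin (s + 1) → VV s))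
    (h : G2 g c r = 0) : c ∈ Submodule.span ℂ
    (Set.range (Fin.cons (α := fun _ => VV s) g r : Fin (s + 1) → VV s)) := by
  by_contra hcon
  exact gcp_ne (swap_cons (linearIndependent_finCons.2 ⟨hli, hcon⟩)) h

theorem mem_span_cons {g c : VV s} {r : Fin s → VV s} (h : c ∈ Submodule.span ℂ
    (Set.range (Fin.cons (α := fun _ => VV s) g r : Fin (s + 1) → VV s))) :
    ∃ (α : ℂ) (β : Fin s → ℂ), c = α • g + ∑ j, β j • r j := by
  obtain ⟨t, ht⟩ := (Submodule.mem_span_range_iff_exists_fun ℂ).1 h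
  rw [Fin.sum_univ_succ] at ht
  exact ⟨t 0, fun j => t j.succ, ht.symm⟩

theorem gcp_cont : Continuous (fun A : Fin (s + 2) → VV s => gcp A) := by
  have h : Differentiable ℂ (fun A : Fin (s + 2) → VV s => gcp A) :=
    gcp_dif (f := fun A => A) fun i => by fun_prop
  exact h.continuous

theorem dt_sum {ι : Type*} (u : Finset ι) (a : VV s) (f : ι → VV s) :
    dt a (∑ j ∈ u, f j) = ∑ j ∈ u, dt a (f j) := by
  classical
  induction u using Finset.induction_on with
  | empty => simp [dt_zero]
  | insert j u hj ih => rw [Finset.sum_insert hj, Finset.sum_insert hj, dt_add, ih]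

/-! ### linear forms and second derivatives -/

theorem const_of_hom_zero {F : PP s} (h : F.IsHomogeneous 0) :
    F = MvPolynomial.C (F.coeff 0) := by
  ext m
  rw [MvPolynomial.coeff_C]
  split_ifs with h0
  · rw [h0]
  · refine h.coeff_eq_zero ?_
    intro h1
    rw [Finsupp.degree_eq_zero_iff] at h1
    exact h0 h1.symm

theorem lin_gr {P : PP s} (h : P.IsHomogeneous 1) (x y : VV s) : gr P x = gr P y := by
  funext i
  have h1 := const_of_hom_zero (F := MvPolynomial.pderiv i P) (h.pderiv (i := i))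
  show MvPolynomial.eval x _ = MvPolynomial.eval y _
  rw [h1, MvPolynomial.eval_C, MvPolynomial.eval_C]

theorem lin_gr2 {P : PP s} (h : P.IsHomogeneous 1) (x : VV s) (i : Fin (s + 3)) :
    gr (MvPolynomial.pderiv i P) x = 0 := by
  funext j
  have h1 := const_of_hom_zero (F := MvPolynomial.pderiv i P) (h.pderiv (i := i))
  show MvPolynomial.eval x (MvPolynomial.pderiv j (MvPolynomial.pderiv i P)) = 0
  rw [h1, MvPolynomial.pderiv_C, map_zero]

theorem lin_eval {P : PP s} (h : P.IsHomogeneous 1) (x y : VV s) :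
    MvPolynomial.eval x P = dt (gr P y) x := by
  have h1 := euler h x
  rw [lin_gr h x y] at h1
  rw [dt_comm, h1]
  simp

theorem pd_comm (i j : Fin (s + 3)) (F : PP s) :
    MvPolynomial.pderiv i (MvPolynomial.pderiv j F) =
    MvPolynomial.pderiv j (MvPolynomial.pderiv i F) := by
  ext m
  simp only [MvPolynomial.coeff_pderiv, Finsupp.add_apply]
  have e : m + Finsupp.single i 1 + Finsupp.single j 1 = m + Finsupp.single j 1 +
      Finsupp.single i 1 := add_right_comm _ _ _
  rw [e]
  by_cases h : i = j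
  · subst h
    ring
  · rw [Finsupp.single_eq_of_ne h, Finsupp.single_eq_of_ne (Ne.symm h)]
    simp only [add_zero]
    ring

/-- the second derivative -/
noncomputable def hs (F : PP s) (v u : VV s) : VV s :=
  fun i => dt (gr (MvPolynomial.pderiv i F) v) u

theorem hs_symm (F : PP s) (v u w : VV s) : dt u (hs F v w) = dt w (hs F v u) := by
  have h : ∀ i j, gr (MvPolynomial.pderiv i F) v j = gr (MvPolynomial.pderiv j F) v i := by
    intro i j
    show MvPolynomial.eval v _ = MvPolynomial.eval v _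
    rw [pd_comm]
  unfold dt hs dt
  simp only [Finset.mul_sum]
  rw [Finset.sum_comm]
  refine Finset.sum_congr rfl fun j _ => Finset.sum_congr rfl fun i _ => ?_
  rw [h i j]
  ring

theorem mvD_pderiv {K : Subfield ℂ} (D : Derivation K ℂ ℂ) (F : PP s) (i : Fin (s + 3)) :
    mvD D (MvPolynomial.pderiv i F) = MvPolynomial.pderiv i (mvD D F) := by
  ext m
  rw [coeff_mvD, MvPolynomial.coeff_pderiv, MvPolynomial.coeff_pderiv, coeff_mvD, D.leibniz]
  have e2 : D ((m i : ℂ) + 1) = 0 := by
    rw [map_add, D.map_natCast, D.map_one_eq_zero, add_zero]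
  rw [e2, smul_zero, zero_add, smul_eq_mul, mul_comm]

theorem chain_gr {K : Subfield ℂ} (D : Derivation K ℂ ℂ) (x : VV s) (F : PP s) (i : Fin (s + 3)) :
    D (gr F x i) = gr (mvD D F) x i + hs F x (fun i => D (x i)) i := by
  have h := chainC D x (MvPolynomial.pderiv i F)
  rw [mvD_pderiv] at h
  exact h

/-! ### critical points -/

namespace Pair

variable (D : Pair s)

theorem indep_PR {v : VV s} (hon : D.on v) (Pv : D.p v ≠ 0) :
    LinearIndependent ℂ (Fin.cons (α := fun _ => VV s) (gr D.P v) (fun i => gr (D.R i) v) :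
      Fin (s + 1) → VV s) := by
  have hv : v ≠ 0 := fun h => Pv (by rw [h]; exact D.p_zero)
  rw [linearIndependent_finCons]
  refine ⟨D.sR v hv hon, fun hmem => ?_⟩
  have h1 := D.span_orth (D.euler_on hon) hmem
  rw [euler D.hP] at h1
  have ha : (D.a : ℂ) ≠ 0 := by
    have := D.ha
    exact_mod_cast (by omega : D.a ≠ 0)
  exact mul_ne_zero ha Pv h1

theorem N_eq (x : VV s) : D.N x = G2 (gr D.P x) (gr D.Q x) (fun i => gr (D.R i) x) := by
  unfold N G2
  congr 1
  funext i
  refine Fin.cases ?_ (fun i => ?_) i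
  · rfl
  · refine Fin.cases ?_ (fun i => ?_) i
    · rfl
    · rfl

/-- the gradient of the second form at a critical point -/
theorem crit_gr (ha : D.a = 1) {v : VV s} {c0 : ℂ} (hon : D.on v) (Pv : D.p v = 1)
    (Qv : D.q v = c0) (Nv : D.N v = 0) :
    ∃ β : Fin s → ℂ, gr D.Q v = (D.b * c0) • gr D.P v + ∑ j, β j • gr (D.R j) v := by
  have hli := D.indep_PR hon (by rw [Pv]; exact one_ne_zero)
  rw [D.N_eq] at Nv
  obtain ⟨α, β, h⟩ := mem_span_cons (span_of_G2 hli Nv)
  refine ⟨β, ?_⟩
  have e1 := euler D.hP v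
  have e2 := euler D.hQ v
  have e3 : MvPolynomial.eval v D.P = 1 := Pv
  have e4 : MvPolynomial.eval v D.Q = c0 := Qv
  rw [e3, ha] at e1
  rw [e4, h, dt_add, dt_smul, dt_sum, e1] at e2
  have h5 : ∑ j, dt v (β j • gr (D.R j) v) = 0 := Finset.sum_eq_zero fun j _ => by
    rw [dt_smul, D.euler_on hon, mul_zero]
  rw [h5] at e2
  have h6 : α = D.b * c0 := by
    rw [← e2]
    simp
  rw [h, h6]

variable {D} {K : Subfield ℂ}

theorem der_P (hPK : CoeffIn K D.P) {v : VV s} (Pv : D.p v = 1) (δ : Derivation K ℂ ℂ) :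
    dt (gr D.P v) (fun i => δ (v i)) = 0 := by
  have h := chainC δ v D.P
  have e3 : MvPolynomial.eval v D.P = 1 := Pv
  rw [hPK.mvD_eq δ, e3, map_zero, zero_add, δ.map_one_eq_zero] at h
  exact h.symm

theorem der_R (hRK : ∀ i, CoeffIn K (D.R i)) {v : VV s} (hon : D.on v) (δ : Derivation K ℂ ℂ)
    (j : Fin s) : dt (gr (D.R j) v) (fun i => δ (v i)) = 0 := by
  have h := chainC δ v (D.R j)
  rw [(hRK j).mvD_eq δ, hon j, map_zero, map_zero, zero_add] at h
  exact h.symm

theorem crit_val (hQK : Gen K D.b D.Q) (hPK : CoeffIn K D.P) (hRK : ∀ i, CoeffIn K (D.R i))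
    (ha : D.a = 1) {v : VV s} {c0 : ℂ} (hon : D.on v) (Pv : D.p v = 1) (Qv : D.q v = c0)
    (Nv : D.N v = 0) {G : PP s} (δ : Derivation K ℂ ℂ) (hδ : mvD δ D.Q = G) :
    MvPolynomial.eval v G = δ c0 := by
  obtain ⟨β, hβ⟩ := D.crit_gr ha hon Pv Qv Nv
  have h := chainC δ v D.Q
  have e4 : MvPolynomial.eval v D.Q = c0 := Qv
  rw [hδ, e4, hβ, add_dt, smul_dt, der_P hPK Pv, mul_zero, zero_add, dt_comm, dt_sum] at h
  have h5 : ∑ j, dt (fun i => δ (v i)) (β j • gr (D.R j) v) = 0 :=
    Finset.sum_eq_zero fun j _ => by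
      rw [dt_smul, dt_comm, der_R hRK hon, mul_zero]
  rw [h5, add_zero] at h
  exact h.symm

theorem hom_test (ha : D.a = 1) (i : Fin (s + 3)) :
    (D.P ^ (D.b - 1) * MvPolynomial.X i).IsHomogeneous D.b := by
  have hP1 : D.P.IsHomogeneous 1 := ha ▸ D.hP
  have h7 := (hP1.pow (D.b - 1)).mul (MvPolynomial.isHomogeneous_X ℂ i)
  have e : 1 * (D.b - 1) + 1 = D.b := by have := D.hb; omega
  rwa [e] at h7

theorem crit_unique (hQK : Gen K D.b D.Q) (hPK : CoeffIn K D.P) (hRK : ∀ i, CoeffIn K (D.R i))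
    (ha : D.a = 1) {v w : VV s} {c0 : ℂ} (hv : D.on v) (Pv : D.p v = 1) (Qv : D.q v = c0)
    (Nv : D.N v = 0) (hw : D.on w) (Pw : D.p w = 1) (Qw : D.q w = c0) (Nw : D.N w = 0) :
    v = w := by
  funext i
  obtain ⟨δ, hδ⟩ := hQK.exists_der D.hQ (hom_test ha i)
  have h1 := crit_val hQK hPK hRK ha hv Pv Qv Nv δ hδ
  have h2 := crit_val hQK hPK hRK ha hw Pw Qw Nw δ hδ
  rw [← h2] at h1
  have e3 : MvPolynomial.eval v D.P = 1 := Pv
  have e4 : MvPolynomial.eval w D.P = 1 := Pw
  simpa [e3, e4] using h1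

/-- the critical points of the fibres are not degenerate -/
theorem nondeg (hQK : Gen K D.b D.Q) (hPK : CoeffIn K D.P) (hRK : ∀ i, CoeffIn K (D.R i))
    (ha : D.a = 1) {v u : VV s} {c0 : ℂ} (hon : D.on v) (Pv : D.p v = 1) {β : Fin s → ℂ}
    (hβ : gr D.Q v = (D.b * c0) • gr D.P v + ∑ j, β j • gr (D.R j) v)
    (hPu : dt (gr D.P v) u = 0) (hRu : ∀ j, dt (gr (D.R j) v) u = 0)
    (hH : hs D.Q v u - ∑ j, β j • hs (D.R j) v u ∈ Submodule.span ℂ
      (Set.range (Fin.cons (α := fun _ => VV s) (gr D.P v) (fun i => gr (D.R i) v) :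
        Fin (s + 1) → VV s))) : u = 0 := by
  have hP1 : D.P.IsHomogeneous 1 := ha ▸ D.hP
  obtain ⟨α', β', hαβ⟩ := mem_span_cons hH
  have e3 : MvPolynomial.eval v D.P = 1 := Pv
  have key : ∀ G : PP s, G.IsHomogeneous D.b → dt u (gr G v) = 0 := by
    intro G hG
    obtain ⟨δ, hδ⟩ := hQK.exists_der D.hQ hG
    set δv : VV s := fun i => δ (v i) with hδv
    have hPd : dt (gr D.P v) δv = 0 := der_P hPK Pv δ
    have hRd : ∀ j, dt (gr (D.R j) v) δv = 0 := der_R hRK hon δ
    have h1 : ∀ i, δ (gr D.Q v i) = gr G v i + hs D.Q v δv i := by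
      intro i
      rw [chain_gr, hδ]
    have h2 : ∀ j i, δ (gr (D.R j) v i) = hs (D.R j) v δv i := by
      intro j i
      rw [chain_gr, (hRK j).mvD_eq δ, gr_zero, Pi.zero_apply, zero_add]
    have h3 : ∀ i, δ (gr D.P v i) = 0 := by
      intro i
      rw [chain_gr, hPK.mvD_eq δ, gr_zero, Pi.zero_apply, zero_add]
      show dt (gr (MvPolynomial.pderiv i D.P) v) _ = 0
      rw [lin_gr2 hP1]
      simp [dt]
    have h4 : ∀ i, gr D.Q v i = (D.b * c0) * gr D.P v i + ∑ j, β j * gr (D.R j) v i := by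
      intro i
      rw [hβ]
      simp [Finset.sum_apply]
    have h5 : gr G v + hs D.Q v δv = δ (D.b * c0) • gr D.P v +
        ∑ j, (δ (β j) • gr (D.R j) v + β j • hs (D.R j) v δv) := by
      funext i
      have h6 := h1 i
      rw [h4 i, map_add, δ.leibniz, h3, smul_zero, zero_add, map_sum] at h6
      have h7 : ∀ j, δ (β j * gr (D.R j) v i) = δ (β j) * gr (D.R j) v i +
          β j * hs (D.R j) v δv i := by
        intro j
        rw [δ.leibniz, h2, smul_eq_mul, smul_eq_mul]
        ring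
      simp only [h7] at h6
      simp only [Pi.add_apply, Finset.sum_apply, Pi.smul_apply, smul_eq_mul]
      rw [← h6, smul_eq_mul]
      ring
    have h8 : dt u (gr G v) + dt u (hs D.Q v δv) = ∑ j, β j * dt u (hs (D.R j) v δv) := by
      rw [← dt_add, h5, dt_add, dt_smul, dt_comm u (gr D.P v), hPu, mul_zero, zero_add, dt_sum]
      refine Finset.sum_congr rfl fun j _ => ?_
      rw [dt_add, dt_smul, dt_smul, dt_comm u (gr (D.R j) v), hRu, mul_zero, zero_add]
    have h9 : dt δv (hs D.Q v u - ∑ j, β j • hs (D.R j) v u) = 0 := by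
      rw [hαβ, dt_add, dt_smul, dt_comm δv (gr D.P v), hPd, mul_zero, zero_add, dt_sum]
      refine Finset.sum_eq_zero fun j _ => ?_
      rw [dt_smul, dt_comm δv, hRd, mul_zero]
    rw [dt_sub, dt_sum] at h9
    have h10 : ∑ j, dt δv (β j • hs (D.R j) v u) = ∑ j, β j * dt u (hs (D.R j) v δv) := by
      refine Finset.sum_congr rfl fun j _ => ?_
      rw [dt_smul, hs_symm]
    rw [h10, hs_symm] at h9
    linear_combination h8 - h9
  funext i
  have h6 := key _ (hom_test ha i)
  have h7 : gr (D.P ^ (D.b - 1) * MvPolynomial.X i) v =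
      (((D.b - 1 : ℕ) : ℂ) * v i) • gr D.P v + Pi.single i 1 := by
    funext j
    show MvPolynomial.eval v (MvPolynomial.pderiv j (D.P ^ (D.b - 1) * MvPolynomial.X i)) = _
    rw [(MvPolynomial.pderiv j).leibniz, MvPolynomial.pderiv_X, (MvPolynomial.pderiv j).leibniz_pow]
    have e2 : MvPolynomial.eval v (Pi.single (M := fun _ => PP s) j 1 i : PP s) =
        (Pi.single i 1 : VV s) j := by
      by_cases h : i = j
      · rw [h, Pi.single_eq_same, Pi.single_eq_same, map_one]
      · rw [Pi.single_eq_of_ne h, Pi.single_eq_of_ne (Ne.symm h), map_zero]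
    rw [Pi.add_apply, Pi.smul_apply, smul_eq_mul]
    simp only [smul_eq_mul, nsmul_eq_mul, map_add, map_mul, map_pow, e3, one_pow, one_mul, e2,
      MvPolynomial.eval_X, map_natCast]
    show _ + _ * (_ * gr D.P v j) = _
    ring
  rw [h7, dt_add, dt_smul, dt_comm u (gr D.P v), hPu, mul_zero, zero_add, dt_comm, dt_single] at h6
  exact h6

end Pair

end Pool.Agent.K9h84.CI
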