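import Pool.Agent.K9h84.CI.VgB
import Pool.Agent.K9h84.CI.Cri

/-!
# Curves of bounded speed in the fibres of the pencil of a hyperplane section and a very general
section
-/

set_option autoImplicit false

open Set Filter Topology Metric

namespace Pool.Agent.K9h84.CI

variable {s : ℕ}

/-- an entire function bounded by a multiple of another one is a constant multiple of it -/
theorem entire_ratio {f g : ℂ → ℂ} (hf : Differentiable ℂ f) (hg : Differentiable ℂ g) {C : ℝ}
    (h : ∀ z, ‖f z‖ ≤ C * ‖g z‖) : ∃ κ : ℂ, ∀ z, f z = κ * g z := by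
  by_cases hz : ∀ z, g z = 0
  · refine ⟨0, fun z => ?_⟩
    have h1 := h z
    rw [hz z, norm_zero, mul_zero] at h1
    rw [zero_mul]
    exact norm_le_zero_iff.1 h1
  · push Not at hz
    obtain ⟨w0, hw0⟩ := hz
    have hga : AnalyticOnNhd ℂ g univ := fun z _ => hg.analyticAt z
    have hne : ∀ z, ∀ᶠ w in 𝓝[≠] z, g w ≠ 0 := by
      intro z
      rcases (hga z (mem_univ z)).eventually_eq_zero_or_eventually_ne_zero with h1 | h1
      · exfalso
        have h2 := hga.eqOn_zero_of_preconnected_of_eventuallyEq_zero isPreconnected_univ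
          (mem_univ z) h1
        exact hw0 (h2 (mem_univ w0))
      · exact h1
    set q : ℂ → ℂ := fun w => f w / g w with hq
    set H : ℂ → ℂ := fun z => limUnder (𝓝[≠] z) q with hH
    have hHq : ∀ z, g z ≠ 0 → H z = q z := by
      intro z hz
      have h1 : ContinuousAt q z := (hf z).continuousAt.div (hg z).continuousAt hz
      exact (h1.tendsto.mono_left nhdsWithin_le_nhds).limUnder_eq
    have hqb : ∀ w, g w ≠ 0 → ‖q w‖ ≤ C := by
      intro w hw
      rw [hq]
      simp only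
      rw [norm_div, div_le_iff₀ (norm_pos_iff.2 hw)]
      exact h w
    have hHd : Differentiable ℂ H := by
      intro z
      obtain ⟨ε, hε, hball⟩ := Metric.mem_nhdsWithin_iff.1 (hne z)
      have hball' : ∀ w ∈ ball z ε \ {z}, g w ≠ 0 := fun w hw => hball ⟨hw.1, hw.2⟩
      have h1 : DifferentiableOn ℂ q (ball z ε \ {z}) := fun w hw =>
        ((hf w).div (hg w) (hball' w hw)).differentiableWithinAt
      have h2 : BddAbove (norm ∘ q '' (ball z ε \ {z})) := by
        refine ⟨C, ?_⟩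
        rintro _ ⟨w, hw, rfl⟩
        exact hqb w (hball' w hw)
      have h3 := Complex.differentiableOn_update_limUnder_of_bddAbove (ball_mem_nhds z hε) h1 h2
      have h4 : H =ᶠ[𝓝 z] Function.update q z (limUnder (𝓝[≠] z) q) := by
        filter_upwards [ball_mem_nhds z hε] with w hw
        by_cases hwz : w = z
        · subst hwz
          rw [Function.update_self]
        · rw [Function.update_of_ne hwz]
          exact hHq w (hball' w ⟨hw, hwz⟩)
      exact (h3.differentiableAt (ball_mem_nhds z hε)).congr_of_eventuallyEq h4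
    have hHb : ∀ z, ‖H z‖ ≤ C := by
      intro z
      have h1 : Tendsto (fun w => ‖H w‖) (𝓝[≠] z) (𝓝 ‖H z‖) :=
        (hHd z).continuousAt.norm.tendsto.mono_left nhdsWithin_le_nhds
      refine le_of_tendsto h1 ?_
      filter_upwards [hne z] with w hw
      rw [hHq w hw]
      exact hqb w hw
    refine ⟨H 0, fun z => ?_⟩
    have hc : H z = H 0 := by
      refine hHd.apply_eq_apply_of_bounded ?_ z 0
      rw [isBounded_iff_forall_norm_le]
      refine ⟨C, ?_⟩
      rintro _ ⟨y, rfl⟩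
      exact hHb y
    by_cases hz : g z = 0
    · have h1 := h z
      rw [hz, norm_zero, mul_zero] at h1
      rw [hz, mul_zero]
      exact norm_le_zero_iff.1 h1
    · rw [← hc, hHq z hz, hq]
      simp only
      rw [div_mul_cancel₀ _ hz]

theorem exists_comp {x : VV s} (h : x ≠ 0) : ∃ i, x i ≠ 0 := Function.ne_iff.1 h

theorem dt_tendsto {F G : ℕ → VV s} {x y : VV s} (hF : Tendsto F atTop (𝓝 x))
    (hG : Tendsto G atTop (𝓝 y)) : Tendsto (fun n => dt (F n) (G n)) atTop (𝓝 (dt x y)) := by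
  have h : Tendsto (fun n => ((F n, G n) : VV s × VV s)) atTop (𝓝 (x, y)) := hF.prodMk_nhds hG
  have h6 : Tendsto (fun p : VV s × VV s => dt p.1 p.2) (𝓝 (x, y)) (𝓝 (dt x y)) :=
    dt_cont.tendsto (x, y)
  have h7 := h6.comp h
  exact h7

theorem HasDD.tendsto {P : PP s} {d : ℕ} {A : VV s → VV s → VV s} (h : HasDD P d A) {x : VV s}
    {F : ℕ → VV s} {y : VV s} (hF : Tendsto F atTop (𝓝 y)) :
    Tendsto (fun n => A x (F n)) atTop (𝓝 (A x y)) := by
  have h4 : Tendsto (fun n => ((x, F n) : VV s × VV s)) atTop (𝓝 (x, y)) :=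
    tendsto_const_nhds.prodMk_nhds hF
  have h6 : Tendsto (fun p : VV s × VV s => A p.1 p.2) (𝓝 (x, y)) (𝓝 (A x y)) :=
    h.cont.tendsto (x, y)
  have h7 := h6.comp h4
  exact h7

/-- difference quotients of the gradient -/
theorem gr_dd {P : PP s} {d : ℕ} {A : Fin (s + 3) → VV s → VV s → VV s}
    (hA : ∀ i, HasDD (MvPolynomial.pderiv i P) (d - 1) (A i)) (x y : VV s) (c : ℂ) :
    c • (gr P y - gr P x) = fun i => dt (A i x y) (c • (y - x)) := by
  funext i
  rw [dt_smul, ← (hA i).diff]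
  rfl

theorem gr_dd_tendsto {P : PP s} {d : ℕ} {A : Fin (s + 3) → VV s → VV s → VV s}
    (hA : ∀ i, HasDD (MvPolynomial.pderiv i P) (d - 1) (A i)) {v0 w : VV s} {x u : ℕ → VV s}
    (hx : Tendsto x atTop (𝓝 v0)) (hu : Tendsto u atTop (𝓝 w)) :
    Tendsto (fun n => (fun i => dt (A i v0 (x n)) (u n) : VV s)) atTop (𝓝 (hs P v0 w)) := by
  rw [tendsto_pi_nhds]
  intro i
  have h3 : Tendsto (fun n => A i v0 (x n)) atTop (𝓝 (A i v0 v0)) := HasDD.tendsto (hA i) hx
  rw [(hA i).diag] at h3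
  exact dt_tendsto h3 hu

namespace Pair

variable {D : Pair s} {K : Subfield ℂ}

/-- lower bound of the Jacobian vector on a fibre in terms of the distance to the critical point -/
theorem nearN (hQK : Gen K D.b D.Q) (hPK : CoeffIn K D.P) (hRK : ∀ i, CoeffIn K (D.R i))
    (ha : D.a = 1) (c0 : ℂ) (M : ℝ) :
    ∃ (v0 : VV s) (c' : ℝ), 0 < c' ∧ ∀ v, D.on v → D.p v = 1 → D.q v = c0 → ‖v‖ ≤ M →
      c' * ‖v - v0‖ ≤ ‖D.N v‖ := by
  have hP1 : D.P.IsHomogeneous 1 := ha ▸ D.hP
  by_cases hcrit : ∃ v0, D.on v0 ∧ D.p v0 = 1 ∧ D.q v0 = c0 ∧ D.N v0 = 0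
  · obtain ⟨v0, on0, Pv0, Qv0, Nv0⟩ := hcrit
    refine ⟨v0, ?_⟩
    by_contra hcon
    push Not at hcon
    have hx : ∀ n : ℕ, ∃ v, D.on v ∧ D.p v = 1 ∧ D.q v = c0 ∧ ‖v‖ ≤ M ∧
        ‖D.N v‖ < 1 / ((n : ℝ) + 1) * ‖v - v0‖ := fun n => hcon _ Nat.one_div_pos_of_nat
    choose x onx Px Qx Mx Nx using hx
    have hne : ∀ n, 0 < ‖x n - v0‖ := by
      intro n
      by_contra h0
      have h1 : ‖x n - v0‖ = 0 := le_antisymm (not_lt.1 h0) (norm_nonneg _)
      have h2 := Nx n
      rw [h1, mul_zero] at h2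
      exact absurd h2 (not_lt.2 (norm_nonneg _))
    set u : ℕ → VV s := fun n => ((‖x n - v0‖ : ℝ) : ℂ)⁻¹ • (x n - v0) with hu
    have hun : ∀ n, ‖u n‖ = 1 := by
      intro n
      rw [hu]
      simp only
      rw [norm_smul, norm_inv, Complex.norm_real, norm_norm, inv_mul_cancel₀ (hne n).ne']
    have hK : IsCompact (closedBall (0 : VV s) M ×ˢ sphere (0 : VV s) 1) :=
      (isCompact_closedBall _ _).prod (isCompact_sphere _ _)
    obtain ⟨⟨y, w⟩, hyw, φ, hφ, hlim⟩ := hK.tendsto_subseq (x := fun n => (x n, u n)) (fun n =>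
      ⟨mem_closedBall_zero_iff.2 (Mx n), mem_sphere_zero_iff_norm.2 (hun n)⟩)
    have hxl : Tendsto (fun n => x (φ n)) atTop (𝓝 y) := (continuous_fst.tendsto _).comp hlim
    have hul : Tendsto (fun n => u (φ n)) atTop (𝓝 w) := (continuous_snd.tendsto _).comp hlim
    have hw1 : ‖w‖ = 1 := mem_sphere_zero_iff_norm.1 hyw.2
    have h0 : Tendsto (fun n : ℕ => 1 / ((φ n : ℝ) + 1)) atTop (𝓝 0) :=
      tendsto_one_div_add_atTop_nhds_zero_nat.comp hφ.tendsto_atTop
    have ony : D.on y := D.isClosed_on.mem_of_tendsto hxl (Eventually.of_forall fun n => onx (φ n))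
    have Py : D.p y = 1 := by
      refine tendsto_nhds_unique ((D.p_cont.tendsto y).comp hxl) ?_
      exact tendsto_const_nhds.congr fun n => (Px (φ n)).symm
    have Qy : D.q y = c0 := by
      refine tendsto_nhds_unique ((D.q_cont.tendsto y).comp hxl) ?_
      exact tendsto_const_nhds.congr fun n => (Qx (φ n)).symm
    have Ny : D.N y = 0 := by
      have h1 : Tendsto (fun n => ‖D.N (x (φ n))‖) atTop (𝓝 ‖D.N y‖) :=
        (D.N_cont.norm.tendsto y).comp hxl
      have h2 : Tendsto (fun n : ℕ => 1 / ((φ n : ℝ) + 1) * (M + ‖v0‖)) atTop (𝓝 (0 * (M + ‖v0‖))) :=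
        h0.mul_const _
      rw [zero_mul] at h2
      rw [← norm_le_zero_iff]
      refine le_of_tendsto_of_tendsto h1 h2 (Eventually.of_forall fun n => ?_)
      refine (Nx (φ n)).le.trans ?_
      refine mul_le_mul_of_nonneg_left ?_ (by positivity)
      exact (norm_sub_le _ _).trans (add_le_add (Mx _) le_rfl)
    have hy : y = v0 := crit_unique hQK hPK hRK ha ony Py Qy Ny on0 Pv0 Qv0 Nv0
    rw [hy] at hxl
    obtain ⟨β, hβ⟩ := D.crit_gr ha on0 Pv0 Qv0 Nv0
    -- the divided differences of the gradients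
    have hAQ : ∀ i, ∃ A, HasDD (MvPolynomial.pderiv i D.Q) (D.b - 1) A := fun i =>
      exists_dd D.hQ.pderiv
    choose AQ hAQ using hAQ
    have hAR : ∀ (j : Fin s) (i : Fin (s + 3)), ∃ A,
        HasDD (MvPolynomial.pderiv i (D.R j)) (D.d j - 1) A := fun j i =>
      exists_dd (D.hR j).pderiv
    choose AR hAR using hAR
    -- the limit direction is tangent
    have hdt : ∀ {F : PP s} {e : ℕ} {A : VV s → VV s → VV s}, HasDD F e A →
        (∀ n, MvPolynomial.eval (x n) F = MvPolynomial.eval v0 F) → dt (gr F v0) w = 0 := by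
      intro F e A hF hval
      have h1 : Tendsto (fun n => dt (A v0 (x (φ n))) (u (φ n))) atTop (𝓝 (dt (A v0 v0) w)) :=
        dt_tendsto (HasDD.tendsto hF hxl) hul
      have h3 : ∀ n, dt (A v0 (x n)) (u n) = 0 := by
        intro n
        rw [hu]
        simp only
        rw [dt_smul, ← hF.diff, hval n, sub_self, mul_zero]
      simp only [h3] at h1
      rw [hF.diag] at h1
      exact (tendsto_nhds_unique h1 tendsto_const_nhds)
    have hPw : dt (gr D.P v0) w = 0 := hdt D.hA fun n => by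
      have a1 : MvPolynomial.eval (x n) D.P = 1 := Px n
      have a2 : MvPolynomial.eval v0 D.P = 1 := Pv0
      rw [a1, a2]
    have hRw : ∀ j, dt (gr (D.R j) v0) w = 0 := fun j => hdt (D.hRR j) fun n => by
      rw [onx n j, on0 j]
    -- the second derivative
    set L : ℕ → VV s := fun n => (fun i => dt (AQ i v0 (x n)) (u n) : VV s) -
      ∑ j, β j • (fun i => dt (AR j i v0 (x n)) (u n) : VV s) with hL
    have hLlim : Tendsto (fun n => L (φ n)) atTop
        (𝓝 (hs D.Q v0 w - ∑ j, β j • hs (D.R j) v0 w)) := by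
      refine Tendsto.sub (gr_dd_tendsto (d := D.b) hAQ hxl hul) ?_
      refine tendsto_finset_sum _ fun j _ => ?_
      exact (gr_dd_tendsto (d := D.d j) (hAR j) hxl hul).const_smul (β j)
    have hLn : ∀ n, G2 (gr D.P v0) (L n) (fun j => gr (D.R j) (x n)) =
        ((‖x n - v0‖ : ℝ) : ℂ)⁻¹ • D.N (x n) := by
      intro n
      have h1 : L n = ((‖x n - v0‖ : ℝ) : ℂ)⁻¹ • (gr D.Q (x n) - gr D.Q v0) -
          ∑ j, β j • (((‖x n - v0‖ : ℝ) : ℂ)⁻¹ • (gr (D.R j) (x n) - gr (D.R j) v0)) := by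
        rw [gr_dd (d := D.b) hAQ]
        simp only [gr_dd (d := D.d _) (hAR _)]
        rfl
      have h2 : L n = ((‖x n - v0‖ : ℝ) : ℂ)⁻¹ • (gr D.Q (x n) +
          -((D.b * c0) • gr D.P v0 + ∑ j, β j • gr (D.R j) (x n))) := by
        rw [h1, hβ]
        simp only [smul_sub, smul_add, smul_neg, Finset.smul_sum, Finset.sum_sub_distrib]
        have h3 : ∀ j, β j • ((‖x n - v0‖ : ℝ) : ℂ)⁻¹ • gr (D.R j) (x n) =
            ((‖x n - v0‖ : ℝ) : ℂ)⁻¹ • β j • gr (D.R j) (x n) := fun j => smul_comm _ _ _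
        have h4 : ∀ j, β j • ((‖x n - v0‖ : ℝ) : ℂ)⁻¹ • gr (D.R j) v0 =
            ((‖x n - v0‖ : ℝ) : ℂ)⁻¹ • β j • gr (D.R j) v0 := fun j => smul_comm _ _ _
        simp only [h3, h4]
        abel
      rw [h2, G2_smul, G2_add, G2_span (c := -((D.b * c0) • gr D.P v0 +
        ∑ j, β j • gr (D.R j) (x n))), add_zero, D.N_eq, lin_gr hP1 (x n) v0]
      refine Submodule.neg_mem _ (Submodule.add_mem _ (Submodule.smul_mem _ _
        (Submodule.subset_span ⟨0, rfl⟩)) (Submodule.sum_mem _ fun j _ =>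
          Submodule.smul_mem _ _ (Submodule.subset_span ⟨j.succ, rfl⟩)))
    have hG : G2 (gr D.P v0) (hs D.Q v0 w - ∑ j, β j • hs (D.R j) v0 w)
        (fun j => gr (D.R j) v0) = 0 := by
      have h1 : Tendsto (fun n => G2 (gr D.P v0) (L (φ n)) (fun j => gr (D.R j) (x (φ n)))) atTop
          (𝓝 (G2 (gr D.P v0) (hs D.Q v0 w - ∑ j, β j • hs (D.R j) v0 w)
            (fun j => gr (D.R j) v0))) := by
        refine (gcp_cont.tendsto _).comp ?_
        rw [tendsto_pi_nhds]
        intro i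
        refine Fin.cases ?_ (fun i => ?_) i
        · exact tendsto_const_nhds
        · refine Fin.cases ?_ (fun i => ?_) i
          · exact hLlim
          · exact ((D.hRR i).gr_cont.tendsto v0).comp hxl
      have h3 : ∀ n, ‖G2 (gr D.P v0) (L n) (fun j => gr (D.R j) (x n))‖ ≤ 1 / ((n : ℝ) + 1) := by
        intro n
        rw [hLn, norm_smul, norm_inv, Complex.norm_real, norm_norm, inv_mul_le_iff₀ (hne n),
          mul_comm]
        exact (Nx n).le
      rw [← norm_le_zero_iff]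
      exact le_of_tendsto_of_tendsto h1.norm h0 (Eventually.of_forall fun n => h3 (φ n))
    have hspan := span_of_G2 (D.indep_PR on0 (by rw [Pv0]; exact one_ne_zero)) hG
    have h7 := nondeg hQK hPK hRK ha on0 Pv0 hβ hPw hRw hspan
    rw [h7, norm_zero] at hw1
    exact zero_ne_one hw1
  · push Not at hcrit
    set K' : Set (VV s) := closedBall 0 M ∩ {v | D.on v ∧ D.p v = 1 ∧ D.q v = c0} with hK
    have hKc : IsCompact K' := by
      refine (isCompact_closedBall _ _).inter_right ?_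
      exact D.isClosed_on.inter ((isClosed_eq D.p_cont continuous_const).inter
        (isClosed_eq D.q_cont continuous_const))
    rcases K'.eq_empty_or_nonempty with hE | hE
    · refine ⟨0, 1, one_pos, fun v h0 h1 h2 h3 => ?_⟩
      exfalso
      have : v ∈ K' := ⟨mem_closedBall_zero_iff.2 h3, h0, h1, h2⟩
      rw [hE] at this
      exact this
    · obtain ⟨v1, hv1, hmin⟩ := hKc.exists_isMinOn hE D.N_cont.norm.continuousOn
      have hpos : 0 < ‖D.N v1‖ := norm_pos_iff.2 (hcrit v1 hv1.2.1 hv1.2.2.1 hv1.2.2.2)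
      have hM0 : 0 ≤ M := (norm_nonneg v1).trans (mem_closedBall_zero_iff.1 hv1.1)
      refine ⟨0, ‖D.N v1‖ / (M + 1), by positivity, fun v h0 h1 h2 h3 => ?_⟩
      have h4 : ‖D.N v1‖ ≤ ‖D.N v‖ := hmin ⟨mem_closedBall_zero_iff.2 h3, h0, h1, h2⟩
      rw [sub_zero]
      calc ‖D.N v1‖ / (M + 1) * ‖v‖ ≤ ‖D.N v1‖ / (M + 1) * (M + 1) := by
            refine mul_le_mul_of_nonneg_left (by linarith) (by positivity)
        _ = ‖D.N v1‖ := by field_simp
        _ ≤ ‖D.N v‖ := h4

/-- curves of bounded speed in the fibres are constant -/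
theorem fib_constN (hQK : Gen K D.b D.Q) (hPK : CoeffIn K D.P) (hRK : ∀ i, CoeffIn K (D.R i))
    (ha : D.a = 1) (hk : 2 ≤ D.k) {B : ℝ}
    {V : ℂ → VV s} {c0 : ℂ} (hV : Differentiable ℂ V)
    (hon : ∀ z, D.on (V z)) (hp : ∀ z, D.p (V z) = 1) (hc0 : c0 ≠ 0)
    (hq : ∀ z, D.q (V z) = c0) (hVB : Bro B V) : ∀ z, deriv V z = 0 := by
  have hne : ∀ z, V z ≠ 0 := fun z => D.p_eq_one_ne (hp z)
  have hB0 : 0 ≤ B := hVB.nonneg (hne 0)
  obtain ⟨C, hC, hld⟩ := D.lda hB0
  have hvl : ∀ z, ‖deriv V z‖ ≤ C * ‖V z‖ := hld 0 (Complex.log c0) V (by simp) hV hon hp (fun z => by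
    rw [hq, zero_mul, zero_add, Complex.exp_log hc0]) hVB
  obtain ⟨c, hc, hN⟩ := D.N_lower
  set M : ℝ := max 1 (‖c0‖ / c + 1) with hM
  have hM1 : 1 ≤ M := le_max_left _ _
  obtain ⟨v0, c', hc', hnear⟩ := nearN hQK hPK hRK ha c0 M
  have hV' : Differentiable ℂ (deriv V) := fun z => hV.deriv z
  -- the bounds
  set C1 : ℝ := max ((1 + ‖v0‖) ^ 2 * C / c) ((M + ‖v0‖ + 1) * (C * M / c')) with hC1
  have hC10 : 0 ≤ C1 := le_trans (by positivity) (le_max_left _ _)
  have hbd : ∀ z, ‖V z - v0‖ * ‖deriv V z‖ ≤ C1 * ‖D.N (V z)‖ ∧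
      ‖V z - v0‖ ^ 2 * ‖deriv V z‖ ≤ C1 * ‖D.N (V z)‖ := by
    intro z
    rcases le_or_gt M ‖V z‖ with hz | hz
    · have hv1 : 1 ≤ ‖V z‖ := hM1.trans hz
      have hNl : c * ‖V z‖ ^ (D.k + 1) ≤ ‖D.N (V z)‖ := by
        rcases hN (V z) (hne z) (hon z) with h | h
        · exact h
        · exfalso
          rw [hp, hq, norm_one, one_mul] at h
          have h1 : ‖V z‖ ≤ ‖V z‖ ^ (D.a + D.b) := le_self_pow₀ hv1 (by have := D.ha; omega)
          have h2 : ‖c0‖ / c + 1 ≤ ‖V z‖ := (le_max_right _ _).trans hz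
          have h3 : c * (‖c0‖ / c + 1) ≤ c * ‖V z‖ ^ (D.a + D.b) :=
            mul_le_mul_of_nonneg_left (h2.trans h1) hc.le
          have h4 : c * (‖c0‖ / c + 1) = ‖c0‖ + c := by field_simp
          linarith
      have hW : ‖V z - v0‖ ≤ (1 + ‖v0‖) * ‖V z‖ := by
        refine (norm_sub_le _ _).trans ?_
        have : ‖v0‖ * 1 ≤ ‖v0‖ * ‖V z‖ := mul_le_mul_of_nonneg_left hv1 (norm_nonneg _)
        linarith
      have h3 : ‖V z‖ ^ 3 ≤ ‖V z‖ ^ (D.k + 1) := pow_le_pow_right₀ hv1 (by omega)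
      have h5 : c * ‖V z‖ ^ 3 ≤ ‖D.N (V z)‖ := (mul_le_mul_of_nonneg_left h3 hc.le).trans hNl
      have h4 : ‖V z - v0‖ ^ 2 * ‖deriv V z‖ ≤ C1 * ‖D.N (V z)‖ := by
        calc ‖V z - v0‖ ^ 2 * ‖deriv V z‖ ≤ ((1 + ‖v0‖) * ‖V z‖) ^ 2 * (C * ‖V z‖) := by
              refine mul_le_mul (pow_le_pow_left₀ (norm_nonneg _) hW 2) (hvl z) (norm_nonneg _)
                (by positivity)
          _ = ((1 + ‖v0‖) ^ 2 * C / c) * (c * ‖V z‖ ^ 3) := by field_simp
          _ ≤ C1 * ‖D.N (V z)‖ := mul_le_mul (le_max_left _ _) h5 (by positivity) hC10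
      refine ⟨?_, h4⟩
      calc ‖V z - v0‖ * ‖deriv V z‖ ≤ ((1 + ‖v0‖) * ‖V z‖) * (C * ‖V z‖) :=
            mul_le_mul hW (hvl z) (norm_nonneg _) (by positivity)
        _ ≤ ((1 + ‖v0‖) * ‖V z‖) * (C * ‖V z‖) * ((1 + ‖v0‖) * ‖V z‖) := by
            refine le_mul_of_one_le_right (by positivity) ?_
            have : 0 ≤ ‖v0‖ := norm_nonneg _
            nlinarith
        _ = ((1 + ‖v0‖) ^ 2 * C / c) * (c * ‖V z‖ ^ 3) := by field_simp
        _ ≤ C1 * ‖D.N (V z)‖ := mul_le_mul (le_max_left _ _) h5 (by positivity) hC10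
    · have h1 := hnear (V z) (hon z) (hp z) (hq z) hz.le
      have h2 : ‖V z - v0‖ ≤ ‖D.N (V z)‖ / c' := by
        rw [le_div_iff₀ hc', mul_comm]
        exact h1
      have h3 : ‖deriv V z‖ ≤ C * M := (hvl z).trans (mul_le_mul_of_nonneg_left hz.le hC.le)
      have h4 : ‖V z - v0‖ ≤ M + ‖v0‖ := (norm_sub_le _ _).trans (add_le_add hz.le le_rfl)
      have h6 : ‖V z - v0‖ * ‖deriv V z‖ ≤ C * M / c' * ‖D.N (V z)‖ := by
        calc ‖V z - v0‖ * ‖deriv V z‖ ≤ (‖D.N (V z)‖ / c') * (C * M) :=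
              mul_le_mul h2 h3 (norm_nonneg _) (by positivity)
          _ = _ := by ring
      have hq0 : 0 ≤ C * M / c' * ‖D.N (V z)‖ := by positivity
      have h7 : C * M / c' * ‖D.N (V z)‖ ≤ C1 * ‖D.N (V z)‖ := by
        refine mul_le_mul_of_nonneg_right ?_ (norm_nonneg _)
        refine le_trans ?_ (le_max_right _ _)
        refine le_mul_of_one_le_left (by positivity) ?_
        have : 0 ≤ ‖v0‖ := norm_nonneg _
        linarith
      refine ⟨h6.trans h7, ?_⟩
      calc ‖V z - v0‖ ^ 2 * ‖deriv V z‖ = ‖V z - v0‖ * (‖V z - v0‖ * ‖deriv V z‖) := by ring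
        _ ≤ (M + ‖v0‖) * (C * M / c' * ‖D.N (V z)‖) :=
            mul_le_mul h4 h6 (by positivity) (by positivity)
        _ ≤ (M + ‖v0‖ + 1) * (C * M / c' * ‖D.N (V z)‖) := by
            refine mul_le_mul_of_nonneg_right (by linarith) hq0
        _ = ((M + ‖v0‖ + 1) * (C * M / c')) * ‖D.N (V z)‖ := by ring
        _ ≤ C1 * ‖D.N (V z)‖ :=
            mul_le_mul_of_nonneg_right (le_max_right _ _) (norm_nonneg _)
  -- comparison of components
  have hcomp : ∀ z j (s : ℝ), 0 ≤ s → s * ‖deriv V z‖ ≤ C1 * ‖D.N (V z)‖ →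
      s * ‖deriv V z j‖ ≤ C1 * ‖D.N (V z) j‖ := by
    intro z j s hs hsz
    have o1 : dt (gr D.P (V z)) (deriv V z) = 0 := D.orth_p hV hp z
    have o2 : dt (gr D.Q (V z)) (deriv V z) = 0 := D.orth_q hV hq z
    have hpar : cr (deriv V z) (D.N (V z)) = 0 := D.par_N o1 o2 fun i => D.orth_R hV hon i z
    by_cases hN0 : D.N (V z) = 0
    · rw [hN0, norm_zero, mul_zero] at hsz
      have h1 : s * ‖deriv V z j‖ ≤ s * ‖deriv V z‖ := mul_le_mul_of_nonneg_left (le3 _ j) hs
      have h2 : 0 ≤ C1 * ‖D.N (V z) j‖ := by positivity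
      linarith
    · obtain ⟨i, hi⟩ := exists_comp hN0
      have h5 := parallel hpar hi
      set l : ℂ := deriv V z i / D.N (V z) i with hl
      have hn : 0 < ‖D.N (V z)‖ := norm_pos_iff.2 hN0
      rw [h5, norm_smul] at hsz
      have h6 : s * ‖l‖ ≤ C1 := by
        have : (s * ‖l‖) * ‖D.N (V z)‖ ≤ C1 * ‖D.N (V z)‖ := by linarith
        exact le_of_mul_le_mul_right this hn
      have h7 : deriv V z j = l * D.N (V z) j := congrFun h5 j
      rw [h7, norm_mul, ← mul_assoc]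
      exact mul_le_mul_of_nonneg_right h6 (norm_nonneg _)
  have hNd : Differentiable ℂ (fun z => D.N (V z)) := by
    have h1 : (fun z => D.N (V z)) = (fun p : VV s × VV s => D.NN p.1 p.2) ∘ (fun z => (V z, V z)) := by
      funext z
      exact (D.NN_diag _).symm
    rw [h1]
    exact D.NN_dif.comp (hV.prodMk hV)
  have hNj : ∀ j, Differentiable ℂ (fun z => D.N (V z) j) := fun j => differentiable_pi.1 hNd j
  have hVj : ∀ j, Differentiable ℂ (fun z => V z j) := fun j => differentiable_pi.1 hV j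
  have hV'j : ∀ j, Differentiable ℂ (fun z => deriv V z j) := fun j => differentiable_pi.1 hV' j
  have hf1 : ∀ i j, ∃ κ : ℂ, ∀ z, (V z i - v0 i) * deriv V z j = κ * D.N (V z) j := by
    intro i j
    refine entire_ratio (C := C1) (((hVj i).sub_const _).mul (hV'j j)) (hNj j) fun z => ?_
    rw [norm_mul]
    refine le_trans ?_ (hcomp z j _ (norm_nonneg _) (hbd z).1)
    exact mul_le_mul_of_nonneg_right (le3 (V z - v0) i) (norm_nonneg _)
  have hf2 : ∀ i m j, ∃ κ : ℂ, ∀ z, (V z i - v0 i) * (V z m - v0 m) * deriv V z j =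
      κ * D.N (V z) j := by
    intro i m j
    refine entire_ratio (C := C1) ((((hVj i).sub_const _).mul ((hVj m).sub_const _)).mul (hV'j j))
      (hNj j) fun z => ?_
    rw [norm_mul, norm_mul]
    refine le_trans ?_ (hcomp z j _ (sq_nonneg _) (hbd z).2)
    refine mul_le_mul_of_nonneg_right ?_ (norm_nonneg _)
    rw [sq]
    exact mul_le_mul (le3 (V z - v0) i) (le3 (V z - v0) m) (norm_nonneg _) (norm_nonneg _)
  -- conclusion
  by_contra hcon
  push Not at hcon
  obtain ⟨z1, hz1⟩ := hcon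
  obtain ⟨j, hj⟩ := exists_comp hz1
  obtain ⟨z2, hz2, hz2'⟩ : ∃ z2, deriv V z2 j ≠ 0 ∧ V z2 - v0 ≠ 0 := by
    by_contra hno
    push Not at hno
    have h1 : ∀ᶠ z in 𝓝 z1, deriv V z j ≠ 0 := (hV'j j).continuous.continuousAt.eventually_ne hj
    have h2 : V =ᶠ[𝓝 z1] fun _ => v0 := by
      filter_upwards [h1] with z hz
      exact sub_eq_zero.1 (hno z hz)
    have h3 : deriv V z1 = 0 := by
      rw [h2.deriv_eq, deriv_const]
    exact hz1 h3
  obtain ⟨i, hi⟩ := exists_comp hz2'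
  obtain ⟨κ, hκ⟩ := hf1 i j
  have hg2 : κ * D.N (V z2) j ≠ 0 := by
    rw [← hκ]
    exact mul_ne_zero hi hz2
  have hκ0 : κ ≠ 0 := left_ne_zero_of_mul hg2
  have hg0 : D.N (V z2) j ≠ 0 := right_ne_zero_of_mul hg2
  have hU : ∀ᶠ z in 𝓝 z2, D.N (V z) j ≠ 0 := (hNj j).continuous.continuousAt.eventually_ne hg0
  have hconst : ∀ m, ∃ s : ℂ, ∀ z, D.N (V z) j ≠ 0 → V z m = s := by
    intro m
    obtain ⟨κ', hκ'⟩ := hf2 i m j
    refine ⟨v0 m + κ' / κ, fun z hz => ?_⟩
    have h1 := hκ z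
    have h2 := hκ' z
    have h3 : κ * (V z m - v0 m) * D.N (V z) j = κ' * D.N (V z) j := by
      rw [← h2]
      linear_combination (-(V z m - v0 m)) * h1
    have h4 := mul_right_cancel₀ hz h3
    field_simp
    linear_combination h4
  choose s hs using hconst
  have h2 : V =ᶠ[𝓝 z2] fun _ => s := by
    filter_upwards [hU] with z hz
    funext m
    exact hs m z hz
  have h3 : deriv V z2 = 0 := by
    rw [h2.deriv_eq, deriv_const]
  exact hz2 (congrFun h3 j)

end Pair

/-- the fibres of the pencil spanned by a multiple hyperplane section and a very general section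
contain no nonconstant curve of bounded speed -/
theorem fibresRigid {K : Subfield ℂ} {R : Fin s → PP s} {P Q : PP s} {d : Fin s → ℕ} {b : ℕ}
    (hb : 1 ≤ b) (hab : s + 5 ≤ 1 + b + ∑ i, d i) (h : SmoothPair R P Q d 1 b)
    (hQK : Gen K b Q) (hPK : CoeffIn K P) (hRK : ∀ i, CoeffIn K (R i)) :
    FibresRigid R P Q 1 b := by
  intro f hf hfB hfc
  set D : Pair s := h.toPair le_rfl hb (by omega) with hD
  obtain ⟨c, hc, hfc⟩ := hfc
  obtain ⟨B, hB⟩ := hfB.bro
  have hPd : Differentiable ℂ (fun z => MvPolynomial.eval (f z) P) := fun z =>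
    (D.hA.hasDerivAt (hf.entire z).hasDerivAt).differentiableAt
  set e : ℂ → ℂ := fun z => (MvPolynomial.eval (f z) P)⁻¹ with he
  have hed : Differentiable ℂ e := fun z => (hPd z).inv (hf.offP z)
  have he0 : ∀ z, e z ≠ 0 := fun z => inv_ne_zero (hf.offP z)
  set V : ℂ → VV s := fun z => e z • f z with hV
  have hVd : Differentiable ℂ V := hed.smul hf.entire
  have hVB : Bro B V := hB.smul hf.entire hed
  have hVon : ∀ z, D.on (V z) := fun z => D.on_smul (hf.on z)
  have hVp : ∀ z, D.p (V z) = 1 := by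
    intro z
    rw [hV]
    simp only
    rw [D.p_smul]
    show e z ^ 1 * MvPolynomial.eval (f z) P = 1
    rw [pow_one, he]
    exact inv_mul_cancel₀ (hf.offP z)
  have hVq : ∀ z, D.q (V z) = c := by
    intro z
    rw [hV]
    simp only
    rw [D.q_smul]
    show e z ^ b * MvPolynomial.eval (f z) Q = c
    have h1 := hfc z
    rw [pow_one] at h1
    rw [h1, he]
    simp only
    have h2 : (MvPolynomial.eval (f z) P) ^ b ≠ 0 := pow_ne_zero _ (hf.offP z)
    rw [inv_pow, mul_left_comm, inv_mul_cancel₀ h2, mul_one]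
  have hk : 2 ≤ D.k := by
    show 2 ≤ 1 + b + ∑ i, d i - (s + 3)
    omega
  have h0 := Pair.fib_constN (D := D) hQK hPK hRK rfl hk hVd hVon hVp hc hVq hVB
  have hcst : ∀ z, V z = V 0 := fun z => is_const_of_deriv_eq_zero hVd h0 z 0
  rintro ⟨z, w, i, j, hne⟩
  apply hne
  have h1 : ∀ z i, e z * f z i = V 0 i := fun z i => congrFun (hcst z) i
  have h2 : (e z * e w) * (f z i * f w j) = (e z * e w) * (f z j * f w i) := by
    have a1 := h1 z i
    have a2 := h1 w j
    have a3 := h1 z j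
    have a4 := h1 w i
    calc (e z * e w) * (f z i * f w j) = (e z * f z i) * (e w * f w j) := by ring
      _ = (e z * f z j) * (e w * f w i) := by rw [a1, a2, a3, a4, mul_comm]
      _ = _ := by ring
  exact mul_left_cancel₀ (mul_ne_zero (he0 z) (he0 w)) h2

end Pool.Agent.K9h84.CI
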