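import Pool.Agent.K9h84.CI.Hrn

/-!
# Limits of curves of bounded speed on growing discs
-/

set_option autoImplicit false

open Set Filter Topology Metric

namespace Pool.Agent.K9h84.CI

variable {s : ℕ}

theorem exists_ulim' {E : Type*} [NormedAddCommGroup E] [ProperSpace E] {x : ℕ → E} {K : ℝ}
    (h : ∀ᶠ n in (UU : Filter ℕ), ‖x n‖ ≤ K) : ∃ y : E, Tendsto x UU (𝓝 y) := by
  classical
  obtain ⟨y, -, hy⟩ := exists_ulim (x := fun n => if ‖x n‖ ≤ K then x n else 0) (K := max K 0)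
    (fun n => by
      by_cases hn : ‖x n‖ ≤ K
      · rw [if_pos hn]
        exact hn.trans (le_max_left _ _)
      · rw [if_neg hn, norm_zero]
        exact le_max_right _ _)
  refine ⟨y, hy.congr' ?_⟩
  filter_upwards [h] with n hn
  rw [if_pos hn]

theorem UU_large (m : ℕ) : ∀ᶠ n in (UU : Filter ℕ), m ≤ n := UU_le (eventually_ge_atTop m)

/-- alternative along the ultrafilter -/
theorem not_bdd {x : ℕ → ℝ} (h : ¬ ∃ K : ℝ, ∀ᶠ n in (UU : Filter ℕ), x n ≤ K) (K : ℝ) :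
    ∀ᶠ n in (UU : Filter ℕ), K < x n := by
  by_contra hcon
  apply h
  refine ⟨K, ?_⟩
  have h1 := Ultrafilter.eventually_not.2 hcon
  filter_upwards [h1] with n hn
  exact not_lt.1 hn

namespace Pair

variable (D : Pair s)

/-- limit when the normalised vectors are bounded at the origin -/
theorem lim_bdd {B : ℝ} (hB : 0 ≤ B) {v : ℕ → ℂ → VV s}
    (hv : ∀ n : ℕ, DifferentiableOn ℂ (v n) (ball 0 ((n : ℝ) + 1)))
    (hp : ∀ n : ℕ, ∀ z ∈ ball (0 : ℂ) ((n : ℝ) + 1), D.p (v n z) = 1)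
    (hsv : ∀ n : ℕ, ∀ z ∈ ball (0 : ℂ) ((n : ℝ) + 1),
      ‖cr (v n z) (deriv (v n) z)‖ ≤ B * ‖v n z‖ ^ 2)
    (hon : ∀ n : ℕ, ∀ z ∈ ball (0 : ℂ) ((n : ℝ) + 1), D.on (v n z))
    {K : ℝ} (hb : ∀ᶠ n in (UU : Filter ℕ), ‖v n 0‖ ≤ K) :
    ∃ V : ℂ → VV s, Differentiable ℂ V ∧ (∀ z, Tendsto (fun n => v n z) UU (𝓝 (V z))) ∧
      (∀ z, Tendsto (fun n => deriv (v n) z) UU (𝓝 (deriv V z))) ∧ (∀ z, D.p (V z) = 1) ∧
      Bro B V ∧ ∀ z, D.on (V z) := by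
  obtain ⟨c, hc, hlow, hch⟩ := D.chain hB
  have hin : ∀ R : ℝ, ∀ᶠ n : ℕ in (UU : Filter ℕ), ball (0 : ℂ) R ⊆ ball (0 : ℂ) ((n : ℝ) + 1) := by
    intro R
    filter_upwards [UU_large ⌈R⌉₊] with n hn
    refine ball_subset_ball ?_
    have h1 := Nat.le_ceil R
    have h2 : (⌈R⌉₊ : ℝ) ≤ n := by exact_mod_cast hn
    linarith
  have hbd : ∀ R : ℝ, 0 ≤ R → ∃ K' : ℝ, ∀ᶠ n in (UU : Filter ℕ), ∀ z : ℂ, ‖z‖ ≤ R → ‖v n z‖ ≤ K' := by
    intro R hR
    obtain ⟨L, hL, hLR⟩ := hch R hR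
    refine ⟨c * Real.exp (L * Real.log (K / c)), ?_⟩
    filter_upwards [hb, hin (R + 1)] with n hn hsub z hz
    have h0 : (0 : ℂ) ∈ ball (0 : ℂ) (R + 1) := mem_ball_self (by linarith)
    have hz' : z ∈ ball (0 : ℂ) (R + 1) := by
      rw [mem_ball_zero_iff]
      linarith
    have h1 := (hLR (v n) ((hv n).mono hsub) (fun w hw => hp n w (hsub hw))
      (fun w hw => hsv n w (hsub hw)) z hz).1
    have hvz := hlow _ (hp n z (hsub hz'))
    have hv0 := hlow _ (hp n 0 (hsub h0))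
    have h2 : Real.log (‖v n 0‖ / c) ≤ Real.log (K / c) := by
      refine Real.log_le_log ?_ (div_le_div_of_nonneg_right hn hc.le)
      exact div_pos (by linarith) hc
    have h3 : Real.log (‖v n z‖ / c) ≤ L * Real.log (K / c) :=
      h1.trans (mul_le_mul_of_nonneg_left h2 (by linarith))
    have h4 : 0 < ‖v n z‖ / c := div_pos (by linarith) hc
    rw [Real.log_le_iff_le_exp h4, div_le_iff₀ hc] at h3
    linarith
  have hpt : ∀ z : ℂ, ∃ y : VV s, Tendsto (fun n => v n z) UU (𝓝 y) := by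
    intro z
    obtain ⟨K', hK'⟩ := hbd ‖z‖ (norm_nonneg _)
    exact exists_ulim' (hK'.mono fun n hn => hn z le_rfl)
  choose V hV using hpt
  have hloc : ∀ x : ℂ, DifferentiableOn ℂ V (ball x 1) ∧
      ∀ z ∈ ball x 1, Tendsto (fun n => deriv (v n) z) UU (𝓝 (deriv V z)) := by
    intro x
    obtain ⟨K', hK'⟩ := hbd (‖x‖ + 1) (by positivity)
    have hxb : ball x 1 ⊆ ball (0 : ℂ) (‖x‖ + 1 + 1) := by
      refine ball_subset_ball' ?_
      rw [dist_zero_right]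
      linarith
    refine montel_ball (K := K') ?_ (fun z _ => hV z)
    filter_upwards [hK', hin (‖x‖ + 1 + 1)] with n hn hsub
    refine ⟨(hv n).mono (hxb.trans hsub), fun z hz => hn z ?_⟩
    have h1 := norm_sub_norm_le z x
    have h2 : ‖z - x‖ < 1 := by rw [← dist_eq_norm]; exact hz
    linarith
  have hVd : Differentiable ℂ V := fun x =>
    (hloc x).1.differentiableAt (isOpen_ball.mem_nhds (mem_ball_self one_pos))
  have hV' : ∀ z, Tendsto (fun n => deriv (v n) z) UU (𝓝 (deriv V z)) := fun z =>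
    (hloc z).2 z (mem_ball_self one_pos)
  have hzin : ∀ z : ℂ, ∀ᶠ n : ℕ in (UU : Filter ℕ), z ∈ ball (0 : ℂ) ((n : ℝ) + 1) := by
    intro z
    filter_upwards [hin (‖z‖ + 1)] with n hn
    exact hn (by rw [mem_ball_zero_iff]; linarith)
  refine ⟨V, hVd, hV, hV', fun z => ?_, fun z => ?_, fun z => ?_⟩
  · have h1 : Tendsto (fun n => D.p (v n z)) UU (𝓝 (D.p (V z))) :=
      (D.p_cont.tendsto _).comp (hV z)
    have h2 : Tendsto (fun n => D.p (v n z)) UU (𝓝 1) := by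
      refine (tendsto_const_nhds (x := (1 : ℂ))).congr' ?_
      filter_upwards [hzin z] with n hn
      exact (hp n z hn).symm
    exact tendsto_nhds_unique h1 h2
  · have h1 : Tendsto (fun n => ‖cr (v n z) (deriv (v n) z)‖) UU (𝓝 ‖cr (V z) (deriv V z)‖) := by
      have h2 : Tendsto (fun n => ((v n z, deriv (v n) z) : VV s × VV s)) UU
          (𝓝 (V z, deriv V z)) := (hV z).prodMk_nhds (hV' z)
      exact ((cr_cont.tendsto _).comp h2).norm
    have h3 : Tendsto (fun n => B * ‖v n z‖ ^ 2) UU (𝓝 (B * ‖V z‖ ^ 2)) :=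
      ((hV z).norm.pow 2).const_mul B
    refine le_of_tendsto_of_tendsto h1 h3 ?_
    filter_upwards [hzin z] with n hn
    exact hsv n z hn
  · refine D.isClosed_on.mem_of_tendsto (hV z) ?_
    filter_upwards [hzin z] with n hn
    exact hon n z hn

/-- sizes of the two normalisations -/
theorem size_rel {v w : VV s} {e : ℂ} (hw : w = e • v) (hqw : D.q w = 1) :
    ‖w‖ ^ D.b * ‖D.q v‖ = ‖v‖ ^ D.b := by
  have h1 : ‖e‖ ^ D.b * ‖D.q v‖ = 1 := by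
    rw [hw, D.q_smul] at hqw
    have := congrArg norm hqw
    rwa [norm_mul, norm_pow, norm_one] at this
  rw [hw, norm_smul, mul_pow]
  calc ‖e‖ ^ D.b * ‖v‖ ^ D.b * ‖D.q v‖ = (‖e‖ ^ D.b * ‖D.q v‖) * ‖v‖ ^ D.b := by ring
    _ = _ := by rw [h1, one_mul]

/-- if the second form does not vanish at some point of the limit, the other normalisation is
bounded, and the second form vanishes nowhere on the limit -/
theorem other_bdd {B : ℝ} (hB : 0 ≤ B) {v w : ℕ → ℂ → VV s} {e : ℕ → ℂ → ℂ}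
    (hw : ∀ n : ℕ, DifferentiableOn ℂ (w n) (ball 0 ((n : ℝ) + 1)))
    (hp : ∀ n : ℕ, ∀ z ∈ ball (0 : ℂ) ((n : ℝ) + 1), D.p (v n z) = 1)
    (hq : ∀ n : ℕ, ∀ z ∈ ball (0 : ℂ) ((n : ℝ) + 1), D.q (w n z) = 1)
    (hvw : ∀ n : ℕ, ∀ z ∈ ball (0 : ℂ) ((n : ℝ) + 1), w n z = e n z • v n z)
    (hsv' : ∀ n : ℕ, ∀ z ∈ ball (0 : ℂ) ((n : ℝ) + 1),
      ‖cr (w n z) (deriv (w n) z)‖ ≤ B * ‖w n z‖ ^ 2)
    {V : ℂ → VV s} (hV : ∀ z, Tendsto (fun n => v n z) UU (𝓝 (V z))) {z1 : ℂ}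
    (hz1 : D.q (V z1) ≠ 0) :
    (∃ K : ℝ, ∀ᶠ n in (UU : Filter ℕ), ‖w n 0‖ ≤ K) ∧ ∀ z, D.q (V z) ≠ 0 := by
  obtain ⟨c, hc, hlow, hch⟩ := D.swap.chain hB
  have hbpos : D.b ≠ 0 := by have := D.hb; omega
  have hin : ∀ R : ℝ, ∀ᶠ n : ℕ in (UU : Filter ℕ), ball (0 : ℂ) R ⊆ ball (0 : ℂ) ((n : ℝ) + 1) := by
    intro R
    filter_upwards [UU_large ⌈R⌉₊] with n hn
    refine ball_subset_ball ?_
    have h1 := Nat.le_ceil R
    have h2 : (⌈R⌉₊ : ℝ) ≤ n := by exact_mod_cast hn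
    linarith
  have hzin : ∀ z : ℂ, ∀ᶠ n : ℕ in (UU : Filter ℕ), z ∈ ball (0 : ℂ) ((n : ℝ) + 1) := by
    intro z
    filter_upwards [hin (‖z‖ + 1)] with n hn
    exact hn (by rw [mem_ball_zero_iff]; linarith)
  -- bound at the given point
  have h1 : ∃ K1 : ℝ, ∀ᶠ n in (UU : Filter ℕ), ‖w n z1‖ ≤ K1 := by
    have hqt : Tendsto (fun n => ‖D.q (v n z1)‖) UU (𝓝 ‖D.q (V z1)‖) :=
      ((D.q_cont.tendsto _).comp (hV z1)).norm
    have hqp : 0 < ‖D.q (V z1)‖ := norm_pos_iff.2 hz1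
    have e1 : ∀ᶠ n in (UU : Filter ℕ), ‖D.q (V z1)‖ / 2 < ‖D.q (v n z1)‖ :=
      hqt.eventually (lt_mem_nhds (by linarith))
    have e2 : ∀ᶠ n in (UU : Filter ℕ), ‖v n z1‖ < ‖V z1‖ + 1 :=
      (hV z1).norm.eventually (gt_mem_nhds (by linarith))
    set M : ℝ := (‖V z1‖ + 1) ^ D.b / (‖D.q (V z1)‖ / 2) with hM
    refine ⟨max 1 M, ?_⟩
    filter_upwards [e1, e2, hzin z1] with n h1 h2 h3
    have h4 := D.size_rel (hvw n z1 h3) (hq n z1 h3)
    rcases le_or_gt ‖w n z1‖ 1 with h5 | h5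
    · exact h5.trans (le_max_left _ _)
    · refine le_trans ?_ (le_max_right _ _)
      have h6 : ‖w n z1‖ ≤ ‖w n z1‖ ^ D.b := le_self_pow₀ h5.le hbpos
      rw [hM, le_div_iff₀ (by positivity)]
      have h7 : ‖v n z1‖ ^ D.b ≤ (‖V z1‖ + 1) ^ D.b := pow_le_pow_left₀ (norm_nonneg _) h2.le _
      calc ‖w n z1‖ * (‖D.q (V z1)‖ / 2) ≤ ‖w n z1‖ ^ D.b * ‖D.q (v n z1)‖ :=
            mul_le_mul h6 h1.le (by positivity) (by positivity)
        _ = ‖v n z1‖ ^ D.b := h4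
        _ ≤ _ := h7
  obtain ⟨K1, hK1⟩ := h1
  have h2 : ∃ K : ℝ, ∀ᶠ n in (UU : Filter ℕ), ‖w n 0‖ ≤ K := by
    obtain ⟨L, hL, hLR⟩ := hch ‖z1‖ (norm_nonneg _)
    refine ⟨c * Real.exp (L * Real.log (K1 / c)), ?_⟩
    filter_upwards [hK1, hin (‖z1‖ + 1)] with n hn hsub
    have hz' : z1 ∈ ball (0 : ℂ) (‖z1‖ + 1) := by
      rw [mem_ball_zero_iff]
      linarith
    have h0 : (0 : ℂ) ∈ ball (0 : ℂ) (‖z1‖ + 1) := mem_ball_self (by positivity)
    have h3 := (hLR (w n) ((hw n).mono hsub) (fun w hw => hq n w (hsub hw))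
      (fun w hw => hsv' n w (hsub hw)) z1 le_rfl).2
    have hwz := hlow _ (hq n z1 (hsub hz'))
    have hw0 := hlow _ (hq n 0 (hsub h0))
    have h4 : Real.log (‖w n z1‖ / c) ≤ Real.log (K1 / c) := by
      refine Real.log_le_log ?_ (div_le_div_of_nonneg_right hn hc.le)
      exact div_pos (by linarith) hc
    have h5 : Real.log (‖w n 0‖ / c) ≤ L * Real.log (K1 / c) :=
      h3.trans (mul_le_mul_of_nonneg_left h4 (by linarith))
    have h6 : 0 < ‖w n 0‖ / c := div_pos (by linarith) hc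
    rw [Real.log_le_iff_le_exp h6, div_le_iff₀ hc] at h5
    linarith
  refine ⟨h2, fun z h0 => ?_⟩
  obtain ⟨K, hK⟩ := h2
  obtain ⟨L, hL, hLR⟩ := hch ‖z‖ (norm_nonneg _)
  obtain ⟨c1, hc1, hlow1⟩ := D.low_of_p one_ne_zero
  set K2 : ℝ := c * Real.exp (L * Real.log (K / c)) with hK2
  have hK2p : 0 < K2 := by positivity
  have hge : ∀ᶠ n in (UU : Filter ℕ), c1 ^ D.b / K2 ^ D.b ≤ ‖D.q (v n z)‖ := by
    filter_upwards [hK, hin (‖z‖ + 1)] with n hn hsub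
    have hz' : z ∈ ball (0 : ℂ) (‖z‖ + 1) := by
      rw [mem_ball_zero_iff]
      linarith
    have h0 : (0 : ℂ) ∈ ball (0 : ℂ) (‖z‖ + 1) := mem_ball_self (by positivity)
    have h3 := (hLR (w n) ((hw n).mono hsub) (fun w hw => hq n w (hsub hw))
      (fun w hw => hsv' n w (hsub hw)) z le_rfl).1
    have hwz := hlow _ (hq n z (hsub hz'))
    have hw0 := hlow _ (hq n 0 (hsub h0))
    have h4 : Real.log (‖w n 0‖ / c) ≤ Real.log (K / c) := by
      refine Real.log_le_log ?_ (div_le_div_of_nonneg_right hn hc.le)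
      exact div_pos (by linarith) hc
    have h5 : Real.log (‖w n z‖ / c) ≤ L * Real.log (K / c) :=
      h3.trans (mul_le_mul_of_nonneg_left h4 (by linarith))
    have h6 : 0 < ‖w n z‖ / c := div_pos (by linarith) hc
    rw [Real.log_le_iff_le_exp h6, div_le_iff₀ hc] at h5
    have h7 : ‖w n z‖ ≤ K2 := by rw [hK2]; linarith
    have h8 := D.size_rel (hvw n z (hsub hz')) (hq n z (hsub hz'))
    have h9 : c1 ^ D.b ≤ ‖v n z‖ ^ D.b :=
      pow_le_pow_left₀ hc1.le (hlow1 _ (hp n z (hsub hz'))) _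
    have h10 : ‖w n z‖ ^ D.b ≤ K2 ^ D.b := pow_le_pow_left₀ (norm_nonneg _) h7 _
    rw [div_le_iff₀ (by positivity)]
    calc c1 ^ D.b ≤ ‖v n z‖ ^ D.b := h9
      _ = ‖w n z‖ ^ D.b * ‖D.q (v n z)‖ := h8.symm
      _ ≤ K2 ^ D.b * ‖D.q (v n z)‖ := by gcongr
      _ = ‖D.q (v n z)‖ * K2 ^ D.b := mul_comm _ _
  have hqt : Tendsto (fun n => ‖D.q (v n z)‖) UU (𝓝 ‖D.q (V z)‖) :=
    ((D.q_cont.tendsto _).comp (hV z)).norm
  have h3 := ge_of_tendsto hqt hge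
  rw [h0, norm_zero] at h3
  have : 0 < c1 ^ D.b / K2 ^ D.b := by positivity
  linarith

end Pair

end Pool.Agent.K9h84.CI
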