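import Pool.Agent.K9h84.CI.Zal

/-!
# Existence of a nonconstant limit curve in the complement
-/

set_option autoImplicit false

open Set Filter Topology Metric

namespace Pool.Agent.K9h84.CI

variable {s : ℕ}

namespace Pair

variable (D : Pair s)

/-- no limit over a crossing point -/
theorem no_cross {B : ℝ} (hB : 0 ≤ B) {v w : ℕ → ℂ → VV s} {e : ℕ → ℂ → ℂ}
    (hv : ∀ n : ℕ, DifferentiableOn ℂ (v n) (ball 0 ((n : ℝ) + 1)))
    (hw : ∀ n : ℕ, DifferentiableOn ℂ (w n) (ball 0 ((n : ℝ) + 1)))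
    (hp : ∀ n : ℕ, ∀ z ∈ ball (0 : ℂ) ((n : ℝ) + 1), D.p (v n z) = 1)
    (hq : ∀ n : ℕ, ∀ z ∈ ball (0 : ℂ) ((n : ℝ) + 1), D.q (w n z) = 1)
    (hvw : ∀ n : ℕ, ∀ z ∈ ball (0 : ℂ) ((n : ℝ) + 1), w n z = e n z • v n z)
    (hsv : ∀ n : ℕ, ∀ z ∈ ball (0 : ℂ) ((n : ℝ) + 1),
      ‖cr (v n z) (deriv (v n) z)‖ ≤ B * ‖v n z‖ ^ 2)
    (hsv' : ∀ n : ℕ, ∀ z ∈ ball (0 : ℂ) ((n : ℝ) + 1),
      ‖cr (w n z) (deriv (w n) z)‖ ≤ B * ‖w n z‖ ^ 2)
    (h0 : ∀ n : ℕ, ‖v n 0‖ ^ 2 ≤ ‖cr (v n 0) (deriv (v n) 0)‖)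
    (hon : ∀ n : ℕ, ∀ z ∈ ball (0 : ℂ) ((n : ℝ) + 1), D.on (v n z))
    (hb1 : ∀ K : ℝ, ∀ᶠ n in (UU : Filter ℕ), K < ‖v n 0‖)
    (hb2 : ∀ K : ℝ, ∀ᶠ n in (UU : Filter ℕ), K < ‖w n 0‖) : False := by
  obtain ⟨r1, c1, hr1, hr11, hc1, hlow1, hloc1⟩ := D.hrn hB
  obtain ⟨r2, c2, hr2, hr21, hc2, hlow2, hloc2⟩ := D.swap.hrn hB
  set r : ℝ := min (min (r1 / 4) (r2 / 4)) (1 / (8 * (B + 1))) with hr
  have hrp : 0 < r := by positivity
  have hr_1 : r ≤ r1 / 4 := (min_le_left _ _).trans (min_le_left _ _)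
  have hr_2 : r ≤ r2 / 4 := (min_le_left _ _).trans (min_le_right _ _)
  have hr_3 : r ≤ 1 / (8 * (B + 1)) := min_le_right _ _
  have hsub1 : ∀ n : ℕ, ball (0 : ℂ) r1 ⊆ ball (0 : ℂ) ((n : ℝ) + 1) := fun n =>
    ball_subset_ball (by have : (0 : ℝ) ≤ n := Nat.cast_nonneg n; linarith)
  have hsub2 : ∀ n : ℕ, ball (0 : ℂ) r2 ⊆ ball (0 : ℂ) ((n : ℝ) + 1) := fun n =>
    ball_subset_ball (by have : (0 : ℝ) ≤ n := Nat.cast_nonneg n; linarith)
  have hsubr : ∀ n : ℕ, ball (0 : ℂ) r ⊆ ball (0 : ℂ) ((n : ℝ) + 1) := fun n =>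
    (ball_subset_ball (by linarith)).trans (hsub1 n)
  have h0b : ∀ n : ℕ, (0 : ℂ) ∈ ball (0 : ℂ) ((n : ℝ) + 1) := fun n =>
    hsubr n (mem_ball_self hrp)
  -- both normalisations are large on the small disc
  have big1 : ∀ K : ℝ, ∀ᶠ n in (UU : Filter ℕ), ∀ z ∈ ball (0 : ℂ) r, K < ‖v n z‖ := by
    intro K
    filter_upwards [hb1 (c1 * Real.exp (5 * Real.log ((|K| + 1) / c1)))] with n hn z hz
    have hz' : dist z 0 ≤ r1 / 4 := (mem_ball.1 hz).le.trans hr_1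
    have h1 := ((hloc1 (v n) 0 ((hv n).mono (hsub1 n)) (fun z hz => hp n z (hsub1 n hz))
      (fun z hz => hsv n z (hsub1 n hz))).1 z hz').2
    have hv0 := hlow1 _ (hp n 0 (h0b n))
    have hvz := hlow1 _ (hp n z (hsubr n hz))
    have h2 : 5 * Real.log ((|K| + 1) / c1) < Real.log (‖v n 0‖ / c1) := by
      rw [Real.lt_log_iff_exp_lt (div_pos (by linarith) hc1), lt_div_iff₀ hc1]
      linarith
    have h3 : Real.log ((|K| + 1) / c1) < Real.log (‖v n z‖ / c1) := by linarith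
    have h4 := (Real.log_lt_log_iff (by positivity) (div_pos (by linarith) hc1)).1 h3
    rw [div_lt_div_iff_of_pos_right hc1] at h4
    have := le_abs_self K
    linarith
  have big2 : ∀ K : ℝ, ∀ᶠ n in (UU : Filter ℕ), ∀ z ∈ ball (0 : ℂ) r, K < ‖w n z‖ := by
    intro K
    filter_upwards [hb2 (c2 * Real.exp (5 * Real.log ((|K| + 1) / c2)))] with n hn z hz
    have hz' : dist z 0 ≤ r2 / 4 := (mem_ball.1 hz).le.trans hr_2
    have h1 := ((hloc2 (w n) 0 ((hw n).mono (hsub2 n)) (fun z hz => hq n z (hsub2 n hz))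
      (fun z hz => hsv' n z (hsub2 n hz))).1 z hz').2
    have hv0 := hlow2 _ (hq n 0 (h0b n))
    have hvz := hlow2 _ (hq n z (hsubr n hz))
    have h2 : 5 * Real.log ((|K| + 1) / c2) < Real.log (‖w n 0‖ / c2) := by
      rw [Real.lt_log_iff_exp_lt (div_pos (by linarith) hc2), lt_div_iff₀ hc2]
      linarith
    have h3 : Real.log ((|K| + 1) / c2) < Real.log (‖w n z‖ / c2) := by linarith
    have h4 := (Real.log_lt_log_iff (by positivity) (div_pos (by linarith) hc2)).1 h3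
    rw [div_lt_div_iff_of_pos_right hc2] at h4
    have := le_abs_self K
    linarith
  have hne : ∀ n : ℕ, ∀ z ∈ ball (0 : ℂ) r, v n z ≠ 0 := fun n z hz =>
    D.p_eq_one_ne (hp n z (hsubr n hz))
  -- a common dominating coordinate
  obtain ⟨j, hj⟩ : ∃ j : Fin (s + 3), ∀ᶠ n in (UU : Filter ℕ), ‖v n 0 j‖ = ‖v n 0‖ := by
    by_contra hcon
    push Not at hcon
    have h1 : ∀ j : Fin (s + 3), ∀ᶠ n in (UU : Filter ℕ), ‖v n 0 j‖ ≠ ‖v n 0‖ := hcon
    obtain ⟨n, hn⟩ := (eventually_all.2 h1).exists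
    obtain ⟨i, hi⟩ := exists_max (v n 0)
    exact hn i hi
  have hdom : ∀ᶠ n in (UU : Filter ℕ), ∀ z ∈ ball (0 : ℂ) r, ‖v n z‖ ≤ 2 * ‖v n z j‖ := by
    filter_upwards [hj] with n hn
    exact dom hB hr_3 ((hv n).mono (hsubr n)) (hne n) (fun z hz => hsv n z (hsubr n hz)) hn
  set y : ℕ → ℂ → VV s := fun n z => (v n z j)⁻¹ • v n z with hy
  have hjne : ∀ᶠ n in (UU : Filter ℕ), ∀ z ∈ ball (0 : ℂ) r, v n z j ≠ 0 := by
    filter_upwards [hdom] with n hn z hz h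
    have h1 := hn z hz
    rw [h, norm_zero, mul_zero] at h1
    have := norm_pos_iff.2 (hne n z hz)
    linarith
  have hyd : ∀ᶠ n in (UU : Filter ℕ), DifferentiableOn ℂ (y n) (ball 0 r) ∧
      ∀ z ∈ ball (0 : ℂ) r, ‖y n z‖ ≤ 2 := by
    filter_upwards [hdom, hjne] with n hn hn0
    constructor
    · have h1 : DifferentiableOn ℂ (fun z => v n z j) (ball 0 r) := fun z hz =>
        (differentiableWithinAt_pi.1 (((hv n).mono (hsubr n)) z hz)) j
      exact (h1.inv hn0).smul ((hv n).mono (hsubr n))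
    · intro z hz
      rw [hy]
      simp only
      rw [norm_smul, norm_inv, inv_mul_le_iff₀ (norm_pos_iff.2 (hn0 z hz))]
      have := hn z hz
      linarith
  have hyt : ∀ z, ∃ Y : VV s, z ∈ ball (0 : ℂ) r → Tendsto (fun n => y n z) UU (𝓝 Y) := by
    intro z
    by_cases hz : z ∈ ball (0 : ℂ) r
    · obtain ⟨Y, hY⟩ := exists_ulim' (hyd.mono fun n hn => hn.2 z hz)
      exact ⟨Y, fun _ => hY⟩
    · exact ⟨0, fun h => absurd h hz⟩
  choose Y hY using hyt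
  obtain ⟨hYd, hY'⟩ := montel_ball hyd hY
  have hYj : ∀ z ∈ ball (0 : ℂ) r, Y z j = 1 := by
    intro z hz
    have h1 : Tendsto (fun n => y n z j) UU (𝓝 (Y z j)) :=
      ((continuous_apply j).tendsto _).comp (hY z hz)
    have h2 : Tendsto (fun n => y n z j) UU (𝓝 1) := by
      refine (tendsto_const_nhds (x := (1 : ℂ))).congr' ?_
      filter_upwards [hjne] with n hn
      rw [hy]
      simp only [Pi.smul_apply, smul_eq_mul]
      exact (inv_mul_cancel₀ (hn z hz)).symm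
    exact tendsto_nhds_unique h1 h2
  have hYne : ∀ z ∈ ball (0 : ℂ) r, Y z ≠ 0 := by
    intro z hz h
    have := hYj z hz
    rw [h] at this
    exact zero_ne_one this
  have hYp : ∀ z ∈ ball (0 : ℂ) r, D.p (Y z) = 0 := by
    intro z hz
    have h1 : Tendsto (fun n => D.p (y n z)) UU (𝓝 (D.p (Y z))) :=
      (D.p_cont.tendsto _).comp (hY z hz)
    have h2 : Tendsto (fun n => D.p (y n z)) UU (𝓝 0) := by
      rw [Metric.tendsto_nhds]
      intro ε hε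
      filter_upwards [big1 (2 * (max 1 (1 / ε + 1))), hdom, hjne] with n hn hn2 hn3
      rw [dist_zero_right, hy]
      simp only
      rw [D.p_smul, hp n z (hsubr n hz), mul_one, norm_pow, norm_inv]
      have h3 := hn z hz
      have h4 := hn2 z hz
      have h5 : max 1 (1 / ε + 1) < ‖v n z j‖ := by linarith
      have h6 : 1 < ‖v n z j‖ := lt_of_le_of_lt (le_max_left _ _) h5
      have h7 : 1 / ε + 1 < ‖v n z j‖ := lt_of_le_of_lt (le_max_right _ _) h5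
      have h8 : (‖v n z j‖⁻¹) ^ D.a ≤ ‖v n z j‖⁻¹ :=
        pow_le_of_le_one (by positivity) (inv_le_one_of_one_le₀ h6.le) (by have := D.ha; omega)
      refine lt_of_le_of_lt h8 ?_
      rw [inv_lt_comm₀ (by linarith) hε, inv_eq_one_div]
      linarith
    exact tendsto_nhds_unique h1 h2
  have hYq : ∀ z ∈ ball (0 : ℂ) r, D.q (Y z) = 0 := by
    intro z hz
    have h1 : Tendsto (fun n => D.q (y n z)) UU (𝓝 (D.q (Y z))) :=
      (D.q_cont.tendsto _).comp (hY z hz)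
    have h2 : Tendsto (fun n => D.q (y n z)) UU (𝓝 0) := by
      rw [Metric.tendsto_nhds]
      intro ε hε
      filter_upwards [big2 (2 * (max 1 (1 / ε + 1))), hdom, hjne] with n hn hn2 hn3
      rw [dist_zero_right]
      have h3 := hn z hz
      have h4 := hn2 z hz
      have hwz := hvw n z (hsubr n hz)
      have he0 : e n z ≠ 0 := by
        intro h
        have h5 := hq n z (hsubr n hz)
        rw [hwz, h, zero_smul] at h5
        have h6 : D.q 0 = 0 := D.swap.p_zero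
        rw [h6] at h5
        exact zero_ne_one h5
      have hwj : w n z j = e n z * v n z j := by rw [hwz]; rfl
      have h50 : ‖w n z‖ ≤ 2 * ‖w n z j‖ := by
        rw [hwj, hwz, norm_smul, norm_mul]
        have := norm_nonneg (e n z)
        nlinarith
      have hyw : y n z = (w n z j)⁻¹ • w n z := by
        rw [hwj, hwz, smul_smul, mul_inv, hy]
        simp only
        congr 1
        field_simp
      rw [hyw, D.q_smul, hq n z (hsubr n hz), mul_one, norm_pow, norm_inv]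
      have h5 : max 1 (1 / ε + 1) < ‖w n z j‖ := by linarith
      have h6 : 1 < ‖w n z j‖ := lt_of_le_of_lt (le_max_left _ _) h5
      have h7 : 1 / ε + 1 < ‖w n z j‖ := lt_of_le_of_lt (le_max_right _ _) h5
      have h8 : (‖w n z j‖⁻¹) ^ D.b ≤ ‖w n z j‖⁻¹ :=
        pow_le_of_le_one (by positivity) (inv_le_one_of_one_le₀ h6.le) (by have := D.hb; omega)
      refine lt_of_le_of_lt h8 ?_
      rw [inv_lt_comm₀ (by linarith) hε, inv_eq_one_div]
      linarith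
    exact tendsto_nhds_unique h1 h2
  have hYon : ∀ z ∈ ball (0 : ℂ) r, D.on (Y z) := by
    intro z hz
    refine D.isClosed_on.mem_of_tendsto (hY z hz) (Eventually.of_forall fun n => ?_)
    exact D.on_smul (hon n z (hsubr n hz))
  have h00 : (0 : ℂ) ∈ ball (0 : ℂ) r := mem_ball_self hrp
  have hYat : HasDerivAt Y (deriv Y 0) 0 :=
    (hYd.differentiableAt (isOpen_ball.mem_nhds h00)).hasDerivAt
  have o1 : dt (gr D.P (Y 0)) (deriv Y 0) = 0 := by
    have h1 := D.hA.hasDerivAt hYat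
    have h2 : HasDerivAt (fun z => MvPolynomial.eval (Y z) D.P) 0 0 := by
      refine (hasDerivAt_const (0 : ℂ) (0 : ℂ)).congr_of_eventuallyEq ?_
      filter_upwards [isOpen_ball.mem_nhds h00] with z hz
      exact hYp z hz
    exact h1.unique h2
  have o2 : dt (gr D.Q (Y 0)) (deriv Y 0) = 0 := by
    have h1 := D.hB.hasDerivAt hYat
    have h2 : HasDerivAt (fun z => MvPolynomial.eval (Y z) D.Q) 0 0 := by
      refine (hasDerivAt_const (0 : ℂ) (0 : ℂ)).congr_of_eventuallyEq ?_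
      filter_upwards [isOpen_ball.mem_nhds h00] with z hz
      exact hYq z hz
    exact h1.unique h2
  have o3 : ∀ i, dt (gr (D.R i) (Y 0)) (deriv Y 0) = 0 := by
    intro i
    have h1 := (D.hRR i).hasDerivAt hYat
    have h2 : HasDerivAt (fun z => MvPolynomial.eval (Y z) (D.R i)) 0 0 := by
      refine (hasDerivAt_const (0 : ℂ) (0 : ℂ)).congr_of_eventuallyEq ?_
      filter_upwards [isOpen_ball.mem_nhds h00] with z hz
      exact hYon z hz i
    exact h1.unique h2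
  have hN0 : D.N (Y 0) ≠ 0 := D.N_ne (hYne 0 h00) (hYon 0 h00) (by rw [hYp 0 h00, zero_mul])
  have hpar1 : cr (deriv Y 0) (D.N (Y 0)) = 0 := D.par_N o1 o2 o3
  have hpar2 : cr (Y 0) (D.N (Y 0)) = 0 := by
    have e1 : MvPolynomial.eval (Y 0) D.P = 0 := hYp 0 h00
    have e2 : MvPolynomial.eval (Y 0) D.Q = 0 := hYq 0 h00
    refine D.par_N ?_ ?_ fun i => ?_
    · rw [dt_comm, euler D.hP, e1, mul_zero]
    · rw [dt_comm, euler D.hQ, e2, mul_zero]
    · rw [dt_comm, D.euler_on (hYon 0 h00)]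
  have hcr0 : cr (Y 0) (deriv Y 0) = 0 := par_trans hN0 hpar2 hpar1
  have hlim : Tendsto (fun n => ‖cr (y n 0) (deriv (y n) 0)‖) UU (𝓝 ‖cr (Y 0) (deriv Y 0)‖) := by
    have h2 : Tendsto (fun n => ((y n 0, deriv (y n) 0) : VV s × VV s)) UU
        (𝓝 (Y 0, deriv Y 0)) := (hY 0 h00).prodMk_nhds (hY' 0 h00)
    exact ((cr_cont.tendsto _).comp h2).norm
  have hge : ∀ᶠ n in (UU : Filter ℕ), 1 ≤ ‖cr (y n 0) (deriv (y n) 0)‖ := by
    filter_upwards [hj, hjne] with n hn hn0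
    have hj0 : v n 0 j ≠ 0 := hn0 0 h00
    have hvat : HasDerivAt (v n) (deriv (v n) 0) 0 :=
      ((hv n).differentiableAt (isOpen_ball.mem_nhds (h0b n))).hasDerivAt
    have hvj : HasDerivAt (fun z => v n z j) (deriv (v n) 0 j) 0 := (hasDerivAt_pi.1 hvat) j
    have h1 := ((hvj.inv hj0).smul hvat).deriv
    have h2 : deriv (y n) 0 = (v n 0 j)⁻¹ • deriv (v n) 0 +
        (-(deriv (v n) 0 j) / (v n 0 j) ^ 2) • v n 0 := h1
    have h3 : cr (y n 0) (deriv (y n) 0) =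
        ((v n 0 j)⁻¹ * (v n 0 j)⁻¹) • cr (v n 0) (deriv (v n) 0) := by
      rw [h2, hy]
      funext i j
      simp only [cr_apply, Pi.smul_apply, Pi.add_apply, smul_eq_mul]
      ring
    rw [h3, norm_smul, norm_mul, norm_inv, hn]
    have h4 := h0 n
    have h5 : 0 < ‖v n 0‖ := norm_pos_iff.2 (hne n 0 h00)
    rw [← mul_inv, inv_mul_eq_div, le_div_iff₀ (by positivity)]
    linarith
  have h1 := ge_of_tendsto hlim hge
  rw [hcr0, norm_zero] at h1
  linarith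

/-- **limits of curves of bounded speed on growing discs** -/
theorem limit_curve (hk : 1 ≤ D.k) {B : ℝ} (hB : 0 ≤ B) {v w : ℕ → ℂ → VV s} {e : ℕ → ℂ → ℂ}
    (hv : ∀ n : ℕ, DifferentiableOn ℂ (v n) (ball 0 ((n : ℝ) + 1)))
    (hw : ∀ n : ℕ, DifferentiableOn ℂ (w n) (ball 0 ((n : ℝ) + 1)))
    (hp : ∀ n : ℕ, ∀ z ∈ ball (0 : ℂ) ((n : ℝ) + 1), D.p (v n z) = 1)
    (hq : ∀ n : ℕ, ∀ z ∈ ball (0 : ℂ) ((n : ℝ) + 1), D.q (w n z) = 1)
    (hvw : ∀ n : ℕ, ∀ z ∈ ball (0 : ℂ) ((n : ℝ) + 1), w n z = e n z • v n z)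
    (hsv : ∀ n : ℕ, ∀ z ∈ ball (0 : ℂ) ((n : ℝ) + 1),
      ‖cr (v n z) (deriv (v n) z)‖ ≤ B * ‖v n z‖ ^ 2)
    (hsv' : ∀ n : ℕ, ∀ z ∈ ball (0 : ℂ) ((n : ℝ) + 1),
      ‖cr (w n z) (deriv (w n) z)‖ ≤ B * ‖w n z‖ ^ 2)
    (h0 : ∀ n : ℕ, ‖v n 0‖ ^ 2 ≤ ‖cr (v n 0) (deriv (v n) 0)‖)
    (h0' : ∀ n : ℕ, ‖w n 0‖ ^ 2 ≤ ‖cr (w n 0) (deriv (w n) 0)‖)
    (hon : ∀ n : ℕ, ∀ z ∈ ball (0 : ℂ) ((n : ℝ) + 1), D.on (v n z)) :
    ∃ V : ℂ → VV s, Differentiable ℂ V ∧ Bro B V ∧ (∀ z, D.p (V z) = 1) ∧ (∀ z, D.q (V z) ≠ 0) ∧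
      cr (V 0) (deriv V 0) ≠ 0 ∧ (∀ z, D.on (V z)) ∧ ∀ z, Tendsto (fun n => v n z) UU (𝓝 (V z)) := by
  -- the speed at the origin in the limit
  have hspeed : ∀ {v : ℕ → ℂ → VV s} {V : ℂ → VV s},
      (∀ n : ℕ, ‖v n 0‖ ^ 2 ≤ ‖cr (v n 0) (deriv (v n) 0)‖) →
      Tendsto (fun n => v n 0) UU (𝓝 (V 0)) →
      Tendsto (fun n => deriv (v n) 0) UU (𝓝 (deriv V 0)) → V 0 ≠ 0 → cr (V 0) (deriv V 0) ≠ 0 := by
    intro v V h1 h2 h3 h4 h5
    have h6 : Tendsto (fun n => ‖cr (v n 0) (deriv (v n) 0)‖) UU (𝓝 ‖cr (V 0) (deriv V 0)‖) := by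
      have h7 : Tendsto (fun n => ((v n 0, deriv (v n) 0) : VV s × VV s)) UU
          (𝓝 (V 0, deriv V 0)) := h2.prodMk_nhds h3
      exact ((cr_cont.tendsto _).comp h7).norm
    have h7 := le_of_tendsto_of_tendsto (h2.norm.pow 2) h6 (Eventually.of_forall h1)
    rw [h5, norm_zero] at h7
    have := norm_pos_iff.2 h4
    nlinarith
  by_cases hA : ∃ K : ℝ, ∀ᶠ n in (UU : Filter ℕ), ‖v n 0‖ ≤ K
  · obtain ⟨K, hK⟩ := hA
    obtain ⟨V, hVd, hVt, hVt', hVp, hVB, hVon⟩ := D.lim_bdd hB hv hp hsv hon hK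
    have hV0 : V 0 ≠ 0 := D.p_eq_one_ne (hVp 0)
    have hsp := hspeed h0 (hVt 0) (hVt' 0) hV0
    by_cases hq0 : ∃ z1, D.q (V z1) ≠ 0
    · obtain ⟨z1, hz1⟩ := hq0
      exact ⟨V, hVd, hVB, hVp, (D.other_bdd hB hw hp hq hvw hsv' hVt hz1).2, hsp, hVon, hVt⟩
    · exfalso
      push Not at hq0
      have h1 := D.strat_bro hk hVd hB hVB hVp hq0 hVon
      have h2 : V = fun _ => V 0 := funext h1
      apply hsp
      rw [h2, deriv_const, cr_zero_right]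
  · exfalso
    have hb1 := not_bdd hA
    by_cases hA' : ∃ K : ℝ, ∀ᶠ n in (UU : Filter ℕ), ‖w n 0‖ ≤ K
    · obtain ⟨K, hK⟩ := hA'
      have hon' : ∀ n : ℕ, ∀ z ∈ ball (0 : ℂ) ((n : ℝ) + 1), D.swap.on (w n z) := fun n z hz => by
        rw [hvw n z hz]
        exact D.on_smul (hon n z hz)
      obtain ⟨W, hWd, hWt, hWt', hWp, hWB, hWon⟩ := D.swap.lim_bdd hB hw hq hsv' hon' hK
      have hW0 : W 0 ≠ 0 := D.swap.p_eq_one_ne (hWp 0)
      have hsp := hspeed h0' (hWt 0) (hWt' 0) hW0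
      by_cases hq0 : ∃ z1, D.p (W z1) ≠ 0
      · obtain ⟨z1, hz1⟩ := hq0
        have he0 : ∀ n : ℕ, ∀ z ∈ ball (0 : ℂ) ((n : ℝ) + 1), e n z ≠ 0 := by
          intro n z hz h
          have h5 := hq n z hz
          rw [hvw n z hz, h, zero_smul] at h5
          have h6 : D.q 0 = 0 := D.swap.p_zero
          rw [h6] at h5
          exact zero_ne_one h5
        have h1 := D.swap.other_bdd (v := w) (w := v) (e := fun n z => (e n z)⁻¹) hB hv hq hp
          (fun n z hz => by rw [hvw n z hz, smul_smul, inv_mul_cancel₀ (he0 n z hz), one_smul])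
          hsv hWt (z1 := z1) hz1
        exact hA h1.1
      · push Not at hq0
        have h1 := D.swap.strat_bro hk hWd hB hWB hWp hq0 hWon
        have h2 : W = fun _ => W 0 := funext h1
        apply hsp
        rw [h2, deriv_const, cr_zero_right]
    · exact D.no_cross hB hv hw hp hq hvw hsv hsv' h0 hon hb1 (not_bdd hA')

end Pair

end Pool.Agent.K9h84.CI
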