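import Pool.Agent.K9h84.CI.Zam

/-!
# Rescaling of curves on discs, and the hyperbolicity criterion
-/

set_option autoImplicit false

open Set Filter Topology Metric

namespace Pool.Agent.K9h84.CI

open Pool.Agent.K9h3.TC (exists_log_ball)

variable {s : ℕ}

/-- **selection of a point of almost maximal speed** -/
theorem brody_sel {r K : ℝ} (hr : 0 < r) (hK : 0 < K) {f : ℂ → VV s}
    (hf : DifferentiableOn ℂ f (ball 0 r)) (hne : ∀ z ∈ ball (0 : ℂ) r, f z ≠ 0)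
    (h0 : 4 * K / r * ‖f 0‖ ^ 2 < ‖cr (f 0) (deriv f 0)‖) :
    ∃ (z1 : ℂ) (sv : ℝ), 0 < sv ∧ (∀ ζ ∈ ball (0 : ℂ) K, z1 + ζ / sv ∈ ball (0 : ℂ) r) ∧
      (∀ ζ ∈ ball (0 : ℂ) K, ‖cr (f (z1 + ζ / sv)) (deriv f (z1 + ζ / sv))‖ ≤
        2 * sv * ‖f (z1 + ζ / sv)‖ ^ 2) ∧
      sv * ‖f z1‖ ^ 2 ≤ ‖cr (f z1) (deriv f z1)‖ := by
  set σ : ℂ → ℝ := fun z => ‖cr (f z) (deriv f z)‖ / ‖f z‖ ^ 2 with hσ
  have hsub : closedBall (0 : ℂ) (r / 2) ⊆ ball 0 r := closedBall_subset_ball (by linarith)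
  have hfc : ContinuousOn f (ball 0 r) := hf.continuousOn
  have hf'c : ContinuousOn (deriv f) (ball 0 r) := (hf.deriv isOpen_ball).continuousOn
  have hcrc : ContinuousOn (fun z => cr (f z) (deriv f z)) (ball 0 r) := by
    have h1 : ContinuousOn (fun z => ((f z, deriv f z) : VV s × VV s)) (ball 0 r) := hfc.prodMk hf'c
    exact cr_cont.comp_continuousOn h1
  have hσc : ContinuousOn σ (ball 0 r) := by
    refine hcrc.norm.div (hfc.norm.pow 2) fun z hz => ?_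
    have := norm_pos_iff.2 (hne z hz)
    positivity
  have hFc : ContinuousOn (fun z => (r / 2 - ‖z‖) * σ z) (closedBall (0 : ℂ) (r / 2)) :=
    (continuousOn_const.sub continuous_norm.continuousOn).mul (hσc.mono hsub)
  obtain ⟨z1, hz1, hmax⟩ := (isCompact_closedBall (0 : ℂ) (r / 2)).exists_isMaxOn
    ⟨0, mem_closedBall_self (by linarith)⟩ hFc
  have h00 : (0 : ℂ) ∈ ball (0 : ℂ) r := mem_ball_self hr
  have hf0 : 0 < ‖f 0‖ := norm_pos_iff.2 (hne 0 h00)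
  have hσ0 : 4 * K / r < σ 0 := by
    rw [hσ]
    simp only
    rw [lt_div_iff₀ (by positivity)]
    exact h0
  have hz1n : ‖z1‖ ≤ r / 2 := mem_closedBall_zero_iff.1 hz1
  set δ : ℝ := r / 2 - ‖z1‖ with hδ
  set sv : ℝ := σ z1 with hsv
  have hM : 2 * K < δ * sv := by
    have h1 : (r / 2 - ‖(0 : ℂ)‖) * σ 0 ≤ δ * sv :=
      hmax (mem_closedBall_self (by linarith) : (0 : ℂ) ∈ closedBall (0 : ℂ) (r / 2))
    rw [norm_zero, sub_zero] at h1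
    have h2 : r / 2 * (4 * K / r) < r / 2 * σ 0 := mul_lt_mul_of_pos_left hσ0 (by linarith)
    have h3 : r / 2 * (4 * K / r) = 2 * K := by
      field_simp
      ring
    linarith
  have hδ0 : 0 ≤ δ := by linarith
  have hδp : 0 < δ := by
    rcases hδ0.lt_or_eq with h | h
    · exact h
    · rw [← h, zero_mul] at hM
      linarith
  have hsp : 0 < sv := by
    by_contra h
    push Not at h
    have := mul_nonpos_of_nonneg_of_nonpos hδ0 h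
    linarith
  have hin : ∀ ζ ∈ ball (0 : ℂ) K, ‖z1 + ζ / sv‖ ≤ r / 2 - δ / 2 := by
    intro ζ hζ
    have h1 : ‖ζ‖ < K := mem_ball_zero_iff.1 hζ
    have h2 : ‖ζ / (sv : ℂ)‖ ≤ δ / 2 := by
      rw [norm_div, Complex.norm_real, Real.norm_of_nonneg hsp.le, div_le_iff₀ hsp]
      linarith
    have h3 := norm_add_le z1 (ζ / (sv : ℂ))
    linarith
  refine ⟨z1, sv, hsp, fun ζ hζ => ?_, fun ζ hζ => ?_, ?_⟩
  · rw [mem_ball_zero_iff]
    have := hin ζ hζ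
    linarith
  · have h1 := hin ζ hζ
    have h2 : z1 + ζ / (sv : ℂ) ∈ closedBall (0 : ℂ) (r / 2) := by
      rw [mem_closedBall_zero_iff]
      linarith
    have h3 : (r / 2 - ‖z1 + ζ / (sv : ℂ)‖) * σ (z1 + ζ / (sv : ℂ)) ≤ δ * sv := hmax h2
    have h4 : 0 ≤ σ (z1 + ζ / (sv : ℂ)) := by
      rw [hσ]
      positivity
    have h5 : δ / 2 * σ (z1 + ζ / (sv : ℂ)) ≤ δ / 2 * (2 * sv) := by
      have h6 : δ / 2 * σ (z1 + ζ / (sv : ℂ)) ≤ (r / 2 - ‖z1 + ζ / (sv : ℂ)‖) * σ (z1 + ζ / (sv : ℂ)) :=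
        mul_le_mul_of_nonneg_right (by linarith) h4
      linarith
    have h7 : σ (z1 + ζ / (sv : ℂ)) ≤ 2 * sv := le_of_mul_le_mul_left h5 (by linarith)
    have h8 : 0 < ‖f (z1 + ζ / (sv : ℂ))‖ := norm_pos_iff.2 (hne _ (hsub h2))
    rw [hσ] at h7
    simp only at h7
    rwa [div_le_iff₀ (by positivity)] at h7
  · have h8 : 0 < ‖f z1‖ := norm_pos_iff.2 (hne _ (hsub hz1))
    have h9 : sv ≤ ‖cr (f z1) (deriv f z1)‖ / ‖f z1‖ ^ 2 := le_rfl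
    rwa [le_div_iff₀ (by positivity)] at h9

/-- speed of a rescaled curve -/
theorem cr_deriv_rescale {f : ℂ → VV s} {z1 ζ : ℂ} {sv : ℝ} (hsv : 0 < sv)
    (hf : DifferentiableAt ℂ f (z1 + ζ / sv)) :
    ‖cr (f (z1 + ζ / sv)) (deriv (fun ζ => f (z1 + ζ / sv)) ζ)‖ =
      ‖cr (f (z1 + ζ / sv)) (deriv f (z1 + ζ / sv))‖ / sv := by
  have h1 : HasDerivAt (fun ζ : ℂ => z1 + ζ / sv) (1 / sv) ζ :=
    ((hasDerivAt_id ζ).div_const (sv : ℂ)).const_add z1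
  have h2 : HasDerivAt (fun ζ => f (z1 + ζ / sv)) ((1 / (sv : ℂ)) • deriv f (z1 + ζ / sv)) ζ :=
    hf.hasDerivAt.scomp ζ h1
  rw [h2.deriv, cr_smul, norm_smul, norm_div, norm_one, Complex.norm_real,
    Real.norm_of_nonneg hsv.le]
  ring

/-- speed of a curve multiplied by a function -/
theorem cr_deriv_smul {v : ℂ → VV s} {e : ℂ → ℂ} {z : ℂ} (hv : DifferentiableAt ℂ v z)
    (he : DifferentiableAt ℂ e z) :
    cr (e z • v z) (deriv (fun z => e z • v z) z) = (e z) ^ 2 • cr (v z) (deriv v z) := by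
  have h1 : deriv (fun z => e z • v z) z = e z • deriv v z + deriv e z • v z :=
    (he.hasDerivAt.smul hv.hasDerivAt).deriv
  rw [h1]
  funext i j
  simp only [cr_apply, Pi.smul_apply, Pi.add_apply, smul_eq_mul]
  ring

namespace Pair

variable (D : Pair s)

/-- normalisation of a curve on a disc -/
theorem normalise {R : ℝ} (hR : 0 < R) {u : ℂ → VV s} (hu : DifferentiableOn ℂ u (ball 0 R))
    (hp : ∀ z ∈ ball (0 : ℂ) R, D.p (u z) ≠ 0) :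
    ∃ e : ℂ → ℂ, DifferentiableOn ℂ e (ball 0 R) ∧ (∀ z, e z ≠ 0) ∧
      ∀ z ∈ ball (0 : ℂ) R, D.p (e z • u z) = 1 := by
  have hpd : DifferentiableOn ℂ (fun z => D.p (u z)) (ball 0 R) := by
    intro z hz
    exact (D.hA.hasDerivAt
      (hu.differentiableAt (isOpen_ball.mem_nhds hz)).hasDerivAt).differentiableAt.differentiableWithinAt
  obtain ⟨g, hgd, hg⟩ := exists_log_ball hpd hp hR
  have ha : (D.a : ℂ) ≠ 0 := by
    have := D.ha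
    exact_mod_cast (by omega : D.a ≠ 0)
  refine ⟨fun z => Complex.exp (-(g z / D.a)), (hgd.div_const _).neg.cexp,
    fun z => Complex.exp_ne_zero _, fun z hz => ?_⟩
  rw [D.p_smul, ← (hg z hz).1, ← Complex.exp_nat_mul, ← Complex.exp_add]
  have : (D.a : ℂ) * -(g z / D.a) + g z = 0 := by
    field_simp
    ring
  rw [this, Complex.exp_zero]

/-- **hyperbolicity criterion** for the complement of two smooth transversal curves -/
theorem speed_bound (hk : 1 ≤ D.k)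
    (hH : ∀ (V : ℂ → VV s) (B : ℝ), Differentiable ℂ V → Bro B V → (∀ z, D.on (V z)) →
      (∀ z, D.p (V z) = 1) →
      (∀ z, D.q (V z) ≠ 0) → cr (V 0) (deriv V 0) = 0) :
    ∃ C : ℝ, 0 < C ∧ ∀ (r : ℝ) (f : ℂ → VV s), 0 < r → DifferentiableOn ℂ f (ball 0 r) →
      (∀ z ∈ ball (0 : ℂ) r, D.on (f z)) → (∀ z ∈ ball (0 : ℂ) r, D.p (f z) ≠ 0) → (∀ z ∈ ball (0 : ℂ) r, D.q (f z) ≠ 0) →
      ‖cr (f 0) (deriv f 0)‖ ≤ C / r * ‖f 0‖ ^ 2 := by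
  by_contra hcon
  push Not at hcon
  have hch : ∀ n : ℕ, ∃ (v w : ℂ → VV s) (e : ℂ → ℂ),
      DifferentiableOn ℂ v (ball 0 ((n : ℝ) + 1)) ∧ DifferentiableOn ℂ w (ball 0 ((n : ℝ) + 1)) ∧
      (∀ z ∈ ball (0 : ℂ) ((n : ℝ) + 1), D.p (v z) = 1) ∧
      (∀ z ∈ ball (0 : ℂ) ((n : ℝ) + 1), D.q (w z) = 1) ∧
      (∀ z ∈ ball (0 : ℂ) ((n : ℝ) + 1), w z = e z • v z) ∧
      (∀ z ∈ ball (0 : ℂ) ((n : ℝ) + 1), ‖cr (v z) (deriv v z)‖ ≤ 2 * ‖v z‖ ^ 2) ∧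
      (∀ z ∈ ball (0 : ℂ) ((n : ℝ) + 1), ‖cr (w z) (deriv w z)‖ ≤ 2 * ‖w z‖ ^ 2) ∧
      ‖v 0‖ ^ 2 ≤ ‖cr (v 0) (deriv v 0)‖ ∧ ‖w 0‖ ^ 2 ≤ ‖cr (w 0) (deriv w 0)‖ ∧
      ∀ z ∈ ball (0 : ℂ) ((n : ℝ) + 1), D.on (v z) := by
    intro n
    have hn1 : (0 : ℝ) < (n : ℝ) + 1 := by positivity
    obtain ⟨r, f, hr, hfd, hfon, hfp, hfq, hbig⟩ := hcon (4 * ((n : ℝ) + 1)) (by positivity)
    have hne : ∀ z ∈ ball (0 : ℂ) r, f z ≠ 0 := by
      intro z hz h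
      apply hfp z hz
      rw [h]
      exact D.p_zero
    obtain ⟨z1, sv, hsv, hin, hsp, hs0⟩ := brody_sel hr hn1 hfd hne hbig
    set u : ℂ → VV s := fun ζ => f (z1 + ζ / sv) with hu
    have hud : DifferentiableOn ℂ u (ball 0 ((n : ℝ) + 1)) := by
      refine hfd.comp ?_ hin
      fun_prop
    have hus : ∀ ζ ∈ ball (0 : ℂ) ((n : ℝ) + 1), ‖cr (u ζ) (deriv u ζ)‖ ≤ 2 * ‖u ζ‖ ^ 2 := by
      intro ζ hζ
      have h1 := cr_deriv_rescale hsv (hfd.differentiableAt (isOpen_ball.mem_nhds (hin ζ hζ)))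
      have h2 := hsp ζ hζ
      show ‖cr (f (z1 + ζ / sv)) (deriv (fun ζ => f (z1 + ζ / sv)) ζ)‖ ≤ _
      rw [h1, div_le_iff₀ hsv]
      calc _ ≤ 2 * sv * ‖f (z1 + ζ / sv)‖ ^ 2 := h2
        _ = _ := by rw [hu]; ring
    have h0b : (0 : ℂ) ∈ ball (0 : ℂ) ((n : ℝ) + 1) := mem_ball_self hn1
    have hu0 : ‖u 0‖ ^ 2 ≤ ‖cr (u 0) (deriv u 0)‖ := by
      have h1 := cr_deriv_rescale hsv (hfd.differentiableAt (isOpen_ball.mem_nhds (hin 0 h0b)))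
      have e1 : z1 + 0 / (sv : ℂ) = z1 := by rw [zero_div, add_zero]
      show ‖f (z1 + 0 / sv)‖ ^ 2 ≤ ‖cr (f (z1 + 0 / sv)) (deriv (fun ζ => f (z1 + ζ / sv)) 0)‖
      rw [h1, e1, le_div_iff₀ hsv, mul_comm]
      exact hs0
    obtain ⟨e1, he1d, he1, hp1⟩ := D.normalise hn1 hud (fun z hz => hfp _ (hin z hz))
    obtain ⟨e2, he2d, he2, hq1⟩ := D.swap.normalise hn1 hud (fun z hz => hfq _ (hin z hz))
    have hsc : ∀ e : ℂ → ℂ, DifferentiableOn ℂ e (ball 0 ((n : ℝ) + 1)) →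
        ∀ z ∈ ball (0 : ℂ) ((n : ℝ) + 1),
          ‖cr (e z • u z) (deriv (fun z => e z • u z) z)‖ = ‖e z‖ ^ 2 * ‖cr (u z) (deriv u z)‖ ∧
          ‖e z • u z‖ ^ 2 = ‖e z‖ ^ 2 * ‖u z‖ ^ 2 := by
      intro e he z hz
      constructor
      · rw [cr_deriv_smul (hud.differentiableAt (isOpen_ball.mem_nhds hz))
          (he.differentiableAt (isOpen_ball.mem_nhds hz)), norm_smul, norm_pow]
      · rw [norm_smul, mul_pow]
    refine ⟨fun z => e1 z • u z, fun z => e2 z • u z, fun z => e2 z * (e1 z)⁻¹,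
      he1d.smul hud, he2d.smul hud, hp1, hq1, ?_, ?_, ?_, ?_, ?_,
      fun z hz => D.on_smul (hfon _ (hin z hz))⟩
    · intro z _
      show e2 z • u z = (e2 z * (e1 z)⁻¹) • (e1 z • u z)
      rw [smul_smul, mul_assoc, inv_mul_cancel₀ (he1 z), mul_one]
    · intro z hz
      obtain ⟨h1, h2⟩ := hsc e1 he1d z hz
      show ‖cr (e1 z • u z) (deriv (fun z => e1 z • u z) z)‖ ≤ 2 * ‖e1 z • u z‖ ^ 2
      rw [h1, h2]
      have h3 := hus z hz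
      have h4 : 0 ≤ ‖e1 z‖ ^ 2 := by positivity
      nlinarith
    · intro z hz
      obtain ⟨h1, h2⟩ := hsc e2 he2d z hz
      show ‖cr (e2 z • u z) (deriv (fun z => e2 z • u z) z)‖ ≤ 2 * ‖e2 z • u z‖ ^ 2
      rw [h1, h2]
      have h3 := hus z hz
      have h4 : 0 ≤ ‖e2 z‖ ^ 2 := by positivity
      nlinarith
    · obtain ⟨h1, h2⟩ := hsc e1 he1d 0 h0b
      show ‖e1 0 • u 0‖ ^ 2 ≤ ‖cr (e1 0 • u 0) (deriv (fun z => e1 z • u z) 0)‖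
      rw [h1, h2]
      have h4 : 0 ≤ ‖e1 0‖ ^ 2 := by positivity
      nlinarith
    · obtain ⟨h1, h2⟩ := hsc e2 he2d 0 h0b
      show ‖e2 0 • u 0‖ ^ 2 ≤ ‖cr (e2 0 • u 0) (deriv (fun z => e2 z • u z) 0)‖
      rw [h1, h2]
      have h4 : 0 ≤ ‖e2 0‖ ^ 2 := by positivity
      nlinarith
  choose v w e hv hw hp hq hvw hsv hsv' h0 h0' hon using hch
  obtain ⟨V, hVd, hVB, hVp, hVq, hsp, hVon, -⟩ := D.limit_curve hk (B := 2) (by norm_num) hv hw hp hq hvw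
    hsv hsv' h0 h0' hon
  exact hsp (hH V 2 hVd hVB hVon hVp hVq)

end Pair

end Pool.Agent.K9h84.CI
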